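import Pool.Agent.BWG.Defs

/-!
# Row A1: the completion of an Azumaya algebra over `ℤ[1/N]` at a prime `q ∤ N` is a matrix algebra

The left regular representation `L : Λ → M_n(ℤ_q)`, `n = d ^ 2`, commutes with the matrix `A` of the right
multiplication by an element that lifts the matrix unit `e₁₁`.  An idempotent `E` in the commutant,
congruent to `A`, is found by compactness; `E = P Q` with `Q P = 1` of size `d`, and
`x ↦ Q L(x) P` is the required ring homomorphism.
-/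

set_option autoImplicit false

namespace BWG

namespace A1

open Matrix

section Lift

variable {q : ℕ} [hq : Fact q.Prime] {m n o : Type*}

/-- divisibility of a matrix by `q ^ k` -/
def Dv (k : ℕ) (M : Matrix m n ℤ_[q]) : Prop := ∃ M' : Matrix m n ℤ_[q], M = (q : ℤ_[q]) ^ k • M'

lemma Dv.iff {k : ℕ} {M : Matrix m n ℤ_[q]} : Dv k M ↔ ∀ i j, (q : ℤ_[q]) ^ k ∣ M i j := by
  constructor
  · rintro ⟨M', rfl⟩ i j
    exact ⟨M' i j, rfl⟩
  · intro h
    choose M' hM' using h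
    exact ⟨fun i j => M' i j, by ext i j; exact hM' i j⟩

lemma Dv.add {k : ℕ} {M M' : Matrix m n ℤ_[q]} (h : Dv k M) (h' : Dv k M') : Dv k (M + M') := by
  obtain ⟨X, rfl⟩ := h
  obtain ⟨Y, rfl⟩ := h'
  exact ⟨X + Y, by rw [smul_add]⟩

lemma Dv.neg {k : ℕ} {M : Matrix m n ℤ_[q]} (h : Dv k M) : Dv k (-M) := by
  obtain ⟨X, rfl⟩ := h
  exact ⟨-X, by rw [smul_neg]⟩

lemma Dv.sub {k : ℕ} {M M' : Matrix m n ℤ_[q]} (h : Dv k M) (h' : Dv k M') : Dv k (M - M') := by
  rw [sub_eq_add_neg]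
  exact h.add h'.neg

lemma Dv.mul {k l : ℕ} [Fintype n] {M : Matrix m n ℤ_[q]} {M' : Matrix n o ℤ_[q]} (h : Dv k M)
    (h' : Dv l M') : Dv (k + l) (M * M') := by
  obtain ⟨X, rfl⟩ := h
  obtain ⟨Y, rfl⟩ := h'
  exact ⟨X * Y, by rw [Matrix.smul_mul, Matrix.mul_smul, smul_smul, pow_add]⟩

lemma Dv.mul_right {k : ℕ} [Fintype n] {M : Matrix m n ℤ_[q]} (h : Dv k M) (M' : Matrix n o ℤ_[q]) :
    Dv k (M * M') := by
  obtain ⟨X, rfl⟩ := h
  exact ⟨X * M', by rw [Matrix.smul_mul]⟩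

lemma Dv.mul_left {k : ℕ} [Fintype n] {M' : Matrix n o ℤ_[q]} (h : Dv k M') (M : Matrix m n ℤ_[q]) :
    Dv k (M * M') := by
  obtain ⟨X, rfl⟩ := h
  exact ⟨M * X, by rw [Matrix.mul_smul]⟩

lemma Dv.mono {k l : ℕ} (hkl : k ≤ l) {M : Matrix m n ℤ_[q]} (h : Dv l M) : Dv k M := by
  obtain ⟨X, rfl⟩ := h
  obtain ⟨c, rfl⟩ := Nat.exists_eq_add_of_le hkl
  exact ⟨(q : ℤ_[q]) ^ c • X, by rw [smul_smul, pow_add]⟩

lemma q_ne_zero : (q : ℤ_[q]) ≠ 0 := by
  exact_mod_cast hq.out.ne_zero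

lemma eq_zero_of_dvd {x : ℤ_[q]} (h : ∀ k : ℕ, (q : ℤ_[q]) ^ k ∣ x) : x = 0 := by
  by_contra hx
  have h1 : ¬ IsUnit (q : ℤ_[q]) := PadicInt.prime_p.not_isUnit
  obtain ⟨k, hk⟩ := FiniteMultiplicity.of_not_isUnit h1 hx
  exact hk (h _)

lemma eq_zero_of_dv {M : Matrix m n ℤ_[q]} (h : ∀ k, Dv k M) : M = 0 := by
  ext i j
  exact eq_zero_of_dvd fun k => Dv.iff.1 (h k) i j

lemma dv_iff_map {M : Matrix m n ℤ_[q]} : Dv 1 M ↔ M.map (PadicInt.toZMod (p := q)) = 0 := by
  rw [Dv.iff]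
  constructor
  · intro h
    ext i j
    have h1 := h i j
    rw [pow_one] at h1
    obtain ⟨c, hc⟩ := h1
    simp [hc]
  · intro h i j
    have h1 : PadicInt.toZMod (M i j) = 0 := congrFun (congrFun h i) j
    rw [← RingHom.mem_ker, PadicInt.ker_toZMod, PadicInt.maximalIdeal_eq_span_p,
      Ideal.mem_span_singleton] at h1
    rw [pow_one]
    exact h1

/-- an idempotent that is divisible by `q` vanishes -/
lemma idem_zero [Fintype n] {F : Matrix n n ℤ_[q]} (hF : F * F = F) (h : Dv 1 F) : F = 0 := by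
  refine eq_zero_of_dv fun k => ?_
  induction k with
  | zero => exact ⟨F, by simp⟩
  | succ k ih =>
    rw [← hF]
    exact ih.mul h

variable [Fintype n] [DecidableEq n]

/-- lifting of an idempotent in a commutant -/
lemma exists_idem {ι : Type*} (L : ι → Matrix n n ℤ_[q]) (A : Matrix n n ℤ_[q])
    (hA : ∀ i, A * L i = L i * A) (h : Dv 1 (A * A - A)) :
    ∃ E : Matrix n n ℤ_[q], (∀ i, E * L i = L i * E) ∧ Dv 1 (E - A) ∧ E * E = E := by
  have hc : CompactSpace (Matrix n n ℤ_[q]) :=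
    inferInstanceAs (CompactSpace (n → n → ℤ_[q]))
  have hdv : ∀ k, IsClosed {M : Matrix n n ℤ_[q] | Dv k M} := by
    intro k
    have h1 : {M : Matrix n n ℤ_[q] | Dv k M} =
        Set.range (fun M' : Matrix n n ℤ_[q] => (q : ℤ_[q]) ^ k • M') := by
      ext M
      constructor
      · rintro ⟨M', rfl⟩
        exact ⟨M', rfl⟩
      · rintro ⟨M', rfl⟩
        exact ⟨M', rfl⟩
    rw [h1]
    exact (isCompact_range (continuous_const_smul _)).isClosed
  set X : ℕ → Set (Matrix n n ℤ_[q]) := fun k =>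
    {E | (∀ i, E * L i = L i * E) ∧ Dv 1 (E - A) ∧ Dv (k + 1) (E * E - E)} with hX
  have hclosed : ∀ k, IsClosed (X k) := by
    intro k
    refine IsClosed.inter ?_ (IsClosed.inter ?_ ?_)
    · have : {E : Matrix n n ℤ_[q] | ∀ i, E * L i = L i * E} =
          ⋂ i, {E | E * L i = L i * E} := by
        ext E
        simp
      show IsClosed {E : Matrix n n ℤ_[q] | ∀ i, E * L i = L i * E}
      rw [this]
      exact isClosed_iInter fun i => isClosed_eq (continuous_id.mul continuous_const)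
        (continuous_const.mul continuous_id)
    · exact (hdv 1).preimage (continuous_id.sub continuous_const)
    · exact (hdv (k + 1)).preimage ((continuous_id.mul continuous_id).sub continuous_id)
  have hne : ∀ k, (X k).Nonempty := by
    intro k
    induction k with
    | zero => exact ⟨A, hA, ⟨0, by simp⟩, h⟩
    | succ k ih =>
      obtain ⟨B, h1, h2, h3⟩ := ih
      refine ⟨3 • (B * B) - 2 • (B * B * B), fun i => ?_, ?_, ?_⟩
      · have e1 : B * B * L i = L i * (B * B) := by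
          rw [mul_assoc, h1, ← mul_assoc, h1, mul_assoc]
        have e2 : B * B * B * L i = L i * (B * B * B) := by
          rw [mul_assoc (B * B), h1, ← mul_assoc, e1, mul_assoc]
        rw [sub_mul, mul_sub, smul_mul_assoc, smul_mul_assoc, mul_smul_comm, mul_smul_comm, e1, e2]
      · have e : 3 • (B * B) - 2 • (B * B * B) - A = (B - A) - (B * B - B) * (2 • B - 1) := by
          noncomm_ring
        rw [e]
        exact h2.sub ((h3.mono (by omega)).mul_right _)
      · have e : (3 • (B * B) - 2 • (B * B * B)) * (3 • (B * B) - 2 • (B * B * B)) -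
            (3 • (B * B) - 2 • (B * B * B)) =
            (B * B - B) * (B * B - B) * (4 • (B * B - B) - 3) := by
          noncomm_ring
        rw [e]
        exact ((h3.mul h3).mono (by omega)).mul_right _
  have hmono : ∀ k, X (k + 1) ⊆ X k := fun k B ⟨h1, h2, h3⟩ => ⟨h1, h2, h3.mono (by omega)⟩
  obtain ⟨E, hE⟩ := IsCompact.nonempty_iInter_of_sequence_nonempty_isCompact_isClosed X hmono hne
    (hclosed 0).isCompact hclosed
  have hE' := Set.mem_iInter.1 hE
  refine ⟨E, (hE' 0).1, (hE' 0).2.1, ?_⟩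
  rw [← sub_eq_zero]
  refine eq_zero_of_dv fun k => (hE' k).2.2.mono (by omega)

variable {d : Type*} [Fintype d] [DecidableEq d]

/-- a matrix with identity reduction is invertible -/
lemma isUnit_of_dv {G : Matrix d d ℤ_[q]} (h : Dv 1 (G - 1)) : IsUnit G := by
  rw [Matrix.isUnit_iff_isUnit_det]
  have h1 : G.map (PadicInt.toZMod (p := q)) = 1 := by
    have h2 := dv_iff_map.1 h
    have h3 : (G - 1).map (PadicInt.toZMod (p := q)) =
        G.map (PadicInt.toZMod (p := q)) - 1 := by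
      rw [Matrix.map_sub _ (fun a b => map_sub _ a b), Matrix.map_one _ (map_zero _) (map_one _)]
    rw [h3] at h2
    exact sub_eq_zero.1 h2
  have h2 : PadicInt.toZMod G.det = 1 := by
    have := RingHom.map_det (PadicInt.toZMod (p := q)) G
    rw [this]
    have h3 : (PadicInt.toZMod (p := q)).mapMatrix G = 1 := h1
    rw [h3, Matrix.det_one]
  by_contra h3
  have h4 : G.det ∈ IsLocalRing.maximalIdeal ℤ_[q] := h3
  rw [← PadicInt.ker_toZMod, RingHom.mem_ker, h2] at h4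
  exact one_ne_zero h4

omit [DecidableEq n] in
/-- factorization of the idempotent -/
lemma exists_factor (A E : Matrix n n ℤ_[q]) (hE : E * E = E) (hEA : Dv 1 (E - A))
    (P₀ : Matrix n d ℤ_[q]) (Q₀ : Matrix d n ℤ_[q]) (h1 : Dv 1 (Q₀ * P₀ - 1))
    (h2 : Dv 1 (P₀ * Q₀ - A)) :
    ∃ (P : Matrix n d ℤ_[q]) (Q : Matrix d n ℤ_[q]), Q * P = 1 ∧ P * Q = E := by
  -- `P₀ Q₀ ≡ E`
  have h3 : Dv 1 (P₀ * Q₀ - E) := by
    have := h2.sub hEA
    have e : P₀ * Q₀ - A - (E - A) = P₀ * Q₀ - E := by abel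
    rwa [e] at this
  set G : Matrix d d ℤ_[q] := Q₀ * E * P₀ with hG
  have hG1 : Dv 1 (G - 1) := by
    have e : G - 1 = (Q₀ * P₀ - 1) * (Q₀ * P₀) + (Q₀ * P₀ - 1) - Q₀ * (P₀ * Q₀ - E) * P₀ := by
      rw [hG]
      simp only [Matrix.mul_sub, Matrix.sub_mul, Matrix.mul_assoc, Matrix.one_mul]
      abel
    rw [e]
    exact ((h1.mul_right _).add h1).sub ((h3.mul_left _).mul_right _)
  obtain ⟨U, hU⟩ := isUnit_of_dv hG1
  have hUG : (U⁻¹).val * G = 1 := by rw [← hU]; exact U.inv_mul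
  have hGU : G * (U⁻¹).val = 1 := by rw [← hU]; exact U.mul_inv
  refine ⟨E * P₀, (U⁻¹).val * (Q₀ * E), ?_, ?_⟩
  · calc (U⁻¹).val * (Q₀ * E) * (E * P₀) = (U⁻¹).val * (Q₀ * (E * E) * P₀) := by
          simp only [Matrix.mul_assoc]
      _ = 1 := by rw [hE]; exact hUG
  · set E' : Matrix n n ℤ_[q] := E * P₀ * ((U⁻¹).val * (Q₀ * E)) with hE'
    have e1 : E * E' = E' := by
      rw [hE']
      simp only [← Matrix.mul_assoc]
      rw [hE]
    have e2 : E' * E = E' := by
      rw [hE']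
      simp only [Matrix.mul_assoc]
      rw [hE]
    have e3 : E' * E' = E' := by
      calc E' * E' = E * P₀ * ((U⁻¹).val * (Q₀ * (E * E) * P₀) * ((U⁻¹).val * (Q₀ * E))) := by
            rw [hE']
            simp only [Matrix.mul_assoc]
        _ = E * P₀ * ((U⁻¹).val * G * ((U⁻¹).val * (Q₀ * E))) := by rw [hE]
        _ = E' := by rw [hUG, Matrix.one_mul]
    have hUi : Dv 1 ((U⁻¹).val - 1) := by
      have e : (U⁻¹).val - 1 = -((U⁻¹).val * (G - 1)) := by
        rw [Matrix.mul_sub, hUG, Matrix.mul_one]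
        abel
      rw [e]
      exact (hG1.mul_left _).neg
    have e4 : Dv 1 (E - E') := by
      have e : E - E' = E * (E - P₀ * Q₀) * E - E * P₀ * ((U⁻¹).val - 1) * (Q₀ * E) := by
        rw [hE']
        simp only [Matrix.mul_sub, Matrix.sub_mul, Matrix.mul_assoc, Matrix.one_mul]
        rw [hE, hE]
        abel
      rw [e]
      refine Dv.sub (Dv.mul_right (Dv.mul_left ?_ _) _) ((hUi.mul_left _).mul_right _)
      have := h3.neg
      rwa [neg_sub] at this
    have e5 : (E - E') * (E - E') = E - E' := by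
      rw [Matrix.sub_mul, Matrix.mul_sub, Matrix.mul_sub, hE, e1, e2, e3]
      abel
    have e6 := idem_zero e5 e4
    exact (sub_eq_zero.1 e6).symm

end Lift

/-! ### the coefficients -/

section Coef

variable {N : ℕ} {R : Type*} [CommRing R] [IsLocalization.Away (N : ℤ) R] {q : ℕ}
  [hq : Fact q.Prime]

lemma isUnit_N (hqN : ¬ q ∣ N) : IsUnit ((Int.castRingHom ℤ_[q]) (N : ℤ)) := by
  rw [PadicInt.isUnit_iff]
  have h1 : ¬ ‖(((N : ℤ) : ℤ) : ℤ_[q])‖ < 1 := by
    rw [PadicInt.norm_int_lt_one_iff_dvd]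
    exact_mod_cast hqN
  have h2 : ‖(((N : ℤ) : ℤ) : ℤ_[q])‖ ≤ 1 := PadicInt.norm_le_one _
  exact le_antisymm h2 (not_lt.1 h1)

/-- the coefficients in the `q`-adic integers -/
noncomputable def coef (N : ℕ) (R : Type*) [CommRing R] [IsLocalization.Away (N : ℤ) R] {q : ℕ}
    [Fact q.Prime] (hqN : ¬ q ∣ N) : R →+* ℤ_[q] :=
  IsLocalization.Away.lift (N : ℤ) (isUnit_N hqN)

/-- the coefficients modulo `q` -/
noncomputable def coef1 (N : ℕ) (R : Type*) [CommRing R] [IsLocalization.Away (N : ℤ) R] {q : ℕ}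
    [Fact q.Prime] (hqN : ¬ q ∣ N) : R →+* ZMod q :=
  (PadicInt.toZMod (p := q)).comp (coef N R hqN)

lemma coef1_ker (hqN : ¬ q ∣ N) {r : R} (h : coef1 N R hqN r = 0) : ∃ r', r = (q : R) * r' := by
  obtain ⟨k, z, hz⟩ := IsLocalization.Away.surj (N : ℤ) r
  have h1 : coef1 N R hqN (r * algebraMap ℤ R N ^ k) = coef1 N R hqN (algebraMap ℤ R z) := by
    rw [hz]
  rw [map_mul, h, zero_mul] at h1
  have h2 : coef1 N R hqN (algebraMap ℤ R z) = (z : ZMod q) := by
    rw [eq_intCast (algebraMap ℤ R) z, map_intCast]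
  rw [h2] at h1
  obtain ⟨c, hc⟩ := (ZMod.intCast_zmod_eq_zero_iff_dvd z q).1 h1.symm
  obtain ⟨u, hu⟩ := IsLocalization.Away.algebraMap_isUnit (S := R) (N : ℤ)
  refine ⟨(c : R) * ((u⁻¹ : Rˣ) : R) ^ k, ?_⟩
  have h3 : r = algebraMap ℤ R z * ((u⁻¹ : Rˣ) : R) ^ k := by
    rw [← hz, ← hu, mul_assoc, ← mul_pow, Units.mul_inv, one_pow, mul_one]
  rw [h3, hc]
  simp only [map_mul, eq_intCast, Int.cast_natCast]
  ring

end Coef

/-! ### two surjections with the same kernel -/

lemma exists_equiv {G V V' : Type*} [AddCommGroup G] [AddCommGroup V] [AddCommGroup V'] (f : G →+ V)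
    (g : G →+ V') (hf : Function.Surjective f) (hg : Function.Surjective g)
    (h : ∀ x, f x = 0 ↔ g x = 0) : ∃ θ : V ≃+ V', ∀ x, θ (f x) = g x := by
  have hk : ∀ x y, f x = f y ↔ g x = g y := by
    intro x y
    rw [← sub_eq_zero, ← map_sub, h, map_sub, sub_eq_zero]
  obtain ⟨s, hs⟩ := hf.hasRightInverse
  have h1 : ∀ x, g (s (f x)) = g x := fun x => (hk _ _).1 (hs (f x))
  refine ⟨AddEquiv.ofBijective (AddMonoidHom.mk' (fun v => g (s v)) ?_) ⟨?_, ?_⟩, ?_⟩
  · intro v w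
    rw [← map_add]
    refine (hk _ _).1 ?_
    rw [hs, map_add, hs, hs]
  · intro v w hvw
    have h2 : g (s v) = g (s w) := hvw
    rw [← hs v, ← hs w]
    exact (hk _ _).2 h2
  · intro w
    obtain ⟨x, rfl⟩ := hg w
    exact ⟨f x, h1 x⟩
  · intro x
    exact h1 x

end A1

/-! ### the theorem -/

section Thm

open A1 Matrix

variable {d N : ℕ} {R Λ : Type*} [CommRing R] [Ring Λ] [Algebra R Λ]

/-- A1 -/
theorem IsAzumaya.exists_padic (hN : N ≠ 0) [IsLocalization.Away (N : ℤ) R] (hd : d ≠ 0)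
    (h : IsAzumaya d N R Λ) (q : ℕ) [hq : Fact q.Prime] (hqN : ¬ q ∣ N) :
    ∃ ρ : Λ →+* Matrix (Fin d) (Fin d) ℤ_[q],
      (∀ (k : ℕ) (x : Λ), (∀ r s, (q : ℤ_[q]) ^ k ∣ ρ x r s) → ∃ y, x = (q : Λ) ^ k * y) ∧
      ∀ (k : ℕ) (M : Matrix (Fin d) (Fin d) ℤ_[q]), ∃ x : Λ, ∀ r s,
        (q : ℤ_[q]) ^ k ∣ M r s - ρ x r s := by
  classical
  have : NeZero d := ⟨hd⟩
  have hRn : Nontrivial R := (coef N R hqN).domain_nontrivial
  have hfree := h.free
  have hfin : Module.Finite R Λ := Module.finite_of_finrank_pos (by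
    rw [h.rank]
    positivity)
  set b : Module.Basis (Fin (d ^ 2)) R Λ := Module.finBasisOfFinrankEq R Λ h.rank with hb
  obtain ⟨ρb, hρs, hρk⟩ := h.fibre q hq.out hqN
  have hρq : ∀ y, ρb ((q : Λ) * y) = 0 := by
    intro y
    rw [map_mul, map_natCast]
    have : ((q : ℕ) : Matrix (Fin d) (Fin d) (ZMod q)) = 0 := CharP.cast_eq_zero _ q
    rw [this, zero_mul]
  set φ := coef N R hqN with hφ
  set ψ := coef1 N R hqN with hψ
  -- coordinates modulo `q`
  let π : Λ →+ (Fin (d ^ 2) → ZMod q) :=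
    { toFun := fun x i => ψ (b.repr x i)
      map_zero' := by ext i; simp
      map_add' := fun x y => by ext i; simp }
  have hπs : Function.Surjective π := by
    intro w
    refine ⟨∑ i, ((w i).val : R) • b i, ?_⟩
    ext i
    show ψ (b.repr (∑ i, ((w i).val : R) • b i) i) = w i
    rw [b.repr_sum_self, map_natCast, ZMod.natCast_zmod_val]
  have hπk : ∀ x, π x = 0 → ∃ y, x = (q : Λ) * y := by
    intro x hx
    have h1 : ∀ i, ∃ r', b.repr x i = (q : R) * r' := fun i => coef1_ker hqN (congrFun hx i)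
    choose r hr using h1
    refine ⟨∑ i, r i • b i, ?_⟩
    rw [← b.sum_repr x, Finset.mul_sum]
    refine Finset.sum_congr rfl fun i _ => ?_
    rw [hr i, mul_smul, Nat.cast_smul_eq_nsmul, nsmul_eq_mul]
  have hπq : ∀ y, π ((q : Λ) * y) = 0 := by
    intro y
    ext i
    show ψ (b.repr ((q : Λ) * y) i) = 0
    rw [← nsmul_eq_mul, map_nsmul]
    simp
  obtain ⟨θ, hθ⟩ := exists_equiv π ρb.toAddMonoidHom hπs hρs (fun x => by
    constructor
    · intro hx
      obtain ⟨y, rfl⟩ := hπk x hx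
      exact hρq y
    · intro hx
      obtain ⟨y, rfl⟩ := hρk x hx
      exact hπq y)
  have hθ' : ∀ x, θ (π x) = ρb x := hθ
  -- the matrices modulo `q`
  let Ql : (Fin (d ^ 2) → ZMod q) →+ (Fin d → ZMod q) :=
    { toFun := fun w i => θ w i 0
      map_zero' := by ext i; simp
      map_add' := fun x y => by ext i; simp }
  let Pm : (Fin d → ZMod q) →+ (Matrix (Fin d) (Fin d) (ZMod q)) :=
    { toFun := fun v => Matrix.of fun i j => if j = 0 then v i else 0
      map_zero' := by ext i j; simp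
      map_add' := fun x y => by
        ext i j
        by_cases hj : j = 0
        · simp [hj]
        · simp [hj] }
  let Pl : (Fin d → ZMod q) →+ (Fin (d ^ 2) → ZMod q) := θ.symm.toAddMonoidHom.comp Pm
  have hQP : ∀ v, Ql (Pl v) = v := by
    intro v
    ext i
    show θ (θ.symm (Pm v)) i 0 = v i
    rw [AddEquiv.apply_symm_apply]
    show (if (0 : Fin d) = 0 then v i else 0) = v i
    rw [if_pos rfl]
  set Pb : Matrix (Fin (d ^ 2)) (Fin d) (ZMod q) :=
    LinearMap.toMatrix' (AddMonoidHom.toZModLinearMap q Pl) with hPb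
  set Qb : Matrix (Fin d) (Fin (d ^ 2)) (ZMod q) :=
    LinearMap.toMatrix' (AddMonoidHom.toZModLinearMap q Ql) with hQb
  have hQPb : Qb * Pb = 1 := by
    rw [hPb, hQb, ← LinearMap.toMatrix'_comp, ← LinearMap.toMatrix'_id]
    congr 1
    exact LinearMap.ext fun v => hQP v
  -- right multiplication
  obtain ⟨a, ha⟩ := hρs (Matrix.single 0 0 1)
  set A₀ : Matrix (Fin (d ^ 2)) (Fin (d ^ 2)) R :=
    LinearMap.toMatrix b b (LinearMap.mulRight R a) with hA₀
  set A : Matrix (Fin (d ^ 2)) (Fin (d ^ 2)) ℤ_[q] := φ.mapMatrix A₀ with hA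
  let L : Λ →+* Matrix (Fin (d ^ 2)) (Fin (d ^ 2)) ℤ_[q] :=
    φ.mapMatrix.comp (Algebra.leftMulMatrix b).toRingHom
  have hAL : ∀ x, A * L x = L x * A := by
    intro x
    show φ.mapMatrix A₀ * φ.mapMatrix (Algebra.leftMulMatrix b x) =
      φ.mapMatrix (Algebra.leftMulMatrix b x) * φ.mapMatrix A₀
    rw [← map_mul, ← map_mul, hA₀, Algebra.leftMulMatrix_apply, ← LinearMap.toMatrix_comp,
      ← LinearMap.toMatrix_comp]
    congr 2
    ext y
    show x * y * a = x * (y * a)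
    rw [mul_assoc]
  have hAb : ∀ x, (PadicInt.toZMod.mapMatrix A) *ᵥ (π x) = π (x * a) := by
    intro x
    have h1 : PadicInt.toZMod.mapMatrix A = ψ.mapMatrix A₀ := rfl
    have h2 := LinearMap.toMatrix_mulVec_repr b b (LinearMap.mulRight R a) x
    rw [h1]
    have h3 : π x = fun i => ψ (b.repr x i) := rfl
    ext i
    have h4 := RingHom.map_mulVec ψ A₀ (b.repr x) i
    rw [hA₀, h2] at h4
    exact h4.symm
  have hPQb : Pb * Qb = PadicInt.toZMod.mapMatrix A := by
    have h1 : ∀ w, (Pb * Qb) *ᵥ w = (PadicInt.toZMod.mapMatrix A) *ᵥ w := by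
      intro w
      obtain ⟨x, rfl⟩ := hπs w
      rw [hAb, ← Matrix.mulVec_mulVec, hPb, hQb, LinearMap.toMatrix'_mulVec,
        LinearMap.toMatrix'_mulVec]
      show Pl (Ql (π x)) = π (x * a)
      apply θ.injective
      show θ (θ.symm (Pm (Ql (π x)))) = _
      rw [AddEquiv.apply_symm_apply, hθ', map_mul, ha]
      ext i j
      show (if j = 0 then θ (π x) i 0 else 0) = _
      rw [hθ']
      by_cases hj : j = 0
      · rw [if_pos hj, hj, Matrix.mul_single_apply_same, mul_one]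
      · rw [if_neg hj, Matrix.mul_single_apply_of_ne _ _ _ _ _ hj]
    ext i j
    have h2 := congrFun (h1 (Pi.single j 1)) i
    rwa [Matrix.mulVec_single_one, Matrix.mulVec_single_one] at h2
  -- lifts to the `q`-adic integers
  set P₀ : Matrix (Fin (d ^ 2)) (Fin d) ℤ_[q] := Pb.map (fun c => ((c.val : ℕ) : ℤ_[q])) with hP₀
  set Q₀ : Matrix (Fin d) (Fin (d ^ 2)) ℤ_[q] := Qb.map (fun c => ((c.val : ℕ) : ℤ_[q])) with hQ₀
  have hP₀' : P₀.map (PadicInt.toZMod (p := q)) = Pb := by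
    ext i j
    show PadicInt.toZMod (((Pb i j).val : ℕ) : ℤ_[q]) = Pb i j
    rw [map_natCast, ZMod.natCast_zmod_val]
  have hQ₀' : Q₀.map (PadicInt.toZMod (p := q)) = Qb := by
    ext i j
    show PadicInt.toZMod (((Qb i j).val : ℕ) : ℤ_[q]) = Qb i j
    rw [map_natCast, ZMod.natCast_zmod_val]
  have h1 : Dv 1 (Q₀ * P₀ - 1) := by
    rw [dv_iff_map, Matrix.map_sub _ (fun a b => map_sub _ a b), Matrix.map_mul, hP₀', hQ₀',
      Matrix.map_one _ (map_zero _) (map_one _), hQPb, sub_self]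
  have h2 : Dv 1 (P₀ * Q₀ - A) := by
    rw [dv_iff_map, Matrix.map_sub _ (fun a b => map_sub _ a b), Matrix.map_mul, hP₀', hQ₀', hPQb]
    exact sub_self _
  have h3 : Dv 1 (A * A - A) := by
    rw [dv_iff_map, Matrix.map_sub _ (fun a b => map_sub _ a b), Matrix.map_mul]
    have e : A.map (PadicInt.toZMod (p := q)) = Pb * Qb := hPQb.symm
    rw [e, Matrix.mul_assoc, ← Matrix.mul_assoc Qb, hQPb, Matrix.one_mul, sub_self]
  obtain ⟨E, hEL, hEA, hE⟩ := exists_idem (fun x => L x) A hAL h3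
  obtain ⟨Pf, Qf, hQPf, hPQf⟩ := exists_factor A E hE hEA P₀ Q₀ h1 h2
  have hEP : E * Pf = Pf := by rw [← hPQf, Matrix.mul_assoc, hQPf, Matrix.mul_one]
  -- the representation
  let ρ : Λ →+* Matrix (Fin d) (Fin d) ℤ_[q] :=
    { toFun := fun x => Qf * L x * Pf
      map_one' := by rw [map_one, Matrix.mul_one, hQPf]
      map_mul' := fun x y => by
        have e : Qf * L x * Pf * (Qf * L y * Pf) = Qf * L x * ((Pf * Qf) * L y) * Pf := by
          simp only [Matrix.mul_assoc]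
        rw [e, hPQf, hEL y, map_mul]
        simp only [Matrix.mul_assoc]
        rw [hEP]
      map_zero' := by rw [map_zero, Matrix.mul_zero, Matrix.zero_mul]
      map_add' := fun x y => by rw [map_add, Matrix.mul_add, Matrix.add_mul] }
  -- reduction
  set ρr : Λ →+* Matrix (Fin d) (Fin d) (ZMod q) := (PadicInt.toZMod (p := q)).mapMatrix.comp ρ
    with hρr
  have hker : RingHom.ker ρb ≤ RingHom.ker ρr := by
    intro x hx
    obtain ⟨y, rfl⟩ := hρk x hx
    rw [RingHom.mem_ker, map_mul, map_natCast]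
    have : ((q : ℕ) : Matrix (Fin d) (Fin d) (ZMod q)) = 0 := CharP.cast_eq_zero _ q
    rw [this, zero_mul]
  set σ : Matrix (Fin d) (Fin d) (ZMod q) →+* Matrix (Fin d) (Fin d) (ZMod q) :=
    ρb.liftOfRightInverse (Function.surjInv hρs) (Function.rightInverse_surjInv hρs) ⟨ρr, hker⟩
    with hσ
  have hσ' : ∀ x, σ (ρb x) = ρr x := fun x =>
    ρb.liftOfRightInverse_comp_apply (Function.surjInv hρs) (Function.rightInverse_surjInv hρs)
      ⟨ρr, hker⟩ x
  have hσi : Function.Injective σ := RingHom.injective σ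
  have hσs : Function.Surjective σ := Finite.injective_iff_surjective.1 hσi
  have hz : ∀ x, (∀ r s, (q : ℤ_[q]) ∣ ρ x r s) → ∃ y, x = (q : Λ) * y := by
    intro x hx
    refine hρk x (hσi ?_)
    rw [hσ' x, map_zero]
    refine (dv_iff_map (M := ρ x)).1 (Dv.iff.2 fun i j => ?_)
    rw [pow_one]
    exact hx i j
  have hρy : ∀ (y : Λ) r s, ρ ((q : Λ) * y) r s = (q : ℤ_[q]) * ρ y r s := by
    intro y r s
    rw [map_mul, map_natCast]
    have : ((q : ℕ) : Matrix (Fin d) (Fin d) ℤ_[q]) * ρ y = (q : ℤ_[q]) • ρ y := by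
      rw [← nsmul_eq_mul, Nat.cast_smul_eq_nsmul]
    rw [this]
    rfl
  refine ⟨ρ, ?_, ?_⟩
  · intro k
    induction k with
    | zero =>
      intro x _
      exact ⟨x, by simp⟩
    | succ k ih =>
      intro x hx
      obtain ⟨y, rfl⟩ := hz x fun r s => (dvd_pow_self _ (Nat.succ_ne_zero k)).trans (hx r s)
      obtain ⟨z, rfl⟩ := ih y fun r s => by
        have h4 := hx r s
        rw [hρy, pow_succ'] at h4
        exact (mul_dvd_mul_iff_left q_ne_zero).1 h4
      exact ⟨z, by rw [pow_succ', mul_assoc]⟩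
  · intro k
    induction k with
    | zero =>
      intro M
      exact ⟨0, fun r s => by simp⟩
    | succ k ih =>
      intro M
      obtain ⟨Y, hY⟩ := hσs ((PadicInt.toZMod (p := q)).mapMatrix M)
      obtain ⟨x₀, rfl⟩ := hρs Y
      have h4 : Dv 1 (M - ρ x₀) := by
        rw [dv_iff_map, Matrix.map_sub _ (fun a b => map_sub _ a b)]
        have h5 : (ρ x₀).map (PadicInt.toZMod (p := q)) = M.map (PadicInt.toZMod (p := q)) := by
          have := hσ' x₀
          rw [hY] at this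
          exact this.symm
        rw [h5, sub_self]
      obtain ⟨M₁, hM₁⟩ := h4
      obtain ⟨x₁, hx₁⟩ := ih M₁
      refine ⟨x₀ + (q : Λ) * x₁, fun r s => ?_⟩
      have h5 : M r s - ρ (x₀ + (q : Λ) * x₁) r s = (q : ℤ_[q]) * (M₁ r s - ρ x₁ r s) := by
        have h6 : M r s - ρ x₀ r s = (q : ℤ_[q]) ^ 1 * M₁ r s := congrFun (congrFun hM₁ r) s
        rw [map_add, Matrix.add_apply, hρy, ← sub_sub, h6, pow_one, mul_sub]
      rw [h5, pow_succ']
      exact mul_dvd_mul_left _ (hx₁ r s)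

end Thm

end BWG
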