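import Pool.Agent.BWG.Defs
import Pool.Agent.BW.Stable

/-!
# Bounded width, prime degree: one Azumaya algebra (row A2)
-/

set_option autoImplicit false

namespace BWG

open Matrix BW
open Pool.Agent.Helper24.BWR (SR2')

/-! ### The fibres -/

section fibre

variable {d N : ℕ} {R Λ : Type*} [CommRing R] [IsLocalization.Away (N : ℤ) R] [Ring Λ] [Algebra R Λ]
  {p : ℕ} (hp : p.Prime) (hpN : ¬ p ∣ N) (ρ : Λ →+* Matrix (Fin d) (Fin d) (ZMod p))

theorem rho_alg (r : R) :
    ρ (algebraMap R Λ r) = algebraMap (ZMod p) (Matrix (Fin d) (Fin d) (ZMod p)) (Loc.phi N R hp hpN r) := by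
  have h : ρ.comp (algebraMap R Λ) =
      (algebraMap (ZMod p) (Matrix (Fin d) (Fin d) (ZMod p))).comp (Loc.phi N R hp hpN) :=
    IsLocalization.ringHom_ext (Submonoid.powers (N : ℤ)) (RingHom.ext_int _ _)
  exact RingHom.congr_fun h r

theorem rho_smul (r : R) (x : Λ) : ρ (r • x) = Loc.phi N R hp hpN r • ρ x := by
  rw [Algebra.smul_def, map_mul, rho_alg hp hpN, ← Algebra.smul_def]

variable {κ : Type*} [Fintype κ] (b : Module.Basis κ R Λ) (hs : Function.Surjective ρ)

include hp hpN in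
theorem rho_sum (x : Λ) : ρ x = ∑ i, Loc.phi N R hp hpN (b.repr x i) • ρ (b i) := by
  conv_lhs => rw [← b.sum_repr x]
  rw [map_sum]
  exact Finset.sum_congr rfl fun i _ => rho_smul hp hpN ρ _ _

include hp hpN hs in
theorem span_top : (⊤ : Submodule (ZMod p) (Matrix (Fin d) (Fin d) (ZMod p))) ≤
    Submodule.span (ZMod p) (Set.range fun i => ρ (b i)) := by
  intro A _
  obtain ⟨x, rfl⟩ := hs A
  rw [rho_sum hp hpN ρ b x]
  exact Submodule.sum_mem _ fun i _ => Submodule.smul_mem _ _ (Submodule.subset_span ⟨i, rfl⟩)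

/-- the basis of the fibre -/
noncomputable def eb (hκ : Fintype.card κ = d ^ 2) :
    Module.Basis κ (ZMod p) (Matrix (Fin d) (Fin d) (ZMod p)) :=
  haveI : Fact p.Prime := ⟨hp⟩
  basisOfTopLeSpanOfCardEqFinrank (fun i => ρ (b i)) (span_top hp hpN ρ b hs)
    (by rw [Module.finrank_matrix, hκ]; simp [pow_two])

variable (hκ : Fintype.card κ = d ^ 2)

theorem eb_apply (i : κ) : eb hp hpN ρ b hs hκ i = ρ (b i) := by
  unfold eb; simp

theorem eb_repr (x : Λ) (i : κ) :
    (eb hp hpN ρ b hs hκ).repr (ρ x) i = Loc.phi N R hp hpN (b.repr x i) := by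
  have : Fact p.Prime := ⟨hp⟩
  rw [rho_sum hp hpN ρ b x]
  simp only [← eb_apply hp hpN ρ b hs hκ]
  rw [Module.Basis.repr_sum_self]

/-! ### The determinant of left multiplication modulo a prime -/

variable {m : Type*} [Fintype m] [DecidableEq m]

omit [DecidableEq m] in
theorem lmul_apply (S : Type*) [CommRing S] {A : Type*} [Ring A] [Algebra S A] (X : Matrix m m A)
    (v : m → A) : lmul S X v = X *ᵥ v := rfl

include b hs hκ in
theorem phi_rdet (X : Matrix m m Λ) :
    Loc.phi N R hp hpN (rdet R X) = rdet (ZMod p) (X.map ρ) := by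
  classical
  have : Fact p.Prime := ⟨hp⟩
  unfold rdet
  rw [← LinearMap.det_toMatrix (Pi.basis fun _ : m => b),
    ← LinearMap.det_toMatrix (Pi.basis fun _ : m => eb hp hpN ρ b hs hκ), RingHom.map_det]
  congr 1
  ext ⟨i, k⟩ ⟨j, l⟩
  rw [RingHom.mapMatrix_apply, Matrix.map_apply, LinearMap.toMatrix_apply, LinearMap.toMatrix_apply,
    Pi.basis_repr, Pi.basis_repr, Pi.basis_apply, Pi.basis_apply, lmul_apply, lmul_apply,
    Matrix.mulVec_single, Matrix.mulVec_single]
  rw [← eb_repr hp hpN ρ b hs hκ, eb_apply]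
  simp [Matrix.map_apply]

end fibre

section comp

variable {F : Type*} [CommRing F] {m : Type*} [Fintype m] [DecidableEq m] {d : ℕ}

theorem rdet_matrix (X : Matrix m m (Matrix (Fin d) (Fin d) F)) :
    rdet F X = (Matrix.compRingEquiv m (Fin d) F X).det ^ d := by
  classical
  let e : (m → Matrix (Fin d) (Fin d) F) ≃ₗ[F] ((m × Fin d) × Fin d → F) :=
    { toFun := fun v q => v q.1.1 q.1.2 q.2
      invFun := fun w a => Matrix.of fun r s => w ((a, r), s)
      left_inv := fun v => rfl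
      right_inv := fun w => rfl
      map_add' := fun v w => rfl
      map_smul' := fun c v => rfl }
  unfold rdet
  rw [← LinearMap.det_conj (lmul F X) e]
  have h : (e : (m → Matrix (Fin d) (Fin d) F) →ₗ[F] ((m × Fin d) × Fin d → F)) ∘ₗ lmul F X ∘ₗ
      (e.symm : ((m × Fin d) × Fin d → F) →ₗ[F] (m → Matrix (Fin d) (Fin d) F)) =
      Matrix.toLin' (Matrix.blockDiagonal fun _ : Fin d => Matrix.compRingEquiv m (Fin d) F X) := by
    apply LinearMap.ext
    intro w
    funext q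
    obtain ⟨⟨a, r⟩, s⟩ := q
    rw [Matrix.toLin'_apply]
    change (X *ᵥ fun b => Matrix.of fun r s => w ((b, r), s)) a r s = _
    rw [Matrix.mulVec, dotProduct, Matrix.mulVec, dotProduct, Matrix.sum_apply,
      Fintype.sum_prod_type, Fintype.sum_prod_type]
    refine Finset.sum_congr rfl fun b _ => ?_
    rw [Matrix.mul_apply]
    refine Finset.sum_congr rfl fun t _ => ?_
    rw [Finset.sum_eq_single s]
    · rw [Matrix.blockDiagonal_apply, if_pos rfl]
      rfl
    · intro u _ hu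
      rw [Matrix.blockDiagonal_apply, if_neg (Ne.symm hu), zero_mul]
    · intro h
      exact absurd (Finset.mem_univ _) h
  rw [h, LinearMap.det_toLin', Matrix.det_blockDiagonal, Finset.prod_const, Finset.card_univ,
    Fintype.card_fin]

end comp

/-! ### Stable range one of `M_d(F)` -/

section field

variable {F : Type*} [Field F] {d : ℕ}

theorem exists_det_ne (b v : Matrix (Fin d) (Fin d) F) :
    ∃ t : Matrix (Fin d) (Fin d) F, (b + t * (1 - v * b)).det ≠ 0 := by
  set f := Matrix.toLin' b with hf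
  obtain ⟨W, hW⟩ := Submodule.exists_isCompl (LinearMap.range f)
  have h1 := LinearMap.finrank_range_add_finrank_ker f
  have h2 := Submodule.finrank_add_eq_of_isCompl hW
  have h3 : Module.finrank F (LinearMap.ker f) = Module.finrank F W := by omega
  let e : LinearMap.ker f ≃ₗ[F] W := LinearEquiv.ofFinrankEq _ _ h3
  obtain ⟨g, hg⟩ := LinearMap.exists_extend (e : LinearMap.ker f →ₗ[F] W)
  refine ⟨LinearMap.toMatrix' (W.subtype ∘ₗ g), fun hdet => ?_⟩
  obtain ⟨x, hx0, hx⟩ := Matrix.exists_mulVec_eq_zero_iff.mpr hdet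
  apply hx0
  rw [Matrix.add_mulVec, ← Matrix.mulVec_mulVec, ← Matrix.toLin'_apply (LinearMap.toMatrix' _),
    Matrix.toLin'_toMatrix'] at hx
  have h4 : f x ∈ W := by
    have : f x = - (W.subtype ∘ₗ g) ((1 - v * b) *ᵥ x) := eq_neg_of_add_eq_zero_left hx
    rw [this]
    exact W.neg_mem (Subtype.coe_prop _)
  have h5 : f x = 0 := Submodule.disjoint_def.mp hW.disjoint _ ⟨x, rfl⟩ h4
  have h6 : (1 - v * b) *ᵥ x = x := by
    rw [Matrix.sub_mulVec, Matrix.one_mulVec, ← Matrix.mulVec_mulVec]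
    have : b *ᵥ x = 0 := h5
    rw [this, Matrix.mulVec_zero, sub_zero]
  rw [h6] at hx
  have h7 : b *ᵥ x = 0 := h5
  rw [h7, zero_add] at hx
  have h8 : g x = 0 := Subtype.ext hx
  have h9 : e ⟨x, h5⟩ = 0 := by
    have := LinearMap.congr_fun hg ⟨x, h5⟩
    rw [LinearMap.comp_apply] at this
    exact this.symm.trans h8
  have h10 : (⟨x, h5⟩ : LinearMap.ker f) = 0 := by
    rw [← e.map_eq_zero_iff]
    exact h9
  exact congrArg Subtype.val h10

end field

/-! ### The adjugate -/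

section adj

variable {R Λ : Type*} [CommRing R] [Ring Λ] [Algebra R Λ] [Module.Free R Λ] [Module.Finite R Λ]

theorem exists_ladj (x : Λ) : ∃ y : Λ, y * x = algebraMap R Λ (LinearMap.det (LinearMap.mulLeft R x)) := by
  set χ := (LinearMap.mulLeft R x).charpoly with hχ
  have h1 : Polynomial.aeval x χ = 0 := by
    have h2 := LinearMap.aeval_self_charpoly (LinearMap.mulLeft R x)
    have h3 : Polynomial.aeval (Algebra.lmul R Λ x) χ = Algebra.lmul R Λ (Polynomial.aeval x χ) :=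
      Polynomial.aeval_algHom_apply _ _ _
    have h4 : Algebra.lmul R Λ (Polynomial.aeval x χ) = 0 := h3.symm.trans h2
    have h5 := LinearMap.congr_fun h4 1
    simpa using h5
  have h2 : LinearMap.det (LinearMap.mulLeft R x) =
      (-1) ^ Module.finrank R Λ * χ.coeff 0 := LinearMap.det_eq_sign_charpoly_coeff _
  have h3 : Polynomial.aeval x χ.divX * x + algebraMap R Λ (χ.coeff 0) = 0 := by
    rw [← h1]
    conv_rhs => rw [← Polynomial.divX_mul_X_add χ]
    rw [map_add, map_mul, Polynomial.aeval_X, Polynomial.aeval_C]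
  refine ⟨-(algebraMap R Λ ((-1) ^ Module.finrank R Λ) * Polynomial.aeval x χ.divX), ?_⟩
  rw [h2, map_mul, neg_mul, mul_assoc, eq_neg_of_add_eq_zero_left h3, mul_neg, neg_neg]

end adj

/-! ### Stable range two -/

section one

variable {d N : ℕ} {R Λ : Type*} [CommRing R] [Ring Λ] [Algebra R Λ]

theorem rdet_unit (x : Λ) :
    rdet R (Matrix.of fun _ _ : Unit => x) = LinearMap.det (LinearMap.mulLeft R x) := by
  unfold rdet
  rw [← LinearMap.det_conj _ (LinearEquiv.funUnique Unit R Λ)]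
  congr 1
  apply LinearMap.ext
  intro y
  change ((Matrix.of fun _ _ : Unit => x) *ᵥ (fun _ => y)) () = x * y
  rw [Matrix.mulVec, dotProduct, Fintype.sum_unique]
  rfl

theorem exists_prime (hN : N ≠ 0) : ∃ q : ℕ, q.Prime ∧ ¬ q ∣ N := by
  obtain ⟨q, hq1, hq⟩ := Nat.exists_infinite_primes (N + 1)
  refine ⟨q, hq, fun h => ?_⟩
  have := Nat.le_of_dvd (Nat.pos_of_ne_zero hN) h
  omega

theorem IsAzumaya.exists_basis (hN : N ≠ 0) [IsLocalization.Away (N : ℤ) R]
    (h : IsAzumaya d N R Λ) : Nonempty (Module.Basis (Fin (d ^ 2)) R Λ) := by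
  have hD := Loc.isDomain N R hN
  have hF := h.free
  rcases Nat.eq_zero_or_pos d with h0 | h0
  · subst h0
    obtain ⟨q, hq, hqN⟩ := exists_prime hN
    obtain ⟨ρ, -, hρ⟩ := h.fibre q hq hqN
    have h1 : IsEmpty (Module.Free.ChooseBasisIndex R Λ) := by
      refine ⟨fun i => ?_⟩
      obtain ⟨y, hy⟩ := hρ (Module.Free.chooseBasis R Λ i) (Subsingleton.elim _ _)
      have h2 := congrArg (fun z => (Module.Free.chooseBasis R Λ).repr z i) hy
      have h3 : (q : Λ) * y = (q : R) • y := by rw [Algebra.smul_def, map_natCast]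
      simp only [Module.Basis.repr_self, Finsupp.single_eq_same, h3, map_smul, Finsupp.smul_apply,
        smul_eq_mul] at h2
      exact Loc.not_isUnit (R := R) hq hqN (IsUnit.of_mul_eq_one _ h2.symm)
    have h2 : Subsingleton Λ := (Module.Free.chooseBasis R Λ).repr.toEquiv.subsingleton
    have h3 : IsEmpty (Fin (0 ^ 2)) := ⟨fun i => absurd i.2 (by norm_num)⟩
    exact ⟨Module.Basis.empty Λ⟩
  · have : Module.Finite R Λ := Module.finite_of_finrank_pos (by rw [h.rank]; positivity)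
    exact ⟨Module.finBasisOfFinrankEq R Λ h.rank⟩

theorem phi_nn [IsLocalization.Away (N : ℤ) R] {p : ℕ} (hp : p.Prime) (hpN : ¬ p ∣ N)
    (ρ : Λ →+* Matrix (Fin d) (Fin d) (ZMod p)) (hs : Function.Surjective ρ)
    (b : Module.Basis (Fin (d ^ 2)) R Λ) (x : Λ) :
    Loc.phi N R hp hpN (LinearMap.det (LinearMap.mulLeft R x)) = (ρ x).det ^ d := by
  rw [← rdet_unit, phi_rdet hp hpN ρ b hs (by simp), rdet_matrix]
  congr 1
  rw [← Matrix.det_submatrix_equiv_self (Equiv.punitProd (Fin d)) (ρ x)]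
  rfl

/-- Stable range one modulo a prime. -/
theorem IsAzumaya.sr_mod (hN : N ≠ 0) [IsLocalization.Away (N : ℤ) R] (h : IsAzumaya d N R Λ)
    {p : ℕ} (hp : p.Prime) (hpN : ¬ p ∣ N) (b v : Λ) :
    ∃ τ : Λ, ∀ y : Λ, ¬ (p : R) ∣
      LinearMap.det (LinearMap.mulLeft R (b + (τ + (p : Λ) * y) * (1 - v * b))) := by
  have := Fact.mk hp
  obtain ⟨e⟩ := h.exists_basis hN
  obtain ⟨ρ, hρ, -⟩ := h.fibre p hp hpN
  obtain ⟨t, ht⟩ := exists_det_ne (ρ b) (ρ v)
  obtain ⟨τ, rfl⟩ := hρ t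
  refine ⟨τ, fun y hy => ht ?_⟩
  have hp0 : ((p : ℕ) : Matrix (Fin d) (Fin d) (ZMod p)) = 0 := by
    have h1 : ((p : ℕ) : Matrix (Fin d) (Fin d) (ZMod p)) =
        algebraMap (ZMod p) (Matrix (Fin d) (Fin d) (ZMod p)) (p : ZMod p) := by
      rw [map_natCast]
    rw [h1, ZMod.natCast_self, map_zero]
  rw [← Loc.phi_eq_zero_iff hp hpN, phi_nn hp hpN ρ hρ e] at hy
  have h2 : ρ (b + (τ + (p : Λ) * y) * (1 - v * b)) = ρ b + ρ τ * (1 - ρ v * ρ b) := by
    rw [map_add, map_mul, map_add, map_mul, map_natCast, hp0, zero_mul, add_zero, map_sub, map_one,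
      map_mul]
  rw [h2] at hy
  exact eq_zero_of_pow_eq_zero hy

/-- **Stable range two.** -/
theorem IsAzumaya.sr2'_left (hN : N ≠ 0) [IsLocalization.Away (N : ℤ) R] (h : IsAzumaya d N R Λ) :
    SR2' Λ := by
  classical
  intro a b c u v habc
  have hfree := h.free
  obtain ⟨e⟩ := h.exists_basis hN
  have hfin : Module.Finite R Λ := Module.Finite.of_basis e
  -- an auxiliary prime
  obtain ⟨q, hq, hqN⟩ := exists_prime hN
  obtain ⟨s, hs⟩ := h.sr_mod hN hq hqN a u
  have hs := hs 0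
  have e1 : v * b + c = 1 - u * a := by rw [← habc]; abel
  rw [mul_zero, add_zero, ← e1] at hs
  set a' := a + s * (v * b + c) with ha'
  have hm0 : LinearMap.det (LinearMap.mulLeft R a') ≠ 0 := fun h => hs (by rw [h]; exact dvd_zero _)
  obtain ⟨w, m, hm, -, hwm⟩ := Loc.exists_unit_mul hN hm0
  -- the second step
  set v' := (1 - u * s) * v with hv'
  have e2 : u * a' + (1 - u * s) * c = 1 - v' * b := by
    rw [eq_sub_iff_add_eq, ha', hv']
    refine Eq.trans ?_ habc
    noncomm_ring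
  have hex : ∀ p : ℕ, ∃ τ : Λ, p.Prime → ¬ p ∣ N →
      ∀ y : Λ, ¬ (p : R) ∣
        LinearMap.det (LinearMap.mulLeft R (b + (τ + (p : Λ) * y) * (1 - v' * b))) := by
    intro p
    by_cases h1 : p.Prime ∧ ¬ p ∣ N
    · obtain ⟨τ, hτ⟩ := h.sr_mod hN h1.1 h1.2 b v'
      exact ⟨τ, fun _ _ => hτ⟩
    · exact ⟨0, fun h2 h3 => absurd ⟨h2, h3⟩ h1⟩
  choose τ hτ using hex
  obtain ⟨t, ht⟩ := exists_crt (Λ := Λ) m.primeFactors (fun p hp => Nat.prime_of_mem_primeFactors hp) τ
  set b' := b + t * (1 - v' * b) with hb'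
  have hcop : IsCoprime (LinearMap.det (LinearMap.mulLeft R a'))
      (LinearMap.det (LinearMap.mulLeft R b')) := by
    refine Loc.isCoprime hN _ _ (Or.inl hm0) fun p hp hpN hdvd => ?_
    have h1 : (p : R) ∣ (m : R) := by
      rw [hwm] at hdvd
      exact (IsUnit.dvd_mul_left w.isUnit).mp hdvd.1
    rw [Loc.natCast_dvd_natCast hp hpN] at h1
    obtain ⟨y, hy⟩ := ht p (Nat.mem_primeFactors.mpr ⟨hp, h1, hm.ne'⟩)
    refine hτ p hp hpN y ?_
    rw [← hy]
    exact hdvd.2
  obtain ⟨x, y, hxy⟩ := hcop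
  obtain ⟨a'', ha''⟩ := exists_ladj (R := R) a'
  obtain ⟨b'', hb''⟩ := exists_ladj (R := R) b'
  refine ⟨s, t, algebraMap R Λ x * a'', algebraMap R Λ y * b'', ?_⟩
  rw [← ha', e2, ← hb', mul_assoc, mul_assoc, ha'', hb'', ← map_mul, ← map_mul, ← map_add, hxy,
    map_one]

/-- The opposite algebra. -/
theorem IsAzumaya.op (h : IsAzumaya d N R Λ) : IsAzumaya d N R Λᵐᵒᵖ where
  free := by
    have := h.free
    exact Module.Free.of_equiv (MulOpposite.opLinearEquiv R)
  rank := by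
    rw [← h.rank]
    exact (LinearEquiv.finrank_eq (MulOpposite.opLinearEquiv R)).symm
  fibre := fun p hp hpN => by
    obtain ⟨ρ, h1, h2⟩ := h.fibre p hp hpN
    refine ⟨(Matrix.transposeRingEquiv (Fin d) (ZMod p)).symm.toRingHom.comp (RingHom.op ρ), ?_, ?_⟩
    · intro M
      obtain ⟨x, hx⟩ := h1 M.transpose
      refine ⟨MulOpposite.op x, ?_⟩
      change (ρ x).transpose = M
      rw [hx, Matrix.transpose_transpose]
    · intro x hx
      have h3 : (ρ x.unop).transpose = 0 := hx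
      have h4 : ρ x.unop = 0 := by
        rw [← Matrix.transpose_transpose (ρ x.unop), h3, Matrix.transpose_zero]
      obtain ⟨y, hy⟩ := h2 _ h4
      refine ⟨MulOpposite.op y, MulOpposite.unop_injective ?_⟩
      rw [hy, MulOpposite.unop_mul, MulOpposite.unop_op, MulOpposite.unop_natCast]
      exact (Nat.cast_commute p y).eq

/-- A2b -/
theorem IsAzumaya.sr2' (hN : N ≠ 0) [IsLocalization.Away (N : ℤ) R] (h : IsAzumaya d N R Λ) :
    SR2' Λ ∧ SR2' Λᵐᵒᵖ := ⟨h.sr2'_left hN, h.op.sr2'_left hN⟩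

/-- A2c -/
theorem IsAzumaya.rdet_eq_one (hN : N ≠ 0) [IsLocalization.Away (N : ℤ) R] (h : IsAzumaya d N R Λ)
    {m : Type*} [Fintype m] [DecidableEq m] (X : (Matrix m m Λ)ˣ) (hX : X ∈ SL1 d N m Λ) :
    rdet R X.val = 1 := by
  obtain ⟨e⟩ := h.exists_basis hN
  refine sub_eq_zero.mp (Loc.eq_zero_of_eventually hN _ 0 fun p hp _ hpN => ?_)
  obtain ⟨ρ, hρ, -⟩ := h.fibre p hp hpN
  rw [← Loc.phi_eq_zero_iff hp hpN, map_sub, map_one, phi_rdet hp hpN ρ e hρ (by simp), rdet_matrix]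
  have h1 : nrdAt ρ X.val = 1 := hX p hp hpN ρ
  have h2 : (Matrix.compRingEquiv m (Fin d) (ZMod p) (X.val.map ρ)).det = 1 := h1
  rw [h2, one_pow, sub_self]

/-- A2a -/
theorem IsAzumaya.exists_T (hN : N ≠ 0) [IsLocalization.Away (N : ℤ) R] (h : IsAzumaya d N R Λ) :
    ∃ (e : Module.Basis (Fin (d ^ 2)) R Λ) (T : (Matrix (Fin (d ^ 2)) (Fin (d ^ 2)) Λ)ˣ),
      ∀ j k, T.val j k = e k * e j := by
  classical
  have hD := Loc.isDomain N R hN
  have hfree := h.free
  obtain ⟨e⟩ := h.exists_basis hN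
  have hfin : Module.Finite R Λ := Module.Finite.of_basis e
  set T : Matrix (Fin (d ^ 2)) (Fin (d ^ 2)) Λ := Matrix.of fun j k => e k * e j with hT
  have key : ∀ p : ℕ, p.Prime → ¬ p ∣ N → ¬ (p : R) ∣ rdet R T := by
    intro p hp hpN hdvd
    have := Fact.mk hp
    obtain ⟨ρ, hρ, -⟩ := h.fibre p hp hpN
    rw [← Loc.phi_eq_zero_iff hp hpN, phi_rdet hp hpN ρ e hρ (by simp)] at hdvd
    have h1 : LinearMap.ker (lmul (ZMod p) (T.map ρ)) ≠ ⊥ :=
      (LinearMap.det_eq_zero_iff_ker_ne_bot).mp hdvd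
    obtain ⟨w, hw, hw0⟩ := Submodule.exists_mem_ne_zero_of_ne_bot h1
    apply hw0
    have h2 : ∀ j, ∑ k, ρ (e k) * ρ (e j) * w k = 0 := by
      intro j
      have h3 : (T.map ρ) *ᵥ w = 0 := hw
      have h4 := congrFun h3 j
      rw [Matrix.mulVec, dotProduct] at h4
      refine Eq.trans (Finset.sum_congr rfl fun k _ => ?_) h4
      rw [Matrix.map_apply, hT, Matrix.of_apply, map_mul]
    have h3 : ∀ A : Matrix (Fin d) (Fin d) (ZMod p), ∑ k, ρ (e k) * A * w k = 0 := by
      intro A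
      obtain ⟨x, rfl⟩ := hρ A
      rw [rho_sum hp hpN ρ e x]
      simp only [Finset.mul_sum, Finset.sum_mul]
      rw [Finset.sum_comm]
      refine Finset.sum_eq_zero fun j _ => ?_
      have h4 : ∀ k, ρ (e k) * (Loc.phi N R hp hpN (e.repr x j) • ρ (e j)) * w k =
          Loc.phi N R hp hpN (e.repr x j) • (ρ (e k) * ρ (e j) * w k) := by
        intro k
        rw [mul_smul_comm, smul_mul_assoc]
      rw [Finset.sum_congr rfl fun k _ => h4 k, ← Finset.smul_sum, h2, smul_zero]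
    have h4 : LinearIndependent (ZMod p) fun k => ρ (e k) := by
      have h5 := (eb hp hpN ρ e hρ (by simp)).linearIndependent
      have h6 : (fun k => ρ (e k)) = eb hp hpN ρ e hρ (by simp) :=
        funext fun k => (eb_apply hp hpN ρ e hρ (by simp) k).symm
      rw [h6]
      exact h5
    funext k
    ext b j
    have h5 : ∑ k, w k b j • ρ (e k) = 0 := by
      ext i a
      have h6 := congrFun (congrFun (h3 (Matrix.single a b 1)) i) j
      rw [Matrix.sum_apply] at h6 ⊢
      rw [Matrix.zero_apply] at h6 ⊢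
      rw [← h6]
      refine Finset.sum_congr rfl fun k _ => ?_
      rw [Matrix.smul_apply, smul_eq_mul, Matrix.mul_apply, Finset.sum_eq_single b]
      · rw [Matrix.mul_single_apply_same, mul_one, mul_comm]
      · intro b' _ hb'
        rw [Matrix.mul_single_apply_of_ne _ _ _ _ _ hb', zero_mul]
      · intro hb
        exact absurd (Finset.mem_univ _) hb
    exact Fintype.linearIndependent_iff.mp h4 _ h5 k
  have hunit : IsUnit (rdet R T) := by
    rw [Loc.isUnit_iff hN]
    refine ⟨fun h0 => ?_, key⟩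
    obtain ⟨q, hq, hqN⟩ := exists_prime hN
    exact key q hq hqN (by rw [h0]; exact dvd_zero _)
  have hbij : Function.Bijective (lmul R T) := by
    rw [← Module.End.isUnit_iff, LinearMap.isUnit_iff_isUnit_det]
    exact hunit
  choose S hS using fun j : Fin (d ^ 2) => hbij.2 (Pi.single j 1)
  set S' : Matrix (Fin (d ^ 2)) (Fin (d ^ 2)) Λ := Matrix.of fun i j => S j i with hS'
  have h1 : T * S' = 1 := by
    ext i j
    have h2 : (T *ᵥ S j) i = (Pi.single j 1 : Fin (d ^ 2) → Λ) i := congrFun (hS j) i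
    rw [Matrix.mul_apply, Matrix.one_apply]
    rw [Matrix.mulVec, dotProduct, Pi.single_apply] at h2
    exact h2
  have h2 : S' * T = 1 := by
    have h3 : T * (S' * T) = T * 1 := by rw [← Matrix.mul_assoc, h1, Matrix.one_mul, Matrix.mul_one]
    ext i j
    have h4 : lmul R T (fun k => (S' * T) k j) = lmul R T (fun k => (1 : Matrix _ _ Λ) k j) := by
      funext k
      exact congrFun (congrFun h3 k) j
    exact congrFun (hbij.1 h4) i
  exact ⟨e, ⟨T, S', h1, h2⟩, fun j k => rfl⟩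

end one

end BWG
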