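import Pool.Agent.BWG.Defs

/-!
# BWG row A3: the generic fibre `ℚ ⊗ Λ`

`ℚ ⊗ Λ` is a central simple algebra of dimension `d ^ 2` for an Azumaya algebra `Λ` of degree `d`
over `ℤ[1/N]`.
-/

set_option autoImplicit false

namespace BWG

open Matrix

section A3

variable {d N : ℕ} {R Λ : Type} [CommRing R] [Ring Λ] [Algebra R Λ]

/-- the embedding of `ℤ[1/N]` into `ℚ` -/
noncomputable def toQ (hN : N ≠ 0) (R : Type) [CommRing R] [IsLocalization.Away (N : ℤ) R] :
    R →+* ℚ :=
  IsLocalization.Away.lift (S := R) (N : ℤ) (g := Int.castRingHom ℚ) (by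
    simpa using hN)

theorem toQ_int (hN : N ≠ 0) [IsLocalization.Away (N : ℤ) R] (a : ℤ) :
    toQ hN R (algebraMap ℤ R a) = a := by
  unfold toQ
  rw [IsLocalization.Away.lift_eq]
  simp

theorem toQ_injective (hN : N ≠ 0) [IsLocalization.Away (N : ℤ) R] :
    Function.Injective (toQ hN R) := by
  rw [injective_iff_map_eq_zero]
  intro r hr
  obtain ⟨k, a, ha⟩ := IsLocalization.Away.surj (N : ℤ) r
  have h1 := congrArg (toQ hN R) ha
  rw [map_mul, hr, zero_mul, toQ_int] at h1
  have h2 : a = 0 := by exact_mod_cast h1.symm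
  rw [h2, map_zero] at ha
  have hu : IsUnit (algebraMap ℤ R (N : ℤ) ^ k) :=
    (IsLocalization.Away.algebraMap_isUnit (S := R) (N : ℤ)).pow k
  exact (hu.mul_left_eq_zero).1 ha

theorem isDomain_of_away (hN : N ≠ 0) [IsLocalization.Away (N : ℤ) R] : IsDomain R :=
  (toQ_injective (R := R) hN).isDomain

theorem charZero_of_away (hN : N ≠ 0) [IsLocalization.Away (N : ℤ) R] : CharZero R := by
  refine ⟨fun a b hab => ?_⟩
  have h := congrArg (toQ hN R) hab
  simpa using h

theorem isNoetherian_of_away [IsLocalization.Away (N : ℤ) R] : IsNoetherianRing R :=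
  IsLocalization.isNoetherianRing (Submonoid.powers (N : ℤ)) R inferInstance

theorem exists_prime_not_dvd (hN : N ≠ 0) : ∃ p : ℕ, p.Prime ∧ ¬ p ∣ N := by
  obtain ⟨p, hp, hpp⟩ := Nat.exists_infinite_primes (N + 1)
  exact ⟨p, hpp, fun h => by have := Nat.le_of_dvd (Nat.pos_of_ne_zero hN) h; omega⟩

theorem one_tmul_int (a : ℤ) (y : Λ) :
    TensorProduct.tmul ℤ (1 : ℚ) (a • y) = (a : ℚ) • TensorProduct.tmul ℤ (1 : ℚ) y := by
  rw [Int.cast_smul_eq_zsmul]
  exact (TensorProduct.mk ℤ ℚ Λ 1).map_smul a y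

/-- scalars of `ℤ[1/N]` in the generic fibre -/
theorem one_tmul_smul (hN : N ≠ 0) [IsLocalization.Away (N : ℤ) R] (r : R) (y : Λ) :
    TensorProduct.tmul ℤ (1 : ℚ) (r • y) = toQ hN R r • TensorProduct.tmul ℤ (1 : ℚ) y := by
  obtain ⟨k, a, ha⟩ := IsLocalization.Away.surj (N : ℤ) r
  have hc : ((N : ℚ) ^ k) ≠ 0 := pow_ne_zero _ (by exact_mod_cast hN)
  have e1 : ((N : ℚ) ^ k) • TensorProduct.tmul ℤ (1 : ℚ) (r • y) =
      TensorProduct.tmul ℤ (1 : ℚ) (((N : ℤ) ^ k) • (r • y)) := by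
    rw [one_tmul_int]
    congr 1
    push_cast
    rfl
  have e2 : ((N : ℤ) ^ k) • (r • y) = a • y := by
    rw [← algebraMap_smul R ((N : ℤ) ^ k), ← algebraMap_smul R a, ← ha, smul_smul, map_pow,
      mul_comm]
  have e3 : ((N : ℚ) ^ k) * toQ hN R r = a := by
    have := congrArg (toQ hN R) ha
    rw [map_mul, map_pow, toQ_int, toQ_int] at this
    rw [mul_comm]
    simpa using this
  have h1 : ((N : ℚ) ^ k) • TensorProduct.tmul ℤ (1 : ℚ) (r • y) =
      ((N : ℚ) ^ k) • toQ hN R r • TensorProduct.tmul ℤ (1 : ℚ) y := by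
    rw [e1, e2, smul_smul, e3, one_tmul_int]
  exact smul_right_injective _ hc h1

/-- every element of the generic fibre has a denominator -/
theorem exists_denom (x : TensorProduct ℤ ℚ Λ) : ∃ n : ℕ, n ≠ 0 ∧ ∃ y : Λ,
    (n : ℚ) • x = TensorProduct.tmul ℤ (1 : ℚ) y := by
  induction x with
  | zero => exact ⟨1, one_ne_zero, 0, by simp⟩
  | tmul q y =>
    refine ⟨q.den, q.den_nz, q.num • y, ?_⟩
    rw [one_tmul_int, TensorProduct.smul_tmul', TensorProduct.smul_tmul']
    congr 1
    simp [Rat.den_mul_eq_num]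
  | add x y hx hy =>
    obtain ⟨n, hn, a, ha⟩ := hx
    obtain ⟨m, hm, b, hb⟩ := hy
    refine ⟨n * m, mul_ne_zero hn hm, (m : ℤ) • a + (n : ℤ) • b, ?_⟩
    rw [TensorProduct.tmul_add, one_tmul_int, one_tmul_int, ← ha, ← hb, smul_add, smul_smul,
      smul_smul]
    push_cast
    rw [mul_comm (n : ℚ) (m : ℚ)]

section fibre

variable (hN : N ≠ 0) (hd : d ≠ 0) [IsLocalization.Away (N : ℤ) R] (h : IsAzumaya d N R Λ)
  {p : ℕ} (hp : p.Prime) (hpN : ¬ p ∣ N)

include hd h hp hpN in
omit [IsLocalization.Away (N : ℤ) R] in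
/-- a prime not dividing `N` is not a unit of `ℤ[1/N]` -/
theorem not_isUnit_prime : ¬ IsUnit (p : R) := by
  intro hu
  obtain ⟨ρ, hρ, -⟩ := h.fibre p hp hpN
  have : Fact p.Prime := ⟨hp⟩
  obtain ⟨u, hu⟩ := hu
  obtain ⟨x, hx⟩ := hρ 1
  have h1 : x = (p : Λ) * ((u⁻¹ : Rˣ) : R) • x := by
    have e : (p : Λ) = algebraMap R Λ (p : R) := by simp
    rw [e, ← Algebra.smul_def, smul_smul, ← hu, Units.mul_inv, one_smul]
  have h2 := congrArg ρ h1
  rw [hx, map_mul, map_natCast] at h2
  have h3 : ((p : ℕ) : Matrix (Fin d) (Fin d) (ZMod p)) = 0 := by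
    ext i j
    simp [Matrix.natCast_apply]
  rw [h3, zero_mul] at h2
  have i : Fin d := ⟨0, Nat.pos_of_ne_zero hd⟩
  have := congrFun (congrFun h2 i) i
  simp at this

include hN hd h hp hpN in
theorem krull_R (r : R) (hr : ∀ k : ℕ, (p : R) ^ k ∣ r) : r = 0 := by
  have := isDomain_of_away (R := R) hN
  have := isNoetherian_of_away (N := N) (R := R)
  have h1 : (Ideal.span {(p : R)} : Ideal R) ≠ ⊤ := by
    rw [Ne, Ideal.span_singleton_eq_top]
    exact not_isUnit_prime hd h hp hpN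
  have h2 := Ideal.iInf_pow_eq_bot_of_isDomain _ h1
  have h3 : r ∈ (⨅ i : ℕ, (Ideal.span {(p : R)} : Ideal R) ^ i) := by
    rw [Ideal.mem_iInf]
    intro k
    rw [Ideal.span_singleton_pow, Ideal.mem_span_singleton]
    exact hr k
  rw [h2] at h3
  simpa using h3

include hN hd h in
theorem exists_basis : Nonempty (Module.Basis (Fin (d ^ 2)) R Λ) := by
  have := isDomain_of_away (R := R) hN
  have := h.free
  have hpos : 0 < Module.finrank R Λ := by
    rw [h.rank]
    exact pow_pos (Nat.pos_of_ne_zero hd) 2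
  have := Module.finite_of_finrank_pos hpos
  exact ⟨Module.finBasisOfFinrankEq R Λ h.rank⟩

include hN hd h in
theorem zsmul_eq_zero' {n : ℤ} (hn : n ≠ 0) {y : Λ} (hy : n • y = 0) : y = 0 := by
  have := isDomain_of_away (R := R) hN
  have := charZero_of_away (R := R) hN
  obtain ⟨e⟩ := exists_basis hN hd h
  rw [← e.forall_coord_eq_zero_iff] at hy ⊢
  intro i
  have h1 := hy i
  rw [← algebraMap_smul R n, map_smul, smul_eq_mul, mul_eq_zero] at h1
  rcases h1 with h1 | h1
  · exfalso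
    apply hn
    simpa using h1
  · exact h1

include hN hd h hp hpN in
theorem krull_Λ (y : Λ) (hy : ∀ k : ℕ, ∃ z : Λ, y = (p : Λ) ^ k * z) : y = 0 := by
  obtain ⟨e⟩ := exists_basis hN hd h
  rw [← e.forall_coord_eq_zero_iff]
  intro i
  refine krull_R hN hd h hp hpN _ fun k => ?_
  obtain ⟨z, hz⟩ := hy k
  refine ⟨e.coord i z, ?_⟩
  have e1 : (p : Λ) ^ k * z = ((p : R) ^ k) • z := by
    rw [Algebra.smul_def, map_pow, map_natCast]
  rw [hz, e1, map_smul, smul_eq_mul]

include hN hd h in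
theorem include_injective :
    Function.Injective (fun y : Λ => TensorProduct.tmul ℤ (1 : ℚ) y) := by
  have : Module.IsTorsionFree ℤ Λ := by
    refine ⟨fun n hn => ?_⟩
    intro a b hab
    have h1 : n • (a - b) = 0 := by
      rw [smul_sub]
      exact sub_eq_zero.2 hab
    exact sub_eq_zero.1 (zsmul_eq_zero' hN hd h hn.ne_zero h1)
  have : Module.Flat ℤ Λ := inferInstance
  exact Algebra.TensorProduct.includeRight_injective (R := ℤ) (A := ℚ) (B := Λ) (RingHom.injective_int _)

include hN hd h in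
/-- a basis of the generic fibre over `ℚ` -/
theorem exists_basisQ (e : Module.Basis (Fin (d ^ 2)) R Λ) :
    ∃ E : Module.Basis (Fin (d ^ 2)) ℚ (TensorProduct ℤ ℚ Λ),
      ∀ i, E i = TensorProduct.tmul ℤ (1 : ℚ) (e i) := by
  have hinj := include_injective hN hd h
  have hdom := isDomain_of_away (R := R) hN
  have hcz := charZero_of_away (R := R) hN
  have li : LinearIndependent ℚ fun i => TensorProduct.tmul ℤ (1 : ℚ) (e i) := by
    have h1 : LinearIndependent ℤ e := by
      refine e.linearIndependent.restrict_scalars ?_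
      intro a b hab
      simpa using hab
    have h2 : LinearIndependent ℤ ((TensorProduct.mk ℤ ℚ Λ 1) ∘ e) := by
      refine h1.map' _ ?_
      rw [LinearMap.ker_eq_bot]
      exact hinj
    exact (LinearIndependent.iff_fractionRing ℤ ℚ).1 h2
  have sp : ⊤ ≤ Submodule.span ℚ (Set.range fun i => TensorProduct.tmul ℤ (1 : ℚ) (e i)) := by
    rintro x -
    induction x with
    | zero => exact Submodule.zero_mem _
    | tmul q y =>
      have h1 : TensorProduct.tmul ℤ q y = q • TensorProduct.tmul ℤ (1 : ℚ) y := by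
        rw [TensorProduct.smul_tmul', smul_eq_mul, mul_one]
      rw [h1]
      refine Submodule.smul_mem _ _ ?_
      rw [← e.sum_repr y, TensorProduct.tmul_sum]
      refine Submodule.sum_mem _ fun i _ => ?_
      rw [one_tmul_smul hN]
      exact Submodule.smul_mem _ _ (Submodule.subset_span ⟨i, rfl⟩)
    | add x y hx hy => exact Submodule.add_mem _ hx hy
  exact ⟨Module.Basis.mk li sp, fun i => by rw [Module.Basis.mk_apply]⟩

include hN hd h in
theorem finrank_generic : Module.finrank ℚ (TensorProduct ℤ ℚ Λ) = d ^ 2 := by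
  obtain ⟨e⟩ := exists_basis hN hd h
  obtain ⟨E, -⟩ := exists_basisQ hN hd h e
  rw [Module.finrank_eq_card_basis E, Fintype.card_fin]

include hN hd h in
theorem finite_generic : Module.Finite ℚ (TensorProduct ℤ ℚ Λ) := by
  obtain ⟨e⟩ := exists_basis hN hd h
  obtain ⟨E, -⟩ := exists_basisQ hN hd h e
  exact Module.Finite.of_basis E

include hN hd h in
theorem nontrivial_generic : Nontrivial (TensorProduct ℤ ℚ Λ) := by
  refine Module.nontrivial_of_finrank_pos (R := ℚ) ?_
  rw [finrank_generic hN hd h]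
  exact pow_pos (Nat.pos_of_ne_zero hd) 2

include hN hd h in
theorem one_tmul_eq_zero {y : Λ} (hy : TensorProduct.tmul ℤ (1 : ℚ) y = 0) : y = 0 := by
  refine include_injective hN hd h ?_
  simp only [hy, TensorProduct.tmul_zero]

include hN hd h hp hpN in
/-- an element congruent to one modulo `p` is invertible in the generic fibre -/
theorem exists_right_inverse {z w : Λ} (hz : z = 1 + (p : Λ) * w) :
    ∃ x : TensorProduct ℤ ℚ Λ, TensorProduct.tmul ℤ (1 : ℚ) z * x = 1 := by
  have := finite_generic hN hd h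
  have hp0 : (p : ℤ) ≠ 0 := by exact_mod_cast hp.ne_zero
  -- `z` is not a left zero divisor in `Λ`
  have h1 : ∀ v : Λ, z * v = 0 → v = 0 := by
    have key : ∀ k : ℕ, ∀ v : Λ, z * v = 0 → ∃ v' : Λ, v = (p : Λ) ^ k * v' ∧ z * v' = 0 := by
      intro k
      induction k with
      | zero => exact fun v hv => ⟨v, by rw [pow_zero, one_mul], hv⟩
      | succ k ih =>
        intro v hv
        obtain ⟨v', hv', hz'⟩ := ih v hv
        have e1 : v' = (p : Λ) * -(w * v') := by
          have : z * v' = v' + (p : Λ) * (w * v') := by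
            rw [hz, add_mul, one_mul, mul_assoc]
          rw [hz'] at this
          rw [mul_neg]
          exact eq_neg_of_add_eq_zero_left this.symm
        refine ⟨-(w * v'), ?_, ?_⟩
        · rw [pow_succ, mul_assoc, ← e1, hv']
        · have e2 : (p : ℤ) • (z * -(w * v')) = 0 := by
            have : (p : ℤ) • (z * -(w * v')) = z * ((p : Λ) * -(w * v')) := by
              rw [← mul_assoc, ← (Nat.cast_commute p z).eq, mul_assoc]
              simp
            rw [this, ← e1, hz']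
          exact zsmul_eq_zero' hN hd h hp0 e2
    intro v hv
    exact krull_Λ hN hd h hp hpN v fun k => by
      obtain ⟨v', h', -⟩ := key k v hv
      exact ⟨v', h'⟩
  have h2 : Function.Injective (LinearMap.mulLeft ℚ (TensorProduct.tmul ℤ (1 : ℚ) z)) := by
    rw [injective_iff_map_eq_zero]
    intro x hx
    rw [LinearMap.mulLeft_apply] at hx
    obtain ⟨n, hn, y, hy⟩ := exists_denom x
    have hn' : (n : ℚ) ≠ 0 := by exact_mod_cast hn
    have h3 : TensorProduct.tmul ℤ (1 : ℚ) (z * y) = 0 := by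
      have : TensorProduct.tmul ℤ (1 : ℚ) (z * y) =
          TensorProduct.tmul ℤ (1 : ℚ) z * TensorProduct.tmul ℤ (1 : ℚ) y := by
        rw [Algebra.TensorProduct.tmul_mul_tmul, one_mul]
      rw [this, ← hy, mul_smul_comm, hx, smul_zero]
    have h4 := h1 y (one_tmul_eq_zero hN hd h h3)
    rw [h4, TensorProduct.tmul_zero] at hy
    exact (smul_eq_zero.1 hy).resolve_left hn'
  have h3 := LinearMap.injective_iff_surjective.1 h2
  obtain ⟨x, hx⟩ := h3 1
  exact ⟨x, hx⟩

include hN hd h in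
theorem isSimpleRing_generic : IsSimpleRing (TensorProduct ℤ ℚ Λ) := by
  have := nontrivial_generic hN hd h
  refine ⟨⟨fun I => ?_⟩⟩
  by_cases hI : I = ⊥
  · exact Or.inl hI
  refine Or.inr ?_
  obtain ⟨p, hp, hpN⟩ := exists_prime_not_dvd hN
  have hp0 : (p : ℚ) ≠ 0 := by exact_mod_cast hp.ne_zero
  have : Fact p.Prime := ⟨hp⟩
  -- scalars
  have hsm : ∀ (c : ℚ) (x : TensorProduct ℤ ℚ Λ), x ∈ I → c • x ∈ I := by
    intro c x hx
    have : c • x = (c • 1) * x := by rw [smul_mul_assoc, one_mul]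
    rw [this]
    exact I.mul_mem_left _ _ hx
  -- a nonzero element
  obtain ⟨x, hx, hx0⟩ : ∃ x ∈ I, x ≠ 0 := by
    by_contra hcon
    push Not at hcon
    apply hI
    ext x
    constructor
    · intro hx
      rw [hcon x hx]
      exact TwoSidedIdeal.zero_mem _
    · intro hx
      have : x = 0 := by simpa using hx
      rw [this]
      exact TwoSidedIdeal.zero_mem _
  obtain ⟨n, hn, y, hy⟩ := exists_denom x
  have hn' : (n : ℚ) ≠ 0 := by exact_mod_cast hn
  have hyI : TensorProduct.tmul ℤ (1 : ℚ) y ∈ I := by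
    rw [← hy]
    exact hsm _ _ hx
  have hy0 : y ≠ 0 := by
    rintro rfl
    rw [TensorProduct.tmul_zero] at hy
    exact hx0 ((smul_eq_zero.1 hy).resolve_left hn')
  -- divide by the largest power of `p`
  obtain ⟨v, hvI, hvp⟩ : ∃ v : Λ, TensorProduct.tmul ℤ (1 : ℚ) v ∈ I ∧
      ¬ ∃ z : Λ, v = (p : Λ) * z := by
    by_contra hcon
    push Not at hcon
    apply hy0
    refine krull_Λ hN hd h hp hpN y fun k => ?_
    have key : ∃ z : Λ, y = (p : Λ) ^ k * z ∧ TensorProduct.tmul ℤ (1 : ℚ) z ∈ I := by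
      induction k with
      | zero => exact ⟨y, by rw [pow_zero, one_mul], hyI⟩
      | succ k ih =>
        obtain ⟨z, hz, hzI⟩ := ih
        obtain ⟨z', hz'⟩ := hcon z hzI
        refine ⟨z', by rw [pow_succ, mul_assoc, ← hz', hz], ?_⟩
        have e1 : TensorProduct.tmul ℤ (1 : ℚ) z = (p : ℚ) • TensorProduct.tmul ℤ (1 : ℚ) z' := by
          have : z = (p : ℤ) • z' := by rw [hz']; simp
          rw [this, one_tmul_int]
          simp
        have e2 : TensorProduct.tmul ℤ (1 : ℚ) z' =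
            (p : ℚ)⁻¹ • TensorProduct.tmul ℤ (1 : ℚ) z := by
          rw [e1, smul_smul, inv_mul_cancel₀ hp0, one_smul]
        rw [e2]
        exact hsm _ _ hzI
    obtain ⟨z, hz, -⟩ := key
    exact ⟨z, hz⟩
  obtain ⟨ρ, hρ, hker⟩ := h.fibre p hp hpN
  have hρv : ρ v ≠ 0 := fun h0 => hvp (hker v h0)
  obtain ⟨r, s, hrs⟩ : ∃ r s, ρ v r s ≠ 0 := by
    by_contra hcon
    push Not at hcon
    exact hρv (by ext r s; exact hcon r s)
  choose g hg using hρ
  let z : Λ := ∑ i, g (Matrix.single i r (ρ v r s)⁻¹) * v * g (Matrix.single s i 1)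
  have hz : ρ z = 1 := by
    simp only [z, map_sum, map_mul, hg]
    rw [← Matrix.sum_single_one]
    refine Finset.sum_congr rfl fun i _ => ?_
    rw [Matrix.single_mul_mul_single, inv_mul_cancel₀ hrs, one_mul]
  have hzI : TensorProduct.tmul ℤ (1 : ℚ) z ∈ I := by
    simp only [z, TensorProduct.tmul_sum]
    refine sum_mem fun i _ => ?_
    have : ∀ a b : Λ, TensorProduct.tmul ℤ (1 : ℚ) (a * v * b) =
        TensorProduct.tmul ℤ (1 : ℚ) a * TensorProduct.tmul ℤ (1 : ℚ) v *
          TensorProduct.tmul ℤ (1 : ℚ) b := by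
      intro a b
      simp [Algebra.TensorProduct.tmul_mul_tmul]
    rw [this]
    exact I.mul_mem_right _ _ (I.mul_mem_left _ _ hvI)
  obtain ⟨w, hw⟩ := hker (z - 1) (by rw [map_sub, hz, map_one, sub_self])
  obtain ⟨x', hx'⟩ := exists_right_inverse hN hd h hp hpN (z := z) (w := w)
    (by rw [← hw, add_sub_cancel])
  have h1 : (1 : TensorProduct ℤ ℚ Λ) ∈ I := by
    rw [← hx']
    exact I.mul_mem_right _ _ hzI
  ext x
  constructor
  · intro _
    exact TwoSidedIdeal.mem_top _
  · intro _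
    rw [← one_mul x]
    exact I.mul_mem_right _ _ h1

include hN hd h hp hpN in
/-- a central element is a scalar modulo every power of `p` -/
theorem central_approx (k : ℕ) : ∀ y : Λ, (∀ z, y * z = z * y) →
    ∃ (a : ℤ) (z : Λ), y = (a : Λ) + (p : Λ) ^ k * z ∧ ∀ z', z * z' = z' * z := by
  have hp0 : (p : ℤ) ≠ 0 := by exact_mod_cast hp.ne_zero
  have : Fact p.Prime := ⟨hp⟩
  induction k with
  | zero => exact fun y hy => ⟨0, y, by simp, hy⟩
  | succ k ih =>
    intro y hy
    obtain ⟨a, z, hz, hzc⟩ := ih y hy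
    obtain ⟨ρ, hρ, hker⟩ := h.fibre p hp hpN
    have hc : ρ z ∈ Set.range (Matrix.scalar (Fin d)) := by
      rw [Matrix.mem_range_scalar_iff_commute_single']
      intro i j
      obtain ⟨x, hx⟩ := hρ (Matrix.single i j 1)
      rw [← hx]
      have := congrArg ρ (hzc x)
      rw [map_mul, map_mul] at this
      exact this.symm
    obtain ⟨c, hc⟩ := hc
    obtain ⟨b, hb⟩ := ZMod.intCast_surjective c
    obtain ⟨w, hw⟩ := hker (z - (b : Λ)) (by
      rw [map_sub, map_intCast, ← hc, ← hb, sub_eq_zero]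
      ext i j
      by_cases hij : i = j
      · subst hij
        simp
      · simp [hij, Matrix.intCast_apply])
    have hzb : z = (b : Λ) + (p : Λ) * w := by rw [← hw, add_sub_cancel]
    refine ⟨a + p ^ k * b, w, ?_, ?_⟩
    · rw [hz, hzb]
      push_cast
      rw [mul_add, pow_succ, mul_assoc, add_assoc]
    · intro z'
      have h1 := hzc z'
      rw [hzb, add_mul, mul_add, (Int.cast_commute b z').eq, add_right_inj] at h1
      have h2 : (p : ℤ) • (w * z' - z' * w) = 0 := by
        rw [smul_sub, sub_eq_zero]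
        have e1 : (p : ℤ) • (w * z') = (p : Λ) * w * z' := by
          simp [mul_assoc]
        have e2 : (p : ℤ) • (z' * w) = z' * ((p : Λ) * w) := by
          rw [← mul_assoc, ← (Nat.cast_commute p z').eq, mul_assoc]
          simp
        rw [e1, e2, h1]
      exact sub_eq_zero.1 (zsmul_eq_zero' hN hd h hp0 h2)

include hN hd h in
theorem isCentral_generic : Algebra.IsCentral ℚ (TensorProduct ℤ ℚ Λ) := by
  obtain ⟨p, hp, hpN⟩ := exists_prime_not_dvd hN
  have hdom := isDomain_of_away (R := R) hN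
  have hnt := nontrivial_generic hN hd h
  obtain ⟨e⟩ := exists_basis hN hd h
  refine ⟨fun x hx => ?_⟩
  rw [Subalgebra.mem_center_iff] at hx
  obtain ⟨n, hn, y, hy⟩ := exists_denom x
  have hn' : (n : ℚ) ≠ 0 := by exact_mod_cast hn
  have hyc : ∀ z, y * z = z * y := by
    intro z
    refine include_injective hN hd h ?_
    have h1 := hx (TensorProduct.tmul ℤ (1 : ℚ) z)
    have h2 : TensorProduct.tmul ℤ (1 : ℚ) y * TensorProduct.tmul ℤ (1 : ℚ) z =
        TensorProduct.tmul ℤ (1 : ℚ) z * TensorProduct.tmul ℤ (1 : ℚ) y := by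
      rw [← hy, smul_mul_assoc, mul_smul_comm, h1]
    simpa [Algebra.TensorProduct.tmul_mul_tmul] using h2
  -- the coordinates of `y` and `1` are proportional
  have hprop : ∀ i j, e.coord j 1 * e.coord i y = e.coord i 1 * e.coord j y := by
    intro i j
    rw [← sub_eq_zero]
    refine krull_R hN hd h hp hpN _ fun k => ?_
    obtain ⟨a, z, hz, -⟩ := central_approx hN hd h hp hpN k y hyc
    have e1 : ∀ i, e.coord i y = (a : R) * e.coord i 1 + (p : R) ^ k * e.coord i z := by
      intro i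
      have : y = (a : R) • (1 : Λ) + ((p : R) ^ k) • z := by
        rw [Algebra.smul_def, Algebra.smul_def, map_pow, map_natCast, map_intCast, mul_one]
        exact hz
      rw [this, map_add, map_smul, map_smul, smul_eq_mul, smul_eq_mul]
    refine ⟨e.coord j 1 * e.coord i z - e.coord i 1 * e.coord j z, ?_⟩
    rw [e1 i, e1 j]
    ring
  obtain ⟨j, hj⟩ : ∃ j, e.coord j (1 : Λ) ≠ 0 := by
    by_contra hcon
    push Not at hcon
    have h1 : (1 : Λ) = 0 := (e.forall_coord_eq_zero_iff).1 hcon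
    have h2 : (1 : TensorProduct ℤ ℚ Λ) = 0 := by
      rw [Algebra.TensorProduct.one_def, h1, TensorProduct.tmul_zero]
    exact one_ne_zero h2
  have h1 : e.coord j (1 : Λ) • y = e.coord j y • (1 : Λ) := by
    refine e.ext_elem fun i => ?_
    have := hprop i j
    simp only [Module.Basis.coord_apply] at this ⊢
    rw [map_smul, map_smul, Finsupp.smul_apply, Finsupp.smul_apply, smul_eq_mul, smul_eq_mul, this,
      mul_comm]
  have h2 := congrArg (fun v => TensorProduct.tmul ℤ (1 : ℚ) v) h1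
  simp only [one_tmul_smul hN] at h2
  rw [← hy, ← Algebra.TensorProduct.one_def, smul_smul] at h2
  have h3 : toQ hN R (e.coord j 1) ≠ 0 := by
    intro h0
    exact hj ((injective_iff_map_eq_zero _).1 (toQ_injective hN) _ h0)
  have h4 : x = ((toQ hN R (e.coord j 1) * n)⁻¹ * toQ hN R (e.coord j y)) •
      (1 : TensorProduct ℤ ℚ Λ) := by
    rw [mul_smul, ← h2, smul_smul, inv_mul_cancel₀ (mul_ne_zero h3 hn'), one_smul]
  rw [h4, Algebra.mem_bot]
  exact ⟨_, by rw [Algebra.algebraMap_eq_smul_one]⟩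

omit [Algebra R Λ] [IsLocalization.Away (N : ℤ) R] in
theorem lmul_toMatrix {S M ι m : Type} [CommRing S] [Ring M] [Algebra S M] [Fintype ι]
    [DecidableEq ι] [Fintype m] [DecidableEq m] (e : Module.Basis ι S M) (X : Matrix m m M)
    (i j : m) (a b : ι) :
    LinearMap.toMatrix (Pi.basis fun _ : m => e) (Pi.basis fun _ : m => e) (lmul S X) ⟨i, a⟩ ⟨j, b⟩ =
      e.repr (X i j * e b) a := by
  rw [LinearMap.toMatrix_apply, Pi.basis_apply, Pi.basis_repr]
  congr 2
  change (X *ᵥ Pi.single j (e b)) i = _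
  rw [Matrix.mulVec_single]
  simp

include hN hd h in
theorem rdet_generic {m : Type} [Fintype m] [DecidableEq m] (X : Matrix m m Λ) :
    rdet ℚ (X.map fun y => TensorProduct.tmul ℤ (1 : ℚ) y) = toQ hN R (rdet R X) := by
  obtain ⟨e⟩ := exists_basis hN hd h
  obtain ⟨E, hE⟩ := exists_basisQ hN hd h e
  have hrepr : ∀ (y : Λ) (a : Fin (d ^ 2)),
      E.repr (TensorProduct.tmul ℤ (1 : ℚ) y) a = toQ hN R (e.repr y a) := by
    intro y a
    conv_lhs => rw [← e.sum_repr y]
    rw [TensorProduct.tmul_sum]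
    simp only [one_tmul_smul hN, ← hE, map_sum, map_smul, Module.Basis.repr_self]
    simp [Finsupp.single_apply]
  unfold rdet
  rw [← LinearMap.det_toMatrix (Pi.basis fun _ : m => e),
    ← LinearMap.det_toMatrix (Pi.basis fun _ : m => E), RingHom.map_det]
  congr 1
  ext ⟨i, a⟩ ⟨j, b⟩
  rw [lmul_toMatrix]
  change _ = toQ hN R (LinearMap.toMatrix (Pi.basis fun _ : m => e) (Pi.basis fun _ : m => e)
    (lmul R X) ⟨i, a⟩ ⟨j, b⟩)
  rw [lmul_toMatrix, hE]
  change E.repr (TensorProduct.tmul ℤ (1 : ℚ) (X i j) * TensorProduct.tmul ℤ (1 : ℚ) (e b)) a = _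
  rw [Algebra.TensorProduct.tmul_mul_tmul, one_mul, hrepr]

end fibre

open scoped TensorProduct in
/-- A3 -/
theorem IsAzumaya.generic (hN : N ≠ 0) (hd : d ≠ 0) [IsLocalization.Away (N : ℤ) R]
    (h : IsAzumaya d N R Λ) :
    IsSimpleRing (ℚ ⊗[ℤ] Λ) ∧ Algebra.IsCentral ℚ (ℚ ⊗[ℤ] Λ) ∧ Module.finrank ℚ (ℚ ⊗[ℤ] Λ) = d ^ 2 ∧
      Function.Injective (Algebra.TensorProduct.includeRight : Λ →ₐ[ℤ] ℚ ⊗[ℤ] Λ) ∧
      (∀ x : ℚ ⊗[ℤ] Λ, ∃ n : ℕ, n ≠ 0 ∧ ∃ y : Λ, (n : ℚ ⊗[ℤ] Λ) * x = 1 ⊗ₜ y) ∧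
      ∀ {m : Type} [Fintype m] [DecidableEq m] (X : Matrix m m Λ), rdet R X = 1 →
        rdet ℚ (X.map (Algebra.TensorProduct.includeRight : Λ →ₐ[ℤ] ℚ ⊗[ℤ] Λ)) = 1 := by
  refine ⟨isSimpleRing_generic hN hd h, isCentral_generic hN hd h, finrank_generic hN hd h,
    include_injective hN hd h, fun x => ?_, fun X hX => ?_⟩
  · obtain ⟨n, hn, y, hy⟩ := exists_denom x
    refine ⟨n, hn, y, ?_⟩
    rw [← hy, ← nsmul_eq_mul]
    exact (Nat.cast_smul_eq_nsmul ℚ n x).symm
  · have h1 := rdet_generic hN hd h X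
    rw [hX, map_one] at h1
    exact h1

end A3

end BWG
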