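import Pool.Agent.BWG.A4c

/-!
# Row A4: the local data at the places dividing an integer
-/

set_option autoImplicit false

namespace BWG

namespace A4

open Matrix BW

open scoped TensorProduct

section Loc

variable {ι : Type} {N : ι → ℕ} (n : ι → ℕ)

/-- the places dividing `n` -/
abbrev JT (N : ι → ℕ) (n : ι → ℕ) : Type := Σ i, {v : Pl1 (N i) // v.q ∣ n i}

/-- the local fields at the places dividing `n` -/
abbrev KT (j : JT N n) : Type := ℚ_[j.2.1.q]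

/-- the projection to the places dividing `n` -/
noncomputable def piT : Ad N →+* ∀ j : JT N n, KT n j :=
  RingHom.pi fun j => ev j.1 j.2.1

lemma piT_apply (ξ : Ad N) (j : JT N n) : piT n ξ j = ev j.1 j.2.1 ξ := rfl

open Classical in
/-- extension by zero, as a family -/
noncomputable def epsFun (r : ∀ j : JT N n, KT n j) : Full N := fun i v =>
  if hv : v.q ∣ n i then r ⟨i, v, hv⟩ else 0

lemma epsFun_pos (r : ∀ j : JT N n, KT n j) {i : ι} {v : Pl1 (N i)} (hv : v.q ∣ n i) :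
    epsFun n r i v = r ⟨i, v, hv⟩ := dif_pos hv

lemma epsFun_neg (r : ∀ j : JT N n, KT n j) {i : ι} {v : Pl1 (N i)} (hv : ¬ v.q ∣ n i) :
    epsFun n r i v = 0 := dif_neg hv

variable {n} (hn : ∀ i, n i ≠ 0)

include hn in
lemma epsFun_mem (r : ∀ j : JT N n, KT n j) : epsFun n r ∈ Ad N := by
  choose m hm hmr using fun i => exists_den (N i) (n i) (hn i) (epsFun n r i)
  refine ⟨m, hm, fun i v => ?_⟩
  by_cases hv : v.q ∣ n i
  · exact hmr i v hv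
  · rw [epsFun_neg n r hv, mul_zero, norm_zero]
    exact zero_le_one

/-- extension by zero -/
noncomputable def epsT : (∀ j : JT N n, KT n j) →ₙ+* Ad N where
  toFun r := ⟨epsFun n r, epsFun_mem hn r⟩
  map_mul' r r' := ad_ext fun i v => by
    show epsFun n (r * r') i v = epsFun n r i v * epsFun n r' i v
    by_cases hv : v.q ∣ n i
    · rw [epsFun_pos n _ hv, epsFun_pos n _ hv, epsFun_pos n _ hv]
      rfl
    · rw [epsFun_neg n _ hv, epsFun_neg n _ hv, zero_mul]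
  map_zero' := ad_ext fun i v => by
    show epsFun n 0 i v = 0
    by_cases hv : v.q ∣ n i
    · rw [epsFun_pos n _ hv]
      rfl
    · rw [epsFun_neg n _ hv]
  map_add' r r' := ad_ext fun i v => by
    show epsFun n (r + r') i v = epsFun n r i v + epsFun n r' i v
    by_cases hv : v.q ∣ n i
    · rw [epsFun_pos n _ hv, epsFun_pos n _ hv, epsFun_pos n _ hv]
      rfl
    · rw [epsFun_neg n _ hv, epsFun_neg n _ hv, epsFun_neg n _ hv, zero_add]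

lemma ev_epsT (r : ∀ j : JT N n, KT n j) (i : ι) (v : Pl1 (N i)) :
    ev i v (epsT hn r) = epsFun n r i v := rfl

lemma piT_epsT (r : ∀ j : JT N n, KT n j) : piT n (epsT hn r) = r := by
  funext j
  rw [piT_apply, ev_epsT, epsFun_pos n r j.2.2]

lemma epsT_piT (ξ : Ad N) (r : ∀ j : JT N n, KT n j) : epsT hn (piT n ξ * r) = ξ * epsT hn r := by
  refine ad_ext fun i v => ?_
  rw [map_mul (ev i v), ev_epsT, ev_epsT]
  by_cases hv : v.q ∣ n i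
  · rw [epsFun_pos n _ hv, epsFun_pos n _ hv]
    rfl
  · rw [epsFun_neg n _ hv, epsFun_neg n _ hv, mul_zero]

lemma epsT_mem (r : ∀ j : JT N n, KT n j) (hr : ∀ j, ‖r j‖ ≤ 1) : epsT hn r ∈ Oo N := by
  intro i v
  rw [ev_epsT]
  by_cases hv : v.q ∣ n i
  · rw [epsFun_pos n _ hv]
    exact hr _
  · rw [epsFun_neg n _ hv, norm_zero]
    exact zero_le_one

open Classical in
/-- the inverse away from the places dividing `n` -/
noncomputable def invFun (n a : ι → ℕ) : Full N := fun i v =>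
  if v.q ∣ n i then 0 else (a i : ℚ_[v.q])⁻¹

lemma inv_gen (R : ι → Type) [∀ i, CommRing (R i)] [∀ i, IsLocalization.Away (N i : ℤ) (R i)]
    (a : ι → ℕ) (ha : ∀ i (v : Pl1 (N i)), ¬ v.q ∣ n i → ¬ v.q ∣ a i) :
    ∃ s ∈ Oo N, cAh N R (fun i => (a i : R i)) * s = 1 - epsT hn 1 := by
  have h1 : ∀ i (v : Pl1 (N i)), ‖invFun (N := N) n a i v‖ ≤ 1 := by
    intro i v
    unfold invFun
    by_cases hv : v.q ∣ n i
    · rw [if_pos hv, norm_zero]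
      exact zero_le_one
    · rw [if_neg hv, norm_inv, norm_nat_eq (ha i v hv), inv_one]
  refine ⟨⟨invFun n a, mem_Ad_of_int h1⟩, h1, ad_ext fun i v => ?_⟩
  rw [map_mul, ev_cA_nat, map_sub, map_one, ev_epsT]
  show (a i : ℚ_[v.q]) * invFun (N := N) n a i v = _
  unfold invFun
  by_cases hv : v.q ∣ n i
  · rw [if_pos hv, epsFun_pos n _ hv, mul_zero]
    exact (sub_self (1 : ℚ_[v.q])).symm
  · rw [if_neg hv, epsFun_neg n _ hv, sub_zero]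
    refine mul_inv_cancel₀ ?_
    intro h0
    have := norm_nat_eq (ha i v hv)
    rw [h0, norm_zero] at this
    exact zero_ne_one this

lemma rad_gen {q : ℕ} [hq : Fact q.Prime] {m : ℕ} (hm : q ∣ m) {r : ℚ_[q]} (hr : ‖r‖ ≤ 1) :
    ∃ s : ℚ_[q], ‖s‖ ≤ 1 ∧ (1 + (m : ℚ_[q]) * r) * s = 1 := by
  have h1 : ‖(m : ℚ_[q]) * r‖ < 1 := by
    obtain ⟨c, rfl⟩ := hm
    rw [Nat.cast_mul, mul_assoc, norm_mul, Padic.norm_p]
    have h2 : ‖(c : ℚ_[q]) * r‖ ≤ 1 := by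
      rw [norm_mul]
      exact mul_le_one₀ (norm_nat_le c) (norm_nonneg _) hr
    have h3 : ((q : ℕ) : ℝ)⁻¹ < 1 := inv_lt_one_of_one_lt₀ (by exact_mod_cast hq.out.one_lt)
    have h4 : 0 ≤ ((q : ℕ) : ℝ)⁻¹ := by positivity
    calc ((q : ℕ) : ℝ)⁻¹ * ‖(c : ℚ_[q]) * r‖ ≤ ((q : ℕ) : ℝ)⁻¹ * 1 :=
          mul_le_mul_of_nonneg_left h2 h4
      _ < 1 := by rw [mul_one]; exact h3
  have h2 : ‖1 + (m : ℚ_[q]) * r‖ = 1 := by
    have h3 : ‖(1 : ℚ_[q])‖ ≠ ‖(m : ℚ_[q]) * r‖ := by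
      rw [norm_one]
      exact h1.ne'
    rw [Padic.add_eq_max_of_ne h3, norm_one]
    exact max_eq_left h1.le
  refine ⟨(1 + (m : ℚ_[q]) * r)⁻¹, ?_, ?_⟩
  · rw [norm_inv, h2, inv_one]
  · refine mul_inv_cancel₀ ?_
    intro h0
    rw [h0, norm_zero] at h2
    exact zero_ne_one h2

lemma isLocal_subring (q : ℕ) [Fact q.Prime] : IsLocalRing (PadicInt.subring q) :=
  inferInstanceAs (IsLocalRing ℤ_[q])

lemma infinite_padic (q : ℕ) [Fact q.Prime] : Infinite ℚ_[q] :=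
  inferInstance

include hn in
/-- units at the places dividing `n` -/
lemma glob_gen (x : ((j : JT N n) → KT n j)ˣ) : ∃ y : ((j : JT N n) → KT n j)ˣ,
    (∀ j, ‖y.val j‖ ≤ 1) ∧ (∀ j, ‖y⁻¹.val j‖ ≤ 1) ∧ ∃ a b : ι → ℕ, (∀ i, a i ≠ 0) ∧
    (∀ i, b i ≠ 0) ∧ (∀ i (v : Pl1 (N i)), ¬ v.q ∣ n i → ¬ v.q ∣ a i) ∧
    (∀ i (v : Pl1 (N i)), ¬ v.q ∣ n i → ¬ v.q ∣ b i) ∧
    ∀ j : JT N n, x.val j * (a j.1 : ℚ_[j.2.1.q]) = y.val j * (b j.1 : ℚ_[j.2.1.q]) := by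
  classical
  have hx0 : ∀ j, x.val j ≠ 0 := fun j => ((Pi.isUnit_iff.1 x.isUnit) j).ne_zero
  have h0 : ∀ i, ∃ a b : ℕ, a ≠ 0 ∧ b ≠ 0 ∧ (∀ p, p.Prime → p ∣ a → p ∈ (n i).primeFactors) ∧
      (∀ p, p.Prime → p ∣ b → p ∈ (n i).primeFactors) ∧
      ∀ v : Pl1 (N i), v.q ∈ (n i).primeFactors →
        ‖(if hv : v.q ∣ n i then x.val ⟨i, v, hv⟩ else (1 : ℚ_[v.q])) * (a : ℚ_[v.q])‖ =
          ‖(b : ℚ_[v.q])‖ := by
    intro i
    refine exists_glob (N i) (fun v => if hv : v.q ∣ n i then x.val ⟨i, v, hv⟩ else (1 : ℚ_[v.q]))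
      (fun v => ?_) (n i).primeFactors (fun p hp => Nat.prime_of_mem_primeFactors hp)
    show (if hv : v.q ∣ n i then x.val ⟨i, v, hv⟩ else (1 : ℚ_[v.q])) ≠ 0
    by_cases hv : v.q ∣ n i
    · rw [dif_pos hv]
      exact hx0 _
    · rw [dif_neg hv]
      exact one_ne_zero
  choose a b ha hb haS hbS hab using h0
  have hab' : ∀ j : JT N n, ‖x.val j * (a j.1 : ℚ_[j.2.1.q])‖ = ‖(b j.1 : ℚ_[j.2.1.q])‖ := by
    rintro ⟨i, v, hv⟩
    have := hab i v (Nat.mem_primeFactors.2 ⟨v.prime, hv, hn i⟩)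
    rwa [dif_pos hv] at this
  have ha0 : ∀ j : JT N n, (a j.1 : ℚ_[j.2.1.q]) ≠ 0 := fun j => by
    exact_mod_cast ha j.1
  have hb0 : ∀ j : JT N n, (b j.1 : ℚ_[j.2.1.q]) ≠ 0 := fun j => by
    exact_mod_cast hb j.1
  refine ⟨⟨fun j => x.val j * (a j.1 : ℚ_[j.2.1.q]) * (b j.1 : ℚ_[j.2.1.q])⁻¹,
    fun j => (x.val j * (a j.1 : ℚ_[j.2.1.q]))⁻¹ * (b j.1 : ℚ_[j.2.1.q]), ?_, ?_⟩, ?_, ?_, a, b,
    ha, hb, ?_, ?_, ?_⟩
  · funext j
    show x.val j * (a j.1 : ℚ_[j.2.1.q]) * (b j.1 : ℚ_[j.2.1.q])⁻¹ *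
      ((x.val j * (a j.1 : ℚ_[j.2.1.q]))⁻¹ * (b j.1 : ℚ_[j.2.1.q])) = 1
    have h1 := mul_ne_zero (hx0 j) (ha0 j)
    have h2 := hb0 j
    generalize x.val j * (a j.1 : ℚ_[j.2.1.q]) = X at *
    field_simp
  · funext j
    show (x.val j * (a j.1 : ℚ_[j.2.1.q]))⁻¹ * (b j.1 : ℚ_[j.2.1.q]) *
      (x.val j * (a j.1 : ℚ_[j.2.1.q]) * (b j.1 : ℚ_[j.2.1.q])⁻¹) = 1
    have h1 := mul_ne_zero (hx0 j) (ha0 j)
    have h2 := hb0 j
    generalize x.val j * (a j.1 : ℚ_[j.2.1.q]) = X at *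
    field_simp
  · intro j
    show ‖x.val j * (a j.1 : ℚ_[j.2.1.q]) * (b j.1 : ℚ_[j.2.1.q])⁻¹‖ ≤ 1
    rw [norm_mul, hab', norm_inv, mul_inv_cancel₀ (norm_ne_zero_iff.2 (hb0 j))]
  · intro j
    show ‖(x.val j * (a j.1 : ℚ_[j.2.1.q]))⁻¹ * (b j.1 : ℚ_[j.2.1.q])‖ ≤ 1
    rw [norm_mul, norm_inv, hab', inv_mul_cancel₀ (norm_ne_zero_iff.2 (hb0 j))]
  · intro i v hv h1
    exact hv (Nat.dvd_of_mem_primeFactors (haS i _ v.prime h1))
  · intro i v hv h1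
    exact hv (Nat.dvd_of_mem_primeFactors (hbS i _ v.prime h1))
  · intro j
    show x.val j * (a j.1 : ℚ_[j.2.1.q]) = x.val j * (a j.1 : ℚ_[j.2.1.q]) *
      (b j.1 : ℚ_[j.2.1.q])⁻¹ * (b j.1 : ℚ_[j.2.1.q])
    rw [inv_mul_cancel_right₀ (hb0 j)]

end Loc

section Main

variable {ι : Type} {d : ℕ} {N : ι → ℕ} {R Λ : ι → Type} [∀ i, CommRing (R i)] [∀ i, Ring (Λ i)]
  [∀ i, Algebra (R i) (Λ i)] [∀ i, IsLocalization.Away (N i : ℤ) (R i)] (hN : ∀ i, N i ≠ 0)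
  (hd : d ≠ 0) (h : ∀ i, IsAzumaya d (N i) (R i) (Λ i))

lemma reg_gen {n : ι → ℕ} (hv : ∀ i, ∃ v : Pl1 (N i), v.q ∣ n i) (x : ∀ i, ℚ ⊗[ℤ] Λ i)
    (hx : IsUnit ((JJ hN hd h x).map (piT n))) : IsUnit x := by
  rw [Pi.isUnit_iff]
  intro i
  obtain ⟨v, hv⟩ := hv i
  have h1 := hx.map (Pi.evalRingHom (KT n) (⟨i, v, hv⟩ : JT N n)).mapMatrix
  have h2 : (Pi.evalRingHom (KT n) (⟨i, v, hv⟩ : JT N n)).mapMatrix ((JJ hN hd h x).map (piT n)) =
      Jg (hN i) hd (h i) v (x i) := by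
    ext r s
    rfl
  rw [h2] at h1
  exact isUnit_of_Jg (hN i) hd (h i) v (x i) h1

/-- the local data at the places dividing `n` -/
noncomputable def locAt {n : ι → ℕ} (hn : ∀ i, n i ≠ 0) (hv : ∀ i, ∃ v : Pl1 (N i), v.q ∣ n i) :
    LocAt (locData hN hd h) (fun i => (n i : R i)) where
  J := JT N n
  K := KT n
  instF := fun j => inferInstanceAs (Field ℚ_[j.2.1.q])
  inf := fun j => infinite_padic _
  π := piT n
  ε := epsT hn
  π_ε := piT_epsT hn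
  ε_π := epsT_piT hn
  V := fun j => PadicInt.subring j.2.1.q
  isLocal := fun j => isLocal_subring _
  π_O := fun ξ hξ j => hξ j.1 j.2.1
  ε_O := fun r hr => epsT_mem hn r hr
  inv := inv_gen hn R n fun i v hv => hv
  rad := by
    intro j r hr
    obtain ⟨s, hs, h1⟩ := rad_gen j.2.2 hr
    refine ⟨s, hs, ?_⟩
    rw [← h1]
    congr 3
    exact ev_cA_nat (R := R) n j.1 j.2.1
  glob := by
    intro x
    obtain ⟨y, hy, hy', a, b, ha, hb, hva, hvb, e⟩ := glob_gen hn x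
    refine ⟨y, hy, hy', _, ⟨a, ha, rfl⟩, _, ⟨b, hb, rfl⟩, inv_gen hn R a hva, inv_gen hn R b hvb, ?_⟩
    funext j
    refine Eq.trans ?_ ((e j).trans ?_)
    · exact congrArg (fun z => x.val j * z) (ev_cA_nat (R := R) a j.1 j.2.1)
    · exact (congrArg (fun z => y.val j * z) (ev_cA_nat (R := R) b j.1 j.2.1)).symm
  reg := fun x hx => reg_gen hN hd h hv x hx

end Main

end A4

open BW in
open scoped TensorProduct in
/-- the localization data of a family of Azumaya algebras -/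
theorem exists_loc {ι : Type} {d : ℕ} {N : ι → ℕ} {R Λ : ι → Type} [∀ i, CommRing (R i)]
    [∀ i, Ring (Λ i)] [∀ i, Algebra (R i) (Λ i)] [∀ i, IsLocalization.Away (N i : ℤ) (R i)]
    (hN : ∀ i, N i ≠ 0) (hd : d ≠ 0) (h : ∀ i, IsAzumaya d (N i) (R i) (Λ i)) :
    ∃ (𝔸 : Type) (_ : CommRing 𝔸)
      (M : LocData (Fin d) (∀ i, Λ i) (∀ i, ℚ ⊗[ℤ] Λ i) 𝔸 (∀ i, R i)),
      (∀ x i, M.φ x i = 1 ⊗ₜ x i) ∧ (∀ r, M.cP r = cen r) ∧
      ∀ t ∈ M.T, ∃ t' ∈ M.T, t ∣ t' ∧ Nonempty (LocAt M t') := by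
  refine ⟨A4.Ad N, inferInstance, A4.locData hN hd h, fun x i => rfl, fun r => rfl, ?_⟩
  rintro _ ⟨n, hn, rfl⟩
  have h0 : ∀ i, ∃ v : A4.Pl1 (N i), True := by
    intro i
    obtain ⟨p, hp, hpN⟩ := Nat.exists_infinite_primes (N i + 1)
    exact ⟨⟨p, hpN, fun h1 => absurd (Nat.le_of_dvd (Nat.pos_of_ne_zero (hN i)) h1) (by omega)⟩,
      trivial⟩
  choose w _ using h0
  refine ⟨fun i => ((n i * (w i).q : ℕ) : R i), ⟨fun i => n i * (w i).q,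
    fun i => mul_ne_zero (hn i) (w i).prime.ne_zero, rfl⟩, ?_, ?_⟩
  · refine ⟨fun i => ((w i).q : R i), ?_⟩
    funext i
    show ((n i * (w i).q : ℕ) : R i) = (n i : R i) * ((w i).q : R i)
    rw [Nat.cast_mul]
  · exact ⟨A4.locAt hN hd h (fun i => mul_ne_zero (hn i) (w i).prime.ne_zero)
      fun i => ⟨w i, dvd_mul_left _ _⟩⟩

end BWG
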