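import Pool.Agent.BWG.A1
import Pool.Agent.BWG.A3

/-!
# Row A4, first part: one algebra, all places
-/

set_option autoImplicit false

namespace BWG

namespace A4

open Matrix

open scoped TensorProduct

/-! ### the places -/

/-- the primes that do not divide `N` -/
@[ext] structure Pl1 (N : ℕ) : Type where
  q : ℕ
  prime : q.Prime
  nd : ¬ q ∣ N

instance {N : ℕ} (v : Pl1 N) : Fact (Nat.Prime v.q) := ⟨v.prime⟩

lemma isUnit_nat {q : ℕ} [Fact q.Prime] {n : ℕ} (h : ¬ q ∣ n) : IsUnit (n : ℤ_[q]) := by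
  have := A1.isUnit_N h
  simpa using this

lemma prime_ne_zero {q p : ℕ} [Fact q.Prime] (hp : p.Prime) : (p : ℤ_[q]) ≠ 0 := by
  exact_mod_cast hp.ne_zero

lemma isUnit_prime {q p : ℕ} [hq : Fact q.Prime] (hp : p.Prime) (h : q ≠ p) :
    IsUnit (p : ℤ_[q]) :=
  isUnit_nat fun h1 => h ((Nat.prime_dvd_prime_iff_eq hq.out hp).1 h1)

/-- integers close to a family of `q`-adic integers -/
lemma dense_int (N : ℕ) (n : ℕ) : n ≠ 0 → ∀ ξ : (∀ v : Pl1 N, ℤ_[v.q]), ∃ x : ℤ,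
    ∀ v : Pl1 N, (n : ℤ_[v.q]) ∣ ξ v - x := by
  induction n using induction_on_primes with
  | zero => exact fun h => absurd rfl h
  | one => exact fun _ ξ => ⟨0, fun v => by simp⟩
  | prime_mul p a hp ih =>
    intro hpa ξ
    have ha : a ≠ 0 := fun h => hpa (by rw [h, mul_zero])
    have h0 : ∃ x₀ : ℤ, ∀ v : Pl1 N, (p : ℤ_[v.q]) ∣ ξ v - x₀ := by
      by_cases hpN : p ∣ N
      · refine ⟨0, fun v => (isUnit_prime hp ?_).dvd⟩
        intro h
        exact v.nd (h ▸ hpN)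
      · obtain ⟨w, rfl⟩ : ∃ w : Pl1 N, w.q = p := ⟨⟨p, hp, hpN⟩, rfl⟩
        have h1 := PadicInt.toZMod_spec (p := w.q) (ξ w)
        rw [PadicInt.maximalIdeal_eq_span_p, Ideal.mem_span_singleton] at h1
        have h2 : ((ZMod.cast (PadicInt.toZMod (ξ w)) : ℤ_[w.q])) =
            (((PadicInt.toZMod (ξ w)).val : ℤ) : ℤ_[w.q]) := by
          rw [ZMod.cast_eq_val]
          simp
        refine ⟨((PadicInt.toZMod (ξ w)).val : ℤ), fun v => ?_⟩
        by_cases hv : v = w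
        · rw [hv, ← h2]
          exact h1
        · refine (isUnit_prime hp ?_).dvd
          intro h
          exact hv (Pl1.ext h)
    obtain ⟨x₀, hx₀⟩ := h0
    choose ξ' hξ' using hx₀
    obtain ⟨x₁, hx₁⟩ := ih ha ξ'
    refine ⟨x₀ + p * x₁, fun v => ?_⟩
    have e : ξ v - ((x₀ + p * x₁ : ℤ) : ℤ_[v.q]) = (p : ℤ_[v.q]) * (ξ' v - x₁) := by
      rw [mul_sub, ← hξ' v]
      push_cast
      ring
    rw [e, Nat.cast_mul]
    exact mul_dvd_mul_left _ (hx₁ v)

lemma norm_nat_le {q : ℕ} [Fact q.Prime] (n : ℕ) : ‖(n : ℚ_[q])‖ ≤ 1 := by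
  exact_mod_cast Padic.norm_int_le_one (p := q) n

/-- common denominators -/
lemma exists_den (N : ℕ) (n : ℕ) : n ≠ 0 → ∀ r : (∀ v : Pl1 N, ℚ_[v.q]), ∃ m : ℕ, m ≠ 0 ∧
    ∀ v : Pl1 N, v.q ∣ n → ‖(m : ℚ_[v.q]) * r v‖ ≤ 1 := by
  induction n using induction_on_primes with
  | zero => exact fun h => absurd rfl h
  | one =>
    refine fun _ r => ⟨1, one_ne_zero, fun v hv => ?_⟩
    exact absurd (Nat.dvd_one.1 hv) v.prime.ne_one
  | prime_mul p a hp ih =>
    intro hpa r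
    have ha : a ≠ 0 := fun h => hpa (by rw [h, mul_zero])
    obtain ⟨m, hm, hmr⟩ := ih ha r
    have h0 : ∃ e : ℕ, ∀ v : Pl1 N, v.q = p → ‖((p ^ e : ℕ) : ℚ_[v.q]) * r v‖ ≤ 1 := by
      by_cases hpN : p ∣ N
      · refine ⟨0, fun v hv => ?_⟩
        exact absurd (hv ▸ hpN) v.nd
      · obtain ⟨w, rfl⟩ : ∃ w : Pl1 N, w.q = p := ⟨⟨p, hp, hpN⟩, rfl⟩
        have h1 : ∃ e : ℕ, ‖((w.q ^ e : ℕ) : ℚ_[w.q]) * r w‖ ≤ 1 := by
          by_cases h0 : r w = 0
          · exact ⟨0, by rw [h0, mul_zero, norm_zero]; exact zero_le_one⟩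
          · refine ⟨(-(r w).valuation).toNat, ?_⟩
            rw [Nat.cast_pow, norm_mul, norm_pow, Padic.norm_p,
              Padic.norm_eq_zpow_neg_valuation h0,
              inv_pow, ← zpow_natCast, ← _root_.zpow_neg, ← zpow_add₀ (by
                have := w.prime.ne_zero
                exact_mod_cast this)]
            refine zpow_le_one_of_nonpos₀ (by exact_mod_cast w.prime.one_le) (by omega)
        obtain ⟨e, he⟩ := h1
        refine ⟨e, fun v hv => ?_⟩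
        have : v = w := Pl1.ext hv
        rw [this]
        exact he
    obtain ⟨e, he⟩ := h0
    refine ⟨p ^ e * m, mul_ne_zero (pow_ne_zero _ hp.ne_zero) hm, fun v hv => ?_⟩
    rw [Nat.cast_mul]
    rcases (Nat.Prime.dvd_mul v.prime).1 hv with h | h
    · have h1 : v.q = p := (Nat.prime_dvd_prime_iff_eq v.prime hp).1 h
      have e1 : ((p ^ e : ℕ) : ℚ_[v.q]) * (m : ℚ_[v.q]) * r v =
          (m : ℚ_[v.q]) * (((p ^ e : ℕ) : ℚ_[v.q]) * r v) := by ring
      rw [e1, norm_mul]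
      exact mul_le_one₀ (norm_nat_le m) (norm_nonneg _) (he v h1)
    · rw [mul_assoc, norm_mul]
      exact mul_le_one₀ (norm_nat_le _) (norm_nonneg _) (hmr v h)

/-- the norm of an integer prime to `q` -/
lemma norm_nat_eq {q : ℕ} [hq : Fact q.Prime] {n : ℕ} (h : ¬ q ∣ n) : ‖(n : ℚ_[q])‖ = 1 := by
  have := (PadicInt.isUnit_iff.1 (isUnit_nat h))
  exact_mod_cast this

/-- families of nonzero elements are products of units and quotients of integers -/
lemma exists_glob (N : ℕ) (x : ∀ v : Pl1 N, ℚ_[v.q]) (hx : ∀ v, x v ≠ 0) (S : Finset ℕ) :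
    (∀ p ∈ S, p.Prime) → ∃ a b : ℕ, a ≠ 0 ∧ b ≠ 0 ∧ (∀ p, p.Prime → p ∣ a → p ∈ S) ∧
      (∀ p, p.Prime → p ∣ b → p ∈ S) ∧
      ∀ v : Pl1 N, v.q ∈ S → ‖x v * (a : ℚ_[v.q])‖ = ‖(b : ℚ_[v.q])‖ := by
  induction S using Finset.induction_on with
  | empty =>
    intro _
    refine ⟨1, 1, one_ne_zero, one_ne_zero, fun p hp h => ?_, fun p hp h => ?_, fun v hv => ?_⟩
    · exact absurd (Nat.dvd_one.1 h) hp.ne_one
    · exact absurd (Nat.dvd_one.1 h) hp.ne_one
    · exact absurd hv (Finset.notMem_empty _)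
  | insert p S hpS ih =>
    intro hS
    have hp : p.Prime := hS p (Finset.mem_insert_self _ _)
    obtain ⟨a, b, ha, hb, haS, hbS, hab⟩ := ih fun p' hp' => hS p' (Finset.mem_insert_of_mem hp')
    have h0 : ∃ c c' : ℕ, ∀ v : Pl1 N, v.q = p →
        ‖x v‖ * ‖((p ^ c : ℕ) : ℚ_[v.q])‖ = ‖((p ^ c' : ℕ) : ℚ_[v.q])‖ := by
      by_cases hpN : p ∣ N
      · refine ⟨0, 0, fun v hv => ?_⟩
        exact absurd (hv ▸ hpN) v.nd
      · obtain ⟨w, rfl⟩ : ∃ w : Pl1 N, w.q = p := ⟨⟨p, hp, hpN⟩, rfl⟩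
        refine ⟨(-(x w).valuation).toNat, ((x w).valuation).toNat, fun v hv => ?_⟩
        have : v = w := Pl1.ext hv
        subst this
        have hne : ((v.q : ℕ) : ℝ) ≠ 0 := by
          have := v.prime.ne_zero
          exact_mod_cast this
        rw [Nat.cast_pow, Nat.cast_pow, norm_pow, norm_pow, Padic.norm_p,
          Padic.norm_eq_zpow_neg_valuation (hx v), inv_pow, inv_pow, ← zpow_natCast,
          ← zpow_natCast, ← _root_.zpow_neg, ← _root_.zpow_neg, ← zpow_add₀ hne]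
        congr 1
        omega
    obtain ⟨c, c', hcc⟩ := h0
    refine ⟨a * p ^ c, b * p ^ c', mul_ne_zero ha (pow_ne_zero _ hp.ne_zero),
      mul_ne_zero hb (pow_ne_zero _ hp.ne_zero), ?_, ?_, ?_⟩
    · intro p' hp' h
      rcases (Nat.Prime.dvd_mul hp').1 h with h | h
      · exact Finset.mem_insert_of_mem (haS p' hp' h)
      · have := (Nat.prime_dvd_prime_iff_eq hp' hp).1 (hp'.dvd_of_dvd_pow h)
        rw [this]
        exact Finset.mem_insert_self _ _
    · intro p' hp' h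
      rcases (Nat.Prime.dvd_mul hp').1 h with h | h
      · exact Finset.mem_insert_of_mem (hbS p' hp' h)
      · have := (Nat.prime_dvd_prime_iff_eq hp' hp).1 (hp'.dvd_of_dvd_pow h)
        rw [this]
        exact Finset.mem_insert_self _ _
    · intro v hv
      rcases Finset.mem_insert.1 hv with h | h
      · have h1 : ¬ v.q ∣ a := fun h2 => hpS (h ▸ haS _ v.prime h2)
        have h2 : ¬ v.q ∣ b := fun h2 => hpS (h ▸ hbS _ v.prime h2)
        rw [Nat.cast_mul, Nat.cast_mul, norm_mul, norm_mul, norm_mul, norm_nat_eq h1,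
          norm_nat_eq h2, one_mul, one_mul]
        exact hcc v h
      · have h1 : v.q ≠ p := fun h1 => hpS (h1 ▸ h)
        have h2 : ∀ e : ℕ, ‖((p ^ e : ℕ) : ℚ_[v.q])‖ = 1 := fun e => norm_nat_eq fun h3 =>
          h1 ((Nat.prime_dvd_prime_iff_eq v.prime hp).1 (v.prime.dvd_of_dvd_pow h3))
        rw [Nat.cast_mul, Nat.cast_mul, ← mul_assoc, norm_mul, norm_mul (b : ℚ_[v.q]), h2, h2,
          mul_one, mul_one]
        exact hab v h

section One

variable {d N : ℕ} {R Λ : Type} [CommRing R] [Ring Λ] [Algebra R Λ] (hN : N ≠ 0)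
  [IsLocalization.Away (N : ℤ) R] (hd : d ≠ 0) (h : IsAzumaya d N R Λ)

/-- the completion at the place `v` -/
noncomputable def rho (v : Pl1 N) : Λ →+* Matrix (Fin d) (Fin d) ℤ_[v.q] :=
  (h.exists_padic hN hd v.q v.nd).choose

lemma rho_ker (v : Pl1 N) (k : ℕ) (x : Λ)
    (hx : ∀ r s, ((v.q : ℕ) : ℤ_[v.q]) ^ k ∣ rho hN hd h v x r s) : ∃ y, x = ((v.q : ℕ) : Λ) ^ k * y :=
  (h.exists_padic hN hd v.q v.nd).choose_spec.1 k x hx

lemma rho_dense (v : Pl1 N) (k : ℕ) (M : Matrix (Fin d) (Fin d) ℤ_[v.q]) : ∃ x : Λ, ∀ r s,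
    ((v.q : ℕ) : ℤ_[v.q]) ^ k ∣ M r s - rho hN hd h v x r s :=
  (h.exists_padic hN hd v.q v.nd).choose_spec.2 k M

lemma rho_nat (v : Pl1 N) (n : ℕ) (y : Λ) (r s : Fin d) :
    rho hN hd h v ((n : Λ) * y) r s = (n : ℤ_[v.q]) * rho hN hd h v y r s := by
  rw [map_mul, map_natCast, ← nsmul_eq_mul, Matrix.smul_apply, nsmul_eq_mul]

/-- divisibility by an integer is local -/
lemma dvd_of_local (n : ℕ) : n ≠ 0 → ∀ x : Λ,
    (∀ v : Pl1 N, ∀ r s, (n : ℤ_[v.q]) ∣ rho hN hd h v x r s) → ∃ y, x = (n : Λ) * y := by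
  induction n using induction_on_primes with
  | zero => exact fun h => absurd rfl h
  | one => exact fun _ x _ => ⟨x, by simp⟩
  | prime_mul p a hp ih =>
    intro hpa x hx
    have ha : a ≠ 0 := fun h => hpa (by rw [h, mul_zero])
    have h0 : ∃ z, x = (p : Λ) * z := by
      by_cases hpN : p ∣ N
      · obtain ⟨c, hc⟩ := hpN
        have h1 : IsUnit (algebraMap ℤ R (N : ℤ)) :=
          IsLocalization.Away.algebraMap_isUnit (S := R) (N : ℤ)
        have h2 : IsUnit (p : R) := by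
          rw [hc] at h1
          have h3 : algebraMap ℤ R ((p * c : ℕ) : ℤ) = (p : R) * (c : R) := by
            simp
          rw [h3] at h1
          exact isUnit_of_mul_isUnit_left h1
        obtain ⟨u, hu⟩ := h2
        refine ⟨((u⁻¹ : Rˣ) : R) • x, ?_⟩
        rw [← nsmul_eq_mul, ← Nat.cast_smul_eq_nsmul R, smul_smul, ← hu, Units.mul_inv, one_smul]
      · obtain ⟨w, rfl⟩ : ∃ w : Pl1 N, w.q = p := ⟨⟨p, hp, hpN⟩, rfl⟩
        have h1 := rho_ker hN hd h w 1 x fun r s => by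
          rw [pow_one]
          refine dvd_trans ?_ (hx w r s)
          rw [Nat.cast_mul]
          exact dvd_mul_right _ _
        obtain ⟨y, hy⟩ := h1
        exact ⟨y, by rw [hy, pow_one]⟩
    obtain ⟨z, rfl⟩ := h0
    obtain ⟨w, rfl⟩ := ih ha z fun v r s => by
      have h1 := hx v r s
      rw [rho_nat, Nat.cast_mul] at h1
      exact (mul_dvd_mul_iff_left (prime_ne_zero hp)).1 h1
    exact ⟨w, by rw [Nat.cast_mul, mul_assoc]⟩

/-- strong approximation -/
lemma dense_all (n : ℕ) : n ≠ 0 → ∀ M : (∀ v : Pl1 N, Matrix (Fin d) (Fin d) ℤ_[v.q]), ∃ x : Λ,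
    ∀ v r s, (n : ℤ_[v.q]) ∣ M v r s - rho hN hd h v x r s := by
  induction n using induction_on_primes with
  | zero => exact fun h => absurd rfl h
  | one => exact fun _ M => ⟨0, fun v r s => by simp⟩
  | prime_mul p a hp ih =>
    intro hpa M
    have ha : a ≠ 0 := fun h => hpa (by rw [h, mul_zero])
    have h0 : ∃ x₀ : Λ, ∀ v : Pl1 N, ∀ r s, (p : ℤ_[v.q]) ∣ M v r s - rho hN hd h v x₀ r s := by
      by_cases hpN : p ∣ N
      · refine ⟨0, fun v r s => (isUnit_prime hp ?_).dvd⟩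
        intro h
        exact v.nd (h ▸ hpN)
      · obtain ⟨w, rfl⟩ : ∃ w : Pl1 N, w.q = p := ⟨⟨p, hp, hpN⟩, rfl⟩
        obtain ⟨x₀, hx₀⟩ := rho_dense hN hd h w 1 (M w)
        refine ⟨x₀, fun v r s => ?_⟩
        by_cases hv : v = w
        · subst hv
          have := hx₀ r s
          rwa [pow_one] at this
        · refine (isUnit_prime hp ?_).dvd
          intro h
          exact hv (Pl1.ext h)
    obtain ⟨x₀, hx₀⟩ := h0
    choose M' hM' using hx₀
    obtain ⟨x₁, hx₁⟩ := ih ha (fun v => Matrix.of (M' v))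
    refine ⟨x₀ + (p : Λ) * x₁, fun v r s => ?_⟩
    have e : M v r s - rho hN hd h v (x₀ + (p : Λ) * x₁) r s =
        (p : ℤ_[v.q]) * (M' v r s - rho hN hd h v x₁ r s) := by
      rw [map_add, Matrix.add_apply, rho_nat, ← sub_sub, hM' v r s, mul_sub]
    rw [e, Nat.cast_mul]
    exact mul_dvd_mul_left _ (hx₁ v r s)

end One

end A4

end BWG
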