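import Pool.Agent.BWG.A4a

/-!
# Row A4, second part: the generic fibre and the places
-/

set_option autoImplicit false

namespace BWG

namespace A4

open Matrix

open scoped TensorProduct

section Gen

variable {d N : ℕ} {R Λ : Type} [CommRing R] [Ring Λ] [Algebra R Λ] (hN : N ≠ 0)
  [IsLocalization.Away (N : ℤ) R] (hd : d ≠ 0) (h : IsAzumaya d N R Λ)

/-- the inclusion of the integers in the field -/
noncomputable def inc (q : ℕ) [Fact q.Prime] : ℤ_[q] →+* ℚ_[q] := PadicInt.Coe.ringHom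

/-- the completion of the algebra with coefficients in the field `ℚ_q` -/
noncomputable def rhoQ (v : Pl1 N) : Λ →+* Matrix (Fin d) (Fin d) ℚ_[v.q] :=
  (inc v.q).mapMatrix.comp (rho hN hd h v)

lemma Jg_comm (v : Pl1 N) (x : ℚ) (y : Λ) :
    Commute (((algebraMap ℚ (Matrix (Fin d) (Fin d) ℚ_[v.q])).toIntAlgHom : ℚ →ₐ[ℤ] _) x)
      (((rhoQ hN hd h v).toIntAlgHom : Λ →ₐ[ℤ] _) y) := Algebra.commutes x _

/-- the completion of the generic fibre -/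
noncomputable def Jg (v : Pl1 N) : (ℚ ⊗[ℤ] Λ) →+* Matrix (Fin d) (Fin d) ℚ_[v.q] :=
  (Algebra.TensorProduct.lift (S := ℤ)
    ((algebraMap ℚ (Matrix (Fin d) (Fin d) ℚ_[v.q])).toIntAlgHom : ℚ →ₐ[ℤ] _)
    ((rhoQ hN hd h v).toIntAlgHom : Λ →ₐ[ℤ] _)
    (Jg_comm hN hd h v)).toRingHom

lemma Jg_tmul (v : Pl1 N) (x : Λ) (r s : Fin d) :
    Jg hN hd h v (1 ⊗ₜ x) r s = ((rho hN hd h v x r s : ℤ_[v.q]) : ℚ_[v.q]) := by
  have e : Jg hN hd h v (1 ⊗ₜ x) = (algebraMap ℚ (Matrix (Fin d) (Fin d) ℚ_[v.q])) 1 *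
      rhoQ hN hd h v x := Algebra.TensorProduct.lift_tmul _ _ (Jg_comm hN hd h v) 1 x
  rw [e, map_one, one_mul]
  rfl

lemma Jg_nat (v : Pl1 N) (n : ℕ) (x : ℚ ⊗[ℤ] Λ) (r s : Fin d) :
    Jg hN hd h v ((n : ℚ ⊗[ℤ] Λ) * x) r s = (n : ℚ_[v.q]) * Jg hN hd h v x r s := by
  rw [map_mul, map_natCast, ← nsmul_eq_mul, Matrix.smul_apply, nsmul_eq_mul]

lemma Jg_injective (v : Pl1 N) : Function.Injective (Jg hN hd h v) := by
  have : NeZero d := ⟨hd⟩
  have := (h.generic hN hd).1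
  exact RingHom.injective _

/-- integral elements of the generic fibre come from the algebra -/
lemma int_of_local (x : ℚ ⊗[ℤ] Λ) (hx : ∀ v r s, ‖Jg hN hd h v x r s‖ ≤ 1) :
    ∃ y : Λ, x = 1 ⊗ₜ y := by
  obtain ⟨n, hn, y, hy⟩ := (h.generic hN hd).2.2.2.2.1 x
  obtain ⟨z, rfl⟩ := dvd_of_local hN hd h n hn y fun v r s => by
    have h1 : ((rho hN hd h v y r s : ℤ_[v.q]) : ℚ_[v.q]) = (n : ℚ_[v.q]) * Jg hN hd h v x r s := by
      rw [← Jg_tmul, ← hy, Jg_nat]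
    obtain ⟨w, hw⟩ : ∃ w : ℤ_[v.q], (w : ℚ_[v.q]) = Jg hN hd h v x r s :=
      ⟨⟨_, hx v r s⟩, rfl⟩
    refine ⟨w, ?_⟩
    rw [← hw] at h1
    apply PadicInt.ext
    rw [PadicInt.coe_mul, PadicInt.coe_natCast]
    exact h1
  refine ⟨z, ?_⟩
  have hn' : (n : ℚ) ≠ 0 := by exact_mod_cast hn
  have e : ∀ w : ℚ ⊗[ℤ] Λ, (n : ℚ ⊗[ℤ] Λ) * w = (n : ℚ) • w := fun w => by
    rw [← nsmul_eq_mul, Nat.cast_smul_eq_nsmul]
  have h2 : (n : ℚ) • x = (n : ℚ) • ((1 : ℚ) ⊗ₜ[ℤ] z) := by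
    rw [← e, hy, ← e, ← nsmul_eq_mul, ← nsmul_eq_mul, TensorProduct.tmul_smul]
  exact smul_right_injective _ hn' h2

/-- denominators -/
lemma exists_den_gen (x : ℚ ⊗[ℤ] Λ) : ∃ n : ℕ, n ≠ 0 ∧ ∀ v r s,
    ‖(n : ℚ_[v.q]) * Jg hN hd h v x r s‖ ≤ 1 := by
  obtain ⟨n, hn, y, hy⟩ := (h.generic hN hd).2.2.2.2.1 x
  refine ⟨n, hn, fun v r s => ?_⟩
  rw [← Jg_nat, hy, Jg_tmul]
  exact (rho hN hd h v y r s).2

/-- an element invertible at one place is invertible -/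
lemma isUnit_of_Jg (v : Pl1 N) (x : ℚ ⊗[ℤ] Λ) (hx : IsUnit (Jg hN hd h v x)) : IsUnit x := by
  have hfr := (h.generic hN hd).2.2.1
  have hfin : Module.Finite ℚ (ℚ ⊗[ℤ] Λ) := Module.finite_of_finrank_pos (by
    rw [hfr]
    positivity)
  obtain ⟨u, hu⟩ := hx
  have hinj : Function.Injective (LinearMap.mulLeft ℚ x) := by
    rw [injective_iff_map_eq_zero]
    intro y hy
    have h1 : x * y = 0 := hy
    apply Jg_injective hN hd h v
    have h2 : Jg hN hd h v x * Jg hN hd h v y = 0 := by rw [← map_mul, h1, map_zero]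
    rw [← hu] at h2
    rw [map_zero]
    calc Jg hN hd h v y = (u⁻¹).val * (u.val * Jg hN hd h v y) := by
          rw [← mul_assoc, Units.inv_mul, one_mul]
      _ = 0 := by rw [h2, mul_zero]
  obtain ⟨y, hy⟩ := (LinearMap.injective_iff_surjective.1 hinj) 1
  have h1 : x * y = 1 := hy
  refine isUnit_iff_exists.2 ⟨y, h1, ?_⟩
  apply hinj
  show x * (y * x) = x * 1
  rw [← mul_assoc, h1, one_mul, mul_one]

/-- the completion on the centre -/
lemma Jg_cen (v : Pl1 N) (r : R) : Jg hN hd h v (1 ⊗ₜ algebraMap R Λ r) =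
    Matrix.scalar (Fin d) ((A1.coef N R v.nd r : ℤ_[v.q]) : ℚ_[v.q]) := by
  obtain ⟨k, z, hz⟩ := IsLocalization.Away.surj (N : ℤ) r
  have h1 : ∀ w : ℤ, rho hN hd h v (algebraMap R Λ (algebraMap ℤ R w)) =
      Matrix.scalar (Fin d) (w : ℤ_[v.q]) := by
    intro w
    rw [eq_intCast (algebraMap ℤ R) w, map_intCast, map_intCast, map_intCast]
  have h2 : ∀ w : ℤ, A1.coef N R v.nd (algebraMap ℤ R w) = (w : ℤ_[v.q]) := by
    intro w
    rw [eq_intCast (algebraMap ℤ R) w, map_intCast]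
  -- both sides become equal after multiplication by a power of `N`
  have h3 : rho hN hd h v (algebraMap R Λ r) *
      Matrix.scalar (Fin d) (((N : ℤ) : ℤ_[v.q]) ^ k) =
      Matrix.scalar (Fin d) (A1.coef N R v.nd r) *
      Matrix.scalar (Fin d) (((N : ℤ) : ℤ_[v.q]) ^ k) := by
    have e1 : Matrix.scalar (Fin d) (((N : ℤ) : ℤ_[v.q]) ^ k) =
        rho hN hd h v (algebraMap R Λ (algebraMap ℤ R (N : ℤ) ^ k)) := by
      rw [map_pow, map_pow, map_pow, h1]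
    rw [← map_mul (Matrix.scalar (Fin d))]
    rw [e1, ← map_mul, ← map_mul, hz, h1, ← h2 (N : ℤ), ← map_pow, ← map_mul, hz, h2]
  have h4 : IsUnit (Matrix.scalar (Fin d) (((N : ℤ) : ℤ_[v.q]) ^ k)) := by
    have := A1.isUnit_N v.nd
    exact (this.pow k).map (Matrix.scalar (Fin d))
  have h5 : rho hN hd h v (algebraMap R Λ r) = Matrix.scalar (Fin d) (A1.coef N R v.nd r) :=
    h4.mul_right_cancel h3
  ext i j
  rw [Jg_tmul, h5]
  by_cases hij : i = j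
  · subst hij
    simp [Matrix.scalar_apply]
  · simp [Matrix.scalar_apply, Matrix.diagonal_apply_ne _ hij]

end Gen

end A4

end BWG
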