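import Pool.Agent.BWG.Act

/-!
# Localization data: definitions
-/

set_option autoImplicit false

namespace BWG

open Matrix BW

/-- The global input of the localization theorem: `φ : P → D` (the algebra in its generic fibre),
`j : D → M_d(𝔸)` (the splittings at all places), central elements `C`, the integral adeles `O`,
denominators `T`. -/
structure LocData (d : Type) [Fintype d] [DecidableEq d] (P D 𝔸 C : Type) [Ring P] [Ring D]
    [CommRing 𝔸] [CommRing C] where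
  φ : P →+* D
  φ_inj : Function.Injective φ
  j : D →+* Matrix d d 𝔸
  cP : C →+* P
  cA : C →+* 𝔸
  cP_comm : ∀ (x : C) (y : D), φ (cP x) * y = y * φ (cP x)
  j_c : ∀ x : C, j (φ (cP x)) = Matrix.scalar d (cA x)
  O : Subring 𝔸
  memO : ∀ x : D, (∀ r s, j x r s ∈ O) ↔ x ∈ φ.range
  T : Submonoid C
  T_unit : ∀ t ∈ T, IsUnit (φ (cP t))
  den : ∀ ξ : 𝔸, ∃ t ∈ T, cA t * ξ ∈ O
  dense : ∀ M : Matrix d d 𝔸, (∀ r s, M r s ∈ O) → ∀ t ∈ T, ∃ x : P, ∃ M' : Matrix d d 𝔸,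
    (∀ r s, M' r s ∈ O) ∧ M = j (φ x) + Matrix.scalar d (cA t) * M'
  denseC : ∀ ξ ∈ O, ∀ t ∈ T, ∃ x : C, ∃ η ∈ O, ξ = cA x + cA t * η

/-- The local input of the localization theorem at `t`: the places dividing `t`. -/
structure LocAt {d : Type} [Fintype d] [DecidableEq d] {P D 𝔸 C : Type} [Ring P] [Ring D]
    [CommRing 𝔸] [CommRing C] (M : LocData d P D 𝔸 C) (t : C) where
  J : Type
  K : J → Type
  instF : ∀ i, Field (K i)
  inf : ∀ i, Infinite (K i)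
  π : 𝔸 →+* ∀ i, K i
  ε : (∀ i, K i) →ₙ+* 𝔸
  π_ε : ∀ r, π (ε r) = r
  ε_π : ∀ ξ r, ε (π ξ * r) = ξ * ε r
  V : ∀ i, Subring (K i)
  isLocal : ∀ i, IsLocalRing (V i)
  π_O : ∀ ξ ∈ M.O, ∀ i, π ξ i ∈ V i
  ε_O : ∀ r, (∀ i, r i ∈ V i) → ε r ∈ M.O
  /-- `t` is invertible in `O` away from the places of `J` -/
  inv : ∃ s ∈ M.O, M.cA t * s = 1 - ε 1
  /-- `t` is in the maximal ideal at the places of `J` -/
  rad : ∀ i, ∀ r ∈ V i, ∃ s ∈ V i, (1 + π (M.cA t) i * r) * s = 1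
  /-- every unit is a product of local units and of quotients of elements of `T` invertible away
  from `J` -/
  glob : ∀ x : ((i : J) → K i)ˣ, ∃ y : ((i : J) → K i)ˣ, (∀ i, y.val i ∈ V i) ∧
    (∀ i, y⁻¹.val i ∈ V i) ∧ ∃ v ∈ M.T, ∃ v' ∈ M.T, (∃ s ∈ M.O, M.cA v * s = 1 - ε 1) ∧
      (∃ s ∈ M.O, M.cA v' * s = 1 - ε 1) ∧ x.val * π (M.cA v) = y.val * π (M.cA v')
  /-- elements invertible at the places of `J` are invertible -/
  reg : ∀ x : D, IsUnit ((M.j x).map π) → IsUnit x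

attribute [instance] LocAt.instF LocAt.inf LocAt.isLocal

end BWG
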