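import Pool.Agent.BWG.A4b
import Pool.Agent.BWG.LocDefs

/-!
# Row A4: the localization data of a family of Azumaya algebras
-/

set_option autoImplicit false

namespace BWG

namespace A4

open Matrix BW

open scoped TensorProduct

section Fam

variable {ι : Type}

/-- an integral element of the local field as an integer -/
def mkz {q : ℕ} [Fact q.Prime] (x : ℚ_[q]) (hx : ‖x‖ ≤ 1) : ℤ_[q] := ⟨x, hx⟩

lemma coe_mkz {q : ℕ} [Fact q.Prime] (x : ℚ_[q]) (hx : ‖x‖ ≤ 1) : (mkz x hx : ℚ_[q]) = x := rfl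

lemma eq_of_dvd {q : ℕ} [Fact q.Prime] {x : ℚ_[q]} {hx : ‖x‖ ≤ 1} {n : ℕ} {y c : ℤ_[q]}
    (h : mkz x hx - y = (n : ℤ_[q]) * c) : x = (y : ℚ_[q]) + (n : ℚ_[q]) * (c : ℚ_[q]) := by
  have h2 := congrArg (fun z : ℤ_[q] => (z : ℚ_[q])) h
  simp only [PadicInt.coe_sub, PadicInt.coe_mul, PadicInt.coe_natCast, coe_mkz] at h2
  rwa [sub_eq_iff_eq_add'] at h2

/-- the product of the local fields -/
abbrev Full (N : ι → ℕ) : Type := ∀ (i : ι) (v : Pl1 (N i)), ℚ_[v.q]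

/-- the families with a common denominator at each index -/
def Ad (N : ι → ℕ) : Subring (Full N) where
  carrier := {ξ | ∃ t : ι → ℕ, (∀ i, t i ≠ 0) ∧ ∀ i v, ‖(t i : ℚ_[v.q]) * ξ i v‖ ≤ 1}
  mul_mem' := by
    rintro ξ η ⟨t, ht, h⟩ ⟨t', ht', h'⟩
    refine ⟨fun i => t i * t' i, fun i => mul_ne_zero (ht i) (ht' i), fun i v => ?_⟩
    have e : ((t i * t' i : ℕ) : ℚ_[v.q]) * (ξ * η) i v =
        ((t i : ℚ_[v.q]) * ξ i v) * ((t' i : ℚ_[v.q]) * η i v) := by
      show ((t i * t' i : ℕ) : ℚ_[v.q]) * (ξ i v * η i v) = _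
      push_cast
      ring
    rw [e, norm_mul]
    exact mul_le_one₀ (h i v) (norm_nonneg _) (h' i v)
  one_mem' := ⟨fun _ => 1, fun _ => one_ne_zero, fun i v => by simp⟩
  add_mem' := by
    rintro ξ η ⟨t, ht, h⟩ ⟨t', ht', h'⟩
    refine ⟨fun i => t i * t' i, fun i => mul_ne_zero (ht i) (ht' i), fun i v => ?_⟩
    have e : ((t i * t' i : ℕ) : ℚ_[v.q]) * (ξ + η) i v =
        (t' i : ℚ_[v.q]) * ((t i : ℚ_[v.q]) * ξ i v) +
        (t i : ℚ_[v.q]) * ((t' i : ℚ_[v.q]) * η i v) := by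
      show ((t i * t' i : ℕ) : ℚ_[v.q]) * (ξ i v + η i v) = _
      push_cast
      ring
    rw [e]
    refine (Padic.nonarchimedean _ _).trans (max_le ?_ ?_)
    · rw [norm_mul]
      exact mul_le_one₀ (norm_nat_le _) (norm_nonneg _) (h i v)
    · rw [norm_mul]
      exact mul_le_one₀ (norm_nat_le _) (norm_nonneg _) (h' i v)
  zero_mem' := ⟨fun _ => 1, fun _ => one_ne_zero, fun i v => by simp⟩
  neg_mem' := by
    rintro ξ ⟨t, ht, h⟩
    refine ⟨t, ht, fun i v => ?_⟩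
    show ‖(t i : ℚ_[v.q]) * (-(ξ i v))‖ ≤ 1
    rw [mul_neg, norm_neg]
    exact h i v

lemma mem_Ad_of_int {N : ι → ℕ} {ξ : Full N} (h : ∀ i v, ‖ξ i v‖ ≤ 1) : ξ ∈ Ad N :=
  ⟨fun _ => 1, fun _ => one_ne_zero, fun i v => by
    rw [Nat.cast_one, one_mul]
    exact h i v⟩

/-- evaluation at a place -/
noncomputable def ev {N : ι → ℕ} (i : ι) (v : Pl1 (N i)) : Ad N →+* ℚ_[v.q] :=
  ((Pi.evalRingHom (fun v : Pl1 (N i) => ℚ_[v.q]) v).comp
    (Pi.evalRingHom (fun i => ∀ v : Pl1 (N i), ℚ_[v.q]) i)).comp (Ad N).subtype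

lemma ad_ext {N : ι → ℕ} {ξ η : Ad N} (h : ∀ i v, ev i v ξ = ev i v η) : ξ = η :=
  Subtype.ext (funext fun i => funext fun v => h i v)

lemma mat_ext {N : ι → ℕ} {m n : Type} {M M' : Matrix m n (Ad N)}
    (h : ∀ i v r s, ev i v (M r s) = ev i v (M' r s)) : M = M' := by
  exact Matrix.ext fun r s => ad_ext fun i v => h i v r s

/-- the integral elements -/
def Oo (N : ι → ℕ) : Subring (Ad N) where
  carrier := {ξ | ∀ i v, ‖ev i v ξ‖ ≤ 1}
  mul_mem' := by
    intro ξ η h h' i v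
    rw [map_mul, norm_mul]
    exact mul_le_one₀ (h i v) (norm_nonneg _) (h' i v)
  one_mem' := fun i v => by rw [map_one, norm_one]
  add_mem' := by
    intro ξ η h h' i v
    rw [map_add]
    exact (Padic.nonarchimedean _ _).trans (max_le (h i v) (h' i v))
  zero_mem' := fun i v => by rw [map_zero, norm_zero]; exact zero_le_one
  neg_mem' := by
    intro ξ h i v
    rw [map_neg, norm_neg]
    exact h i v

variable {d : ℕ} {N : ι → ℕ} {R Λ : ι → Type} [∀ i, CommRing (R i)] [∀ i, Ring (Λ i)]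
  [∀ i, Algebra (R i) (Λ i)] [∀ i, IsLocalization.Away (N i : ℤ) (R i)] (hN : ∀ i, N i ≠ 0)
  (hd : d ≠ 0) (h : ∀ i, IsAzumaya d (N i) (R i) (Λ i))

/-- the completion of the generic fibre -/
noncomputable def JJ : (∀ i, ℚ ⊗[ℤ] Λ i) →+* Matrix (Fin d) (Fin d) (Ad N) where
  toFun x := Matrix.of fun r s => ⟨fun i v => Jg (hN i) hd (h i) v (x i) r s, by
    choose n hn hx using fun i => exists_den_gen (hN i) hd (h i) (x i)
    exact ⟨n, hn, fun i v => hx i v r s⟩⟩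
  map_one' := mat_ext fun i v r s => by
    show Jg (hN i) hd (h i) v 1 r s = _
    rw [map_one]
    by_cases hrs : r = s
    · subst hrs
      rw [Matrix.one_apply_eq, Matrix.one_apply_eq, map_one]
    · rw [Matrix.one_apply_ne hrs, Matrix.one_apply_ne hrs, map_zero]
  map_mul' x y := mat_ext fun i v r s => by
    show Jg (hN i) hd (h i) v (x i * y i) r s = _
    rw [map_mul, Matrix.mul_apply, Matrix.mul_apply, map_sum]
    refine Finset.sum_congr rfl fun k _ => ?_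
    rw [map_mul]
    rfl
  map_zero' := mat_ext fun i v r s => by
    show Jg (hN i) hd (h i) v 0 r s = _
    rw [map_zero, Matrix.zero_apply, Matrix.zero_apply, map_zero]
  map_add' x y := mat_ext fun i v r s => by
    show Jg (hN i) hd (h i) v (x i + y i) r s = _
    rw [map_add, Matrix.add_apply, Matrix.add_apply, map_add]
    rfl

lemma ev_JJ (x : ∀ i, ℚ ⊗[ℤ] Λ i) (i : ι) (v : Pl1 (N i)) (r s : Fin d) :
    ev i v (JJ hN hd h x r s) = Jg (hN i) hd (h i) v (x i) r s := rfl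

/-- the inclusion in the generic fibre -/
noncomputable def ph (Λ : ι → Type) [∀ i, Ring (Λ i)] : (∀ i, Λ i) →+* ∀ i, ℚ ⊗[ℤ] Λ i :=
  RingHom.pi fun i => (Algebra.TensorProduct.includeRight : Λ i →ₐ[ℤ] ℚ ⊗[ℤ] Λ i).toRingHom.comp
    (Pi.evalRingHom Λ i)

lemma ph_apply (x : ∀ i, Λ i) (i : ι) : ph Λ x i = 1 ⊗ₜ x i := rfl

/-- the centre in the algebra -/
def cPh (R Λ : ι → Type) [∀ i, CommRing (R i)] [∀ i, Ring (Λ i)] [∀ i, Algebra (R i) (Λ i)] :
    (∀ i, R i) →+* ∀ i, Λ i :=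
  RingHom.pi fun i => (algebraMap (R i) (Λ i)).comp (Pi.evalRingHom R i)

/-- the centre in the completion -/
noncomputable def cAh (N : ι → ℕ) (R : ι → Type) [∀ i, CommRing (R i)]
    [∀ i, IsLocalization.Away (N i : ℤ) (R i)] : (∀ i, R i) →+* Ad N :=
  (RingHom.pi fun i => RingHom.pi fun v : Pl1 (N i) =>
    (inc v.q).comp ((A1.coef (N i) (R i) v.nd).comp (Pi.evalRingHom R i))).codRestrict (Ad N)
    fun r => mem_Ad_of_int fun i v => (A1.coef (N i) (R i) v.nd (r i)).2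

lemma ev_cA (r : ∀ i, R i) (i : ι) (v : Pl1 (N i)) :
    ev i v (cAh N R r) = ((A1.coef (N i) (R i) v.nd (r i) : ℤ_[v.q]) : ℚ_[v.q]) := rfl

lemma ev_cA_nat (n : ι → ℕ) (i : ι) (v : Pl1 (N i)) :
    ev i v (cAh N R fun i => (n i : R i)) = (n i : ℚ_[v.q]) := by
  rw [ev_cA, map_natCast]
  exact PadicInt.coe_natCast _

/-- the denominators -/
def Tm (R : ι → Type) [∀ i, CommRing (R i)] : Submonoid (∀ i, R i) where
  carrier := {t | ∃ n : ι → ℕ, (∀ i, n i ≠ 0) ∧ t = fun i => (n i : R i)}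
  mul_mem' := by
    rintro _ _ ⟨n, hn, rfl⟩ ⟨n', hn', rfl⟩
    refine ⟨fun i => n i * n' i, fun i => mul_ne_zero (hn i) (hn' i), ?_⟩
    funext i
    show (n i : R i) * (n' i : R i) = ((n i * n' i : ℕ) : R i)
    rw [Nat.cast_mul]
  one_mem' := ⟨fun _ => 1, fun _ => one_ne_zero, by funext i; simp⟩

/-- the localization data -/
noncomputable def locData : LocData (Fin d) (∀ i, Λ i) (∀ i, ℚ ⊗[ℤ] Λ i) (Ad N) (∀ i, R i) where
  φ := ph Λ
  φ_inj := by
    intro x y hxy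
    funext i
    have h1 := congrFun hxy i
    exact ((h i).generic (hN i) hd).2.2.2.1 h1
  j := JJ hN hd h
  cP := cPh R Λ
  cA := cAh N R
  cP_comm := by
    intro x y
    funext i
    show (1 : ℚ) ⊗ₜ[ℤ] (algebraMap (R i) (Λ i) (x i)) * y i =
      y i * (1 : ℚ) ⊗ₜ[ℤ] (algebraMap (R i) (Λ i) (x i))
    induction y i using TensorProduct.induction_on with
    | zero => rw [mul_zero, zero_mul]
    | tmul a b =>
      rw [Algebra.TensorProduct.tmul_mul_tmul, Algebra.TensorProduct.tmul_mul_tmul, one_mul, mul_one,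
        Algebra.commutes]
    | add a b ha hb => rw [mul_add, add_mul, ha, hb]
  j_c := by
    intro x
    refine mat_ext fun i v r s => ?_
    rw [ev_JJ]
    have h1 : ph Λ (cPh R Λ x) i = 1 ⊗ₜ algebraMap (R i) (Λ i) (x i) := rfl
    rw [h1, Jg_cen]
    by_cases hrs : r = s
    · subst hrs
      rw [Matrix.scalar_apply, Matrix.scalar_apply, Matrix.diagonal_apply_eq,
        Matrix.diagonal_apply_eq]
      rfl
    · rw [Matrix.scalar_apply, Matrix.scalar_apply, Matrix.diagonal_apply_ne _ hrs,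
        Matrix.diagonal_apply_ne _ hrs, map_zero]
  O := Oo N
  memO := by
    intro x
    constructor
    · intro hx
      have h1 : ∀ i, ∃ y : Λ i, x i = 1 ⊗ₜ y := fun i =>
        int_of_local (hN i) hd (h i) (x i) fun v r s => hx r s i v
      choose y hy using h1
      exact ⟨y, funext fun i => (hy i).symm⟩
    · rintro ⟨y, rfl⟩ r s i v
      rw [ev_JJ, ph_apply, Jg_tmul]
      exact (rho (hN i) hd (h i) v (y i) r s).2
  T := Tm R
  T_unit := by
    rintro _ ⟨n, hn, rfl⟩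
    rw [Pi.isUnit_iff]
    intro i
    have e : ph Λ (cPh R Λ fun i => (n i : R i)) i = ((n i : ℕ) : ℚ ⊗[ℤ] Λ i) := by
      show (1 : ℚ) ⊗ₜ[ℤ] (algebraMap (R i) (Λ i) (n i : R i)) = _
      rw [map_natCast]
      exact map_natCast (Algebra.TensorProduct.includeRight : Λ i →ₐ[ℤ] ℚ ⊗[ℤ] Λ i) (n i)
    rw [e]
    have h1 : IsUnit ((n i : ℕ) : ℚ) := by
      rw [isUnit_iff_ne_zero]
      exact_mod_cast hn i
    have h2 := h1.map (algebraMap ℚ (ℚ ⊗[ℤ] Λ i))
    rwa [map_natCast] at h2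
  den := by
    rintro ξ
    obtain ⟨n, hn, hξ⟩ := ξ.2
    refine ⟨_, ⟨n, hn, rfl⟩, fun i v => ?_⟩
    rw [map_mul, ev_cA_nat]
    exact hξ i v
  dense := by
    rintro M hM _ ⟨n, hn, rfl⟩
    have h1 : ∀ i, ∃ x : Λ i, ∀ v r s, (n i : ℤ_[v.q]) ∣
        mkz (ev i v (M r s)) (hM r s i v) - rho (hN i) hd (h i) v x r s := fun i =>
      dense_all (hN i) hd (h i) (n i) (hn i) fun v =>
        Matrix.of fun r s => mkz (ev i v (M r s)) (hM r s i v)
    choose x hx using h1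
    choose c hc using hx
    refine ⟨x, Matrix.of fun r s => ⟨fun i v => ((c i v r s : ℤ_[v.q]) : ℚ_[v.q]),
      mem_Ad_of_int fun i v => (c i v r s).2⟩, fun r s i v => (c i v r s).2, ?_⟩
    refine mat_ext fun i v r s => ?_
    rw [Matrix.add_apply, map_add, ev_JJ, ph_apply, Jg_tmul, Matrix.scalar_apply,
      Matrix.diagonal_mul, map_mul, ev_cA_nat]
    exact eq_of_dvd (hc i v r s)
  denseC := by
    rintro ξ hξ _ ⟨n, hn, rfl⟩
    have h1 : ∀ i, ∃ x : ℤ, ∀ v : Pl1 (N i), (n i : ℤ_[v.q]) ∣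
        mkz (ev i v ξ) (hξ i v) - x := fun i =>
      dense_int (N i) (n i) (hn i) fun v => mkz (ev i v ξ) (hξ i v)
    choose x hx using h1
    choose c hc using hx
    refine ⟨fun i => (x i : R i), ⟨fun i v => ((c i v : ℤ_[v.q]) : ℚ_[v.q]),
      mem_Ad_of_int fun i v => (c i v).2⟩, fun i v => (c i v).2, ?_⟩
    refine ad_ext fun i v => ?_
    rw [map_add, map_mul, ev_cA_nat, ev_cA, map_intCast]
    exact eq_of_dvd (hc i v)

end Fam

end A4

end BWG
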