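import Pool.Agent.BWG.Defs

/-!
# `SL_n = E_n` for commutative rings of stable range one
-/

set_option autoImplicit false

namespace BWG

open Matrix BW
open Pool.Agent.Helper24.BWR

section sr1

variable {n R : Type*} [DecidableEq n] [Fintype n] [CommRing R]

theorem det_el' (i j : n) (h : i ≠ j) (x : R) : (el i j h x).val.det = 1 :=
  Matrix.det_transvection_of_ne i j h x

theorem sr_det_of_mem_E {g : (Matrix n n R)ˣ} (hg : g ∈ E n R) : g.val.det = 1 := by
  induction hg using Subgroup.closure_induction with
  | mem g hg =>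
    obtain ⟨i, j, h, x, rfl⟩ := hg
    exact det_el' i j h x
  | one => rw [Units.val_one, Matrix.det_one]
  | mul g g' _ _ h h' => rw [Units.val_mul, Matrix.det_mul, h, h', one_mul]
  | inv g _ h =>
    have h1 : g.val.det * (g⁻¹).val.det = 1 := by
      rw [← Matrix.det_mul, ← Units.val_mul, mul_inv_cancel, Units.val_one, Matrix.det_one]
    rwa [h, one_mul] at h1

/-- a unimodular column is equivalent to a unit vector -/
theorem Rel.unimod1 (hR : ∀ a b : R, IsCoprime a b → ∃ t, IsUnit (a + t * b)) {J : Finset n}
    {q l : n} (hq : q ∈ J) (hl : l ∈ J) (hql : q ≠ l) {c u : n → R} (hc : ∀ k, k ∉ J → c k = 0)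
    (hu : ∑ k, u k * c k = 1) : Rel J c (Pi.single q 1) := by
  have hsum : u q * c q + 1 * ∑ k ∈ J.erase q, u k * c k = 1 := by
    rw [one_mul, Finset.add_sum_erase J (fun k => u k * c k) hq,
      Finset.sum_subset (Finset.subset_univ J) (fun k _ hk => by rw [hc k hk, mul_zero]), hu]
  obtain ⟨t, ht⟩ := hR (c q) (∑ k ∈ J.erase q, u k * c k) ⟨_, _, hsum⟩
  obtain ⟨w, hw⟩ := ht
  have s1 : Rel J c (Function.update c q w) := by
    have := Rel.comb hq (J.erase q) (Finset.erase_subset _ _) (Finset.notMem_erase _ _)
      (fun k => t * u k) c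
    have e : c q + ∑ k ∈ J.erase q, t * u k * c k = w := by
      rw [hw, Finset.mul_sum]
      simp only [mul_assoc]
    rwa [e] at this
  set c1 := Function.update c q (w : R) with hc1
  have e1q : c1 q = w := Function.update_self _ _ _
  have s2 : Rel J c1 (Function.update c1 l 1) := by
    have := Rel.el hql.symm hl hq (((w⁻¹ : Rˣ) : R) * (1 - c1 l) * 1) c1
    have e : c1 l + ((w⁻¹ : Rˣ) : R) * (1 - c1 l) * 1 * c1 q = 1 := by
      rw [e1q]
      linear_combination (1 - c1 l) * w.inv_mul
    rwa [e] at this
  set c2 := Function.update c1 l 1 with hc2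
  have e2l : c2 l = 1 := Function.update_self _ _ _
  have e2q : c2 q = w := by rw [hc2, Function.update_of_ne hql, e1q]
  have s3 : Rel J c2 (Function.update c2 q 1) := by
    have := Rel.el hql hq hl (1 - (w : R)) c2
    have e : c2 q + (1 - (w : R)) * c2 l = 1 := by
      rw [e2q, e2l]; ring
    rwa [e] at this
  set c3 := Function.update c2 q 1 with hc3
  have e3q : c3 q = 1 := Function.update_self _ _ _
  have s4 := Rel.clear (J := J) hq (J.erase q) subset_rfl (c := c3) e3q
  have e4 : (fun k => if k ∈ J.erase q then 0 else c3 k) = Pi.single q 1 := by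
    funext k
    by_cases hk : k = q
    · subst hk
      rw [Pi.single_eq_same, if_neg (fun h => (Finset.mem_erase.mp h).1 rfl), e3q]
    · rw [Pi.single_eq_of_ne hk]
      by_cases hkJ : k ∈ J
      · rw [if_pos (Finset.mem_erase.mpr ⟨hk, hkJ⟩)]
      · rw [if_neg (fun h => hkJ (Finset.mem_erase.mp h).2), hc3, Function.update_of_ne hk, hc2,
          Function.update_of_ne (fun h => hkJ (by rw [h]; exact hl)), hc1,
          Function.update_of_ne hk, hc k hkJ]
  rw [e4] at s4
  exact ((s1.trans s2).trans s3).trans s4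

/-- one step of the reduction -/
theorem step1 (hR : ∀ a b : R, IsCoprime a b → ∃ t, IsUnit (a + t * b)) {J : Finset n}
    {q l : n} (hq : q ∈ J) (hl : l ∈ J) (hql : q ≠ l) {X : (Matrix n n R)ˣ}
    (hX : Std J X.val) : ∃ e ∈ EJ R J, ∃ f ∈ EJ R J, Std (J.erase q) (e * X * f).val := by
  obtain ⟨e, he, h2⟩ := Rel.unimod1 hR hq hl hql (c := fun k => X.val k q)
    (u := fun k => (X⁻¹).val q k) (fun k hk => by
      rw [hX k q (Or.inl hk), Matrix.one_apply_ne (fun h => hk (by rw [h]; exact hq))]) (by
      have h3 : ((X⁻¹).val * X.val) q q = 1 := by rw [Units.inv_mul, Matrix.one_apply_eq]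
      rw [Matrix.mul_apply] at h3
      exact h3)
  have hY : ∀ k, (e * X).val k q = (1 : Matrix n n R) k q := by
    intro k
    have h3 := congrFun h2 k
    rw [Units.val_mul, Matrix.mul_apply]
    change _ = ∑ l, e.val k l * X.val l q at h3
    rw [← h3, Matrix.one_apply]
    by_cases hk : k = q
    · subst hk
      rw [Pi.single_eq_same, if_pos rfl]
    · rw [Pi.single_eq_of_ne hk, if_neg hk]
  obtain ⟨f, hf, h3⟩ := row_clear hq (J.erase q) subset_rfl hY
  refine ⟨e, he, f, hf, ?_⟩
  have hstd : Std J ((e * X).val * f.val) :=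
    ((Std.of_mem he).mul hX).mul (Std.of_mem hf)
  intro k j hkj
  rw [Units.val_mul]
  by_cases hk : k ∈ J
  · by_cases hj : j ∈ J
    · have hkj' : k = q ∨ j = q := by
        rcases hkj with h | h
        · exact Or.inl (by by_contra hne; exact h (Finset.mem_erase.mpr ⟨hne, hk⟩))
        · exact Or.inr (by by_contra hne; exact h (Finset.mem_erase.mpr ⟨hne, hj⟩))
      rw [h3]
      by_cases hjq : j = q
      · subst hjq
        rw [if_neg (fun h => (Finset.mem_erase.mp h.2).1 rfl), hY]
      · have hkq : k = q := hkj'.resolve_right hjq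
        subst hkq
        rw [if_pos ⟨rfl, Finset.mem_erase.mpr ⟨hjq, hj⟩⟩, Matrix.one_apply_ne (Ne.symm hjq)]
    · exact hstd k j (Or.inr hj)
  · exact hstd k j (Or.inl hk)

theorem mem_E_of_std (hR : ∀ a b : R, IsCoprime a b → ∃ t, IsUnit (a + t * b)) (J : Finset n)
    (X : (Matrix n n R)ˣ) (hX : Std J X.val) (hd : X.val.det = 1) : X ∈ E n R := by
  induction hc : J.card using Nat.strong_induction_on generalizing J X with
  | _ N ih =>
    by_cases h : ∃ q ∈ J, ∃ l ∈ J, q ≠ l
    · obtain ⟨q, hq, l, hl, hql⟩ := h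
      obtain ⟨e, he, f, hf, h4⟩ := step1 hR hq hl hql hX
      have he' := EJ_le J he
      have hf' := EJ_le J hf
      have h5 := ih (J.erase q).card (by rw [← hc]; exact Finset.card_erase_lt_of_mem hq)
        (J.erase q) (e * X * f) h4 (by
          rw [Units.val_mul, Units.val_mul, Matrix.det_mul, Matrix.det_mul, sr_det_of_mem_E he',
            sr_det_of_mem_E hf', hd, one_mul, one_mul]) rfl
      exact (Subgroup.mul_mem_cancel_left _ he').1 ((Subgroup.mul_mem_cancel_right _ hf').1 h5)
    · push Not at h
      have hdiag : X.val = Matrix.diagonal fun i => X.val i i := by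
        ext i j
        by_cases hij : i = j
        · subst hij
          rw [Matrix.diagonal_apply_eq]
        · rw [Matrix.diagonal_apply_ne _ hij]
          have h1 : i ∉ J ∨ j ∉ J := by
            by_contra hcon
            push Not at hcon
            exact hij (h i hcon.1 j hcon.2)
          rw [hX i j h1, Matrix.one_apply_ne hij]
      have h1 : X = 1 := by
        ext1
        rw [hdiag, Units.val_one, ← Matrix.diagonal_one]
        congr 1
        funext i
        by_cases hi : i ∈ J
        · rw [hdiag, Matrix.det_diagonal, Finset.prod_eq_single i] at hd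
          · exact hd
          · intro j _ hj
            have hjJ : j ∉ J := fun hj' => hj (h j hj' i hi)
            rw [hX j j (Or.inl hjJ), Matrix.one_apply_eq]
          · intro hi'
            exact absurd (Finset.mem_univ _) hi'
        · rw [hX i i (Or.inl hi), Matrix.one_apply_eq]
      rw [h1]
      exact one_mem _

/-- `SL_n = E_n` for commutative rings of stable range one -/
theorem mem_E_of_det_eq_one
    (hR : ∀ a b : R, IsCoprime a b → ∃ t, IsUnit (a + t * b)) (g : (Matrix n n R)ˣ)
    (hg : g.val.det = 1) : g ∈ E n R :=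
  mem_E_of_std hR Finset.univ g (fun i _ h => by
    rcases h with h | h <;> exact absurd (Finset.mem_univ _) h) hg

end sr1

/-- products of fields have stable range one -/
theorem sr1_pi {ι : Type*} {F : ι → Type*} [∀ i, Field (F i)] (a b : ∀ i, F i)
    (h : IsCoprime a b) : ∃ t, IsUnit (a + t * b) := by
  classical
  obtain ⟨u, v, h⟩ := h
  refine ⟨fun i => if a i = 0 then 1 else 0, ?_⟩
  rw [Pi.isUnit_iff]
  intro i
  rw [isUnit_iff_ne_zero]
  change a i + (if a i = 0 then 1 else 0) * b i ≠ 0
  have hi : u i * a i + v i * b i = 1 := congrFun h i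
  by_cases ha : a i = 0
  · rw [if_pos ha, ha, zero_add, one_mul]
    intro hb
    rw [ha, hb, mul_zero, mul_zero, add_zero] at hi
    exact zero_ne_one hi
  · rw [if_neg ha, zero_mul, add_zero]
    exact ha

end BWG
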