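import Mathlib

/-!
# Wang's theorem in prime degree

`D` a central division algebra of degree `ℓ` (an odd prime) over the rationals, `w` in `D` with
determinant one: `diag(w, ..., w)` is a commutator in `GL_h(D)` for some `h` dividing `(ℓ - 1)!`.
Tools: a field tensored with a central division algebra is simple; Skolem-Noether for subfields of
matrix rings over a central division algebra; Hilbert 90 for an automorphism of order `ℓ`.
-/

set_option autoImplicit false

namespace BWG
namespace Wang

open scoped TensorProduct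
open Polynomial

/-- a field tensored with a central division algebra is simple -/
theorem simple_tensor {F K D : Type*} [Field F] [Field K] [Algebra F K] [DivisionRing D] [Algebra F D]
    [Algebra.IsCentral F D] : IsSimpleRing (K ⊗[F] D) := by
  classical
  have : Nontrivial (K ⊗[F] D) := inferInstance
  rw [isSimpleRing_iff_isTwoSided_imp]
  refine ⟨inferInstance, fun I hI => ?_⟩
  by_cases hb : I = ⊥
  · exact Or.inl hb
  right
  let ℬ := Module.Basis.ofVectorSpace F K
  let φ := TensorProduct.equivFinsuppOfBasisLeft (N := D) ℬ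
  have hφl : ∀ (d : D) (x : K ⊗[F] D) i, φ ((1 ⊗ₜ d) * x) i = d * φ x i := by
    intro d x i
    induction x with
    | zero => simp
    | tmul a b => simp [φ, Algebra.TensorProduct.tmul_mul_tmul]
    | add x y hx hy => simp [mul_add, hx, hy]
  have hφr : ∀ (d : D) (x : K ⊗[F] D) i, φ (x * (1 ⊗ₜ d)) i = φ x i * d := by
    intro d x i
    induction x with
    | zero => simp
    | tmul a b => simp [φ, Algebra.TensorProduct.tmul_mul_tmul]
    | add x y hx hy => simp [add_mul, hx, hy]
  obtain ⟨x0, hx0, hx0'⟩ := (Submodule.ne_bot_iff I).1 hb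
  obtain ⟨x, ⟨hxI, hx0⟩, hmin⟩ := WellFounded.has_min
    (measure (fun x : K ⊗[F] D => (φ x).support.card)).wf {x | x ∈ I ∧ x ≠ 0} ⟨x0, hx0, hx0'⟩
  have hφx : φ x ≠ 0 := fun h => hx0 (φ.injective (by rw [h, map_zero]))
  obtain ⟨i0, hi0⟩ := Finsupp.support_nonempty_iff.2 hφx
  rw [Finsupp.mem_support_iff] at hi0
  -- normalise
  set y : K ⊗[F] D := (1 ⊗ₜ (φ x i0)⁻¹) * x with hy
  have hyI : y ∈ I := I.mul_mem_left _ hxI
  have hyi : ∀ i, φ y i = (φ x i0)⁻¹ * φ x i := hφl _ _
  have hcen : ∀ i, ∃ q : F, φ y i = algebraMap F D q := by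
    intro i
    have hc : φ y i ∈ Subalgebra.center F D := by
      rw [Subalgebra.mem_center_iff]
      intro d
      by_contra hne
      let z : K ⊗[F] D := (1 ⊗ₜ d) * y - y * (1 ⊗ₜ d)
      have hz : ∀ j, φ z j = d * φ y j - φ y j * d := by
        intro j
        simp only [z, map_sub, Finsupp.sub_apply, hφl, hφr]
      have hzI : z ∈ I := I.sub_mem (I.mul_mem_left _ hyI) (I.mul_mem_right _ hyI)
      have hz0 : z ≠ 0 := by
        intro h
        apply hne
        have := hz i
        rw [h, map_zero, Finsupp.zero_apply] at this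
        exact (sub_eq_zero.1 this.symm)
      apply hmin z ⟨hzI, hz0⟩
      show (φ z).support.card < (φ x).support.card
      apply Finset.card_lt_card
      refine ⟨?_, ?_⟩
      · intro j hj
        rw [Finsupp.mem_support_iff] at hj ⊢
        intro h
        apply hj
        rw [hz, hyi, h]
        simp
      · intro h
        have := h (Finsupp.mem_support_iff.2 hi0)
        rw [Finsupp.mem_support_iff] at this
        apply this
        rw [hz, hyi, inv_mul_cancel₀ hi0]
        simp
    obtain ⟨q, hq⟩ := Algebra.IsCentral.out (K := F) (D := D) hc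
    exact ⟨q, hq.symm⟩
  choose q hq using hcen
  -- y is in K
  have hyK : ∃ k : K, y = k ⊗ₜ 1 := by
    refine ⟨∑ i ∈ (φ y).support, q i • ℬ i, ?_⟩
    apply φ.injective
    ext j
    rw [TensorProduct.sum_tmul, map_sum, Finsupp.finsetSum_apply]
    simp only [map_smul, Finsupp.smul_apply, φ,
      TensorProduct.equivFinsuppOfBasisLeft_apply_tmul_apply, Module.Basis.repr_self]
    rw [Finset.sum_eq_single j]
    · rw [Finsupp.single_eq_same, smul_eq_mul, mul_one, Algebra.smul_def, mul_one]
      exact hq j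
    · intro b _ hb
      rw [Finsupp.single_eq_of_ne (by first | exact hb | exact hb.symm), smul_zero, zero_smul]
    · intro hj
      rw [Finsupp.notMem_support_iff] at hj
      rw [Finsupp.single_eq_same, smul_eq_mul, mul_one, Algebra.smul_def, mul_one, ← hq j]
      exact hj
  obtain ⟨k, hk⟩ := hyK
  have hy0 : y ≠ 0 := by
    intro h
    have := hyi i0
    rw [h, map_zero, inv_mul_cancel₀ hi0] at this
    simp at this
  have hk0 : k ≠ 0 := by
    rintro rfl
    apply hy0
    rw [hk, TensorProduct.zero_tmul]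
  rw [Ideal.eq_top_iff_one]
  have : (1 : K ⊗[F] D) = (k⁻¹ ⊗ₜ 1) * y := by
    rw [hk, Algebra.TensorProduct.tmul_mul_tmul, inv_mul_cancel₀ hk0, one_mul]
    rfl
  rw [this]
  exact I.mul_mem_left _ hyI

/-- two modules of the same dimension over a finite dimensional simple algebra are isomorphic -/
theorem iso_of_finrank {F A V V' : Type*} [Field F] [Ring A] [Algebra F A] [IsSimpleRing A]
    [Module.Finite F A] [AddCommGroup V] [Module F V] [Module A V] [IsScalarTower F A V]
    [AddCommGroup V'] [Module F V'] [Module A V'] [IsScalarTower F A V']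
    [Module.Finite F V] [Module.Finite F V'] (h : Module.finrank F V = Module.finrank F V') :
    Nonempty (V ≃ₗ[A] V') := by
  have : IsArtinianRing A := IsArtinianRing.of_finite F A
  have : Module.Finite A V := Module.Finite.of_restrictScalars_finite F A V
  have : Module.Finite A V' := Module.Finite.of_restrictScalars_finite F A V'
  rcases subsingleton_or_nontrivial V with hV | hV
  · have h0 : Module.finrank F V = 0 := Module.finrank_zero_of_subsingleton
    rw [h0] at h
    have hV' : Subsingleton V' := Module.finrank_zero_iff.1 h.symm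
    exact ⟨0⟩
  have hV' : Nontrivial V' := by
    apply Module.nontrivial_of_finrank_pos (R := F)
    rw [← h]
    exact Module.finrank_pos
  obtain ⟨n, hn, S, hS, ⟨e⟩⟩ := (IsSimpleRing.isIsotypic A V).linearEquiv_fun
  obtain ⟨n', hn', S', hS', ⟨e'⟩⟩ := (IsSimpleRing.isIsotypic A V').linearEquiv_fun
  -- S and S' are isomorphic
  have hSS : Nonempty (S ≃ₗ[A] S') := by
    have hi := IsSimpleRing.isIsotypic A (V × V')
    let f : S →ₗ[A] V × V' := (LinearMap.inl A V V').comp S.subtype
    let f' : S' →ₗ[A] V × V' := (LinearMap.inr A V V').comp S'.subtype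
    have hf : Function.Injective f :=
      LinearMap.inl_injective.comp S.injective_subtype
    have hf' : Function.Injective f' :=
      LinearMap.inr_injective.comp S'.injective_subtype
    let g := LinearEquiv.ofInjective f hf
    let g' := LinearEquiv.ofInjective f' hf'
    have h1 : IsSimpleModule A (LinearMap.range f) := IsSimpleModule.congr g.symm
    have h2 : IsSimpleModule A (LinearMap.range f') := IsSimpleModule.congr g'.symm
    obtain ⟨k⟩ := hi (LinearMap.range f') (LinearMap.range f)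
    exact ⟨g.trans (k.trans g'.symm)⟩
  obtain ⟨s⟩ := hSS
  have hSF : Module.Finite F S := Module.Finite.of_injective (S.subtype.restrictScalars F)
    S.injective_subtype
  have hSF' : Module.Finite F S' := Module.Finite.of_injective (S'.subtype.restrictScalars F)
    S'.injective_subtype
  have d1 : Module.finrank F V = n * Module.finrank F S := by
    rw [(e.restrictScalars F).finrank_eq, Module.finrank_pi_fintype]
    simp
  have d2 : Module.finrank F V' = n' * Module.finrank F S := by
    rw [(e'.restrictScalars F).finrank_eq, (s.restrictScalars F).finrank_eq,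
      Module.finrank_pi_fintype]
    simp
  have hpos : 0 < Module.finrank F S := by
    have : Nontrivial S := IsSimpleModule.nontrivial A S
    exact Module.finrank_pos
  have hnn : n = n' := by
    rw [d1, d2] at h
    exact Nat.eq_of_mul_eq_mul_right hpos h
  subst hnn
  exact ⟨e.trans ((LinearEquiv.piCongrRight fun _ => s).trans e'.symm)⟩

/-- the space of a representation -/
def Tw {F A V : Type*} [Field F] [Ring A] [Algebra F A] [AddCommGroup V] [Module F V]
    (_ : A →ₐ[F] Module.End F V) : Type _ := V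

section Tw

variable {F A V : Type*} [Field F] [Ring A] [Algebra F A] [AddCommGroup V] [Module F V]
    (f : A →ₐ[F] Module.End F V)

instance : AddCommGroup (Tw f) := inferInstanceAs (AddCommGroup V)
instance : Module F (Tw f) := inferInstanceAs (Module F V)
instance : Module A (Tw f) := Module.compHom V f.toRingHom
instance [h : Module.Finite F V] : Module.Finite F (Tw f) := h

theorem smul_tw (a : A) (v : Tw f) : a • v = (f a (v : V) : V) := rfl

instance : IsScalarTower F A (Tw f) := ⟨fun r a v => by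
  rw [smul_tw, smul_tw, map_smul]; rfl⟩

end Tw

/-- two representations of a finite dimensional simple algebra on a space are conjugate -/
theorem conj_of_simple {F A V : Type*} [Field F] [Ring A] [Algebra F A] [IsSimpleRing A]
    [Module.Finite F A] [AddCommGroup V] [Module F V] [Module.Finite F V]
    (f g : A →ₐ[F] Module.End F V) : ∃ e : V ≃ₗ[F] V, ∀ a v, e (f a v) = g a (e v) := by
  have h : Module.finrank F (Tw f) = Module.finrank F (Tw g) := rfl
  obtain ⟨e⟩ := iso_of_finrank (F := F) (A := A) (V := Tw f) (V' := Tw g) h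
  exact ⟨e.restrictScalars F, fun a v => e.map_smul a v⟩

section skolem

variable {F K D n : Type*} [Field F] [Field K] [Algebra F K] [DivisionRing D] [Algebra F D]
  [Fintype n] [DecidableEq n]

/-- matrices act on columns -/
def mv : Matrix n n D →ₐ[F] Module.End F (n → D) :=
  AlgHom.ofLinearMap
    { toFun := fun M =>
        { toFun := fun v => M.mulVec v
          map_add' := M.mulVec_add
          map_smul' := fun c v => M.mulVec_smul c v }
      map_add' := fun M N => LinearMap.ext fun v => M.add_mulVec N v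
      map_smul' := fun c M => LinearMap.ext fun v => Matrix.smul_mulVec c M v }
    (LinearMap.ext fun v => Matrix.one_mulVec v)
    (fun M N => LinearMap.ext fun v => (Matrix.mulVec_mulVec v M N).symm)

theorem mv_apply (M : Matrix n n D) (v : n → D) : mv (F := F) M v = M.mulVec v := rfl

/-- scalars act on columns from the right -/
def rm : Dᵐᵒᵖ →ₐ[F] Module.End F (n → D) := Algebra.lsmul F F (n → D)

omit [Fintype n] [DecidableEq n] in
theorem rm_apply (d : Dᵐᵒᵖ) (v : n → D) : rm (F := F) d v = d • v := rfl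

omit [DecidableEq n] in
theorem mulVec_op_smul (M : Matrix n n D) (d : Dᵐᵒᵖ) (v : n → D) : M.mulVec (d • v) = d • M.mulVec v := by
  ext i
  simp only [Matrix.mulVec, dotProduct, Pi.smul_apply, MulOpposite.smul_eq_mul_unop, Finset.sum_mul,
    mul_assoc]

/-- the bimodule structure of the columns -/
noncomputable def bim (f : K →ₐ[F] Matrix n n D) : K ⊗[F] Dᵐᵒᵖ →ₐ[F] Module.End F (n → D) :=
  Algebra.TensorProduct.lift (mv.comp f) rm fun x d => by
    exact LinearMap.ext fun v => mulVec_op_smul (f x) d v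

theorem bim_left (f : K →ₐ[F] Matrix n n D) (x : K) (v : n → D) :
    bim f (x ⊗ₜ 1) v = (f x).mulVec v := by
  simp [bim, mv_apply]

theorem bim_right (f : K →ₐ[F] Matrix n n D) (d : Dᵐᵒᵖ) (v : n → D) :
    bim f (1 ⊗ₜ d) v = d • v := by
  simp [bim, rm_apply]

theorem exists_matrix {D n : Type*} [Ring D] [Fintype n] [DecidableEq n] (e : (n → D) → (n → D)) (hadd : ∀ v w, e (v + w) = e v + e w)
    (hsm : ∀ (d : Dᵐᵒᵖ) v, e (d • v) = d • e v) : ∃ E : Matrix n n D, ∀ v, E.mulVec v = e v := by
  have h0 : e 0 = 0 := by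
    have := hadd 0 0
    rw [add_zero] at this
    exact left_eq_add.1 this
  let e' : (n → D) →+ (n → D) := { toFun := e, map_zero' := h0, map_add' := hadd }
  refine ⟨fun i j => e (Pi.single j 1) i, fun v => ?_⟩
  have hv : v = ∑ j, MulOpposite.op (v j) • (Pi.single j (1 : D) : n → D) := by
    ext i
    rw [Finset.sum_apply, Finset.sum_eq_single i]
    · simp
    · intro b _ hb
      simp [Pi.single_eq_of_ne hb.symm]
    · simp
  conv_rhs => rw [hv]
  show _ = e' _
  rw [map_sum]
  ext i
  rw [Finset.sum_apply]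
  show ∑ j, _ * _ = _
  refine Finset.sum_congr rfl fun j _ => ?_
  show _ = e _ i
  rw [hsm]
  rfl

/-- the theorem of Skolem and Noether for subfields of a matrix ring over a central division
algebra -/
theorem skolem [Module.Finite F K] [Module.Finite F D] [Algebra.IsCentral F D]
    (f g : K →ₐ[F] Matrix n n D) : ∃ e : (Matrix n n D)ˣ, ∀ x, e.val * f x = g x * e.val := by
  have : Module.Finite F Dᵐᵒᵖ := Module.Finite.equiv (MulOpposite.opLinearEquiv F)
  have : IsSimpleRing (K ⊗[F] Dᵐᵒᵖ) := simple_tensor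
  obtain ⟨e, he⟩ := conj_of_simple (bim f) (bim g)
  have hr : ∀ (d : Dᵐᵒᵖ) v, e (d • v) = d • e v := by
    intro d v
    have := he (1 ⊗ₜ d) v
    rwa [bim_right, bim_right] at this
  have hl : ∀ x v, e ((f x).mulVec v) = (g x).mulVec (e v) := by
    intro x v
    have := he (x ⊗ₜ 1) v
    rwa [bim_left, bim_left] at this
  have hr' : ∀ (d : Dᵐᵒᵖ) v, e.symm (d • v) = d • e.symm v := by
    intro d v
    apply e.injective
    rw [hr, e.apply_symm_apply, e.apply_symm_apply]
  obtain ⟨E, hE⟩ := exists_matrix e e.map_add hr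
  obtain ⟨E', hE'⟩ := exists_matrix e.symm e.symm.map_add hr'
  have ext' : ∀ M N : Matrix n n D, (∀ v, M.mulVec v = N.mulVec v) → M = N := by
    intro M N h
    ext i j
    have := congrFun (h (Pi.single j 1)) i
    simpa using this
  refine ⟨⟨E, E', ?_, ?_⟩, fun x => ?_⟩
  · apply ext'
    intro v
    rw [← Matrix.mulVec_mulVec, hE', hE, e.apply_symm_apply, Matrix.one_mulVec]
  · apply ext'
    intro v
    rw [← Matrix.mulVec_mulVec, hE, hE', e.symm_apply_apply, Matrix.one_mulVec]
  · apply ext'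
    intro v
    show (E * _).mulVec v = (_ * E).mulVec v
    rw [← Matrix.mulVec_mulVec, ← Matrix.mulVec_mulVec, hE, hE, hl]

end skolem

/-- Hilbert 90 for an automorphism of order `ℓ` -/
theorem hilbert {F K : Type*} [Field F] [Field K] [Algebra F K] (ℓ : ℕ) (hℓ : 0 < ℓ)
    (σ : K ≃ₐ[F] K) (hσ : orderOf σ = ℓ) (w : K)
    (hw : ∏ i ∈ Finset.range ℓ, (σ ^ i) w = 1) : ∃ c : K, c ≠ 0 ∧ w * σ c = c := by
  let χ : Fin ℓ → (K →* K) := fun i => ((σ ^ (i : ℕ) : K ≃ₐ[F] K) : K →* K)
  have hχ : Function.Injective χ := by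
    intro i j hij
    have h1 : σ ^ (i : ℕ) = σ ^ (j : ℕ) := by
      ext x
      exact DFunLike.congr_fun hij x
    have := (pow_inj_mod (x := σ) (n := (i : ℕ)) (m := (j : ℕ))).1 h1
    rw [hσ, Nat.mod_eq_of_lt i.2, Nat.mod_eq_of_lt j.2] at this
    exact Fin.ext this
  have hli := (linearIndependent_monoidHom K K).comp χ hχ
  rw [Fintype.linearIndependent_iff] at hli
  let a : ℕ → K := fun i => ∏ j ∈ Finset.range i, (σ ^ j) w
  have ha : ∀ i, w * σ (a i) = a (i + 1) := by
    intro i
    show w * σ (∏ j ∈ Finset.range i, (σ ^ j) w) = ∏ j ∈ Finset.range (i + 1), (σ ^ j) w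
    rw [Finset.prod_range_succ', map_prod, mul_comm]
    congr 1
    refine Finset.prod_congr rfl fun j _ => ?_
    rw [pow_succ' σ j]
    rfl
  have hne : ∃ θ : K, ∑ i ∈ Finset.range ℓ, a i * (σ ^ i) θ ≠ 0 := by
    by_contra hcon
    push Not at hcon
    have h0 := hli (fun i => a i) (by
      funext θ
      rw [Finset.sum_apply]
      have := hcon θ
      rw [← Fin.sum_univ_eq_sum_range (fun i => a i * (σ ^ i) θ)] at this
      exact this) ⟨0, hℓ⟩
    simp [a] at h0
  obtain ⟨θ, hθ⟩ := hne
  refine ⟨_, hθ, ?_⟩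
  rw [map_sum, Finset.mul_sum]
  have h1 : ∀ i ∈ Finset.range ℓ, w * σ (a i * (σ ^ i) θ) = a (i + 1) * (σ ^ (i + 1)) θ := by
    intro i _
    rw [map_mul, ← mul_assoc, ha, pow_succ' σ i]
    rfl
  rw [Finset.sum_congr rfl h1]
  have h2 := Finset.sum_range_succ' (fun i => a i * (σ ^ i) θ) ℓ
  have h3 := Finset.sum_range_succ (fun i => a i * (σ ^ i) θ) ℓ
  rw [h3] at h2
  have h4 : a ℓ * (σ ^ ℓ) θ = a 0 * (σ ^ 0) θ := by
    rw [← hσ, pow_orderOf_eq_one, pow_zero]
    congr 1
    show ∏ j ∈ Finset.range (orderOf σ), (σ ^ j) w = ∏ j ∈ Finset.range 0, (σ ^ j) w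
    rw [hσ, hw, Finset.range_zero, Finset.prod_empty]
  rw [h4] at h2
  exact (add_right_cancel h2).symm

/-- the Galois theory of an irreducible polynomial of prime degree with product of the roots one -/
theorem galois {ℓ : ℕ} (hℓ : ℓ.Prime) (p : ℚ[X]) (hp : Irreducible p) (hm : p.Monic)
    (hdeg : p.natDegree = ℓ) (hc : (-1) ^ ℓ * p.coeff 0 = 1) :
    (ℓ * ((ℓ - 1).factorial) % Module.finrank ℚ p.SplittingField = 0) ∧
    ∃ (σ : p.SplittingField ≃ₐ[ℚ] p.SplittingField) (w c : p.SplittingField), aeval w p = 0 ∧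
      c ≠ 0 ∧ w * c = σ c := by
  classical
  set K := p.SplittingField with hK
  have hsep : p.Separable := hp.separable
  have hcard : Nat.card p.Gal = Module.finrank ℚ K := Gal.card_of_separable hsep
  have hspl : (p.map (algebraMap ℚ K)).Splits := SplittingField.splits p
  have : Fact ((p.map (algebraMap ℚ K)).Splits) := ⟨hspl⟩
  have hrc : Fintype.card (p.rootSet K) = ℓ := by
    rw [card_rootSet_eq_natDegree hsep hspl, hdeg]
  constructor
  · have h1 : Nat.card p.Gal ∣ Nat.card (Equiv.Perm (p.rootSet K)) :=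
      Subgroup.card_dvd_of_injective _ (Gal.galActionHom_injective p K)
    rw [hcard, Nat.card_eq_fintype_card, Fintype.card_perm, hrc] at h1
    rw [Nat.mul_factorial_pred hℓ.ne_zero]
    exact Nat.mod_eq_zero_of_dvd h1
  have hdvd : ℓ ∣ Nat.card p.Gal := by
    have := Gal.prime_degree_dvd_card hp (hdeg ▸ hℓ)
    rwa [hdeg] at this
  have : Fact ℓ.Prime := ⟨hℓ⟩
  obtain ⟨σ, hσ⟩ : ∃ σ : K ≃ₐ[ℚ] K, orderOf σ = ℓ :=
    exists_prime_orderOf_dvd_card' (G := p.Gal) ℓ hdvd
  have hσ1 : σ ≠ 1 := by
    rintro rfl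
    rw [orderOf_one] at hσ
    exact hℓ.one_lt.ne hσ
  obtain ⟨w, hw, hwσ⟩ : ∃ w ∈ p.rootSet K, σ w ≠ w := by
    by_contra hcon
    push Not at hcon
    exact hσ1 (Gal.ext (p := p) (σ := σ) (τ := 1) hcon)
  have hroot : aeval w p = 0 := (mem_rootSet.1 hw).2
  -- the iterates are distinct
  have hfix : ∀ k, (σ ^ k) w = w → ℓ ∣ k := by
    intro k hk
    by_contra hnd
    have hcop : Nat.Coprime k ℓ := ((Nat.Prime.coprime_iff_not_dvd hℓ).2 hnd).symm
    let S : Subgroup (K ≃ₐ[ℚ] K) := MulAction.stabilizer (K ≃ₐ[ℚ] K) w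
    have h1 : σ ^ k ∈ S := hk
    have h2 : σ ^ ℓ ∈ S := by
      rw [← hσ, pow_orderOf_eq_one]; exact S.one_mem
    have h3 : σ ∈ S := by
      have hb := Nat.gcd_eq_gcd_ab k ℓ
      rw [hcop] at hb
      have : σ = (σ ^ k) ^ (Nat.gcdA k ℓ) * (σ ^ ℓ) ^ (Nat.gcdB k ℓ) := by
        rw [← zpow_natCast, ← zpow_natCast σ ℓ, ← zpow_mul, ← zpow_mul, ← zpow_add, ← hb]
        simp
      rw [this]
      exact S.mul_mem (S.zpow_mem h1 _) (S.zpow_mem h2 _)
    exact hwσ h3
  have hinj : Set.InjOn (fun i : ℕ => (σ ^ i) w) (Finset.range ℓ) := by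
    have key : ∀ i j, i ≤ j → j < ℓ → (σ ^ i) w = (σ ^ j) w → i = j := by
      intro i j hij hj h
      have h1 : (σ ^ (j - i)) w = w := by
        apply (σ ^ i).injective
        rw [h]
        show (σ ^ i * σ ^ (j - i)) w = _
        rw [← pow_add, Nat.add_sub_cancel' hij]
      have := Nat.eq_zero_of_dvd_of_lt (hfix _ h1) (by omega)
      omega
    intro i hi j hj h
    have hi' := Finset.mem_range.1 hi
    have hj' := Finset.mem_range.1 hj
    rcases le_total i j with hij | hij
    · exact key i j hij hj' h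
    · exact (key j i hij hi' h.symm).symm
  have himg : (Finset.range ℓ).image (fun i : ℕ => (σ ^ i) w) = (p.rootSet K).toFinset := by
    apply Finset.eq_of_subset_of_card_le
    · intro x hx
      obtain ⟨i, _, rfl⟩ := Finset.mem_image.1 hx
      rw [Set.mem_toFinset, mem_rootSet]
      refine ⟨hm.ne_zero, ?_⟩
      have : aeval ((σ ^ i) w) p = (σ ^ i) (aeval w p) := aeval_algHom_apply (σ ^ i).toAlgHom w p
      rw [this, hroot, map_zero]
    · rw [Set.toFinset_card, hrc, Finset.card_image_of_injOn hinj, Finset.card_range]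
  have hprod : ∏ i ∈ Finset.range ℓ, (σ ^ i) w = 1 := by
    have h1 : ∏ i ∈ Finset.range ℓ, (σ ^ i) w = ∏ x ∈ (p.rootSet K).toFinset, x := by
      rw [← himg, Finset.prod_image hinj]
    have h2 : (p.rootSet K).toFinset = (p.aroots K).toFinset := by
      ext x; simp [rootSet]
    have h3 : ∏ x ∈ (p.aroots K).toFinset, x = (p.aroots K).prod := by
      rw [Finset.prod_eq_multiset_prod, Multiset.toFinset_val, Multiset.map_id',
        Multiset.dedup_eq_self.2 (nodup_roots hsep.map)]
    have h4 := hspl.coeff_zero_eq_prod_roots_of_monic (hm.map _)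
    rw [natDegree_map, hdeg, coeff_map] at h4
    have h5 : (p.map (algebraMap ℚ K)).roots.prod = algebraMap ℚ K ((-1) ^ ℓ * p.coeff 0) := by
      rw [map_mul, h4, map_pow, map_neg, map_one, ← mul_assoc, ← mul_pow, neg_mul_neg, one_mul,
        one_pow, one_mul]
    rw [h1, h2, h3, aroots_def, h5, hc, map_one]
  obtain ⟨c, hc0, hcσ⟩ := hilbert ℓ hℓ.pos σ hσ w hprod
  refine ⟨σ, w, c⁻¹, hroot, inv_ne_zero hc0, ?_⟩
  have hσc : σ c ≠ 0 := by simpa using hc0
  rw [map_inv₀]
  exact eq_inv_of_mul_eq_one_left (by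
    rw [mul_assoc, mul_comm c⁻¹, ← mul_assoc, hcσ, mul_inv_cancel₀ hc0])

section final

/-- a subfield of a division algebra: dimensions and determinants -/
theorem subfield {D : Type} [DivisionRing D] [Algebra ℚ D] {L : Type*} [Field L] [Algebra ℚ L] [Module.Finite ℚ L] (j : L →ₐ[ℚ] D) (x : L) :
    ∃ k : ℕ, Module.finrank ℚ L * k = Module.finrank ℚ D ∧
      LinearMap.det (LinearMap.mulLeft ℚ (j x)) = (Algebra.norm ℚ x) ^ k := by
  let _ : Module L D := Module.compHom D j.toRingHom
  have hs : ∀ (y : L) (d : D), y • d = j y * d := fun _ _ => rfl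
  have : IsScalarTower ℚ L D := ⟨fun r a v => by
    rw [hs, hs, map_smul, smul_mul_assoc]⟩
  refine ⟨Module.finrank L D, Module.finrank_mul_finrank ℚ L D, ?_⟩
  have h1 : LinearMap.mulLeft ℚ (j x) = (x • (LinearMap.id : D →ₗ[L] D)).restrictScalars ℚ := by
    ext d
    rfl
  rw [h1, LinearMap.det_restrictScalars, LinearMap.det_smul, LinearMap.det_id, mul_one, map_pow]

end final

/-- the same for an abstract field -/
theorem galois' {ℓ : ℕ} (hℓ : ℓ.Prime) (p : ℚ[X]) (hp : Irreducible p) (hm : p.Monic)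
    (hdeg : p.natDegree = ℓ) (hc : (-1) ^ ℓ * p.coeff 0 = 1) :
    ∃ (K : Type) (_ : Field K) (_ : Algebra ℚ K) (_ : Module.Finite ℚ K),
      (ℓ * ((ℓ - 1).factorial) % Module.finrank ℚ K = 0) ∧
      ∃ (σ : K ≃ₐ[ℚ] K) (w c : K), eval₂ (algebraMap ℚ K) w p = 0 ∧ c ≠ 0 ∧ w * c = σ c :=
  ⟨p.SplittingField, inferInstance, inferInstance, inferInstance, galois hℓ p hp hm hdeg hc⟩

/-- **Wang's theorem** in prime degree, in matrix form -/
theorem wang' {ℓ : ℕ} (hℓ : ℓ.Prime) (hodd : Odd ℓ) (D : Type) [DivisionRing D] [Algebra ℚ D]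
    [Algebra.IsCentral ℚ D] (hdim : Module.finrank ℚ D = ℓ ^ 2) (w : D)
    (hdet : LinearMap.det (LinearMap.mulLeft ℚ w) = 1) :
    ∃ h : ℕ, h ∣ (ℓ - 1).factorial ∧ ∃ e c : (Matrix (Fin h) (Fin h) D)ˣ,
      (e * c * e⁻¹ * c⁻¹).val = Matrix.diagonal fun _ => w := by
  classical
  have hfin : Module.Finite ℚ D := Module.finite_of_finrank_pos (by
    rw [hdim]; exact pow_pos hℓ.pos 2)
  have hint : IsIntegral ℚ w := IsIntegral.of_finite ℚ w
  have hirr : Irreducible (minpoly ℚ w) := minpoly.irreducible hint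
  have hmon : (minpoly ℚ w).Monic := minpoly.monic hint
  obtain ⟨p, hp⟩ : ∃ p, p = minpoly ℚ w := ⟨_, rfl⟩
  rw [← hp] at hirr hmon
  have : Fact (Irreducible p) := ⟨hirr⟩
  have hp0 : p ≠ 0 := hirr.ne_zero
  let L := AdjoinRoot p
  let pb : PowerBasis ℚ L := AdjoinRoot.powerBasis hp0
  have hmp : minpoly ℚ pb.gen = p := AdjoinRoot.minpoly_powerBasis_gen_of_monic hmon
  have : Module.Finite ℚ L := pb.finite
  let j : L →ₐ[ℚ] D := pb.lift w (by rw [hmp, hp, minpoly.aeval])
  have hj : j pb.gen = w := pb.lift_gen _ _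
  have hdimL : Module.finrank ℚ L = p.natDegree := by
    rw [pb.finrank]; exact AdjoinRoot.powerBasis_dim hp0
  obtain ⟨k, hk, hk'⟩ := subfield j pb.gen
  rw [hj, hdet] at hk'
  rw [hdim, hdimL] at hk
  have hnorm : Algebra.norm ℚ pb.gen = (-1) ^ p.natDegree * p.coeff 0 := by
    rw [Algebra.PowerBasis.norm_gen_eq_coeff_zero_minpoly, hmp]
    congr 2
  have hdvd : p.natDegree ∣ ℓ ^ 2 := ⟨k, hk.symm⟩
  obtain ⟨m, hm2, hm⟩ := (Nat.dvd_prime_pow hℓ).1 hdvd
  have hl1 : 1 < ℓ ^ 2 := Nat.one_lt_pow (by norm_num) hℓ.one_lt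
  interval_cases m
  · -- `w` is rational
    have h1 : (minpoly ℚ w).natDegree = 1 := by rw [← hp, hm, pow_zero]
    obtain ⟨q, hq⟩ := minpoly.natDegree_eq_one_iff.1 h1
    have hq' : w = algebraMap ℚ D q := hq.symm
    obtain ⟨k', h2, h3⟩ := subfield (Algebra.ofId ℚ D) q
    rw [Module.finrank_self, one_mul, hdim] at h2
    rw [Algebra.norm_self, MonoidHom.id_apply, h2] at h3
    have h4 : (1 : ℚ) = q ^ ℓ ^ 2 := by
      rw [← h3, ← hdet, hq']
      rfl
    have hq1 : q = 1 := by
      have ho : Odd (ℓ ^ 2) := hodd.pow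
      exact ho.strictMono_pow.injective (by simpa using h4.symm)
    refine ⟨1, one_dvd _, 1, 1, ?_⟩
    rw [hq', hq1, map_one]
    simp
  · -- the main case
    rw [pow_one] at hm
    have hkℓ : k = ℓ := by
      rw [hm, pow_two] at hk
      exact Nat.eq_of_mul_eq_mul_left hℓ.pos hk
    rw [hnorm, hm, hkℓ] at hk'
    have hc : (-1) ^ ℓ * p.coeff 0 = 1 :=
      hodd.strictMono_pow.injective (by simpa using hk'.symm)
    obtain ⟨K, _, _, _, hfac, σ, w0, c, hw0, hc0, hwc⟩ := galois' hℓ p hirr hmon hm hc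
    let i : L →ₐ[ℚ] K := AdjoinRoot.liftAlgHom p (Algebra.ofId ℚ K) w0 hw0
    let _ : Algebra L K := i.toRingHom.toAlgebra
    have : IsScalarTower ℚ L K := IsScalarTower.of_algebraMap_eq' i.comp_algebraMap.symm
    have : Module.Finite L K := Module.Finite.of_restrictScalars_finite ℚ L K
    have hi : algebraMap L K pb.gen = w0 := AdjoinRoot.liftAlgHom_root _ _ _ _
    let h := Module.finrank L K
    have hh : ℓ * h = Module.finrank ℚ K := by
      rw [← Module.finrank_mul_finrank ℚ L K, hdimL, hm]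
    let b : Module.Basis (Fin h) L K := Module.finBasis L K
    let ι : K →ₐ[ℚ] Matrix (Fin h) (Fin h) D :=
      j.mapMatrix.comp ((Algebra.leftMulMatrix b).restrictScalars ℚ)
    have hι : ι w0 = Matrix.diagonal fun _ => w := by
      show ((Algebra.leftMulMatrix b) w0).map j = _
      rw [← hi, AlgHom.commutes, Matrix.algebraMap_eq_diagonal, Matrix.diagonal_map (map_zero j)]
      congr 1
      funext _
      exact hj
    obtain ⟨e, he⟩ := skolem ι (ι.comp (σ : K →ₐ[ℚ] K))
    let C : (Matrix (Fin h) (Fin h) D)ˣ := Units.map (ι : K →* Matrix (Fin h) (Fin h) D)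
      (Units.mk0 c hc0)
    refine ⟨h, ?_, e, C, ?_⟩
    · rw [← hh] at hfac
      exact Nat.dvd_of_mul_dvd_mul_left hℓ.pos (Nat.dvd_of_mod_eq_zero hfac)
    · have h1 : (e * C).val = (Matrix.diagonal fun _ => w) * (C * e).val := by
        rw [Units.val_mul, Units.val_mul]
        show e.val * ι c = _ * (ι c * e.val)
        rw [he c]
        show ι (σ c) * e.val = _
        rw [← hwc, map_mul, hι, Matrix.mul_assoc]
      have h2 : e * C * e⁻¹ * C⁻¹ = (e * C) * (C * e)⁻¹ := by group
      rw [h2, Units.val_mul, h1, Matrix.mul_assoc, Units.mul_inv, Matrix.mul_one]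
  · -- `D` would be commutative
    exfalso
    have hfe : Module.finrank ℚ L = Module.finrank ℚ D := by rw [hdimL, hm, hdim]
    have hinj : Function.Injective j := j.toRingHom.injective
    have hsurj : Function.Surjective j :=
      (LinearMap.injective_iff_surjective_of_finrank_eq_finrank (f := j.toLinearMap) hfe).1 hinj
    have hcomm : ∀ x y : D, x * y = y * x := by
      intro x y
      obtain ⟨a, rfl⟩ := hsurj x
      obtain ⟨b, rfl⟩ := hsurj y
      rw [← map_mul, mul_comm, map_mul]
    have htop : (⊥ : Subalgebra ℚ D) = ⊤ := by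
      rw [← Algebra.IsCentral.center_eq_bot ℚ D]
      rw [eq_top_iff]
      intro x _
      rw [Subalgebra.mem_center_iff]
      exact fun y => hcomm y x
    have := Subalgebra.bot_eq_top_iff_finrank_eq_one.1 htop
    rw [hdim] at this
    omega

end Wang

theorem wang {ℓ : ℕ} (hℓ : ℓ.Prime) (hodd : Odd ℓ) (D : Type) [DivisionRing D] [Algebra ℚ D]
    [Algebra.IsCentral ℚ D] (hdim : Module.finrank ℚ D = ℓ ^ 2) (w : D) (_ : w ≠ 0)
    (hdet : LinearMap.det (LinearMap.mulLeft ℚ w) = 1) :
    ∃ h : ℕ, h ∣ (ℓ - 1).factorial ∧ ∃ e c : (Matrix (Fin h) (Fin h) D)ˣ,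
      (e * c * e⁻¹ * c⁻¹).val = Matrix.diagonal fun _ => w :=
  Wang.wang' hℓ hodd D hdim w hdet

end BWG
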