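import Pool.Agent.BWG.K
import Pool.Agent.BWG.SR1
import Pool.Agent.BWG.Wang
import Pool.Agent.BW.Unif2

/-!
# Row W2: copies of a matrix of reduced norm one over a product of central simple algebras of
prime degree
-/

set_option autoImplicit false

namespace BWG

open Matrix BW
open Pool.Agent.Helper24.BWR (emb SR2')

namespace W2

/-! ### the stably elementary matrices as a normal subgroup -/

section SE

variable {n R : Type*} [DecidableEq n] [Fintype n] [Ring R]

variable (n R) in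
/-- the stably elementary matrices -/
def SEs : Subgroup (Matrix n n R)ˣ where
  carrier := {g | IsSE g}
  mul_mem' h h' := IsSE.mul h h'
  one_mem' := isSE_one
  inv_mem' h := IsSE.inv h

theorem mem_SEs {g : (Matrix n n R)ˣ} : g ∈ SEs n R ↔ IsSE g := Iff.rfl

instance SEs_normal : (SEs n R).Normal := ⟨fun _ hg g' => IsSE.conj hg g'⟩

theorem pow_isSE_of_eq {A u B v : (Matrix n n R)ˣ} (hu : IsSE u) (hv : IsSE v)
    (h : A = u * B * v) (k : ℕ) (hB : IsSE (B ^ k)) : IsSE (A ^ k) := by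
  rw [← mem_SEs, ← QuotientGroup.eq_one_iff] at hu hv hB ⊢
  rw [QuotientGroup.mk_pow] at hB ⊢
  rw [h, QuotientGroup.mk_mul, QuotientGroup.mk_mul, hu, hv, one_mul, mul_one]
  exact hB

end SE

/-! ### the determinant of left multiplication -/

section Rdet

variable {R Λ m : Type*} [CommRing R] [Ring Λ] [Algebra R Λ] [Fintype m] [DecidableEq m]

omit [DecidableEq m] in
theorem rdet_mul (X Y : Matrix m m Λ) : rdet R (X * Y) = rdet R X * rdet R Y := by
  rw [rdet, rdet, rdet, ← LinearMap.det_comp]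
  congr 1
  refine LinearMap.ext fun v => ?_
  exact (Matrix.mulVec_mulVec v X Y).symm

theorem rdet_one : rdet R (1 : Matrix m m Λ) = 1 := by
  rw [rdet]
  have : lmul R (1 : Matrix m m Λ) = LinearMap.id := LinearMap.ext fun v => Matrix.one_mulVec v
  rw [this, LinearMap.det_id]

theorem rdet_isUnit (X : (Matrix m m Λ)ˣ) : rdet R X.val * rdet R X⁻¹.val = 1 := by
  rw [← rdet_mul, ← Units.val_mul, mul_inv_cancel, Units.val_one, rdet_one]

end Rdet

section RdetQ

variable {Λ m : Type*} [Ring Λ] [Algebra ℚ Λ] [Fintype m] [DecidableEq m]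

theorem rdet_el (i j : m) (h : i ≠ j) (x : Λ) : rdet ℚ (el i j h x).val = 1 := by
  have half : ((1 / 2 : ℚ) • (1 : Λ)) + (1 / 2 : ℚ) • (1 : Λ) = 1 := by
    rw [← add_smul]; norm_num
  let t : (Matrix m m Λ)ˣ :=
    { val := 1 + Matrix.single i i 1
      inv := 1 - Matrix.single i i ((1 / 2 : ℚ) • (1 : Λ))
      val_inv := by
        have h1 : Matrix.single i i (1 : Λ) * Matrix.single i i ((1 / 2 : ℚ) • (1 : Λ)) =
            Matrix.single i i ((1 / 2 : ℚ) • (1 : Λ)) := by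
          rw [Matrix.single_mul_single_same, one_mul]
        have h2 : Matrix.single i i (1 : Λ) = Matrix.single i i ((1 / 2 : ℚ) • (1 : Λ)) +
            Matrix.single i i ((1 / 2 : ℚ) • (1 : Λ)) := by
          rw [← Matrix.single_add, half]
        have h3 : ∀ a b : Matrix m m Λ, (1 + a) * (1 - b) = 1 - b + a - a * b := fun a b => by
          noncomm_ring
        rw [h3, h1, h2]
        abel
      inv_val := by
        have h1 : Matrix.single i i ((1 / 2 : ℚ) • (1 : Λ)) * Matrix.single i i (1 : Λ) =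
            Matrix.single i i ((1 / 2 : ℚ) • (1 : Λ)) := by
          rw [Matrix.single_mul_single_same, mul_one]
        have h2 : Matrix.single i i (1 : Λ) = Matrix.single i i ((1 / 2 : ℚ) • (1 : Λ)) +
            Matrix.single i i ((1 / 2 : ℚ) • (1 : Λ)) := by
          rw [← Matrix.single_add, half]
        have h3 : ∀ a b : Matrix m m Λ, (1 - b) * (1 + a) = 1 - b + a - b * a := fun a b => by
          noncomm_ring
        rw [h3, h1, h2]
        abel }
  have h1 : t * el i j h x = el i j h (x + x) * t := by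
    ext1
    rw [Units.val_mul, Units.val_mul, el_val, el_val]
    show (1 + Matrix.single i i 1) * _ = _ * (1 + Matrix.single i i 1)
    have h3 : ∀ a b c : Matrix m m Λ, (1 + a) * (1 + b) - (1 + c) * (1 + a) =
        b + a * b - c - c * a := fun a b c => by noncomm_ring
    rw [← sub_eq_zero, h3, Matrix.single_mul_single_same, one_mul,
      Matrix.single_mul_single_of_ne _ _ _ _ h.symm, Matrix.single_add]
    abel
  have h2 : el i j h (x + x) = el i j h x * el i j h x := el_add i j h x x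
  have h3 := congrArg (fun g : (Matrix m m Λ)ˣ => rdet ℚ g.val) h1
  simp only [Units.val_mul, rdet_mul, h2] at h3
  have h4 := rdet_isUnit (R := ℚ) t
  have h5 := rdet_isUnit (R := ℚ) (el i j h x)
  have h6 : rdet ℚ t.val ≠ 0 := left_ne_zero_of_mul_eq_one h4
  have h7 : rdet ℚ (el i j h x).val ≠ 0 := left_ne_zero_of_mul_eq_one h5
  have h8 : rdet ℚ (el i j h x).val * (rdet ℚ t.val * rdet ℚ (el i j h x).val) =
      1 * (rdet ℚ t.val * rdet ℚ (el i j h x).val) := by
    linear_combination -h3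
  exact mul_right_cancel₀ (mul_ne_zero h6 h7) h8

theorem rdet_E {g : (Matrix m m Λ)ˣ} (hg : g ∈ E m Λ) : rdet ℚ g.val = 1 := by
  induction hg using Subgroup.closure_induction with
  | mem x hx =>
    obtain ⟨i, j, h, z, rfl⟩ := hx
    exact rdet_el i j h z
  | one => exact rdet_one
  | mul x y _ _ hx hy => rw [Units.val_mul, rdet_mul, hx, hy, one_mul]
  | inv x _ hx =>
    have := rdet_isUnit (R := ℚ) x
    rwa [hx, one_mul] at this

end RdetQ

/-! ### reduction of a `2 x 2` matrix over a product of division rings -/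

section Dg

variable {R : Type*} [Ring R]

/-- `diag(w, 1)` -/
def dg (w : Rˣ) : (Matrix (Fin 2) (Fin 2) R)ˣ where
  val := !![w.val, 0; 0, 1]
  inv := !![(w⁻¹).val, 0; 0, 1]
  val_inv := by
    ext i j; fin_cases i <;> fin_cases j <;> simp [Matrix.mul_apply, Fin.sum_univ_two]
  inv_val := by
    ext i j; fin_cases i <;> fin_cases j <;> simp [Matrix.mul_apply, Fin.sum_univ_two]

theorem dg_val (w : Rˣ) : (dg w).val = !![w.val, 0; 0, 1] := rfl

/-- a matrix with last row `(0, 1)` and last column `(0, 1)` is `diag(w, 1)` -/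
theorem eq_dg (X : (Matrix (Fin 2) (Fin 2) R)ˣ) (h01 : X.val 0 1 = 0) (h10 : X.val 1 0 = 0)
    (h11 : X.val 1 1 = 1) : ∃ w : Rˣ, X = dg w := by
  have h1 := congrFun (congrFun X.mul_inv 0) 0
  have h2 := congrFun (congrFun X.inv_mul 0) 0
  rw [Matrix.mul_apply, Fin.sum_univ_two, h01, zero_mul, add_zero, Matrix.one_apply_eq] at h1
  rw [Matrix.mul_apply, Fin.sum_univ_two, h10, mul_zero, add_zero, Matrix.one_apply_eq] at h2
  refine ⟨⟨X.val 0 0, X⁻¹.val 0 0, h1, h2⟩, Units.ext ?_⟩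
  rw [dg_val]
  ext i j
  fin_cases i <;> fin_cases j <;> simp [h01, h10, h11]

end Dg

section Red

variable {ι : Type*} {D : ι → Type*} [∀ i, Ring (D i)] [∀ i, Nontrivial (D i)]

theorem exists_dg (hD : ∀ i, ∀ x : D i, x ≠ 0 → IsUnit x)
    (A : (Matrix (Fin 2) (Fin 2) (∀ i, D i))ˣ) :
    ∃ (u v : (Matrix (Fin 2) (Fin 2) (∀ i, D i))ˣ) (w : (∀ i, D i)ˣ),
      u ∈ E (Fin 2) (∀ i, D i) ∧ v ∈ E (Fin 2) (∀ i, D i) ∧ A = u * dg w * v := by
  classical
  set x : ∀ i, D i := fun i => if A.val 0 1 i = 0 then 1 else 0 with hx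
  have h01 : (0 : Fin 2) ≠ 1 := by decide
  have h10 : (1 : Fin 2) ≠ 0 := by decide
  set X1 := el 0 1 h01 x * A with hX1
  have e1 : ∀ j, X1.val 0 j = A.val 0 j + x * A.val 1 j := by
    intro j
    rw [hX1, Units.val_mul, el_val, Matrix.add_mul, Matrix.one_mul, Matrix.add_apply,
      Matrix.single_mul_apply_same]
  have e2 : ∀ j, X1.val 1 j = A.val 1 j := by
    intro j
    rw [hX1, Units.val_mul, el_val, Matrix.add_mul, Matrix.one_mul, Matrix.add_apply,
      Matrix.single_mul_apply_of_ne _ _ _ _ _ h10, add_zero]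
  have hne : ∀ i, X1.val 0 1 i ≠ 0 := by
    intro i
    rw [e1]
    show A.val 0 1 i + x i * A.val 1 1 i ≠ 0
    by_cases h : A.val 0 1 i = 0
    · rw [hx]
      simp only [h, if_true, zero_add, one_mul]
      intro h'
      have h2 := congrFun (congrFun (congrFun A.inv_mul 1) 1) i
      rw [Matrix.mul_apply, Fin.sum_univ_two] at h2
      change A⁻¹.val 1 0 i * A.val 0 1 i + A⁻¹.val 1 1 i * A.val 1 1 i = _ at h2
      rw [h, h', mul_zero, mul_zero, add_zero] at h2
      exact zero_ne_one h2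
    · have h' : x i = 0 := if_neg h
      rw [h', zero_mul, add_zero]
      exact h
  choose c hc using fun i => (hD i _ (hne i)).exists_left_inv
  set y : ∀ i, D i := (1 - A.val 1 1) * c with hy
  set X2 := el 1 0 h10 y * X1 with hX2
  have f1 : ∀ j, X2.val 1 j = X1.val 1 j + y * X1.val 0 j := by
    intro j
    rw [hX2, Units.val_mul, el_val, Matrix.add_mul, Matrix.one_mul, Matrix.add_apply,
      Matrix.single_mul_apply_same]
  have f2 : ∀ j, X2.val 0 j = X1.val 0 j := by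
    intro j
    rw [hX2, Units.val_mul, el_val, Matrix.add_mul, Matrix.one_mul, Matrix.add_apply,
      Matrix.single_mul_apply_of_ne _ _ _ _ _ h01, add_zero]
  have f3 : X2.val 1 1 = 1 := by
    have hc' : c * X1.val 0 1 = 1 := funext hc
    rw [f1, e2, hy, mul_assoc, hc', mul_one]
    abel
  set X3 := el 0 1 h01 (-(X2.val 0 1)) * X2 with hX3
  have g1 : ∀ j, X3.val 0 j = X2.val 0 j + -(X2.val 0 1) * X2.val 1 j := by
    intro j
    rw [hX3, Units.val_mul, el_val, Matrix.add_mul, Matrix.one_mul, Matrix.add_apply,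
      Matrix.single_mul_apply_same]
  have g2 : ∀ j, X3.val 1 j = X2.val 1 j := by
    intro j
    rw [hX3, Units.val_mul, el_val, Matrix.add_mul, Matrix.one_mul, Matrix.add_apply,
      Matrix.single_mul_apply_of_ne _ _ _ _ _ h10, add_zero]
  have g3 : X3.val 0 1 = 0 := by rw [g1, f3, mul_one, add_neg_cancel]
  set X4 := X3 * el 1 0 h10 (-(X3.val 1 0)) with hX4
  have k1 : ∀ i, X4.val i 0 = X3.val i 0 + X3.val i 1 * -(X3.val 1 0) := by
    intro i
    rw [hX4, Units.val_mul, el_val, Matrix.mul_add, Matrix.mul_one, Matrix.add_apply,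
      Matrix.mul_single_apply_same]
  have k2 : ∀ i, X4.val i 1 = X3.val i 1 := by
    intro i
    rw [hX4, Units.val_mul, el_val, Matrix.mul_add, Matrix.mul_one, Matrix.add_apply,
      Matrix.mul_single_apply_of_ne _ _ _ _ _ h10, add_zero]
  obtain ⟨w, hw⟩ := eq_dg X4 (by rw [k2, g3]) (by rw [k1, g2 1, f3, one_mul, add_neg_cancel])
    (by rw [k2, g2, f3])
  refine ⟨(el 0 1 h01 x)⁻¹ * (el 1 0 h10 y)⁻¹ * (el 0 1 h01 (-(X2.val 0 1)))⁻¹,
    (el 1 0 h10 (-(X3.val 1 0)))⁻¹, w, ?_, ?_, ?_⟩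
  · exact mul_mem (mul_mem (inv_mem (el_mem _ _ _ _)) (inv_mem (el_mem _ _ _ _)))
      (inv_mem (el_mem _ _ _ _))
  · exact inv_mem (el_mem _ _ _ _)
  · rw [← hw, hX4, hX3, hX2, hX1]
    group

end Red

/-! ### division components -/

theorem rdet_dg {D : Type*} [Ring D] [Algebra ℚ D] [Module.Finite ℚ D] (w : Dˣ) :
    rdet ℚ (dg w).val = LinearMap.det (LinearMap.mulLeft ℚ (w : D)) := by
  have h := LinearMap.det_pi (R := ℚ) (M := D)
    (fun i : Fin 2 => if i = 0 then LinearMap.mulLeft ℚ (w : D) else LinearMap.id)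
  rw [Fin.prod_univ_two, if_pos rfl, if_neg (by decide), LinearMap.det_id, mul_one] at h
  rw [← h, rdet]
  congr 1
  refine LinearMap.ext fun v => funext fun i => ?_
  show ((dg w).val *ᵥ v) i = _
  rw [Matrix.mulVec, dotProduct, Fin.sum_univ_two, dg_val]
  fin_cases i <;> simp

theorem comp_dg {ι : Type*} {D : ι → Type*} [∀ i, Ring (D i)] (w : (∀ i, D i)ˣ) (i : ι) :
    comp (Λ := D) i (dg w) = dg (MulEquiv.piUnits w i) := by
  ext1
  ext a b
  rw [comp_val, dg_val, dg_val]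
  fin_cases a <;> fin_cases b <;> rfl

theorem comp_mem_E {ι n : Type*} [DecidableEq n] [Fintype n] {D : ι → Type*} [∀ i, Ring (D i)]
    {g : (Matrix n n (∀ i, D i))ˣ} (hg : g ∈ E n (∀ i, D i)) (i : ι) : comp i g ∈ E n (D i) := by
  induction hg using Subgroup.closure_induction with
  | mem x hx =>
    obtain ⟨a, b, h, z, rfl⟩ := hx
    have : comp (Λ := D) i (el a b h z) = el a b h (z i) := by
      ext1
      ext p q
      rw [comp_val, el_val, el_val, Matrix.add_apply, Matrix.add_apply, Pi.add_apply,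
        Matrix.one_apply, Matrix.one_apply, Matrix.single_apply, Matrix.single_apply]
      split_ifs <;> rfl
    rw [this]
    exact el_mem _ _ _ _
  | one => rw [map_one]; exact one_mem _
  | mul x y _ _ hx hy => rw [map_mul]; exact mul_mem hx hy
  | inv x _ hx => rw [map_inv]; exact inv_mem hx

theorem wang_aux {ℓ : ℕ} (hℓ : ℓ.Prime) (hodd : Odd ℓ) (D : Type) [i1 : Ring D] [Algebra ℚ D]
    [Algebra.IsCentral ℚ D] (hdim : Module.finrank ℚ D = ℓ ^ 2) (w : D) (hw : w ≠ 0)
    (hdet : LinearMap.det (LinearMap.mulLeft ℚ w) = 1) (i2 : DivisionRing D)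
    (hi : i2.toRing = i1) :
    ∃ h : ℕ, h ∣ (ℓ - 1).factorial ∧ ∃ e c : (Matrix (Fin h) (Fin h) D)ˣ,
      (e * c * e⁻¹ * c⁻¹).val = Matrix.diagonal fun _ => w := by
  subst hi
  exact wang hℓ hodd D hdim w hw hdet

theorem wang' {ℓ : ℕ} (hℓ : ℓ.Prime) (hodd : Odd ℓ) (D : Type) [Ring D] [Nontrivial D]
    [Algebra ℚ D] [Algebra.IsCentral ℚ D] (hD : ∀ x : D, x ≠ 0 → IsUnit x)
    (hdim : Module.finrank ℚ D = ℓ ^ 2) (w : D) (hw : w ≠ 0)
    (hdet : LinearMap.det (LinearMap.mulLeft ℚ w) = 1) :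
    ∃ h : ℕ, h ∣ (ℓ - 1).factorial ∧ ∃ e c : (Matrix (Fin h) (Fin h) D)ˣ,
      (e * c * e⁻¹ * c⁻¹).val = Matrix.diagonal fun _ => w :=
  wang_aux hℓ hodd D hdim w hw hdet (DivisionRing.ofIsUnitOrEqZero fun x => by
    by_cases h : x = 0
    · exact Or.inr h
    · exact Or.inl (hD x h)) rfl

/-- a scalar matrix of size `H` is a commutator as soon as the one of size `h ∣ H` is -/
theorem comm_of_dvd {R : Type*} [Ring R] {n : Type*} [DecidableEq n] [Fintype n] {h H : ℕ}
    (hH : h ∣ H) (hn : Fintype.card n = H) (w : R) (e c : (Matrix (Fin h) (Fin h) R)ˣ)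
    (hec : (e * c * e⁻¹ * c⁻¹).val = Matrix.diagonal fun _ => w) :
    ∃ e' c' : (Matrix n n R)ˣ, (e' * c' * e'⁻¹ * c'⁻¹).val = Matrix.diagonal fun _ => w := by
  obtain ⟨k, rfl⟩ := hH
  have f : Fin h × Fin k ≃ n := Fintype.equivOfCardEq (by simp [hn])
  let F : (Matrix (Fin h) (Fin h) R)ˣ →* (Matrix n n R)ˣ :=
    (Units.map (Matrix.reindexRingEquiv R f).toRingHom.toMonoidHom).comp (copies (Fin k))
  refine ⟨F e, F c, ?_⟩
  rw [← map_inv, ← map_inv, ← map_mul, ← map_mul, ← map_mul]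
  show Matrix.reindex f f (Matrix.blockDiagonal fun _ => (e * c * e⁻¹ * c⁻¹).val) = _
  rw [hec]
  ext i j
  rw [Matrix.reindex_apply, Matrix.submatrix_apply, Matrix.blockDiagonal_apply,
    Matrix.diagonal_apply, Matrix.diagonal_apply]
  by_cases hij : i = j
  · subst hij
    simp
  · have : f.symm i ≠ f.symm j := fun h => hij (f.symm.injective h)
    rw [if_neg hij]
    by_cases h2 : (f.symm i).2 = (f.symm j).2
    · rw [if_pos h2, if_neg (fun h1 => this (Prod.ext h1 h2))]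
    · rw [if_neg h2]

/-- the matrix `(w)` of size one -/
def d1 {R : Type*} [Ring R] (w : Rˣ) : (Matrix (Fin 1) (Fin 1) R)ˣ where
  val := Matrix.diagonal fun _ => w.val
  inv := Matrix.diagonal fun _ => w⁻¹.val
  val_inv := by
    rw [Matrix.diagonal_mul_diagonal]
    simp
  inv_val := by
    rw [Matrix.diagonal_mul_diagonal]
    simp

theorem d1_val {R : Type*} [Ring R] (w : Rˣ) : (d1 w).val = Matrix.diagonal fun _ => w.val := rfl

theorem emb_d1 {R : Type*} [Ring R] (w : Rˣ) :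
    Units.map (emb (Fin.castAddEmb 1 : Fin 1 ↪ Fin 2)) (d1 w) = dg w := by
  ext1
  rw [dg_val]
  show emb _ (d1 w).val = _
  have h1 : (d1 w).val - 1 = Matrix.single 0 0 (w.val - 1) := by
    rw [d1_val]
    ext i j
    rw [Subsingleton.elim i 0, Subsingleton.elim j 0]
    simp
  have h2 : (Fin.castAddEmb 1 : Fin 1 ↪ Fin 2) 0 = 0 := rfl
  rw [Pool.Agent.Helper24.BWR.emb_apply, h1, Pool.Agent.Helper24.BWR.pm_mul_single_mul_qm, h2]
  ext i j
  fin_cases i <;> fin_cases j <;> simp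

/-- over a product of division rings -/
theorem division_part {ℓ : ℕ} (hℓ : ℓ.Prime) (hodd : Odd ℓ) {ι : Type} (D : ι → Type)
    [∀ i, Ring (D i)] [∀ i, Algebra ℚ (D i)] [∀ i, Nontrivial (D i)]
    [∀ i, Algebra.IsCentral ℚ (D i)] (hdim : ∀ i, Module.finrank ℚ (D i) = ℓ ^ 2)
    (hD : ∀ i, ∀ x : D i, x ≠ 0 → IsUnit x)
    (A : (Matrix (Fin 2) (Fin 2) (∀ i, D i))ˣ) (hA : ∀ i, rdet ℚ (comp i A).val = 1) :
    IsSE (A ^ (ℓ - 1).factorial) := by
  classical
  obtain ⟨u, v, w, hu, hv, hAw⟩ := exists_dg hD A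
  refine pow_isSE_of_eq (isSE_of_mem hu) (isSE_of_mem hv) hAw _ ?_
  have hfin : ∀ i, Module.Finite ℚ (D i) := fun i =>
    Module.finite_of_finrank_pos (by rw [hdim]; exact pow_pos hℓ.pos 2)
  have hw : ∀ i, LinearMap.det (LinearMap.mulLeft ℚ (MulEquiv.piUnits w i : D i)) = 1 := by
    intro i
    have h1 := hA i
    rw [hAw, map_mul, map_mul, Units.val_mul, Units.val_mul, rdet_mul, rdet_mul,
      rdet_E (comp_mem_E hu i), rdet_E (comp_mem_E hv i), one_mul, mul_one, comp_dg, rdet_dg] at h1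
    exact h1
  have hcom : ∀ i, ∃ e c : (Matrix (Fin 1 × Fin (ℓ - 1).factorial)
      (Fin 1 × Fin (ℓ - 1).factorial) (D i))ˣ,
      (e * c * e⁻¹ * c⁻¹).val = Matrix.diagonal fun _ => (MulEquiv.piUnits w i : D i) := by
    intro i
    obtain ⟨h, hh, e, c, hec⟩ := wang' hℓ hodd (D i) (hD i) (hdim i)
      (MulEquiv.piUnits w i : D i) (Units.ne_zero _) (hw i)
    exact comm_of_dvd hh (by simp) _ e c hec
  choose e c hec using hcom
  have hfam : copies (Fin (ℓ - 1).factorial) (d1 w) =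
      famU e * famU c * (famU e)⁻¹ * (famU c)⁻¹ := by
    ext1
    ext a b i
    have h1 : (famU e * famU c * (famU e)⁻¹ * (famU c)⁻¹).val a b i =
        (e i * c i * (e i)⁻¹ * (c i)⁻¹).val a b := by
      rw [← comp_val, map_mul, map_mul, map_mul, map_inv, map_inv, comp_famU, comp_famU]
    rw [h1, hec]
    show (Matrix.blockDiagonal fun _ => (d1 w).val) a b i = _
    rw [Matrix.blockDiagonal_apply, Matrix.diagonal_apply, d1_val]
    by_cases h2 : a.2 = b.2
    · rw [if_pos h2, if_pos (Prod.ext (Subsingleton.elim _ _) h2),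
        Subsingleton.elim a.1 b.1, Matrix.diagonal_apply_eq]
      rfl
    · rw [if_neg h2, if_neg (fun h => h2 (congrArg Prod.snd h))]
      rfl
  have h3 : IsSE (d1 w ^ (ℓ - 1).factorial) := by
    rw [← isSE_copies, hfam]
    exact isSE_comm _ _
  have h4 : dg w = Units.map (emb (Fin.castAddEmb 1 : Fin 1 ↪ Fin 2)) (d1 w) := by
    exact (emb_d1 w).symm
  rw [h4, ← map_pow, isSE_emb]
  exact h3

/-! ### the dichotomy -/

theorem dichotomy {ℓ : ℕ} (hℓ : ℓ.Prime) (D : Type) [Ring D] [Algebra ℚ D] [IsSimpleRing D]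
    (hdim : Module.finrank ℚ D = ℓ ^ 2) :
    (∀ x : D, x ≠ 0 → IsUnit x) ∨ Nonempty (D ≃ₐ[ℚ] Matrix (Fin ℓ) (Fin ℓ) ℚ) := by
  have hfin : Module.Finite ℚ D := Module.finite_of_finrank_pos (by
    rw [hdim]; exact pow_pos hℓ.pos 2)
  have hart : IsArtinianRing D := IsArtinianRing.of_finite ℚ D
  obtain ⟨n, hn, E, _, _, _, ⟨e⟩⟩ := IsSimpleRing.exists_algEquiv_matrix_divisionRing_finite ℚ D
  have h1 : n * n * Module.finrank ℚ E = ℓ ^ 2 := by
    rw [← hdim, e.toLinearEquiv.finrank_eq, Module.finrank_matrix, Fintype.card_fin]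
  have h2 : n ∣ ℓ := by
    rw [← Nat.pow_dvd_pow_iff (n := 2) (by norm_num)]
    exact ⟨_, by rw [← h1, pow_two]⟩
  rcases (Nat.dvd_prime hℓ).1 h2 with rfl | rfl
  · left
    intro x hx
    have h3 : e x = Matrix.diagonal fun _ => e x 0 0 := by
      ext i j
      rw [Subsingleton.elim i 0, Subsingleton.elim j 0, Matrix.diagonal_apply_eq]
    have h4 : e x 0 0 ≠ 0 := fun h => hx (by
      rw [h, Matrix.diagonal_zero] at h3
      rwa [map_eq_zero_iff e e.injective] at h3)
    refine (MulEquiv.isUnit_map e.toMulEquiv).1 ?_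
    show IsUnit (e x)
    rw [h3]
    refine ⟨⟨Matrix.diagonal fun _ => e x 0 0, Matrix.diagonal fun _ => (e x 0 0)⁻¹, ?_, ?_⟩, rfl⟩
    · rw [Matrix.diagonal_mul_diagonal, mul_inv_cancel₀ h4, Matrix.diagonal_one]
    · rw [Matrix.diagonal_mul_diagonal, inv_mul_cancel₀ h4, Matrix.diagonal_one]
  · right
    have h3 : Module.finrank ℚ E = 1 := by
      have h4 : n * n * Module.finrank ℚ E = n * n * 1 := by rw [h1]; ring
      exact Nat.eq_of_mul_eq_mul_left (Nat.mul_pos hℓ.pos hℓ.pos) h4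
    have h4 := Algebra.finrank_eq_one_iff_bijective_algebraMap.1 h3
    exact ⟨e.trans (AlgEquiv.ofBijective (Algebra.ofId ℚ E) h4).symm.mapMatrix⟩

/-! ### split components -/

section Split

variable {ι : Type} {ℓ : ℕ} (D : ι → Type) [∀ i, Ring (D i)] [∀ i, Algebra ℚ (D i)]
  (φ : ∀ i, D i ≃ₐ[ℚ] Matrix (Fin ℓ) (Fin ℓ) ℚ)

/-- the product of the split components is a matrix ring -/
def rho : (∀ i, D i) ≃+* Matrix (Fin ℓ) (Fin ℓ) (ι → ℚ) where
  toFun f := Matrix.of fun r s i => φ i (f i) r s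
  invFun M := fun i => (φ i).symm (Matrix.of fun r s => M r s i)
  left_inv f := by
    funext i
    exact (φ i).symm_apply_apply (f i)
  right_inv M := by
    ext r s i
    exact congrFun (congrFun ((φ i).apply_symm_apply (Matrix.of fun r s => M r s i)) r) s
  map_mul' f g := by
    ext r s i
    have h := congrFun (congrFun (map_mul (φ i) (f i) (g i)) r) s
    rw [Matrix.mul_apply] at h
    rw [Matrix.mul_apply, Finset.sum_apply]
    exact h
  map_add' f g := by
    ext r s i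
    exact congrFun (congrFun (map_add (φ i) (f i) (g i)) r) s

/-- matrices over the product of the split components -/
noncomputable def Psi (m : Type*) [Fintype m] [DecidableEq m] : Matrix m m (∀ i, D i) ≃+*
    Matrix (m × Fin ℓ) (m × Fin ℓ) (ι → ℚ) :=
  (rho D φ).mapMatrix.trans (Matrix.compRingEquiv m (Fin ℓ) (ι → ℚ))

theorem Psi_apply {m : Type*} [Fintype m] [DecidableEq m] (X : Matrix m m (∀ i, D i))
    (a b : m × Fin ℓ) (i : ι) : Psi D φ m X a b i = φ i (X a.1 b.1 i) a.2 b.2 := rfl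

end Split

section SplitDet

variable {ℓ : ℕ} {D : Type} [Ring D] [Algebra ℚ D] (φ : D ≃ₐ[ℚ] Matrix (Fin ℓ) (Fin ℓ) ℚ)
  {m : Type*} [Fintype m] [DecidableEq m]

/-- the columns of a vector over a split algebra -/
def cols : (m → D) ≃ₗ[ℚ] (Fin ℓ → (m × Fin ℓ → ℚ)) where
  toFun v := fun s p => φ (v p.1) p.2 s
  invFun w := fun b => φ.symm (Matrix.of fun r s => w s (b, r))
  left_inv v := by
    funext b
    exact φ.symm_apply_apply (v b)
  right_inv w := by
    funext s p
    exact congrFun (congrFun (φ.apply_symm_apply (Matrix.of fun r s => w s (p.1, r))) p.2) s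
  map_add' v w := by
    funext s p
    exact congrFun (congrFun (map_add φ (v p.1) (w p.1)) p.2) s
  map_smul' c v := by
    funext s p
    exact congrFun (congrFun (map_smul φ c (v p.1)) p.2) s

/-- the rational matrix of a matrix over a split algebra -/
def big (B : Matrix m m D) : Matrix (m × Fin ℓ) (m × Fin ℓ) ℚ :=
  Matrix.of fun a b => φ (B a.1 b.1) a.2 b.2

omit [DecidableEq m] in
theorem cols_mulVec (B : Matrix m m D) (v : m → D) (s : Fin ℓ) :
    cols φ (B *ᵥ v) s = big φ B *ᵥ (cols φ v s) := by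
  funext p
  show φ (∑ b, B p.1 b * v b) p.2 s = ∑ q : m × Fin ℓ, φ (B p.1 q.1) p.2 q.2 * φ (v q.1) q.2 s
  rw [map_sum, Matrix.sum_apply, Fintype.sum_prod_type]
  refine Finset.sum_congr rfl fun b _ => ?_
  rw [map_mul, Matrix.mul_apply]

theorem rdet_eq (B : Matrix m m D) : rdet ℚ B = (big φ B).det ^ ℓ := by
  have h := LinearMap.det_pi (R := ℚ) (M := m × Fin ℓ → ℚ)
    (fun _ : Fin ℓ => Matrix.toLin' (big φ B))
  rw [Finset.prod_const, LinearMap.det_toLin', Finset.card_univ, Fintype.card_fin] at h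
  rw [← h, rdet, ← LinearMap.det_conj (lmul ℚ B) (cols φ)]
  congr 1
  refine LinearMap.ext fun w => funext fun s => ?_
  show cols φ (B *ᵥ ((cols φ).symm w)) s = Matrix.toLin' (big φ B) (w s)
  rw [cols_mulVec, LinearEquiv.apply_symm_apply, Matrix.toLin'_apply]

end SplitDet

section Split2

variable {ι : Type} {ℓ : ℕ} (D : ι → Type) [∀ i, Ring (D i)] [∀ i, Algebra ℚ (D i)]
  (φ : ∀ i, D i ≃ₐ[ℚ] Matrix (Fin ℓ) (Fin ℓ) ℚ)

theorem det_Psi {m : Type*} [Fintype m] [DecidableEq m] (X : Matrix m m (∀ i, D i)) (i : ι) :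
    (Psi D φ m X).det i = (big (φ i) (X.map fun f => f i)).det := by
  have h := RingHom.map_det (Pi.evalRingHom (fun _ : ι => ℚ) i) (Psi D φ m X)
  exact h

/-- a rational with odd power one is one -/
theorem eq_one_of_odd_pow {ℓ : ℕ} (hodd : Odd ℓ) (q : ℚ) (h : q ^ ℓ = 1) : q = 1 := by
  have h1 : q ^ ℓ = 1 ^ ℓ := by rw [h, one_pow]
  exact hodd.pow_injective h1

end Split2

theorem el_comm_formula {n R : Type*} [DecidableEq n] [Fintype n] [Ring R] {i j k : n}
    (hij : i ≠ j) (hjk : j ≠ k) (hik : i ≠ k) (x y : R) :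
    el i k hik (x * y) = el i j hij x * el j k hjk y * (el i j hij x)⁻¹ * (el j k hjk y)⁻¹ := by
  rw [eq_mul_inv_iff_mul_eq, eq_mul_inv_iff_mul_eq]
  ext1
  simp only [Units.val_mul, el_val]
  have h : ∀ a b c : Matrix n n R, (1 + c) * (1 + b) * (1 + a) =
      1 + a + b + c + (c * b + c * a + b * a) + c * b * a := fun a b c => by noncomm_ring
  have h' : ∀ a b : Matrix n n R, (1 + a) * (1 + b) = 1 + a + b + a * b := fun a b => by
    noncomm_ring
  rw [h, h', Matrix.single_mul_single_of_ne _ _ _ _ hjk.symm,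
    Matrix.single_mul_single_of_ne _ _ _ _ hik.symm,
    Matrix.single_mul_single_of_ne _ _ _ _ hik.symm, Matrix.single_mul_single_same, Matrix.zero_mul]
  abel

section Split3

variable {ι : Type} {ℓ : ℕ} (D : ι → Type) [∀ i, Ring (D i)] [∀ i, Algebra ℚ (D i)]
  (φ : ∀ i, D i ≃ₐ[ℚ] Matrix (Fin ℓ) (Fin ℓ) ℚ)

/-- `Psi` on units -/
noncomputable def PsiU (m : Type*) [Fintype m] [DecidableEq m] : (Matrix m m (∀ i, D i))ˣ ≃*
    (Matrix (m × Fin ℓ) (m × Fin ℓ) (ι → ℚ))ˣ :=
  Units.mapEquiv (Psi D φ m).toMulEquiv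

theorem PsiU_val {m : Type*} [Fintype m] [DecidableEq m] (X : (Matrix m m (∀ i, D i))ˣ) :
    (PsiU D φ m X).val = Psi D φ m X.val := rfl

theorem PsiU_el {m : Type*} [Fintype m] [DecidableEq m] {a b : m} (h : a ≠ b) (r s : Fin ℓ)
    (z : ι → ℚ) :
    PsiU D φ m (el a b h ((rho D φ).symm (Matrix.single r s z))) =
      el (a, r) (b, s) (fun h' => h (congrArg Prod.fst h')) z := by
  ext1
  rw [PsiU_val, el_val, el_val, map_add, map_one]
  congr 1
  show Matrix.comp m m (Fin ℓ) (Fin ℓ) _ ((Matrix.single a b _).map (rho D φ)) = _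
  rw [Matrix.map_single _ _ _ (rho D φ), RingEquiv.apply_symm_apply, Matrix.comp_single_single]

theorem PsiU_symm_mem {g : (Matrix (Fin 2 × Fin ℓ) (Fin 2 × Fin ℓ) (ι → ℚ))ˣ}
    (hg : g ∈ E (Fin 2 × Fin ℓ) (ι → ℚ)) : (PsiU D φ (Fin 2)).symm g ∈ E (Fin 2) (∀ i, D i) := by
  have key : ∀ (a b : Fin 2) (r s : Fin ℓ) (h : a ≠ b) (h' : (a, r) ≠ (b, s)) (z : ι → ℚ),
      (PsiU D φ (Fin 2)).symm (el (a, r) (b, s) h' z) ∈ E (Fin 2) (∀ i, D i) := by
    intro a b r s h h' z
    rw [← PsiU_el D φ h r s z, MulEquiv.symm_apply_apply]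
    exact el_mem _ _ _ _
  induction hg using Subgroup.closure_induction with
  | mem x hx =>
    obtain ⟨⟨a, r⟩, ⟨b, s⟩, h, z, rfl⟩ := hx
    by_cases hab : a = b
    · subst hab
      obtain ⟨c, hc⟩ : ∃ c : Fin 2, a ≠ c := ⟨a + 1, by fin_cases a <;> decide⟩
      have h1 : (a, r) ≠ (c, r) := fun h' => hc (congrArg Prod.fst h')
      have h2 : (c, r) ≠ (a, s) := fun h' => hc (congrArg Prod.fst h').symm
      have h3 := el_comm_formula h1 h2 h z 1
      rw [mul_one] at h3
      rw [h3, map_mul, map_mul, map_mul, map_inv, map_inv]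
      exact mul_mem (mul_mem (mul_mem (key _ _ _ _ hc _ _) (key _ _ _ _ hc.symm _ _))
        (inv_mem (key _ _ _ _ hc _ _))) (inv_mem (key _ _ _ _ hc.symm _ _))
    · exact key a b r s hab h z
  | one => rw [map_one]; exact one_mem _
  | mul x y _ _ hx hy => rw [map_mul]; exact mul_mem hx hy
  | inv x _ hx => rw [map_inv]; exact inv_mem hx

include φ in
/-- over a product of split algebras a matrix of reduced norm one is elementary -/
theorem split_part (hodd : Odd ℓ) (A : (Matrix (Fin 2) (Fin 2) (∀ i, D i))ˣ)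
    (hA : ∀ i, rdet ℚ (comp i A).val = 1) : A ∈ E (Fin 2) (∀ i, D i) := by
  rw [← (PsiU D φ (Fin 2)).symm_apply_apply A]
  refine PsiU_symm_mem D φ (mem_E_of_det_eq_one ?_ _ ?_)
  · intro a b hab
    refine ⟨fun i => if a i = 0 then 1 else 0, ?_⟩
    obtain ⟨u, v, huv⟩ := hab
    rw [Pi.isUnit_iff]
    intro i
    have h1 := congrFun huv i
    change u i * a i + v i * b i = 1 at h1
    show IsUnit (a i + (if a i = 0 then 1 else 0) * b i)
    rw [isUnit_iff_ne_zero]
    by_cases h : a i = 0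
    · rw [if_pos h, h, zero_add, one_mul]
      intro h2
      rw [h, h2, mul_zero, mul_zero, add_zero] at h1
      exact zero_ne_one h1
    · rwa [if_neg h, zero_mul, add_zero]
  · funext i
    rw [PsiU_val, det_Psi]
    have h1 := hA i
    rw [rdet_eq (φ i)] at h1
    exact eq_one_of_odd_pow hodd _ h1

end Split3

/-- the components indexed by a subset -/
theorem comp_sub {ι : Type} {Λ : ι → Type} [∀ i, Ring (Λ i)] (s : Set ι)
    (g : (Matrix (Fin 2) (Fin 2) (∀ i, Λ i))ˣ) (i : s) :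
    comp (Λ := fun i : s => Λ i.1) i (Units.map (RingHom.mapMatrix (m := Fin 2)
      (RingHom.pi fun i : s => Pi.evalRingHom Λ i.1)).toMonoidHom g) = comp i.1 g := by
  ext1
  rfl

end W2

open W2 in
theorem copies_isSE {ℓ : ℕ} (hℓ : ℓ.Prime) (hodd : Odd ℓ) {ι : Type} (D : ι → Type)
    [∀ i, Ring (D i)] [∀ i, Algebra ℚ (D i)] [∀ i, IsSimpleRing (D i)]
    [∀ i, Algebra.IsCentral ℚ (D i)] (hdim : ∀ i, Module.finrank ℚ (D i) = ℓ ^ 2)
    (A : (Matrix (Fin 2) (Fin 2) (∀ i, D i))ˣ) (hA : ∀ i, rdet ℚ (comp i A).val = 1) :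
    IsSE (copies (Fin (ℓ - 1).factorial) A) := by
  rw [isSE_copies]
  have hdi := fun i => dichotomy hℓ (D i) (hdim i)
  refine isSE_pi_split {i | ∀ x : D i, x ≠ 0 → IsUnit x} _ ?_ ?_
  · rw [map_pow]
    refine division_part hℓ hodd (fun i : ({i | ∀ x : D i, x ≠ 0 → IsUnit x} : Set ι) => D i.1)
      (fun i => hdim i.1) (fun i => i.2) _ (fun i => ?_)
    rw [comp_sub]
    exact hA i.1
  · rw [map_pow]
    have hφ : ∀ i : (({i | ∀ x : D i, x ≠ 0 → IsUnit x} : Set ι)ᶜ : Set ι),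
        Nonempty (D i.1 ≃ₐ[ℚ] Matrix (Fin ℓ) (Fin ℓ) ℚ) := fun i =>
      (hdi i.1).resolve_left i.2
    refine isSE_of_mem (pow_mem (split_part _ (fun i => (hφ i).some) hodd _ fun i => ?_) _)
    rw [comp_sub]
    exact hA i.1

end BWG
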