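import Pool.Agent.BWG.APMain
import Pool.Agent.BWG.W2
import Pool.Agent.BWG.A3

/-!
# Azumaya algebras of prime degree with zero divisors are matrix algebras (row AP2a)
-/

set_option autoImplicit false

namespace BWG

open Matrix BW
open scoped TensorProduct

/-! ### the reduction of a homomorphism to a matrix algebra -/

section iso

variable {ℓ N : ℕ} {R Λ : Type} [CommRing R] [Ring Λ] [Algebra R Λ] [IsLocalization.Away (N : ℤ) R]

/-- modulo a prime a homomorphism to a matrix algebra of positive size is injective -/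
theorem AP.mod_inj (h : IsAzumaya ℓ N R Λ) {r : ℕ} (hr : 0 < r) (hℓ : 0 < ℓ)
    (F : Λ →+* Matrix (Fin r) (Fin r) R) {p : ℕ} (hp : p.Prime) (hpN : ¬ p ∣ N) :
    ∃ (ρ : Λ →+* Matrix (Fin ℓ) (Fin ℓ) (ZMod p))
      (G : Matrix (Fin ℓ) (Fin ℓ) (ZMod p) →+* Matrix (Fin r) (Fin r) (ZMod p)),
      Function.Surjective ρ ∧ (∀ x, ρ x = 0 → ∃ y, x = (p : Λ) * y) ∧ Function.Injective G ∧
      ∀ x, G (ρ x) = (F x).map (Loc.phi N R hp hpN) := by
  have := Fact.mk hp
  obtain ⟨ρ, hρ, hker⟩ := h.fibre p hp hpN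
  have hr' : Nonempty (Fin r) := ⟨⟨0, hr⟩⟩
  have hℓ' : Nonempty (Fin ℓ) := ⟨⟨0, hℓ⟩⟩
  let G₀ : Λ →+* Matrix (Fin r) (Fin r) (ZMod p) := (Loc.phi N R hp hpN).mapMatrix.comp F
  have hle : RingHom.ker ρ ≤ RingHom.ker G₀ := by
    intro x hx
    obtain ⟨y, rfl⟩ := hker x hx
    rw [RingHom.mem_ker, map_mul, map_natCast, AP.natCast_mat, zero_mul]
  let G : Matrix (Fin ℓ) (Fin ℓ) (ZMod p) →+* Matrix (Fin r) (Fin r) (ZMod p) :=
    RingHom.liftOfSurjective ρ hρ ⟨G₀, hle⟩
  have hG : ∀ x, G (ρ x) = G₀ x := fun x =>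
    RingHom.liftOfRightInverse_comp_apply ρ (Function.surjInv hρ)
      (Function.rightInverse_surjInv hρ) ⟨G₀, hle⟩ x
  exact ⟨ρ, G, hρ, hker, RingHom.injective G, hG⟩

/-- homomorphisms are linear over `ℤ[1/N]` -/
theorem AP.hom_smul {r : ℕ} (F : Λ →+* Matrix (Fin r) (Fin r) R) (N : ℕ)
    [IsLocalization.Away (N : ℤ) R] (c : R) (x : Λ) : F (c • x) = c • F x := by
  have h : F.comp (algebraMap R Λ) = algebraMap R (Matrix (Fin r) (Fin r) R) :=
    IsLocalization.ringHom_ext (Submonoid.powers (N : ℤ)) (RingHom.ext_int _ _)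
  have h1 : F (algebraMap R Λ c) = algebraMap R (Matrix (Fin r) (Fin r) R) c :=
    RingHom.congr_fun h c
  rw [Algebra.smul_def, map_mul, h1, ← Algebra.smul_def]

/-- a homomorphism to the matrix algebra of the same degree is an isomorphism -/
theorem AP.exists_equiv (hN : N ≠ 0) (h : IsAzumaya ℓ N R Λ) (hℓ : 0 < ℓ)
    (F : Λ →+* Matrix (Fin ℓ) (Fin ℓ) R) : Nonempty (Λ ≃+* Matrix (Fin ℓ) (Fin ℓ) R) := by
  classical
  obtain ⟨b⟩ := h.exists_basis hN
  let FL : Λ →ₗ[R] Matrix (Fin ℓ) (Fin ℓ) R :=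
    { toFun := F
      map_add' := map_add F
      map_smul' := AP.hom_smul F N }
  have hcard : Fintype.card (Fin ℓ × Fin ℓ) = ℓ ^ 2 := by
    rw [Fintype.card_prod, Fintype.card_fin, pow_two]
  let c : Module.Basis (Fin (ℓ ^ 2)) R (Matrix (Fin ℓ) (Fin ℓ) R) :=
    (Matrix.stdBasis R (Fin ℓ) (Fin ℓ)).reindex (Fintype.equivFinOfCardEq hcard)
  have key : ∀ p : ℕ, p.Prime → ¬ p ∣ N → ¬ (p : R) ∣ (LinearMap.toMatrix b c FL).det := by
    intro p hp hpN hdvd
    have := Fact.mk hp
    obtain ⟨ρ, G, hρ, hker, hG, hGF⟩ := AP.mod_inj h hℓ hℓ F hp hpN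
    rw [← Loc.phi_eq_zero_iff hp hpN, RingHom.map_det] at hdvd
    obtain ⟨v, hv0, hv⟩ := Matrix.exists_mulVec_eq_zero_iff.mpr hdvd
    choose w hw using fun i => Loc.phi_surjective (R := R) hp hpN (v i)
    apply hv0
    have h1 : (F (∑ i, w i • b i)).map (Loc.phi N R hp hpN) = 0 := by
      have h2 : ∀ k, Loc.phi N R hp hpN (c.repr (F (∑ i, w i • b i)) k) = 0 := by
        intro k
        have h3 := congrFun hv k
        rw [Matrix.mulVec, dotProduct] at h3
        have h4 : F (∑ i, w i • b i) = ∑ i, w i • FL (b i) := by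
          rw [map_sum]
          exact Finset.sum_congr rfl fun i _ => AP.hom_smul F N _ _
        rw [h4, map_sum, Finsupp.finsetSum_apply, map_sum]
        refine Eq.trans (Finset.sum_congr rfl fun i _ => ?_) h3
        rw [RingHom.mapMatrix_apply, Matrix.map_apply, LinearMap.toMatrix_apply, ← hw i,
          map_smul, Finsupp.smul_apply, smul_eq_mul, map_mul, mul_comm]
      ext r s
      rw [Matrix.map_apply, Matrix.zero_apply]
      have h5 := h2 (Fintype.equivFinOfCardEq hcard (r, s))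
      rw [Module.Basis.repr_reindex_apply, Equiv.symm_apply_apply] at h5
      exact h5
    rw [← hGF, map_eq_zero_iff G hG, rho_sum hp hpN ρ b] at h1
    have h6 := (eb hp hpN ρ b hρ (by simp)).linearIndependent
    rw [Fintype.linearIndependent_iff] at h6
    funext i
    refine h6 v ?_ i
    rw [← h1]
    refine Finset.sum_congr rfl fun j _ => ?_
    rw [eb_apply, ← hw j]
    congr 2
    simp [Finsupp.single_apply, Finsupp.finsetSum_apply]
  have hunit : IsUnit (LinearMap.toMatrix b c FL).det := by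
    rw [Loc.isUnit_iff hN]
    refine ⟨fun h0 => ?_, key⟩
    obtain ⟨q, hq, hqN⟩ := exists_prime hN
    exact key q hq hqN (by rw [h0]; exact dvd_zero _)
  have hcoe := LinearEquiv.coe_ofIsUnitDet hunit
  have hbij : Function.Bijective F := by
    have h1 := (LinearEquiv.ofIsUnitDet hunit).bijective
    have h2 : ⇑(LinearEquiv.ofIsUnitDet hunit) = F := by
      funext x
      exact LinearMap.congr_fun hcoe x
    rwa [h2] at h1
  exact ⟨RingEquiv.ofBijective F hbij⟩

end iso

/-! ### the lattice -/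

section lattice

variable {ℓ N : ℕ} {R Λ : Type} [CommRing R] [Ring Λ] [Algebra R Λ] [IsLocalization.Away (N : ℤ) R]

/-- a rational matrix representation of dimension `ℓ` gives a homomorphism to `M_ℓ(ℤ[1/N])` -/
theorem AP.exists_hom (hN : N ≠ 0) (h : IsAzumaya ℓ N R Λ) (hℓ : 0 < ℓ) [Algebra R ℚ]
    (hq : Function.Injective (algebraMap R ℚ)) (g : Λ →+* Matrix (Fin ℓ) (Fin ℓ) ℚ)
    (hg : ∀ (r : R) (x : Λ), g (r • x) = algebraMap R ℚ r • g x) :
    Nonempty (Λ →+* Matrix (Fin ℓ) (Fin ℓ) R) := by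
  classical
  have hD := Loc.isDomain N R hN
  have hP := Loc.isPrincipalIdealRing N R
  obtain ⟨b⟩ := h.exists_basis hN
  have hfin : Module.Finite R Λ := Module.Finite.of_basis b
  have hsm : ∀ (r : R) (v : Fin ℓ → ℚ), r • v = algebraMap R ℚ r • v := fun r v =>
    (algebraMap_smul ℚ r v).symm
  let e0 : Fin ℓ → ℚ := Pi.single ⟨0, hℓ⟩ 1
  let L : Λ →ₗ[R] (Fin ℓ → ℚ) :=
    { toFun := fun x => g x *ᵥ e0
      map_add' := fun x y => by rw [map_add, Matrix.add_mulVec]
      map_smul' := fun r x => by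
        rw [hg, Matrix.smul_mulVec, RingHom.id_apply, hsm] }
  have hL : ∀ x, L x = g x *ᵥ e0 := fun _ => rfl
  have hfM : Module.Finite R (LinearMap.range L) := inferInstance
  have htf : Module.IsTorsionFree R (LinearMap.range L) := by
    refine Module.IsTorsionFree.of_smul_eq_zero fun r m hrm => ?_
    have h1 : algebraMap R ℚ r • (m : Fin ℓ → ℚ) = 0 := by
      rw [← hsm]
      exact congrArg Subtype.val hrm
    rcases smul_eq_zero.mp h1 with h2 | h2
    · exact Or.inl ((map_eq_zero_iff _ hq).mp h2)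
    · exact Or.inr (Subtype.ext h2)
  have hfree : Module.Free R (LinearMap.range L) := inferInstance
  -- the action
  have hmem : ∀ (x : Λ) (m : Fin ℓ → ℚ), m ∈ LinearMap.range L → g x *ᵥ m ∈ LinearMap.range L := by
    rintro x _ ⟨y, rfl⟩
    exact ⟨x * y, by rw [hL, hL, map_mul, Matrix.mulVec_mulVec]⟩
  let act : Λ →+* (LinearMap.range L →ₗ[R] LinearMap.range L) :=
    { toFun := fun x =>
        { toFun := fun m => ⟨g x *ᵥ m.1, hmem x m.1 m.2⟩
          map_add' := fun m m' => Subtype.ext (by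
            change g x *ᵥ (m.1 + m'.1) = g x *ᵥ m.1 + g x *ᵥ m'.1
            rw [Matrix.mulVec_add])
          map_smul' := fun r m => Subtype.ext (by
            change g x *ᵥ (r • m.1) = r • (g x *ᵥ m.1)
            rw [hsm, hsm, Matrix.mulVec_smul]) }
      map_one' := LinearMap.ext fun m => Subtype.ext (by
        change g 1 *ᵥ m.1 = m.1
        rw [map_one, Matrix.one_mulVec])
      map_mul' := fun x y => LinearMap.ext fun m => Subtype.ext (by
        change g (x * y) *ᵥ m.1 = g x *ᵥ (g y *ᵥ m.1)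
        rw [map_mul, Matrix.mulVec_mulVec])
      map_zero' := LinearMap.ext fun m => Subtype.ext (by
        change g 0 *ᵥ m.1 = 0
        rw [map_zero, Matrix.zero_mulVec])
      map_add' := fun x y => LinearMap.ext fun m => Subtype.ext (by
        change g (x + y) *ᵥ m.1 = g x *ᵥ m.1 + g y *ᵥ m.1
        rw [map_add, Matrix.add_mulVec]) }
  let b' := Module.finBasis R (LinearMap.range L)
  let F : Λ →+* Matrix (Fin (Module.finrank R (LinearMap.range L)))
      (Fin (Module.finrank R (LinearMap.range L))) R :=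
    (LinearMap.toMatrixAlgEquiv b').toAlgHom.toRingHom.comp act
  -- the rank
  have hpos : 0 < Module.finrank R (LinearMap.range L) := by
    have hne : Nontrivial (LinearMap.range L) := by
      refine ⟨⟨L 1, 1, rfl⟩, 0, fun h0 => ?_⟩
      have h1 : g 1 *ᵥ e0 = 0 := congrArg Subtype.val h0
      rw [map_one, Matrix.one_mulVec] at h1
      have h2 := congrFun h1 ⟨0, hℓ⟩
      simp [e0] at h2
    exact Module.finrank_pos
  have hle1 : Module.finrank R (LinearMap.range L) ≤ ℓ := by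
    have h1 : LinearIndependent R (fun i => ((b' i : LinearMap.range L) : Fin ℓ → ℚ)) := by
      have := b'.linearIndependent.map' (LinearMap.range L).subtype
        (by rw [LinearMap.ker_eq_bot]; exact Subtype.val_injective)
      exact this
    have h2 : LinearIndependent ℤ (fun i => ((b' i : LinearMap.range L) : Fin ℓ → ℚ)) := by
      refine h1.restrict_scalars ?_
      have := Loc.charZero N R hN
      intro a b hab
      simpa using hab
    have h3 := ((LinearIndependent.iff_fractionRing ℤ ℚ).1 h2).fintype_card_le_finrank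
    rwa [Fintype.card_fin, Module.finrank_fin_fun] at h3
  have hle2 : ℓ ≤ Module.finrank R (LinearMap.range L) := by
    obtain ⟨p, hp, hpN⟩ := exists_prime hN
    have := Fact.mk hp
    obtain ⟨-, G, -, -, hG, -⟩ := AP.mod_inj h hpos hℓ F hp hpN
    have h1 := Fintype.card_le_of_injective G hG
    have h2 : ∀ k : ℕ, Fintype.card (Matrix (Fin k) (Fin k) (ZMod p)) = p ^ (k * k) := by
      intro k
      change Fintype.card (Fin k → Fin k → ZMod p) = _
      rw [Fintype.card_fun, Fintype.card_fun, ZMod.card, Fintype.card_fin, ← pow_mul]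
    rw [h2, h2] at h1
    have h3 := (Nat.pow_le_pow_iff_right hp.one_lt).mp h1
    exact Nat.mul_self_le_mul_self_iff.mp h3
  have hr := le_antisymm hle1 hle2
  exact ⟨(Matrix.reindexAlgEquiv R R (finCongr hr)).toAlgHom.toRingHom.comp F⟩

/-- an Azumaya algebra of prime degree in which some nonzero element has determinant zero is a
matrix algebra -/
theorem IsAzumaya.split (hℓ : ℓ.Prime) (hN : N ≠ 0) (h : IsAzumaya ℓ N R Λ) (x : Λ) (hx : x ≠ 0)
    (hx0 : AP.nn R x = 0) : Nonempty (Λ ≃+* Matrix (Fin ℓ) (Fin ℓ) R) := by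
  obtain ⟨i1, i2, hrk, hinj, -, -⟩ := h.generic hN hℓ.ne_zero
  rcases W2.dichotomy hℓ (ℚ ⊗[ℤ] Λ) hrk with hdiv | hf
  · exfalso
    have h1 : (1 : ℚ) ⊗ₜ[ℤ] x ≠ 0 := fun h0 => hx (one_tmul_eq_zero hN hℓ.ne_zero h h0)
    have h2 := hdiv _ h1
    have h3 := rdet_generic hN hℓ.ne_zero h (Matrix.of fun _ _ : Unit => x)
    have h4 : rdet R (Matrix.of fun _ _ : Unit => x) = 0 := by rw [rdet_unit]; exact hx0
    rw [h4, map_zero] at h3
    have h5 : ((Matrix.of fun _ _ : Unit => x).map fun y => (1 : ℚ) ⊗ₜ[ℤ] y) =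
        Matrix.of fun _ _ : Unit => (1 : ℚ) ⊗ₜ[ℤ] x := rfl
    rw [h5, rdet_unit] at h3
    have h6 : IsUnit (AP.nn ℚ ((1 : ℚ) ⊗ₜ[ℤ] x)) := h2.map (AP.nn ℚ)
    rw [AP.nn_apply, h3] at h6
    exact not_isUnit_zero h6
  · obtain ⟨f⟩ := hf
    let _ : Algebra R ℚ := (toQ hN R).toAlgebra
    obtain ⟨F⟩ := AP.exists_hom hN h hℓ.pos (toQ_injective hN)
      (f.toAlgHom.toRingHom.comp
        (Algebra.TensorProduct.includeRight : Λ →ₐ[ℤ] ℚ ⊗[ℤ] Λ).toRingHom) (fun r y => by
        change f ((1 : ℚ) ⊗ₜ[ℤ] (r • y)) = toQ hN R r • f ((1 : ℚ) ⊗ₜ[ℤ] y)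
        rw [one_tmul_smul hN, map_smul])
    exact AP.exists_equiv hN h hℓ.pos F

end lattice

end BWG
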