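import Pool.Agent.BWG.APMain

/-!
# Row AP2b: idempotent matrices over a matrix ring over a principal ideal domain
-/

set_option autoImplicit false

namespace BWG.AP

open Matrix

section Core

variable {R κ : Type*} [CommRing R] [IsDomain R] [IsPrincipalIdealRing R] [Fintype κ]
  [DecidableEq κ]

/-- a basis of the image of an idempotent and the dual functionals -/
theorem exists_dual {E : Matrix κ κ R} (hE : E * E = E) :
    ∃ b ψ : Fin (Module.finrank R (LinearMap.range E.mulVecLin)) → κ → R,
      (∀ i, E *ᵥ b i = b i) ∧ ∀ i j, ψ i ⬝ᵥ b j = if i = j then 1 else 0 := by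
  set W := LinearMap.range E.mulVecLin with hW
  let B := Module.finBasis R W
  let P : (κ → R) →ₗ[R] W := E.mulVecLin.rangeRestrict
  have hfix : ∀ w : W, E *ᵥ (w : κ → R) = w := by
    rintro ⟨_, v, rfl⟩
    show E *ᵥ (E *ᵥ v) = E *ᵥ v
    rw [Matrix.mulVec_mulVec, hE]
  have hP : ∀ w : W, P w = w := fun w => Subtype.ext (hfix w)
  refine ⟨fun i => (B i : κ → R), fun i k => B.repr (P (Pi.single k 1)) i, fun i => hfix (B i),
    fun i j => ?_⟩
  have h1 : (fun k => B.repr (P (Pi.single k 1)) i) ⬝ᵥ (B j : κ → R) =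
      B.repr (P (B j : κ → R)) i := by
    have h2 : (B j : κ → R) = ∑ k, (B j : κ → R) k • (Pi.single k 1 : κ → R) := by
      ext k
      rw [Finset.sum_apply, Finset.sum_eq_single k]
      · simp
      · intro k' _ hk'
        simp [hk'.symm]
      · intro h
        exact absurd (Finset.mem_univ _) h
    conv_rhs => rw [h2]
    rw [map_sum, map_sum, Finsupp.finsetSum_apply, dotProduct]
    refine Finset.sum_congr rfl fun k _ => ?_
    rw [map_smul, map_smul, Finsupp.smul_apply, smul_eq_mul, mul_comm]
  rw [h1, hP, B.repr_self, Finsupp.single_apply]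
  simp only [eq_comm]

omit [IsPrincipalIdealRing R] in
theorem rank_pos {E : Matrix κ κ R} (h0 : E ≠ 0) :
    0 < Module.finrank R (LinearMap.range E.mulVecLin) := by
  rw [Module.finrank_pos_iff]
  by_contra h
  rw [not_nontrivial_iff_subsingleton, Submodule.subsingleton_iff_eq_bot,
    LinearMap.range_eq_bot] at h
  apply h0
  ext i j
  have := congrFun (LinearMap.congr_fun h (Pi.single j 1)) i
  simpa using this

omit [IsPrincipalIdealRing R] in
theorem rank_add {E : Matrix κ κ R} (hE : E * E = E) :
    Module.finrank R (LinearMap.range E.mulVecLin) +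
      Module.finrank R (LinearMap.range (1 - E).mulVecLin) = Fintype.card κ := by
  have h1 : LinearMap.range (1 - E).mulVecLin = LinearMap.ker E.mulVecLin := by
    ext v
    rw [LinearMap.mem_range, LinearMap.mem_ker]
    constructor
    · rintro ⟨w, rfl⟩
      show E *ᵥ ((1 - E) *ᵥ w) = 0
      rw [Matrix.mulVec_mulVec, Matrix.mul_sub, Matrix.mul_one, hE, sub_self, Matrix.zero_mulVec]
    · intro h
      have h' : E *ᵥ v = 0 := h
      refine ⟨v, ?_⟩
      show (1 - E) *ᵥ v = v
      rw [Matrix.sub_mulVec, Matrix.one_mulVec, h', sub_zero]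
  rw [h1, ← (LinearMap.quotKerEquivRange E.mulVecLin).finrank_eq,
    Submodule.finrank_quotient_add_finrank, Module.finrank_fintype_fun_eq_card]

end Core

section Split

variable {R L : Type*} [CommRing R] [IsDomain R] [IsPrincipalIdealRing R] [Ring L] {l n : ℕ}
  (f : L ≃+* Matrix (Fin l) (Fin l) R)

/-- the big matrix over `R` of a matrix over the matrix ring -/
def bigM (e : Matrix (Fin n) (Fin n) L) : Matrix (Fin n × Fin l) (Fin n × Fin l) R :=
  Matrix.of fun a b => f (e a.1 b.1) a.2 b.2

omit [IsDomain R] [IsPrincipalIdealRing R] in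
theorem bigM_mul (e e' : Matrix (Fin n) (Fin n) L) : bigM f (e * e') = bigM f e * bigM f e' := by
  ext a b
  show f (∑ j, e a.1 j * e' j b.1) a.2 b.2 = ∑ q : Fin n × Fin l, _
  rw [map_sum, Matrix.sum_apply, Fintype.sum_prod_type]
  refine Finset.sum_congr rfl fun j _ => ?_
  rw [map_mul, Matrix.mul_apply]
  rfl

omit [IsDomain R] [IsPrincipalIdealRing R] in
theorem bigM_one_sub (e : Matrix (Fin n) (Fin n) L) : bigM f (1 - e) = 1 - bigM f e := by
  ext a b
  show f ((1 - e) a.1 b.1) a.2 b.2 = (1 - bigM f e) a b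
  rw [Matrix.sub_apply, map_sub, Matrix.sub_apply, Matrix.sub_apply, Matrix.one_apply,
    Matrix.one_apply]
  by_cases h1 : a.1 = b.1
  · rw [if_pos h1, map_one, Matrix.one_apply]
    by_cases h2 : a.2 = b.2
    · rw [if_pos h2, if_pos (Prod.ext h1 h2)]; rfl
    · rw [if_neg h2, if_neg (fun h => h2 (congrArg Prod.snd h))]; rfl
  · rw [if_neg h1, map_zero, if_neg (fun h => h1 (congrArg Prod.fst h))]; rfl

/-- the vector over `L` whose columns are given -/
def vecL (c : Fin l → (Fin n × Fin l) → R) : Fin n → L :=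
  fun j => f.symm (Matrix.of fun r s => c s (j, r))

/-- the row vector over `L` whose rows are given -/
def rowL (c : Fin l → (Fin n × Fin l) → R) : Fin n → L :=
  fun j => f.symm (Matrix.of fun r s => c r (j, s))

omit [IsDomain R] [IsPrincipalIdealRing R] in
theorem mulVec_vecL (e : Matrix (Fin n) (Fin n) L) (c : Fin l → (Fin n × Fin l) → R) :
    e *ᵥ vecL f c = vecL f (fun s => bigM f e *ᵥ c s) := by
  funext i
  apply f.injective
  show f (∑ j, e i j * vecL f c j) = f (f.symm _)
  rw [f.apply_symm_apply, map_sum]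
  ext r s
  rw [Matrix.sum_apply]
  show _ = ∑ q : Fin n × Fin l, bigM f e (i, r) q * c s q
  rw [Fintype.sum_prod_type]
  refine Finset.sum_congr rfl fun j _ => ?_
  rw [map_mul, Matrix.mul_apply]
  refine Finset.sum_congr rfl fun t _ => ?_
  rw [vecL, f.apply_symm_apply]
  rfl

omit [IsDomain R] [IsPrincipalIdealRing R] in
theorem row_dot_vec (c c' : Fin l → (Fin n × Fin l) → R) :
    f (rowL f c ⬝ᵥ vecL f c') = Matrix.of fun r s => c r ⬝ᵥ c' s := by
  rw [dotProduct, map_sum]
  ext r s
  rw [Matrix.sum_apply]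
  show _ = ∑ q : Fin n × Fin l, c r q * c' s q
  rw [Fintype.sum_prod_type]
  refine Finset.sum_congr rfl fun j _ => ?_
  rw [map_mul, Matrix.mul_apply]
  refine Finset.sum_congr rfl fun t _ => ?_
  rw [vecL, rowL, f.apply_symm_apply, f.apply_symm_apply]
  rfl

include f in
/-- fullness of every idempotent different from zero -/
theorem full_of_split {e : Matrix (Fin n) (Fin n) L} (he : e * e = e) (h0 : e ≠ 0) :
    Full l e := by
  have hE : bigM f e * bigM f e = bigM f e := by rw [← bigM_mul, he]
  have hE0 : bigM f e ≠ 0 := by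
    intro h
    apply h0
    ext i j
    apply f.injective
    rw [Matrix.zero_apply, map_zero]
    ext r s
    exact congrFun (congrFun h (i, r)) (j, s)
  obtain ⟨b, ψ, hb, hψ⟩ := exists_dual hE
  have hr := rank_pos hE0
  set i0 : Fin (Module.finrank R (LinearMap.range (bigM f e).mulVecLin)) := ⟨0, hr⟩
  refine ⟨fun t => rowL f fun r => if r = t then ψ i0 else 0,
    fun t => vecL f fun s => if s = t then b i0 else 0, ?_⟩
  apply f.injective
  rw [map_sum, map_one]
  ext r s
  rw [Matrix.sum_apply, Matrix.one_apply]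
  have h1 : ∀ t : Fin l, f ((rowL f fun r => if r = t then ψ i0 else 0) ⬝ᵥ
      (e *ᵥ vecL f fun s => if s = t then b i0 else 0)) r s = if r = t ∧ s = t then 1 else 0 := by
    intro t
    rw [mulVec_vecL, row_dot_vec]
    show (if r = t then ψ i0 else 0) ⬝ᵥ (bigM f e *ᵥ (if s = t then b i0 else 0)) = _
    by_cases hr : r = t
    · by_cases hs : s = t
      · rw [if_pos hr, if_pos hs, if_pos ⟨hr, hs⟩, hb, hψ, if_pos rfl]
      · rw [if_neg hs, Matrix.mulVec_zero, dotProduct_zero, if_neg (fun h => hs h.2)]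
    · rw [if_neg hr, zero_dotProduct, if_neg (fun h => hr h.1)]
  simp only [h1]
  by_cases hrs : r = s
  · subst hrs
    rw [if_pos rfl, Finset.sum_eq_single r]
    · rw [if_pos ⟨rfl, rfl⟩]
    · intro t _ ht
      rw [if_neg (fun h => ht h.1.symm)]
    · intro h
      exact absurd (Finset.mem_univ _) h
  · rw [if_neg hrs]
    refine Finset.sum_eq_zero fun t _ => if_neg fun h => hrs (h.1.trans h.2.symm)

include f in
theorem splits_of_rank {e : Matrix (Fin n) (Fin n) L} (he : e * e = e)
    (hr : l ≤ Module.finrank R (LinearMap.range (bigM f e).mulVecLin)) : BW.AP.Splits e := by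
  have hE : bigM f e * bigM f e = bigM f e := by rw [← bigM_mul, he]
  obtain ⟨b, ψ, hb, hψ⟩ := exists_dual hE
  refine ⟨vecL f fun s => b (Fin.castLE hr s), rowL f fun s => ψ (Fin.castLE hr s), ?_, ?_⟩
  · rw [mulVec_vecL]
    simp only [hb]
  · apply f.injective
    rw [row_dot_vec, map_one]
    ext r s
    rw [Matrix.of_apply, hψ, Matrix.one_apply]
    simp only [Fin.castLE_inj]

include f in
/-- one of two complementary idempotents splits -/
theorem splits_of_split (hn : 2 ≤ n) {e : Matrix (Fin n) (Fin n) L} (he : e * e = e) :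
    BW.AP.Splits e ∨ BW.AP.Splits (1 - e) := by
  have hE : bigM f e * bigM f e = bigM f e := by rw [← bigM_mul, he]
  have h1 := rank_add hE
  rw [Fintype.card_prod, Fintype.card_fin, Fintype.card_fin, ← bigM_one_sub] at h1
  have he' : (1 - e) * (1 - e) = 1 - e := by
    rw [Matrix.mul_sub, Matrix.mul_one, Matrix.sub_mul, Matrix.one_mul, he, sub_self, sub_zero]
  by_cases h : l ≤ Module.finrank R (LinearMap.range (bigM f e).mulVecLin)
  · exact Or.inl (splits_of_rank f he h)
  · refine Or.inr (splits_of_rank f he' ?_)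
    have h2 : 2 * l ≤ n * l := Nat.mul_le_mul_right l hn
    omega

end Split

end BWG.AP
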