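import Pool.Agent.BWG.Main
import Pool.Agent.BWG.AP2a
import Pool.Agent.BWG.AP2b

/-!
# Bounded width of `SL_n(Λ)`, `Λ` Azumaya of prime degree, all pairs of opposite parabolic subgroups
-/

set_option autoImplicit false

namespace BWG

open Matrix BW Pointwise
open BW.AP (Rad RadOp Uc_le_Rad Uc_le_RadOp)

theorem IsAzumaya.quaternion {N : ℕ} {R Λ : Type*} [CommRing R] [Ring Λ] [Algebra R Λ]
    (h : IsAzumaya 2 N R Λ) : IsQuaternionAzumaya N R Λ :=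
  ⟨h.free, h.rank, h.fibre⟩

theorem SL1_two (N : ℕ) (m Λ : Type*) [Ring Λ] [Fintype m] [DecidableEq m] :
    SL1 2 N m Λ = BW.SL1 N m Λ := rfl

/-- **bounded width for `SL_n(Λ)`**, `Λ` an Azumaya algebra of prime degree over `ℤ[1/N]` -/
theorem main_prime {ℓ : ℕ} (hℓ : ℓ.Prime) :
    ∃ (L₀ : ℕ) (L : ℕ → ℕ), ∀ n : ℕ, 3 ≤ n → ∀ N : ℕ, N ≠ 0 → ∀ (R Λ : Type)
    [CommRing R] [Ring Λ] [Algebra R Λ] [IsLocalization.Away (N : ℤ) R],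
    IsAzumaya ℓ N R Λ → ∀ (g : (Matrix (Fin n) (Fin n) Λ)ˣ) (f : Fin n → ℤ),
    (∃ i j, f i ≠ f j) →
      Uc g f ⊔ Uc g (-f) = SL1 ℓ N (Fin n) Λ ∧
      ((Uc g f : Set (Matrix (Fin n) (Fin n) Λ)ˣ) * (Uc g (-f) : Set (Matrix (Fin n) (Fin n) Λ)ˣ))
        ^ L n = (SL1 ℓ N (Fin n) Λ : Set (Matrix (Fin n) (Fin n) Λ)ˣ) ∧
      (Function.Injective f → ((Uc g f : Set (Matrix (Fin n) (Fin n) Λ)ˣ) *
        (Uc g (-f) : Set (Matrix (Fin n) (Fin n) Λ)ˣ)) ^ L₀ =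
          (SL1 ℓ N (Fin n) Λ : Set (Matrix (Fin n) (Fin n) Λ)ˣ)) := by
  rcases hℓ.eq_two_or_odd' with rfl | hodd
  · obtain ⟨L₀, L, h⟩ := BW.main
    exact ⟨L₀, L, fun n hn N hN R Λ _ _ _ _ haz g f hf => h n hn N hN R Λ haz.quaternion g f hf⟩
  · exact main hℓ hodd

/-- **Theorem**: all parabolic subgroups -/
theorem width_all {ℓ : ℕ} (hℓ : ℓ.Prime) : ∃ L : ℕ → ℕ, ∀ n : ℕ, 3 ≤ n → ∀ N : ℕ, N ≠ 0 →
    ∀ (R Λ : Type) [CommRing R] [Ring Λ] [Algebra R Λ] [IsLocalization.Away (N : ℤ) R],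
    IsAzumaya ℓ N R Λ → ∀ (k : ℕ) (e : Fin k → Matrix (Fin n) (Fin n) Λ), 2 ≤ k →
      CompleteOrthogonalIdempotents e → (∀ i, e i ≠ 0) →
        Subgroup.closure (Rad e ∪ RadOp e) = SL1 ℓ N (Fin n) Λ ∧
        (Rad e * RadOp e) ^ L n = (SL1 ℓ N (Fin n) Λ : Set (Matrix (Fin n) (Fin n) Λ)ˣ) := by
  obtain ⟨_, L, hL⟩ := main_prime hℓ
  refine ⟨fun n => 2 * ((1 + 3 * (n * ℓ) + (1 + 3 * (n * ℓ))) * L n),
    fun n hn N hN R Λ _ _ _ _ haz k e hk he he0 => ?_⟩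
  have hD := Loc.isDomain N R hN
  have hP := Loc.isPrincipalIdealRing N R
  by_cases hΛ : ∀ x : Λ, x ≠ 0 → AP.nn R x ≠ 0
  · exact AP.width_of (haz.sr2' hN).1 hn (fun g f hf => (hL n hn N hN R Λ haz g f hf).2.1)
      (fun e he h0 => (AP.full_of_domain hN haz hΛ he h0).mono hℓ.two_le)
      (fun e he h0 h1 => AP.splits_or hN haz hΛ hn he h0 h1) hk e he he0
  · push Not at hΛ
    obtain ⟨x, hx, hnx⟩ := hΛ
    obtain ⟨f⟩ := haz.split hℓ hN x hx hnx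
    exact AP.width_of (haz.sr2' hN).1 hn (fun g f hf => (hL n hn N hN R Λ haz g f hf).2.1)
      (fun e he h0 => AP.full_of_split f he h0)
      (fun e he _ _ => AP.splits_of_split f (by omega) he) hk e he he0

/-- **Main theorem**: all parabolic subgroups; for decompositions into free summands of rank one
the exponent does not depend on `n` -/
theorem main_all {ℓ : ℕ} (hℓ : ℓ.Prime) :
    ∃ (L₀ : ℕ) (L : ℕ → ℕ), ∀ n : ℕ, 3 ≤ n → ∀ N : ℕ, N ≠ 0 → ∀ (R Λ : Type)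
    [CommRing R] [Ring Λ] [Algebra R Λ] [IsLocalization.Away (N : ℤ) R],
    IsAzumaya ℓ N R Λ → ∀ (k : ℕ) (e : Fin k → Matrix (Fin n) (Fin n) Λ), 2 ≤ k →
      CompleteOrthogonalIdempotents e → (∀ i, e i ≠ 0) →
        Subgroup.closure (Rad e ∪ RadOp e) = SL1 ℓ N (Fin n) Λ ∧
        (Rad e * RadOp e) ^ L n = (SL1 ℓ N (Fin n) Λ : Set (Matrix (Fin n) (Fin n) Λ)ˣ) ∧
        ((∃ (g : (Matrix (Fin n) (Fin n) Λ)ˣ) (σ : Fin k ≃ Fin n),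
          ∀ i, e i = g.val * Matrix.single (σ i) (σ i) 1 * (g⁻¹).val) →
            (Rad e * RadOp e) ^ L₀ =
              (SL1 ℓ N (Fin n) Λ : Set (Matrix (Fin n) (Fin n) Λ)ˣ)) := by
  obtain ⟨L₀, _, hL₀⟩ := main_prime hℓ
  obtain ⟨L, hL⟩ := width_all hℓ
  refine ⟨L₀, L, fun n hn N hN R Λ _ _ _ _ haz k e hk he he0 => ?_⟩
  obtain ⟨h1, h2⟩ := hL n hn N hN R Λ haz k e hk he he0
  refine ⟨h1, h2, ?_⟩
  rintro ⟨g, σ, hg⟩
  have hinj : Function.Injective (fun j => ((σ.symm j : ℕ) : ℤ)) := by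
    intro a b h
    have h3 : ((σ.symm a : ℕ) : ℤ) = ((σ.symm b : ℕ) : ℤ) := h
    exact σ.symm.injective (Fin.ext (by exact_mod_cast h3))
  have h3 := (hL₀ n hn N hN R Λ haz g (fun j => ((σ.symm j : ℕ) : ℤ))
    ⟨⟨0, by omega⟩, ⟨1, by omega⟩, fun h => by
      have := hinj h
      simp [Fin.ext_iff] at this⟩).2.2 hinj
  refine Set.Subset.antisymm (AP.pow_le_SL1 ℓ N he) ?_
  rw [← h3]
  exact Set.pow_subset_pow_left (Set.mul_subset_mul (Uc_le_Rad g σ hg) (Uc_le_RadOp g σ hg))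

end BWG
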