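import Pool.Agent.BWG.A2
import Pool.Agent.BW.APMain

/-!
# Unimodular vectors in saturated submodules of `Λ ^ ν`, any degree
-/

set_option autoImplicit false

namespace BWG.AP

open Matrix BW
open BW.AP (Sat natCast_smul unimod_of_primes sat_fix sat_inf)

section linalg

variable {F : Type*} [Field F] {ν : Type*} [Fintype ν] [DecidableEq ν] {d : ℕ}

/-- a family of `d x d` matrices has a left inverse or a common kernel vector -/
theorem left_inv_or (Y : ν → Matrix (Fin d) (Fin d) F) :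
    (∃ ψ : ν → Matrix (Fin d) (Fin d) F, ∑ i, ψ i * Y i = 1) ∨
      ∃ u : Fin d → F, u ≠ 0 ∧ ∀ i, Y i *ᵥ u = 0 := by
  let T : (Fin d → F) →ₗ[F] (ν → Fin d → F) := LinearMap.pi fun i => (Y i).mulVecLin
  by_cases h : LinearMap.ker T = ⊥
  · left
    obtain ⟨g, hg⟩ := T.exists_leftInverse_of_injective h
    refine ⟨fun i => LinearMap.toMatrix' (g ∘ₗ LinearMap.single F (fun _ => Fin d → F) i), ?_⟩
    apply Matrix.toLin'.injective
    apply LinearMap.ext
    intro u
    rw [map_sum, LinearMap.sum_apply, Matrix.toLin'_one, LinearMap.id_apply]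
    have h1 : ∀ i, (Matrix.toLin' (LinearMap.toMatrix'
        (g ∘ₗ LinearMap.single F (fun _ => Fin d → F) i) * Y i)) u =
        g (Pi.single i (T u i)) := by
      intro i
      rw [Matrix.toLin'_mul, LinearMap.comp_apply, Matrix.toLin'_toMatrix', LinearMap.comp_apply]
      rfl
    simp only [h1]
    rw [← map_sum, Finset.univ_sum_single]
    have h2 := LinearMap.congr_fun hg u
    simpa using h2
  · right
    obtain ⟨u, hu, hu0⟩ := (Submodule.ne_bot_iff _).mp h
    refine ⟨u, hu0, fun i => ?_⟩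
    have h1 := congrFun (LinearMap.mem_ker.mp hu) i
    simpa [T] using h1

/-- the idempotents of rank one with a given image -/
theorem exists_idem {u : Fin d → F} (hu : u ≠ 0) : ∃ E : Matrix (Fin d) (Fin d) F, E * E = E ∧
    (1 - E).det = 0 ∧ ∀ Y : Matrix (Fin d) (Fin d) F, Y *ᵥ u = 0 → Y * E = 0 := by
  obtain ⟨k, hk⟩ : ∃ k, u k ≠ 0 := by
    by_contra h
    push Not at h
    exact hu (funext h)
  have hφ : (Pi.single k (u k)⁻¹ : Fin d → F) ⬝ᵥ u = 1 := by
    rw [single_dotProduct, inv_mul_cancel₀ hk]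
  refine ⟨Matrix.vecMulVec u (Pi.single k (u k)⁻¹), ?_, ?_, fun Y hY => ?_⟩
  · rw [Matrix.vecMulVec_mul_vecMulVec, hφ, one_smul]
  · rw [← Matrix.exists_mulVec_eq_zero_iff]
    refine ⟨u, hu, ?_⟩
    rw [Matrix.sub_mulVec, Matrix.one_mulVec, Matrix.vecMulVec_mulVec, hφ]
    simp
  · rw [Matrix.mul_vecMulVec, hY, Matrix.zero_vecMulVec]

theorem natCast_mat {p : ℕ} : ((p : ℕ) : Matrix (Fin d) (Fin d) (ZMod p)) = 0 := by
  have h1 : ((p : ℕ) : Matrix (Fin d) (Fin d) (ZMod p)) =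
      algebraMap (ZMod p) (Matrix (Fin d) (Fin d) (ZMod p)) (p : ZMod p) := by
    rw [map_natCast]
  rw [h1, ZMod.natCast_self, map_zero]

end linalg

/-! ### the determinant of left multiplication -/

section nn

variable (R : Type*) {Λ : Type*} [CommRing R] [Ring Λ] [Algebra R Λ]

/-- the determinant of left multiplication -/
noncomputable def nn : Λ →* R where
  toFun x := LinearMap.det (LinearMap.mulLeft R x)
  map_one' := by rw [LinearMap.mulLeft_one, LinearMap.det_id]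
  map_mul' x y := by rw [LinearMap.mulLeft_mul, LinearMap.det_comp]

theorem nn_apply (x : Λ) : nn R x = LinearMap.det (LinearMap.mulLeft R x) := rfl

theorem nn_natCast_ne [Module.Free R Λ] [Module.Finite R Λ] [IsDomain R] {p : ℕ} (hp : (p : R) ≠ 0) :
    nn R (p : Λ) ≠ 0 := by
  have h1 : LinearMap.mulLeft R (p : Λ) = (p : R) • (LinearMap.id : Λ →ₗ[R] Λ) := by
    apply LinearMap.ext
    intro x
    rw [LinearMap.mulLeft_apply, natCast_smul (R := R)]
    rfl
  rw [nn_apply, h1, LinearMap.det_smul, LinearMap.det_id, mul_one]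
  exact pow_ne_zero _ hp

end nn

variable {d N : ℕ} {R Λ : Type*} [CommRing R] [Ring Λ] [Algebra R Λ]

section lift

/-- lifting of idempotents modulo `p ^ 2` -/
theorem exists_lift_idem {p : ℕ} (ρ : Λ →+* Matrix (Fin d) (Fin d) (ZMod p))
    (hρ : Function.Surjective ρ) (hker : ∀ x, ρ x = 0 → ∃ y, x = (p : Λ) * y)
    (E : Matrix (Fin d) (Fin d) (ZMod p)) (hE : E * E = E) :
    ∃ a k : Λ, ρ a = E ∧ a * a - a = (p : Λ) * ((p : Λ) * k) := by
  obtain ⟨a, ha⟩ := hρ E
  obtain ⟨k, hk⟩ := hker (a * a - a) (by rw [map_sub, map_mul, ha, hE, sub_self])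
  refine ⟨3 * (a * a) - 2 * (a * a * a), k * k * (4 * (a * a) - 4 * a - 3), ?_, ?_⟩
  · have h2 : ρ 2 = 2 := map_ofNat ρ 2
    have h3 : ρ 3 = 3 := map_ofNat ρ 3
    rw [map_sub, map_mul, map_mul, map_mul, map_mul, map_mul, h2, h3, ha, hE, hE]
    noncomm_ring
  · have h1 : (3 * (a * a) - 2 * (a * a * a)) * (3 * (a * a) - 2 * (a * a * a)) -
        (3 * (a * a) - 2 * (a * a * a)) =
        (a * a - a) * (a * a - a) * (4 * (a * a) - 4 * a - 3) := by
      noncomm_ring
    rw [h1, hk]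
    have h2 : (p : Λ) * k * ((p : Λ) * k) = (p : Λ) * ((p : Λ) * (k * k)) := by
      rw [mul_assoc, ← mul_assoc k, ← (Nat.cast_commute p k).eq, mul_assoc]
    rw [h2]
    simp only [mul_assoc]

/-- the elements `x`, `x'`, `c` with `x x' = p c` -/
theorem exists_xx {p : ℕ} (ρ : Λ →+* Matrix (Fin d) (Fin d) (ZMod p))
    (hρ : Function.Surjective ρ) (hker : ∀ x, ρ x = 0 → ∃ y, x = (p : Λ) * y)
    (E : Matrix (Fin d) (Fin d) (ZMod p)) (hE : E * E = E) :
    ∃ x x' c : Λ, ρ x = E ∧ ρ x' = 1 - E ∧ ρ c = 1 ∧ x * x' = (p : Λ) * c := by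
  obtain ⟨a, k, ha, hk⟩ := exists_lift_idem ρ hρ hker E hE
  refine ⟨a + (p : Λ) * (1 - a), (p : Λ) * a + (1 - a),
    a * a + (1 - a) * (1 - a) - (p : Λ) * k - (p : Λ) * ((p : Λ) * ((p : Λ) * k)), ?_, ?_, ?_, ?_⟩
  · rw [map_add, map_mul, map_natCast, natCast_mat, zero_mul, add_zero, ha]
  · rw [map_add, map_mul, map_natCast, natCast_mat, zero_mul, zero_add, map_sub, map_one, ha]
  · rw [map_sub, map_sub, map_mul (f := ρ) (p : Λ), map_mul (f := ρ) (p : Λ), map_natCast,
      natCast_mat, zero_mul, zero_mul, sub_zero, sub_zero, map_add, map_mul, map_mul, map_sub,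
      map_one, ha, hE]
    have h1 : (1 - E) * (1 - E) = 1 - E - E + E * E := by noncomm_ring
    rw [h1, hE]
    abel
  · have hc : ∀ z : Λ, z * (p : Λ) = (p : Λ) * z := fun z => ((Nat.cast_commute p z).eq).symm
    have h1 : a - a * a = -((p : Λ) * ((p : Λ) * k)) := by rw [← hk]; abel
    have h2 : a * (1 - a) = -((p : Λ) * ((p : Λ) * k)) := by rw [mul_sub, mul_one, h1]
    have h3 : (1 - a) * a = -((p : Λ) * ((p : Λ) * k)) := by rw [sub_mul, one_mul, h1]
    have h4 : (a + (p : Λ) * (1 - a)) * ((p : Λ) * a + (1 - a)) =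
        (a * (p : Λ)) * a + a * (1 - a) + (p : Λ) * ((1 - a) * (p : Λ)) * a +
          (p : Λ) * ((1 - a) * (1 - a)) := by noncomm_ring
    rw [h4, hc a, hc (1 - a), h2, mul_assoc (p : Λ) ((p : Λ) * (1 - a)) a, mul_assoc (p : Λ) (1 - a) a,
      h3]
    noncomm_ring

end lift

variable {ν : Type*} [Fintype ν] [DecidableEq ν]

section one

variable [IsLocalization.Away (N : ℤ) R] (hN : N ≠ 0) (h : IsAzumaya d N R Λ)
  {S : Set (ν → Λ)} (hS : Sat N S)

include hN h hS

theorem exists_unimod_mod {p : ℕ} (hp : p.Prime) (hpN : ¬ p ∣ N)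
    (ρ : Λ →+* Matrix (Fin d) (Fin d) (ZMod p)) (hρ : Function.Surjective ρ)
    (hker : ∀ x, ρ x = 0 → ∃ y, x = (p : Λ) * y)
    (k : ℕ) : ∀ y ∈ S, ∀ i, ¬ (p : R) ^ k ∣ nn R (y i) →
      ∃ w ∈ S, ∃ ψ : ν → Matrix (Fin d) (Fin d) (ZMod p), ∑ j, ψ j * ρ (w j) = 1 := by
  have := Fact.mk hp
  have hD := Loc.isDomain N R hN
  have hfree := h.free
  obtain ⟨b⟩ := h.exists_basis hN
  have hfin : Module.Finite R Λ := Module.Finite.of_basis b
  induction k with
  | zero =>
    intro y _ i h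
    exact absurd (by rw [pow_zero]; exact one_dvd _) h
  | succ k ih =>
    intro y hy i hi
    rcases left_inv_or (fun j => ρ (y j)) with ⟨ψ, hψ⟩ | ⟨u, hu, hu0⟩
    · exact ⟨y, hy, ψ, hψ⟩
    · have hd0 : d ≠ 0 := by
        rintro rfl
        exact hu (Subsingleton.elim _ _)
      obtain ⟨E, hE, hdet, hEY⟩ := exists_idem hu
      obtain ⟨x, x', c, hx, hx', hc, hxx⟩ := exists_xx ρ hρ hker E hE
      have hz : ∀ j, ∃ z, y j * x = (p : Λ) * z := by
        intro j
        apply hker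
        rw [map_mul, hx]
        exact hEY _ (hu0 j)
      choose z hz using hz
      have hzS : z ∈ S := by
        apply hS.div p hp hpN
        have h1 := hS.rmul y hy x
        have h2 : (fun i => y i * x) = fun i => (p : Λ) * z i := funext hz
        rwa [h2] at h1
      refine ih z hzS i fun hdvd => hi ?_
      have hp0 : (p : R) ≠ 0 := (Loc.prime hp hpN hN).ne_zero
      have h3 : nn R (y i) * nn R c = nn R (z i) * nn R x' := by
        apply mul_left_cancel₀ (nn_natCast_ne R (Λ := Λ) hp0)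
        rw [mul_comm (nn R (y i)), ← mul_assoc, ← map_mul, ← hxx, map_mul, mul_comm (nn R x),
          mul_assoc, mul_comm (nn R x), ← map_mul, hz, map_mul]
        ring
      have h4 : (p : R) ∣ nn R x' := by
        rw [← Loc.phi_eq_zero_iff hp hpN, nn_apply, phi_nn hp hpN ρ hρ b, hx', hdet,
          zero_pow hd0]
      have h5 : ¬ (p : R) ∣ nn R c := by
        rw [← Loc.phi_eq_zero_iff hp hpN, nn_apply, phi_nn hp hpN ρ hρ b, hc, Matrix.det_one,
          one_pow]
        exact one_ne_zero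
      refine (Loc.prime hp hpN hN).pow_dvd_of_dvd_mul_right _ h5 ?_
      rw [h3, pow_succ]
      exact mul_dvd_mul hdvd h4

/-- one prime -/
theorem exists_unimod_prime {p : ℕ} (hp : p.Prime) (hpN : ¬ p ∣ N) {y : ν → Λ} (hy : y ∈ S)
    {i : ν} (hi : nn R (y i) ≠ 0) (v : ν → Λ) :
    ∃ w ∈ S, ∃ (φ : ν → Λ) (l : Λ), ∑ j, φ j * (v j + w j) = 1 + (p : Λ) * l := by
  have hD := Loc.isDomain N R hN
  have hP := Loc.isPrincipalIdealRing N R
  obtain ⟨ρ, hρ, hker⟩ := h.fibre p hp hpN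
  obtain ⟨k, hk⟩ := FiniteMultiplicity.of_not_isUnit (Loc.not_isUnit hp hpN (R := R)) hi
  obtain ⟨w, hw, ψ, hψ⟩ := exists_unimod_mod hN h hS hp hpN ρ hρ hker (k + 1) y hy i hk
  obtain ⟨x, hx⟩ := hρ (1 - ∑ j, ψ j * ρ (v j))
  choose φ hφ using fun j => hρ (ψ j)
  have h1 : ρ (∑ j, φ j * (v j + w j * x) - 1) = 0 := by
    rw [map_sub, map_one, map_sum, sub_eq_zero]
    have h2 : ∀ j, ρ (φ j * (v j + w j * x)) = ψ j * ρ (v j) + ψ j * ρ (w j) * ρ x := by
      intro j
      rw [map_mul, map_add, map_mul, hφ, mul_add, mul_assoc]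
    simp only [h2]
    rw [Finset.sum_add_distrib, ← Finset.sum_mul, hψ, one_mul, hx]
    abel
  obtain ⟨l, hl⟩ := hker _ h1
  exact ⟨fun j => w j * x, hS.rmul w hw x, φ, l, by rw [← hl]; abel⟩

/-- finitely many primes -/
theorem exists_unimod_primes (P : Finset ℕ) (hP : ∀ p ∈ P, p.Prime ∧ ¬ p ∣ N) {y : ν → Λ}
    (hy : y ∈ S) {i : ν} (hi : nn R (y i) ≠ 0) (v : ν → Λ) :
    ∃ w ∈ S, ∀ p ∈ P, ∃ (φ : ν → Λ) (l : Λ), ∑ j, φ j * (v j + w j) = 1 + (p : Λ) * l := by
  induction P using Finset.induction_on with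
  | empty => exact ⟨y, hy, fun p hp => absurd hp (Finset.notMem_empty p)⟩
  | insert q P hq ih =>
    obtain ⟨w, hw, hwP⟩ := ih fun p hp => hP p (Finset.mem_insert_of_mem hp)
    have hqP := hP q (Finset.mem_insert_self q P)
    obtain ⟨w', hw', φ', l', h'⟩ := exists_unimod_prime hN h hS hqP.1 hqP.2 hy hi
      (fun j => v j + w j)
    have hcop : IsCoprime ((∏ p ∈ P, p : ℕ) : ℤ) (q : ℤ) := by
      rw [Nat.isCoprime_iff_coprime]
      refine Nat.Coprime.prod_left fun p hp => ?_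
      rw [Nat.coprime_primes (hP p (Finset.mem_insert_of_mem hp)).1 hqP.1]
      rintro rfl
      exact hq hp
    obtain ⟨α, β, h⟩ := hcop
    -- the element `t = 1 mod q`, `t = 0 mod p`
    set t : Λ := ((α * (∏ p ∈ P, p : ℕ) : ℤ) : Λ) with ht
    have ht1 : t = 1 - (q : Λ) * ((β : ℤ) : Λ) := by
      have h1 : (α * (∏ p ∈ P, p : ℕ) : ℤ) = 1 - q * β := by rw [← h]; ring
      rw [ht, h1]
      push_cast
      rfl
    refine ⟨fun j => w j + w' j * t, hS.add _ _ hw (hS.rmul w' hw' t), fun p hp => ?_⟩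
    rcases Finset.mem_insert.mp hp with rfl | hp
    · refine ⟨φ', l' - ∑ j, φ' j * w' j * ((β : ℤ) : Λ), ?_⟩
      have h2 : ∀ j, φ' j * (v j + (w j + w' j * t)) = φ' j * (v j + w j + w' j) -
          (p : Λ) * (φ' j * w' j * ((β : ℤ) : Λ)) := by
        intro j
        rw [ht1, mul_sub, mul_one]
        have h3 : φ' j * (w' j * ((p : Λ) * ((β : ℤ) : Λ))) =
            (p : Λ) * (φ' j * w' j * ((β : ℤ) : Λ)) := by
          rw [← mul_assoc (w' j), ← (Nat.cast_commute p (w' j)).eq, mul_assoc (p : Λ),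
            ← mul_assoc (φ' j), ← (Nat.cast_commute p (φ' j)).eq]
          simp only [mul_assoc]
        rw [← h3]
        noncomm_ring
      simp only [h2]
      rw [Finset.sum_sub_distrib, ← Finset.mul_sum, h', mul_sub]
      abel
    · obtain ⟨φ, l, h2⟩ := hwP p hp
      obtain ⟨k, hk⟩ := Finset.dvd_prod_of_mem (fun p => p) hp
      have ht2 : t = (p : Λ) * ((α * k : ℤ) : Λ) := by
        rw [ht, hk]
        push_cast
        rw [← mul_assoc, ← (Nat.cast_commute p ((α : ℤ) : Λ)).eq, mul_assoc]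
      refine ⟨φ, l + ∑ j, φ j * w' j * ((α * k : ℤ) : Λ), ?_⟩
      have h3 : ∀ j, φ j * (v j + (w j + w' j * t)) = φ j * (v j + w j) +
          (p : Λ) * (φ j * w' j * ((α * k : ℤ) : Λ)) := by
        intro j
        rw [ht2]
        have h3 : φ j * (w' j * ((p : Λ) * ((α * k : ℤ) : Λ))) =
            (p : Λ) * (φ j * w' j * ((α * k : ℤ) : Λ)) := by
          rw [← mul_assoc (w' j), ← (Nat.cast_commute p (w' j)).eq, mul_assoc (p : Λ),
            ← mul_assoc (φ j), ← (Nat.cast_commute p (φ j)).eq]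
          simp only [mul_assoc]
        rw [← h3]
        noncomm_ring
      simp only [h3]
      rw [Finset.sum_add_distrib, ← Finset.mul_sum, h2, mul_add]
      abel

/-- **unimodular vectors in `v + S`** up to one element `c` of norm different from zero -/
theorem exists_unimod {y : ν → Λ} (hy : y ∈ S) {i : ν} (hi : nn R (y i) ≠ 0) (v : ν → Λ) (c : Λ)
    (hc : nn R c ≠ 0) : ∃ w ∈ S, ∃ (φ : ν → Λ) (μ : Λ), ∑ j, φ j * (v j + w j) + μ * c = 1 := by
  have hfree := h.free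
  obtain ⟨b⟩ := h.exists_basis hN
  have hfin : Module.Finite R Λ := Module.Finite.of_basis b
  obtain ⟨u, m, hm, hmN, hum⟩ := Loc.exists_unit_mul hN hc
  obtain ⟨w, hw, hwP⟩ := exists_unimod_primes hN h hS m.primeFactors (fun p hp =>
    ⟨Nat.prime_of_mem_primeFactors hp, fun hpN => (Nat.prime_of_mem_primeFactors hp).one_lt.ne'
      (Nat.eq_one_of_dvd_coprimes hmN (Nat.dvd_of_mem_primeFactors hp) hpN)⟩) hy hi v
  obtain ⟨φ, l, h⟩ := unimod_of_primes m hm.ne' hwP
  obtain ⟨c', hc'⟩ := exists_ladj (R := R) c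
  refine ⟨w, hw, φ, -(l * algebraMap R Λ ↑u⁻¹ * c'), ?_⟩
  have h1 : -(l * algebraMap R Λ ↑u⁻¹ * c') * c = -((m : Λ) * l) := by
    rw [nn_apply] at hum
    rw [neg_mul, mul_assoc, hc', hum, mul_assoc, ← map_mul, ← mul_assoc,
      Units.inv_mul, one_mul, map_natCast, ← (Nat.cast_commute m l).eq]
  rw [h, h1]
  abel

end one

end BWG.AP
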