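import Pool.Agent.BWG.Defs
import Pool.Agent.BW.Main

/-!
# Bounded width, prime degree: reduced norms, the final reductions (row M, part 1)
-/

set_option autoImplicit false

namespace BWG

open Matrix BW Pointwise
open Pool.Agent.Helper24.BWR (emb SR2')

section Block

variable {Λ k m : Type*} [Ring Λ] [CommRing k] [Fintype m] [DecidableEq m] {d : ℕ}

theorem nrdAt_apply (ρ : Λ →+* Matrix (Fin d) (Fin d) k) (X : Matrix m m Λ) :
    nrdAt ρ X = (Matrix.compRingEquiv m (Fin d) k (X.map ρ)).det := rfl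

/-- elementary matrices have reduced norm one -/
theorem nrdAt_el (ρ : Λ →+* Matrix (Fin d) (Fin d) k) (i j : m) (h : i ≠ j) (x : Λ) :
    nrdAt ρ (el i j h x).val = 1 := by
  classical
  let U : Matrix (m × Fin d) (Fin d) k := fun a s => if a.1 = i then ρ x a.2 s else 0
  let V : Matrix (Fin d) (m × Fin d) k := fun s a => if a = (j, s) then 1 else 0
  have h1 : Matrix.compRingEquiv m (Fin d) k ((el i j h x).val.map ρ) = 1 + U * V := by
    ext ⟨a, s⟩ ⟨b, t⟩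
    rw [el_val]
    have e1 : (Matrix.compRingEquiv m (Fin d) k ((1 + Matrix.single i j x).map ρ)) (a, s) (b, t) =
        ρ ((1 + Matrix.single i j x : Matrix m m Λ) a b) s t := rfl
    rw [e1, Matrix.add_apply, Matrix.add_apply, map_add, Matrix.add_apply]
    congr 1
    · rw [Matrix.one_apply, Matrix.one_apply]
      by_cases hab : a = b
      · by_cases hst : s = t
        · simp [hab, hst]
        · simp [hab, hst]
      · simp [hab]
    · rw [Matrix.mul_apply]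
      simp only [U, V]
      rw [Finset.sum_eq_single t]
      · by_cases ha : i = a
        · by_cases hb : j = b
          · simp [ha, hb]
          · have : ¬ b = j := fun h => hb h.symm
            simp [ha, hb, this, Matrix.single_apply]
        · have : ¬ a = i := fun h => ha h.symm
          simp [ha, this, Matrix.single_apply]
      · intro s' _ hs'
        have : ¬ ((b, t) = (j, s')) := fun h => hs' (by rw [Prod.mk.injEq] at h; exact h.2.symm)
        rw [if_neg this, mul_zero]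
      · simp
  have h2 : V * U = 0 := by
    ext s t
    rw [Matrix.mul_apply]
    refine Finset.sum_eq_zero fun a _ => ?_
    simp only [U, V]
    by_cases ha : a = (j, s)
    · have : ¬ a.1 = i := by rw [ha]; exact h.symm
      rw [if_neg this, mul_zero]
    · rw [if_neg ha, zero_mul]
  rw [nrdAt_apply, h1, Matrix.det_one_add_mul_comm, h2, add_zero, Matrix.det_one]

theorem el_mem_SL1 (N : ℕ) (i j : m) (h : i ≠ j) (x : Λ) : el i j h x ∈ SL1 d N m Λ :=
  fun _ _ _ ρ => nrdAt_el ρ i j h x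

theorem E_le_SL1 (d N : ℕ) : E m Λ ≤ SL1 d N m Λ := by
  rw [E, Subgroup.closure_le]
  rintro _ ⟨i, j, h, x, rfl⟩
  exact el_mem_SL1 N i j h x

theorem U_le_SL1 (d N : ℕ) (f : m → ℤ) : (U f : Subgroup (Matrix m m Λ)ˣ) ≤ SL1 d N m Λ :=
  (U_le_E f).trans (E_le_SL1 d N)

theorem nrdAt_submatrix {m' : Type*} [Fintype m'] [DecidableEq m']
    (ρ : Λ →+* Matrix (Fin d) (Fin d) k) (e : m' ≃ m) (X : Matrix m m Λ) :
    nrdAt ρ (X.submatrix e e) = nrdAt ρ X := by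
  rw [nrdAt_apply, nrdAt_apply,
    ← Matrix.det_submatrix_equiv_self (e.prodCongr (Equiv.refl (Fin d)))
      (Matrix.compRingEquiv m (Fin d) k (X.map ρ))]
  rfl

theorem nrdAt_fromBlocks {m' : Type*} [Fintype m'] [DecidableEq m']
    (ρ : Λ →+* Matrix (Fin d) (Fin d) k) (A : Matrix m m Λ) (D : Matrix m' m' Λ) :
    nrdAt ρ (Matrix.fromBlocks A 0 0 D) = nrdAt ρ A * nrdAt ρ D := by
  have h : nrdAt ρ (Matrix.fromBlocks A 0 0 D) = (Matrix.fromBlocks
      (Matrix.compRingEquiv m (Fin d) k (A.map ρ)) 0 0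
      (Matrix.compRingEquiv m' (Fin d) k (D.map ρ))).det := by
    rw [nrdAt_apply, ← Matrix.det_submatrix_equiv_self (Equiv.sumProdDistrib m m' (Fin d)).symm]
    congr 1
    ext a b
    rcases a with ⟨a, s⟩ | ⟨a, s⟩ <;> rcases b with ⟨b, t⟩ | ⟨b, t⟩
    · rfl
    · change ρ 0 s t = 0
      rw [map_zero]; rfl
    · change ρ 0 s t = 0
      rw [map_zero]; rfl
    · rfl
  rw [h, Matrix.det_fromBlocks_zero₂₁]
  rfl

/-- the reduced norm of `diag(A, 1, …, 1)` -/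
theorem km_mem_SL1 (N m : ℕ) (A : (Matrix (Fin 2) (Fin 2) Λ)ˣ) :
    Units.map (km m) A ∈ SL1 d N (Fin (2 + m)) Λ ↔ A ∈ SL1 d N (Fin 2) Λ := by
  have key : ∀ (k : Type) [CommRing k] (ρ : Λ →+* Matrix (Fin d) (Fin d) k),
      nrdAt ρ (Units.map (km m) A).val = nrdAt ρ A.val := by
    intro k _ ρ
    change nrdAt ρ (Matrix.submatrix (Matrix.fromBlocks A.val 0 0 1)
      finSumFinEquiv.symm finSumFinEquiv.symm) = _
    rw [nrdAt_submatrix, nrdAt_fromBlocks, map_one, mul_one]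
  constructor
  · intro h p hp hpN ρ
    rw [← key]
    exact h p hp hpN ρ
  · intro h p hp hpN ρ
    rw [key]
    exact h p hp hpN ρ

end Block

section Final

theorem reix_SL1 {n : ℕ} {Λ : Type} [Ring Λ] (d N : ℕ) (σ : Equiv.Perm (Fin n)) :
    (reix Λ σ) '' (SL1 d N (Fin n) Λ : Subgroup (Matrix (Fin n) (Fin n) Λ)ˣ) =
      (SL1 d N (Fin n) Λ : Subgroup (Matrix (Fin n) (Fin n) Λ)ˣ) := by
  have h1 : ∀ (σ : Equiv.Perm (Fin n)) (X : (Matrix (Fin n) (Fin n) Λ)ˣ),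
      X ∈ SL1 d N (Fin n) Λ → reix Λ σ X ∈ SL1 d N (Fin n) Λ := by
    intro σ X hX p hp hpN ρ
    have := nrdAt_submatrix ρ σ X.val
    rw [hX p hp hpN ρ] at this
    exact this
  ext X
  constructor
  · rintro ⟨Y, hY, rfl⟩
    exact h1 σ Y hY
  · intro hX
    refine ⟨reix Λ σ.symm X, h1 σ.symm X hX, ?_⟩
    ext i j
    rw [reix_val, reix_val, Equiv.symm_apply_apply, Equiv.symm_apply_apply]

theorem width_of_injective {n : ℕ} {Λ : Type} [Ring Λ] {d N L : ℕ}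
    (h : UU' Λ (up n) ^ L = ((SL1 d N (Fin n) Λ : Subgroup _) : Set (Matrix (Fin n) (Fin n) Λ)ˣ))
    (f : Fin n → ℤ) (hf : Function.Injective f) :
    UU' Λ f ^ L = ((SL1 d N (Fin n) Λ : Subgroup _) : Set (Matrix (Fin n) (Fin n) Λ)ˣ) := by
  have h1 : StrictMono (f ∘ Tuple.sort f) :=
    (Tuple.monotone_sort f).strictMono_of_injective (hf.comp (Tuple.sort f).injective)
  have h2 : (U (f ∘ Tuple.sort f) : Subgroup (Matrix (Fin n) (Fin n) Λ)ˣ) = U (up n) :=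
    U_congr fun i j => by
      rw [h1.lt_iff_lt]
      unfold up
      rw [Nat.cast_lt, Fin.val_fin_lt]
  have h3 : (U ((-f) ∘ Tuple.sort f) : Subgroup (Matrix (Fin n) (Fin n) Λ)ˣ) = U (-up n) :=
    U_congr fun i j => by
      change -(f (Tuple.sort f i)) < -(f (Tuple.sort f j)) ↔ -(up n i) < -(up n j)
      rw [neg_lt_neg_iff, neg_lt_neg_iff]
      have := h1.lt_iff_lt (a := j) (b := i)
      unfold up
      rw [Nat.cast_lt, Fin.val_fin_lt]
      exact this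
  have h4 : (reix Λ (Tuple.sort f)) '' (UU' Λ f ^ L) = UU' Λ (up n) ^ L := by
    rw [Set.image_pow, UU', Set.image_mul, reix_U, reix_U, h2, h3, UU']
  rw [h, ← reix_SL1 d N (Tuple.sort f)] at h4
  exact (reix Λ (Tuple.sort f)).injective.image_injective h4

/-- matrices of reduced norm one form a normal subgroup -/
theorem SL1_conj {n : ℕ} {Λ : Type} [Ring Λ] (d N : ℕ) (g : (Matrix (Fin n) (Fin n) Λ)ˣ) :
    (SL1 d N (Fin n) Λ).map (MulAut.conj g).toMonoidHom = SL1 d N (Fin n) Λ := by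
  have h1 : ∀ (g X : (Matrix (Fin n) (Fin n) Λ)ˣ), X ∈ SL1 d N (Fin n) Λ →
      g * X * g⁻¹ ∈ SL1 d N (Fin n) Λ := by
    intro g X hX p hp hpN ρ
    rw [Units.val_mul, Units.val_mul, map_mul, map_mul, hX p hp hpN ρ, mul_one, ← map_mul,
      ← Units.val_mul, mul_inv_cancel, Units.val_one, map_one]
  ext X
  constructor
  · rintro ⟨Y, hY, rfl⟩
    exact h1 g Y hY
  · intro hX
    refine ⟨g⁻¹ * X * g, ?_, ?_⟩
    · have := h1 g⁻¹ X hX
      rwa [inv_inv] at this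
    · change g * (g⁻¹ * X * g) * g⁻¹ = X
      group

theorem conj_width {n : ℕ} {Λ : Type} [Ring Λ] {d N L : ℕ} {f : Fin n → ℤ}
    (h : UU' Λ f ^ L = ((SL1 d N (Fin n) Λ : Subgroup _) : Set (Matrix (Fin n) (Fin n) Λ)ˣ))
    (g : (Matrix (Fin n) (Fin n) Λ)ˣ) :
    ((Uc g f : Set (Matrix (Fin n) (Fin n) Λ)ˣ) * (Uc g (-f) : Set (Matrix (Fin n) (Fin n) Λ)ˣ)) ^ L
      = ((SL1 d N (Fin n) Λ : Subgroup _) : Set (Matrix (Fin n) (Fin n) Λ)ˣ) := by
  rw [← SL1_conj d N g, Subgroup.coe_map, ← h, Uc, Uc, Subgroup.coe_map, Subgroup.coe_map,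
    ← Set.image_mul, ← Set.image_pow]
  rfl

theorem sup_eq {n : ℕ} {Λ : Type} [Ring Λ] {d N L : ℕ}
    {P Q : Subgroup (Matrix (Fin n) (Fin n) Λ)ˣ}
    (h : ((P : Set (Matrix (Fin n) (Fin n) Λ)ˣ) * (Q : Set (Matrix (Fin n) (Fin n) Λ)ˣ)) ^ L
      = ((SL1 d N (Fin n) Λ : Subgroup _) : Set (Matrix (Fin n) (Fin n) Λ)ˣ))
    (hP : P ≤ SL1 d N (Fin n) Λ) (hQ : Q ≤ SL1 d N (Fin n) Λ) :
    P ⊔ Q = SL1 d N (Fin n) Λ := by
  refine le_antisymm (sup_le hP hQ) fun X hX => ?_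
  rw [← SetLike.mem_coe, ← h] at hX
  clear h hP hQ
  induction L generalizing X with
  | zero =>
    rw [pow_zero, Set.mem_one] at hX
    rw [hX]
    exact one_mem _
  | succ L ih =>
    rw [pow_succ] at hX
    obtain ⟨a, ha, b, ⟨u, hu, v, hv, rfl⟩, rfl⟩ := hX
    exact mul_mem (ih a ha) (mul_mem (Subgroup.mem_sup_left hu) (Subgroup.mem_sup_right hv))

/-- the bound for `2 x 2` matrices: every matrix of reduced norm one is a product of at most `L`
elementary matrices of size three -/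
def Bound2 (d N : ℕ) (Λ : Type) [Ring Λ] (L : ℕ) : Prop :=
  ∀ A ∈ SL1 d N (Fin 2) Λ, ∃ l : List ((Matrix (Fin 3) (Fin 3) Λ)ˣ), l.length ≤ L ∧
    (∀ g ∈ l, ∃ (a b : Fin 3) (h : a ≠ b) (x : Λ), g = el a b h x) ∧ l.prod = K A

/-- **the absolute bound** for the unitriangular subgroups -/
theorem unitriangular_width {d N L : ℕ} {Λ : Type} [Ring Λ] (hS : SR2' Λ) (hL : Bound2 d N Λ L)
    {n : ℕ} (hn : 3 ≤ n) :
    UU' Λ (up n) ^ (2 + L + 1) =
      ((SL1 d N (Fin n) Λ : Subgroup _) : Set (Matrix (Fin n) (Fin n) Λ)ˣ) := by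
  obtain ⟨m, rfl⟩ : ∃ m, n = 2 + m := ⟨n - 2, by omega⟩
  refine Set.Subset.antisymm (UU'_pow_le _ _ (U_le_SL1 d N _) (U_le_SL1 d N _) _) fun X hX => ?_
  obtain ⟨u₁, hu₁, l₁, hl₁, u₂, hu₂, A, l₂, hl₂, rfl⟩ := tri_reduction hS m X
  have hA : A ∈ SL1 d N (Fin 2) Λ := by
    rw [← km_mem_SL1 N m A]
    have h1 := U_le_SL1 d N _ hu₁
    have h2 := U_le_SL1 d N _ hl₁
    have h3 := U_le_SL1 d N _ hu₂
    have h4 := U_le_SL1 d N _ hl₂
    have h5 := mul_mem (inv_mem (mul_mem (mul_mem h1 h2) h3)) (mul_mem hX (inv_mem h4))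
    have h6 : (u₁ * l₁ * u₂)⁻¹ * (u₁ * l₁ * u₂ * Units.map (km m) A * l₂ * l₂⁻¹) =
        Units.map (km m) A := by group
    rwa [h6] at h5
  obtain ⟨l, h1, h2, h3⟩ := hL A hA
  have h4 := km_mem_pow m (by omega) A l h1 h2 h3
  rw [pow_add, pow_add, pow_one, pow_two]
  exact Set.mul_mem_mul (Set.mul_mem_mul (Set.mul_mem_mul (Set.mul_mem_mul hu₁ hl₁)
    (left_mem_UU' hu₂)) h4) (right_mem_UU' hl₂)

/-- the conclusions of the main theorem from the bound for `2 x 2` matrices -/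
theorem main_of {d N L : ℕ} {Λ : Type} [Ring Λ] (hS : SR2' Λ) (hL : Bound2 d N Λ L) {n : ℕ}
    (hn : 3 ≤ n) (g : (Matrix (Fin n) (Fin n) Λ)ˣ) (f : Fin n → ℤ) (hf : ∃ i j, f i ≠ f j) :
    Uc g f ⊔ Uc g (-f) = SL1 d N (Fin n) Λ ∧
      ((Uc g f : Set (Matrix (Fin n) (Fin n) Λ)ˣ) * (Uc g (-f) : Set (Matrix (Fin n) (Fin n) Λ)ˣ))
        ^ (8 * n * n * (2 + L + 1)) = (SL1 d N (Fin n) Λ : Set (Matrix (Fin n) (Fin n) Λ)ˣ) ∧
      (Function.Injective f → ((Uc g f : Set (Matrix (Fin n) (Fin n) Λ)ˣ) *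
        (Uc g (-f) : Set (Matrix (Fin n) (Fin n) Λ)ˣ)) ^ (2 + L + 1) =
          (SL1 d N (Fin n) Λ : Set (Matrix (Fin n) (Fin n) Λ)ˣ)) := by
  have h0 := unitriangular_width hS hL hn
  have h1 := conj_width (width_of_width h0 f hf (U_le_SL1 d N _) (U_le_SL1 d N _)) g
  refine ⟨sup_eq h1 ?_ ?_, h1, fun hinj => conj_width (width_of_injective h0 f hinj) g⟩
  · rw [← SL1_conj d N g]
    exact Subgroup.map_mono (U_le_SL1 d N _)
  · rw [← SL1_conj d N g]
    exact Subgroup.map_mono (U_le_SL1 d N _)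

end Final

end BWG
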