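import Pool.Agent.BWG.APLat
import Pool.Agent.BWG.NrdG
import Pool.Agent.BW.APAll

/-!
# Bounded width of `SL_n(Λ)` for all pairs of opposite parabolic subgroups, any degree: reductions
-/

set_option autoImplicit false

namespace BWG.AP

open Matrix Pointwise BW
open BW.AP (Sat natCast_smul unimod_of_primes sat_fix sat_inf Rad RadOp UP UM SS Splits f_mul_f
  f_mul_e e_mul_f exists_conj Uc_le_UP Uc_le_UM pow_le swap_le UP_le_Rad UM_le_RadOp RadOp_eq rev
  pow_eq_zero_of_strict vec_e_vec)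

section nrd

variable {Λ : Type*} [Ring Λ] {m : Type*} [Fintype m] [DecidableEq m]

/-- unipotent matrices have reduced norm one -/
theorem mem_SL1_of_pow (d N : ℕ) {X : (Matrix m m Λ)ˣ} {k : ℕ} (h : (X.val - 1) ^ k = 0) :
    X ∈ SL1 d N m Λ := by
  intro p hp hpN ρ
  have := Fact.mk hp
  rcases isEmpty_or_nonempty (m × Fin d) with hm | hm
  · change (Matrix.compRingEquiv m (Fin d) (ZMod p) (X.val.map ρ)).det = 1
    exact Matrix.det_isEmpty
  set Y := Matrix.compRingEquiv m (Fin d) (ZMod p) (X.val.map ρ) with hY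
  have h1 : (Y - 1) ^ k = 0 := by
    have h2 : Y - 1 = Matrix.compRingEquiv m (Fin d) (ZMod p) (ρ.mapMatrix (X.val - 1)) := by
      rw [map_sub, map_sub, map_one, map_one]
      rfl
    rw [h2, ← map_pow, ← map_pow, h, map_zero, map_zero]
  change Y.det = 1
  have h3 : Y ^ p ^ k = 1 := by
    have h4 : Y = 1 + (Y - 1) := by abel
    have h5 : k ≤ p ^ k := (Nat.lt_pow_self hp.one_lt).le
    rw [h4, add_pow_char_pow_of_commute p k (Commute.one_left _), one_pow,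
      pow_eq_zero_of_le h5 h1, add_zero]
  have h6 : Y.det ^ p ^ k = 1 := by rw [← Matrix.det_pow, h3, Matrix.det_one]
  rwa [ZMod.pow_card_pow] at h6

theorem Rad_le_SL1 (d N : ℕ) {k : ℕ} {e : Fin k → Matrix m m Λ}
    (he : CompleteOrthogonalIdempotents e) : Rad e ⊆ SL1 d N m Λ := fun _ hX =>
  mem_SL1_of_pow d N (pow_eq_zero_of_strict he hX)

theorem RadOp_le_SL1 (d N : ℕ) {k : ℕ} {e : Fin k → Matrix m m Λ}
    (he : CompleteOrthogonalIdempotents e) : RadOp e ⊆ SL1 d N m Λ := by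
  rw [RadOp_eq]
  exact Rad_le_SL1 d N (rev he)

theorem pow_le_SL1 (d N : ℕ) {k L : ℕ} {e : Fin k → Matrix m m Λ}
    (he : CompleteOrthogonalIdempotents e) :
    (Rad e * RadOp e) ^ L ⊆ (SL1 d N m Λ : Set (Matrix m m Λ)ˣ) := by
  induction L with
  | zero =>
    rw [pow_zero]
    intro g hg
    rw [Set.mem_one] at hg
    rw [hg]
    exact one_mem (SL1 d N m Λ)
  | succ L ih =>
    rw [pow_succ]
    rintro _ ⟨a, ha, b, ⟨u, hu, v, hv, rfl⟩, rfl⟩
    exact mul_mem (ih ha) (mul_mem (Rad_le_SL1 d N he hu) (RadOp_le_SL1 d N he hv))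

/-- from the inclusion to the two equalities -/
theorem width_eq (d N : ℕ) {k L : ℕ} (hk : 0 < k) {e : Fin k → Matrix m m Λ}
    (he : CompleteOrthogonalIdempotents e)
    (h : (SL1 d N m Λ : Set (Matrix m m Λ)ˣ) ⊆ SS (e ⟨0, hk⟩) ^ L) :
    (Rad e * RadOp e) ^ L = (SL1 d N m Λ : Set (Matrix m m Λ)ˣ) ∧
      Subgroup.closure (Rad e ∪ RadOp e) = SL1 d N m Λ := by
  have h2 : (SL1 d N m Λ : Set (Matrix m m Λ)ˣ) ⊆ (Rad e * RadOp e) ^ L :=
    h.trans (Set.pow_subset_pow_left (Set.mul_subset_mul (UP_le_Rad he hk) (UM_le_RadOp he hk)))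
  have h3 := Set.Subset.antisymm (pow_le_SL1 d N (L := L) he) h2
  refine ⟨h3, le_antisymm ?_ ?_⟩
  · rw [Subgroup.closure_le]
    exact Set.union_subset (Rad_le_SL1 d N he) (RadOp_le_SL1 d N he)
  · intro X hX
    rw [← SetLike.mem_coe, ← h3] at hX
    clear h h2 h3
    induction L generalizing X with
    | zero =>
      rw [pow_zero, Set.mem_one] at hX
      rw [hX]
      exact one_mem _
    | succ L ih =>
      rw [pow_succ] at hX
      obtain ⟨a, ha, b, ⟨u, hu, v, hv, rfl⟩, rfl⟩ := hX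
      exact mul_mem (ih ha) (mul_mem (Subgroup.subset_closure (Or.inl hu))
        (Subgroup.subset_closure (Or.inr hv)))

end nrd

/-! ### fullness -/

/-- what is needed of an idempotent: fullness with `c` terms -/
def Full (c : ℕ) {ν Λ : Type*} [Fintype ν] [Ring Λ] (e : Matrix ν ν Λ) : Prop :=
  ∃ φ w : Fin c → ν → Λ, ∑ t, φ t ⬝ᵥ (e *ᵥ w t) = 1

section full

variable {n S : Type*} [DecidableEq n] [Fintype n] [Ring S]

/-- from scalars to the identity matrix -/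
theorem full_of_scalars {c : ℕ} {e : Matrix n n S} (φ w : Fin c → n → S)
    (h : ∑ t, φ t ⬝ᵥ (e *ᵥ w t) = 1) :
    ∃ a b : n × Fin c → Matrix n n S, ∑ k, a k * e * b k = 1 := by
  refine ⟨fun k => Matrix.vecMulVec (Pi.single k.1 1) (φ k.2),
    fun k => Matrix.vecMulVec (w k.2) (Pi.single k.1 1), ?_⟩
  ext i j
  rw [Matrix.sum_apply, Fintype.sum_prod_type]
  simp only [vec_e_vec]
  have h1 : ∀ l : n, ∑ t : Fin c, (Pi.single l (1 : S) : n → S) i * (φ t ⬝ᵥ (e *ᵥ w t)) *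
      (Pi.single l (1 : S) : n → S) j =
      (Pi.single l (1 : S) : n → S) i * (Pi.single l (1 : S) : n → S) j := by
    intro l
    rw [← Finset.sum_mul, ← Finset.mul_sum, h, mul_one]
  simp only [h1]
  rw [Finset.sum_eq_single i]
  · rw [Pi.single_eq_same, one_mul, Matrix.one_apply]
    by_cases hij : i = j
    · subst hij; simp
    · rw [if_neg hij, Pi.single_eq_of_ne (Ne.symm hij)]
  · intro l _ hl
    rw [Pi.single_eq_of_ne hl.symm, zero_mul]
  · intro hi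
    exact absurd (Finset.mem_univ i) hi

omit [DecidableEq n] in
theorem Full.mono {c c' : ℕ} (hc : c ≤ c') {e : Matrix n n S} (h : Full c e) : Full c' e := by
  obtain ⟨φ, w, h⟩ := h
  refine ⟨fun t => if ht : (t : ℕ) < c then φ ⟨t, ht⟩ else 0,
    fun t => if ht : (t : ℕ) < c then w ⟨t, ht⟩ else 0, ?_⟩
  rw [← h]
  symm
  refine Finset.sum_of_injOn (Fin.castLE hc) (fun a _ b _ hab => Fin.castLE_injective hc hab)
    (fun a _ => Finset.mem_univ _) (fun t _ ht => ?_) (fun t _ => ?_)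
  · have h1 : ¬ (t : ℕ) < c := fun h1 => ht ⟨⟨t, h1⟩, Finset.mem_coe.mpr (Finset.mem_univ _), Fin.ext rfl⟩
    beta_reduce
    rw [dif_neg h1, zero_dotProduct]
  · have h1 : ((Fin.castLE hc t : Fin c') : ℕ) < c := t.2
    beta_reduce
    rw [dif_pos h1, dif_pos h1]
    rfl

end full

/-! ### algebras without zero divisors -/

section domain

variable {d N : ℕ} {R Λ : Type*} [CommRing R] [IsLocalization.Away (N : ℤ) R] [Ring Λ]
  [Algebra R Λ]

/-- without zero divisors: fullness of every idempotent different from zero -/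
theorem full_of_domain (hN : N ≠ 0) (h : IsAzumaya d N R Λ) (hΛ : ∀ x : Λ, x ≠ 0 → nn R x ≠ 0)
    {ν : Type*} [Fintype ν] [DecidableEq ν] {e : Matrix ν ν Λ} (he : e * e = e) (h0 : e ≠ 0) :
    Full 2 e := by
  have hfree := h.free
  obtain ⟨b⟩ := h.exists_basis hN
  have hfin : Module.Finite R Λ := Module.Finite.of_basis b
  obtain ⟨i, j, hij⟩ : ∃ i j, e i j ≠ 0 := by
    by_contra h
    push Not at h
    exact h0 (Matrix.ext h)
  set y : ν → Λ := e *ᵥ Pi.single j 1 with hy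
  have hyi : y i = e i j := by rw [hy, Matrix.mulVec_single_one]; rfl
  have hey : e *ᵥ y = y := by rw [hy, Matrix.mulVec_mulVec, he]
  have hn : nn R (y i) ≠ 0 := hΛ _ (by rw [hyi]; exact hij)
  obtain ⟨w, hw, φ, μ, h⟩ := exists_unimod hN h (sat_fix R hN e) (y := y) hey hn (fun _ => 0)
    (y i) hn
  refine ⟨![φ, Pi.single i μ], ![w, y], ?_⟩
  rw [Fin.sum_univ_two]
  simp only [Matrix.cons_val_zero, Matrix.cons_val_one]
  have hw' : e *ᵥ w = w := hw
  rw [hw', hey, single_dotProduct, ← h]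
  simp only [zero_add]
  rfl

/-- without zero divisors: a free summand -/
theorem splits_of_domain (hN : N ≠ 0) (h : IsAzumaya d N R Λ) (hΛ : ∀ x : Λ, x ≠ 0 → nn R x ≠ 0)
    {ν : Type*} [Fintype ν] [DecidableEq ν] {e : Matrix ν ν Λ} {v y : ν → Λ} {i : ν}
    (hv : e *ᵥ v = v) (hvi : v i ≠ 0) (hy0 : y ≠ 0) (hy : e *ᵥ y = y) (hyi : y i = 0) :
    Splits e := by
  have hfree := h.free
  obtain ⟨b⟩ := h.exists_basis hN
  have hfin : Module.Finite R Λ := Module.Finite.of_basis b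
  obtain ⟨j, hj⟩ : ∃ j, y j ≠ 0 := by
    by_contra h
    push Not at h
    exact hy0 (funext h)
  obtain ⟨w, hw, φ, μ, h⟩ := exists_unimod hN h (sat_inf R hN (sat_fix R hN e) i) (y := y)
    ⟨hy, hyi⟩ (hΛ _ hj) v (v i) (hΛ _ hvi)
  obtain ⟨hw1, hw2⟩ := hw
  have hw1' : e *ᵥ w = w := hw1
  refine ⟨v + w, φ + Pi.single i μ, by rw [Matrix.mulVec_add, hv, hw1'], ?_⟩
  rw [add_dotProduct, single_dotProduct, Pi.add_apply, hw2, add_zero, ← h]
  rfl

/-- the number of linearly independent columns -/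
theorem exists_ker [Module.Free R Λ] [Module.Finite R Λ] [Nontrivial Λ] (hN : N ≠ 0) {n : ℕ}
    (hn : 3 ≤ n) {e : Matrix (Fin n) (Fin n) Λ} (he : e * e = e) (i j : Fin n) :
    (∃ y : Fin n → Λ, y ≠ 0 ∧ e *ᵥ y = y ∧ y i = 0) ∨
      ∃ y : Fin n → Λ, y ≠ 0 ∧ (1 - e) *ᵥ y = y ∧ y j = 0 := by
  by_contra hcon
  push Not at hcon
  obtain ⟨h1, h2⟩ := hcon
  have hD := Loc.isDomain N R hN
  let T : (Fin n → Λ) →ₗ[R] Λ × Λ :=
    { toFun := fun y => ((e *ᵥ y) i, ((1 - e) *ᵥ y) j)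
      map_add' := fun y z => by
        simp only [Matrix.mulVec_add, Pi.add_apply, Prod.mk_add_mk]
      map_smul' := fun r y => by
        simp only [Matrix.mulVec_smul, Pi.smul_apply, RingHom.id_apply, Prod.smul_mk] }
  have hT : Function.Injective T := by
    rw [injective_iff_map_eq_zero]
    intro y hy
    have h3 : (e *ᵥ y) i = 0 := congrArg Prod.fst hy
    have h4 : ((1 - e) *ᵥ y) j = 0 := congrArg Prod.snd hy
    have h5 : e *ᵥ y = 0 := by
      by_contra h6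
      exact h1 _ h6 (by rw [Matrix.mulVec_mulVec, he]) h3
    have h7 : (1 - e) *ᵥ y = 0 := by
      by_contra h6
      exact h2 _ h6 (by rw [Matrix.mulVec_mulVec, f_mul_f he]) h4
    have h8 : y = e *ᵥ y + (1 - e) *ᵥ y := by
      rw [← Matrix.add_mulVec, add_sub_cancel, Matrix.one_mulVec]
    rw [h8, h5, h7, add_zero]
  have h9 := LinearMap.finrank_le_finrank_of_injective hT
  rw [Module.finrank_pi_fintype, Module.finrank_prod] at h9
  simp only [Finset.sum_const, Finset.card_univ, Fintype.card_fin, smul_eq_mul] at h9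
  have h10 : 0 < Module.finrank R Λ := Module.finrank_pos
  nlinarith

/-- without zero divisors: one of two complementary idempotents splits -/
theorem splits_or (hN : N ≠ 0) (h : IsAzumaya d N R Λ) (hΛ : ∀ x : Λ, x ≠ 0 → nn R x ≠ 0)
    {n : ℕ} (hn : 3 ≤ n) {e : Matrix (Fin n) (Fin n) Λ}
    (he : e * e = e) (h0 : e ≠ 0) (h1 : e ≠ 1) : Splits e ∨ Splits (1 - e) := by
  have hfree := h.free
  obtain ⟨b⟩ := h.exists_basis hN
  have hfin : Module.Finite R Λ := Module.Finite.of_basis b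
  have key : ∀ {e : Matrix (Fin n) (Fin n) Λ}, e * e = e → e ≠ 0 →
      ∃ (v : Fin n → Λ) (i : Fin n), e *ᵥ v = v ∧ v i ≠ 0 := by
    intro e he h0
    obtain ⟨i, j, hij⟩ : ∃ i j, e i j ≠ 0 := by
      by_contra h
      push Not at h
      exact h0 (Matrix.ext h)
    refine ⟨e *ᵥ Pi.single j 1, i, by rw [Matrix.mulVec_mulVec, he], ?_⟩
    rw [Matrix.mulVec_single_one]
    exact hij
  obtain ⟨v, i, hv, hvi⟩ := key he h0
  obtain ⟨v', i', hv', hvi'⟩ := key (f_mul_f he) (fun h => h1 (sub_eq_zero.mp h).symm)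
  have hnt : Nontrivial Λ := ⟨v i, 0, hvi⟩
  rcases exists_ker (R := R) hN hn he i i' with ⟨y, hy0, hy, hyi⟩ | ⟨y, hy0, hy, hyi⟩
  · exact Or.inl (splits_of_domain hN h hΛ hv hvi hy0 hy hyi)
  · exact Or.inr (splits_of_domain hN h hΛ hv' hvi' hy0 hy hyi)

end domain

/-! ### the widths -/

section width

variable {d N : ℕ} {Λ : Type} [Ring Λ]

/-- **the width** with respect to `e` if `1 - e` splits off a free summand and `e` is full -/
theorem le_of_splits (hS : Pool.Agent.Helper24.BWR.SR2' Λ) {n c : ℕ} (hn : 3 ≤ n) {L : ℕ}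
    (hL : ∀ (g : (Matrix (Fin n) (Fin n) Λ)ˣ) (f : Fin n → ℤ), (∃ i j, f i ≠ f j) →
      ((Uc g f : Set (Matrix (Fin n) (Fin n) Λ)ˣ) *
        (Uc g (-f) : Set (Matrix (Fin n) (Fin n) Λ)ˣ)) ^ L =
          (SL1 d N (Fin n) Λ : Set (Matrix (Fin n) (Fin n) Λ)ˣ))
    {e : Matrix (Fin n) (Fin n) Λ} (he : e * e = e) (hfull : Full c e) (hsp : Splits (1 - e)) :
    (SL1 d N (Fin n) Λ : Set (Matrix (Fin n) (Fin n) Λ)ˣ) ⊆
      SS e ^ ((1 + 3 * (n * c) + (1 + 3 * (n * c))) * L) := by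
  obtain ⟨v, φ, hv, hφ⟩ := hsp
  obtain ⟨φ', w', h'⟩ := hfull
  obtain ⟨a, b, hab⟩ := full_of_scalars φ' w' h'
  -- the idempotent of rank one
  set φ₁ := φ ᵥ* (1 - e) with hφ₁
  have hφv : φ₁ ⬝ᵥ v = 1 := by rw [hφ₁, ← Matrix.dotProduct_mulVec, hv, hφ]
  set g := Matrix.vecMulVec v φ₁ with hg
  have hev : e *ᵥ v = 0 := by
    have h1 : (1 - e) *ᵥ v = v := hv
    rw [Matrix.sub_mulVec, Matrix.one_mulVec, sub_eq_self] at h1
    exact h1
  have hφe : φ₁ ᵥ* e = 0 := by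
    rw [hφ₁, Matrix.vecMul_vecMul, f_mul_e he, Matrix.vecMul_zero]
  have hgg : g * g = g := by
    rw [hg, Matrix.vecMulVec_mul_vecMulVec, hφv, one_smul]
  have heg : e * g = 0 := by rw [hg, Matrix.mul_vecMulVec, hev, Matrix.zero_vecMulVec]
  have hge : g * e = 0 := by rw [hg, Matrix.vecMulVec_mul, hφe, Matrix.vecMulVec_zero]
  have h01 : (⟨0, by omega⟩ : Fin n) ≠ ⟨1, by omega⟩ := by
    simp [Fin.ext_iff]
  have h02 : (⟨0, by omega⟩ : Fin n) ≠ ⟨2, by omega⟩ := by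
    simp [Fin.ext_iff]
  have h12 : (⟨1, by omega⟩ : Fin n) ≠ ⟨2, by omega⟩ := by
    simp [Fin.ext_iff]
  obtain ⟨h, hh⟩ := exists_conj hS h01 h02 h12 hφv
  have h2 := hL h (fun i => if i = ⟨2, by omega⟩ then 0 else 1)
    ⟨⟨0, by omega⟩, ⟨2, by omega⟩, by simp [h02]⟩
  have h3 : (SL1 d N (Fin n) Λ : Set (Matrix (Fin n) (Fin n) Λ)ˣ) ⊆ (UP g * UM g) ^ L := by
    rw [← h2, hg, hh]
    exact Set.pow_subset_pow_left (Set.mul_subset_mul (Uc_le_UP h _) (Uc_le_UM h _))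
  have h4 := BW.AP.width_of_width he hgg heg hge a b hab h3
  rwa [Fintype.card_prod, Fintype.card_fin, Fintype.card_fin] at h4

/-- **the width** with respect to all systems of idempotents -/
theorem width_of (hS : Pool.Agent.Helper24.BWR.SR2' Λ) {n c : ℕ} (hn : 3 ≤ n) {L : ℕ}
    (hL : ∀ (g : (Matrix (Fin n) (Fin n) Λ)ˣ) (f : Fin n → ℤ), (∃ i j, f i ≠ f j) →
      ((Uc g f : Set (Matrix (Fin n) (Fin n) Λ)ˣ) *
        (Uc g (-f) : Set (Matrix (Fin n) (Fin n) Λ)ˣ)) ^ L =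
          (SL1 d N (Fin n) Λ : Set (Matrix (Fin n) (Fin n) Λ)ˣ))
    (hfull : ∀ e : Matrix (Fin n) (Fin n) Λ, e * e = e → e ≠ 0 → Full c e)
    (hsp : ∀ e : Matrix (Fin n) (Fin n) Λ, e * e = e → e ≠ 0 → e ≠ 1 →
      Splits e ∨ Splits (1 - e))
    {k : ℕ} (hk : 2 ≤ k) (e : Fin k → Matrix (Fin n) (Fin n) Λ)
    (he : CompleteOrthogonalIdempotents e) (he0 : ∀ i, e i ≠ 0) :
    Subgroup.closure (Rad e ∪ RadOp e) = SL1 d N (Fin n) Λ ∧
      (Rad e * RadOp e) ^ (2 * ((1 + 3 * (n * c) + (1 + 3 * (n * c))) * L)) =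
        (SL1 d N (Fin n) Λ : Set (Matrix (Fin n) (Fin n) Λ)ˣ) := by
  have hk0 : 0 < k := by omega
  set e₀ := e ⟨0, hk0⟩ with he₀
  have hid : e₀ * e₀ = e₀ := he.idem _
  have h0 : e₀ ≠ 0 := he0 _
  have h1 : e₀ ≠ 1 := by
    intro h
    have h2 : e₀ * e ⟨1, by omega⟩ = 0 := he.ortho (by
      simp [Fin.ext_iff])
    rw [h, one_mul] at h2
    exact he0 _ h2
  have key : (SL1 d N (Fin n) Λ : Set (Matrix (Fin n) (Fin n) Λ)ˣ) ⊆
      SS e₀ ^ (2 * ((1 + 3 * (n * c) + (1 + 3 * (n * c))) * L)) := by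
    rcases hsp e₀ hid h0 h1 with h | h
    · have h2 := le_of_splits hS hn hL (f_mul_f hid)
        (hfull _ (f_mul_f hid) (fun h => h1 (sub_eq_zero.mp h).symm)) (by rwa [sub_sub_cancel])
      exact h2.trans (swap_le e₀ _)
    · have h2 := le_of_splits hS hn hL hid (hfull _ hid h0) h
      refine h2.trans (pow_le ?_)
      omega
  exact (width_eq d N hk0 he key).symm

end width

end BWG.AP
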