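import Pool.Agent.BWG.Defs

/-!
# The action of the Steinberg group of the completed ring on `E_n(D) / E_n(P)`
-/

set_option autoImplicit false

namespace BWG

open Matrix BW

/-- the input of the action: `P ⊆ D → A ⊇ O` with denominators `T` -/
structure ActData (D A : Type*) [Ring D] [Ring A] where
  j : D →+* A
  PD : Subring D
  O : Subring A
  T : Submonoid D
  T_comm : ∀ t ∈ T, ∀ x : D, t * x = x * t
  T_comm' : ∀ t ∈ T, ∀ ξ : A, j t * ξ = ξ * j t
  T_unit : ∀ t ∈ T, IsUnit t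
  memO : ∀ x : D, j x ∈ O ↔ x ∈ PD
  T_mem : ∀ t ∈ T, t ∈ PD
  den : ∀ ξ : A, ∃ t ∈ T, j t * ξ ∈ O
  dense : ∀ ξ : A, ∀ t ∈ T, ∃ x : D, ∃ η ∈ O, ξ = j x + j t * η

/-- the elementary group with entries in a subring -/
def ES (n : Type*) [DecidableEq n] [Fintype n] {D : Type*} [Ring D] (PD : Subring D) :
    Subgroup (Matrix n n D)ˣ :=
  Subgroup.closure {g | ∃ (a b : n) (h : a ≠ b), ∃ x ∈ PD, g = el a b h x}

/-- the space on which the Steinberg group over `A` acts -/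
abbrev XX (n : Type*) [DecidableEq n] [Fintype n] {D : Type*} [Ring D] (PD : Subring D) : Type _ :=
  (E n D) ⧸ (ES n PD).subgroupOf (E n D)

section elem

variable {n D : Type*} [DecidableEq n] [Fintype n] [Ring D]

theorem el_mul_el {a b : n} (h : a ≠ b) (x y : D) : el a b h x * el a b h y = el a b h (x + y) :=
  (el_add a b h x y).symm

theorem el_zero' {a b : n} (h : a ≠ b) : el a b h (0 : D) = 1 := by
  ext1
  rw [el_val, Matrix.single_zero, add_zero]; rfl

theorem el_comm_rel {a b c : n} (hab : a ≠ b) (hbc : b ≠ c) (hac : a ≠ c) (r s : D) :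
    el a b hab r * el b c hbc s = el a c hac (r * s) * el b c hbc s * el a b hab r := by
  ext1
  simp only [Units.val_mul, el_val]
  have e1 : Matrix.single a b r * Matrix.single b c s = Matrix.single a c (r * s) :=
    Matrix.single_mul_single_same r a b c s
  have e2 : Matrix.single a c (r * s) * Matrix.single b c s = (0 : Matrix n n D) :=
    Matrix.single_mul_single_of_ne _ _ _ _ hbc.symm _
  have e3 : Matrix.single a c (r * s) * Matrix.single a b r = (0 : Matrix n n D) :=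
    Matrix.single_mul_single_of_ne _ _ _ _ hac.symm _
  have e4 : Matrix.single b c s * Matrix.single a b r = (0 : Matrix n n D) :=
    Matrix.single_mul_single_of_ne _ _ _ _ hac.symm _
  calc (1 + Matrix.single a b r) * (1 + Matrix.single b c s)
      = 1 + Matrix.single a b r + Matrix.single b c s + Matrix.single a b r * Matrix.single b c s := by
        noncomm_ring
    _ = 1 + Matrix.single a b r + Matrix.single b c s + Matrix.single a c (r * s) := by rw [e1]
    _ = 1 + Matrix.single a b r + Matrix.single b c s + Matrix.single a c (r * s) +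
        Matrix.single a c (r * s) * Matrix.single b c s + Matrix.single a c (r * s) *
        Matrix.single a b r + Matrix.single b c s * Matrix.single a b r +
        (Matrix.single a c (r * s) * Matrix.single b c s) * Matrix.single a b r := by
        rw [e2, e3, e4, zero_mul]; abel
    _ = _ := by noncomm_ring

theorem el_disj_rel {a b c d : n} (hab : a ≠ b) (hcd : c ≠ d) (hbc : b ≠ c) (had : a ≠ d) (r s : D) :
    el a b hab r * el c d hcd s = el c d hcd s * el a b hab r := by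
  ext1
  simp only [Units.val_mul, el_val]
  have e1 : Matrix.single a b r * Matrix.single c d s = (0 : Matrix n n D) :=
    Matrix.single_mul_single_of_ne _ _ _ _ hbc _
  have e2 : Matrix.single c d s * Matrix.single a b r = (0 : Matrix n n D) :=
    Matrix.single_mul_single_of_ne _ _ _ _ had.symm _
  calc (1 + Matrix.single a b r) * (1 + Matrix.single c d s)
      = 1 + Matrix.single a b r + Matrix.single c d s + Matrix.single a b r * Matrix.single c d s := by
        noncomm_ring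
    _ = 1 + Matrix.single a b r + Matrix.single c d s + Matrix.single c d s * Matrix.single a b r := by
        rw [e1, e2]
    _ = _ := by noncomm_ring

/-- the elementary matrices are Steinberg data -/
def matStb (n D : Type*) [DecidableEq n] [Fintype n] [Ring D] : Stb n D (Matrix n n D)ˣ where
  x a b r := if h : a ≠ b then el a b h r else 1
  add h r s := by rw [dif_pos h, dif_pos h, dif_pos h, el_add]
  comm hab hbc hac r s := by
    rw [dif_pos hab, dif_pos hbc, dif_pos hac, el_comm_rel]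
  disj hab hcd hbc had r s := by
    rw [dif_pos hab, dif_pos hcd, el_disj_rel hab hcd hbc had]

end elem

namespace ActData

variable {D A : Type*} [Ring D] [Ring A] (M : ActData D A)
variable {n : Type*} [DecidableEq n] [Fintype n]

/-- the elementary group with entries in `t P` -/
def ESt (n : Type*) [DecidableEq n] [Fintype n] (t : D) : Subgroup (Matrix n n D)ˣ :=
  Subgroup.closure {g | ∃ (a b : n) (h : a ≠ b), ∃ x ∈ M.PD, g = el a b h (t * x)}

theorem el_mem_ESt {t : D} {a b : n} (h : a ≠ b) {x : D} (hx : x ∈ M.PD) :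
    el a b h (t * x) ∈ M.ESt n t := Subgroup.subset_closure ⟨a, b, h, x, hx, rfl⟩

theorem ESt_le {t : D} (ht : t ∈ M.PD) : M.ESt n t ≤ ES n M.PD := by
  rw [ESt, Subgroup.closure_le]
  rintro _ ⟨a, b, h, x, hx, rfl⟩
  exact Subgroup.subset_closure ⟨a, b, h, _, mul_mem ht hx, rfl⟩

/-- the conjugate of a letter by a non-opposite letter -/
theorem conj_nonopp {t₀ s : D} (ht₀ : t₀ ∈ M.T) (hs : s ∈ M.T) {c e : n} (hce : c ≠ e) {y : D}
    (hy : s * y ∈ M.PD) {a b : n} (hab : a ≠ b) (hne : ¬ (c = b ∧ e = a)) {x : D} (hx : x ∈ M.PD) :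
    (el c e hce y)⁻¹ * el a b hab (t₀ * s * x) * el c e hce y ∈ M.ESt n t₀ := by
  have hsx : s * x ∈ M.PD := mul_mem (M.T_mem s hs) hx
  have key : ∀ z, z = t₀ * (s * x) → el a b hab z ∈ M.ESt n t₀ := by
    rintro z rfl; exact M.el_mem_ESt hab hsx
  have ez : t₀ * s * x = t₀ * (s * x) := mul_assoc _ _ _
  by_cases h1 : e = a
  · subst h1
    have hcb : c ≠ b := fun h => hne ⟨h, rfl⟩
    have e1 := el_comm_rel hce hab hcb (-y) (t₀ * s * x)
    have e2 : (el c e hce y)⁻¹ * el e b hab (t₀ * s * x) * el c e hce y =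
        el c b hcb (t₀ * (s * (-y) * x)) * el e b hab (t₀ * (s * x)) := by
      have e3 : -y * (t₀ * s * x) = t₀ * (s * (-y) * x) := by
        calc -y * (t₀ * s * x) = (-y * (t₀ * s)) * x := (mul_assoc _ _ _).symm
          _ = ((t₀ * s) * -y) * x := by rw [M.T_comm _ (mul_mem ht₀ hs)]
          _ = _ := by simp only [mul_assoc]
      rw [el_inv, e1, e3, ez, mul_assoc, el_mul_el, neg_add_cancel, el_zero', mul_one]
    rw [e2]
    refine mul_mem (M.el_mem_ESt hcb (mul_mem ?_ hx)) (key _ rfl)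
    rw [mul_neg]
    exact neg_mem hy
  · by_cases h2 : c = b
    · subst h2
      have hae : a ≠ e := fun h => h1 h.symm
      have e1 := el_comm_rel hab hce hae (t₀ * s * x) y
      have e2 : (el c e hce y)⁻¹ * el a c hab (t₀ * s * x) * el c e hce y =
          el a e hae (t₀ * (x * (s * y))) * el a c hab (t₀ * (s * x)) := by
        have e3 : t₀ * s * x * y = t₀ * (x * (s * y)) := by
          rw [mul_assoc t₀ s x, M.T_comm s hs x]
          simp only [mul_assoc]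
        have e4 := el_disj_rel hce hae hae.symm hce (-y) (t₀ * s * x * y)
        rw [mul_assoc, e1, ← mul_assoc, ← mul_assoc, el_inv, e4, mul_assoc _ (el c e hce (-y)),
          el_mul_el, neg_add_cancel, el_zero', mul_one, e3, ez]
      rw [e2]
      exact mul_mem (M.el_mem_ESt hae (mul_mem hx hy)) (key _ rfl)
    · have e1 := el_disj_rel hce hab h1 h2 (-y) (t₀ * s * x)
      rw [el_inv, e1, mul_assoc, el_mul_el, neg_add_cancel, el_zero', mul_one]
      exact key _ ez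

theorem exists_third (hn : 3 ≤ Fintype.card n) (a b : n) : ∃ f : n, f ≠ a ∧ f ≠ b := by
  by_contra hcon
  push Not at hcon
  have h1 : (Finset.univ : Finset n) ⊆ {a, b} := fun f _ => by
    rw [Finset.mem_insert, Finset.mem_singleton]
    by_cases h : f = a
    · exact Or.inl h
    · exact Or.inr (hcon f h)
  have h2 := Finset.card_le_card h1
  rw [Finset.card_univ] at h2
  have h3 := Finset.card_le_two (a := a) (b := b)
  omega

theorem conj_mem_of_gens {t : D} {H : Subgroup (Matrix n n D)ˣ} (g : (Matrix n n D)ˣ)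
    (h : ∀ (a b : n) (h : a ≠ b), ∀ x ∈ M.PD, g⁻¹ * el a b h (t * x) * g ∈ H) :
    ∀ γ ∈ M.ESt n t, g⁻¹ * γ * g ∈ H := by
  intro γ hγ
  induction hγ using Subgroup.closure_induction with
  | mem γ hγ =>
    obtain ⟨a, b, h', x, hx, rfl⟩ := hγ
    exact h a b h' x hx
  | one => rw [mul_one, inv_mul_cancel]; exact one_mem _
  | mul γ γ' _ _ h1 h2 =>
    have e : g⁻¹ * (γ * γ') * g = (g⁻¹ * γ * g) * (g⁻¹ * γ' * g) := by group
    rw [e]; exact mul_mem h1 h2
  | inv γ _ h1 =>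
    have e : g⁻¹ * γ⁻¹ * g = (g⁻¹ * γ * g)⁻¹ := by group
    rw [e]; exact inv_mem h1

theorem exists_den (y : D) : ∃ s ∈ M.T, s * y ∈ M.PD := by
  obtain ⟨s, hs, h⟩ := M.den (M.j y)
  exact ⟨s, hs, (M.memO _).mp (by rw [map_mul]; exact h)⟩

theorem dil_gen (hn : 3 ≤ Fintype.card n) {t₀ : D} (ht₀ : t₀ ∈ M.T) {c e : n} (hce : c ≠ e) (y : D) :
    ∃ t ∈ M.T, ∀ γ ∈ M.ESt n t, (el c e hce y)⁻¹ * γ * el c e hce y ∈ M.ESt n t₀ := by
  obtain ⟨s, hs, hsy⟩ := M.exists_den y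
  have hts : t₀ * s ∈ M.T := mul_mem ht₀ hs
  refine ⟨t₀ * s * (t₀ * s), mul_mem hts hts, M.conj_mem_of_gens _ fun a b hab x hx => ?_⟩
  by_cases hop : c = b ∧ e = a
  · obtain ⟨rfl, rfl⟩ := hop
    obtain ⟨f, hfa, hfb⟩ := exists_third hn e c
    have k1 := el_comm_rel hfa.symm hfb hab (t₀ * s) (t₀ * s * x)
    have k2 : el e c hab (t₀ * s * (t₀ * s) * x) =
        el e f hfa.symm (t₀ * s) * el f c hfb (t₀ * s * x) * (el e f hfa.symm (t₀ * s))⁻¹ *
          (el f c hfb (t₀ * s * x))⁻¹ := by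
      rw [k1]
      have : t₀ * s * (t₀ * s) * x = t₀ * s * (t₀ * s * x) := by rw [mul_assoc]
      rw [this]
      group
    have m1 : (el c e hce y)⁻¹ * el e f hfa.symm (t₀ * s) * el c e hce y ∈ M.ESt n t₀ := by
      have := M.conj_nonopp ht₀ hs hce hsy hfa.symm (fun h => hfb h.1.symm) (one_mem M.PD)
      rwa [mul_one] at this
    have m2 : (el c e hce y)⁻¹ * el f c hfb (t₀ * s * x) * el c e hce y ∈ M.ESt n t₀ :=
      M.conj_nonopp ht₀ hs hce hsy hfb (fun h => hfa h.2.symm) hx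
    have e1 : (el c e hce y)⁻¹ * el e c hab (t₀ * s * (t₀ * s) * x) * el c e hce y =
        ((el c e hce y)⁻¹ * el e f hfa.symm (t₀ * s) * el c e hce y) *
        ((el c e hce y)⁻¹ * el f c hfb (t₀ * s * x) * el c e hce y) *
        ((el c e hce y)⁻¹ * el e f hfa.symm (t₀ * s) * el c e hce y)⁻¹ *
        ((el c e hce y)⁻¹ * el f c hfb (t₀ * s * x) * el c e hce y)⁻¹ := by
      rw [k2]; group
    rw [e1]
    exact mul_mem (mul_mem (mul_mem m1 m2) (inv_mem m1)) (inv_mem m2)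
  · have e1 : t₀ * s * (t₀ * s) * x = t₀ * s * (t₀ * s * x) := by rw [mul_assoc]
    rw [e1]
    exact M.conj_nonopp ht₀ hs hce hsy hab hop (mul_mem (M.T_mem _ hts) hx)

theorem dil (hn : 3 ≤ Fintype.card n) {g : (Matrix n n D)ˣ} (hg : g ∈ E n D) :
    ∀ t₀ ∈ M.T, ∃ t ∈ M.T, ∀ γ ∈ M.ESt n t, g⁻¹ * γ * g ∈ M.ESt n t₀ := by
  have hgen : ∀ x ∈ {g : (Matrix n n D)ˣ | ∃ (i j : n) (h : i ≠ j) (x : D), g = el i j h x},
      ∀ t₀ ∈ M.T, ∃ t ∈ M.T, ∀ γ ∈ M.ESt n t, x⁻¹ * γ * x ∈ M.ESt n t₀ := by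
    rintro _ ⟨c, e, h, y, rfl⟩ t₀ ht₀
    exact M.dil_gen hn ht₀ h y
  induction hg using Subgroup.closure_induction'' with
  | mem x hx => exact hgen x hx
  | inv_mem x hx =>
    obtain ⟨c, e, h, y, rfl⟩ := hx
    rw [el_inv]
    exact hgen _ ⟨c, e, h, -y, rfl⟩
  | one => exact fun t₀ ht₀ => ⟨t₀, ht₀, fun γ hγ => by rwa [inv_one, one_mul, mul_one]⟩
  | mul g₁ g₂ _ _ h1 h2 =>
    intro t₀ ht₀
    obtain ⟨t₁, ht₁, k1⟩ := h2 t₀ ht₀
    obtain ⟨t, ht, k2⟩ := h1 t₁ ht₁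
    refine ⟨t, ht, fun γ hγ => ?_⟩
    have e : (g₁ * g₂)⁻¹ * γ * (g₁ * g₂) = g₂⁻¹ * (g₁⁻¹ * γ * g₁) * g₂ := by group
    rw [e]
    exact k1 _ (k2 _ hγ)

/-- `t` is good for the point `p` -/
def Good (p : XX n M.PD) (t : D) : Prop :=
  t ∈ M.T ∧ ∀ g : E n D, (QuotientGroup.mk g : XX n M.PD) = p → ∀ (a b : n) (h : a ≠ b), ∀ x ∈ M.PD,
    g.1⁻¹ * el a b h (t * x) * g.1 ∈ ES n M.PD

theorem mk_eq_iff {g g' : E n D} :
    (QuotientGroup.mk g : XX n M.PD) = QuotientGroup.mk g' ↔ g.1⁻¹ * g'.1 ∈ ES n M.PD := by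
  rw [QuotientGroup.eq, Subgroup.mem_subgroupOf]
  rfl

theorem exists_good (hn : 3 ≤ Fintype.card n) (p : XX n M.PD) : ∃ t, M.Good p t := by
  obtain ⟨g, rfl⟩ := QuotientGroup.mk_surjective p
  obtain ⟨t, ht, h⟩ := M.dil hn g.2 1 (one_mem _)
  refine ⟨t, ht, fun g' hg' a b hab x hx => ?_⟩
  have k1 : g.1⁻¹ * el a b hab (t * x) * g.1 ∈ ES n M.PD :=
    M.ESt_le (one_mem _) (h _ (M.el_mem_ESt hab hx))
  have k2 : g.1⁻¹ * g'.1 ∈ ES n M.PD := M.mk_eq_iff.1 hg'.symm
  have e : g'.1⁻¹ * el a b hab (t * x) * g'.1 =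
      (g.1⁻¹ * g'.1)⁻¹ * (g.1⁻¹ * el a b hab (t * x) * g.1) * (g.1⁻¹ * g'.1) := by group
  rw [e]
  exact mul_mem (mul_mem (inv_mem k2) k1) k2

theorem Good.mul {p : XX n M.PD} {t : D} (h : M.Good p t) {s : D} (hs : s ∈ M.T) :
    M.Good p (t * s) := by
  refine ⟨mul_mem h.1 hs, fun g hg a b hab x hx => ?_⟩
  rw [mul_assoc t s x]
  exact h.2 g hg a b hab _ (mul_mem (M.T_mem s hs) hx)

theorem Good.mul' {p : XX n M.PD} {t : D} (h : M.Good p t) {s : D} (hs : s ∈ M.T) :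
    M.Good p (s * t) := by
  rw [M.T_comm s hs]
  exact h.mul M hs

/-- `x` is close to `ξ` modulo `t` -/
def Near (t : D) (ξ : A) (x : D) : Prop := ∃ η ∈ M.O, ξ = M.j x + M.j t * η

theorem Near.of_mul {t s : D} (hs : s ∈ M.T) {ξ : A} {x : D} (h : M.Near (t * s) ξ x) :
    M.Near t ξ x := by
  obtain ⟨η, hη, h⟩ := h
  refine ⟨M.j s * η, mul_mem ((M.memO s).mpr (M.T_mem s hs)) hη, ?_⟩
  rw [h, map_mul, mul_assoc]

theorem Near.of_mul' {t s : D} (ht : t ∈ M.T) (hs : s ∈ M.T) {ξ : A} {x : D}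
    (h : M.Near (s * t) ξ x) : M.Near t ξ x := by
  rw [M.T_comm s hs] at h
  exact h.of_mul M hs

theorem Near.exists_sub {t : D} (ht : t ∈ M.T) {ξ : A} {x y : D} (hx : M.Near t ξ x)
    (hy : M.Near t ξ y) : ∃ p ∈ M.PD, x = y + t * p := by
  obtain ⟨η, hη, h⟩ := hx
  obtain ⟨η', hη', h'⟩ := hy
  obtain ⟨u, hu⟩ := M.T_unit t ht
  refine ⟨(u⁻¹ : Dˣ) * (x - y), (M.memO _).mp ?_, ?_⟩
  · have e1 : M.j (x - y) = M.j t * (η' - η) := by
      rw [map_sub, mul_sub]
      have e2 : M.j x = ξ - M.j t * η := by rw [h]; abel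
      have e3 : M.j y = ξ - M.j t * η' := by rw [h']; abel
      rw [e2, e3]; abel
    rw [map_mul, e1, ← mul_assoc, ← map_mul, ← hu, Units.inv_mul, map_one, one_mul]
    exact sub_mem hη' hη
  · rw [← mul_assoc, ← hu, Units.mul_inv, one_mul]; abel

theorem mk_eq_of_near {p : XX n M.PD} {t : D} (hp : M.Good p t) {g g' : E n D}
    (hg : (QuotientGroup.mk g : XX n M.PD) = p) (hg' : (QuotientGroup.mk g' : XX n M.PD) = p)
    {a b : n} (h : a ≠ b) {ξ : A} {x y : D} (hx : M.Near t ξ x) (hy : M.Near t ξ y) :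
    (QuotientGroup.mk (⟨el a b h x, el_mem a b h x⟩ * g) : XX n M.PD) =
      QuotientGroup.mk (⟨el a b h y, el_mem a b h y⟩ * g') := by
  obtain ⟨q, hq, rfl⟩ := Near.exists_sub M hp.1 hx hy
  rw [M.mk_eq_iff]
  have k1 : g.1⁻¹ * g'.1 ∈ ES n M.PD := M.mk_eq_iff.1 (hg.trans hg'.symm)
  have k2 := hp.2 g hg a b h _ (neg_mem hq)
  have e : (((⟨el a b h (y + t * q), el_mem a b h _⟩ * g : E n D)).1)⁻¹ *
      ((⟨el a b h y, el_mem a b h y⟩ * g' : E n D)).1 =
      (g.1⁻¹ * el a b h (t * -q) * g.1) * (g.1⁻¹ * g'.1) := by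
    change (el a b h (y + t * q) * g.1)⁻¹ * (el a b h y * g'.1) = _
    rw [_root_.mul_inv_rev, el_inv]
    have e1 : el a b h (-(y + t * q)) * el a b h y = el a b h (t * -q) := by
      rw [el_mul_el]; congr 1; rw [mul_neg]; abel
    calc g.1⁻¹ * el a b h (-(y + t * q)) * (el a b h y * g'.1) =
        g.1⁻¹ * (el a b h (-(y + t * q)) * el a b h y) * g'.1 := by simp only [mul_assoc]
      _ = _ := by rw [e1]; group
  rw [e]
  exact mul_mem k2 k1

/-- the action of a letter -/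
noncomputable def act (hn : 3 ≤ Fintype.card n) (a b : n) (h : a ≠ b) (ξ : A) (p : XX n M.PD) :
    XX n M.PD :=
  QuotientGroup.mk (⟨el a b h (M.dense ξ _ (M.exists_good hn p).choose_spec.1).choose,
    el_mem a b h _⟩ * p.out)

theorem act_spec (hn : 3 ≤ Fintype.card n) {a b : n} (h : a ≠ b) {ξ : A} {g : E n D} {t : D}
    (ht : M.Good (QuotientGroup.mk g : XX n M.PD) t) {x : D} (hx : M.Near t ξ x) :
    M.act hn a b h ξ (QuotientGroup.mk g) = QuotientGroup.mk (⟨el a b h x, el_mem a b h x⟩ * g) := by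
  set p : XX n M.PD := QuotientGroup.mk g with hp
  set t' := (M.exists_good hn p).choose with ht'
  have ht'g : M.Good p t' := (M.exists_good hn p).choose_spec
  set x' := (M.dense ξ _ (M.exists_good hn p).choose_spec.1).choose with hx'
  have hx'n : M.Near t' ξ x' := (M.dense ξ _ (M.exists_good hn p).choose_spec.1).choose_spec
  obtain ⟨z, hz⟩ := M.dense ξ (t * t') (mul_mem ht.1 ht'g.1)
  have hz : M.Near (t * t') ξ z := hz
  have e1 : M.act hn a b h ξ p = QuotientGroup.mk (⟨el a b h x', el_mem a b h x'⟩ * p.out) := rfl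
  rw [e1]
  have k1 := M.mk_eq_of_near ht'g (QuotientGroup.out_eq' p) (QuotientGroup.out_eq' p) h hx'n
    (hz.of_mul' M ht'g.1 ht.1)
  have k2 := M.mk_eq_of_near ht (QuotientGroup.out_eq' p) hp.symm h (hz.of_mul M ht'g.1) hx
  rw [k1, k2]

theorem exists_near (ξ : A) {t : D} (ht : t ∈ M.T) : ∃ x, M.Near t ξ x := M.dense ξ t ht

theorem act_zero (hn : 3 ≤ Fintype.card n) {a b : n} (h : a ≠ b) (p : XX n M.PD) :
    M.act hn a b h 0 p = p := by
  obtain ⟨g, rfl⟩ := QuotientGroup.mk_surjective p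
  obtain ⟨t, ht⟩ := M.exists_good hn (QuotientGroup.mk g : XX n M.PD)
  rw [M.act_spec hn h ht (x := 0) ⟨0, zero_mem _, by simp⟩]
  congr 1
  apply Subtype.ext
  change el a b h 0 * g.1 = g.1
  rw [el_zero', one_mul]

theorem act_add (hn : 3 ≤ Fintype.card n) {a b : n} (h : a ≠ b) (ξ η : A) (p : XX n M.PD) :
    M.act hn a b h (ξ + η) p = M.act hn a b h ξ (M.act hn a b h η p) := by
  obtain ⟨g, rfl⟩ := QuotientGroup.mk_surjective p
  obtain ⟨t, ht⟩ := M.exists_good hn (QuotientGroup.mk g : XX n M.PD)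
  obtain ⟨y, hy⟩ := M.exists_near η ht.1
  rw [M.act_spec hn h ht hy]
  obtain ⟨t', ht'⟩ := M.exists_good hn
    (QuotientGroup.mk (⟨el a b h y, el_mem a b h y⟩ * g) : XX n M.PD)
  obtain ⟨x, hx⟩ := M.exists_near ξ (mul_mem ht.1 ht'.1)
  rw [M.act_spec hn h ht' (hx.of_mul' M ht'.1 ht.1)]
  have hxy : M.Near t (ξ + η) (x + y) := by
    obtain ⟨α, hα, k1⟩ := hx.of_mul M ht'.1
    obtain ⟨β, hβ, k2⟩ := hy
    exact ⟨α + β, add_mem hα hβ, by rw [k1, k2, map_add, mul_add]; abel⟩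
  rw [M.act_spec hn h ht hxy]
  congr 1
  apply Subtype.ext
  change el a b h (x + y) * g.1 = el a b h x * (el a b h y * g.1)
  rw [el_add, mul_assoc]

/-- products of approximations -/
theorem exists_near_mul (r s : A) {t : D} (ht : t ∈ M.T) : ∃ x y, M.Near t r x ∧ M.Near t s y ∧
    M.Near t (r * s) (x * y) := by
  obtain ⟨r₁, hr₁, kr⟩ := M.den r
  obtain ⟨s₁, hs₁, ks⟩ := M.den s
  obtain ⟨x, hx⟩ := M.exists_near r (mul_mem ht hs₁)
  obtain ⟨y, hy⟩ := M.exists_near s (mul_mem ht hr₁)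
  refine ⟨x, y, hx.of_mul M hs₁, hy.of_mul M hr₁, ?_⟩
  obtain ⟨α, hα, k1⟩ := hx
  obtain ⟨β, hβ, k2⟩ := hy
  have o1 : ∀ z ∈ M.T, M.j z ∈ M.O := fun z hz => (M.memO z).mpr (M.T_mem z hz)
  have hxO : M.j r₁ * M.j x ∈ M.O := by
    have e : M.j r₁ * M.j x = M.j r₁ * r - M.j r₁ * (M.j (t * s₁) * α) := by
      rw [k1]; noncomm_ring
    rw [e]
    exact sub_mem kr (mul_mem (o1 _ hr₁) (mul_mem (o1 _ (mul_mem ht hs₁)) hα))
  refine ⟨α * (M.j s₁ * s) + M.j r₁ * M.j x * β, add_mem (mul_mem hα ks) (mul_mem hxO hβ), ?_⟩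
  have e1 : r * s = M.j x * M.j y + M.j x * (M.j (t * r₁) * β) + M.j (t * s₁) * α * s := by
    calc r * s = (M.j x + M.j (t * s₁) * α) * s := by rw [← k1]
      _ = M.j x * s + M.j (t * s₁) * α * s := by rw [add_mul]
      _ = M.j x * (M.j y + M.j (t * r₁) * β) + M.j (t * s₁) * α * s := by rw [← k2]
      _ = _ := by rw [mul_add]
  have e2 : M.j x * (M.j (t * r₁) * β) = M.j t * (M.j r₁ * M.j x * β) := by
    rw [← mul_assoc, ← M.T_comm' _ (mul_mem ht hr₁), map_mul]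
    simp only [mul_assoc]
  have e3 : M.j (t * s₁) * α * s = M.j t * (α * (M.j s₁ * s)) := by
    rw [map_mul, mul_assoc, mul_assoc, ← mul_assoc (M.j s₁), M.T_comm' _ hs₁ α, mul_assoc]
  rw [e1, e2, e3, map_mul, mul_add]
  abel

theorem act_comm (hn : 3 ≤ Fintype.card n) {a b c : n} (hab : a ≠ b) (hbc : b ≠ c) (hac : a ≠ c)
    (r s : A) (p : XX n M.PD) :
    M.act hn a b hab r (M.act hn b c hbc s p) =
      M.act hn a c hac (r * s) (M.act hn b c hbc s (M.act hn a b hab r p)) := by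
  obtain ⟨g, rfl⟩ := QuotientGroup.mk_surjective p
  obtain ⟨t₀, h₀⟩ := M.exists_good hn (QuotientGroup.mk g : XX n M.PD)
  obtain ⟨t₁, h₁⟩ := M.exists_good hn (M.act hn b c hbc s (QuotientGroup.mk g : XX n M.PD))
  obtain ⟨t₂, h₂⟩ := M.exists_good hn (M.act hn a b hab r (QuotientGroup.mk g : XX n M.PD))
  obtain ⟨t₃, h₃⟩ := M.exists_good hn
    (M.act hn b c hbc s (M.act hn a b hab r (QuotientGroup.mk g : XX n M.PD)))
  set t := t₀ * t₁ * t₂ * t₃ with ht
  have ht01 : t₀ * t₁ ∈ M.T := mul_mem h₀.1 h₁.1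
  have ht012 : t₀ * t₁ * t₂ ∈ M.T := mul_mem ht01 h₂.1
  have htT : t ∈ M.T := mul_mem ht012 h₃.1
  have g0 : M.Good (QuotientGroup.mk g : XX n M.PD) t :=
    ((h₀.mul M h₁.1).mul M h₂.1).mul M h₃.1
  have g1 : M.Good (M.act hn b c hbc s (QuotientGroup.mk g : XX n M.PD)) t :=
    ((h₁.mul' M h₀.1).mul M h₂.1).mul M h₃.1
  have g2 : M.Good (M.act hn a b hab r (QuotientGroup.mk g : XX n M.PD)) t :=
    (h₂.mul' M ht01).mul M h₃.1
  have g3 : M.Good (M.act hn b c hbc s (M.act hn a b hab r (QuotientGroup.mk g : XX n M.PD))) t :=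
    h₃.mul' M ht012
  obtain ⟨x, y, hx, hy, hxy⟩ := M.exists_near_mul r s htT
  have e1 := M.act_spec hn hbc g0 hy
  rw [e1] at g1 ⊢
  rw [M.act_spec hn hab g1 hx]
  have e2 := M.act_spec hn hab g0 hx
  rw [e2] at g2 g3 ⊢
  have e3 := M.act_spec hn hbc g2 hy
  rw [e3] at g3 ⊢
  rw [M.act_spec hn hac g3 hxy]
  congr 1
  apply Subtype.ext
  change el a b hab x * (el b c hbc y * g.1) = el a c hac (x * y) * (el b c hbc y * (el a b hab x * g.1))
  rw [← mul_assoc, el_comm_rel hab hbc hac]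
  simp only [mul_assoc]

theorem act_disj (hn : 3 ≤ Fintype.card n) {a b c d : n} (hab : a ≠ b) (hcd : c ≠ d) (hbc : b ≠ c)
    (had : a ≠ d) (r s : A) (p : XX n M.PD) :
    M.act hn a b hab r (M.act hn c d hcd s p) = M.act hn c d hcd s (M.act hn a b hab r p) := by
  obtain ⟨g, rfl⟩ := QuotientGroup.mk_surjective p
  obtain ⟨t₀, h₀⟩ := M.exists_good hn (QuotientGroup.mk g : XX n M.PD)
  obtain ⟨t₁, h₁⟩ := M.exists_good hn (M.act hn c d hcd s (QuotientGroup.mk g : XX n M.PD))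
  obtain ⟨t₂, h₂⟩ := M.exists_good hn (M.act hn a b hab r (QuotientGroup.mk g : XX n M.PD))
  have ht01 : t₀ * t₁ ∈ M.T := mul_mem h₀.1 h₁.1
  have htT : t₀ * t₁ * t₂ ∈ M.T := mul_mem ht01 h₂.1
  have g0 : M.Good (QuotientGroup.mk g : XX n M.PD) (t₀ * t₁ * t₂) :=
    (h₀.mul M h₁.1).mul M h₂.1
  have g1 : M.Good (M.act hn c d hcd s (QuotientGroup.mk g : XX n M.PD)) (t₀ * t₁ * t₂) :=
    (h₁.mul' M h₀.1).mul M h₂.1
  have g2 : M.Good (M.act hn a b hab r (QuotientGroup.mk g : XX n M.PD)) (t₀ * t₁ * t₂) :=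
    h₂.mul' M ht01
  obtain ⟨x, hx⟩ := M.exists_near r htT
  obtain ⟨y, hy⟩ := M.exists_near s htT
  have e1 := M.act_spec hn hcd g0 hy
  rw [e1] at g1 ⊢
  rw [M.act_spec hn hab g1 hx]
  have e2 := M.act_spec hn hab g0 hx
  rw [e2] at g2 ⊢
  rw [M.act_spec hn hcd g2 hy]
  congr 1
  apply Subtype.ext
  change el a b hab x * (el c d hcd y * g.1) = el c d hcd y * (el a b hab x * g.1)
  rw [← mul_assoc, el_disj_rel hab hcd hbc had, mul_assoc]

/-- the permutation defined by a letter -/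
noncomputable def actPerm (hn : 3 ≤ Fintype.card n) (a b : n) (h : a ≠ b) (ξ : A) :
    Equiv.Perm (XX n M.PD) where
  toFun := M.act hn a b h ξ
  invFun := M.act hn a b h (-ξ)
  left_inv p := by rw [← M.act_add, neg_add_cancel, M.act_zero]
  right_inv p := by rw [← M.act_add, add_neg_cancel, M.act_zero]

/-- the Steinberg data of the action -/
noncomputable def stb (hn : 3 ≤ Fintype.card n) : Stb n A (Equiv.Perm (XX n M.PD)) where
  x a b ξ := if h : a ≠ b then M.actPerm hn a b h ξ else 1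
  add h r s := by
    rw [dif_pos h, dif_pos h, dif_pos h]
    exact Equiv.ext fun p => M.act_add hn h r s p
  comm hab hbc hac r s := by
    rw [dif_pos hab, dif_pos hbc, dif_pos hac]
    exact Equiv.ext fun p => M.act_comm hn hab hbc hac r s p
  disj hab hcd hbc had r s := by
    rw [dif_pos hab, dif_pos hcd]
    exact Equiv.ext fun p => M.act_disj hn hab hcd hbc had r s p

theorem exists_stb (hn : 3 ≤ Fintype.card n) :
    ∃ S : Stb n A (Equiv.Perm (XX n M.PD)),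
      (∀ (a b : n) (h : a ≠ b) (x : D) (g : E n D), S.x a b (M.j x) (QuotientGroup.mk g) =
        QuotientGroup.mk (⟨el a b h x, el_mem a b h x⟩ * g)) ∧
      (∀ (a b : n), a ≠ b → ∀ ξ ∈ M.O, S.x a b ξ (QuotientGroup.mk 1) = QuotientGroup.mk 1) ∧
      ∀ p : XX n M.PD, ∃ t ∈ M.T, ∀ (a b : n), a ≠ b → ∀ ξ, ∀ η ∈ M.O,
        S.x a b (ξ + M.j t * η) p = S.x a b ξ p := by
  have hx : ∀ (a b : n) (h : a ≠ b) (ξ : A) (p : XX n M.PD),
      (M.stb hn).x a b ξ p = M.act hn a b h ξ p := by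
    intro a b h ξ p
    change (if h : a ≠ b then M.actPerm hn a b h ξ else 1) p = _
    rw [dif_pos h]; rfl
  refine ⟨M.stb hn, fun a b h x g => ?_, fun a b h ξ hξ => ?_, fun p => ?_⟩
  · rw [hx a b h]
    obtain ⟨t, ht⟩ := M.exists_good hn (QuotientGroup.mk g : XX n M.PD)
    exact M.act_spec hn h ht ⟨0, zero_mem _, by simp⟩
  · rw [hx a b h]
    obtain ⟨t, ht⟩ := M.exists_good hn (QuotientGroup.mk 1 : XX n M.PD)
    obtain ⟨x, hxn⟩ := M.exists_near ξ ht.1
    rw [M.act_spec hn h ht hxn, M.mk_eq_iff]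
    obtain ⟨η, hη, hxe⟩ := hxn
    have hxO : M.j x ∈ M.O := by
      have : M.j x = ξ - M.j t * η := by rw [hxe]; abel
      rw [this]
      exact sub_mem hξ (mul_mem ((M.memO t).mpr (M.T_mem t ht.1)) hη)
    change (el a b h x * 1)⁻¹ * 1 ∈ _
    rw [mul_one, mul_one]
    exact inv_mem (Subgroup.subset_closure ⟨a, b, h, x, (M.memO x).mp hxO, rfl⟩)
  · obtain ⟨g, rfl⟩ := QuotientGroup.mk_surjective p
    obtain ⟨t, ht⟩ := M.exists_good hn (QuotientGroup.mk g : XX n M.PD)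
    refine ⟨t, ht.1, fun a b h ξ η hη => ?_⟩
    obtain ⟨x, α, hα, hxe⟩ := M.exists_near ξ ht.1
    rw [hx a b h, hx a b h, M.act_spec hn h ht (x := x) ⟨α, hα, hxe⟩,
      M.act_spec hn h ht (x := x) ⟨α + η, add_mem hα hη, by rw [hxe, mul_add]; abel⟩]

end ActData

end BWG
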