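import Pool.Agent.BWG.Sym

/-!
# The cell argument: words of the Steinberg data with trivial matrix
-/

set_option autoImplicit false

namespace BWG

open Matrix BW

namespace Stb

/-! ### the consequences of the calculus used in the cell argument -/

section basic

variable {I F G : Type*} [Ring F] [Group G] (S : Stb I F G)

theorem cx_zero {p q : I} (h : p ≠ q) : S.x p q 0 = 1 := by
  have := S.add h 0 0
  rw [add_zero] at this
  exact (left_eq_mul.mp this)

theorem cx_inv {p q : I} (h : p ≠ q) (r : F) : (S.x p q r)⁻¹ = S.x p q (-r) := by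
  rw [inv_eq_iff_mul_eq_one, ← S.add h, add_neg_cancel, S.cx_zero h]

/-- the calculus in the form in which it is used -/
structure Cal (S : Stb I F G) : Prop where
  hx : ∀ {p q p' q' : I}, p ≠ q → p' ≠ q' → ∀ (u : Fˣ) (r : F),
    ∃ r', S.h p q u * S.x p' q' r * (S.h p q u)⁻¹ = S.x p' q' r'
  hmul : ∀ {p q : I}, p ≠ q → ∀ u v, S.h p q (u * v) = S.h p q u * S.h p q v
  hcomm : ∀ {p q p' q' : I}, p ≠ q → p' ≠ q' → ∀ u v,
    S.h p q u * S.h p' q' v = S.h p' q' v * S.h p q u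
  htrans : ∀ {p q r : I}, p ≠ q → q ≠ r → p ≠ r → ∀ u, S.h p q u * S.h q r u = S.h p r u
  hsymm : ∀ {p q : I}, p ≠ q → ∀ u, S.h q p u = (S.h p q u)⁻¹
  rank : ∀ {p q : I}, p ≠ q → ∀ (m r : F) (u : Fˣ), (u : F) = 1 + m * r →
    ∃ r' m', S.x q p m * S.x p q r = S.x p q r' * S.h q p u * S.x q p m'

theorem ch_one (p q : I) : S.h p q 1 = 1 := by
  rw [h, mul_inv_cancel]

theorem Cal.hinv {S : Stb I F G} (C : Cal S) {p q : I} (h : p ≠ q) (u : Fˣ) :
    (S.h p q u)⁻¹ = S.h p q u⁻¹ := by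
  rw [inv_eq_iff_mul_eq_one, ← C.hmul h, mul_inv_cancel, S.ch_one]

end basic

section cell

variable {I F G : Type*} [DecidableEq I] [Fintype I] [CommRing F] [Group G]

/-- the matrices with vanishing entries in row and column `s` outside the diagonal -/
def Bs (s : I) : Subgroup (Matrix I I F)ˣ where
  carrier := {g | (∀ i, i ≠ s → g.val i s = 0 ∧ g.val s i = 0) ∧
    (∀ i, i ≠ s → g⁻¹.val i s = 0 ∧ g⁻¹.val s i = 0)}
  one_mem' := by
    have h : ∀ i, i ≠ s → (1 : Matrix I I F) i s = 0 ∧ (1 : Matrix I I F) s i = 0 :=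
      fun i hi => ⟨Matrix.one_apply_ne hi, Matrix.one_apply_ne hi.symm⟩
    exact ⟨fun i hi => h i hi, fun i hi => by rw [inv_one]; exact h i hi⟩
  mul_mem' := by
    rintro g g' ⟨h1, h2⟩ ⟨h3, h4⟩
    have key : ∀ X Y : Matrix I I F, (∀ i, i ≠ s → X i s = 0 ∧ X s i = 0) →
        (∀ i, i ≠ s → Y i s = 0 ∧ Y s i = 0) → ∀ i, i ≠ s → (X * Y) i s = 0 ∧ (X * Y) s i = 0 := by
      intro X Y hX hY i hi
      rw [Matrix.mul_apply, Matrix.mul_apply]
      refine ⟨Finset.sum_eq_zero fun k _ => ?_, Finset.sum_eq_zero fun k _ => ?_⟩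
      · by_cases hk : k = s
        · rw [hk, (hX i hi).1, zero_mul]
        · rw [(hY k hk).1, mul_zero]
      · by_cases hk : k = s
        · rw [hk, (hY i hi).2, mul_zero]
        · rw [(hX k hk).2, zero_mul]
    refine ⟨fun i hi => ?_, fun i hi => ?_⟩
    · rw [Units.val_mul]; exact key _ _ h1 h3 i hi
    · rw [_root_.mul_inv_rev, Units.val_mul]; exact key _ _ h4 h2 i hi
  inv_mem' := by
    rintro g ⟨h1, h2⟩
    exact ⟨h2, by rw [inv_inv]; exact h1⟩

theorem Bs_mul_left {s : I} {g : (Matrix I I F)ˣ} (hg : g ∈ Bs s) (X : Matrix I I F) (j : I) :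
    (g.val * X) s j = g.val s s * X s j := by
  rw [Matrix.mul_apply, Finset.sum_eq_single s]
  · intro k _ hk; rw [(hg.1 k hk).2, zero_mul]
  · intro h; exact absurd (Finset.mem_univ _) h

theorem Bs_mul_right {s : I} {g : (Matrix I I F)ˣ} (hg : g ∈ Bs s) (X : Matrix I I F) (j : I) :
    (X * g.val) j s = X j s * g.val s s := by
  rw [Matrix.mul_apply, Finset.sum_eq_single s]
  · intro k _ hk; rw [(hg.1 k hk).1, mul_zero]
  · intro h; exact absurd (Finset.mem_univ _) h

theorem Bs_unit {s : I} {g : (Matrix I I F)ˣ} (hg : g ∈ Bs s) : IsUnit (g.val s s) := by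
  have h : (g.val * g⁻¹.val) s s = 1 := by
    rw [← Units.val_mul, mul_inv_cancel, Units.val_one, Matrix.one_apply_eq]
  rw [Bs_mul_left hg] at h
  exact IsUnit.of_mul_eq_one _ h

theorem el_mem_Bs {s p q : I} (hpq : p ≠ q) (hp : p ≠ s) (hq : q ≠ s) (r : F) :
    el p q hpq r ∈ (Bs s : Subgroup (Matrix I I F)ˣ) := by
  have key : ∀ r : F, ∀ i, i ≠ s → (el p q hpq r).val i s = 0 ∧ (el p q hpq r).val s i = 0 := by
    intro r i hi
    rw [el_val, Matrix.add_apply, Matrix.add_apply, Matrix.one_apply_ne hi,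
      Matrix.one_apply_ne hi.symm, Matrix.single_apply, Matrix.single_apply]
    constructor
    · rw [if_neg (fun h => hq h.2), add_zero]
    · rw [if_neg (fun h => hp h.1), add_zero]
  exact ⟨key r, by rw [el_inv]; exact key (-r)⟩

theorem w_val {p q : I} (h : p ≠ q) (u v : F) (huv : u * v = 1) :
    (el p q h u * el q p h.symm (-v) * el p q h u).val =
      1 - Matrix.single p p 1 - Matrix.single q q 1 + Matrix.single p q u - Matrix.single q p v := by
  have hvu : v * u = 1 := by rw [mul_comm, huv]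
  simp only [Units.val_mul, el_val]
  simp only [mul_add, add_mul, mul_one, one_mul, Matrix.single_mul_single_same,
    Matrix.single_mul_single_of_ne _ _ _ _ h.symm,
    mul_neg, neg_mul, huv, hvu, ← Matrix.single_neg, add_zero]
  abel

theorem mul_el_apply {a b : I} (h : a ≠ b) (r : F) (X : Matrix I I F) (i j : I) :
    (X * (el a b h r).val) i j = X i j + if j = b then X i a * r else 0 := by
  rw [el_val, mul_add, mul_one, Matrix.add_apply]
  congr 1
  split_ifs with hj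
  · rw [hj, Matrix.mul_single_apply_same]
  · exact Matrix.mul_single_apply_of_ne _ _ _ _ _ hj _

theorem el_mul_apply {a b : I} (h : a ≠ b) (r : F) (X : Matrix I I F) (i j : I) :
    ((el a b h r).val * X) i j = X i j + if i = a then r * X b j else 0 := by
  rw [el_val, add_mul, one_mul, Matrix.add_apply]
  congr 1
  split_ifs with hi
  · rw [hi, Matrix.single_mul_apply_same]
  · exact Matrix.single_mul_apply_of_ne _ _ _ _ _ hi _

variable (S : Stb I F G)

/-- the group generated by the letters with both indices in `Y` and the torus -/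
def PY (Y : Finset I) : Subgroup G :=
  Subgroup.closure ({g | ∃ p q : I, p ∈ Y ∧ q ∈ Y ∧ p ≠ q ∧ ∃ r, g = S.x p q r} ∪
    {g | ∃ p q : I, p ≠ q ∧ ∃ u, g = S.h p q u})

/-- the column group -/
def Vp (s : I) (Y : Finset I) : Subgroup G := Subgroup.closure {g | ∃ p ∈ Y, ∃ r, g = S.x p s r}

/-- the row group -/
def Vm (s : I) (Y : Finset I) : Subgroup G := Subgroup.closure {g | ∃ p ∈ Y, ∃ r, g = S.x s p r}

/-- the torus -/
def Tor (o : I) (Z : Finset I) : Subgroup G :=
  Subgroup.closure {g | ∃ p ∈ Z, ∃ u : Fˣ, g = S.h p o u}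

/-- the big cell -/
def Rel (s : I) (Y : Finset I) : Set G :=
  {ω | ∃ v ∈ Vp S s Y, ∃ g ∈ PY S Y, ∃ w ∈ Vm S s Y, ω = v * g * w}

variable {S}

theorem x_mem_PY {Y : Finset I} {p q : I} (hp : p ∈ Y) (hq : q ∈ Y) (h : p ≠ q) (r : F) :
    S.x p q r ∈ S.PY Y := Subgroup.subset_closure (Or.inl ⟨p, q, hp, hq, h, r, rfl⟩)

theorem h_mem_PY {Y : Finset I} {p q : I} (h : p ≠ q) (u : Fˣ) :
    S.h p q u ∈ S.PY Y := Subgroup.subset_closure (Or.inr ⟨p, q, h, u, rfl⟩)

theorem x_mem_Vp {s : I} {Y : Finset I} {p : I} (hp : p ∈ Y) (r : F) : S.x p s r ∈ S.Vp s Y :=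
  Subgroup.subset_closure ⟨p, hp, r, rfl⟩

theorem x_mem_Vm {s : I} {Y : Finset I} {p : I} (hp : p ∈ Y) (r : F) : S.x s p r ∈ S.Vm s Y :=
  Subgroup.subset_closure ⟨p, hp, r, rfl⟩

theorem PY_ind (C : S.Cal) {Y : Finset I} {P : G → Prop}
    (hx : ∀ a ∈ Y, ∀ b ∈ Y, a ≠ b → ∀ r, P (S.x a b r))
    (hh : ∀ a b : I, a ≠ b → ∀ u, P (S.h a b u)) (h1 : P 1)
    (hm : ∀ g g', g ∈ S.PY Y → g' ∈ S.PY Y → P g → P g' → P (g * g')) :
    ∀ g ∈ S.PY Y, P g := by
  intro g hg
  refine Subgroup.closure_induction'' (p := fun g _ => P g) ?_ ?_ h1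
    (fun x y hx hy h h' => hm x y hx hy h h') hg
  · rintro x (⟨p, q, hp, hq, h, r, rfl⟩ | ⟨p, q, h, u, rfl⟩)
    · exact hx p hp q hq h r
    · exact hh p q h u
  · rintro x (⟨p, q, hp, hq, h, r, rfl⟩ | ⟨p, q, h, u, rfl⟩)
    · rw [S.cx_inv h]; exact hx p hp q hq h _
    · rw [C.hinv h]; exact hh p q h _

theorem Vp_ind {s : I} {Y : Finset I} (hs : s ∉ Y) {P : G → Prop}
    (hx : ∀ a ∈ Y, ∀ r, P (S.x a s r)) (h1 : P 1)
    (hm : ∀ g g', g ∈ S.Vp s Y → g' ∈ S.Vp s Y → P g → P g' → P (g * g')) :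
    ∀ g ∈ S.Vp s Y, P g := by
  intro g hg
  refine Subgroup.closure_induction'' (p := fun g _ => P g) ?_ ?_ h1
    (fun x y hx hy h h' => hm x y hx hy h h') hg
  · rintro x ⟨p, hp, r, rfl⟩
    exact hx p hp r
  · rintro x ⟨p, hp, r, rfl⟩
    rw [S.cx_inv (ne_of_mem_of_not_mem hp hs)]; exact hx p hp _

theorem Vm_ind {s : I} {Y : Finset I} (hs : s ∉ Y) {P : G → Prop}
    (hx : ∀ a ∈ Y, ∀ r, P (S.x s a r)) (h1 : P 1)
    (hm : ∀ g g', g ∈ S.Vm s Y → g' ∈ S.Vm s Y → P g → P g' → P (g * g')) :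
    ∀ g ∈ S.Vm s Y, P g := by
  intro g hg
  refine Subgroup.closure_induction'' (p := fun g _ => P g) ?_ ?_ h1
    (fun x y hx hy h h' => hm x y hx hy h h') hg
  · rintro x ⟨p, hp, r, rfl⟩
    exact hx p hp r
  · rintro x ⟨p, hp, r, rfl⟩
    rw [S.cx_inv (ne_of_mem_of_not_mem hp hs).symm]; exact hx p hp _

theorem Vp_mono {s : I} {Y Y' : Finset I} (h : Y ⊆ Y') : S.Vp s Y ≤ S.Vp s Y' :=
  Subgroup.closure_mono (by rintro _ ⟨p, hp, r, rfl⟩; exact ⟨p, h hp, r, rfl⟩)

theorem Vm_mono {s : I} {Y Y' : Finset I} (h : Y ⊆ Y') : S.Vm s Y ≤ S.Vm s Y' :=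
  Subgroup.closure_mono (by rintro _ ⟨p, hp, r, rfl⟩; exact ⟨p, h hp, r, rfl⟩)

theorem PY_mono {Y Y' : Finset I} (h : Y ⊆ Y') : S.PY Y ≤ S.PY Y' :=
  Subgroup.closure_mono (by
    rintro _ (⟨p, q, hp, hq, hpq, r, rfl⟩ | ⟨p, q, hpq, u, rfl⟩)
    · exact Or.inl ⟨p, q, h hp, h hq, hpq, r, rfl⟩
    · exact Or.inr ⟨p, q, hpq, u, rfl⟩)

/-! ### commutation -/

theorem Vp_comm {s : I} {Y : Finset I} (hs : s ∉ Y) {p : I} (hp : p ≠ s) (m : F) :
    ∀ v ∈ S.Vp s Y, S.x p s m * v = v * S.x p s m :=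
  Vp_ind hs (fun a ha r => S.disj hp (ne_of_mem_of_not_mem ha hs)
    (ne_of_mem_of_not_mem ha hs).symm hp m r)
    (by rw [mul_one, one_mul]) (fun g g' _ _ h h' => by rw [← mul_assoc, h, mul_assoc, h', mul_assoc])

theorem Vm_comm {s : I} {Y : Finset I} (hs : s ∉ Y) {p : I} (hp : s ≠ p) (m : F) :
    ∀ v ∈ S.Vm s Y, S.x s p m * v = v * S.x s p m :=
  Vm_ind hs (fun a ha r => S.disj hp (ne_of_mem_of_not_mem ha hs).symm hp.symm
    (ne_of_mem_of_not_mem ha hs).symm m r)
    (by rw [mul_one, one_mul]) (fun g g' _ _ h h' => by rw [← mul_assoc, h, mul_assoc, h', mul_assoc])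

/-- splitting off one coordinate -/
theorem Vp_factor {s : I} {Y : Finset I} (hs : s ∉ Y) {p : I} (hp : p ∈ Y) :
    ∀ v ∈ S.Vp s Y, ∃ v' ∈ S.Vp s (Y.erase p), ∃ m, v = v' * S.x p s m := by
  have hps : p ≠ s := ne_of_mem_of_not_mem hp hs
  refine Vp_ind hs (fun a ha r => ?_) ⟨1, one_mem _, 0, by rw [S.cx_zero hps, mul_one]⟩ ?_
  · by_cases h : a = p
    · exact ⟨1, one_mem _, r, by rw [h, one_mul]⟩
    · exact ⟨_, x_mem_Vp (Finset.mem_erase.mpr ⟨h, ha⟩) r, 0, by rw [S.cx_zero hps, mul_one]⟩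
  · rintro g g' _ _ ⟨v, hv, m, rfl⟩ ⟨v', hv', m', rfl⟩
    refine ⟨v * v', mul_mem hv hv', m + m', ?_⟩
    rw [S.add hps, mul_assoc, ← mul_assoc (S.x p s m) v',
      Vp_comm (fun h => hs (Finset.mem_of_mem_erase h)) hps m v' hv']
    simp only [mul_assoc]

theorem Vm_factor {s : I} {Y : Finset I} (hs : s ∉ Y) {p : I} (hp : p ∈ Y) :
    ∀ v ∈ S.Vm s Y, ∃ v' ∈ S.Vm s (Y.erase p), ∃ m, v = v' * S.x s p m := by
  have hps : s ≠ p := (ne_of_mem_of_not_mem hp hs).symm
  refine Vm_ind hs (fun a ha r => ?_) ⟨1, one_mem _, 0, by rw [S.cx_zero hps, mul_one]⟩ ?_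
  · by_cases h : a = p
    · exact ⟨1, one_mem _, r, by rw [h, one_mul]⟩
    · exact ⟨_, x_mem_Vm (Finset.mem_erase.mpr ⟨h, ha⟩) r, 0, by rw [S.cx_zero hps, mul_one]⟩
  · rintro g g' _ _ ⟨v, hv, m, rfl⟩ ⟨v', hv', m', rfl⟩
    refine ⟨v * v', mul_mem hv hv', m + m', ?_⟩
    rw [S.add hps, mul_assoc, ← mul_assoc (S.x s p m) v',
      Vm_comm (fun h => hs (Finset.mem_of_mem_erase h)) hps m v' hv']
    simp only [mul_assoc]

/-! ### normalization -/

theorem PY_norm_Vp (C : S.Cal) {s : I} {Y : Finset I} (hs : s ∉ Y) :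
    ∀ g ∈ S.PY Y, ∀ v ∈ S.Vp s Y, g * v * g⁻¹ ∈ S.Vp s Y := by
  have hne : ∀ a ∈ Y, a ≠ s := fun a ha => ne_of_mem_of_not_mem ha hs
  refine PY_ind C (fun a ha b hb hab r => ?_) (fun a b hab u => ?_) (fun v hv => ?_) ?_
  · refine Vp_ind hs (fun t ht r' => ?_) (by rw [mul_one, mul_inv_cancel]; exact one_mem _) ?_
    · by_cases h : t = b
      · rw [h, S.comm hab (hne b hb) (hne a ha), mul_assoc, mul_inv_cancel, mul_one]
        exact mul_mem (x_mem_Vp ha _) (x_mem_Vp hb _)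
      · rw [S.disj hab (hne t ht) (fun h' => h h'.symm) (hne a ha), mul_assoc, mul_inv_cancel,
          mul_one]
        exact x_mem_Vp ht _
    · intro g g' _ _ h h'
      have := mul_mem h h'
      simpa [mul_assoc] using this
  · refine Vp_ind hs (fun t ht r' => ?_) (by rw [mul_one, mul_inv_cancel]; exact one_mem _) ?_
    · obtain ⟨r'', h⟩ := C.hx hab (hne t ht) u r'
      rw [h]; exact x_mem_Vp ht _
    · intro g g' _ _ h h'
      have := mul_mem h h'
      simpa [mul_assoc] using this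
  · rw [one_mul, inv_one, mul_one]; exact hv
  · intro g g' _ _ h h' v hv
    have := h _ (h' v hv)
    simpa [mul_assoc] using this

theorem PY_norm_Vm (C : S.Cal) {s : I} {Y : Finset I} (hs : s ∉ Y) :
    ∀ g ∈ S.PY Y, ∀ v ∈ S.Vm s Y, g * v * g⁻¹ ∈ S.Vm s Y := by
  have hne : ∀ a ∈ Y, s ≠ a := fun a ha => (ne_of_mem_of_not_mem ha hs).symm
  refine PY_ind C (fun a ha b hb hab r => ?_) (fun a b hab u => ?_) (fun v hv => ?_) ?_
  · refine Vm_ind hs (fun t ht r' => ?_) (by rw [mul_one, mul_inv_cancel]; exact one_mem _) ?_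
    · by_cases h : t = a
      · have e : S.x a b r * S.x s a r' * (S.x a b r)⁻¹ = (S.x s b (r' * r))⁻¹ * S.x s a r' := by
          rw [mul_inv_eq_iff_eq_mul, mul_assoc, S.comm (hne a ha) hab (hne b hb) r' r]
          rw [← mul_assoc, ← mul_assoc, inv_mul_cancel, one_mul]
        rw [h, e]
        exact mul_mem (inv_mem (x_mem_Vm hb _)) (x_mem_Vm ha _)
      · rw [S.disj hab (hne t ht) (hne b hb).symm (fun h' => h h'.symm), mul_assoc, mul_inv_cancel,
          mul_one]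
        exact x_mem_Vm ht _
    · intro g g' _ _ h h'
      have := mul_mem h h'
      simpa [mul_assoc] using this
  · refine Vm_ind hs (fun t ht r' => ?_) (by rw [mul_one, mul_inv_cancel]; exact one_mem _) ?_
    · obtain ⟨r'', h⟩ := C.hx hab (hne t ht) u r'
      rw [h]; exact x_mem_Vm ht _
    · intro g g' _ _ h h'
      have := mul_mem h h'
      simpa [mul_assoc] using this
  · rw [one_mul, inv_one, mul_one]; exact hv
  · intro g g' _ _ h h' v hv
    have := h _ (h' v hv)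
    simpa [mul_assoc] using this

/-! ### the matrices -/

section theta

variable (θ : G →* (Matrix I I F)ˣ)
  (hθ : ∀ (p q : I) (h : p ≠ q) (r : F), θ (S.x p q r) = el p q h r)
include hθ

theorem θ_w {p q : I} (h : p ≠ q) (u : Fˣ) : θ (S.w p q u) =
    el p q h (u : F) * el q p h.symm (-((u⁻¹ : Fˣ) : F)) * el p q h (u : F) := by
  rw [Stb.w, map_mul, map_mul, hθ _ _ h, hθ _ _ h.symm]

theorem θ_h_val {p q : I} (h : p ≠ q) (u : Fˣ) : (θ (S.h p q u)).val =
    1 - Matrix.single p p 1 - Matrix.single q q 1 + Matrix.single p p (u : F) +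
      Matrix.single q q ((u⁻¹ : Fˣ) : F) := by
  have e : (θ (S.w p q 1))⁻¹ = el p q h (-1) * el q p h.symm (-(-1)) * el p q h (-1) := by
    rw [θ_w θ hθ h, _root_.mul_inv_rev, _root_.mul_inv_rev, el_inv, el_inv]
    simp [mul_assoc]
  rw [Stb.h, map_mul, map_inv, e, Units.val_mul, θ_w θ hθ h, w_val h _ _ (by simp),
    w_val h _ _ (by simp)]
  simp only [sub_mul, mul_sub, add_mul, mul_add, one_mul, mul_one, Matrix.single_mul_single_same,
    Matrix.single_mul_single_of_ne _ _ _ _ h, Matrix.single_mul_single_of_ne _ _ _ _ h.symm,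
    mul_neg, ← Matrix.single_neg]
  abel

theorem θ_h_apply {p q : I} (h : p ≠ q) (u : Fˣ) (i j : I) : (θ (S.h p q u)).val i j =
    if i = j then (if i = p then (u : F) else if i = q then ((u⁻¹ : Fˣ) : F) else 1) else 0 := by
  rw [θ_h_val θ hθ h]
  simp only [Matrix.add_apply, Matrix.sub_apply, Matrix.one_apply, Matrix.single_apply]
  by_cases hij : i = j
  · subst hij
    by_cases hp : i = p
    · subst hp; simp [h.symm]
    · by_cases hq : i = q
      · subst hq; simp [h, h.symm]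
      · simp [hp, hq, Ne.symm hp, Ne.symm hq]
  · have h1 : ¬ (p = i ∧ p = j) := fun hh => hij (hh.1.symm.trans hh.2)
    have h2 : ¬ (q = i ∧ q = j) := fun hh => hij (hh.1.symm.trans hh.2)
    simp [hij, h1, h2]

theorem θ_h_mem (C : S.Cal) {p q : I} (h : p ≠ q) (u : Fˣ) (s : I) : θ (S.h p q u) ∈ Bs s := by
  have key : ∀ u : Fˣ, ∀ i, i ≠ s → (θ (S.h p q u)).val i s = 0 ∧ (θ (S.h p q u)).val s i = 0 := by
    intro u i hi
    rw [θ_h_apply θ hθ h, θ_h_apply θ hθ h, if_neg hi, if_neg hi.symm]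
    exact ⟨rfl, rfl⟩
  refine ⟨key u, ?_⟩
  rw [← map_inv, C.hinv h]
  exact key u⁻¹

theorem θ_PY (C : S.Cal) {Y : Finset I} {s : I} (hs : s ∉ Y) : ∀ g ∈ S.PY Y, θ g ∈ Bs s := by
  refine PY_ind C (fun a ha b hb hab r => ?_) (fun a b hab u => θ_h_mem θ hθ C hab u s) ?_ ?_
  · rw [hθ _ _ hab]
    exact el_mem_Bs hab (ne_of_mem_of_not_mem ha hs) (ne_of_mem_of_not_mem hb hs) r
  · rw [map_one]; exact one_mem _
  · intro g g' _ _ h h'
    rw [map_mul]; exact mul_mem h h'

theorem θ_Vm {Y : Finset I} {s : I} (hs : s ∉ Y) : ∀ w ∈ S.Vm s Y,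
    (∀ i, i ≠ s → ∀ j, (θ w).val i j = (1 : Matrix I I F) i j) ∧ (θ w).val s s = 1 ∧
      ∀ j, j ∉ Y → j ≠ s → (θ w).val s j = 0 := by
  refine Vm_ind hs (fun a ha r => ?_) ?_ ?_
  · have has : s ≠ a := (ne_of_mem_of_not_mem ha hs).symm
    rw [hθ _ _ has, el_val]
    refine ⟨fun i hi j => ?_, ?_, fun j hj hjs => ?_⟩
    · rw [Matrix.add_apply, Matrix.single_apply, if_neg (fun h => hi h.1.symm), add_zero]
    · rw [Matrix.add_apply, Matrix.single_apply, if_neg (fun h => has h.2.symm), add_zero,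
        Matrix.one_apply_eq]
    · rw [Matrix.add_apply, Matrix.single_apply,
        if_neg (fun h : s = s ∧ a = j => hj (h.2 ▸ ha)), add_zero,
        Matrix.one_apply_ne hjs.symm]
  · rw [map_one, Units.val_one]
    exact ⟨fun i _ j => rfl, Matrix.one_apply_eq _, fun j _ hj => Matrix.one_apply_ne hj.symm⟩
  · rintro g g' _ _ ⟨h1, h2, h3⟩ ⟨h1', h2', h3'⟩
    have row : ∀ j, (θ (g * g')).val s j = (θ g').val s j + if j = s then 0 else (θ g).val s j := by
      intro j
      rw [map_mul, Units.val_mul, Matrix.mul_apply, ← Finset.add_sum_erase _ _ (Finset.mem_univ s),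
        h2, one_mul]
      congr 1
      rw [Finset.sum_congr rfl (fun k hk => by rw [h1' k (Finset.ne_of_mem_erase hk) j])]
      split_ifs with hj
      · subst hj
        exact Finset.sum_eq_zero fun k hk => by
          rw [Matrix.one_apply_ne (Finset.ne_of_mem_erase hk), mul_zero]
      · rw [Finset.sum_eq_single j]
        · rw [Matrix.one_apply_eq, mul_one]
        · intro k _ hk; rw [Matrix.one_apply_ne hk, mul_zero]
        · intro h; exact absurd (Finset.mem_erase.mpr ⟨hj, Finset.mem_univ j⟩) h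
    refine ⟨fun i hi j => ?_, ?_, fun j hj hjs => ?_⟩
    · rw [map_mul, Units.val_mul, Matrix.mul_apply, Finset.sum_eq_single i]
      · rw [h1 i hi, h1' i hi, Matrix.one_apply_eq, one_mul]
      · intro k _ hk; rw [h1 i hi, Matrix.one_apply_ne hk.symm, zero_mul]
      · intro h; exact absurd (Finset.mem_univ _) h
    · rw [row, h2', if_pos rfl, add_zero]
    · rw [row, h3' j hj hjs, if_neg hjs, h3 j hj hjs, add_zero]

theorem θ_Vp {Y : Finset I} {s : I} (hs : s ∉ Y) : ∀ w ∈ S.Vp s Y,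
    (∀ j, j ≠ s → ∀ i, (θ w).val i j = (1 : Matrix I I F) i j) ∧ (θ w).val s s = 1 ∧
      ∀ i, i ∉ Y → i ≠ s → (θ w).val i s = 0 := by
  refine Vp_ind hs (fun a ha r => ?_) ?_ ?_
  · have has : a ≠ s := ne_of_mem_of_not_mem ha hs
    rw [hθ _ _ has, el_val]
    refine ⟨fun j hj i => ?_, ?_, fun i hi his => ?_⟩
    · rw [Matrix.add_apply, Matrix.single_apply, if_neg (fun h => hj h.2.symm), add_zero]
    · rw [Matrix.add_apply, Matrix.single_apply, if_neg (fun h => has h.1), add_zero,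
        Matrix.one_apply_eq]
    · rw [Matrix.add_apply, Matrix.single_apply,
        if_neg (fun h : a = i ∧ s = s => hi (h.1 ▸ ha)), add_zero,
        Matrix.one_apply_ne his]
  · rw [map_one, Units.val_one]
    exact ⟨fun j _ i => rfl, Matrix.one_apply_eq _, fun j _ hj => Matrix.one_apply_ne hj⟩
  · rintro g g' _ _ ⟨h1, h2, h3⟩ ⟨h1', h2', h3'⟩
    have col : ∀ i, (θ (g * g')).val i s = (θ g).val i s + if i = s then 0 else (θ g').val i s := by
      intro i
      rw [map_mul, Units.val_mul, Matrix.mul_apply, ← Finset.add_sum_erase _ _ (Finset.mem_univ s),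
        h2', mul_one]
      congr 1
      rw [Finset.sum_congr rfl (fun k hk => by rw [h1 k (Finset.ne_of_mem_erase hk) i])]
      split_ifs with hj
      · subst hj
        exact Finset.sum_eq_zero fun k hk => by
          rw [Matrix.one_apply_ne (Finset.ne_of_mem_erase hk).symm, zero_mul]
      · rw [Finset.sum_eq_single i]
        · rw [Matrix.one_apply_eq, one_mul]
        · intro k _ hk; rw [Matrix.one_apply_ne hk.symm, zero_mul]
        · intro h; exact absurd (Finset.mem_erase.mpr ⟨hj, Finset.mem_univ i⟩) h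
    refine ⟨fun j hj i => ?_, ?_, fun i hi his => ?_⟩
    · rw [map_mul, Units.val_mul, Matrix.mul_apply, Finset.sum_eq_single j]
      · rw [h1 j hj, h1' j hj, Matrix.one_apply_eq, mul_one]
      · intro k _ hk; rw [h1' j hj, Matrix.one_apply_ne hk, mul_zero]
      · intro h; exact absurd (Finset.mem_univ _) h
    · rw [col, h2, if_pos rfl, add_zero]
    · rw [col, h3 i hi his, if_neg his, h3' i hi his, add_zero]

theorem Vm_inj (s : I) (Y : Finset I) (hs : s ∉ Y) : ∀ w ∈ S.Vm s Y,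
    (∀ j, j ≠ s → (θ w).val s j = 0) → w = 1 := by
  induction Y using Finset.induction_on with
  | empty =>
    intro w hw _
    have : S.Vm s ∅ = ⊥ := by
      rw [Vm, Subgroup.closure_eq_bot_iff]
      rintro x ⟨p, hp, _⟩
      exact absurd hp (Finset.notMem_empty p)
    rw [this] at hw
    exact Subgroup.mem_bot.mp hw
  | insert p Y hp ih =>
    intro w hw h
    have hs' : s ∉ Y := fun h' => hs (Finset.mem_insert_of_mem h')
    have hsp : s ≠ p := fun h' => hs (h' ▸ Finset.mem_insert_self _ _)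
    obtain ⟨w', hw', m, rfl⟩ := Vm_factor hs (Finset.mem_insert_self p Y) w hw
    rw [Finset.erase_insert hp] at hw'
    obtain ⟨-, h2, h3⟩ := θ_Vm θ hθ hs' w' hw'
    have e : ∀ j, (θ (w' * S.x s p m)).val s j = (θ w').val s j + if j = p then m else 0 := by
      intro j
      rw [map_mul, Units.val_mul, hθ _ _ hsp, mul_el_apply, h2, one_mul]
    have hm : m = 0 := by
      have := h p hsp.symm
      rwa [e, h3 p hp hsp.symm, if_pos rfl, zero_add] at this
    subst hm
    have : w' = 1 := ih hs' w' hw' (fun j hj => by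
      have := h j hj
      rw [e] at this
      simpa using this)
    rw [this, S.cx_zero hsp, one_mul]

theorem Vp_inj (s : I) (Y : Finset I) (hs : s ∉ Y) : ∀ w ∈ S.Vp s Y,
    (∀ j, j ≠ s → (θ w).val j s = 0) → w = 1 := by
  induction Y using Finset.induction_on with
  | empty =>
    intro w hw _
    have : S.Vp s ∅ = ⊥ := by
      rw [Vp, Subgroup.closure_eq_bot_iff]
      rintro x ⟨p, hp, _⟩
      exact absurd hp (Finset.notMem_empty p)
    rw [this] at hw
    exact Subgroup.mem_bot.mp hw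
  | insert p Y hp ih =>
    intro w hw h
    have hs' : s ∉ Y := fun h' => hs (Finset.mem_insert_of_mem h')
    have hsp : p ≠ s := fun h' => hs (h' ▸ Finset.mem_insert_self _ _)
    obtain ⟨w', hw', m, rfl⟩ := Vp_factor hs (Finset.mem_insert_self p Y) w hw
    rw [Finset.erase_insert hp] at hw'
    obtain ⟨h1, -, h3⟩ := θ_Vp θ hθ hs' w' hw'
    have e : ∀ j, (θ (w' * S.x p s m)).val j s = (θ w').val j s + if j = p then m else 0 := by
      intro j
      rw [map_mul, Units.val_mul, hθ _ _ hsp, mul_el_apply, if_pos rfl, h1 p hsp, Matrix.one_apply]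
      split_ifs <;> simp
    have hm : m = 0 := by
      have := h p hsp
      rwa [e, h3 p hp hsp, if_pos rfl, zero_add] at this
    subst hm
    have : w' = 1 := ih hs' w' hw' (fun j hj => by
      have := h j hj
      rw [e] at this
      simpa using this)
    rw [this, S.cx_zero hsp, one_mul]

/-! ### the torus -/

omit hθ in
theorem Tor_ind (C : S.Cal) {o : I} {Z : Finset I} (ho : o ∉ Z) {P : G → Prop}
    (hx : ∀ a ∈ Z, ∀ u, P (S.h a o u)) (h1 : P 1)
    (hm : ∀ g g', g ∈ S.Tor o Z → g' ∈ S.Tor o Z → P g → P g' → P (g * g')) :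
    ∀ g ∈ S.Tor o Z, P g := by
  intro g hg
  refine Subgroup.closure_induction'' (p := fun g _ => P g) ?_ ?_ h1
    (fun x y hx hy h h' => hm x y hx hy h h') hg
  · rintro x ⟨p, hp, r, rfl⟩
    exact hx p hp r
  · rintro x ⟨p, hp, r, rfl⟩
    rw [C.hinv (ne_of_mem_of_not_mem hp ho)]; exact hx p hp _

theorem Tor_θ (C : S.Cal) {o : I} {Z : Finset I} (ho : o ∉ Z) : ∀ g ∈ S.Tor o Z,
    (∀ q, θ g ∈ Bs q) ∧ ∀ p, p ∉ Z → p ≠ o → (θ g).val p p = 1 := by
  refine Tor_ind C ho (fun a ha u => ?_) ?_ ?_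
  · have hao : a ≠ o := ne_of_mem_of_not_mem ha ho
    refine ⟨fun q => θ_h_mem θ hθ C hao u q, fun p hp hpo => ?_⟩
    rw [θ_h_apply θ hθ hao, if_pos rfl, if_neg (fun h : p = a => hp (h ▸ ha)), if_neg hpo]
  · rw [map_one]
    exact ⟨fun q => one_mem _, fun p _ _ => Matrix.one_apply_eq _⟩
  · rintro g g' _ _ ⟨h1, h2⟩ ⟨h3, h4⟩
    rw [map_mul]
    refine ⟨fun q => mul_mem (h1 q) (h3 q), fun p hp hpo => ?_⟩
    rw [Units.val_mul, Bs_mul_left (h1 p), h2 p hp hpo, h4 p hp hpo, one_mul]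

theorem Tor_inj (C : S.Cal) (o : I) (Z : Finset I) (ho : o ∉ Z) : ∀ g ∈ S.Tor o Z,
    (∀ p ∈ Z, (θ g).val p p = 1) → g = 1 := by
  induction Z using Finset.induction_on with
  | empty =>
    intro w hw _
    have : S.Tor o ∅ = ⊥ := by
      rw [Tor, Subgroup.closure_eq_bot_iff]
      rintro x ⟨p, hp, _⟩
      exact absurd hp (Finset.notMem_empty p)
    rw [this] at hw
    exact Subgroup.mem_bot.mp hw
  | insert p Z hp ih =>
    intro g hg h
    have ho' : o ∉ Z := fun h' => ho (Finset.mem_insert_of_mem h')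
    have hpo : p ≠ o := fun h' => ho (h' ▸ Finset.mem_insert_self _ _)
    have hcomm : ∀ u, ∀ t ∈ S.Tor o Z, t * S.h p o u = S.h p o u * t := by
      intro u
      refine Tor_ind C ho' (fun a ha v => C.hcomm (ne_of_mem_of_not_mem ha ho') hpo v u)
        (by rw [mul_one, one_mul]) ?_
      intro g g' _ _ h h'
      rw [mul_assoc, h', ← mul_assoc, h, mul_assoc]
    have hfac : ∀ g ∈ S.Tor o (insert p Z), ∃ u, ∃ t ∈ S.Tor o Z, g = S.h p o u * t := by
      refine Tor_ind C ho (fun a ha u => ?_) ⟨1, 1, one_mem _, by rw [S.ch_one, one_mul]⟩ ?_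
      · rcases Finset.mem_insert.mp ha with rfl | ha
        · exact ⟨u, 1, one_mem _, by rw [mul_one]⟩
        · exact ⟨1, _, Subgroup.subset_closure ⟨a, ha, u, rfl⟩, by rw [S.ch_one, one_mul]⟩
      · rintro g g' _ _ ⟨u, t, ht, rfl⟩ ⟨u', t', ht', rfl⟩
        refine ⟨u * u', t * t', mul_mem ht ht', ?_⟩
        rw [C.hmul hpo, mul_assoc, ← mul_assoc t, hcomm u' t ht]
        simp only [mul_assoc]
    obtain ⟨u, t, ht, rfl⟩ := hfac g hg
    obtain ⟨h1, h2⟩ := Tor_θ θ hθ C ho' t ht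
    have e : ∀ q, (θ (S.h p o u * t)).val q q = (θ (S.h p o u)).val q q * (θ t).val q q := by
      intro q
      rw [map_mul, Units.val_mul, Bs_mul_right (h1 q)]
    have hu : u = 1 := by
      have := h p (Finset.mem_insert_self _ _)
      rw [e, h2 p hp hpo, mul_one, θ_h_apply θ hθ hpo, if_pos rfl, if_pos rfl] at this
      exact Units.ext this
    subst hu
    rw [S.ch_one, one_mul] at h ⊢
    exact ih ho' t ht (fun q hq => h q (Finset.mem_insert_of_mem hq))

theorem PY_empty_inj (C : S.Cal) : ∀ g ∈ S.PY ∅, θ g = 1 → g = 1 := by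
  rcases isEmpty_or_nonempty I with hI | ⟨⟨o⟩⟩
  · refine PY_ind C (fun a => isEmptyElim a) (fun a => isEmptyElim a) (fun _ => rfl) ?_
    intro g g' hg hg' _ _ _
    have key : ∀ g ∈ S.PY (∅ : Finset I), g = 1 :=
      PY_ind C (fun a => isEmptyElim a) (fun a => isEmptyElim a) rfl
        (fun g g' _ _ h h' => by rw [h, h', one_mul])
    rw [key g hg, key g' hg', one_mul]
  · intro g hg h
    have ho : o ∉ Finset.univ.erase o := Finset.notMem_erase o _
    have hgen : ∀ p : I, p ≠ o → ∀ u, S.h p o u ∈ S.Tor o (Finset.univ.erase o) := fun p hp u =>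
      Subgroup.subset_closure ⟨p, Finset.mem_erase.mpr ⟨hp, Finset.mem_univ _⟩, u, rfl⟩
    have hmem : ∀ g ∈ S.PY (∅ : Finset I), g ∈ S.Tor o (Finset.univ.erase o) := by
      refine PY_ind C (fun a ha => absurd ha (Finset.notMem_empty a)) (fun a b hab u => ?_)
        (one_mem _) (fun g g' _ _ h h' => mul_mem h h')
      by_cases hb : b = o
      · subst hb; exact hgen a hab u
      · by_cases ha : a = o
        · subst ha
          rw [C.hsymm hab.symm]
          exact inv_mem (hgen b hb u)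
        · rw [← C.htrans ha (Ne.symm hb) hab, C.hsymm hb]
          exact mul_mem (hgen a ha u) (inv_mem (hgen b hb u))
    exact Tor_inj θ hθ C o _ ho g (hmem g hg) (fun p _ => by rw [h]; exact Matrix.one_apply_eq _)

/-! ### the cell -/

theorem Rel_inj (C : S.Cal) {s : I} {Y : Finset I} (hs : s ∉ Y)
    (ih : ∀ g ∈ S.PY Y, θ g = 1 → g = 1) {ω ω' : G} (hω : ω ∈ S.Rel s Y) (hω' : ω' ∈ S.Rel s Y)
    (h : θ ω = θ ω') : ω = ω' := by
  obtain ⟨v, hv, g, hg, w, hw, rfl⟩ := hω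
  obtain ⟨v', hv', g', hg', w', hw', rfl⟩ := hω'
  have ha : v'⁻¹ * v ∈ S.Vp s Y := mul_mem (inv_mem hv') hv
  have hb : w' * w⁻¹ ∈ S.Vm s Y := mul_mem hw' (inv_mem hw)
  have e : θ (v'⁻¹ * v) * θ g = θ g' * θ (w' * w⁻¹) := by
    simp only [map_mul, map_inv] at h ⊢
    rw [← mul_assoc, eq_mul_inv_iff_mul_eq, mul_assoc, mul_assoc, inv_mul_eq_iff_eq_mul,
      ← mul_assoc, ← mul_assoc, h]
  have hgB := θ_PY θ hθ C hs g hg
  have hgB' := θ_PY θ hθ C hs g' hg'
  obtain ⟨a1, a2, a3⟩ := θ_Vp θ hθ hs _ ha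
  obtain ⟨b1, b2, b3⟩ := θ_Vm θ hθ hs _ hb
  have e' : (θ (v'⁻¹ * v)).val * (θ g).val = (θ g').val * (θ (w' * w⁻¹)).val := by
    rw [← Units.val_mul, e, Units.val_mul]
  have hA : v'⁻¹ * v = 1 := by
    refine Vp_inj θ hθ s Y hs _ ha (fun j hj => ?_)
    have h1 := congrFun (congrFun e' j) s
    rw [Bs_mul_right hgB, Matrix.mul_apply, Finset.sum_eq_single s] at h1
    · rw [(hgB'.1 j hj).1, zero_mul] at h1
      exact (Bs_unit hgB).mul_left_eq_zero.mp h1
    · intro k _ hk; rw [b1 k hk, Matrix.one_apply_ne hk, mul_zero]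
    · intro h; exact absurd (Finset.mem_univ _) h
  rw [hA, map_one, one_mul] at e
  rw [hA, map_one, Units.val_one, one_mul] at e'
  have hB : w' * w⁻¹ = 1 := by
    refine Vm_inj θ hθ s Y hs _ hb (fun j hj => ?_)
    have h1 := congrFun (congrFun e' s) j
    rw [Bs_mul_left hgB', (hgB.1 j hj).2] at h1
    exact (Bs_unit hgB').mul_right_eq_zero.mp h1.symm
  rw [hB, map_one, mul_one] at e
  have hG : g = g' := by
    have := ih (g'⁻¹ * g) (mul_mem (inv_mem hg') hg) (by rw [map_mul, map_inv, e, inv_mul_cancel])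
    exact (inv_mul_eq_one.mp this).symm
  rw [(inv_mul_eq_one.mp hA).symm, hG, mul_inv_eq_one.mp hB]

/-- the row `s` of an element of the cell -/
theorem cell_row (C : S.Cal) {s : I} {Y : Finset I} (hs : s ∉ Y) {v g w : G} (hv : v ∈ S.Vp s Y)
    (hg : g ∈ S.PY Y) (j : I) :
    (θ (v * g * w)).val s j = (θ g).val s s * (θ w).val s j := by
  obtain ⟨h1, h2, -⟩ := θ_Vp θ hθ hs v hv
  rw [map_mul, map_mul, Units.val_mul, Units.val_mul, mul_assoc, Matrix.mul_apply,
    Finset.sum_eq_single s]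
  · rw [h2, one_mul, Bs_mul_left (θ_PY θ hθ C hs g hg)]
  · intro k _ hk; rw [h1 k hk, Matrix.one_apply_ne hk.symm, zero_mul]
  · intro h; exact absurd (Finset.mem_univ _) h

theorem exists_Vm (s : I) (Y : Finset I) (hs : s ∉ Y) (μ : I → F) :
    ∃ w ∈ S.Vm s Y, ∀ p ∈ Y, (θ w).val s p = μ p := by
  induction Y using Finset.induction_on with
  | empty => exact ⟨1, one_mem _, fun p hp => absurd hp (Finset.notMem_empty p)⟩
  | insert p Y hp ih =>
    have hs' : s ∉ Y := fun h' => hs (Finset.mem_insert_of_mem h')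
    have hsp : s ≠ p := fun h' => hs (h' ▸ Finset.mem_insert_self _ _)
    obtain ⟨w, hw, h⟩ := ih hs'
    obtain ⟨-, h2, h3⟩ := θ_Vm θ hθ hs' w hw
    refine ⟨w * S.x s p (μ p), mul_mem (Vm_mono (Finset.subset_insert p Y) hw)
      (x_mem_Vm (Finset.mem_insert_self p Y) _), fun q hq => ?_⟩
    rw [map_mul, Units.val_mul, hθ _ _ hsp, mul_el_apply, h2, one_mul]
    rcases Finset.mem_insert.mp hq with rfl | hq
    · rw [if_pos rfl, h3 q hp hsp.symm, zero_add]
    · rw [if_neg (fun h' : q = p => hp (h' ▸ hq)), add_zero, h q hq]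

omit hθ in
theorem Vm_swap {s : I} {Y : Finset I} (hs : s ∉ Y) {p : I} (hp : p ∈ Y) (r : F) :
    ∀ w ∈ S.Vm s (Y.erase p), ∃ k ∈ S.PY Y, (∀ w' ∈ S.Vm s (Y.erase p), k * w' = w' * k) ∧
      w * S.x p s r = S.x p s r * (k * w) := by
  have hs' : s ∉ Y.erase p := fun h => hs (Finset.mem_of_mem_erase h)
  have hps : p ≠ s := ne_of_mem_of_not_mem hp hs
  refine Vm_ind hs' (fun q hq μ => ?_) ⟨1, one_mem _, fun w' _ => by rw [one_mul, mul_one],
    by rw [one_mul, one_mul, mul_one]⟩ ?_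
  · obtain ⟨hqp, hqY⟩ := Finset.mem_erase.mp hq
    have hqs : q ≠ s := ne_of_mem_of_not_mem hqY hs
    refine ⟨S.x p q (-(r * μ)), x_mem_PY hp hqY hqp.symm _, ?_, ?_⟩
    · refine Vm_ind hs' (fun t ht ν => ?_) (by rw [one_mul, mul_one]) ?_
      · obtain ⟨htp, htY⟩ := Finset.mem_erase.mp ht
        exact S.disj hqp.symm (ne_of_mem_of_not_mem htY hs).symm hqs htp.symm _ _
      · intro g g' _ _ h h'
        rw [← mul_assoc, h, mul_assoc, h', mul_assoc]
    · have h1 := S.comm hps hqs.symm hqp.symm r μ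
      have h2 := S.disj hqp.symm hps hqp hps (-(r * μ)) r
      rw [← mul_assoc, ← h2, ← S.cx_inv hqp.symm, mul_assoc, h1]
      group
  · rintro w w' hw hw' ⟨k, hk, hk1, hk2⟩ ⟨k', hk', hk1', hk2'⟩
    refine ⟨k * k', mul_mem hk hk', fun w'' hw'' => ?_, ?_⟩
    · rw [mul_assoc, hk1' w'' hw'', ← mul_assoc, hk1 w'' hw'', mul_assoc]
    · rw [mul_assoc, hk2', ← mul_assoc, hk2, mul_assoc, mul_assoc k w, ← mul_assoc w k',
        ← hk1' w hw]
      simp only [mul_assoc]

end theta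

end cell

/-! ### good elements -/

section good

variable {I J : Type*} [DecidableEq I] [Fintype I] {K : J → Type*} [∀ j, Field (K j)]
  {G : Type*} [Group G] {S : Stb I (∀ j, K j) G}

/-- right multiplication by `x` preserves the big cell under finitely many open conditions -/
def Good (S : Stb I (∀ j, K j) G) (θ : G →* (Matrix I I (∀ j, K j))ˣ) (s : I) (Y : Finset I)
    (x : G) : Prop :=
  ∃ Z : List (I → ∀ j, K j), (∀ z ∈ Z, (∀ i, i ∉ insert s Y → z i = 0) ∧ ∀ j, ∃ i, z i j ≠ 0) ∧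
    ∀ ω ∈ S.Rel s Y, (∀ z ∈ Z, IsUnit (((θ ω).val *ᵥ z) s)) → ω * x ∈ S.Rel s Y

variable (θ : G →* (Matrix I I (∀ j, K j))ˣ)
  (hθ : ∀ (p q : I) (h : p ≠ q) (r : ∀ j, K j), θ (S.x p q r) = el p q h r)
include hθ

omit hθ in
theorem good_one (s : I) (Y : Finset I) : S.Good θ s Y 1 :=
  ⟨[], fun z hz => absurd hz (List.not_mem_nil), fun ω hω _ => by rw [mul_one]; exact hω⟩

omit hθ in
theorem good_PY (C : S.Cal) {s : I} {Y : Finset I} (hs : s ∉ Y) {x : G} (hx : x ∈ S.PY Y) :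
    S.Good θ s Y x := by
  refine ⟨[], fun z hz => absurd hz (List.not_mem_nil), ?_⟩
  rintro ω ⟨v, hv, g, hg, w, hw, rfl⟩ _
  refine ⟨v, hv, g * x, mul_mem hg hx, x⁻¹ * w * x⁻¹⁻¹, PY_norm_Vm C hs _ (inv_mem hx) w hw, ?_⟩
  group

omit hθ in
theorem good_Vm {s : I} {Y : Finset I} {x : G} (hx : x ∈ S.Vm s Y) :
    S.Good θ s Y x := by
  refine ⟨[], fun z hz => absurd hz (List.not_mem_nil), ?_⟩
  rintro ω ⟨v, hv, g, hg, w, hw, rfl⟩ _
  exact ⟨v, hv, g, hg, w * x, mul_mem hw hx, by rw [mul_assoc]⟩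

theorem good_Vp (C : S.Cal) {s : I} {Y : Finset I} (hs : s ∉ Y) {p : I} (hp : p ∈ Y)
    (r : ∀ j, K j) : S.Good θ s Y (S.x p s r) := by
  have hps : p ≠ s := ne_of_mem_of_not_mem hp hs
  refine ⟨[Pi.single s 1 + Pi.single p r], fun z hz => ?_, ?_⟩
  · rw [List.mem_singleton] at hz
    subst hz
    refine ⟨fun i hi => ?_, fun j => ⟨s, ?_⟩⟩
    · have h1 : i ≠ s := fun h => hi (h ▸ Finset.mem_insert_self _ _)
      have h2 : i ≠ p := fun h => hi (h ▸ Finset.mem_insert_of_mem hp)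
      rw [Pi.add_apply, Pi.single_eq_of_ne h1, Pi.single_eq_of_ne h2, add_zero]
    · rw [Pi.add_apply, Pi.single_eq_same, Pi.single_eq_of_ne hps.symm, add_zero, Pi.one_apply]
      exact one_ne_zero
  · rintro ω ⟨v, hv, g, hg, w, hw, rfl⟩ hu
    replace hu := hu _ (List.mem_singleton_self _)
    obtain ⟨w', hw', m, rfl⟩ := Vm_factor hs hp w hw
    have hs' : s ∉ Y.erase p := fun h => hs (Finset.mem_of_mem_erase h)
    obtain ⟨-, h2, h3⟩ := θ_Vm θ hθ hs' w' hw'
    have e1 : ∀ j, (θ (w' * S.x s p m)).val s j = (θ w').val s j + if j = p then m else 0 := by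
      intro j
      rw [map_mul, Units.val_mul, hθ _ _ hps.symm, mul_el_apply, h2, one_mul]
    have e2 : ((θ (v * g * (w' * S.x s p m))).val *ᵥ (Pi.single s 1 + Pi.single p r)) s =
        (θ g).val s s * (1 + m * r) := by
      rw [Matrix.mulVec_add, Pi.add_apply, Matrix.mulVec_single_one, Matrix.mulVec_single]
      simp only [Matrix.col_apply, Pi.smul_apply, MulOpposite.smul_eq_mul_unop,
        MulOpposite.unop_op]
      rw [cell_row θ hθ C hs hv hg, cell_row θ hθ C hs hv hg, e1, e1, h2, if_neg hps.symm,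
        if_pos rfl, h3 p (Finset.notMem_erase p Y) hps]
      ring
    rw [e2] at hu
    obtain ⟨u, hu'⟩ := isUnit_of_mul_isUnit_right hu
    obtain ⟨r', m', e3⟩ := C.rank hps m r u hu'
    obtain ⟨k, hk, -, e4⟩ := Vm_swap hs hp r' w' hw'
    have hh : S.h s p u ∈ S.PY Y := h_mem_PY hps.symm u
    refine ⟨v * (g * S.x p s r' * g⁻¹), mul_mem hv (PY_norm_Vp C hs g hg _ (x_mem_Vp hp _)),
      g * k * S.h s p u, mul_mem (mul_mem hg hk) hh,
      (S.h s p u)⁻¹ * w' * (S.h s p u)⁻¹⁻¹ * S.x s p m',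
      mul_mem (PY_norm_Vm C hs _ (inv_mem hh) _ (Vm_mono (Finset.erase_subset p Y) hw'))
        (x_mem_Vm hp _), ?_⟩
    calc v * g * (w' * S.x s p m) * S.x p s r = v * g * w' * (S.x s p m * S.x p s r) := by group
      _ = v * g * (w' * S.x p s r') * S.h s p u * S.x s p m' := by rw [e3]; group
      _ = _ := by rw [e4]; group

theorem good_mul (C : S.Cal) {s : I} {Y : Finset I} {x y : G} (hx : x ∈ S.PY (insert s Y))
    (h : S.Good θ s Y x) (h' : S.Good θ s Y y) : S.Good θ s Y (x * y) := by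
  obtain ⟨Z, hZ, hZ'⟩ := h
  obtain ⟨W, hW, hW'⟩ := h'
  refine ⟨Z ++ W.map fun z => (θ x).val *ᵥ z, fun z hz => ?_, fun ω hω hu => ?_⟩
  · rcases List.mem_append.mp hz with hz | hz
    · exact hZ z hz
    · obtain ⟨z, hz', rfl⟩ := List.mem_map.mp hz
      refine ⟨fun i hi => ?_, fun j => ?_⟩
      · have hB := θ_PY θ hθ C hi x hx
        rw [Matrix.mulVec, dotProduct, Finset.sum_eq_single i]
        · rw [(hW z hz').1 i hi, mul_zero]
        · intro k _ hk; rw [(hB.1 k hk).2, zero_mul]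
        · intro h; exact absurd (Finset.mem_univ _) h
      · by_contra hcon
        push Not at hcon
        obtain ⟨i, hi⟩ := (hW z hz').2 j
        apply hi
        have e : z = (θ x)⁻¹.val *ᵥ ((θ x).val *ᵥ z) := by
          rw [Matrix.mulVec_mulVec, ← Units.val_mul, inv_mul_cancel, Units.val_one,
            Matrix.one_mulVec]
        rw [e, Matrix.mulVec, dotProduct, Finset.sum_apply]
        exact Finset.sum_eq_zero fun k _ => by rw [Pi.mul_apply, hcon k, mul_zero]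
  · rw [← mul_assoc]
    refine hW' _ (hZ' ω hω fun z hz => hu z (List.mem_append_left _ hz)) fun z hz => ?_
    have := hu _ (List.mem_append_right _ (List.mem_map_of_mem hz))
    rwa [Matrix.mulVec_mulVec, ← Units.val_mul, ← map_mul] at this

theorem good_all (C : S.Cal) {s : I} {Y : Finset I} (hs : s ∉ Y) :
    ∀ x ∈ S.PY (insert s Y), S.Good θ s Y x := by
  refine PY_ind C (fun a ha b hb hab r => ?_) (fun a b hab u => good_PY θ C hs (h_mem_PY hab u))
    (good_one θ s Y) (fun g g' hg _ h h' => good_mul θ hθ C hg h h')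
  rcases Finset.mem_insert.mp ha with ha' | ha'
  · rcases Finset.mem_insert.mp hb with hb' | hb'
    · exact absurd (ha'.trans hb'.symm) hab
    · rw [ha']; exact good_Vm θ (x_mem_Vm hb' r)
  · rcases Finset.mem_insert.mp hb with hb' | hb'
    · rw [hb']; exact good_Vp θ hθ C hs ha' r
    · exact good_PY θ C hs (x_mem_PY ha' hb' hab r)

end good

/-! ### a generic row -/

theorem exists_generic {I K : Type*} [DecidableEq I] [Field K] [Infinite K] (s : I) (Y : Finset I)
    (hs : s ∉ Y) (Z : List (I → K)) (hZ : ∀ z ∈ Z, (∀ i, i ∉ insert s Y → z i = 0) ∧ ∃ i, z i ≠ 0) :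
    ∃ μ : I → K, ∀ z ∈ Z, z s + ∑ p ∈ Y, μ p * z p ≠ 0 := by
  let P : (I → K) → MvPolynomial I K := fun z =>
    MvPolynomial.C (z s) + ∑ p ∈ Y, MvPolynomial.X p * MvPolynomial.C (z p)
  have hev : ∀ (z μ : I → K), MvPolynomial.eval μ (P z) = z s + ∑ p ∈ Y, μ p * z p := by
    intro z μ
    simp [P, map_sum]
  have hP : ∀ z ∈ Z, P z ≠ 0 := by
    intro z hz h0
    obtain ⟨h1, i, hi⟩ := hZ z hz
    have e0 : z s = 0 := by
      have := hev z 0
      rw [h0, map_zero] at this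
      simpa using this.symm
    have e1 : ∀ p ∈ Y, z p = 0 := by
      intro p hp
      have := hev z (Pi.single p 1)
      rw [h0, map_zero, e0, zero_add, Finset.sum_eq_single p] at this
      · rw [Pi.single_eq_same, one_mul] at this; exact this.symm
      · intro q _ hq; rw [Pi.single_eq_of_ne hq, zero_mul]
      · intro h; exact absurd hp h
    by_cases hi' : i ∈ insert s Y
    · rcases Finset.mem_insert.mp hi' with rfl | h
      · exact hi e0
      · exact hi (e1 i h)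
    · exact hi (h1 i hi')
  have hprod : (Z.map P).prod ≠ 0 := by
    rw [Ne, List.prod_eq_zero_iff]
    intro h
    obtain ⟨z, hz, h⟩ := List.mem_map.mp h
    exact hP z hz h
  have hex : ∃ μ : I → K, MvPolynomial.eval μ (Z.map P).prod ≠ 0 := by
    by_contra hcon
    push Not at hcon
    exact hprod (MvPolynomial.funext fun μ => by rw [hcon μ, map_zero])
  obtain ⟨μ, hμ⟩ := hex
  refine ⟨μ, fun z hz h => hμ ?_⟩
  rw [map_list_prod, List.prod_eq_zero_iff]
  rw [List.map_map]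
  exact List.mem_map.mpr ⟨z, hz, by rw [Function.comp_apply, hev, h]⟩

section final

variable {I J : Type*} [DecidableEq I] [Fintype I] {K : J → Type*} [∀ j, Field (K j)]
  [∀ j, Infinite (K j)] {G : Type*} [Group G] {S : Stb I (∀ j, K j) G}
  (θ : G →* (Matrix I I (∀ j, K j))ˣ)
  (hθ : ∀ (p q : I) (h : p ≠ q) (r : ∀ j, K j), θ (S.x p q r) = el p q h r)
include hθ

theorem cell_step (C : S.Cal) {s : I} {Y : Finset I} (hs : s ∉ Y)
    (ih : ∀ g ∈ S.PY Y, θ g = 1 → g = 1) : ∀ g ∈ S.PY (insert s Y), θ g = 1 → g = 1 := by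
  intro x hx h1
  obtain ⟨Z, hZ, hZ'⟩ := good_all θ hθ C hs x hx
  have hgen : ∀ j, ∃ μ : I → K j, ∀ z ∈ Z, z s j + ∑ p ∈ Y, μ p * z p j ≠ 0 := by
    intro j
    obtain ⟨μ, hμ⟩ := exists_generic s Y hs (Z.map fun z i => z i j) (fun z' hz' => by
      obtain ⟨z, hz, rfl⟩ := List.mem_map.mp hz'
      exact ⟨fun i hi => by simp [(hZ z hz).1 i hi], (hZ z hz).2 j⟩)
    exact ⟨μ, fun z hz => hμ _ (List.mem_map.mpr ⟨z, hz, rfl⟩)⟩
  choose μ hμ using hgen
  obtain ⟨w, hw, hw'⟩ := exists_Vm θ hθ s Y hs (fun i j => μ j i)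
  obtain ⟨-, h2, -⟩ := θ_Vm θ hθ hs w hw
  have hwR : w ∈ S.Rel s Y := ⟨1, one_mem _, 1, one_mem _, w, hw, by rw [one_mul, one_mul]⟩
  have hR : w * x ∈ S.Rel s Y := by
    refine hZ' w hwR fun z hz => ?_
    have e : ((θ w).val *ᵥ z) s = z s + ∑ p ∈ Y, (fun j => μ j p) * z p := by
      rw [Matrix.mulVec, dotProduct, ← Finset.sum_subset (Finset.subset_univ (insert s Y)),
        Finset.sum_insert hs, h2, one_mul]
      · congr 1
        exact Finset.sum_congr rfl fun p hp => by rw [hw' p hp]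
      · intro i _ hi
        rw [(hZ z hz).1 i hi, mul_zero]
    rw [e, Pi.isUnit_iff]
    intro j
    rw [isUnit_iff_ne_zero]
    have := hμ j z hz
    simpa [Finset.sum_apply] using this
  have := Rel_inj θ hθ C hs ih hR hwR (by rw [map_mul, h1, mul_one])
  exact mul_eq_left.mp this

theorem cell_all (C : S.Cal) (Y : Finset I) : ∀ g ∈ S.PY Y, θ g = 1 → g = 1 := by
  induction Y using Finset.induction_on with
  | empty => exact PY_empty_inj θ hθ C
  | insert s Y hs ih => exact cell_step θ hθ C hs ih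

theorem cell_L (C : S.Cal) {g : G} (hg : g ∈ S.L) (h : θ g = 1) : g = 1 := by
  refine cell_all θ hθ C Finset.univ g ?_ h
  refine (Subgroup.closure_le _).mpr ?_ hg
  rintro _ ⟨a, b, hab, r, rfl⟩
  exact x_mem_PY (Finset.mem_univ _) (Finset.mem_univ _) hab r

end final

end Stb

section S3b

variable {I J : Type*} [DecidableEq I] [Fintype I] {K : J → Type*} [∀ j, Field (K j)]
  [∀ j, Infinite (K j)] {G : Type*} [Group G] (S : Stb I (∀ j, K j) G)
  {a b c : I} (hab : a ≠ b) (hac : a ≠ c) (hbc : b ≠ c)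

omit [DecidableEq I] [Fintype I] in
theorem exists_split {K : Type*} [Field K] [Infinite K] (m r : K) :
    ∃ r₁ : K, r₁ ≠ 0 ∧ r - r₁ ≠ 0 ∧ (1 + m * r ≠ 0 → 1 + m * r₁ ≠ 0) := by
  classical
  obtain ⟨r₁, h⟩ := Infinite.exists_notMem_finset ({0, r, -m⁻¹} : Finset K)
  simp only [Finset.mem_insert, Finset.mem_singleton, not_or] at h
  refine ⟨r₁, h.1, fun h' => h.2.1 (sub_eq_zero.mp h').symm, fun _ h' => h.2.2 ?_⟩
  have hm : m ≠ 0 := by
    rintro rfl
    rw [zero_mul, add_zero] at h'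
    exact one_ne_zero h'
  field_simp
  linear_combination h'

include hab hac hbc

theorem Stb.cal_of_sy (hsy : ∀ u v, S.sy a b c u v = 1) : S.Cal where
  hx {p q p' q'} hpq hpq' u r := by
    obtain ⟨c', h1, h2⟩ := Stb.third hab hac hbc hpq
    exact ⟨_, S.h_conj hpq h1 h2 u hpq' r⟩
  hmul hpq u v := S.h_mul hab hac hbc hsy hpq u v
  hcomm hpq hpq' u v := S.h_comm hab hac hbc hsy hpq hpq' u v
  htrans hpq hqr hpr u := S.h_trans hab hac hbc hsy hpq hqr hpr u
  hsymm hpq u := S.h_symm hab hac hbc hsy hpq u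
  rank hpq m r u hu := ⟨_, _, S.rank_one hab hac hbc hsy (fun m r h => by
    choose r₁ h1 h2 h3 using fun j => exists_split (m j) (r j)
    rw [Pi.isUnit_iff] at h
    refine ⟨r₁, r - r₁, (add_sub_cancel _ _).symm, ?_, ?_, ?_⟩ <;> rw [Pi.isUnit_iff] <;> intro j
    · exact isUnit_iff_ne_zero.mpr (h1 j)
    · exact isUnit_iff_ne_zero.mpr (h2 j)
    · exact isUnit_iff_ne_zero.mpr (h3 j (isUnit_iff_ne_zero.mp (h j)))) hpq m r u hu⟩

theorem Stb.injective_of_sy (hsy : ∀ u v, S.sy a b c u v = 1)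
    (θ : G →* (Matrix I I (∀ j, K j))ˣ)
    (hθ : ∀ (p q : I) (h : p ≠ q) (r : ∀ j, K j), θ (S.x p q r) = el p q h r)
    {g : G} (hg : g ∈ S.L) (h1 : θ g = 1) : g = 1 :=
  Stb.cell_L θ hθ (S.cal_of_sy hab hac hbc hsy) hg h1

end S3b

/-! ### pairs (word, matrix) -/

section pairs

/-- the image of Steinberg data under a homomorphism -/
def Stb.map {I F G G' : Type*} [Ring F] [Group G] [Group G'] (S : Stb I F G) (f : G →* G') :
    Stb I F G' where
  x p q r := f (S.x p q r)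
  add h r s := by rw [S.add h, map_mul]
  comm h1 h2 h3 r s := by rw [← map_mul, S.comm h1 h2 h3, map_mul, map_mul]
  disj h1 h2 h3 h4 r s := by rw [← map_mul, S.disj h1 h2 h3 h4, map_mul]

theorem Stb.map_h {I F G G' : Type*} [Ring F] [Group G] [Group G'] (S : Stb I F G) (f : G →* G')
    (a b : I) (u : Fˣ) : (S.map f).h a b u = f (S.h a b u) := by
  simp only [Stb.h, Stb.w, Stb.map, map_mul, map_inv]

theorem Stb.map_sy {I F G G' : Type*} [Ring F] [Group G] [Group G'] (S : Stb I F G) (f : G →* G')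
    (a b c : I) (u v : Fˣ) : (S.map f).sy a b c u v = f (S.sy a b c u v) := by
  simp only [Stb.sy, Stb.map_h, map_mul, map_inv]

/-- the subgroup of the pairs (word, matrix) -/
def Stb.Pr {I F G : Type*} [DecidableEq I] [Fintype I] [Ring F] [Group G] (S : Stb I F G) :
    Subgroup (G × (Matrix I I F)ˣ) :=
  Subgroup.closure {g | ∃ (p q : I) (h : p ≠ q) (r : F), g = (S.x p q r, el p q h r)}

variable {I F G : Type*} [DecidableEq I] [Fintype I] [Ring F] [Group G]

theorem cell_comm_rel {a b c : I} (hab : a ≠ b) (hbc : b ≠ c) (hac : a ≠ c) (r s : F) :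
    el a b hab r * el b c hbc s = el a c hac (r * s) * el b c hbc s * el a b hab r := by
  ext1
  simp only [Units.val_mul, el_val, mul_add, add_mul, mul_one, one_mul,
    Matrix.single_mul_single_same, Matrix.single_mul_single_of_ne _ _ _ _ hac.symm,
    Matrix.single_mul_single_of_ne _ _ _ _ hbc.symm, add_zero]
  abel

theorem cell_disj_rel {a b c d : I} (hab : a ≠ b) (hcd : c ≠ d) (hbc : b ≠ c) (had : a ≠ d)
    (r s : F) : el a b hab r * el c d hcd s = el c d hcd s * el a b hab r := by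
  ext1
  simp only [Units.val_mul, el_val, mul_add, add_mul, mul_one, one_mul,
    Matrix.single_mul_single_of_ne _ _ _ _ hbc, Matrix.single_mul_single_of_ne _ _ _ _ had.symm,
    add_zero]
  abel

/-- the Steinberg data of the pairs -/
def Stb.pair (S : Stb I F G) : Stb I F S.Pr where
  x p q r := if h : p ≠ q then
    ⟨(S.x p q r, el p q h r), Subgroup.subset_closure ⟨p, q, h, r, rfl⟩⟩ else 1
  add {a b} h r s := by
    rw [dif_pos h, dif_pos h, dif_pos h]
    exact Subtype.ext (Prod.ext (S.add h r s) (el_add a b h r s))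
  comm {a b c} h1 h2 h3 r s := by
    rw [dif_pos h1, dif_pos h2, dif_pos h3]
    exact Subtype.ext (Prod.ext (S.comm h1 h2 h3 r s) (cell_comm_rel h1 h2 h3 r s))
  disj {a b c d} h1 h2 h3 h4 r s := by
    rw [dif_pos h1, dif_pos h2]
    exact Subtype.ext (Prod.ext (S.disj h1 h2 h3 h4 r s) (cell_disj_rel h1 h2 h3 h4 r s))

theorem Stb.pair_x (S : Stb I F G) {p q : I} (h : p ≠ q) (r : F) :
    (S.pair.x p q r).val = (S.x p q r, el p q h r) := by
  change (if h : p ≠ q then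
    (⟨(S.x p q r, el p q h r), Subgroup.subset_closure ⟨p, q, h, r, rfl⟩⟩ : S.Pr) else 1).val = _
  rw [dif_pos h]

theorem Stb.pair_L (S : Stb I F G) (g : S.Pr) : g ∈ S.pair.L := by
  obtain ⟨g, hg⟩ := g
  refine Subgroup.closure_induction (p := fun g hg => (⟨g, hg⟩ : S.Pr) ∈ S.pair.L) ?_ ?_ ?_ ?_ hg
  · rintro _ ⟨p, q, h, r, rfl⟩
    refine Subgroup.subset_closure ⟨p, q, h, r, ?_⟩
    exact Subtype.ext (S.pair_x h r).symm
  · exact one_mem _
  · intro x y hx hy h1 h2
    exact mul_mem h1 h2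
  · intro x hx h
    exact inv_mem h

/-- the matrix of a pair -/
def Stb.pm (S : Stb I F G) : S.Pr →* (Matrix I I F)ˣ := (MonoidHom.snd _ _).comp S.Pr.subtype

/-- the word of a pair -/
def Stb.pw (S : Stb I F G) : S.Pr →* G := (MonoidHom.fst _ _).comp S.Pr.subtype

theorem Stb.pm_x (S : Stb I F G) (p q : I) (h : p ≠ q) (r : F) :
    S.pm (S.pair.x p q r) = el p q h r := by
  change (S.pair.x p q r).val.2 = _
  rw [S.pair_x h]

theorem Stb.exists_pair (S : Stb I F G) {g : G} (hg : g ∈ S.L) : ∃ γ : S.Pr, S.pw γ = g := by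
  refine Subgroup.closure_induction (p := fun g _ => ∃ γ : S.Pr, S.pw γ = g) ?_ ?_ ?_ ?_ hg
  · rintro _ ⟨p, q, h, r, rfl⟩
    refine ⟨S.pair.x p q r, ?_⟩
    change (S.pair.x p q r).val.1 = _
    rw [S.pair_x h]
  · exact ⟨1, map_one _⟩
  · rintro _ _ _ _ ⟨γ, rfl⟩ ⟨γ', rfl⟩
    exact ⟨γ * γ', map_mul _ _ _⟩
  · rintro _ _ ⟨γ, rfl⟩
    exact ⟨γ⁻¹, map_inv _ _⟩

end pairs

section pairs_comm

variable {I F G : Type*} [DecidableEq I] [Fintype I] [CommRing F] [Group G]

theorem comm_of_diag {X Y : Matrix I I F} (hX : ∀ i j, i ≠ j → X i j = 0)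
    (hY : ∀ i j, i ≠ j → Y i j = 0) : X * Y = Y * X := by
  have key : ∀ X Y : Matrix I I F, (∀ i j, i ≠ j → X i j = 0) → ∀ i j,
      (X * Y) i j = X i i * Y i j := by
    intro X Y hX i j
    rw [Matrix.mul_apply, Finset.sum_eq_single i]
    · intro k _ hk; rw [hX i k hk.symm, zero_mul]
    · intro h; exact absurd (Finset.mem_univ _) h
  ext i j
  rw [key X Y hX, key Y X hY]
  by_cases hij : i = j
  · subst hij; rw [mul_comm]
  · rw [hX i j hij, hY i j hij, mul_zero, mul_zero]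

/-- the symbols have trivial matrices -/
theorem Stb.θ_sy (S : Stb I F G) (θ : G →* (Matrix I I F)ˣ)
    (hθ : ∀ (p q : I) (h : p ≠ q) (r : F), θ (S.x p q r) = el p q h r) {a b c : I} (hab : a ≠ b)
    (hac : a ≠ c) (u v : Fˣ) : θ (S.sy a b c u v) = 1 := by
  have h : θ (S.h a b u) * θ (S.h a c v) = θ (S.h a c v) * θ (S.h a b u) := by
    ext1
    rw [Units.val_mul, Units.val_mul]
    refine comm_of_diag (fun i j hij => ?_) (fun i j hij => ?_)
    · rw [θ_h_apply θ hθ hab, if_neg hij]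
    · rw [θ_h_apply θ hθ hac, if_neg hij]
  rw [Stb.sy, map_mul, map_mul, map_mul, map_inv, map_inv, h, mul_assoc, mul_assoc,
    mul_inv_cancel_left, mul_inv_cancel]

end pairs_comm

section S3b'

variable {I J : Type*} [DecidableEq I] [Fintype I] {K : J → Type*} [∀ j, Field (K j)]
  [∀ j, Infinite (K j)] {G : Type*} [Group G] (S : Stb I (∀ j, K j) G)
  {a b c : I} (hab : a ≠ b) (hac : a ≠ c) (hbc : b ≠ c)

include hab hac hbc

/-- words with trivial matrix are central -/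
theorem Stb.central_of_matrix {g : G} (hg : (g, 1) ∈ S.Pr) {g' : G} (hg' : g' ∈ S.L) :
    g * g' = g' * g := by
  let T := S.pair
  have hcen : ∀ (u v) (γ : S.Pr), T.sy a b c u v * γ = γ * T.sy a b c u v := fun u v γ =>
    T.sy_central hab hac hbc u v (S.pair_L γ)
  let N : Subgroup S.Pr := Subgroup.closure {γ | ∃ u v, γ = T.sy a b c u v}
  have hN : ∀ ν ∈ N, ∀ γ : S.Pr, ν * γ = γ * ν := by
    intro ν hν γ
    refine Subgroup.closure_induction (p := fun ν _ => ν * γ = γ * ν) ?_ ?_ ?_ ?_ hν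
    · rintro _ ⟨u, v, rfl⟩
      exact hcen u v γ
    · rw [one_mul, mul_one]
    · intro x y _ _ h1 h2
      rw [mul_assoc, h2, ← mul_assoc, h1, mul_assoc]
    · intro x _ h
      rw [inv_mul_eq_iff_eq_mul, ← mul_assoc, h, mul_inv_cancel_right]
  have : N.Normal := ⟨fun ν hν γ => by rw [← hN ν hν γ, mul_inv_cancel_right]; exact hν⟩
  have hle : N ≤ S.pm.ker := by
    refine (Subgroup.closure_le _).mpr ?_
    rintro _ ⟨u, v, rfl⟩
    exact T.θ_sy S.pm S.pm_x hab hac u v
  let S' : Stb I (∀ j, K j) (S.Pr ⧸ N) := T.map (QuotientGroup.mk' N)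
  let θ' : S.Pr ⧸ N →* (Matrix I I (∀ j, K j))ˣ := QuotientGroup.lift N S.pm hle
  have hL : ∀ γ : S.Pr, (QuotientGroup.mk' N γ) ∈ S'.L := by
    intro γ
    refine Subgroup.closure_induction (p := fun γ _ => QuotientGroup.mk' N γ ∈ S'.L) ?_ ?_ ?_ ?_
      (S.pair_L γ)
    · rintro _ ⟨p, q, h, r, rfl⟩
      exact Subgroup.subset_closure ⟨p, q, h, r, rfl⟩
    · rw [map_one]; exact one_mem _
    · intro x y _ _ h1 h2
      rw [map_mul]; exact mul_mem h1 h2
    · intro x _ h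
      rw [map_inv]; exact inv_mem h
  have hsy : ∀ u v, S'.sy a b c u v = 1 := by
    intro u v
    rw [T.map_sy]
    exact (QuotientGroup.eq_one_iff _).mpr (Subgroup.subset_closure ⟨u, v, rfl⟩)
  have h1 : QuotientGroup.mk' N ⟨(g, 1), hg⟩ = 1 :=
    S'.injective_of_sy hab hac hbc hsy θ' (fun p q h r => S.pm_x p q h r) (hL _) rfl
  have h2 : (⟨(g, 1), hg⟩ : S.Pr) ∈ N := (QuotientGroup.eq_one_iff _).mp h1
  obtain ⟨γ, rfl⟩ := S.exists_pair hg'
  have h3 := hN _ h2 γ
  have h4 := congrArg S.pw h3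
  rw [map_mul, map_mul] at h4
  exact h4

/-- words with trivial matrix are trivial if the symbols are -/
theorem Stb.eq_one_of_matrix (hsy : ∀ u v, S.sy a b c u v = 1) {g : G} (hg : (g, 1) ∈ S.Pr) :
    g = 1 := by
  have hsy' : ∀ u v, S.pair.sy a b c u v = 1 := by
    intro u v
    have h1 : S.pm (S.pair.sy a b c u v) = 1 := S.pair.θ_sy S.pm S.pm_x hab hac u v
    have hx : ∀ p q : I, p ≠ q → ∀ r, S.pw (S.pair.x p q r) = S.x p q r := by
      intro p q h r
      change (S.pair.x p q r).val.1 = _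
      rw [S.pair_x h]
    have h2 : S.pw (S.pair.sy a b c u v) = 1 := by
      rw [← hsy u v]
      simp only [Stb.sy, Stb.h, Stb.w, map_mul, map_inv, hx a b hab, hx b a hab.symm, hx a c hac,
        hx c a hac.symm]
    exact Subtype.ext (Prod.ext h2 h1)
  have h1 : (⟨(g, 1), hg⟩ : S.Pr) = 1 :=
    S.pair.injective_of_sy hab hac hbc hsy' S.pm S.pm_x (S.pair_L _) rfl
  exact congrArg S.pw h1

end S3b'

end BWG
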