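import Pool.Agent.BW.PhiP
import Pool.Agent.Helper24.BW.Red

/-!
# Bounded width for `SL_n` over Azumaya algebras of prime degree: definitions
-/

set_option autoImplicit false

namespace BWG

open Matrix BW
open Pool.Agent.Helper24.BWR (emb SR2')

/-! ### stably elementary matrices -/

section stable

variable {n R : Type*} [DecidableEq n] [Fintype n] [Ring R]

/-- `g` is stably elementary: `diag(g, 1)` is elementary for an identity matrix of some size -/
def IsSE (g : (Matrix n n R)ˣ) : Prop :=
  ∃ m : ℕ, Units.map (emb (Function.Embedding.inl : n ↪ n ⊕ Fin m)) g ∈ E (n ⊕ Fin m) R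

end stable

/-! ### Azumaya algebras of degree `d` over `ℤ[1/N]` -/

/-- `Λ` is an Azumaya algebra of degree `d` over `R = ℤ[1/N]`: it is free of rank `d ^ 2` and its
fibre `Λ / p Λ` at every prime `p` not dividing `N` is the matrix algebra `M_d(𝔽_p)`. -/
structure IsAzumaya (d N : ℕ) (R Λ : Type*) [CommRing R] [Ring Λ] [Algebra R Λ] : Prop where
  free : Module.Free R Λ
  rank : Module.finrank R Λ = d ^ 2
  fibre : ∀ p : ℕ, p.Prime → ¬ p ∣ N → ∃ ρ : Λ →+* Matrix (Fin d) (Fin d) (ZMod p),
    Function.Surjective ρ ∧ ∀ x, ρ x = 0 → ∃ y, x = (p : Λ) * y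

section Nrd

variable {Λ k m : Type*} [Ring Λ] [CommRing k] [Fintype m] [DecidableEq m] {d : ℕ}

/-- the determinant of the block matrix obtained from a ring homomorphism
`ρ : Λ → M_d(k)`: the value at `ρ` of the reduced norm of a matrix over `Λ` -/
def nrdAt (ρ : Λ →+* Matrix (Fin d) (Fin d) k) : Matrix m m Λ →* k where
  toFun X := (Matrix.compRingEquiv m (Fin d) k (X.map ρ)).det
  map_one' := by
    rw [Matrix.map_one _ (map_zero ρ) (map_one ρ), map_one, Matrix.det_one]
  map_mul' X Y := by
    rw [Matrix.map_mul, map_mul, Matrix.det_mul]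

/-- the matrices of reduced norm one over an algebra over `ℤ[1/N]`: for every prime `p ∤ N` and
every ring homomorphism `ρ : Λ → M_d(𝔽_p)` the block determinant is one -/
def SL1 (d N : ℕ) (m Λ : Type*) [Ring Λ] [Fintype m] [DecidableEq m] :
    Subgroup (Matrix m m Λ)ˣ where
  carrier := {X | ∀ p : ℕ, p.Prime → ¬ p ∣ N →
    ∀ ρ : Λ →+* Matrix (Fin d) (Fin d) (ZMod p), nrdAt ρ X.val = 1}
  one_mem' := fun p _ _ ρ => by simp
  mul_mem' := fun {X Y} hX hY p hp hpN ρ => by
    rw [Units.val_mul, map_mul, hX p hp hpN ρ, hY p hp hpN ρ, one_mul]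
  inv_mem' := fun {X} hX p hp hpN ρ => by
    have h : nrdAt ρ X.val * nrdAt ρ X⁻¹.val = 1 := by
      rw [← map_mul, ← Units.val_mul, mul_inv_cancel, Units.val_one, map_one]
    rwa [hX p hp hpN ρ, one_mul] at h

end Nrd

section Rdet

variable (R : Type*) {Λ m : Type*} [CommRing R] [Ring Λ] [Algebra R Λ] [Fintype m] [DecidableEq m]

/-- left multiplication by a matrix over `Λ` on the columns, as an `R`-linear map -/
def lmul (X : Matrix m m Λ) : (m → Λ) →ₗ[R] (m → Λ) where
  toFun v := X *ᵥ v
  map_add' := X.mulVec_add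
  map_smul' c v := X.mulVec_smul c v

/-- the determinant of left multiplication (the power `nrd ^ d` of the reduced norm) -/
noncomputable def rdet (X : Matrix m m Λ) : R := LinearMap.det (lmul R X)

end Rdet

/-! ### Steinberg data -/

/-- the Steinberg relations of type `A` with the index set `I`, coefficients in `F`, in a group -/
structure Stb (I F G : Type*) [Ring F] [Group G] where
  x : I → I → F → G
  add : ∀ {a b}, a ≠ b → ∀ r s, x a b (r + s) = x a b r * x a b s
  comm : ∀ {a b c}, a ≠ b → b ≠ c → a ≠ c → ∀ r s,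
    x a b r * x b c s = x a c (r * s) * x b c s * x a b r
  disj : ∀ {a b c d}, a ≠ b → c ≠ d → b ≠ c → a ≠ d → ∀ r s,
    x a b r * x c d s = x c d s * x a b r

namespace Stb

variable {I F G : Type*} [Ring F] [Group G] (S : Stb I F G)

/-- the group generated by the letters -/
def L : Subgroup G := Subgroup.closure {g | ∃ (a b : I) (_ : a ≠ b) (r : F), g = S.x a b r}

/-- the Weyl elements -/
def w (a b : I) (u : Fˣ) : G := S.x a b u * S.x b a (-(u⁻¹ : Fˣ)) * S.x a b u

/-- the torus elements -/
def h (a b : I) (u : Fˣ) : G := S.w a b u * (S.w a b 1)⁻¹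

/-- the symbols -/
def sy (a b c : I) (u v : Fˣ) : G :=
  S.h a b u * S.h a c v * (S.h a b u)⁻¹ * (S.h a c v)⁻¹

end Stb

end BWG
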