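import Pool.Agent.BWG.Defs

/-!
# Extension of Steinberg data from blocks to entries

Steinberg data of type `A` with index set `k` (at least three elements) and coefficients in the matrix
ring `M_d(F)` extend to Steinberg data with the index set `k × d` and coefficients in `F`.
-/

set_option autoImplicit false

namespace BWG

open Matrix
open scoped commutatorElement

namespace Ext

section group

variable {G : Type*} [Group G]

/-- an abstract form of the identity `[α, [β, γ]] = [[α, β], γ]` for commuting `α`, `γ` -/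
theorem assoc_group {α β γ p q : G} (hp : α * β = p * β * α) (hq : β * γ = q * γ * β)
    (hαγ : α * γ = γ * α) (hqγ : q * γ = γ * q) (hpq : p * q = q * p) :
    ⁅α, q⁆ = ⁅p, γ⁆ := by
  have h1 : q = β * γ * β⁻¹ * γ⁻¹ := by rw [hq]; group
  have h2 : α * β * α⁻¹ = p * β := by rw [hp]; group
  have h3 : α * γ * α⁻¹ = γ := by rw [hαγ]; group
  have h4 : β * γ * β⁻¹ = q * γ := by rw [hq]; group
  have h5 : α * q * α⁻¹ = p * q * γ * p⁻¹ * γ⁻¹ := by
    calc α * q * α⁻¹ = (α * β * α⁻¹) * (α * γ * α⁻¹) * (α * β * α⁻¹)⁻¹ * (α * γ * α⁻¹)⁻¹ := by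
          rw [h1]; group
      _ = p * (β * γ * β⁻¹) * p⁻¹ * γ⁻¹ := by rw [h2, h3]; group
      _ = p * q * γ * p⁻¹ * γ⁻¹ := by rw [h4]; group
  rw [commutatorElement_def, commutatorElement_def, h5]
  have h7 : γ * p⁻¹ * γ⁻¹ * q⁻¹ = q⁻¹ * (γ * p⁻¹ * γ⁻¹) := by
    have h8 : q * (γ * p⁻¹ * γ⁻¹) * q⁻¹ = γ * p⁻¹ * γ⁻¹ := by
      calc q * (γ * p⁻¹ * γ⁻¹) * q⁻¹ = (q * γ) * p⁻¹ * (q * γ)⁻¹ := by group
        _ = γ * (q * p⁻¹ * q⁻¹) * γ⁻¹ := by rw [hqγ]; group
        _ = γ * (p * q⁻¹) ⁻¹ * q⁻¹ * γ⁻¹ := by group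
        _ = γ * p⁻¹ * γ⁻¹ := by
          have h9 : q * p⁻¹ * q⁻¹ = p⁻¹ := by
            have : p * (q * p⁻¹ * q⁻¹) = 1 := by
              calc p * (q * p⁻¹ * q⁻¹) = (p * q) * p⁻¹ * q⁻¹ := by group
                _ = 1 := by rw [hpq]; group
            exact (inv_eq_of_mul_eq_one_right this).symm
          calc γ * (p * q⁻¹)⁻¹ * q⁻¹ * γ⁻¹ = γ * (q * p⁻¹ * q⁻¹) * γ⁻¹ := by group
            _ = γ * p⁻¹ * γ⁻¹ := by rw [h9]
    calc γ * p⁻¹ * γ⁻¹ * q⁻¹ = q⁻¹ * (q * (γ * p⁻¹ * γ⁻¹) * q⁻¹) := by group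
      _ = q⁻¹ * (γ * p⁻¹ * γ⁻¹) := by rw [h8]
  calc p * q * γ * p⁻¹ * γ⁻¹ * q⁻¹ = p * q * (γ * p⁻¹ * γ⁻¹ * q⁻¹) := by group
    _ = p * γ * p⁻¹ * γ⁻¹ := by rw [h7]; group

theorem semiconj_comm {Y x x' y y' : G} (hx : SemiconjBy Y x x') (hy : SemiconjBy Y y y') :
    SemiconjBy Y ⁅x, y⁆ ⁅x', y'⁆ := by
  rw [commutatorElement_def, commutatorElement_def]
  exact ((hx.mul_right hy).mul_right hx.inv_right).mul_right hy.inv_right

/-- `[x x', y] = [x', y] [x, y]` if `x` commutes with `[x', y]` -/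
theorem comm_mul_left {x x' y : G} (h : Commute x ⁅x', y⁆) : ⁅x * x', y⁆ = ⁅x', y⁆ * ⁅x, y⁆ := by
  have h1 : ⁅x * x', y⁆ = x * ⁅x', y⁆ * x⁻¹ * ⁅x, y⁆ := by
    simp only [commutatorElement_def]; group
  rw [h1, h.eq]
  group

end group

section basic

variable {k R G : Type*} [Ring R] [Group G] (S : Stb k R G)

theorem x_zero {a b : k} (h : a ≠ b) : S.x a b 0 = 1 := by
  have h1 := S.add h 0 0
  rw [add_zero] at h1
  exact mul_eq_left.1 h1.symm

theorem x_neg {a b : k} (h : a ≠ b) (r : R) : S.x a b (-r) = (S.x a b r)⁻¹ := by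
  rw [eq_inv_iff_mul_eq_one, ← S.add h, neg_add_cancel, x_zero S h]

theorem comm_eq {a b c : k} (hab : a ≠ b) (hbc : b ≠ c) (hac : a ≠ c) (r s : R) :
    S.x a c (r * s) = ⁅S.x a b r, S.x b c s⁆ := by
  rw [commutatorElement_def, S.comm hab hbc hac r s]
  group

theorem comm_of_mul_eq_zero {a b c : k} (hab : a ≠ b) (hbc : b ≠ c) (hac : a ≠ c) {r s : R}
    (h : r * s = 0) : Commute (S.x a b r) (S.x b c s) := by
  have h1 := S.comm hab hbc hac r s
  rw [h, x_zero S hac, one_mul] at h1
  exact h1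

theorem disj {a b c d : k} (hab : a ≠ b) (hcd : c ≠ d) (hbc : b ≠ c) (had : a ≠ d) (r s : R) :
    Commute (S.x a b r) (S.x c d s) := S.disj hab hcd hbc had r s

/-- independence of the block and of the entry -/
theorem assoc {a b c : k} (hab : a ≠ b) (hbc : b ≠ c) (hac : a ≠ c) {A B C : R} (h : C * A = 0) :
    ⁅S.x a b A, S.x b a (B * C)⁆ = ⁅S.x a c (A * B), S.x c a C⁆ := by
  refine assoc_group (β := S.x b c B) (S.comm hab hbc hac A B) (S.comm hbc hac.symm hab.symm B C) ?_
    (S.disj hab.symm hac.symm hac hab.symm _ _) ?_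
  · exact (comm_of_mul_eq_zero S hac.symm hab hbc.symm h).eq.symm
  · refine (comm_of_mul_eq_zero S hab.symm hac hbc (r := B * C) (s := A * B) ?_).eq.symm
    rw [mul_assoc, ← mul_assoc C, h, zero_mul, mul_zero]

variable {a b c : k} (hab : a ≠ b) (hbc : b ≠ c) (hac : a ≠ c) (A B : R)

include hab hbc hac

theorem semi_ab (M N : R) : SemiconjBy (S.x a b A) (S.x a c M * S.x b c N)
    (S.x a c (M + A * N) * S.x b c N) := by
  have h1 := S.comm hab hbc hac A N
  have h2 := S.disj hab hac hab.symm hac A M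
  unfold SemiconjBy
  rw [← mul_assoc, h2, mul_assoc, h1, S.add hac]
  simp only [mul_assoc]

theorem semi_ba (M N : R) : SemiconjBy (S.x b a B) (S.x a c M * S.x b c N)
    (S.x a c M * S.x b c (N + B * M)) := by
  have h1 := S.comm hab.symm hac hbc B M
  have h2 := S.disj hab.symm hbc hab hbc B N
  have h3 := S.disj hbc hac hac.symm hbc (B * M) M
  unfold SemiconjBy
  rw [← mul_assoc, h1, h3, mul_assoc, h2, add_comm N, S.add hbc]
  simp only [mul_assoc]

theorem semi_ab' (M N : R) : SemiconjBy (S.x a b A) (S.x c a M * S.x c b N)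
    (S.x c a M * S.x c b (N - M * A)) := by
  have h1 := S.comm hac.symm hab hbc.symm M A
  have h2 := S.disj hab hbc.symm hbc hab A N
  have h3 := S.disj hac.symm hbc.symm hac hbc.symm M (N - M * A)
  have h4 := S.disj hac.symm hbc.symm hac hbc.symm M N
  unfold SemiconjBy
  have h5 : S.x c b N = S.x c b (N - M * A) * S.x c b (M * A) := by
    rw [← S.add hbc.symm, sub_add_cancel]
  calc S.x a b A * (S.x c a M * S.x c b N) = S.x a b A * S.x c b N * S.x c a M := by
        rw [h4, mul_assoc]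
    _ = S.x c b (N - M * A) * (S.x c b (M * A) * S.x a b A * S.x c a M) := by
        rw [h2, h5]; simp only [mul_assoc]
    _ = S.x c a M * S.x c b (N - M * A) * S.x a b A := by
        rw [← h1, h3]; simp only [mul_assoc]

theorem semi_ba' (M N : R) : SemiconjBy (S.x b a B) (S.x c a M * S.x c b N)
    (S.x c a (M - N * B) * S.x c b N) := by
  have h1 := S.comm hbc.symm hab.symm hac.symm N B
  have h2 := S.disj hab.symm hac.symm hac hab.symm B M
  unfold SemiconjBy
  have h5 : S.x c a M = S.x c a (M - N * B) * S.x c a (N * B) := by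
    rw [← S.add hac.symm, sub_add_cancel]
  calc S.x b a B * (S.x c a M * S.x c b N) = S.x c a M * S.x b a B * S.x c b N := by
        rw [← mul_assoc, h2]
    _ = S.x c a (M - N * B) * (S.x c a (N * B) * S.x b a B * S.x c b N) := by
        rw [h5]; simp only [mul_assoc]
    _ = S.x c a (M - N * B) * S.x c b N * S.x b a B := by
        rw [← h1]; simp only [mul_assoc]

/-- the conjugation by `[x_ab(A), x_ba(B)]` for `B A = 0` on the letters `x_ac(M)` -/
theorem semi_C (h : B * A = 0) (M : R) : SemiconjBy ⁅S.x a b A, S.x b a B⁆ (S.x a c M)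
    (S.x a c (M + A * B * M)) := by
  rw [commutatorElement_def, ← x_neg S hab, ← x_neg S hab.symm]
  have e0 : S.x a c M = S.x a c M * S.x b c 0 := by rw [x_zero S hbc, mul_one]
  have s1 := semi_ba S hab hbc hac (-B) M 0
  have s2 := semi_ab S hab hbc hac (-A) M (0 + -B * M)
  have s3 := semi_ba S hab hbc hac B (M + -A * (0 + -B * M)) (0 + -B * M)
  have s4 := semi_ab S hab hbc hac A (M + -A * (0 + -B * M))
    ((0 + -B * M) + B * (M + -A * (0 + -B * M)))
  have s5 := ((s4.mul_left s3).mul_left s2).mul_left s1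
  have e1 : (0 + -B * M) + B * (M + -A * (0 + -B * M)) = 0 := by
    have : B * (A * (B * M)) = 0 := by rw [← mul_assoc, h, zero_mul]
    simp only [zero_add, neg_mul, mul_neg, neg_neg, mul_add, this, add_zero, neg_add_cancel]
  have e2 : M + -A * (0 + -B * M) = M + A * B * M := by
    simp only [zero_add, neg_mul, mul_neg, neg_neg, mul_assoc]
  rw [e1, e2, mul_zero, add_zero, ← e0, x_zero S hbc, mul_one] at s5
  exact s5

/-- the conjugation by `[x_ab(A), x_ba(B)]` for `B A = 0` on the letters `x_ca(M)` -/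
theorem semi_C' (h : B * A = 0) (M : R) : SemiconjBy ⁅S.x a b A, S.x b a B⁆ (S.x c a M)
    (S.x c a (M - M * (A * B))) := by
  rw [commutatorElement_def, ← x_neg S hab, ← x_neg S hab.symm]
  have e0 : S.x c a M = S.x c a M * S.x c b 0 := by rw [x_zero S hbc.symm, mul_one]
  have s1 := semi_ba' S hab hbc hac (-B) M 0
  have s2 := semi_ab' S hab hbc hac (-A) (M - 0 * -B) 0
  have s3 := semi_ba' S hab hbc hac B (M - 0 * -B) (0 - (M - 0 * -B) * -A)
  have s4 := semi_ab' S hab hbc hac A ((M - 0 * -B) - (0 - (M - 0 * -B) * -A) * B)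
    (0 - (M - 0 * -B) * -A)
  have s5 := ((s4.mul_left s3).mul_left s2).mul_left s1
  have e1 : M - 0 * -B = M := by rw [zero_mul, sub_zero]
  have e2 : (0 : R) - M * -A = M * A := by rw [mul_neg, zero_sub, neg_neg]
  have e3 : M * A - (M - M * A * B) * A = 0 := by
    rw [sub_mul, mul_assoc (M * A), h, mul_zero, sub_zero, sub_self]
  rw [e1, e2, e3, ← e0, x_zero S hbc.symm, mul_one, mul_assoc M A B] at s5
  exact s5

end basic

section ext

variable {k d : Type*} [DecidableEq d] [Fintype d] {F G : Type*} [CommRing F] [Group G]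
  (S : Stb k (Matrix d d F) G)

/-- the candidates for the letters inside one block -/
theorem indep_aux {a b c : k} (hab : a ≠ b) (hbc : b ≠ c) (hac : a ≠ c) {r s : d} (hrs : r ≠ s)
    (t u : d) (z v w : F) :
    ⁅S.x a b (single r t z), S.x b a (single t s (v * w))⁆ =
      ⁅S.x a c (single r u (z * v)), S.x c a (single u s w)⁆ := by
  have h1 := assoc S hab hbc hac (A := single r t z) (B := single t u v) (C := single u s w)
    (single_mul_single_of_ne _ _ _ _ hrs.symm _)
  rwa [single_mul_single_same, single_mul_single_same] at h1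

variable (hk : ∀ a b : k, ∃ c, c ≠ a ∧ c ≠ b)

include hk in
theorem indep {a b c : k} (hab : a ≠ b) (hac : a ≠ c) {r s : d} (hrs : r ≠ s) (t u : d) (z w : F) :
    ⁅S.x a b (single r t z), S.x b a (single t s w)⁆ =
      ⁅S.x a c (single r u (z * w)), S.x c a (single u s 1)⁆ := by
  rcases eq_or_ne b c with rfl | hbc
  · obtain ⟨e, hea, heb⟩ := hk a b
    have h1 := indep_aux S hab heb.symm hea.symm hrs t t z w 1
    have h2 := indep_aux S hab heb.symm hea.symm hrs u t (z * w) 1 1
    rw [mul_one] at h1 h2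
    rw [mul_one] at h2
    rw [h1, h2]
  · have h1 := indep_aux S hab hbc hac hrs t u z w 1
    rwa [mul_one] at h1

variable (o : k → k) (ho : ∀ a, a ≠ o a) (t₀ : d)

/-- the letters inside one block -/
def Y (a : k) (r s : d) (z : F) : G :=
  ⁅S.x a (o a) (single r t₀ z), S.x (o a) a (single t₀ s 1)⁆

include hk ho

theorem Y_eq {a b : k} (hab : a ≠ b) {r s : d} (hrs : r ≠ s) (t : d) (z w : F) :
    Y S o t₀ a r s (z * w) = ⁅S.x a b (single r t z), S.x b a (single t s w)⁆ :=
  (indep S hk hab (ho a) hrs t t₀ z w).symm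

theorem Y_ac {a c : k} (hac : a ≠ c) {r s : d} (hrs : r ≠ s) (z : F) (M : Matrix d d F) :
    SemiconjBy (Y S o t₀ a r s z) (S.x a c M) (S.x a c (M + single r s z * M)) := by
  obtain ⟨b, hba, hbc⟩ := hk a c
  have h1 := semi_C S hba.symm hbc hac (single r t₀ z) (single t₀ s 1)
    (single_mul_single_of_ne _ _ _ _ hrs.symm _) M
  rwa [single_mul_single_same, ← Y_eq S hk o ho t₀ hba.symm hrs t₀ z 1, mul_one] at h1

theorem Y_ca {a c : k} (hac : a ≠ c) {r s : d} (hrs : r ≠ s) (z : F) (M : Matrix d d F) :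
    SemiconjBy (Y S o t₀ a r s z) (S.x c a M) (S.x c a (M - M * single r s z)) := by
  obtain ⟨b, hba, hbc⟩ := hk a c
  have h1 := semi_C' S hba.symm hbc hac (single r t₀ z) (single t₀ s 1)
    (single_mul_single_of_ne _ _ _ _ hrs.symm _) M
  rwa [single_mul_single_same, ← Y_eq S hk o ho t₀ hba.symm hrs t₀ z 1, mul_one] at h1

theorem Y_bc {a b c : k} (hab : a ≠ b) (hac : a ≠ c) (hbc : b ≠ c) {r s : d} (hrs : r ≠ s) (z : F)
    (M : Matrix d d F) : Commute (Y S o t₀ a r s z) (S.x b c M) := by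
  have h1 := semiconj_comm (Y_ca S hk o ho t₀ hab hrs z 1) (Y_ac S hk o ho t₀ hac hrs z M)
  rw [← comm_eq S hab.symm hac hbc, ← comm_eq S hab.symm hac hbc, one_mul] at h1
  have e : (1 - 1 * single r s z) * (M + single r s z * M) = M := by
    have e1 : single r s z * (single r s z * M) = 0 := by
      rw [← mul_assoc, single_mul_single_of_ne _ _ _ _ hrs.symm, zero_mul]
    rw [one_mul, sub_mul, one_mul, mul_add, e1, add_zero, add_sub_cancel_right]
  rw [e] at h1
  exact h1

theorem Y_add {a : k} {r s : d} (hrs : r ≠ s) (z z' : F) :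
    Y S o t₀ a r s (z + z') = Y S o t₀ a r s z * Y S o t₀ a r s z' := by
  have h1 : Commute (S.x a (o a) (single r t₀ z')) ⁅S.x a (o a) (single r t₀ z),
      S.x (o a) a (single t₀ s 1)⁆ := by
    have h2 := Y_ac S hk o ho t₀ (ho a) hrs z (single r t₀ z')
    rw [single_mul_single_of_ne _ _ _ _ hrs.symm, add_zero] at h2
    exact Commute.symm h2
  have h3 := comm_mul_left h1
  rw [← S.add (ho a), ← single_add, add_comm z' z] at h3
  exact h3

theorem Y_comm {a : k} {r s t : d} (hrs : r ≠ s) (hst : s ≠ t) (hrt : r ≠ t) (z w : F) :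
    Y S o t₀ a r s z * Y S o t₀ a s t w =
      Y S o t₀ a r t (z * w) * Y S o t₀ a s t w * Y S o t₀ a r s z := by
  have h1 := semiconj_comm (Y_ac S hk o ho t₀ (ho a) hrs z (single s t₀ w))
    (Y_ca S hk o ho t₀ (ho a) hrs z (single t₀ t 1))
  rw [single_mul_single_of_ne _ _ _ _ hrt.symm, sub_zero, single_mul_single_same, S.add (ho a)] at h1
  have h2 : Commute (S.x a (o a) (single s t₀ w)) ⁅S.x a (o a) (single r t₀ (z * w)),
      S.x (o a) a (single t₀ t 1)⁆ := by
    have h3 := Y_ac S hk o ho t₀ (ho a) hrt (z * w) (single s t₀ w)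
    rw [single_mul_single_of_ne _ _ _ _ hst.symm, add_zero] at h3
    exact Commute.symm h3
  rw [comm_mul_left h2] at h1
  exact h1

theorem Y_disj {a : k} {r s t u : d} (hrs : r ≠ s) (hst : s ≠ t) (hru : r ≠ u) (z w : F) :
    Commute (Y S o t₀ a r s z) (Y S o t₀ a t u w) := by
  have h1 := semiconj_comm (Y_ac S hk o ho t₀ (ho a) hrs z (single t t₀ w))
    (Y_ca S hk o ho t₀ (ho a) hrs z (single t₀ u 1))
  rw [single_mul_single_of_ne _ _ _ _ hst, single_mul_single_of_ne _ _ _ _ hru.symm, add_zero,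
    sub_zero] at h1
  exact h1

theorem Y_disj' {a c : k} (hac : a ≠ c) {r s t u : d} (hrs : r ≠ s) (htu : t ≠ u) (z w : F) :
    Commute (Y S o t₀ a r s z) (Y S o t₀ c t u w) := by
  obtain ⟨b, hba, hbc⟩ := hk a c
  have h1 := semiconj_comm (Y_bc S hk o ho t₀ hac hba.symm hbc.symm hrs z (single t t₀ w))
    (Y_bc S hk o ho t₀ hba.symm hac hbc hrs z (single t₀ u 1))
  rw [← Y_eq S hk o ho t₀ hbc.symm htu, mul_one] at h1
  exact h1

omit ho in
/-- opposite blocks -/
theorem opp {a b : k} (hab : a ≠ b) {r s t u : d} (hst : s ≠ t) (hru : r ≠ u) (z w : F) :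
    Commute (S.x a b (single r s z)) (S.x b a (single t u w)) := by
  obtain ⟨f, hfa, hfb⟩ := hk a b
  have h1 : S.x a b (single r s z) = ⁅S.x a f (single r s z), S.x f b (single s s 1)⁆ := by
    rw [← comm_eq S hfa.symm hfb hab, single_mul_single_same, mul_one]
  rw [h1]
  have h2 : Commute (S.x a f (single r s z)) (S.x b a (single t u w)) :=
    (comm_of_mul_eq_zero S hab.symm hfa.symm hfb.symm (single_mul_single_of_ne _ _ _ _ hru.symm _)).symm
  have h3 : Commute (S.x f b (single s s 1)) (S.x b a (single t u w)) :=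
    comm_of_mul_eq_zero S hfb hab.symm hfa (single_mul_single_of_ne _ _ _ _ hst _)
  rw [commutatorElement_def]
  exact ((h2.mul_left h3).mul_left h2.inv_left).mul_left h3.inv_left

end ext

end Ext

open Ext in
theorem Stb.exists_ext {k d : Type*} [DecidableEq k] [Fintype k] [DecidableEq d] [Fintype d]
    [Nonempty d] (hk : 3 ≤ Fintype.card k) {F G : Type*} [CommRing F] [Group G]
    (S : Stb k (Matrix d d F) G) :
    ∃ S' : Stb (k × d) F G,
      (∀ a b, a ≠ b → ∀ r s z, S'.x (a, r) (b, s) z = S.x a b (Matrix.single r s z)) ∧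
      ∀ a b, a ≠ b → ∀ r s, r ≠ s → ∀ t z z', S'.x (a, r) (a, s) (z * z') =
        S.x a b (Matrix.single r t z) * S.x b a (Matrix.single t s z') *
          (S.x a b (Matrix.single r t z))⁻¹ * (S.x b a (Matrix.single t s z'))⁻¹ := by
  have hk' : ∀ a b : k, ∃ c, c ≠ a ∧ c ≠ b := by
    intro a b
    by_contra hcon
    push Not at hcon
    have h1 : (Finset.univ : Finset k) ⊆ {a, b} := by
      intro c _
      by_cases hc : c = a
      · simp [hc]
      · simp [hcon c hc]
    have h2 := (Finset.card_le_card h1).trans Finset.card_le_two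
    rw [Finset.card_univ] at h2
    omega
  choose o ho using fun a => hk' a a
  have ho' : ∀ a, a ≠ o a := fun a => (ho a).1.symm
  obtain ⟨t₀⟩ := ‹Nonempty d›
  let x' : k × d → k × d → F → G := fun α β z =>
    if α.1 = β.1 then Y S o t₀ α.1 α.2 β.2 z else S.x α.1 β.1 (single α.2 β.2 z)
  have hx1 : ∀ a r s z, x' (a, r) (a, s) z = Y S o t₀ a r s z := fun a r s z => if_pos rfl
  have hx2 : ∀ a b, a ≠ b → ∀ r s z, x' (a, r) (b, s) z = S.x a b (single r s z) :=
    fun a b hab r s z => if_neg hab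
  refine ⟨⟨x', ?_, ?_, ?_⟩, hx2, ?_⟩
  · rintro ⟨a, r⟩ ⟨b, s⟩ hne z z'
    rcases eq_or_ne a b with rfl | hab
    · have hrs : r ≠ s := fun h => hne (by rw [h])
      rw [hx1, hx1, hx1]
      exact Y_add S hk' o ho' t₀ hrs z z'
    · rw [hx2 _ _ hab, hx2 _ _ hab, hx2 _ _ hab, single_add, S.add hab]
  · rintro ⟨a, r⟩ ⟨b, s⟩ ⟨c, t⟩ h1 h2 h3 z w
    rcases eq_or_ne a b with rfl | hab
    · have hrs : r ≠ s := fun h => h1 (by rw [h])
      rcases eq_or_ne a c with rfl | hac
      · have hst : s ≠ t := fun h => h2 (by rw [h])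
        have hrt : r ≠ t := fun h => h3 (by rw [h])
        rw [hx1, hx1, hx1]
        exact Y_comm S hk' o ho' t₀ hrs hst hrt z w
      · rw [hx1, hx2 _ _ hac, hx2 _ _ hac]
        have h4 := Y_ac S hk' o ho' t₀ hac hrs z (single s t w)
        rw [single_mul_single_same, add_comm, S.add hac] at h4
        exact h4
    · rcases eq_or_ne b c with rfl | hbc
      · have hst : s ≠ t := fun h => h2 (by rw [h])
        rw [hx1, hx2 _ _ hab, hx2 _ _ hab]
        have h4 := Y_ca S hk' o ho' t₀ hab.symm hst w (single r s z)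
        rw [single_mul_single_same, sub_eq_add_neg, add_comm, S.add hab, x_neg S hab] at h4
        have h5 := h4.eq
        rw [mul_assoc, h5]
        simp only [mul_assoc]
        rw [mul_inv_cancel_left]
      · rcases eq_or_ne a c with rfl | hac
        · have hrt : r ≠ t := fun h => h3 (by rw [h])
          rw [hx2 _ _ hab, hx2 _ _ hbc, hx1, Y_eq S hk' o ho' t₀ hab hrt s z w, commutatorElement_def]
          group
        · rw [hx2 _ _ hab, hx2 _ _ hbc, hx2 _ _ hac, S.comm hab hbc hac, single_mul_single_same]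
  · rintro ⟨a, r⟩ ⟨b, s⟩ ⟨c, t⟩ ⟨e, u⟩ h1 h2 h3 h4 z w
    rcases eq_or_ne a b with rfl | hab
    · have hrs : r ≠ s := fun h => h1 (by rw [h])
      rcases eq_or_ne c e with rfl | hce
      · have htu : t ≠ u := fun h => h2 (by rw [h])
        rw [hx1, hx1]
        rcases eq_or_ne a c with rfl | hac
        · have hst : s ≠ t := fun h => h3 (by rw [h])
          have hru : r ≠ u := fun h => h4 (by rw [h])
          exact Y_disj S hk' o ho' t₀ hrs hst hru z w
        · exact Y_disj' S hk' o ho' t₀ hac hrs htu z w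
      · rw [hx1, hx2 _ _ hce]
        rcases eq_or_ne a c with rfl | hac
        · have hst : s ≠ t := fun h => h3 (by rw [h])
          have h5 := Y_ac S hk' o ho' t₀ hce hrs z (single t u w)
          rw [single_mul_single_of_ne _ _ _ _ hst, add_zero] at h5
          exact h5
        · rcases eq_or_ne a e with rfl | hae
          · have hru : r ≠ u := fun h => h4 (by rw [h])
            have h5 := Y_ca S hk' o ho' t₀ hac hrs z (single t u w)
            rw [single_mul_single_of_ne _ _ _ _ hru.symm, sub_zero] at h5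
            exact h5
          · exact Y_bc S hk' o ho' t₀ hac hae hce hrs z _
    · rcases eq_or_ne c e with rfl | hce
      · have htu : t ≠ u := fun h => h2 (by rw [h])
        rw [hx1, hx2 _ _ hab]
        symm
        rcases eq_or_ne c a with rfl | hca
        · have hru : r ≠ u := fun h => h4 (by rw [h])
          have h5 := Y_ac S hk' o ho' t₀ hab htu w (single r s z)
          rw [single_mul_single_of_ne _ _ _ _ hru.symm, add_zero] at h5
          exact h5
        · rcases eq_or_ne c b with rfl | hcb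
          · have hst : s ≠ t := fun h => h3 (by rw [h])
            have h5 := Y_ca S hk' o ho' t₀ hca htu w (single r s z)
            rw [single_mul_single_of_ne _ _ _ _ hst, sub_zero] at h5
            exact h5
          · exact Y_bc S hk' o ho' t₀ hca hcb hab htu w _
      · rw [hx2 _ _ hab, hx2 _ _ hce]
        rcases eq_or_ne b c with rfl | hbc
        · have hst : s ≠ t := fun h => h3 (by rw [h])
          rcases eq_or_ne a e with rfl | hae
          · have hru : r ≠ u := fun h => h4 (by rw [h])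
            exact opp S hk' hab hst hru z w
          · exact comm_of_mul_eq_zero S hab hce hae (single_mul_single_of_ne _ _ _ _ hst _)
        · rcases eq_or_ne a e with rfl | hae
          · have hru : r ≠ u := fun h => h4 (by rw [h])
            exact (comm_of_mul_eq_zero S hce hab hbc.symm
              (single_mul_single_of_ne _ _ _ _ hru.symm _)).symm
          · exact S.disj hab hce hbc hae _ _
  · intro a b hab r s hrs t z z'
    show x' (a, r) (a, s) (z * z') = _
    rw [hx1, Y_eq S hk' o ho' t₀ hab hrs t z z', commutatorElement_def]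

end BWG
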