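import Pool.Agent.BWG.Defs

/-!
# Stable calculus: the stably elementary matrices (row K)
-/

set_option autoImplicit false
set_option linter.unusedSectionVars false

namespace BWG

open Matrix BW
open Pool.Agent.Helper24.BWR (emb pm qm emb_emb emb_apply emb_mem qm_mul_pm emb_el SR2')

section K

variable {n n' k k' R R' : Type*} [DecidableEq n] [Fintype n] [DecidableEq n'] [Fintype n']
  [DecidableEq k] [Fintype k] [DecidableEq k'] [Fintype k'] [Ring R] [Ring R']

/-- two embeddings in the same finite type differ by a permutation -/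
theorem exists_perm (φ ψ : n ↪ k) : ∃ σ : Equiv.Perm k, φ.trans σ.toEmbedding = ψ := by
  classical
  let e : {x // x ∈ Set.range φ} ≃ {x // x ∈ Set.range ψ} :=
    (Equiv.ofInjective φ φ.injective).symm.trans (Equiv.ofInjective ψ ψ.injective)
  refine ⟨e.extendSubtype, ?_⟩
  ext a
  have h : φ a ∈ Set.range φ := ⟨a, rfl⟩
  change e.extendSubtype (φ a) = ψ a
  rw [Equiv.extendSubtype_apply_of_mem e (φ a) h]
  have h1 : (Equiv.ofInjective φ φ.injective).symm ⟨φ a, h⟩ = a :=
    Equiv.ofInjective_symm_apply φ.injective a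
  change ((Equiv.ofInjective ψ ψ.injective) ((Equiv.ofInjective φ φ.injective).symm ⟨φ a, h⟩) : k) = _
  rw [h1]
  rfl

theorem map_emb_emb (φ : n ↪ k) (ψ : k ↪ k') (g : (Matrix n n R)ˣ) :
    Units.map (emb ψ) (Units.map (emb φ) g) = Units.map (emb (φ.trans ψ)) g :=
  Units.ext (emb_emb φ ψ g.val)

/-- membership does not depend on the embedding -/
theorem emb_mem_of (φ ψ : n ↪ k) {g : (Matrix n n R)ˣ} (h : Units.map (emb φ) g ∈ E k R) :
    Units.map (emb ψ) g ∈ E k R := by
  obtain ⟨σ, rfl⟩ := exists_perm φ ψ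
  rw [← map_emb_emb]
  exact emb_mem _ h

theorem emb_mem_of_card (φ : n ↪ k) (ψ : n ↪ k') (hk : Fintype.card k ≤ Fintype.card k')
    {g : (Matrix n n R)ˣ} (h : Units.map (emb φ) g ∈ E k R) : Units.map (emb ψ) g ∈ E k' R := by
  obtain ⟨χ⟩ := Function.Embedding.nonempty_of_card_le hk
  refine emb_mem_of (φ.trans χ) ψ ?_
  rw [← map_emb_emb]
  exact emb_mem _ h

theorem isSE_of_emb (φ : n ↪ k) {g : (Matrix n n R)ˣ} (h : Units.map (emb φ) g ∈ E k R) :
    IsSE g :=
  ⟨Fintype.card k, emb_mem_of_card φ _ (by simp) h⟩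

theorem emb_refl (M : Matrix n n R) : emb (Function.Embedding.refl n) M = M := by
  have h1 : pm R (Function.Embedding.refl n) = 1 := by
    ext i j; simp [pm, Matrix.one_apply]
  have h2 : qm R (Function.Embedding.refl n) = 1 := by
    ext i j; simp [qm, Matrix.one_apply, eq_comm]
  rw [emb_apply, h1, h2, Matrix.one_mul, Matrix.mul_one, add_sub_cancel]

theorem isSE_of_mem {g : (Matrix n n R)ˣ} (hg : g ∈ E n R) : IsSE g := by
  refine isSE_of_emb (Function.Embedding.refl n) ?_
  have : Units.map (emb (Function.Embedding.refl n)) g = g := Units.ext (emb_refl g.val)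
  rwa [this]

theorem isSE_iff {g : (Matrix n n R)ˣ} : IsSE g ↔ ∃ (k : ℕ) (φ : n ↪ Fin k),
    Units.map (emb φ) g ∈ E (Fin k) R := by
  constructor
  · rintro ⟨m, hm⟩
    obtain ⟨χ⟩ := Function.Embedding.nonempty_of_card_le
      (α := n ⊕ Fin m) (β := Fin (Fintype.card (n ⊕ Fin m))) (by simp)
    refine ⟨_, Function.Embedding.inl.trans χ, ?_⟩
    rw [← map_emb_emb]
    exact emb_mem _ hm
  · rintro ⟨k, φ, h⟩
    exact isSE_of_emb φ h

/-- if `g` is stably elementary then `diag(g, 1)` is elementary for all large sizes -/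
theorem IsSE.large {g : (Matrix n n R)ˣ} (h : IsSE g) : ∃ k₀ : ℕ, ∀ {n'' : Type} [DecidableEq n'']
    [Fintype n''] (φ : n ↪ n''), k₀ ≤ Fintype.card n'' → Units.map (emb φ) g ∈ E n'' R := by
  obtain ⟨m, hm⟩ := h
  exact ⟨Fintype.card (n ⊕ Fin m), fun φ hφ => emb_mem_of_card _ φ hφ hm⟩

/-- the same in every universe -/
theorem IsSE.large' {g : (Matrix n n R)ˣ} (h : IsSE g) : ∃ k₀ : ℕ, ∀ m : ℕ, k₀ ≤ m →
    Units.map (emb (Function.Embedding.inl : n ↪ n ⊕ Fin m)) g ∈ E (n ⊕ Fin m) R := by
  obtain ⟨m, hm⟩ := h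
  exact ⟨m, fun m' hm' => emb_mem_of_card _ _ (by simpa using hm') hm⟩

theorem isSE_emb (φ : n ↪ n') {g : (Matrix n n R)ˣ} : IsSE (Units.map (emb φ) g) ↔ IsSE g := by
  constructor
  · rintro ⟨m, hm⟩
    rw [map_emb_emb] at hm
    exact isSE_of_emb _ hm
  · rintro ⟨m, hm⟩
    refine ⟨Fintype.card (n ⊕ Fin m), ?_⟩
    rw [map_emb_emb]
    exact emb_mem_of_card _ _ (by simp) hm

theorem isSE_one : IsSE (1 : (Matrix n n R)ˣ) := isSE_of_mem (one_mem _)

theorem IsSE.mul {g g' : (Matrix n n R)ˣ} (h : IsSE g) (h' : IsSE g') : IsSE (g * g') := by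
  obtain ⟨a, ha⟩ := h.large'
  obtain ⟨b, hb⟩ := h'.large'
  refine ⟨max a b, ?_⟩
  rw [map_mul]
  exact mul_mem (ha _ (le_max_left a b)) (hb _ (le_max_right a b))

theorem IsSE.inv {g : (Matrix n n R)ˣ} (h : IsSE g) : IsSE g⁻¹ := by
  obtain ⟨m, hm⟩ := h
  refine ⟨m, ?_⟩
  rw [map_inv]
  exact inv_mem hm

/-! ### Whitehead's lemma -/

/-- the block matrix `1 X; 0 1` -/
def bup (X : Matrix n n R) : (Matrix (n ⊕ n) (n ⊕ n) R)ˣ where
  val := fromBlocks 1 X 0 1
  inv := fromBlocks 1 (-X) 0 1
  val_inv := by simp [fromBlocks_multiply, fromBlocks_one]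
  inv_val := by simp [fromBlocks_multiply, fromBlocks_one]

/-- the block matrix `1 0; X 1` -/
def blo (X : Matrix n n R) : (Matrix (n ⊕ n) (n ⊕ n) R)ˣ where
  val := fromBlocks 1 0 X 1
  inv := fromBlocks 1 0 (-X) 1
  val_inv := by simp [fromBlocks_multiply, fromBlocks_one]
  inv_val := by simp [fromBlocks_multiply, fromBlocks_one]

theorem bup_mem (X : Matrix n n R) : bup X ∈ E (n ⊕ n) R := by
  induction X using Matrix.induction_on' with
  | h_zero =>
    have : bup (0 : Matrix n n R) = 1 := Units.ext (by simp [bup, fromBlocks_one])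
    rw [this]
    exact one_mem _
  | h_add p q hp hq =>
    have : bup (p + q) = bup p * bup q :=
      Units.ext (by simp [bup, fromBlocks_multiply, add_comm])
    rw [this]
    exact mul_mem hp hq
  | h_std_basis i j x =>
    have : bup (Matrix.single i j x) = el (Sum.inl i) (Sum.inr j) (by simp) x := by
      apply Units.ext
      change fromBlocks 1 _ 0 1 = 1 + Matrix.single (Sum.inl i) (Sum.inr j) x
      ext a b
      rcases a with a | a <;> rcases b with b | b <;>
        simp [Matrix.one_apply, Matrix.single_apply]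
    rw [this]
    exact el_mem _ _ _ _

theorem blo_mem (X : Matrix n n R) : blo X ∈ E (n ⊕ n) R := by
  induction X using Matrix.induction_on' with
  | h_zero =>
    have : blo (0 : Matrix n n R) = 1 := Units.ext (by simp [blo, fromBlocks_one])
    rw [this]
    exact one_mem _
  | h_add p q hp hq =>
    have : blo (p + q) = blo p * blo q :=
      Units.ext (by simp [blo, fromBlocks_multiply])
    rw [this]
    exact mul_mem hp hq
  | h_std_basis i j x =>
    have : blo (Matrix.single i j x) = el (Sum.inr i) (Sum.inl j) (by simp) x := by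
      apply Units.ext
      change fromBlocks 1 0 _ 1 = 1 + Matrix.single (Sum.inr i) (Sum.inl j) x
      ext a b
      rcases a with a | a <;> rcases b with b | b <;>
        simp [Matrix.one_apply, Matrix.single_apply]
    rw [this]
    exact el_mem _ _ _ _

/-- the block matrix `g 0; 0 h` -/
def bdg (g h : (Matrix n n R)ˣ) : (Matrix (n ⊕ n) (n ⊕ n) R)ˣ where
  val := fromBlocks g.val 0 0 h.val
  inv := fromBlocks g⁻¹.val 0 0 h⁻¹.val
  val_inv := by simp [fromBlocks_multiply, fromBlocks_one]
  inv_val := by simp [fromBlocks_multiply, fromBlocks_one]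

theorem bdg_mul (g h g' h' : (Matrix n n R)ˣ) : bdg (g * g') (h * h') = bdg g h * bdg g' h' :=
  Units.ext (by simp [bdg, fromBlocks_multiply])

theorem bdg_inv_mem (g : (Matrix n n R)ˣ) : bdg g g⁻¹ ∈ E (n ⊕ n) R := by
  have : bdg g g⁻¹ = bup g.val * blo (-g⁻¹.val) * bup g.val * (bup (-1) * blo 1 * bup (-1)) := by
    apply Units.ext
    simp [bdg, bup, blo, fromBlocks_multiply]
  rw [this]
  exact mul_mem (mul_mem (mul_mem (bup_mem _) (blo_mem _)) (bup_mem _))
    (mul_mem (mul_mem (bup_mem _) (blo_mem _)) (bup_mem _))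

theorem emb_inl (g : Matrix n n R) :
    emb (Function.Embedding.inl : n ↪ n ⊕ k) g = fromBlocks g 0 0 1 := by
  rw [emb_apply]
  ext a b
  rcases a with a | a <;> rcases b with b | b <;>
    simp [Matrix.mul_apply, pm, qm, Matrix.one_apply, Finset.sum_ite_eq]

theorem isSE_comm (g g' : (Matrix n n R)ˣ) : IsSE (g * g' * g⁻¹ * g'⁻¹) := by
  refine isSE_of_emb (Function.Embedding.inl : n ↪ n ⊕ n) ?_
  have : Units.map (emb (Function.Embedding.inl : n ↪ n ⊕ n)) (g * g' * g⁻¹ * g'⁻¹) =
      bdg g g⁻¹ * bdg g' g'⁻¹ * bdg (g' * g)⁻¹ (g' * g)⁻¹⁻¹ := by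
    rw [← bdg_mul, ← bdg_mul]
    apply Units.ext
    change emb _ _ = fromBlocks _ _ _ _
    rw [emb_inl]
    congr 1
    · rw [_root_.mul_inv_rev, mul_assoc, mul_assoc]
    · rw [inv_inv]
      have : g⁻¹ * g'⁻¹ * (g' * g) = 1 := by group
      rw [this, Units.val_one]
  rw [this]
  exact mul_mem (mul_mem (bdg_inv_mem _) (bdg_inv_mem _)) (bdg_inv_mem _)

theorem IsSE.conj {g : (Matrix n n R)ˣ} (h : IsSE g) (g' : (Matrix n n R)ˣ) :
    IsSE (g' * g * g'⁻¹) := by
  have := (isSE_comm g' g).mul h
  rwa [inv_mul_cancel_right] at this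

variable (n R) in
/-- the normal subgroup of the stably elementary matrices -/
def SE : Subgroup (Matrix n n R)ˣ where
  carrier := {g | IsSE g}
  one_mem' := isSE_one
  mul_mem' := fun h h' => h.mul h'
  inv_mem' := fun h => h.inv

theorem mem_SE {g : (Matrix n n R)ˣ} : g ∈ SE n R ↔ IsSE g := Iff.rfl

instance : (SE n R).Normal := ⟨fun _ h g' => IsSE.conj h g'⟩

/-- `g` and `g'` commute modulo stably elementary matrices -/
theorem IsSE.swap {g g' : (Matrix n n R)ˣ} (h : IsSE (g * g')) : IsSE (g' * g) := by
  have := h.conj g⁻¹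
  rwa [inv_inv, inv_mul_cancel_left] at this

/-! ### change of rings -/

theorem map_emb (f : R →+* R') (φ : n ↪ k) (g : (Matrix n n R)ˣ) :
    Units.map (RingHom.mapMatrix (m := k) f).toMonoidHom (Units.map (emb φ) g) =
      Units.map (emb φ) (Units.map (RingHom.mapMatrix (m := n) f).toMonoidHom g) := by
  apply Units.ext
  change (emb φ g.val).map f = emb φ (g.val.map f)
  rw [emb_apply, emb_apply]
  have h1 : (pm R φ).map f = pm R' φ := by
    ext i j; simp only [Matrix.map_apply, pm]; split_ifs <;> simp
  have h2 : (qm R φ).map f = qm R' φ := by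
    ext i j; simp only [Matrix.map_apply, qm]; split_ifs <;> simp
  have h3 : (g.val - 1).map f = g.val.map f - 1 := by
    ext i j; simp [Matrix.one_apply, apply_ite f]
  rw [Matrix.map_add _ (fun a b => map_add f a b), Matrix.map_one _ (map_zero f) (map_one f),
    Matrix.map_mul, Matrix.map_mul, h1, h2, h3]

theorem map_mem_E (f : R →+* R') {g : (Matrix n n R)ˣ} (h : g ∈ E n R) :
    Units.map (RingHom.mapMatrix (m := n) f).toMonoidHom g ∈ E n R' := by
  induction h using Subgroup.closure_induction with
  | mem X hX =>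
    obtain ⟨i, j, hij, x, rfl⟩ := hX
    have : Units.map (RingHom.mapMatrix (m := n) f).toMonoidHom (el i j hij x) =
        el i j hij (f x) := by
      apply Units.ext
      change (1 + Matrix.single i j x).map f = 1 + Matrix.single i j (f x)
      ext a b
      simp only [Matrix.map_apply, Matrix.add_apply, map_add, Matrix.one_apply, Matrix.single_apply]
      split_ifs <;> simp
    rw [this]
    exact el_mem _ _ _ _
  | one => rw [map_one]; exact one_mem _
  | mul X Y _ _ hX hY => rw [map_mul]; exact mul_mem hX hY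
  | inv X _ hX => rw [map_inv]; exact inv_mem hX

theorem IsSE.map (f : R →+* R') {g : (Matrix n n R)ˣ} (h : IsSE g) :
    IsSE (Units.map (RingHom.mapMatrix (m := n) f).toMonoidHom g) := by
  obtain ⟨m, hm⟩ := h
  refine ⟨m, ?_⟩
  rw [← map_emb]
  exact map_mem_E f hm

theorem emb_equiv (e : n ≃ n') (M : Matrix n n R) :
    emb e.toEmbedding M = Matrix.reindex e e M := by
  rw [emb_apply, Matrix.mul_sub, Matrix.sub_mul, Matrix.mul_one]
  have h1 : pm R e.toEmbedding * qm R e.toEmbedding = 1 := by
    ext i j
    rw [Matrix.mul_apply, Finset.sum_eq_single (e.symm i)]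
    · by_cases h : i = j
      · subst h; simp [pm, qm]
      · have : ¬ j = i := fun h' => h h'.symm
        simp [pm, qm, Matrix.one_apply, h, this]
    · intro a _ ha
      have : ¬ i = e a := fun h' => ha (by rw [h', e.symm_apply_apply])
      simp [pm, this]
    · intro h
      exact absurd (Finset.mem_univ _) h
  rw [h1, add_sub_cancel]
  ext i j
  rw [Matrix.mul_apply, Finset.sum_eq_single (e.symm j)]
  · rw [Matrix.mul_apply, Finset.sum_eq_single (e.symm i)]
    · simp [pm, qm]
    · intro a _ ha
      have : ¬ i = e a := fun h' => ha (by rw [h', e.symm_apply_apply])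
      simp [pm, this]
    · intro h
      exact absurd (Finset.mem_univ _) h
  · intro a _ ha
    have : ¬ j = e a := fun h' => ha (by rw [h', e.symm_apply_apply])
    simp [qm, this]
  · intro h
    exact absurd (Finset.mem_univ _) h

theorem isSE_reindex (e : n ≃ n') (g : (Matrix n n R)ˣ) :
    IsSE (Units.map (Matrix.reindexRingEquiv (R := R) e).toRingHom.toMonoidHom g) ↔ IsSE g := by
  have : Units.map (Matrix.reindexRingEquiv (R := R) e).toRingHom.toMonoidHom g =
      Units.map (emb e.toEmbedding) g :=
    Units.ext (emb_equiv e g.val).symm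
  rw [this]
  exact isSE_emb _

/-! ### block diagonal matrices -/

/-- the permutation matrix -/
def pU (R : Type*) [Ring R] (σ : Equiv.Perm k) : (Matrix k k R)ˣ where
  val := pm R σ.toEmbedding
  inv := qm R σ.toEmbedding
  val_inv := by
    have := emb_equiv (R := R) σ 0
    rw [emb_apply, Matrix.mul_sub, Matrix.sub_mul, Matrix.mul_one, Matrix.mul_zero,
      Matrix.zero_mul, zero_sub, ← sub_eq_add_neg] at this
    have h0 : Matrix.reindex σ σ (0 : Matrix k k R) = 0 := by ext; rfl
    rw [h0, sub_eq_zero] at this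
    exact this.symm
  inv_val := qm_mul_pm _

theorem emb_perm (σ : Equiv.Perm k) (g : (Matrix k k R)ˣ) :
    Units.map (emb σ.toEmbedding) g = pU R σ * g * (pU R σ)⁻¹ := by
  apply Units.ext
  change emb _ _ = (pU R σ).val * g.val * ((pU R σ)⁻¹).val
  have : (pU R σ).val * ((pU R σ)⁻¹).val = 1 := Units.mul_inv _
  change _ = pm R σ.toEmbedding * g.val * qm R σ.toEmbedding
  change pm R σ.toEmbedding * qm R σ.toEmbedding = 1 at this
  rw [emb_apply, Matrix.mul_sub, Matrix.sub_mul, Matrix.mul_one, this, add_sub_cancel]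

/-- `diag(g, 1)` and `diag(1, g)` agree modulo stably elementary matrices -/
theorem isSE_emb_div (φ ψ : n ↪ k) (g : (Matrix n n R)ˣ) :
    IsSE (Units.map (emb ψ) g * (Units.map (emb φ) g)⁻¹) := by
  obtain ⟨σ, rfl⟩ := exists_perm φ ψ
  rw [← map_emb_emb, emb_perm]
  exact isSE_comm _ _

/-- `H copies of g` -/
def copies (k : Type*) [DecidableEq k] [Fintype k] : (Matrix n n R)ˣ →* (Matrix (n × k) (n × k) R)ˣ :=
  Units.map { toFun := fun M => Matrix.blockDiagonal fun _ : k => M
              map_one' := by exact Matrix.blockDiagonal_one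
              map_mul' := fun M M' => by exact Matrix.blockDiagonal_mul _ _ }

/-- the block diagonal matrix of a family of invertible matrices -/
def bd (k : Type*) [DecidableEq k] [Fintype k] : (k → (Matrix n n R)ˣ) →* (Matrix (n × k) (n × k) R)ˣ where
  toFun G := { val := Matrix.blockDiagonal fun i => (G i).val
               inv := Matrix.blockDiagonal fun i => ((G i)⁻¹).val
               val_inv := by
                rw [← Matrix.blockDiagonal_mul, ← Matrix.blockDiagonal_one]
                congr 1
                funext i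
                exact Units.mul_inv _
               inv_val := by
                rw [← Matrix.blockDiagonal_mul, ← Matrix.blockDiagonal_one]
                congr 1
                funext i
                exact Units.inv_mul _ }
  map_one' := Units.ext Matrix.blockDiagonal_one
  map_mul' G G' := Units.ext (by
    change Matrix.blockDiagonal (fun i => (G i).val * (G' i).val) = _
    exact Matrix.blockDiagonal_mul _ _)

/-- the embedding in the place `j` -/
def pl (n : Type*) {k : Type*} (j : k) : n ↪ n × k := ⟨fun a => (a, j), fun a b h => (Prod.ext_iff.mp h).1⟩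

theorem pl_apply (j : k) (a : n) : pl n j a = (a, j) := rfl

theorem bd_single (j : k) (g : (Matrix n n R)ˣ) :
    bd k (Function.update 1 j g) = Units.map (emb (pl n j)) g := by
  apply Units.ext
  change Matrix.blockDiagonal (fun i => (Function.update (1 : k → (Matrix n n R)ˣ) j g i).val) =
    emb (pl n j) g.val
  rw [emb_apply]
  ext ⟨a, i⟩ ⟨b, i'⟩
  rw [Matrix.blockDiagonal_apply, Matrix.add_apply]
  have h : (pm R (pl n j) * (g.val - 1) * qm R (pl n j) : Matrix (n × k) (n × k) R) (a, i) (b, i') =
      if i = j ∧ i' = j then (g.val - 1) a b else 0 := by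
    rw [Matrix.mul_apply, Finset.sum_eq_single b]
    · rw [Matrix.mul_apply, Finset.sum_eq_single a]
      · by_cases h1 : i = j <;> by_cases h2 : i' = j <;> simp [pm, qm, pl_apply, h1, h2]
      · intro c _ hc
        have : ¬ (a, i) = (c, j) := fun h' => hc (Prod.ext_iff.mp h').1.symm
        simp [pm, pl_apply, this, Ne.symm hc]
      · intro h
        exact absurd (Finset.mem_univ _) h
    · intro c _ hc
      simp [qm, pl_apply, Ne.symm hc]
    · intro h
      exact absurd (Finset.mem_univ _) h
  rw [h]
  by_cases h1 : i = i'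
  · subst h1
    by_cases h2 : i = j
    · subst h2
      simp [Matrix.one_apply]
    · rw [Function.update_of_ne h2]
      simp [Matrix.one_apply, h2]
  · rw [if_neg (by simpa using h1)]
    have : ¬ (i = j ∧ i' = j) := fun h' => h1 (h'.1.trans h'.2.symm)
    rw [if_neg this, add_zero, Matrix.one_apply_ne]
    exact fun h' => h1 (Prod.ext_iff.mp h').2

/-- a block diagonal matrix with `s` blocks `g` -/
theorem isSE_bd (j : k) (g : (Matrix n n R)ˣ) (s : Finset k) :
    IsSE (bd k (fun i => if i ∈ s then g else 1) * (Units.map (emb (pl n j)) (g ^ s.card))⁻¹) := by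
  classical
  induction s using Finset.induction_on with
  | empty =>
    have : bd k (fun i => if i ∈ (∅ : Finset k) then g else 1) = 1 := by
      rw [← map_one (bd (n := n) (R := R) k)]
      congr 1
    rw [this, Finset.card_empty, pow_zero, map_one, inv_one, one_mul]
    exact isSE_one
  | insert i s hi ih =>
    have h1 : bd k (fun l => if l ∈ insert i s then g else 1) =
        Units.map (emb (pl n i)) g * bd k (fun l => if l ∈ s then g else 1) := by
      rw [← bd_single, ← map_mul]
      congr 1
      funext l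
      by_cases hl : l = i
      · subst hl
        rw [Pi.mul_apply, Function.update_self, if_neg hi, if_pos (Finset.mem_insert_self _ _),
          mul_one]
      · rw [Pi.mul_apply, Function.update_of_ne hl, Pi.one_apply, one_mul]
        simp [hl]
    rw [h1, Finset.card_insert_of_notMem hi, pow_succ, map_mul, _root_.mul_inv_rev]
    set A := Units.map (emb (pl n i)) g with hA
    set B := bd k (fun l => if l ∈ s then g else 1) with hB
    set C := Units.map (emb (pl n j)) g with hC
    set D := Units.map (emb (pl n j)) (g ^ s.card) with hD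
    have h2 : IsSE (A * C⁻¹) := isSE_emb_div (pl n j) (pl n i) g
    have e : A * B * (C⁻¹ * D⁻¹) = A * (B * C⁻¹ * B⁻¹ * C) * A⁻¹ * (A * C⁻¹) * (B * D⁻¹) := by
      group
    have h3 : IsSE (B * C⁻¹ * B⁻¹ * C) := by simpa using isSE_comm B C⁻¹
    rw [e]
    exact ((h3.conj A).mul h2).mul ih

/-- `diag(g, …, g)` is stably elementary iff `g ^ k` is -/
theorem isSE_copies (k : ℕ) (g : (Matrix n n R)ˣ) : IsSE (copies (Fin k) g) ↔ IsSE (g ^ k) := by
  rcases k with _ | k
  · rw [pow_zero]
    constructor
    · exact fun _ => isSE_one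
    · intro _
      have : copies (Fin 0) g = 1 := by
        apply Units.ext
        ext ⟨a, i⟩
        exact i.elim0
      rw [this]
      exact isSE_one
  · have h := isSE_bd (0 : Fin (k + 1)) g Finset.univ
    have e : bd (Fin (k + 1)) (fun i => if i ∈ (Finset.univ : Finset (Fin (k + 1))) then g else 1) =
        copies (Fin (k + 1)) g := by
      apply Units.ext
      change Matrix.blockDiagonal (fun i => (if i ∈ (Finset.univ : Finset (Fin (k + 1))) then g
        else 1 : (Matrix n n R)ˣ).val) = Matrix.blockDiagonal fun _ => g.val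
      congr 1
      funext i
      rw [if_pos (Finset.mem_univ _)]
    rw [e, Finset.card_univ, Fintype.card_fin] at h
    rw [← isSE_emb (pl n (0 : Fin (k + 1))) (g := g ^ (k + 1))]
    constructor
    · intro h1
      have := h.inv.mul h1
      simpa using this
    · intro h1
      have := h.mul h1
      simpa using this

/-! ### splitting of the index set -/

section pi

variable {ι : Type*} {Λ : ι → Type*} [∀ i, Ring (Λ i)]

open Classical in
/-- extension by the identity matrix -/
noncomputable def extF (s : Set ι) (M : Matrix n n (∀ i : s, Λ i.1)) : Matrix n n (∀ i, Λ i) :=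
  Matrix.of fun a b i => if h : i ∈ s then M a b ⟨i, h⟩ else (1 : Matrix n n (Λ i)) a b

theorem extF_apply_mem {s : Set ι} (M : Matrix n n (∀ i : s, Λ i.1)) (a b : n) (i : ι)
    (h : i ∈ s) : extF s M a b i = M a b ⟨i, h⟩ := dif_pos h

theorem extF_apply_not {s : Set ι} (M : Matrix n n (∀ i : s, Λ i.1)) (a b : n) (i : ι)
    (h : i ∉ s) : extF s M a b i = (1 : Matrix n n (Λ i)) a b := dif_neg h

theorem mul_pi_apply (M M' : Matrix n n (∀ i, Λ i)) (a b : n) (i : ι) :
    (M * M') a b i = ∑ c, M a c i * M' c b i := by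
  rw [Matrix.mul_apply, Finset.sum_apply]
  rfl

/-- extension by the identity matrix, as a homomorphism -/
noncomputable def extOne (s : Set ι) :
    Matrix n n (∀ i : s, Λ i.1) →* Matrix n n (∀ i, Λ i) where
  toFun := extF s
  map_one' := by
    ext a b i
    by_cases h : i ∈ s
    · rw [extF_apply_mem _ _ _ _ h]
      by_cases hab : a = b
      · subst hab
        rw [Matrix.one_apply_eq, Matrix.one_apply_eq]; rfl
      · rw [Matrix.one_apply_ne hab, Matrix.one_apply_ne hab]; rfl
    · rw [extF_apply_not _ _ _ _ h]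
      by_cases hab : a = b
      · subst hab
        rw [Matrix.one_apply_eq, Matrix.one_apply_eq]; rfl
      · rw [Matrix.one_apply_ne hab, Matrix.one_apply_ne hab]; rfl
  map_mul' M M' := by
    ext a b i
    rw [mul_pi_apply]
    by_cases h : i ∈ s
    · rw [extF_apply_mem _ _ _ _ h, mul_pi_apply]
      exact Finset.sum_congr rfl fun c _ => by
        rw [extF_apply_mem _ _ _ _ h, extF_apply_mem _ _ _ _ h]
    · rw [extF_apply_not _ _ _ _ h]
      rw [Finset.sum_congr rfl fun c _ => by
        rw [extF_apply_not _ _ _ _ h, extF_apply_not _ _ _ _ h]]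
      rw [← Matrix.mul_apply, Matrix.one_mul]

theorem extOne_apply {s : Set ι} (M : Matrix n n (∀ i : s, Λ i.1)) : extOne s M = extF s M := rfl

theorem extOne_mem {s : Set ι} {g : (Matrix n n (∀ i : s, Λ i.1))ˣ} (hg : g ∈ E n _) :
    Units.map (extOne s) g ∈ E n (∀ i, Λ i) := by
  classical
  induction hg using Subgroup.closure_induction with
  | mem X hX =>
    obtain ⟨i, j, hij, x, rfl⟩ := hX
    have : Units.map (extOne s) (el i j hij x) =
        el i j hij (fun l => if h : l ∈ s then x ⟨l, h⟩ else 0) := by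
      apply Units.ext
      change extF s (1 + Matrix.single i j x) = (1 + Matrix.single i j
        (fun l => if h : l ∈ s then x ⟨l, h⟩ else 0) : Matrix n n (∀ i, Λ i))
      ext a b l
      rw [Matrix.add_apply, Pi.add_apply]
      by_cases h : l ∈ s
      · rw [extF_apply_mem _ _ _ _ h, Matrix.add_apply, Pi.add_apply, Matrix.single_apply,
          Matrix.single_apply, Matrix.one_apply, Matrix.one_apply]
        split_ifs <;> simp [h]
      · rw [extF_apply_not _ _ _ _ h, Matrix.single_apply, Matrix.one_apply, Matrix.one_apply]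
        split_ifs <;> simp [h]
    rw [this]
    exact el_mem _ _ _ _
  | one => rw [map_one]; exact one_mem _
  | mul X Y _ _ hX hY => rw [map_mul]; exact mul_mem hX hY
  | inv X _ hX => rw [map_inv]; exact inv_mem hX

/-- an invertible matrix over a product is elementary if its two parts are -/
theorem mem_E_pi_split (s : Set ι) (g : (Matrix n n (∀ i, Λ i))ˣ)
    (h1 : Units.map (RingHom.mapMatrix (m := n)
      (RingHom.pi fun i : s => Pi.evalRingHom Λ i.1)).toMonoidHom g ∈ E n _)
    (h2 : Units.map (RingHom.mapMatrix (m := n)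
      (RingHom.pi fun i : (sᶜ : Set ι) => Pi.evalRingHom Λ i.1)).toMonoidHom g ∈ E n _) :
    g ∈ E n (∀ i, Λ i) := by
  have e : g = Units.map (extOne s) (Units.map (RingHom.mapMatrix (m := n)
      (RingHom.pi fun i : s => Pi.evalRingHom Λ i.1)).toMonoidHom g) *
      Units.map (extOne sᶜ) (Units.map (RingHom.mapMatrix (m := n)
      (RingHom.pi fun i : (sᶜ : Set ι) => Pi.evalRingHom Λ i.1)).toMonoidHom g) := by
    apply Units.ext
    rw [Units.val_mul]
    change g.val = extF s (g.val.map (RingHom.pi fun i : s => Pi.evalRingHom Λ i.1)) *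
      extF sᶜ (g.val.map (RingHom.pi fun i : (sᶜ : Set ι) => Pi.evalRingHom Λ i.1))
    ext a b i
    rw [mul_pi_apply]
    by_cases h : i ∈ s
    · have h' : i ∉ sᶜ := fun h' => h' h
      have : ∀ c, extF s (g.val.map (RingHom.pi fun i : s => Pi.evalRingHom Λ i.1)) a c i *
          extF sᶜ (g.val.map (RingHom.pi fun i : (sᶜ : Set ι) => Pi.evalRingHom Λ i.1)) c b i =
          g.val a c i * (1 : Matrix n n (Λ i)) c b := fun c => by
        rw [extF_apply_mem _ _ _ _ h, extF_apply_not _ _ _ _ h']; rfl
      rw [Finset.sum_congr rfl fun c _ => this c]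
      rw [Finset.sum_eq_single b]
      · rw [Matrix.one_apply_eq, mul_one]
      · intro c _ hc
        rw [Matrix.one_apply_ne hc, mul_zero]
      · intro h
        exact absurd (Finset.mem_univ _) h
    · have h' : i ∈ sᶜ := h
      have : ∀ c, extF s (g.val.map (RingHom.pi fun i : s => Pi.evalRingHom Λ i.1)) a c i *
          extF sᶜ (g.val.map (RingHom.pi fun i : (sᶜ : Set ι) => Pi.evalRingHom Λ i.1)) c b i =
          (1 : Matrix n n (Λ i)) a c * g.val c b i := fun c => by
        rw [extF_apply_not _ _ _ _ h, extF_apply_mem _ _ _ _ h']; rfl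
      rw [Finset.sum_congr rfl fun c _ => this c]
      rw [Finset.sum_eq_single a]
      · rw [Matrix.one_apply_eq, one_mul]
      · intro c _ hc
        rw [Matrix.one_apply_ne (Ne.symm hc), zero_mul]
      · intro h
        exact absurd (Finset.mem_univ _) h
  rw [e]
  exact mul_mem (extOne_mem h1) (extOne_mem h2)

/-- splitting of the index set of a product ring -/
theorem isSE_pi_split (s : Set ι) (g : (Matrix n n (∀ i, Λ i))ˣ)
    (h1 : IsSE (Units.map (RingHom.mapMatrix (m := n)
      (RingHom.pi fun i : s => Pi.evalRingHom Λ i.1)).toMonoidHom g))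
    (h2 : IsSE (Units.map (RingHom.mapMatrix (m := n)
      (RingHom.pi fun i : (sᶜ : Set ι) => Pi.evalRingHom Λ i.1)).toMonoidHom g)) : IsSE g := by
  obtain ⟨a, ha⟩ := h1.large'
  obtain ⟨b, hb⟩ := h2.large'
  refine ⟨max a b, mem_E_pi_split s _ ?_ ?_⟩
  · rw [map_emb]
    exact ha _ (le_max_left a b)
  · rw [map_emb]
    exact hb _ (le_max_right a b)

end pi

end K

end BWG
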