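import Pool.Agent.BWG.SP
import Pool.Agent.BWG.A2
import Pool.Agent.BWG.K
import Pool.Agent.BW.Unif2

/-!
# Row F2: if `rdet U = 1` then `U ^ (d ^ 2)` is stably elementary
-/

set_option autoImplicit false
set_option linter.unusedSectionVars false

namespace BWG

open Matrix BW
open Pool.Agent.Helper24.BWR (emb SR2')

section one

variable {R Λ m k : Type*} [CommRing R] [Ring Λ] [Algebra R Λ] [Fintype m] [DecidableEq m]
  [Fintype k] [DecidableEq k]

/-- the basis of the columns -/
noncomputable def bas (e : Module.Basis k R Λ) : Module.Basis (m × k) R (m → Λ) :=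
  (Pi.basis fun _ : m => e).reindex (Equiv.sigmaEquivProd m k)

theorem bas_apply (e : Module.Basis k R Λ) (p : m × k) :
    bas e p = (Pi.single p.1 (e p.2) : m → Λ) := by
  rw [bas, Module.Basis.reindex_apply, Pi.basis_apply]
  rfl

theorem bas_repr (e : Module.Basis k R Λ) (x : m → Λ) (p : m × k) :
    (bas e).repr x p = e.repr (x p.1) p.2 := by
  rw [bas, Module.Basis.repr_reindex_apply, Pi.basis_repr]
  rfl

/-- the left regular representation -/
noncomputable def Lreg (e : Module.Basis k R Λ) : Matrix m m Λ →* Matrix (m × k) (m × k) R where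
  toFun X := LinearMap.toMatrix (bas e) (bas e) (lmul R X)
  map_one' := by
    have h : lmul R (1 : Matrix m m Λ) = LinearMap.id := by
      apply LinearMap.ext
      intro v
      exact Matrix.one_mulVec v
    rw [h, LinearMap.toMatrix_id]
  map_mul' X Y := by
    have h : lmul R (X * Y) = lmul R X ∘ₗ lmul R Y := by
      apply LinearMap.ext
      intro v
      exact (Matrix.mulVec_mulVec v X Y).symm
    rw [h, LinearMap.toMatrix_comp (bas e) (bas e) (bas e)]

theorem Lreg_apply (e : Module.Basis k R Λ) (X : Matrix m m Λ) (p q : m × k) :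
    Lreg e X p q = e.repr (X p.1 q.1 * e q.2) p.2 := by
  change LinearMap.toMatrix (bas e) (bas e) (lmul R X) p q = _
  rw [LinearMap.toMatrix_apply, bas_repr, bas_apply]
  change e.repr ((X *ᵥ Pi.single q.1 (e q.2)) p.1) p.2 = _
  rw [Matrix.mulVec_single]
  rfl

theorem det_Lreg (e : Module.Basis k R Λ) (X : Matrix m m Λ) : (Lreg e X).det = rdet R X :=
  LinearMap.det_toMatrix (bas e) (lmul R X)

/-- `diag(T, …, T)` with the other order of the indices -/
def oT : Matrix k k Λ →* Matrix (m × k) (m × k) Λ where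
  toFun T := Matrix.of fun p q => if p.1 = q.1 then T p.2 q.2 else 0
  map_one' := by
    ext ⟨a, j⟩ ⟨b, l⟩
    by_cases h : a = b
    · subst h
      by_cases h' : j = l
      · subst h'
        simp
      · simp [h', Matrix.one_apply]
    · simp [h, Matrix.one_apply]
  map_mul' T T' := by
    ext ⟨a, j⟩ ⟨b, l⟩
    rw [Matrix.mul_apply, Fintype.sum_prod_type]
    simp only [Matrix.of_apply]
    rw [Finset.sum_eq_single a]
    · simp only [if_true]
      by_cases h : a = b
      · simp [h, Matrix.mul_apply]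
      · simp [h]
    · intro c _ hc
      refine Finset.sum_eq_zero fun x _ => ?_
      rw [if_neg (Ne.symm hc), zero_mul]
    · intro h
      exact absurd (Finset.mem_univ _) h

theorem oT_mul_Lreg (e : Module.Basis k R Λ) (T : Matrix k k Λ) (hT : ∀ j q, T j q = e q * e j)
    (X : Matrix m m Λ) : oT T * (Lreg e X).map (algebraMap R Λ) =
      (Matrix.blockDiagonal fun _ : k => X) * oT T := by
  ext ⟨a, j⟩ ⟨b, q⟩
  rw [Matrix.mul_apply, Matrix.mul_apply, Fintype.sum_prod_type, Fintype.sum_prod_type]
  have h1 : ∑ c, ∑ l, (oT T) (a, j) (c, l) * ((Lreg e X).map (algebraMap R Λ)) (c, l) (b, q) =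
      X a b * T j q := by
    rw [Finset.sum_eq_single a]
    · have h2 : ∀ l, (oT T) (a, j) (a, l) * ((Lreg e X).map (algebraMap R Λ)) (a, l) (b, q) =
          (e.repr (X a b * e q) l) • e l * e j := by
        intro l
        change (if a = a then T j l else 0) * algebraMap R Λ (Lreg e X (a, l) (b, q)) = _
        rw [if_pos rfl, Lreg_apply, hT, ← Algebra.commutes, Algebra.smul_def, mul_assoc]
      rw [Finset.sum_congr rfl fun l _ => h2 l, ← Finset.sum_mul, e.sum_repr, hT, mul_assoc]
    · intro c _ hc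
      refine Finset.sum_eq_zero fun x _ => ?_
      change (if a = c then T j x else 0) * _ = 0
      rw [if_neg (Ne.symm hc), zero_mul]
    · intro h
      exact absurd (Finset.mem_univ _) h
  have h2 : ∑ c, ∑ l, (Matrix.blockDiagonal fun _ : k => X) (a, j) (c, l) * (oT T) (c, l) (b, q) =
      X a b * T j q := by
    rw [Finset.sum_eq_single b]
    · rw [Finset.sum_eq_single j]
      · change (Matrix.blockDiagonal fun _ : k => X) (a, j) (b, j) *
          (if b = b then T j q else 0) = _
        rw [if_pos rfl, Matrix.blockDiagonal_apply, if_pos rfl]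
      · intro l _ hl
        rw [Matrix.blockDiagonal_apply, if_neg (Ne.symm hl), zero_mul]
      · intro h
        exact absurd (Finset.mem_univ _) h
    · intro c _ hc
      refine Finset.sum_eq_zero fun x _ => ?_
      change _ * (if c = b then T x q else 0) = 0
      rw [if_neg hc, mul_zero]
    · intro h
      exact absurd (Finset.mem_univ _) h
  rw [h1, h2]

end one

section Fam

variable {ι : Type*} {d : ℕ} {N : ι → ℕ} {R Λ : ι → Type*} [∀ i, CommRing (R i)] [∀ i, Ring (Λ i)]
  [∀ i, Algebra (R i) (Λ i)] [∀ i, IsLocalization.Away (N i : ℤ) (R i)]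

/-- the structure homomorphism of the product -/
def strHom (R Λ : ι → Type*) [∀ i, CommRing (R i)] [∀ i, Ring (Λ i)] [∀ i, Algebra (R i) (Λ i)] :
    (∀ i, R i) →+* ∀ i, Λ i :=
  RingHom.pi fun i => (algebraMap (R i) (Λ i)).comp (Pi.evalRingHom R i)

omit [∀ i, Algebra (R i) (Λ i)] [∀ i, IsLocalization.Away (N i : ℤ) (R i)]
  [∀ i, CommRing (R i)] in
theorem ext_comp {m : Type*} [Fintype m] [DecidableEq m] {A B : (Matrix m m (∀ i, Λ i))ˣ}
    (h : ∀ i, comp i A = comp i B) : A = B := by
  apply Units.ext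
  ext a b i
  have := congrArg (fun M : (Matrix m m (Λ i))ˣ => M.val a b) (h i)
  exact this

theorem pow_isSE (hN : ∀ i, N i ≠ 0) (h : ∀ i, IsAzumaya d (N i) (R i) (Λ i)) {m : Type*} [Fintype m]
    [DecidableEq m] (U : (Matrix m m (∀ i, Λ i))ˣ) (hU : ∀ i, rdet (R i) (comp i U).val = 1) :
    IsSE (U ^ (d ^ 2)) := by
  choose e T hT using fun i => (h i).exists_T (hN i)
  -- the left regular representation of the family
  obtain ⟨V, hV⟩ : ∃ V : (Matrix (m × Fin (d ^ 2)) (m × Fin (d ^ 2)) (∀ i, R i))ˣ,
      ∀ i, comp i V = Units.map (Lreg (e i)) (comp i U) :=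
    ⟨famU fun i => Units.map (Lreg (e i)) (comp i U), fun i => comp_famU _ i⟩
  have hdet : V.val.det = 1 := by
    funext i
    have h1 : (V.val.det) i = (comp i V).val.det := by
      have := RingHom.map_det (Pi.evalRingHom R i) V.val
      exact this
    rw [h1, hV i]
    change (Lreg (e i) (comp i U).val).det = 1
    rw [det_Lreg, hU i]
  have hVSE : IsSE V := by
    refine ⟨3, split_mem hN ?_ _ ?_⟩
    · rw [Fintype.card_sum, Fintype.card_fin]
      omega
    · change (emb _ V.val).det = 1
      rw [det_emb, hdet]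
  have hWSE := IsSE.map (strHom R Λ) hVSE
  rw [← isSE_copies]
  obtain ⟨TT, hTT⟩ : ∃ TT : (Matrix (m × Fin (d ^ 2)) (m × Fin (d ^ 2)) (∀ i, Λ i))ˣ,
      ∀ i, comp i TT = Units.map oT (T i) :=
    ⟨famU fun i => Units.map oT (T i), fun i => comp_famU _ i⟩
  have key : copies (Fin (d ^ 2)) U =
      TT * Units.map (RingHom.mapMatrix (m := m × Fin (d ^ 2)) (strHom R Λ)).toMonoidHom V * TT⁻¹ := by
    rw [eq_mul_inv_iff_mul_eq]
    apply ext_comp
    intro i
    rw [map_mul, map_mul, hTT i]
    have h1 : comp i (Units.map (RingHom.mapMatrix (m := m × Fin (d ^ 2)) (strHom R Λ)).toMonoidHom V) =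
        Units.map (RingHom.mapMatrix (m := m × Fin (d ^ 2)) (algebraMap (R i) (Λ i))).toMonoidHom
          (comp i V) := by
      apply Units.ext
      ext p q
      rfl
    have h2 : comp i (copies (Fin (d ^ 2)) U) = copies (Fin (d ^ 2)) (comp i U) := by
      apply Units.ext
      ext ⟨a, j⟩ ⟨b, l⟩
      change (Matrix.blockDiagonal fun _ : Fin (d ^ 2) => U.val) (a, j) (b, l) i =
        (Matrix.blockDiagonal fun _ : Fin (d ^ 2) => (comp i U).val) (a, j) (b, l)
      rw [Matrix.blockDiagonal_apply, Matrix.blockDiagonal_apply]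
      by_cases hjl : j = l
      · rw [if_pos hjl, if_pos hjl]
        rfl
      · rw [if_neg hjl, if_neg hjl]
        rfl
    rw [h1, h2, hV i]
    apply Units.ext
    exact (oT_mul_Lreg (e i) (T i).val (hT i) (comp i U).val).symm
  rw [key]
  exact IsSE.conj hWSE TT

end Fam

end BWG
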