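import Pool.Agent.BWG.Loc6

/-!
# The localization theorem
-/

set_option autoImplicit false

namespace BWG

open Matrix BW

/-! ### words with trivial matrix -/

section orbit

variable {I J X : Type} [DecidableEq I] [Fintype I] {K : J → Type} [∀ j, Field (K j)]
  [∀ j, Infinite (K j)] (S : Stb I (∀ j, K j) (Equiv.Perm X)) (o : X)

/-- the action on the orbit -/
def orbHom : S.L →* Equiv.Perm (MulAction.orbit S.L o) :=
  MulAction.toPermHom S.L (MulAction.orbit S.L o)

/-- the letters on the orbit -/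
noncomputable def orbStb : Stb I (∀ j, K j) (Equiv.Perm (MulAction.orbit S.L o)) where
  x a b r := if h : a ≠ b then orbHom S o ⟨S.x a b r, Acts.x_mem' S h r⟩ else 1
  add {a b} h r s := by
    rw [dif_pos h, dif_pos h, dif_pos h, ← map_mul]
    congr 1
    exact Subtype.ext (S.add h r s)
  comm {a b c} hab hbc hac r s := by
    rw [dif_pos hab, dif_pos hbc, dif_pos hac, ← map_mul, ← map_mul, ← map_mul]
    congr 1
    exact Subtype.ext (S.comm hab hbc hac r s)
  disj {a b c d} hab hcd hbc had r s := by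
    rw [dif_pos hab, dif_pos hcd, ← map_mul, ← map_mul]
    congr 1
    exact Subtype.ext (S.disj hab hcd hbc had r s)

theorem orbStb_x {a b : I} (h : a ≠ b) (r : ∀ j, K j) :
    (orbStb S o).x a b r = orbHom S o ⟨S.x a b r, Acts.x_mem' S h r⟩ := dif_pos h

theorem orbStb_w {a b : I} (h : a ≠ b) (u : ((j : J) → K j)ˣ) :
    (orbStb S o).w a b u = orbHom S o ⟨S.w a b u, Acts.w_mem' S h u⟩ := by
  unfold Stb.w
  rw [orbStb_x S o h, orbStb_x S o h.symm, ← map_mul, ← map_mul]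
  rfl

theorem orbStb_h {a b : I} (h : a ≠ b) (u : ((j : J) → K j)ˣ) :
    (orbStb S o).h a b u = orbHom S o ⟨S.h a b u, Acts.h_mem' S h u⟩ := by
  unfold Stb.h
  rw [orbStb_w S o h, orbStb_w S o h, ← map_inv, ← map_mul]
  rfl

theorem orbStb_sy {a b c : I} (hab : a ≠ b) (hac : a ≠ c) (u v : ((j : J) → K j)ˣ) :
    (orbStb S o).sy a b c u v = orbHom S o ⟨S.sy a b c u v, S.sy_mem' hab hac u v⟩ := by
  unfold Stb.sy
  rw [orbStb_h S o hab, orbStb_h S o hac, ← map_inv, ← map_inv, ← map_mul, ← map_mul, ← map_mul]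
  rfl

theorem orb_lift {x : Equiv.Perm X} {g : (Matrix I I (∀ j, K j))ˣ} (h : S.Lift x g) :
    ∃ hx : x ∈ S.L, (orbStb S o).Lift (orbHom S o ⟨x, hx⟩) g := by
  have key : S.Pr ≤ (((orbStb S o).Pr.comap ((orbHom S o).prodMap (MonoidHom.id _))).map
      (S.L.subtype.prodMap (MonoidHom.id (Matrix I I (∀ j, K j))ˣ))) := by
    conv_lhs => unfold Stb.Pr
    rw [Subgroup.closure_le]
    rintro _ ⟨p, q, hpq, r, rfl⟩
    refine ⟨(⟨S.x p q r, Acts.x_mem' S hpq r⟩, el p q hpq r), ?_, rfl⟩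
    change (orbHom S o ⟨S.x p q r, Acts.x_mem' S hpq r⟩, el p q hpq r) ∈ (orbStb S o).Pr
    rw [← orbStb_x S o hpq r]
    exact (orbStb S o).lift_x hpq r
  obtain ⟨⟨⟨y, hy⟩, g'⟩, h1, h2⟩ := key h
  have e1 : y = x := congrArg Prod.fst h2
  have e2 : g' = g := congrArg Prod.snd h2
  subst e1 e2
  exact ⟨hy, h1⟩

/-- words with trivial matrix fix the base point if all symbols do -/
theorem fix_of_lift_one {a b c : I} (hab : a ≠ b) (hac : a ≠ c) (hbc : b ≠ c)
    (hsy : ∀ u v, S.sy a b c u v o = o) {x : Equiv.Perm X} (h : S.Lift x 1) : x o = o := by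
  obtain ⟨hx, h1⟩ := orb_lift S o h
  have h2 : ∀ u v, (orbStb S o).sy a b c u v = 1 := by
    intro u v
    rw [orbStb_sy S o hab hac u v]
    ext1 ⟨y, g, hg⟩
    apply Subtype.ext
    change (S.sy a b c u v) y = y
    have e1 : g.1 o = y := hg
    rw [← e1, ← Equiv.Perm.mul_apply, S.sy_central hab hac hbc u v g.2, Equiv.Perm.mul_apply, hsy]
  have h3 := (orbStb S o).eq_one_of_matrix hab hac hbc h2 h1
  have h4 := congrArg (fun f : Equiv.Perm (MulAction.orbit S.L o) =>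
    (f ⟨o, MulAction.mem_orbit_self o⟩).1) h3
  exact h4

end orbit

section

variable {d : Type} [Fintype d] [DecidableEq d] {P D 𝔸 C : Type} [Ring P] [Ring D]
  [CommRing 𝔸] [CommRing C] {M : LocData d P D 𝔸 C} {t : C} (L : LocAt M t)
  {k : Type} [DecidableEq k] [Fintype k] (A : Acts M k)

/-! ### integral matrices -/

/-- the inclusion of the local rings -/
def LocAt.ιV : (∀ i, L.V i) →+* ∀ i, L.K i where
  toFun x i := (x i).1
  map_one' := rfl
  map_mul' _ _ := rfl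
  map_zero' := rfl
  map_add' _ _ := rfl

theorem LocAt.ιV_inj : Function.Injective L.ιV := fun _ _ h =>
  funext fun i => Subtype.ext (congrFun h i)

theorem LocAt.sr1_V (a b : ∀ i, L.V i) (h : IsCoprime a b) : ∃ t, IsUnit (a + t * b) := by
  classical
  obtain ⟨u, v, h⟩ := h
  refine ⟨fun i => if IsUnit (a i) then 0 else 1, ?_⟩
  rw [Pi.isUnit_iff]
  intro i
  change IsUnit (a i + (if IsUnit (a i) then 0 else 1) * b i)
  by_cases ha : IsUnit (a i)
  · rw [if_pos ha, zero_mul, add_zero]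
    exact ha
  · rw [if_neg ha, one_mul]
    have hi : u i * a i + v i * b i = 1 := congrFun h i
    by_contra hc
    have h1 : u i * (a i) ∈ nonunits (L.V i) := fun h' => ha (isUnit_of_mul_isUnit_right h')
    have h2 : v i * (a i + b i) ∈ nonunits (L.V i) := fun h' => hc (isUnit_of_mul_isUnit_right h')
    have h3 : v i * (a i) ∈ nonunits (L.V i) := fun h' => ha (isUnit_of_mul_isUnit_right h')
    have h4 : -(v i * a i) ∈ nonunits (L.V i) := by
      rw [mem_nonunits_iff, IsUnit.neg_iff]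
      exact h3
    have h5 := IsLocalRing.nonunits_add h1 (IsLocalRing.nonunits_add h2 h4)
    apply h5
    have : u i * a i + (v i * (a i + b i) + -(v i * a i)) = 1 := by
      rw [← hi]; ring
    rw [this]
    exact isUnit_one

variable {S' : Stb (k × d) (∀ i, L.K i) (Equiv.Perm (XX k M.φ.range))}
  (h1 : ∀ a b, a ≠ b → ∀ r s z, S'.x (a, r) (b, s) z = (A.B L).x a b (Matrix.single r s z))
  (h2 : ∀ a b, a ≠ b → ∀ r s, r ≠ s → ∀ t z z', S'.x (a, r) (a, s) (z * z') =
        (A.B L).x a b (Matrix.single r t z) * (A.B L).x b a (Matrix.single t s z') *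
          ((A.B L).x a b (Matrix.single r t z))⁻¹ * ((A.B L).x b a (Matrix.single t s z'))⁻¹)

include h1 h2 in
/-- integral elementary matrices have words fixing the base point -/
theorem exists_liftV (hk : 3 ≤ Fintype.card k) {g : (Matrix (k × d) (k × d) (∀ i, L.V i))ˣ}
    (hg : g ∈ E (k × d) (∀ i, L.V i)) :
    ∃ x, S'.Lift x (Units.map (L.ιV.mapMatrix (m := k × d)).toMonoidHom g) ∧ x A.o = A.o := by
  induction hg using Subgroup.closure_induction with
  | mem g hg =>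
    obtain ⟨p, q, h, r, rfl⟩ := hg
    refine ⟨S'.x p q (L.ιV r), ?_, fixV L A h1 h2 hk h fun i => (r i).2⟩
    have : Units.map (L.ιV.mapMatrix (m := k × d)).toMonoidHom (el p q h r) =
        el p q h (L.ιV r) := mapHom_el L.ιV p q h r
    rw [this]
    exact S'.lift_x h _
  | one => exact ⟨1, by rw [map_one]; exact S'.lift_one, rfl⟩
  | mul g g' _ _ h h' =>
    obtain ⟨x, hx, e⟩ := h
    obtain ⟨y, hy, e'⟩ := h'
    exact ⟨x * y, by rw [map_mul]; exact hx.mul hy, by rw [Equiv.Perm.mul_apply, e', e]⟩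
  | inv g _ h =>
    obtain ⟨x, hx, e⟩ := h
    exact ⟨x⁻¹, by rw [map_inv]; exact hx.inv, Equiv.Perm.inv_eq_iff_eq.2 e.symm⟩

/-! ### splitting of the global words -/

/-- the matrix over the fields at the places of `t` -/
def LocAt.mat (k : Type) [DecidableEq k] [Fintype k] :
    (Matrix k k D)ˣ →* (Matrix k k (Matrix d d (∀ i, L.K i)))ˣ :=
  Units.map ((L.pm.comp M.j).mapMatrix (m := k)).toMonoidHom

theorem exists_split_word (hk : 3 ≤ Fintype.card k) (g : (Matrix k k D)ˣ) (hg : g ∈ E k D) :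
    ∃ t₀ ∈ M.T, ∀ t, t₀ ∣ t → ∀ L : LocAt M t, ∃ x y, A.lam ⟨g, hg⟩ = x * y ∧
      (A.B L).Lift x (L.mat k g) ∧ y ∈ (A.Bc L).L ∧ y A.o = A.o := by
  induction hg using Subgroup.closure_induction with
  | mem g hg =>
    obtain ⟨a, b, hab, z, rfl⟩ := hg
    obtain ⟨t₀, ht₀, hz⟩ := M.den_mat (M.j z)
    refine ⟨t₀, ht₀, fun t ht L => ?_⟩
    obtain ⟨w, rfl⟩ := ht
    refine ⟨(A.B L).x a b (L.pm (M.j z)), (A.Bc L).x a b (M.j z), ?_, ?_, Acts.x_mem' _ hab _, ?_⟩
    · rw [← A.x_eq_lam hab, A.x_split L hab]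
    · have : L.mat k (el a b hab z) = el a b hab (L.pm (M.j z)) :=
        mapHom_el (L.pm.comp M.j) a b hab z
      rw [this]
      exact (A.B L).lift_x hab _
    · refine A.Bc_x_fix L hab fun r s => ?_
      obtain ⟨s', hs', e⟩ := L.inv
      have : L.cc (M.j z r s) = (M.cA t₀ * M.j z r s) * (M.cA w * s') := by
        rw [L.cc_apply, ← e, map_mul]
        ring
      rw [this]
      exact mul_mem (hz r s) (mul_mem (M.cA_mem r w) hs')
  | one =>
    refine ⟨1, one_mem _, fun t _ L => ⟨1, 1, ?_, ?_, one_mem _, rfl⟩⟩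
    · rw [mul_one]
      exact map_one A.lam
    · rw [map_one]
      exact (A.B L).lift_one
  | mul g g' hg hg' h h' =>
    obtain ⟨t₀, ht₀, H⟩ := h
    obtain ⟨t₁, ht₁, H'⟩ := h'
    refine ⟨t₀ * t₁, mul_mem ht₀ ht₁, fun t ht L => ?_⟩
    obtain ⟨x, y, e, hx, hy, hyo⟩ := H t ((dvd_mul_right _ _).trans ht) L
    obtain ⟨x', y', e', hx', hy', hyo'⟩ := H' t ((dvd_mul_left _ _).trans ht) L
    refine ⟨x * x', y * y', ?_, ?_, mul_mem hy hy', ?_⟩
    · have : A.lam ⟨g * g', mul_mem hg hg'⟩ = A.lam ⟨g, hg⟩ * A.lam ⟨g', hg'⟩ := by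
        rw [← map_mul]; rfl
      rw [this, e, e', mul_assoc, ← mul_assoc y, ← (A.B_commute L hk hx'.fst hy).eq]
      group
    · rw [map_mul]
      exact hx.mul hx'
    · rw [Equiv.Perm.mul_apply, hyo', hyo]
  | inv g hg h =>
    obtain ⟨t₀, ht₀, H⟩ := h
    refine ⟨t₀, ht₀, fun t ht L => ?_⟩
    obtain ⟨x, y, e, hx, hy, hyo⟩ := H t ht L
    refine ⟨x⁻¹, y⁻¹, ?_, ?_, inv_mem hy, Equiv.Perm.inv_eq_iff_eq.2 hyo.symm⟩
    · have : A.lam ⟨g⁻¹, inv_mem hg⟩ = (A.lam ⟨g, hg⟩)⁻¹ := by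
        rw [← map_inv]; rfl
      rw [this, e, (A.B_commute L hk hx.fst hy).eq, _root_.mul_inv_rev]
    · rw [map_inv]
      exact hx.inv

theorem mem_E_of_ES {g : (Matrix k k D)ˣ} (hg : g ∈ ES k M.φ.range) :
    ∃ U ∈ E k P, Units.map (RingHom.mapMatrix (m := k) M.φ).toMonoidHom U = g := by
  have h : ES k M.φ.range ≤ (E k P).map (Units.map (RingHom.mapMatrix (m := k) M.φ).toMonoidHom) := by
    unfold ES
    rw [Subgroup.closure_le]
    rintro _ ⟨a, b, h, _, ⟨x, rfl⟩, rfl⟩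
    exact ⟨el a b h x, el_mem a b h x, mapHom_el M.φ a b h x⟩
  exact h hg

/-- The localization theorem: a matrix over `P` which is elementary over the generic fibre `D` is
elementary. -/
theorem loc [Nonempty d]
    (hT : ∀ (g : (Matrix (Fin 2) (Fin 2) P)ˣ) (m : C), g.val 0 0 = M.cP m →
      g⁻¹.val 1 1 = M.cP m → g⁻¹.val 0 1 = -g.val 0 1 → g ∈ H P)
    (hcof : ∀ t ∈ M.T, ∃ t' ∈ M.T, t ∣ t' ∧ Nonempty (LocAt M t'))
    (hk : 3 ≤ Fintype.card k) (U : (Matrix k k P)ˣ)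
    (hU : Units.map (RingHom.mapMatrix (m := k) M.φ).toMonoidHom U ∈ E k D) : U ∈ E k P := by
  classical
  obtain ⟨A⟩ := Acts.exists_acts M hk
  obtain ⟨t₀, ht₀, H⟩ := exists_split_word A hk _ hU
  obtain ⟨t, ht, htt, ⟨L⟩⟩ := hcof t₀ ht₀
  obtain ⟨x, y, e, hx, -, hyo⟩ := H t htt L
  obtain ⟨S', h1, h2⟩ := (A.B L).exists_ext hk
  -- three indices
  have e₀ : d := Classical.arbitrary d
  obtain ⟨a, c, hac⟩ : ∃ a c : k, a ≠ c := by
    have : Nontrivial k := Fintype.one_lt_card_iff_nontrivial.1 (by omega)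
    exact exists_pair_ne k
  obtain ⟨b, hba, hbc⟩ := ActData.exists_third hk a c
  have hsy := sym_all L A h1 h2 hT hk hba.symm hac hbc ht e₀
  -- the integral word
  set g := Units.map (RingHom.mapMatrix (m := k) M.φ).toMonoidHom U with hg
  have hx' : S'.Lift x (compU k d _ (L.mat k g)) := lift_block h1 hx
  have hint : ∀ (U : (Matrix k k P)ˣ) p q i, (compU k d _ (L.mat k
      (Units.map (RingHom.mapMatrix (m := k) M.φ).toMonoidHom U))).val p q i ∈ L.V i := by
    intro U p q i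
    exact L.π_O _ ((M.memO _).2 ⟨U.val p.1 q.1, rfl⟩ p.2 q.2) i
  obtain ⟨g₀, hg₀⟩ : ∃ g₀ : (Matrix (k × d) (k × d) (∀ i, L.V i))ˣ,
      Units.map (L.ιV.mapMatrix (m := k × d)).toMonoidHom g₀ = compU k d _ (L.mat k g) := by
    have hinj : Function.Injective (L.ιV.mapMatrix (m := k × d)) := by
      intro Y Z h
      ext1 p q
      exact L.ιV_inj (congrFun (congrFun h p) q)
    set G := compU k d _ (L.mat k g) with hG
    have hG' : ∀ p q i, G⁻¹.val p q i ∈ L.V i := by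
      intro p q i
      have : G⁻¹ = compU k d _ (L.mat k
          (Units.map (RingHom.mapMatrix (m := k) M.φ).toMonoidHom U⁻¹)) := by
        rw [hG, hg, map_inv, map_inv, map_inv]
      rw [this]
      exact hint U⁻¹ p q i
    set Y : Matrix (k × d) (k × d) (∀ i, L.V i) := fun p q i => ⟨G.val p q i, hint U p q i⟩
    set Z : Matrix (k × d) (k × d) (∀ i, L.V i) := fun p q i => ⟨G⁻¹.val p q i, hG' p q i⟩
    have hY : L.ιV.mapMatrix Y = G.val := rfl
    have hZ : L.ιV.mapMatrix Z = G⁻¹.val := rfl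
    refine ⟨⟨Y, Z, hinj ?_, hinj ?_⟩, ?_⟩
    · rw [map_mul, hY, hZ, map_one, Units.mul_inv]
    · rw [map_mul, hY, hZ, map_one, Units.inv_mul]
    · ext1
      rfl
  have hdet : g₀.val.det = 1 := by
    apply L.ιV_inj
    rw [RingHom.map_det, map_one]
    have e1 : L.ιV.mapMatrix g₀.val = (compU k d _ (L.mat k g)).val := congrArg Units.val hg₀
    rw [e1]
    exact sr_det_of_mem_E hx'.snd
  obtain ⟨x₁, hx₁, hx₁o⟩ := exists_liftV L A h1 h2 hk (mem_E_of_det_eq_one L.sr1_V g₀ hdet)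
  rw [hg₀] at hx₁
  have hone : S'.Lift (x₁⁻¹ * x) 1 := by
    have := hx₁.inv.mul hx'
    rwa [inv_mul_cancel] at this
  have hfix := fix_of_lift_one S' A.o (a := (a, e₀)) (b := (c, e₀)) (c := (b, e₀))
    (fun h => hac (Prod.ext_iff.1 h).1) (fun h => hba (Prod.ext_iff.1 h).1.symm)
    (fun h => hbc (Prod.ext_iff.1 h).1.symm) hsy hone
  have hxo : x A.o = A.o := by
    have e1 : x = x₁ * (x₁⁻¹ * x) := by group
    rw [e1, Equiv.Perm.mul_apply, hfix, hx₁o]
  have hfin : A.lam ⟨g, hU⟩ A.o = A.o := by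
    rw [e, Equiv.Perm.mul_apply, hyo, hxo]
  rw [A.lam_o] at hfin
  have hmem : g ∈ ES k M.φ.range := by
    have h3 := (QuotientGroup.eq (s := (ES k M.φ.range).subgroupOf (E k D))).1 hfin.symm
    rw [inv_one, one_mul] at h3
    exact h3
  obtain ⟨U', hU', e'⟩ := mem_E_of_ES hmem
  have : U' = U := by
    ext1
    have h3 := congrArg Units.val e'
    ext i j
    exact M.φ_inj (congrFun (congrFun h3 i) j)
  rwa [← this]

end

end BWG
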