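import Pool.Agent.BWG.LocDefs

/-!
# The action attached to localization data
-/

set_option autoImplicit false

namespace BWG

open Matrix BW
open Pool.Agent.Helper24.BWR (emb emb_el emb_mem c2 emb_c2)

variable {d : Type} [Fintype d] [DecidableEq d] {P D 𝔸 C : Type} [Ring P] [Ring D]
  [CommRing 𝔸] [CommRing C]

/-- the action of the Steinberg group of `M_d(𝔸)` on `E_k(D) / E_k(P)` -/
structure Acts (M : LocData d P D 𝔸 C) (k : Type) [DecidableEq k] [Fintype k] where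
  S : Stb k (Matrix d d 𝔸) (Equiv.Perm (XX k M.φ.range))
  nat : ∀ (a b : k) (h : a ≠ b) (x : D) (g : E k D), S.x a b (M.j x) (QuotientGroup.mk g) =
    QuotientGroup.mk (⟨el a b h x, el_mem a b h x⟩ * g)
  fix : ∀ (a b : k), a ≠ b → ∀ ξ : Matrix d d 𝔸, (∀ r s, ξ r s ∈ M.O) →
    S.x a b ξ (QuotientGroup.mk 1) = QuotientGroup.mk 1
  cont : ∀ p : XX k M.φ.range, ∃ t ∈ M.T, ∀ (a b : k), a ≠ b → ∀ ξ η : Matrix d d 𝔸,
    (∀ r s, η r s ∈ M.O) → S.x a b (ξ + Matrix.scalar d (M.cA t) * η) p = S.x a b ξ p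

namespace LocData

variable (M : LocData d P D 𝔸 C)

/-- matrices with integral entries -/
def OO : Subring (Matrix d d 𝔸) where
  carrier := {X | ∀ r s, X r s ∈ M.O}
  mul_mem' := fun {X Y} hX hY r s => by
    rw [Matrix.mul_apply]
    exact sum_mem fun i _ => mul_mem (hX r i) (hY i s)
  one_mem' := fun r s => by
    rw [Matrix.one_apply]
    split_ifs
    · exact one_mem _
    · exact zero_mem _
  add_mem' := fun {X Y} hX hY r s => add_mem (hX r s) (hY r s)
  zero_mem' := fun r s => zero_mem _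
  neg_mem' := fun {X} hX r s => neg_mem (hX r s)

theorem mem_OO (X : Matrix d d 𝔸) : X ∈ M.OO ↔ ∀ r s, X r s ∈ M.O := Iff.rfl

theorem scalar_mul_apply (a : 𝔸) (X : Matrix d d 𝔸) (r s : d) :
    (Matrix.scalar d a * X) r s = a * X r s := by
  rw [Matrix.scalar_apply, Matrix.diagonal_mul]

theorem cA_mem (r : d) (x : C) : M.cA x ∈ M.O := by
  have h := (M.memO (M.φ (M.cP x))).2 ⟨M.cP x, rfl⟩ r r
  rw [M.j_c, Matrix.scalar_apply, Matrix.diagonal_apply_eq] at h
  exact h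

theorem den_mat (ξ : Matrix d d 𝔸) : ∃ t ∈ M.T, ∀ r s, M.cA t * ξ r s ∈ M.O := by
  choose f hf hf' using fun p : d × d => M.den (ξ p.1 p.2)
  refine ⟨∏ p, f p, prod_mem fun p _ => hf p, fun r s => ?_⟩
  rw [← Finset.mul_prod_erase Finset.univ f (Finset.mem_univ (r, s)), map_mul, mul_comm (M.cA (f _)),
    mul_assoc]
  exact mul_mem (M.cA_mem r _) (hf' (r, s))

/-- the input of the action -/
def actData : ActData D (Matrix d d 𝔸) where
  j := M.j
  PD := M.φ.range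
  O := M.OO
  T := M.T.map (M.φ.comp M.cP : C →* D)
  T_comm := by
    rintro _ ⟨t, _, rfl⟩ x
    exact M.cP_comm t x
  T_comm' := by
    rintro _ ⟨t, _, rfl⟩ ξ
    change M.j (M.φ (M.cP t)) * ξ = ξ * M.j (M.φ (M.cP t))
    rw [M.j_c]
    exact (Matrix.scalar_commute _ (fun _ => Commute.all _ _) _).eq
  T_unit := by
    rintro _ ⟨t, ht, rfl⟩
    exact M.T_unit t ht
  memO := fun x => M.memO x
  T_mem := by
    rintro _ ⟨t, _, rfl⟩
    exact ⟨M.cP t, rfl⟩
  den := by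
    intro ξ
    obtain ⟨t, ht, h⟩ := M.den_mat ξ
    refine ⟨M.φ (M.cP t), ⟨t, ht, rfl⟩, ?_⟩
    rw [M.j_c]
    intro r s
    rw [scalar_mul_apply]
    exact h r s
  dense := by
    rintro ξ _ ⟨t, ht, rfl⟩
    obtain ⟨s, hs, h⟩ := M.den_mat ξ
    obtain ⟨x, M', hM', hx⟩ := M.dense (Matrix.scalar d (M.cA s) * ξ)
      (fun r s' => by rw [scalar_mul_apply]; exact h r s') (s * t) (mul_mem hs ht)
    obtain ⟨u, hu⟩ := M.T_unit s hs
    have hu1 : M.j (u⁻¹ : Dˣ) * M.j (M.φ (M.cP s)) = 1 := by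
      rw [← map_mul, ← hu, Units.inv_mul, map_one]
    refine ⟨(u⁻¹ : Dˣ) * M.φ x, M', hM', ?_⟩
    change ξ = M.j ((u⁻¹ : Dˣ) * M.φ x) + M.j (M.φ (M.cP t)) * M'
    have e1 : M.j (M.φ (M.cP s)) * ξ = M.j (M.φ x) + M.j (M.φ (M.cP s)) *
        (M.j (M.φ (M.cP t)) * M') := by
      rw [M.j_c s, hx, M.j_c t, map_mul, map_mul, mul_assoc]
    calc ξ = (M.j (u⁻¹ : Dˣ) * M.j (M.φ (M.cP s))) * ξ := by rw [hu1, one_mul]
      _ = M.j (u⁻¹ : Dˣ) * M.j (M.φ x) + (M.j (u⁻¹ : Dˣ) * M.j (M.φ (M.cP s))) *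
          (M.j (M.φ (M.cP t)) * M') := by
          rw [mul_assoc, e1, mul_add]
          simp only [mul_assoc]
      _ = _ := by rw [hu1, one_mul, map_mul]

end LocData

theorem Acts.exists_acts (M : LocData d P D 𝔸 C) {k : Type} [DecidableEq k] [Fintype k]
    (hk : 3 ≤ Fintype.card k) : Nonempty (Acts M k) := by
  obtain ⟨S, h1, h2, h3⟩ := M.actData.exists_stb (n := k) hk
  refine ⟨⟨S, h1, h2, fun p => ?_⟩⟩
  obtain ⟨_, ⟨t, ht, rfl⟩, h⟩ := h3 p
  refine ⟨t, ht, fun a b hab ξ η hη => ?_⟩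
  rw [← M.j_c]
  exact h a b hab ξ η hη

/-! ### matrices of size three -/

section fin3

theorem matStb_x {n R : Type*} [DecidableEq n] [Fintype n] [Ring R] {a b : n} (h : a ≠ b) (r : R) :
    (matStb n R).x a b r = el a b h r := dif_pos h

theorem el01_val {R : Type*} [Ring R] (x : R) :
    (el (0 : Fin 3) 1 (by decide) x).val = !![1, x, 0; 0, 1, 0; 0, 0, 1] := by
  rw [el_val]
  ext i j
  fin_cases i <;> fin_cases j <;> simp

theorem el10_val {R : Type*} [Ring R] (x : R) :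
    (el (1 : Fin 3) 0 (by decide) x).val = !![1, 0, 0; x, 1, 0; 0, 0, 1] := by
  rw [el_val]
  ext i j
  fin_cases i <;> fin_cases j <;> simp

theorem el02_val {R : Type*} [Ring R] (x : R) :
    (el (0 : Fin 3) 2 (by decide) x).val = !![1, 0, x; 0, 1, 0; 0, 0, 1] := by
  rw [el_val]
  ext i j
  fin_cases i <;> fin_cases j <;> simp

theorem el20_val {R : Type*} [Ring R] (x : R) :
    (el (2 : Fin 3) 0 (by decide) x).val = !![1, 0, 0; 0, 1, 0; x, 0, 1] := by
  rw [el_val]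
  ext i j
  fin_cases i <;> fin_cases j <;> simp

theorem w02_val {R : Type*} [Ring R] (u : Rˣ) :
    ((matStb (Fin 3) R).w 0 2 u).val = !![0, 0, (u : R); 0, 1, 0; -((u⁻¹ : Rˣ) : R), 0, 0] := by
  unfold Stb.w
  rw [matStb_x (by decide), matStb_x (by decide), Units.val_mul, Units.val_mul, el02_val, el20_val]
  ext i j
  fin_cases i <;> fin_cases j <;> simp [Matrix.mul_apply, Fin.sum_univ_three]

theorem w01_val {R : Type*} [Ring R] (u : Rˣ) :
    ((matStb (Fin 3) R).w 0 1 u).val = !![0, (u : R), 0; -((u⁻¹ : Rˣ) : R), 0, 0; 0, 0, 1] := by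
  unfold Stb.w
  rw [matStb_x (by decide), matStb_x (by decide), Units.val_mul, Units.val_mul, el01_val, el10_val]
  ext i j
  fin_cases i <;> fin_cases j <;> simp [Matrix.mul_apply, Fin.sum_univ_three]

theorem h02_val {R : Type*} [Ring R] (u : Rˣ) :
    ((matStb (Fin 3) R).h 0 2 u).val = !![(u : R), 0, 0; 0, 1, 0; 0, 0, ((u⁻¹ : Rˣ) : R)] := by
  unfold Stb.h
  have h1 : (((matStb (Fin 3) R).w 0 2 1)⁻¹).val = !![0, 0, -1; 0, 1, 0; 1, 0, 0] := by
    refine left_inv_eq_right_inv (Units.inv_mul _) ?_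
    rw [w02_val]
    ext i j
    fin_cases i <;> fin_cases j <;> simp [Matrix.mul_apply, Fin.sum_univ_three]
  rw [Units.val_mul, h1, w02_val]
  ext i j
  fin_cases i <;> fin_cases j <;> simp [Matrix.mul_apply, Fin.sum_univ_three]

/-- the approximating element of the torus element -/
def G3 {R : Type*} [Ring R] (x x' : R) : (Matrix (Fin 3) (Fin 3) R)ˣ :=
  el 0 1 (by decide) x * el 1 0 (by decide) (-x') * el 0 1 (by decide) x *
    ((matStb (Fin 3) R).w 0 1 1)⁻¹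

theorem G3_val {R : Type*} [Ring R] (x x' τ : R) (h1 : x * x' = 1 - τ) (h2 : x' * x = 1 - τ)
    (h3 : τ * x = x * τ) :
    (G3 x x').val = !![x * (1 + τ), -τ, 0; τ, x', 0; 0, 0, 1] := by
  have h0 : (((matStb (Fin 3) R).w 0 1 1)⁻¹).val = !![0, -1, 0; 1, 0, 0; 0, 0, 1] := by
    refine left_inv_eq_right_inv (Units.inv_mul _) ?_
    rw [w01_val]
    ext i j
    fin_cases i <;> fin_cases j <;> simp [Matrix.mul_apply, Fin.sum_univ_three]
  unfold G3
  rw [Units.val_mul, Units.val_mul, Units.val_mul, h0, el01_val, el10_val]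
  have e1 : τ * x + x = x * (1 + τ) := by rw [h3, mul_add, mul_one, add_comm]
  have e2 : 1 - x' * x = τ := by rw [h2]; abel
  have e3 : 1 - x * x' = τ := by rw [h1]; abel
  rw [← e1, ← e3]
  have e4 : 1 - x' * x = 1 - x * x' := e2.trans e3.symm
  ext i j
  fin_cases i <;> fin_cases j <;>
    simp [Matrix.mul_apply, Fin.sum_univ_three, sub_eq_add_neg]
  · rw [← sub_eq_add_neg, ← e4]
    abel

end fin3

/-! ### embeddings -/

section embk

variable {k R : Type*} [DecidableEq k] [Fintype k] [Ring R]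

theorem emb_x (σ : Fin 3 ↪ k) {i j : Fin 3} (h : i ≠ j) (r : R) :
    Units.map (emb σ) ((matStb (Fin 3) R).x i j r) = (matStb k R).x (σ i) (σ j) r := by
  rw [matStb_x h, emb_el, matStb_x (fun h' => h (σ.injective h'))]

theorem emb_w (σ : Fin 3 ↪ k) {i j : Fin 3} (h : i ≠ j) (u : Rˣ) :
    Units.map (emb σ) ((matStb (Fin 3) R).w i j u) = (matStb k R).w (σ i) (σ j) u := by
  unfold Stb.w
  rw [map_mul, map_mul, emb_x σ h, emb_x σ h.symm]

theorem emb_h (σ : Fin 3 ↪ k) {i j : Fin 3} (h : i ≠ j) (u : Rˣ) :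
    Units.map (emb σ) ((matStb (Fin 3) R).h i j u) = (matStb k R).h (σ i) (σ j) u := by
  unfold Stb.h
  rw [map_mul, map_inv, emb_w σ h, emb_w σ h]

/-- the embedding of three indices -/
def emb3 {k : Type*} {a b c : k} (hab : a ≠ b) (hac : a ≠ c) (hbc : b ≠ c) : Fin 3 ↪ k where
  toFun := ![a, b, c]
  inj' := by
    intro i j h
    fin_cases i <;> fin_cases j <;> simp_all [Ne.symm hab, Ne.symm hac, Ne.symm hbc]

theorem emb_ES {k P D : Type*} [DecidableEq k] [Fintype k] [Ring P] [Ring D] (φ : P →+* D)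
    (σ : Fin 3 ↪ k) {X : (Matrix (Fin 3) (Fin 3) P)ˣ} (hX : X ∈ E (Fin 3) P) :
    Units.map (emb σ) (Units.map (RingHom.mapMatrix (m := Fin 3) φ).toMonoidHom X) ∈
      ES k φ.range := by
  induction hX using Subgroup.closure_induction with
  | mem X hX =>
    obtain ⟨a, b, h, x, rfl⟩ := hX
    have e1 : Units.map (RingHom.mapMatrix (m := Fin 3) φ).toMonoidHom (el a b h x) =
        el a b h (φ x) := by
      apply Units.ext
      change (1 + Matrix.single a b x).map φ = 1 + Matrix.single a b (φ x)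
      rw [Matrix.map_add _ (map_add φ), Matrix.map_one _ (map_zero φ) (map_one φ),
        Matrix.map_single]
    rw [e1, emb_el]
    exact Subgroup.subset_closure ⟨_, _, _, _, ⟨x, rfl⟩, rfl⟩
  | one => rw [map_one, map_one]; exact one_mem _
  | mul X Y _ _ hX hY => rw [map_mul, map_mul]; exact mul_mem hX hY
  | inv X _ hX => rw [map_inv, map_inv]; exact inv_mem hX

end embk

/-- Lemma Q: torus elements with a central integral unit fix the points `diag(ν, 1, ν⁻¹)` -/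
theorem Acts.lemmaQ {M : LocData d P D 𝔸 C} {k : Type} [DecidableEq k] [Fintype k]
    (A : Acts M k)
    (hT : ∀ (g : (Matrix (Fin 2) (Fin 2) P)ˣ) (m : C), g.val 0 0 = M.cP m → g⁻¹.val 1 1 = M.cP m →
      g⁻¹.val 0 1 = -g.val 0 1 → g ∈ H P)
    {a b c : k} (hab : a ≠ b) (hac : a ≠ c) (hbc : b ≠ c) (ξ : 𝔸ˣ) (hξ : ξ.val ∈ M.O)
    (hξ' : ξ⁻¹.val ∈ M.O) (ν : Dˣ) (hν : ν.val ∈ M.φ.range)
    (g : E k D) (hg : g.1 = (matStb k D).h a c ν) :
    A.S.h a b (Units.map (Matrix.scalar d).toMonoidHom ξ) (QuotientGroup.mk g) =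
      QuotientGroup.mk g := by
  set σ : Fin 3 ↪ k := emb3 hab hac hbc with hσ
  have s0 : σ 0 = a := rfl
  have s1 : σ 1 = b := rfl
  have s2 : σ 2 = c := rfl
  set Ξ : (Matrix d d 𝔸)ˣ := Units.map (Matrix.scalar d).toMonoidHom ξ with hΞ
  have hΞ1 : Ξ.val = Matrix.scalar d ξ.val := rfl
  have hΞ2 : Ξ⁻¹.val = Matrix.scalar d ξ⁻¹.val := rfl
  -- the Weyl element
  have nat' : ∀ (p q : k) (h : p ≠ q) (x : D) (g : E k D), A.S.x p q (M.j x) (QuotientGroup.mk g) =
      QuotientGroup.mk (⟨el p q h x, el_mem p q h x⟩ * g) := A.nat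
  have hw : ∀ g : E k D, ∃ g' : E k D, g'.1 = ((matStb k D).w a b 1)⁻¹ * g.1 ∧
      (A.S.w a b 1)⁻¹ (QuotientGroup.mk g) = QuotientGroup.mk g' := by
    intro g
    refine ⟨(⟨el a b hab 1, el_mem a b hab 1⟩ * ⟨el b a hab.symm (-1), el_mem b a hab.symm (-1)⟩ *
      ⟨el a b hab 1, el_mem a b hab 1⟩)⁻¹ * g, ?_, ?_⟩
    · unfold Stb.w
      rw [matStb_x hab, matStb_x hab.symm]
      simp only [inv_one, Units.val_one]
      rfl
    · rw [Equiv.Perm.inv_eq_iff_eq]
      unfold Stb.w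
      rw [inv_one, Units.val_one, ← map_one M.j, ← map_neg M.j, Equiv.Perm.mul_apply,
        Equiv.Perm.mul_apply, nat' a b hab, nat' b a hab.symm, nat' a b hab]
      congr 1
      group
  obtain ⟨g1, hg1, hp1⟩ := hw g
  have hh : A.S.h a b Ξ (QuotientGroup.mk g) = A.S.x a b Ξ.val (A.S.x b a (-Ξ⁻¹.val)
      (A.S.x a b Ξ.val (QuotientGroup.mk g1))) := by
    unfold Stb.h
    rw [Equiv.Perm.mul_apply, hp1]
    rfl
  -- moduli of continuity
  obtain ⟨t1, ht1, k1⟩ := A.cont (QuotientGroup.mk g1)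
  obtain ⟨t2, ht2, k2⟩ := A.cont (A.S.x a b Ξ.val (QuotientGroup.mk g1))
  obtain ⟨t3, ht3, k3⟩ := A.cont (A.S.x b a (-Ξ⁻¹.val) (A.S.x a b Ξ.val (QuotientGroup.mk g1)))
  obtain ⟨_, ⟨t4, ht4, rfl⟩, k4⟩ := M.actData.exists_den ((ν⁻¹ : Dˣ) : D)
  set t : C := t1 * t2 * t3 * t4 with ht
  have htT : t ∈ M.T := mul_mem (mul_mem (mul_mem ht1 ht2) ht3) ht4
  obtain ⟨x, η, hη, hx⟩ := M.denseC ξ.val hξ t htT
  obtain ⟨x', η', hη', hx'⟩ := M.denseC ξ⁻¹.val hξ' t htT
  -- closeness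
  have near : ∀ (t₀ u : C) (ζ : 𝔸) (y : C) (θ : 𝔸), t = t₀ * u → θ ∈ M.O →
      ζ = M.cA y + M.cA t * θ → ∃ H : Matrix d d 𝔸, (∀ r s, H r s ∈ M.O) ∧
        Matrix.scalar d ζ = M.j (M.φ (M.cP y)) + Matrix.scalar d (M.cA t₀) * H := by
    intro t₀ u ζ y θ htu hθ hζ
    refine ⟨Matrix.scalar d (M.cA u * θ), fun r s => ?_, ?_⟩
    · rw [Matrix.scalar_apply, Matrix.diagonal_apply]
      split_ifs
      · exact mul_mem (M.cA_mem r u) hθ
      · exact zero_mem _
    · rw [M.j_c, ← map_mul, ← map_add, hζ, htu, map_mul, mul_assoc]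
  obtain ⟨H1, hH1, e1⟩ := near t1 (t2 * t3 * t4) ξ.val x η (by rw [ht]; ring) hη hx
  obtain ⟨H2, hH2, e2⟩ := near t2 (t1 * t3 * t4) ξ⁻¹.val x' η' (by rw [ht]; ring) hη' hx'
  obtain ⟨H3, hH3, e3⟩ := near t3 (t1 * t2 * t4) ξ.val x η (by rw [ht]; ring) hη hx
  set X : D := M.φ (M.cP x) with hX
  set X' : D := M.φ (M.cP x') with hX'
  have f1 : A.S.x a b Ξ.val (QuotientGroup.mk g1) =
      QuotientGroup.mk (⟨el a b hab X, el_mem a b hab X⟩ * g1) := by
    rw [hΞ1, e1, k1 a b hab _ _ hH1, A.nat a b hab]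
  have f2 : A.S.x b a (-Ξ⁻¹.val) (A.S.x a b Ξ.val (QuotientGroup.mk g1)) =
      QuotientGroup.mk (⟨el b a hab.symm (-X'), el_mem b a hab.symm (-X')⟩ *
        (⟨el a b hab X, el_mem a b hab X⟩ * g1)) := by
    have e2' : -Ξ⁻¹.val = M.j (-X') + Matrix.scalar d (M.cA t2) * (-H2) := by
      rw [hΞ2, e2, map_neg]
      noncomm_ring
    have k2' := k2 b a hab.symm (M.j (-X')) (-H2) (fun r s => neg_mem (hH2 r s))
    rw [← e2'] at k2'
    rw [k2', f1, A.nat b a hab.symm]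
  have f3 : A.S.h a b Ξ (QuotientGroup.mk g) =
      QuotientGroup.mk (⟨el a b hab X, el_mem a b hab X⟩ *
        (⟨el b a hab.symm (-X'), el_mem b a hab.symm (-X')⟩ *
        (⟨el a b hab X, el_mem a b hab X⟩ * g1))) := by
    have k3' := k3 a b hab (M.j X) H3 hH3
    rw [← e3, ← hΞ1] at k3'
    rw [hh, k3', f2, A.nat a b hab]
  rw [f3, eq_comm, QuotientGroup.eq]
  -- reduction to matrices of size three
  set g3 : (Matrix (Fin 3) (Fin 3) D)ˣ := (matStb (Fin 3) D).h 0 2 ν with hg3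
  have hmat : (g⁻¹ * (⟨el a b hab X, el_mem a b hab X⟩ *
        (⟨el b a hab.symm (-X'), el_mem b a hab.symm (-X')⟩ *
        (⟨el a b hab X, el_mem a b hab X⟩ * g1)))).1 =
      Units.map (emb σ) (g3⁻¹ * G3 X X' * g3) := by
    have h1 : Units.map (emb σ) g3 = g.1 := by
      rw [hg3, emb_h σ (by decide), s0, s2, hg]
    have h2 : Units.map (emb σ) (G3 X X') = el a b hab X * el b a hab.symm (-X') * el a b hab X *
        ((matStb k D).w a b 1)⁻¹ := by
      unfold G3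
      rw [map_mul, map_mul, map_mul, map_inv, emb_w σ (by decide), emb_el, emb_el]
      rfl
    rw [map_mul, map_mul, map_inv, h1, h2]
    change g.1⁻¹ * (el a b hab X * (el b a hab.symm (-X') * (el a b hab X * g1.1))) = _
    rw [hg1]
    group
  -- the matrix over `P`
  have hφ := M.φ_inj
  have hc : ∀ (z : C) (y : P), M.cP z * y = y * M.cP z := fun z y => hφ (by
    rw [map_mul, map_mul]
    exact M.cP_comm z (M.φ y))
  set τ : C := 1 - x * x' with hτ
  have hω : ∃ ω ∈ M.OO, Matrix.scalar d (M.cA τ) = Matrix.scalar d (M.cA t) * ω := by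
    refine ⟨Matrix.scalar d (ξ.val * η' + ξ⁻¹.val * η - M.cA t * (η * η')), fun r s => ?_, ?_⟩
    · rw [Matrix.scalar_apply, Matrix.diagonal_apply]
      split_ifs
      · exact sub_mem (add_mem (mul_mem hξ hη') (mul_mem hξ' hη))
          (mul_mem (M.cA_mem r t) (mul_mem hη hη'))
      · exact zero_mem _
    · rw [← map_mul]
      congr 1
      have h1 : M.cA x = ξ.val - M.cA t * η := by rw [hx]; ring
      have h2 : M.cA x' = ξ⁻¹.val - M.cA t * η' := by rw [hx']; ring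
      have h3 : ξ.val * ξ⁻¹.val = 1 := ξ.mul_inv
      rw [hτ, map_sub, map_one, map_mul, h1, h2]
      linear_combination (-1 : 𝔸) * h3
  obtain ⟨ω, hωO, hω⟩ := hω
  obtain ⟨u, hu⟩ := M.T_unit t htT
  have hu1 : M.j ((u⁻¹ : Dˣ) : D) * M.j (M.φ (M.cP t)) = 1 := by
    rw [← map_mul, ← hu, Units.inv_mul, map_one]
  obtain ⟨w, hwv⟩ : ∃ w : P, M.φ w = ((u⁻¹ : Dˣ) : D) * M.φ (M.cP τ) := by
    have h1 : (((u⁻¹ : Dˣ) : D) * M.φ (M.cP τ)) ∈ M.φ.range := by
      refine (M.memO _).1 ?_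
      rw [map_mul, M.j_c, hω, ← M.j_c, ← mul_assoc, hu1, one_mul]
      exact hωO
    exact h1
  have huc : ∀ y : D, ((u⁻¹ : Dˣ) : D) * y = y * ((u⁻¹ : Dˣ) : D) := by
    intro y
    have h1 : Commute (u : D) y := by
      rw [hu]
      exact M.cP_comm t y
    exact h1.units_inv_left.eq
  have hwc : ∀ y : P, w * y = y * w := fun y => hφ (by
    rw [map_mul, map_mul, hwv, mul_assoc, M.cP_comm τ (M.φ y), ← mul_assoc, huc, mul_assoc])
  have htw : M.cP t * w = M.cP τ := hφ (by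
    rw [map_mul, hwv, ← mul_assoc, ← hu, Units.mul_inv, one_mul])
  obtain ⟨νP, hνP⟩ := hν
  obtain ⟨ν1, hν1⟩ : ∃ ν1 : P, M.φ ν1 = M.φ (M.cP t) * ((ν⁻¹ : Dˣ) : D) := by
    obtain ⟨y, hy⟩ := k4
    refine ⟨M.cP (t1 * t2 * t3) * y, ?_⟩
    rw [map_mul, hy, ht, map_mul M.cP (t1 * t2 * t3) t4, map_mul M.φ]
    exact (mul_assoc _ _ _).symm
  have hn1 : ν1 * νP = M.cP t := hφ (by
    rw [map_mul, hν1, hνP, mul_assoc, Units.inv_mul, mul_one])
  have hn2 : νP * ν1 = M.cP t := hφ (by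
    rw [map_mul, hν1, hνP, M.cP_comm t, ← mul_assoc, Units.mul_inv, one_mul])
  set m : C := x * (1 + τ) with hm
  have hmx : M.cP m * M.cP x' + M.cP τ * M.cP τ = 1 := by
    rw [← map_mul, ← map_mul, ← map_add, ← map_one M.cP]
    congr 1
    rw [hm, hτ]
    ring
  have hmx' : M.cP x' * M.cP m + M.cP τ * M.cP τ = 1 := by rw [hc, hmx]
  have hmy : M.cP τ * M.cP τ + M.cP m * M.cP x' = 1 := by rw [add_comm, hmx]
  have hmy' : M.cP τ * M.cP τ + M.cP x' * M.cP m = 1 := by rw [add_comm, hmx']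
  have a1 : ν1 * w * (M.cP t * w * νP) = M.cP τ * M.cP τ := by
    calc ν1 * w * (M.cP t * w * νP) = ν1 * (w * (M.cP τ * νP)) := by
          rw [htw]; simp only [mul_assoc]
      _ = (ν1 * νP) * w * M.cP τ := by
          rw [hc τ νP, ← mul_assoc w, hwc νP]; simp only [mul_assoc]
      _ = _ := by rw [hn1, htw]
  have a2 : M.cP t * w * νP * (ν1 * w) = M.cP τ * M.cP τ := by
    calc M.cP t * w * νP * (ν1 * w) = M.cP τ * ((νP * ν1) * w) := by
          rw [htw]; simp only [mul_assoc]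
      _ = _ := by rw [hn2, htw]
  let g2 : (Matrix (Fin 2) (Fin 2) P)ˣ :=
    { val := !![M.cP m, -(ν1 * w); M.cP t * w * νP, M.cP x']
      inv := !![M.cP x', ν1 * w; -(M.cP t * w * νP), M.cP m]
      val_inv := by
        ext i j
        fin_cases i <;> fin_cases j
        · simp [Matrix.mul_apply, Fin.sum_univ_two, a1, hmx]
        · simp [Matrix.mul_apply, Fin.sum_univ_two, hc]
        · simp [Matrix.mul_apply, Fin.sum_univ_two, hc]
        · simp [Matrix.mul_apply, Fin.sum_univ_two, a2, hmy']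
      inv_val := by
        ext i j
        fin_cases i <;> fin_cases j
        · simp [Matrix.mul_apply, Fin.sum_univ_two, a1, hmx']
        · simp [Matrix.mul_apply, Fin.sum_univ_two, hc]
        · simp [Matrix.mul_apply, Fin.sum_univ_two, hc]
        · simp [Matrix.mul_apply, Fin.sum_univ_two, a2, hmy] }
  have hg2 : g2 ∈ H P := hT g2 m rfl rfl (by
    change ν1 * w = - -(ν1 * w)
    rw [neg_neg])
  -- comparison
  have hcmp : g3⁻¹ * G3 X X' * g3 =
      Units.map (RingHom.mapMatrix (m := Fin 3) M.φ).toMonoidHom (Units.map (k12 (R := P)) g2) := by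
    rw [mul_assoc, inv_mul_eq_iff_eq_mul]
    apply Units.ext
    have hXX : X * X' = 1 - M.φ (M.cP τ) := by
      rw [hX, hX', ← map_mul, ← map_mul, ← map_one M.φ, ← map_sub, ← map_one M.cP, ← map_sub, hτ]
      congr 2
      ring
    have hXX' : X' * X = 1 - M.φ (M.cP τ) := by
      rw [← hXX, hX]
      exact (M.cP_comm x X').symm
    have hV : (Units.map (RingHom.mapMatrix (m := Fin 3) M.φ).toMonoidHom
        (Units.map (k12 (R := P)) g2)).val =
        !![M.φ (M.cP m), -(M.φ (ν1 * w)), 0; M.φ (M.cP t * w * νP), X', 0; 0, 0, 1] := by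
      ext i j
      fin_cases i <;> fin_cases j <;> simp [k12, g2, hX']
    have hm' : X * (1 + M.φ (M.cP τ)) = M.φ (M.cP m) := by
      rw [hm, hX, map_mul, map_mul, map_add, map_add, map_one, map_one]
    rw [Units.val_mul, Units.val_mul, hV, G3_val X X' (M.φ (M.cP τ)) hXX hXX'
      (M.cP_comm τ X), hg3, h02_val, hm']
    have b1 : (ν : D) * M.φ (ν1 * w) = M.φ (M.cP τ) := by
      rw [← hνP, ← map_mul, ← mul_assoc, hn2, htw]
    have b2 : (ν : D) * (M.φ ν1 * M.φ w) = M.φ (M.cP τ) := by rw [← map_mul, b1]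
    have b3 : M.φ (M.cP t * w * νP) = M.φ (M.cP τ) * ν := by
      rw [htw, map_mul, hνP]
    ext i j
    fin_cases i <;> fin_cases j <;>
      simp [Matrix.mul_apply, Fin.sum_univ_three, b2, b3]
    exact M.cP_comm m ν
  rw [Subgroup.mem_subgroupOf, hmat, hcmp]
  exact emb_ES M.φ σ hg2

end BWG
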