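import Pool.Agent.BWG.Ext
import Pool.Agent.BWG.LocAct
import Pool.Agent.BWG.Cell

/-!
# Localization, first part: pullbacks of Steinberg data, commutation modulo the stabilizer
-/

set_option autoImplicit false

namespace BWG

open Matrix BW

namespace Stb

section comap

variable {I R R' A G : Type*} [DecidableEq I] [Fintype I] [Ring R] [Ring R'] [Ring A] [Group G]

/-- pullback along an additive and multiplicative map -/
def comap (S : Stb I A G) (f : R →ₙ+* A) : Stb I R G where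
  x a b r := S.x a b (f r)
  add h r s := by rw [map_add, S.add h]
  comm hab hbc hac r s := by rw [map_mul]; exact S.comm hab hbc hac _ _
  disj hab hcd hbc had r s := S.disj hab hcd hbc had _ _

theorem comap_x (S : Stb I A G) (f : R →ₙ+* A) (a b : I) (r : R) :
    (S.comap f).x a b r = S.x a b (f r) := rfl

/-- orthogonal pullbacks commute -/
theorem comap_commute (S : Stb I A G) (hI : 3 ≤ Fintype.card I) (f : R →ₙ+* A) (g : R' →ₙ+* A)
    (hfg : ∀ r s, f r * g s = 0) (hgf : ∀ r s, g s * f r = 0) {a b c e : I} (hab : a ≠ b)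
    (hce : c ≠ e) (r : R) (s : R') :
    Commute ((S.comap f).x a b r) ((S.comap g).x c e s) := by
  have h1 : ∀ {a b c : I}, a ≠ b → b ≠ c → a ≠ c → ∀ (r : R) (s : R'),
      Commute (S.x a b (f r)) (S.x b c (g s)) := fun hab hbc hac r s =>
    Ext.comm_of_mul_eq_zero S hab hbc hac (hfg r s)
  have h2 : ∀ {a b c : I}, a ≠ b → c ≠ a → c ≠ b → ∀ (r : R) (s : R'),
      Commute (S.x a b (f r)) (S.x c a (g s)) := fun hab hca hcb r s =>
    (Ext.comm_of_mul_eq_zero S hca hab hcb (hgf r s)).symm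
  change Commute (S.x a b (f r)) (S.x c e (g s))
  by_cases hbc : b = c
  · subst hbc
    by_cases hae : a = e
    · subst hae
      obtain ⟨o, hoa, hob⟩ := ActData.exists_third hI a b
      have h3 : S.x a b (f r) = S.x a o (f r) * S.x o b (f 1) * (S.x a o (f r))⁻¹ *
          (S.x o b (f 1))⁻¹ := by
        have h4 := S.comm hoa.symm hob hab (f r) (f 1)
        rw [← map_mul, mul_one] at h4
        rw [h4]
        group
      rw [h3]
      have h5 : Commute (S.x a o (f r)) (S.x b a (g s)) := h2 hoa.symm hab.symm hob.symm r s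
      have h6 : Commute (S.x o b (f 1)) (S.x b a (g s)) := h1 hob hab.symm hoa 1 s
      exact ((h5.mul_left h6).mul_left h5.inv_left).mul_left h6.inv_left
    · exact h1 hab hce hae r s
  · by_cases hae : a = e
    · subst hae
      exact h2 hab hce (Ne.symm hbc) r s
    · exact Ext.disj S hab hce hbc hae _ _

theorem commute_L {S : Stb I R G} {S' : Stb I R' G}
    (h : ∀ (a b c e : I), a ≠ b → c ≠ e → ∀ r s, Commute (S.x a b r) (S'.x c e s)) {g g' : G}
    (hg : g ∈ S.L) (hg' : g' ∈ S'.L) : Commute g g' := by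
  have h1 : S.L ≤ Subgroup.centralizer (S'.L : Set G) := by
    unfold L
    rw [Subgroup.closure_le]
    rintro _ ⟨a, b, hab, r, rfl⟩
    have h2 : S'.L ≤ Subgroup.centralizer {S.x a b r} := by
      unfold L
      rw [Subgroup.closure_le]
      rintro _ ⟨c, e, hce, s, rfl⟩
      refine Subgroup.mem_centralizer_iff.2 fun z hz => ?_
      rw [Set.mem_singleton_iff.1 hz]
      exact (h a b c e hab hce r s).eq
    refine Subgroup.mem_centralizer_iff.2 fun z hz => ?_
    exact ((Subgroup.mem_centralizer_iff.1 (h2 hz)) _ rfl).symm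
  exact ((Subgroup.mem_centralizer_iff.1 (h1 hg)) _ hg').symm

end comap

section pairs

variable {I F G : Type*} [DecidableEq I] [Fintype I] [Ring F] [Group G]

/-- the word `x` has the matrix `g` -/
def Lift (S : Stb I F G) (x : G) (g : (Matrix I I F)ˣ) : Prop := (x, g) ∈ S.Pr

variable (S : Stb I F G)

theorem lift_x {p q : I} (h : p ≠ q) (r : F) : S.Lift (S.x p q r) (el p q h r) :=
  Subgroup.subset_closure ⟨p, q, h, r, rfl⟩

variable {S}

theorem Lift.fst {x : G} {g : (Matrix I I F)ˣ} (h : S.Lift x g) : x ∈ S.L := by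
  have h1 : S.Pr ≤ S.L.comap (MonoidHom.fst G (Matrix I I F)ˣ) := by
    unfold Pr
    rw [Subgroup.closure_le]
    rintro _ ⟨p, q, hpq, r, rfl⟩
    exact Subgroup.subset_closure ⟨p, q, hpq, r, rfl⟩
  exact h1 h

theorem Lift.snd {x : G} {g : (Matrix I I F)ˣ} (h : S.Lift x g) : g ∈ E I F := by
  have h1 : S.Pr ≤ (E I F).comap (MonoidHom.snd G (Matrix I I F)ˣ) := by
    unfold Pr
    rw [Subgroup.closure_le]
    rintro _ ⟨p, q, hpq, r, rfl⟩
    exact el_mem p q hpq r
  exact h1 h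

theorem Lift.mul {x y : G} {g h : (Matrix I I F)ˣ} (hx : S.Lift x g) (hy : S.Lift y h) :
    S.Lift (x * y) (g * h) := S.Pr.mul_mem hx hy

theorem Lift.inv {x : G} {g : (Matrix I I F)ˣ} (hx : S.Lift x g) : S.Lift x⁻¹ g⁻¹ :=
  S.Pr.inv_mem hx

variable (S)

theorem lift_one : S.Lift 1 1 := S.Pr.one_mem

theorem exists_lift {g : (Matrix I I F)ˣ} (hg : g ∈ E I F) : ∃ x, S.Lift x g := by
  induction hg using Subgroup.closure_induction with
  | mem g hg =>
    obtain ⟨p, q, h, r, rfl⟩ := hg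
    exact ⟨_, S.lift_x h r⟩
  | one => exact ⟨1, S.lift_one⟩
  | mul g g' _ _ h h' =>
    obtain ⟨x, hx⟩ := h
    obtain ⟨y, hy⟩ := h'
    exact ⟨x * y, hx.mul hy⟩
  | inv g _ h =>
    obtain ⟨x, hx⟩ := h
    exact ⟨x⁻¹, hx.inv⟩

theorem matStb_x {p q : I} (h : p ≠ q) (r : F) : (matStb I F).x p q r = el p q h r := dif_pos h

theorem lift_w {p q : I} (h : p ≠ q) (u : Fˣ) : S.Lift (S.w p q u) ((matStb I F).w p q u) := by
  unfold Stb.w
  rw [matStb_x h, matStb_x h.symm]
  exact ((S.lift_x h _).mul (S.lift_x h.symm _)).mul (S.lift_x h _)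

theorem lift_h {p q : I} (h : p ≠ q) (u : Fˣ) : S.Lift (S.h p q u) ((matStb I F).h p q u) :=
  (S.lift_w h u).mul (S.lift_w h 1).inv

end pairs

section com

variable {I F X : Type*} [DecidableEq I] [Fintype I] [Ring F] (S : Stb I F (Equiv.Perm X)) (o : X)

/-- the matrices `g`, `h` have lifts which commute at `o` -/
def Com (g h : (Matrix I I F)ˣ) : Prop :=
  ∃ x y, S.Lift x g ∧ S.Lift y h ∧ (x * y) o = (y * x) o

variable {S o}

theorem Com.symm {g h : (Matrix I I F)ˣ} (H : S.Com o g h) : S.Com o h g := by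
  obtain ⟨x, y, hx, hy, e⟩ := H
  exact ⟨y, x, hy, hx, e.symm⟩

/-- words with trivial matrix are central -/
def Cen (S : Stb I F (Equiv.Perm X)) : Prop :=
  ∀ z : Equiv.Perm X, S.Lift z 1 → ∀ g ∈ S.L, Commute z g

theorem Com.all (hc : S.Cen) {g h : (Matrix I I F)ˣ} (H : S.Com o g h) {x' y' : Equiv.Perm X}
    (hx' : S.Lift x' g) (hy' : S.Lift y' h) : (x' * y') o = (y' * x') o := by
  obtain ⟨x, y, hx, hy, e⟩ := H
  have h1 : S.Lift (x⁻¹ * x') 1 := by
    have := hx.inv.mul hx'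
    rwa [inv_mul_cancel] at this
  have h2 : S.Lift (y⁻¹ * y') 1 := by
    have := hy.inv.mul hy'
    rwa [inv_mul_cancel] at this
  have e1 : x' = x * (x⁻¹ * x') := by group
  have e2 : y' = y * (y⁻¹ * y') := by group
  have c1 := hc _ h1
  have c2 := hc _ h2
  have hz := h1.fst
  have hz' := h2.fst
  generalize x⁻¹ * x' = z at *
  generalize y⁻¹ * y' = z' at *
  subst e1 e2
  have e3 : x * z * (y * z') = z * z' * (x * y) := by
    calc x * z * (y * z') = x * (z * y) * z' := by group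
      _ = x * (y * z) * z' := by rw [(c1 _ hy.fst).eq]
      _ = (x * y) * (z * z') := by group
      _ = z * z' * (x * y) := by
        rw [((c1 _ (mul_mem hx.fst hy.fst)).mul_left (c2 _ (mul_mem hx.fst hy.fst))).eq]
  have e4 : y * z' * (x * z) = z * z' * (y * x) := by
    calc y * z' * (x * z) = y * (z' * x) * z := by group
      _ = y * (x * z') * z := by rw [(c2 _ hx.fst).eq]
      _ = (y * x) * (z' * z) := by group
      _ = (y * x) * (z * z') := by rw [(c1 _ hz').eq]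
      _ = z * z' * (y * x) := by
        rw [((c1 _ (mul_mem hy.fst hx.fst)).mul_left (c2 _ (mul_mem hy.fst hx.fst))).eq]
  rw [e3, e4, Equiv.Perm.mul_apply, e, ← Equiv.Perm.mul_apply]

/-- the commutator of two lifts of commuting matrices is central -/
theorem commute_comm (hc : S.Cen) {g h : (Matrix I I F)ˣ} (hgh : g * h = h * g)
    {x y : Equiv.Perm X} (hx : S.Lift x g) (hy : S.Lift y h) {z : Equiv.Perm X} (hz : z ∈ S.L) :
    Commute (x⁻¹ * y⁻¹ * x * y) z := by
  refine hc _ ?_ z hz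
  have h1 := ((hx.inv.mul hy.inv).mul hx).mul hy
  have h2 : g⁻¹ * h⁻¹ * g * h = 1 := by
    calc g⁻¹ * h⁻¹ * g * h = g⁻¹ * h⁻¹ * (g * h) := by group
      _ = 1 := by rw [hgh]; group
  rwa [h2] at h1

theorem comm_fix {x y : Equiv.Perm X} (e : (x * y) o = (y * x) o) :
    (x⁻¹ * y⁻¹ * x * y) o = o := by
  have : x⁻¹ * y⁻¹ * x * y = (x⁻¹ * y⁻¹) * (x * y) := by group
  rw [this, Equiv.Perm.mul_apply, e, ← Equiv.Perm.mul_apply]
  have : x⁻¹ * y⁻¹ * (y * x) = 1 := by group
  rw [this, Equiv.Perm.one_apply]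

/-- the matrices commuting with `h` which have a lift commuting at `o` with a lift of `h` -/
def comSub (hc : S.Cen) (o : X) (h : (Matrix I I F)ˣ) (hh : h ∈ E I F) :
    Subgroup (Matrix I I F)ˣ where
  carrier := {g | g * h = h * g ∧ S.Com o g h}
  one_mem' := by
    obtain ⟨y, hy⟩ := S.exists_lift hh
    exact ⟨by rw [one_mul, mul_one], 1, y, S.lift_one, hy, by rw [one_mul, mul_one]⟩
  mul_mem' := by
    rintro g g' ⟨hg, x, y, hx, hy, e⟩ ⟨hg', H'⟩
    refine ⟨by rw [mul_assoc, hg', ← mul_assoc, hg, mul_assoc], ?_⟩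
    obtain ⟨x', _, hx', -, -⟩ := id H'
    refine ⟨x * x', y, hx.mul hx', hy, ?_⟩
    have f1 := comm_fix e
    have f2 := comm_fix (H'.all hc hx' hy)
    have c1 : Commute (x⁻¹ * y⁻¹ * x * y) (y⁻¹ * x' * y) :=
      commute_comm hc hg hx hy (mul_mem (mul_mem (inv_mem hy.fst) (hx'.fst)) hy.fst)
    have h2 : x * x' * y = y * (x * x') * ((x'⁻¹ * y⁻¹ * x' * y) * (x⁻¹ * y⁻¹ * x * y)) := by
      calc x * x' * y = y * (x * x') * (x'⁻¹ * ((x⁻¹ * y⁻¹ * x * y) * (y⁻¹ * x' * y))) := by group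
        _ = y * (x * x') * (x'⁻¹ * ((y⁻¹ * x' * y) * (x⁻¹ * y⁻¹ * x * y))) := by rw [c1.eq]
        _ = y * (x * x') * ((x'⁻¹ * y⁻¹ * x' * y) * (x⁻¹ * y⁻¹ * x * y)) := by group
    rw [h2, Equiv.Perm.mul_apply, Equiv.Perm.mul_apply (x'⁻¹ * y⁻¹ * x' * y), f1, f2]
  inv_mem' := by
    rintro g ⟨hg, x, y, hx, hy, e⟩
    refine ⟨?_, x⁻¹, y, hx.inv, hy, ?_⟩
    · rw [inv_mul_eq_iff_eq_mul, ← mul_assoc, hg, mul_inv_cancel_right]
    · have f1 := comm_fix e
      have c1 : Commute (x⁻¹ * y⁻¹ * x * y) x⁻¹ := commute_comm hc hg hx hy (inv_mem hx.fst)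
      have h2 : x⁻¹ * y = y * x⁻¹ * (x⁻¹ * y⁻¹ * x * y)⁻¹ := by
        calc x⁻¹ * y = y * ((x⁻¹ * y⁻¹ * x * y)⁻¹ * x⁻¹) := by group
          _ = y * (x⁻¹ * (x⁻¹ * y⁻¹ * x * y)⁻¹) := by rw [c1.inv_left.eq]
          _ = _ := (mul_assoc _ _ _).symm
      rw [h2, Equiv.Perm.mul_apply, Equiv.Perm.inv_eq_iff_eq.2 f1.symm]

end com

end Stb

end BWG
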