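import Pool.Agent.BWG.Loc1

/-!
# Localization, second part: splitting off the places of `t`
-/

set_option autoImplicit false

namespace BWG

open Matrix BW

/-! ### the torus elements as matrices -/

section matStb

variable {I F : Type*} [DecidableEq I] [Fintype I] [Ring F]

theorem matStb_w_val {a b : I} (hab : a ≠ b) (u : Fˣ) : ((matStb I F).w a b u).val =
    1 - Matrix.single a a 1 - Matrix.single b b 1 + Matrix.single a b (u : F) -
      Matrix.single b a ((u⁻¹ : Fˣ) : F) := by
  unfold Stb.w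
  rw [Stb.matStb_x hab, Stb.matStb_x hab.symm, Units.val_mul, Units.val_mul, el_val, el_val,
    ← Matrix.single_neg]
  have e1 : Matrix.single a b (u : F) * Matrix.single b a ((u⁻¹ : Fˣ) : F) = Matrix.single a a 1 := by
    rw [Matrix.single_mul_single_same, Units.mul_inv]
  have e2 : Matrix.single b a ((u⁻¹ : Fˣ) : F) * Matrix.single a b (u : F) = Matrix.single b b 1 := by
    rw [Matrix.single_mul_single_same, Units.inv_mul]
  have e3 : Matrix.single a b (u : F) * Matrix.single a b (u : F) = 0 :=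
    Matrix.single_mul_single_of_ne _ _ _ _ hab.symm _
  have e4 : Matrix.single a a (1 : F) * Matrix.single a b (u : F) = Matrix.single a b (u : F) := by
    rw [Matrix.single_mul_single_same, one_mul]
  calc (1 + Matrix.single a b (u : F)) * (1 + -Matrix.single b a ((u⁻¹ : Fˣ) : F)) *
        (1 + Matrix.single a b (u : F))
      = 1 + Matrix.single a b (u : F) + Matrix.single a b (u : F) -
        Matrix.single b a ((u⁻¹ : Fˣ) : F) -
        Matrix.single a b (u : F) * Matrix.single b a ((u⁻¹ : Fˣ) : F) -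
        Matrix.single b a ((u⁻¹ : Fˣ) : F) * Matrix.single a b (u : F) +
        Matrix.single a b (u : F) * Matrix.single a b (u : F) -
        (Matrix.single a b (u : F) * Matrix.single b a ((u⁻¹ : Fˣ) : F)) *
          Matrix.single a b (u : F) := by noncomm_ring
    _ = _ := by rw [e1, e2, e3, e4]; abel

theorem single_sub' (a b : I) (x y : F) :
    Matrix.single a b (x - y) = Matrix.single a b x - Matrix.single a b y := by
  rw [sub_eq_add_neg, Matrix.single_add, ← Matrix.single_neg, sub_eq_add_neg]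

theorem matStb_h_val {a b : I} (hab : a ≠ b) (u : Fˣ) : ((matStb I F).h a b u).val =
    1 + Matrix.single a a ((u : F) - 1) + Matrix.single b b (((u⁻¹ : Fˣ) : F) - 1) := by
  have h1 : ((matStb I F).w a b 1)⁻¹ = (matStb I F).w a b (-1) := by
    unfold Stb.w
    have e : ∀ {a b : I} (h : a ≠ b) (r : F), ((matStb I F).x a b r)⁻¹ = (matStb I F).x a b (-r) :=
      fun h r => by rw [Stb.matStb_x h, Stb.matStb_x h, el_inv]
    rw [_root_.mul_inv_rev, _root_.mul_inv_rev, e hab, e hab.symm, mul_assoc]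
    simp
  unfold Stb.h
  rw [h1, Units.val_mul, matStb_w_val hab, matStb_w_val hab, inv_neg, inv_one, Units.val_neg,
    Units.val_one, ← Matrix.single_neg, ← Matrix.single_neg, single_sub', single_sub']
  have z1 : ∀ x y : F, Matrix.single a a x * Matrix.single b b y = 0 := fun x y =>
    Matrix.single_mul_single_of_ne _ _ _ _ hab _
  have z2 : ∀ x y : F, Matrix.single b b x * Matrix.single a a y = 0 := fun x y =>
    Matrix.single_mul_single_of_ne _ _ _ _ hab.symm _
  have z3 : ∀ x y : F, Matrix.single a a x * Matrix.single a b y = Matrix.single a b (x * y) :=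
    fun x y => Matrix.single_mul_single_same _ _ _ _ _
  have z4 : ∀ x y : F, Matrix.single a a x * Matrix.single b a y = 0 := fun x y =>
    Matrix.single_mul_single_of_ne _ _ _ _ hab _
  have z5 : ∀ x y : F, Matrix.single b b x * Matrix.single a b y = 0 := fun x y =>
    Matrix.single_mul_single_of_ne _ _ _ _ hab.symm _
  have z6 : ∀ x y : F, Matrix.single b b x * Matrix.single b a y = Matrix.single b a (x * y) :=
    fun x y => Matrix.single_mul_single_same _ _ _ _ _
  have z7 : ∀ x y : F, Matrix.single a b x * Matrix.single a a y = 0 := fun x y =>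
    Matrix.single_mul_single_of_ne _ _ _ _ hab.symm _
  have z8 : ∀ x y : F, Matrix.single a b x * Matrix.single b b y = Matrix.single a b (x * y) :=
    fun x y => Matrix.single_mul_single_same _ _ _ _ _
  have z9 : ∀ x y : F, Matrix.single b a x * Matrix.single a a y = Matrix.single b a (x * y) :=
    fun x y => Matrix.single_mul_single_same _ _ _ _ _
  have z10 : ∀ x y : F, Matrix.single b a x * Matrix.single b b y = 0 := fun x y =>
    Matrix.single_mul_single_of_ne _ _ _ _ hab _
  have z11 : ∀ x y : F, Matrix.single a b x * Matrix.single a b y = 0 := fun x y =>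
    Matrix.single_mul_single_of_ne _ _ _ _ hab.symm _
  have z12 : ∀ x y : F, Matrix.single b a x * Matrix.single b a y = 0 := fun x y =>
    Matrix.single_mul_single_of_ne _ _ _ _ hab _
  have z13 : ∀ x y : F, Matrix.single a b x * Matrix.single b a y = Matrix.single a a (x * y) :=
    fun x y => Matrix.single_mul_single_same _ _ _ _ _
  have z14 : ∀ x y : F, Matrix.single b a x * Matrix.single a b y = Matrix.single b b (x * y) :=
    fun x y => Matrix.single_mul_single_same _ _ _ _ _
  have z15 : ∀ x y : F, Matrix.single a a x * Matrix.single a a y = Matrix.single a a (x * y) :=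
    fun x y => Matrix.single_mul_single_same _ _ _ _ _
  have z16 : ∀ x y : F, Matrix.single b b x * Matrix.single b b y = Matrix.single b b (x * y) :=
    fun x y => Matrix.single_mul_single_same _ _ _ _ _
  simp only [mul_add, add_mul, mul_sub, sub_mul, mul_neg, neg_mul, mul_one, one_mul, z1, z2, z3, z4,
    z5, z6, z7, z8, z9, z10, z11, z12, z13, z14, z15, z16]
  abel

theorem matStb_h_diag {a b : I} (hab : a ≠ b) (u : Fˣ) : ((matStb I F).h a b u).val =
    Matrix.diagonal fun i => if i = a then (u : F) else if i = b then ((u⁻¹ : Fˣ) : F) else 1 := by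
  rw [matStb_h_val hab]
  ext i j
  rw [Matrix.add_apply, Matrix.add_apply, Matrix.single_apply, Matrix.single_apply,
    Matrix.diagonal_apply, Matrix.one_apply]
  by_cases hij : i = j
  · subst hij
    rw [if_pos rfl, if_pos rfl]
    by_cases hia : i = a
    · subst hia
      rw [if_pos rfl, if_pos ⟨rfl, rfl⟩, if_neg (fun h => hab h.1.symm)]
      abel
    · rw [if_neg (fun h => hia h.1.symm), if_neg hia]
      by_cases hib : i = b
      · subst hib
        rw [if_pos rfl, if_pos ⟨rfl, rfl⟩]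
        abel
      · rw [if_neg (fun h => hib h.1.symm), if_neg hib]
        abel
  · rw [if_neg hij, if_neg hij, if_neg (fun h => hij (h.1.symm.trans h.2)),
      if_neg (fun h => hij (h.1.symm.trans h.2))]
    abel

end matStb

/-! ### matrix maps -/

section matMap

variable {d : Type*} [Fintype d] [DecidableEq d] {R R' : Type*} [Ring R] [Ring R']

/-- a non unital ring homomorphism on matrices -/
def matMap (d : Type*) [Fintype d] [DecidableEq d] (f : R →ₙ+* R') :
    Matrix d d R →ₙ+* Matrix d d R' where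
  toFun X := X.map f
  map_mul' X Y := by
    ext i j
    simp only [Matrix.map_apply, Matrix.mul_apply, map_sum, map_mul]
  map_zero' := by
    ext i j
    simp only [Matrix.map_apply, Matrix.zero_apply, map_zero]
  map_add' X Y := by
    ext i j
    simp only [Matrix.map_apply, Matrix.add_apply, map_add]

theorem matMap_apply (f : R →ₙ+* R') (X : Matrix d d R) (i j : d) : matMap d f X i j = f (X i j) := rfl

end matMap

/-! ### the splitting -/

section split

variable {d : Type} [Fintype d] [DecidableEq d] {P D 𝔸 C : Type} [Ring P] [Ring D]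
  [CommRing 𝔸] [CommRing C] {M : LocData d P D 𝔸 C} {t : C} (L : LocAt M t)

namespace LocAt

theorem ε_mul_ε (r s : ∀ i, L.K i) : L.ε r * L.ε s = L.ε (r * s) := (map_mul L.ε r s).symm

theorem mul_ε_one (ξ : 𝔸) : ξ * L.ε 1 = L.ε (L.π ξ) := by rw [← L.ε_π, mul_one]

theorem ε_one_idem : L.ε 1 * L.ε 1 = L.ε 1 := by rw [ε_mul_ε, mul_one]

/-- the projection to the complement -/
def cc : 𝔸 →ₙ+* 𝔸 where
  toFun x := (1 - L.ε 1) * x
  map_mul' x y := by
    have h := L.ε_one_idem
    linear_combination (- x * y) * h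
  map_zero' := mul_zero _
  map_add' := mul_add _

theorem cc_apply (x : 𝔸) : L.cc x = (1 - L.ε 1) * x := rfl

theorem ε_add_cc (x : 𝔸) : L.ε (L.π x) + L.cc x = x := by
  rw [← L.mul_ε_one, cc_apply]; ring

theorem ε_mul_cc (r : ∀ i, L.K i) (x : 𝔸) : L.ε r * L.cc x = 0 := by
  have h : L.ε r * L.ε 1 = L.ε r := by rw [ε_mul_ε, mul_one]
  rw [cc_apply]
  linear_combination (-x) * h

theorem cc_ε (r : ∀ i, L.K i) : L.cc (L.ε r) = 0 := by
  have h : L.ε r * L.ε 1 = L.ε r := by rw [ε_mul_ε, mul_one]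
  rw [cc_apply]
  linear_combination (-1 : 𝔸) * h

theorem π_cc (x : 𝔸) : L.π (L.cc x) = 0 := by
  rw [cc_apply, map_mul, map_sub, map_one, L.π_ε, sub_self, zero_mul]

theorem one_sub_ε_mem : 1 - L.ε 1 ∈ M.O :=
  sub_mem (one_mem _) (L.ε_O 1 fun i => one_mem (L.V i))

theorem cc_mem {x : 𝔸} (hx : x ∈ M.O) : L.cc x ∈ M.O := mul_mem L.one_sub_ε_mem hx

/-- the ring homomorphism on matrices -/
def pm : Matrix d d 𝔸 →+* Matrix d d (∀ i, L.K i) := L.π.mapMatrix

theorem mat_add (X : Matrix d d 𝔸) : matMap d L.ε (L.pm X) + matMap d L.cc X = X := by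
  ext i j
  exact L.ε_add_cc _

theorem mat_mul_zero (X : Matrix d d (∀ i, L.K i)) (Y : Matrix d d 𝔸) :
    matMap d L.ε X * matMap d L.cc Y = 0 := by
  ext i j
  rw [Matrix.mul_apply]
  exact Finset.sum_eq_zero fun k _ => L.ε_mul_cc _ _

theorem mat_mul_zero' (X : Matrix d d (∀ i, L.K i)) (Y : Matrix d d 𝔸) :
    matMap d L.cc Y * matMap d L.ε X = 0 := by
  ext i j
  rw [Matrix.mul_apply]
  exact Finset.sum_eq_zero fun k _ => by
    rw [matMap_apply, matMap_apply, mul_comm]
    exact L.ε_mul_cc _ _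

end LocAt

variable {k : Type} [DecidableEq k] [Fintype k] (A : Acts M k)

/-- the base point -/
def Acts.o (_A : Acts M k) : XX k M.φ.range := QuotientGroup.mk 1

/-- the part of the action at the places of `t` -/
def Acts.B (A : Acts M k) {t : C} (L : LocAt M t) :
    Stb k (Matrix d d (∀ i, L.K i)) (Equiv.Perm (XX k M.φ.range)) := A.S.comap (matMap d L.ε)

/-- the part of the action away from the places of `t` -/
def Acts.Bc (A : Acts M k) {t : C} (L : LocAt M t) :
    Stb k (Matrix d d 𝔸) (Equiv.Perm (XX k M.φ.range)) := A.S.comap (matMap d L.cc)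

namespace Acts

theorem B_commute (hk : 3 ≤ Fintype.card k) {g g' : Equiv.Perm (XX k M.φ.range)}
    (hg : g ∈ (A.B L).L) (hg' : g' ∈ (A.Bc L).L) : Commute g g' :=
  Stb.commute_L (fun _ _ _ _ hab hce r s => A.S.comap_commute hk _ _ L.mat_mul_zero
    (fun r s => L.mat_mul_zero' r s) hab hce r s) hg hg'

theorem x_split {a b : k} (hab : a ≠ b) (X : Matrix d d 𝔸) :
    A.S.x a b X = (A.B L).x a b (L.pm X) * (A.Bc L).x a b X := by
  conv_lhs => rw [← L.mat_add X]
  exact A.S.add hab _ _

theorem x_mem' {I F G : Type*} [Ring F] [Group G] (S : Stb I F G) {a b : I} (h : a ≠ b) (r : F) :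
    S.x a b r ∈ S.L := Subgroup.subset_closure ⟨a, b, h, r, rfl⟩

theorem w_mem' {I F G : Type*} [Ring F] [Group G] (S : Stb I F G) {a b : I} (h : a ≠ b) (u : Fˣ) :
    S.w a b u ∈ S.L :=
  mul_mem (mul_mem (x_mem' S h _) (x_mem' S h.symm _)) (x_mem' S h _)

theorem h_mem' {I F G : Type*} [Ring F] [Group G] (S : Stb I F G) {a b : I} (h : a ≠ b) (u : Fˣ) :
    S.h a b u ∈ S.L := mul_mem (w_mem' S h _) (inv_mem (w_mem' S h _))

theorem w_split (hk : 3 ≤ Fintype.card k) {a b : k} (hab : a ≠ b) (X : (Matrix d d 𝔸)ˣ) :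
    A.S.w a b X = (A.B L).w a b (Units.map L.pm.toMonoidHom X) * (A.Bc L).w a b X := by
  unfold Stb.w
  rw [A.x_split L hab, A.x_split L hab.symm]
  have h1 : (A.Bc L).x a b X.val * (A.B L).x b a (L.pm (-((X⁻¹ : (Matrix d d 𝔸)ˣ) : Matrix d d 𝔸))) =
      (A.B L).x b a (L.pm (-((X⁻¹ : (Matrix d d 𝔸)ˣ) : Matrix d d 𝔸))) * (A.Bc L).x a b X.val :=
    (A.B_commute L hk (x_mem' _ hab.symm _) (x_mem' _ hab _)).eq.symm
  have h2 : (A.Bc L).x a b X.val * (A.Bc L).x b a (-((X⁻¹ : (Matrix d d 𝔸)ˣ) : Matrix d d 𝔸)) *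
      (A.B L).x a b (L.pm X.val) = (A.B L).x a b (L.pm X.val) * ((A.Bc L).x a b X.val *
        (A.Bc L).x b a (-((X⁻¹ : (Matrix d d 𝔸)ˣ) : Matrix d d 𝔸))) :=
    (A.B_commute L hk (x_mem' _ hab _) (mul_mem (x_mem' _ hab _) (x_mem' _ hab.symm _))).eq.symm
  have h3 : L.pm (-((X⁻¹ : (Matrix d d 𝔸)ˣ) : Matrix d d 𝔸)) =
      -(((Units.map L.pm.toMonoidHom X)⁻¹ : (Matrix d d (∀ i, L.K i))ˣ) : Matrix d d (∀ i, L.K i)) := by
    rw [map_neg, ← map_inv]; rfl
  calc (A.B L).x a b (L.pm X.val) * (A.Bc L).x a b X.val *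
        ((A.B L).x b a (L.pm (-((X⁻¹ : (Matrix d d 𝔸)ˣ) : Matrix d d 𝔸))) *
          (A.Bc L).x b a (-((X⁻¹ : (Matrix d d 𝔸)ˣ) : Matrix d d 𝔸))) *
        ((A.B L).x a b (L.pm X.val) * (A.Bc L).x a b X.val)
      = (A.B L).x a b (L.pm X.val) * ((A.Bc L).x a b X.val *
        (A.B L).x b a (L.pm (-((X⁻¹ : (Matrix d d 𝔸)ˣ) : Matrix d d 𝔸)))) *
          (A.Bc L).x b a (-((X⁻¹ : (Matrix d d 𝔸)ˣ) : Matrix d d 𝔸)) *
        (A.B L).x a b (L.pm X.val) * (A.Bc L).x a b X.val := by group
    _ = (A.B L).x a b (L.pm X.val) *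
        (A.B L).x b a (L.pm (-((X⁻¹ : (Matrix d d 𝔸)ˣ) : Matrix d d 𝔸))) *
        ((A.Bc L).x a b X.val * (A.Bc L).x b a (-((X⁻¹ : (Matrix d d 𝔸)ˣ) : Matrix d d 𝔸)) *
        (A.B L).x a b (L.pm X.val)) * (A.Bc L).x a b X.val := by rw [h1]; group
    _ = _ := by rw [h2, h3]; simp only [mul_assoc]; rfl

theorem h_split (hk : 3 ≤ Fintype.card k) {a b : k} (hab : a ≠ b) (X : (Matrix d d 𝔸)ˣ) :
    A.S.h a b X = (A.B L).h a b (Units.map L.pm.toMonoidHom X) * (A.Bc L).h a b X := by
  unfold Stb.h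
  rw [A.w_split L hk hab, A.w_split L hk hab, map_one, _root_.mul_inv_rev]
  have h1 := (A.B_commute L hk (inv_mem (w_mem' (A.B L) hab 1))
    (mul_mem (w_mem' (A.Bc L) hab X) (inv_mem (w_mem' (A.Bc L) hab 1)))).eq
  rw [mul_assoc, ← mul_assoc ((A.Bc L).w a b X), ← h1, ← mul_assoc]

end Acts

end split

end BWG
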