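import Pool.Agent.BWG.Loc2

/-!
# Localization, third part: the commutation at the base point
-/

set_option autoImplicit false

namespace BWG

open Matrix BW

section

variable {d : Type} [Fintype d] [DecidableEq d] {P D 𝔸 C : Type} [Ring P] [Ring D]
  [CommRing 𝔸] [CommRing C] {M : LocData d P D 𝔸 C} {t : C} (L : LocAt M t)
  {k : Type} [DecidableEq k] [Fintype k] (A : Acts M k)

theorem matStb_L_le : (matStb k D).L ≤ E k D := by
  unfold Stb.L
  rw [Subgroup.closure_le]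
  rintro _ ⟨a, b, h, r, rfl⟩
  rw [Stb.matStb_x h]
  exact el_mem a b h r

/-- the torus element in the elementary group -/
def hE {a b : k} (hab : a ≠ b) (u : Dˣ) : E k D :=
  ⟨(matStb k D).h a b u, matStb_L_le (Acts.h_mem' _ hab u)⟩

/-- the Weyl element in the elementary group -/
def wE {a b : k} (hab : a ≠ b) (u : Dˣ) : E k D :=
  ⟨(matStb k D).w a b u, matStb_L_le (Acts.w_mem' _ hab u)⟩

namespace Acts

/-- left multiplication -/
def lam (_A : Acts M k) : E k D →* Equiv.Perm (XX k M.φ.range) :=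
  MulAction.toPermHom (E k D) (XX k M.φ.range)

theorem lam_mk (g g' : E k D) : A.lam g (QuotientGroup.mk g') = QuotientGroup.mk (g * g') := rfl

theorem lam_o (g : E k D) : A.lam g A.o = QuotientGroup.mk g := by
  unfold o
  rw [lam_mk, mul_one]

theorem x_eq_lam {a b : k} (hab : a ≠ b) (x : D) :
    A.S.x a b (M.j x) = A.lam ⟨el a b hab x, el_mem a b hab x⟩ := by
  ext p
  induction p using QuotientGroup.induction_on with
  | H g => rw [A.nat a b hab x g, lam_mk]

theorem w_eq_lam {a b : k} (hab : a ≠ b) (u : Dˣ) :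
    A.S.w a b (Units.map M.j.toMonoidHom u) = A.lam (wE hab u) := by
  have h1 : wE hab u = ⟨el a b hab u.val, el_mem a b hab _⟩ *
      ⟨el b a hab.symm (-((u⁻¹ : Dˣ) : D)), el_mem b a hab.symm _⟩ *
      (⟨el a b hab u.val, el_mem a b hab _⟩ : E k D) := by
    apply Subtype.ext
    change (matStb k D).w a b u = el a b hab u.val * el b a hab.symm (-((u⁻¹ : Dˣ) : D)) *
      el a b hab u.val
    unfold Stb.w
    rw [Stb.matStb_x hab, Stb.matStb_x hab.symm]
  have h2 : -(((Units.map M.j.toMonoidHom u)⁻¹ : (Matrix d d 𝔸)ˣ) : Matrix d d 𝔸) =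
      M.j (-((u⁻¹ : Dˣ) : D)) := by
    rw [map_neg, ← map_inv]; rfl
  have h3 : ((Units.map M.j.toMonoidHom u : (Matrix d d 𝔸)ˣ) : Matrix d d 𝔸) = M.j u.val := rfl
  unfold Stb.w
  rw [h1, map_mul, map_mul, h2, h3, A.x_eq_lam hab, A.x_eq_lam hab.symm]

theorem h_eq_lam {a b : k} (hab : a ≠ b) (u : Dˣ) :
    A.S.h a b (Units.map M.j.toMonoidHom u) = A.lam (hE hab u) := by
  have h1 : hE hab u = wE hab u * (wE hab 1)⁻¹ := rfl
  have h2 := A.w_eq_lam hab 1
  rw [map_one] at h2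
  unfold Stb.h
  rw [h1, map_mul, map_inv, A.w_eq_lam hab, h2]

/-! ### fixed points -/

theorem h_fix {I R X : Type*} [Ring R] (S : Stb I R (Equiv.Perm X)) (o : X) {a b : I} (u : Rˣ)
    (h1 : S.x a b u o = o) (h2 : S.x b a (-((u⁻¹ : Rˣ) : R)) o = o) (h3 : S.x a b 1 o = o)
    (h4 : S.x b a (-1) o = o) : S.h a b u o = o := by
  have e1 : S.w a b u o = o := by
    unfold Stb.w
    rw [Equiv.Perm.mul_apply, Equiv.Perm.mul_apply, h1, h2, h1]
  have e2 : S.w a b 1 o = o := by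
    unfold Stb.w
    rw [Equiv.Perm.mul_apply, Equiv.Perm.mul_apply, Units.val_one, h3, inv_one, Units.val_one, h4,
      h3]
  unfold Stb.h
  rw [Equiv.Perm.mul_apply, Equiv.Perm.inv_eq_iff_eq.2 e2.symm, e1]

theorem B_x_fix {a b : k} (hab : a ≠ b) {X : Matrix d d (∀ i, L.K i)} (hX : ∀ r s i, X r s i ∈ L.V i) :
    (A.B L).x a b X A.o = A.o :=
  A.fix a b hab _ fun r s => L.ε_O _ fun i => hX r s i

theorem Bc_x_fix {a b : k} (hab : a ≠ b) {X : Matrix d d 𝔸} (hX : ∀ r s, L.cc (X r s) ∈ M.O) :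
    (A.Bc L).x a b X A.o = A.o :=
  A.fix a b hab _ hX

theorem B_h_fix {a b : k} (hab : a ≠ b) {X : (Matrix d d (∀ i, L.K i))ˣ}
    (hX : ∀ r s i, X.val r s i ∈ L.V i) (hX' : ∀ r s i, X⁻¹.val r s i ∈ L.V i) :
    (A.B L).h a b X A.o = A.o := by
  have h1 : ∀ r s i, (1 : Matrix d d (∀ i, L.K i)) r s i ∈ L.V i := fun r s i => by
    rw [Matrix.one_apply]
    split_ifs
    · exact one_mem _
    · exact zero_mem _
  exact h_fix _ _ _ (A.B_x_fix L hab hX)
    (A.B_x_fix L hab.symm (X := -X⁻¹.val) fun r s i => neg_mem (hX' r s i)) (A.B_x_fix L hab h1)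
    (A.B_x_fix L hab.symm (X := -1) fun r s i => neg_mem (h1 r s i))

theorem Bc_h_fix {a b : k} (hab : a ≠ b) {X : (Matrix d d 𝔸)ˣ}
    (hX : ∀ r s, L.cc (X.val r s) ∈ M.O) (hX' : ∀ r s, L.cc (X⁻¹.val r s) ∈ M.O) :
    (A.Bc L).h a b X A.o = A.o := by
  have h1 : ∀ r s, L.cc ((1 : Matrix d d 𝔸) r s) ∈ M.O := fun r s => by
    rw [Matrix.one_apply]
    split_ifs
    · exact L.cc_mem (one_mem _)
    · rw [map_zero]; exact zero_mem _
  refine h_fix _ _ _ (A.Bc_x_fix L hab hX)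
    (A.Bc_x_fix L hab.symm (X := -X⁻¹.val) fun r s => ?_) (A.Bc_x_fix L hab h1)
    (A.Bc_x_fix L hab.symm (X := -1) fun r s => ?_)
  · rw [Matrix.neg_apply, map_neg]; exact neg_mem (hX' r s)
  · rw [Matrix.neg_apply, map_neg]; exact neg_mem (h1 r s)

theorem Bc_h_congr {a b : k} {X Y : (Matrix d d 𝔸)ˣ}
    (h1 : matMap d L.cc X.val = matMap d L.cc Y.val)
    (h2 : matMap d L.cc X⁻¹.val = matMap d L.cc Y⁻¹.val) :
    (A.Bc L).h a b X = (A.Bc L).h a b Y := by
  unfold Stb.h Stb.w Bc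
  simp only [Stb.comap_x, map_neg, h1, h2]

/-- scalar units -/
def sc (d : Type) [Fintype d] [DecidableEq d] {R : Type*} [CommRing R] (u : Rˣ) :
    (Matrix d d R)ˣ := Units.map (Matrix.scalar d).toMonoidHom u

theorem sc_val {R : Type*} [CommRing R] (u : Rˣ) : (sc d u).val = Matrix.scalar d u.val := rfl

theorem sc_inv_val {R : Type*} [CommRing R] (u : Rˣ) :
    ((sc d u)⁻¹ : (Matrix d d R)ˣ).val = Matrix.scalar d ((u⁻¹ : Rˣ) : R) := rfl

theorem matMap_scalar {R R' : Type*} [CommRing R] [CommRing R'] (f : R →ₙ+* R') (x : R) :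
    matMap d f (Matrix.scalar d x) = Matrix.scalar d (f x) := by
  ext i j
  rw [matMap_apply, Matrix.scalar_apply, Matrix.scalar_apply, Matrix.diagonal_apply,
    Matrix.diagonal_apply]
  split_ifs
  · rfl
  · exact map_zero f

variable (hT : ∀ (g : (Matrix (Fin 2) (Fin 2) P)ˣ) (m : C), g.val 0 0 = M.cP m →
  g⁻¹.val 1 1 = M.cP m → g⁻¹.val 0 1 = -g.val 0 1 → g ∈ H P)

theorem cc_cc (x : 𝔸) : L.cc (L.cc x) = L.cc x := by
  rw [L.cc_apply, L.cc_apply]
  have := L.ε_one_idem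
  linear_combination x * this

theorem Bc_h_sc_congr {a b : k} {ξ ξ' : 𝔸ˣ} (h : L.cc ξ.val = L.cc ξ'.val) :
    (A.Bc L).h a b (sc d ξ) = (A.Bc L).h a b (sc d ξ') := by
  refine A.Bc_h_congr L ?_ ?_
  · rw [sc_val, sc_val, matMap_scalar, matMap_scalar, h]
  · rw [sc_inv_val, sc_inv_val, matMap_scalar, matMap_scalar]
    rw [L.cc_apply, L.cc_apply] at h ⊢
    have h1 := ξ.mul_inv
    have h2 := ξ'.mul_inv
    congr 1
    linear_combination (-(ξ⁻¹.val * ξ'⁻¹.val)) * h + ((1 - L.ε 1) * ξ'⁻¹.val) * h1 -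
      ((1 - L.ε 1) * ξ⁻¹.val) * h2

/-- a unit at the places of `t` and a unit at the other places -/
def mkUnit (u : ((i : L.J) → L.K i)ˣ) (x y : 𝔸) (h : L.cc x * y = 1 - L.ε 1) : 𝔸ˣ where
  val := L.ε u.val + L.cc x
  inv := L.ε u⁻¹.val + L.cc y
  val_inv := by
    have h1 : L.ε u.val * L.ε u⁻¹.val = L.ε 1 := by
      rw [L.ε_mul_ε, ← Units.val_mul, mul_inv_cancel, Units.val_one]
    have h2 := L.ε_mul_cc u.val y
    have h3 := L.ε_mul_cc u⁻¹.val x
    have h4 : L.cc x * L.cc y = 1 - L.ε 1 := by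
      rw [L.cc_apply y]
      have := L.ε_one_idem
      linear_combination (1 - L.ε 1) * h + this
    linear_combination h1 + h2 + h3 + h4
  inv_val := by
    have h1 : L.ε u.val * L.ε u⁻¹.val = L.ε 1 := by
      rw [L.ε_mul_ε, ← Units.val_mul, mul_inv_cancel, Units.val_one]
    have h2 := L.ε_mul_cc u.val y
    have h3 := L.ε_mul_cc u⁻¹.val x
    have h4 : L.cc x * L.cc y = 1 - L.ε 1 := by
      rw [L.cc_apply y]
      have := L.ε_one_idem
      linear_combination (1 - L.ε 1) * h + this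
    linear_combination h1 + h2 + h3 + h4

theorem π_mkUnit (u : ((i : L.J) → L.K i)ˣ) (x y : 𝔸) (h : L.cc x * y = 1 - L.ε 1) :
    Units.map L.π.toMonoidHom (mkUnit L u x y h) = u := by
  ext1
  change L.π (L.ε u.val + L.cc x) = u.val
  rw [map_add, L.π_ε, L.π_cc, add_zero]

theorem pm_sc (ξ : 𝔸ˣ) : Units.map L.pm.toMonoidHom (sc d ξ) = sc d (Units.map L.π.toMonoidHom ξ) := by
  ext1
  change (Matrix.scalar d ξ.val).map L.π = Matrix.scalar d (L.π ξ.val)
  ext i j
  rw [Matrix.map_apply, Matrix.scalar_apply, Matrix.scalar_apply, Matrix.diagonal_apply,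
    Matrix.diagonal_apply]
  split_ifs
  · rfl
  · exact congrFun (map_zero L.π) _

theorem cc_mkUnit (u : ((i : L.J) → L.K i)ˣ) (x y : 𝔸) (h : L.cc x * y = 1 - L.ε 1) :
    L.cc (mkUnit L u x y h).val = L.cc x := by
  change L.cc (L.ε u.val + L.cc x) = L.cc x
  rw [map_add, L.cc_ε, zero_add, cc_cc]

include hT in
/-- commutation at the base point, local units -/
theorem key_unit (hk : 3 ≤ Fintype.card k) {a b c : k} (hab : a ≠ b) (hac : a ≠ c) (hbc : b ≠ c)
    (u : ((i : L.J) → L.K i)ˣ) (hu : ∀ i, u.val i ∈ L.V i) (hu' : ∀ i, u⁻¹.val i ∈ L.V i)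
    (ν : Dˣ) (hν : ν.val ∈ M.φ.range) :
    ((A.B L).h a b (sc d u) *
      (A.B L).h a c (Units.map L.pm.toMonoidHom (Units.map M.j.toMonoidHom ν))) A.o =
    ((A.B L).h a c (Units.map L.pm.toMonoidHom (Units.map M.j.toMonoidHom ν)) *
      (A.B L).h a b (sc d u)) A.o := by
  have hcc : L.cc 1 * 1 = 1 - L.ε 1 := by rw [L.cc_apply]; ring
  have h1 : (A.Bc L).h a b (sc d (mkUnit L u 1 1 hcc)) = 1 := by
    rw [A.Bc_h_sc_congr L (ξ' := 1) (by rw [cc_mkUnit, Units.val_one])]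
    have : sc d (1 : 𝔸ˣ) = 1 := map_one _
    rw [this]
    exact mul_inv_cancel _
  have h2 := A.h_split L hk hab (sc d (mkUnit L u 1 1 hcc))
  rw [h1, mul_one, pm_sc, π_mkUnit] at h2
  have h3 := A.lemmaQ hT hab hac hbc (mkUnit L u 1 1 hcc)
    (add_mem (L.ε_O _ hu) (L.cc_mem (one_mem _))) (add_mem (L.ε_O _ hu') (L.cc_mem (one_mem _)))
    ν hν (hE hac ν) rfl
  have h4 := A.h_eq_lam hac ν
  rw [A.h_split L hk hac] at h4
  rw [← A.lam_o, ← h4] at h3
  change (A.S.h a b (sc d (mkUnit L u 1 1 hcc))) _ = _ at h3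
  rw [h2] at h3
  generalize Units.map L.pm.toMonoidHom (Units.map M.j.toMonoidHom ν) = N at *
  have c1 := (A.B_commute L hk (h_mem' (A.B L) hac N) (h_mem' (A.Bc L) hac
    (Units.map M.j.toMonoidHom ν))).eq
  have c2 := (A.B_commute L hk (mul_mem (h_mem' (A.B L) hab (sc d u)) (h_mem' (A.B L) hac N))
    (h_mem' (A.Bc L) hac (Units.map M.j.toMonoidHom ν))).eq
  rw [← Equiv.Perm.mul_apply, ← mul_assoc, c2, c1, Equiv.Perm.mul_apply, Equiv.Perm.mul_apply] at h3
  have h5 := ((A.Bc L).h a c (Units.map M.j.toMonoidHom ν)).injective h3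
  have h6 : (A.B L).h a b (sc d u) A.o = A.o := by
    apply A.B_h_fix L hab
    · intro r s i
      rw [sc_val, Matrix.scalar_apply, Matrix.diagonal_apply]
      split_ifs
      · exact hu i
      · exact zero_mem _
    · intro r s i
      rw [sc_inv_val, Matrix.scalar_apply, Matrix.diagonal_apply]
      split_ifs
      · exact hu' i
      · exact zero_mem _
  rw [Equiv.Perm.mul_apply, h5, Equiv.Perm.mul_apply, h6]

include hT in
/-- commutation at the base point, global units -/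
theorem key_glob [Nonempty d] (hk : 3 ≤ Fintype.card k) {a b c : k} (hab : a ≠ b) (hac : a ≠ c) (hbc : b ≠ c)
    (v : C) (hv : v ∈ M.T) (s : 𝔸) (hs : s ∈ M.O) (hvs : M.cA v * s = 1 - L.ε 1)
    (u : ((i : L.J) → L.K i)ˣ) (hu : u.val = L.π (M.cA v))
    (ν : Dˣ) (hν : ν.val ∈ M.φ.range) :
    ((A.B L).h a b (sc d u) *
      (A.B L).h a c (Units.map L.pm.toMonoidHom (Units.map M.j.toMonoidHom ν))) A.o =
    ((A.B L).h a c (Units.map L.pm.toMonoidHom (Units.map M.j.toMonoidHom ν)) *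
      (A.B L).h a b (sc d u)) A.o := by
  have hcc : L.cc (M.cA v) * s = 1 - L.ε 1 := by
    rw [L.cc_apply]
    have := L.ε_one_idem
    linear_combination (1 - L.ε 1) * hvs + this
  -- the global unit
  obtain ⟨u₀, hu₀⟩ := M.T_unit v hv
  have hcen : ∀ y : D, u₀.val * y = y * u₀.val := fun y => by rw [hu₀]; exact M.cP_comm v y
  have hU : (Units.map M.j.toMonoidHom u₀).val = Matrix.scalar d (M.cA v) := by
    change M.j u₀.val = _
    rw [hu₀, M.j_c]
  have hpU : Units.map L.pm.toMonoidHom (Units.map M.j.toMonoidHom u₀) = sc d u := by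
    ext1
    change L.pm (Units.map M.j.toMonoidHom u₀).val = Matrix.scalar d u.val
    rw [hU, hu]
    change (Matrix.scalar d (M.cA v)).map L.π = _
    ext i j
    rw [Matrix.map_apply, Matrix.scalar_apply, Matrix.scalar_apply, Matrix.diagonal_apply,
      Matrix.diagonal_apply]
    split_ifs
    · rfl
    · exact congrFun (map_zero L.π) _
  have hcU : ∀ r s', L.cc ((Units.map M.j.toMonoidHom u₀)⁻¹.val r s') = (1 : Matrix d d 𝔸) r s' * s := by
    intro r s'
    have h1 : ((Units.map M.j.toMonoidHom u₀)⁻¹ : (Matrix d d 𝔸)ˣ).val *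
        Matrix.scalar d (M.cA v) = 1 := by
      rw [← hU, Units.inv_mul]
    have h2 : (((Units.map M.j.toMonoidHom u₀)⁻¹ : (Matrix d d 𝔸)ˣ).val *
        Matrix.scalar d (M.cA v)) r s' =
        ((Units.map M.j.toMonoidHom u₀)⁻¹ : (Matrix d d 𝔸)ˣ).val r s' * M.cA v := by
      rw [Matrix.scalar_apply, Matrix.mul_diagonal]
    rw [L.cc_apply, ← hvs, ← h1, h2]
    ring
  have h1 : (A.Bc L).h a b (sc d (mkUnit L 1 (M.cA v) s hcc)) =
      (A.Bc L).h a b (Units.map M.j.toMonoidHom u₀) := by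
    refine A.Bc_h_congr L ?_ ?_
    · rw [hU, sc_val, matMap_scalar, matMap_scalar, cc_mkUnit]
    · have e1 : (mkUnit L 1 (M.cA v) s hcc)⁻¹.val = L.ε (1 : ((i : L.J) → L.K i)ˣ)⁻¹.val + L.cc s := rfl
      rw [sc_inv_val, matMap_scalar, e1, map_add, L.cc_ε, zero_add]
      ext r s'
      have e2 : L.cc ((Units.map M.j.toMonoidHom u₀)⁻¹.val r s') =
        L.cc (L.cc ((Units.map M.j.toMonoidHom u₀)⁻¹.val r s')) := (cc_cc L _).symm
      rw [matMap_apply, cc_cc, e2, hcU, Matrix.scalar_apply, Matrix.diagonal_apply,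
        Matrix.one_apply]
      split_ifs
      · rw [one_mul]
      · rw [zero_mul, map_zero]
  have h2 := A.h_split L hk hab (sc d (mkUnit L 1 (M.cA v) s hcc))
  rw [h1, pm_sc, π_mkUnit] at h2
  have h2' : (A.B L).h a b (sc d (1 : ((i : L.J) → L.K i)ˣ)) = 1 := by
    have : sc d (1 : ((i : L.J) → L.K i)ˣ) = 1 := map_one _
    rw [this]
    exact mul_inv_cancel _
  rw [h2', one_mul] at h2
  have hone : ∀ i, (1 : ((i : L.J) → L.K i)ˣ).val i ∈ L.V i := fun i => one_mem _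
  have h3 := A.lemmaQ hT hab hac hbc (mkUnit L 1 (M.cA v) s hcc)
    (add_mem (L.ε_O _ hone) (L.cc_mem (M.cA_mem (Classical.arbitrary d) v)))
    (add_mem (L.ε_O _ (by rw [inv_one]; exact hone)) (L.cc_mem hs)) ν hν (hE hac ν) rfl
  have h4 := A.h_eq_lam hac ν
  have h5 := A.h_eq_lam hab u₀
  rw [A.h_split L hk hac] at h4
  rw [A.h_split L hk hab, hpU] at h5
  rw [← A.lam_o] at h3
  change (A.S.h a b (sc d (mkUnit L 1 (M.cA v) s hcc))) _ = _ at h3
  rw [h2, ← h4] at h3
  -- the global elements commute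
  have h6 : hE hab u₀ * hE hac ν = hE hac ν * hE hab u₀ := by
    apply Subtype.ext
    ext1
    change ((matStb k D).h a b u₀).val * ((matStb k D).h a c ν).val =
      ((matStb k D).h a c ν).val * ((matStb k D).h a b u₀).val
    rw [matStb_h_diag hab, matStb_h_diag hac, Matrix.diagonal_mul_diagonal,
      Matrix.diagonal_mul_diagonal]
    congr 1
    ext i
    have hcen' : ∀ y : D, u₀⁻¹.val * y = y * u₀⁻¹.val := fun y => by
      rw [Units.inv_mul_eq_iff_eq_mul, ← mul_assoc, hcen, Units.mul_inv_cancel_right]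
    by_cases hia : i = a
    · rw [if_pos hia, if_pos hia]
      exact hcen _
    · rw [if_neg hia, if_neg hia]
      by_cases hib : i = b
      · rw [if_pos hib]
        exact hcen' _
      · rw [if_neg hib, one_mul, mul_one]
  have h7 : A.lam (hE hab u₀) * A.lam (hE hac ν) = A.lam (hE hac ν) * A.lam (hE hab u₀) := by
    rw [← map_mul, h6, map_mul]
  rw [← h4, ← h5] at h7
  have h8 : (A.Bc L).h a b (Units.map M.j.toMonoidHom u₀) A.o = A.o := by
    apply A.Bc_h_fix L hab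
    · intro r s'
      rw [hU, Matrix.scalar_apply, Matrix.diagonal_apply]
      split_ifs
      · exact L.cc_mem (M.cA_mem (Classical.arbitrary d) v)
      · rw [map_zero]; exact zero_mem _
    · intro r s'
      rw [hcU, Matrix.one_apply]
      split_ifs
      · rw [one_mul]; exact hs
      · rw [zero_mul]; exact zero_mem _
  have hB := h_mem' (A.B L) hab (sc d u)
  have hBc := h_mem' (A.Bc L) hab (Units.map M.j.toMonoidHom u₀)
  have hN := h_mem' (A.B L) hac (Units.map L.pm.toMonoidHom (Units.map M.j.toMonoidHom ν))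
  have hNc := h_mem' (A.Bc L) hac (Units.map M.j.toMonoidHom ν)
  generalize (A.B L).h a c (Units.map L.pm.toMonoidHom (Units.map M.j.toMonoidHom ν)) = Zt at *
  generalize (A.Bc L).h a c (Units.map M.j.toMonoidHom ν) = Zc at *
  generalize (A.B L).h a b (sc d u) = Yt at *
  generalize (A.Bc L).h a b (Units.map M.j.toMonoidHom u₀) = Yc at *
  have c1 := (A.B_commute L hk (mul_mem hB hN) hNc).eq
  have c2 := (A.B_commute L hk (mul_mem hN hB) hNc).eq
  have c3 := (A.B_commute L hk hB hNc).eq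
  have e1 : (Yt * Yc * (Zt * Zc)) A.o = (Zc * (Yt * Zt)) A.o := by
    rw [mul_assoc, Equiv.Perm.mul_apply, Equiv.Perm.mul_apply Yc, h3, ← Equiv.Perm.mul_apply,
      ← mul_assoc, c1]
  have e2 : (Zt * Zc * (Yt * Yc)) A.o = (Zc * (Zt * Yt)) A.o := by
    rw [← mul_assoc, Equiv.Perm.mul_apply, h8, mul_assoc, ← c3, ← mul_assoc, c2]
  rw [h7, e2] at e1
  rw [Equiv.Perm.mul_apply, Equiv.Perm.mul_apply Zc] at e1
  exact (Zc.injective e1).symm

end Acts

end

end BWG
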