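import Pool.Agent.BWG.Loc3
import Pool.Agent.BWG.SR1

/-!
# Localization, fourth part: block matrices, the symbols fix the base point
-/

set_option autoImplicit false

namespace BWG

open Matrix BW

/-! ### diagonal matrices -/

section diag

variable {I J F : Type*} [DecidableEq I] [Fintype I] [DecidableEq J] [Fintype J] [Ring F]

/-- diagonal units -/
def DU (I F : Type*) [DecidableEq I] [Fintype I] [Ring F] : (I → Fˣ) →* (Matrix I I F)ˣ :=
  (Units.map (Matrix.diagonalRingHom I F).toMonoidHom).comp MulEquiv.piUnits.symm.toMonoidHom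

theorem DU_val (f : I → Fˣ) : (DU I F f).val = Matrix.diagonal fun i => (f i : F) := rfl

theorem matStb_h_DU {a b : I} (hab : a ≠ b) (u : Fˣ) : (matStb I F).h a b u =
    DU I F fun i => if i = a then u else if i = b then u⁻¹ else 1 := by
  ext1
  rw [matStb_h_diag hab, DU_val]
  congr 1
  ext i
  split_ifs <;> rfl

/-- block matrices -/
def compU (I J F : Type*) [DecidableEq I] [Fintype I] [DecidableEq J] [Fintype J] [Ring F] :
    (Matrix I I (Matrix J J F))ˣ →* (Matrix (I × J) (I × J) F)ˣ :=
  Units.map (Matrix.compRingEquiv I J F).toRingHom.toMonoidHom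

theorem compU_val (g : (Matrix I I (Matrix J J F))ˣ) :
    (compU I J F g).val = Matrix.comp I I J J F g.val := rfl

theorem compU_DU (f : I → J → Fˣ) : compU I J F (DU I _ fun i => DU J F (f i)) =
    DU (I × J) F fun p => f p.1 p.2 := by
  ext1
  rw [compU_val, DU_val]
  exact Matrix.comp_diagonal_diagonal _

/-- the embedding as a diagonal block -/
def blk (I J F : Type*) [DecidableEq I] [Fintype I] [DecidableEq J] [Fintype J] [Ring F] (a : I) :
    (Matrix J J F)ˣ →* (Matrix (I × J) (I × J) F)ˣ :=
  ((compU I J F).comp (DU I (Matrix J J F))).comp (MonoidHom.mulSingle (fun _ => (Matrix J J F)ˣ) a)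

theorem blk_apply (a : I) (X : (Matrix J J F)ˣ) :
    blk I J F a X = compU I J F (DU I _ (Pi.mulSingle a X)) := rfl

theorem blk_DU (a : I) (f : J → Fˣ) :
    blk I J F a (DU J F f) = DU (I × J) F fun p => if p.1 = a then f p.2 else 1 := by
  rw [blk_apply, ← compU_DU fun i j => if i = a then f j else 1]
  congr 2
  ext1 i
  by_cases h : i = a
  · subst h
    rw [Pi.mulSingle_eq_same]
    simp only [if_true]
  · rw [Pi.mulSingle_eq_of_ne h]
    simp only [if_neg h]
    exact (map_one (DU J F)).symm

theorem blk_comm {a c : I} (hac : a ≠ c) (X Y : (Matrix J J F)ˣ) :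
    blk I J F a X * blk I J F c Y = blk I J F c Y * blk I J F a X := by
  rw [blk_apply, blk_apply, ← map_mul, ← map_mul, ← map_mul, ← map_mul]
  exact congrArg _ (congrArg _ (Pi.mulSingle_commute (f := fun _ : I => (Matrix J J F)ˣ) hac X Y).eq)

theorem blk_el (a : I) {r s : J} (hrs : r ≠ s) (z : F) : blk I J F a (el r s hrs z) =
    el (a, r) (a, s) (fun h => hrs (Prod.ext_iff.1 h).2) z := by
  ext1
  rw [blk_apply, compU_val, DU_val, el_val]
  have h1 : (Matrix.diagonal fun i => ((Pi.mulSingle a (el r s hrs z) : I → (Matrix J J F)ˣ) i :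
      Matrix J J F)) = 1 + Matrix.single a a (Matrix.single r s z) := by
    ext1 i j
    rw [Matrix.diagonal_apply, Matrix.add_apply, Matrix.one_apply, Matrix.single_apply]
    by_cases hij : i = j
    · subst hij
      rw [if_pos rfl, if_pos rfl]
      by_cases hia : i = a
      · subst hia
        rw [Pi.mulSingle_eq_same, if_pos ⟨rfl, rfl⟩, el_val]
      · rw [Pi.mulSingle_eq_of_ne hia, if_neg (fun h => hia h.1.symm), add_zero]; rfl
    · rw [if_neg hij, if_neg hij, if_neg (fun h => hij (h.1.symm.trans h.2)), add_zero]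
  rw [h1]
  have h2 : Matrix.comp I I J J F (1 + Matrix.single a a (Matrix.single r s z)) =
      Matrix.comp I I J J F 1 + Matrix.comp I I J J F (Matrix.single a a (Matrix.single r s z)) :=
    rfl
  rw [h2, Matrix.comp_one, Matrix.comp_single_single]

theorem compU_h {a b : I} (hab : a ≠ b) (N : (Matrix J J F)ˣ) :
    compU I J F ((matStb I (Matrix J J F)).h a b N) = blk I J F a N * blk I J F b N⁻¹ := by
  rw [matStb_h_DU hab, blk_apply, blk_apply, ← map_mul, ← map_mul]
  congr 2
  ext1 i
  rw [Pi.mul_apply]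
  by_cases hia : i = a
  · subst hia
    rw [if_pos rfl, Pi.mulSingle_eq_same, Pi.mulSingle_eq_of_ne hab, mul_one]
  · rw [if_neg hia, Pi.mulSingle_eq_of_ne hia, one_mul]
    by_cases hib : i = b
    · subst hib
      rw [if_pos rfl, Pi.mulSingle_eq_same]
    · rw [if_neg hib, Pi.mulSingle_eq_of_ne hib]

theorem blk_mem {a : I} {X : (Matrix J J F)ˣ} (hX : X ∈ E J F) : blk I J F a X ∈ E (I × J) F := by
  induction hX using Subgroup.closure_induction with
  | mem X hX =>
    obtain ⟨r, s, h, z, rfl⟩ := hX
    rw [blk_el]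
    exact el_mem _ _ _ _
  | one => rw [map_one]; exact one_mem _
  | mul X Y _ _ h h' => rw [map_mul]; exact mul_mem h h'
  | inv X _ h => rw [map_inv]; exact inv_mem h

theorem compU_el_single {a b : I} (hab : a ≠ b) (r s : J) (z : F) :
    compU I J F (el a b hab (Matrix.single r s z)) =
      el (a, r) (b, s) (fun h => hab (Prod.ext_iff.1 h).1) z := by
  ext1
  rw [compU_val, el_val, el_val]
  have h2 : Matrix.comp I I J J F (1 + Matrix.single a b (Matrix.single r s z)) =
      Matrix.comp I I J J F 1 + Matrix.comp I I J J F (Matrix.single a b (Matrix.single r s z)) :=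
    rfl
  rw [h2, Matrix.comp_one, Matrix.comp_single_single]

end diag

/-! ### lifts in the extended data -/

section ext

variable {k d F G : Type*} [DecidableEq k] [Fintype k] [DecidableEq d] [Fintype d] [CommRing F]
  [Group G]

theorem lift_block {B : Stb k (Matrix d d F) G} {S' : Stb (k × d) F G}
    (h1 : ∀ a b, a ≠ b → ∀ r s z, S'.x (a, r) (b, s) z = B.x a b (Matrix.single r s z))
    {x : G} {g : (Matrix k k (Matrix d d F))ˣ} (h : B.Lift x g) : S'.Lift x (compU k d F g) := by
  have hlet : ∀ {a b : k} (hab : a ≠ b) (X : Matrix d d F),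
      S'.Lift (B.x a b X) (compU k d F (el a b hab X)) := by
    intro a b hab X
    induction X using Matrix.induction_on' with
    | h_zero =>
      have e1 : B.x a b 0 = 1 := Ext.x_zero B hab
      rw [e1, el_zero', map_one]
      exact S'.lift_one
    | h_add X Y hX hY =>
      rw [B.add hab, el_add, map_mul]
      exact hX.mul hY
    | h_std_basis r s z =>
      rw [compU_el_single, ← h1 a b hab]
      exact S'.lift_x _ _
  have key : B.Pr ≤ S'.Pr.comap ((MonoidHom.id G).prodMap (compU k d F)) := by
    unfold Stb.Pr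
    rw [Subgroup.closure_le]
    rintro _ ⟨p, q, hpq, r, rfl⟩
    exact hlet hpq r
  exact key h

variable (S' : Stb (k × d) F G) {a b c : k} (hab : a ≠ b) (hac : a ≠ c) (hbc : b ≠ c)

/-- the word of the block torus element -/
noncomputable def hl (a b : k) (u : Fˣ) : G :=
  ((Finset.univ : Finset d).toList.map fun e => S'.h (a, e) (b, e) u).prod

/-- weights of the block torus element -/
def hβ (d : Type*) (a b : k) (u : Fˣ) (p : k × d) : Fˣ :=
  if p.1 = a then u else if p.1 = b then u⁻¹ else 1

theorem prod_hα (a b : k) (hab : a ≠ b) (u : Fˣ) :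
    ((Finset.univ : Finset d).toList.map fun e => Stb.hα (a, e) (b, e) u).prod = hβ d a b u := by
  rw [Finset.prod_map_toList]
  ext1 p
  rw [Finset.prod_apply]
  obtain ⟨i, r⟩ := p
  unfold Stb.hα hβ
  by_cases hia : i = a
  · subst hia
    rw [if_pos rfl, Finset.prod_eq_single r]
    · rw [if_pos rfl]
    · intro e _ he
      rw [if_neg (fun h => he (Prod.ext_iff.1 h).2.symm), if_neg (fun h => hab (Prod.ext_iff.1 h).1)]
    · intro h
      exact absurd (Finset.mem_univ _) h
  · rw [if_neg hia]
    by_cases hib : i = b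
    · subst hib
      rw [if_pos rfl, Finset.prod_eq_single r]
      · rw [if_neg (fun h => hia (Prod.ext_iff.1 h).1), if_pos rfl]
      · intro e _ he
        rw [if_neg (fun h => hia (Prod.ext_iff.1 h).1), if_neg (fun h => he (Prod.ext_iff.1 h).2.symm)]
      · intro h
        exact absurd (Finset.mem_univ _) h
    · rw [if_neg hib]
      exact Finset.prod_eq_one fun e _ => by
        rw [if_neg (fun h => hia (Prod.ext_iff.1 h).1), if_neg (fun h => hib (Prod.ext_iff.1 h).1)]

theorem hβ_eq (a b : k) (u : Fˣ) : DU (k × d) F (hβ d a b u) =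
    DU (k × d) F fun p => if p.1 = a then u else if p.1 = b then u⁻¹ else 1 := rfl

include hab in
theorem lift_hl (u : Fˣ) : S'.Lift (hl S' a b u) (DU (k × d) F (hβ d a b u)) := by
  rw [← prod_hα a b hab u]
  unfold hl
  induction (Finset.univ : Finset d).toList with
  | nil =>
    rw [List.map_nil, List.prod_nil, List.map_nil, List.prod_nil, map_one]
    exact S'.lift_one
  | cons e l ih =>
    rw [List.map_cons, List.prod_cons, List.map_cons, List.prod_cons, map_mul]
    have h1 : DU (k × d) F (Stb.hα (a, e) (b, e) u) = (matStb (k × d) F).h (a, e) (b, e) u := by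
      rw [matStb_h_DU (fun h => hab (Prod.ext_iff.1 h).1)]
      rfl
    rw [h1]
    exact (S'.lift_h (fun h => hab (Prod.ext_iff.1 h).1) u).mul ih

include hab hac hbc in
theorem mon_hl (u : Fˣ) : S'.Mon (hl S' a b u) id (hβ d a b u) := by
  rw [← prod_hα a b hab u]
  unfold hl
  induction (Finset.univ : Finset d).toList with
  | nil =>
    intro p q hpq r
    rw [List.map_nil, List.prod_nil, List.map_nil, List.prod_nil]
    simp
  | cons e l ih =>
    rw [List.map_cons, List.prod_cons, List.map_cons, List.prod_cons]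
    exact (S'.mon_h (a := (a, e)) (b := (b, e)) (c := (c, e))
      (fun h => hab (Prod.ext_iff.1 h).1) (fun h => hac (Prod.ext_iff.1 h).1)
      (fun h => hbc (Prod.ext_iff.1 h).1) u).mul ih Function.injective_id

include hab hac hbc in
/-- elementary matrices inside one block commute with the block torus -/
theorem hl_comm_x (u : Fˣ) (i : k) {r s : d} (hrs : r ≠ s) (z : F) :
    Commute (hl S' a b u) (S'.x (i, r) (i, s) z) := by
  have h := mon_hl S' hab hac hbc u (i, r) (i, s) (fun h => hrs (Prod.ext_iff.1 h).2) z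
  have h1 : (hβ d a b u (i, r) : F) * z * ((hβ d a b u (i, s))⁻¹ : Fˣ) = z := by
    change (hβ d a b u (i, r) : F) * z * ((hβ d a b u (i, r))⁻¹ : Fˣ) = z
    rw [mul_comm _ z, Units.mul_inv_cancel_right]
  rw [h1] at h
  exact mul_inv_eq_iff_eq_mul.1 h

/-- torus elements of different entries commute -/
theorem h_comm_h {I : Type*} [DecidableEq I] (S : Stb I F G) {p q r p' q' : I} (hpq : p ≠ q)
    (hpr : p ≠ r) (hqr : q ≠ r) (hpq' : p' ≠ q') (h1 : p' ≠ p) (h2 : p' ≠ q) (h3 : q' ≠ p)
    (h4 : q' ≠ q) (u v : Fˣ) : Commute (S.h p q u) (S.h p' q' v) := by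
  have h := (S.mon_h hpq hpr hqr u).conj_h hpq' v
  unfold Stb.hα at h
  rw [if_neg h1, if_neg h2, if_neg h3, if_neg h4, inv_one, mul_one, one_mul, mul_one] at h
  simp only [id_eq] at h
  rw [S.h_one, inv_one, mul_one] at h
  exact mul_inv_eq_iff_eq_mul.1 h

end ext

end BWG
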