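import Pool.Agent.BWG.Loc4

/-!
# Localization, fifth part: from commutation of torus elements to symbols
-/

set_option autoImplicit false

namespace BWG

open Matrix BW

section

variable {k d X : Type} [DecidableEq k] [Fintype k] [DecidableEq d] [Fintype d]
  {F : Type} [CommRing F]

theorem matStb_lift {I F : Type*} [DecidableEq I] [Fintype I] [Ring F] {x g : (Matrix I I F)ˣ}
    (h : (matStb I F).Lift x g) : x = g := by
  have h1 : (matStb I F).Pr ≤ (MonoidHom.fst (Matrix I I F)ˣ (Matrix I I F)ˣ).eqLocus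
      (MonoidHom.snd _ _) := by
    unfold Stb.Pr
    rw [Subgroup.closure_le]
    rintro _ ⟨p, q, hpq, r, rfl⟩
    exact Stb.matStb_x hpq r
  exact h1 h

variable {S : Stb (k × d) F (Equiv.Perm X)} {o : X} (hc : S.Cen)

section sy

variable {p q r : k × d} (hpq : p ≠ q) (hpr : p ≠ r) (hqr : q ≠ r)

include hpq hpr hqr

theorem com_of_sy {u v : Fˣ} (h : S.sy p q r u v o = o) :
    S.Com o ((matStb (k × d) F).h p q u) ((matStb (k × d) F).h p r v) := by
  refine ⟨_, _, S.lift_h hpq u, S.lift_h hpr v, ?_⟩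
  have h1 : S.h p q u * S.h p r v = S.sy p q r u v * (S.h p r v * S.h p q u) := by
    unfold Stb.sy
    group
  rw [h1, S.sy_central hpq hpr hqr u v (mul_mem (S.h_mem hpr v) (S.h_mem hpq u)),
    Equiv.Perm.mul_apply, h]

include hc in
theorem sy_of_com {u v : Fˣ}
    (h : S.Com o ((matStb (k × d) F).h p q u) ((matStb (k × d) F).h p r v)) :
    S.sy p q r u v o = o := by
  have h1 := h.all hc (S.lift_h hpq u) (S.lift_h hpr v)
  have h2 := S.sy_central hpq hpr hqr u v (mul_mem (S.h_mem hpr v) (S.h_mem hpq u))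
  have h3 : S.sy p q r u v = (S.h p r v * S.h p q u)⁻¹ * (S.h p q u * S.h p r v) := by
    rw [eq_inv_mul_iff_mul_eq, ← h2]
    unfold Stb.sy
    group
  rw [h3, Equiv.Perm.mul_apply, h1]
  exact Equiv.symm_apply_apply _ _

end sy

variable {a b c : k} (hab : a ≠ b) (hac : a ≠ c) (hbc : b ≠ c)

omit [DecidableEq d] [Fintype d] in
include hab in
theorem hβ_mem (d : Type) [DecidableEq d] [Fintype d] (u : Fˣ) :
    DU (k × d) F (hβ d a b u) ∈ E (k × d) F :=
  (lift_hl (matStb (k × d) F) hab u).snd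

include hab hac hbc in
/-- blocks of elementary matrices commute with the block torus -/
theorem blk_mem_comSub (u : Fˣ) (i : k) {Y : (Matrix d d F)ˣ} (hY : Y ∈ E d F) :
    blk k d F i Y ∈ Stb.comSub hc o (DU (k × d) F (hβ d a b u)) (hβ_mem hab d u) := by
  induction hY using Subgroup.closure_induction with
  | mem Y hY =>
    obtain ⟨r, s, h, z, rfl⟩ := hY
    rw [blk_el]
    refine ⟨?_, _, _, S.lift_x _ z, lift_hl S hab u, ?_⟩
    · have h1 := hl_comm_x (matStb (k × d) F) hab hac hbc u i h z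
      rw [matStb_lift (lift_hl (matStb (k × d) F) hab u),
        Stb.matStb_x (fun e => h (Prod.ext_iff.1 e).2)] at h1
      exact h1.eq.symm
    · rw [(hl_comm_x S hab hac hbc u i h z).eq]
  | one => rw [map_one]; exact one_mem _
  | mul X Y _ _ h h' => rw [map_mul]; exact mul_mem h h'
  | inv X _ h => rw [map_inv]; exact inv_mem h

/-- diagonal torus elements -/
theorem hα_DU {p q : k × d} (hpq : p ≠ q) (u : Fˣ) :
    DU (k × d) F (Stb.hα p q u) = (matStb (k × d) F).h p q u := by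
  rw [matStb_h_DU hpq]
  rfl

theorem h_mem_E {p q : k × d} (hpq : p ≠ q) (u : Fˣ) : (matStb (k × d) F).h p q u ∈ E (k × d) F :=
  ((matStb (k × d) F).lift_h hpq u).snd

include hc hab hac hbc in
/-- commutation with the block torus is commutation with one entry -/
theorem com_block_iff (e₀ : d) (u w : Fˣ) :
    S.Com o ((matStb (k × d) F).h (a, e₀) (c, e₀) w) (DU (k × d) F (hβ d a b u)) ↔
      S.sy (a, e₀) (c, e₀) (b, e₀) w u o = o := by
  have n1 : ((a, e₀) : k × d) ≠ (b, e₀) := fun h => hab (Prod.ext_iff.1 h).1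
  have n2 : ((a, e₀) : k × d) ≠ (c, e₀) := fun h => hac (Prod.ext_iff.1 h).1
  have n3 : ((b, e₀) : k × d) ≠ (c, e₀) := fun h => hbc (Prod.ext_iff.1 h).1
  set z := (matStb (k × d) F).h (a, e₀) (c, e₀) w with hz
  have hzE : z ∈ E (k × d) F := h_mem_E n2 w
  -- the product decomposition
  have e1 : DU (k × d) F (hβ d a b u) = (matStb (k × d) F).h (a, e₀) (b, e₀) u *
      DU (k × d) F (∏ e ∈ Finset.univ.erase e₀, Stb.hα (a, e) (b, e) u) := by
    rw [← hα_DU n1, ← map_mul,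
      Finset.mul_prod_erase _ (fun e => Stb.hα (a, e) (b, e) u) (Finset.mem_univ e₀),
      ← prod_hα a b hab u, Finset.prod_map_toList]
  have e2 : DU (k × d) F (∏ e ∈ Finset.univ.erase e₀, Stb.hα (a, e) (b, e) u) ∈
      Stb.comSub hc o z hzE := by
    have : ∏ e ∈ Finset.univ.erase e₀, Stb.hα (a, e) (b, e) u ∈
        (Stb.comSub hc o z hzE).comap (DU (k × d) F) := by
      refine Subgroup.prod_mem _ fun e he => ?_
      have hee := Finset.ne_of_mem_erase he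
      have m1 : ((a, e) : k × d) ≠ (b, e) := fun h => hab (Prod.ext_iff.1 h).1
      have m2 : ((a, e) : k × d) ≠ (c, e) := fun h => hac (Prod.ext_iff.1 h).1
      have m3 : ((b, e) : k × d) ≠ (c, e) := fun h => hbc (Prod.ext_iff.1 h).1
      rw [Subgroup.mem_comap, hα_DU m1]
      have key : ∀ {G : Type} [Group G] (S : Stb (k × d) F G),
          Commute (S.h (a, e) (b, e) u) (S.h (a, e₀) (c, e₀) w) := fun S =>
        h_comm_h S m1 m2 m3 n2 (fun h => hee (Prod.ext_iff.1 h).2.symm)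
          (fun h => hee (Prod.ext_iff.1 h).2.symm) (fun h => hee (Prod.ext_iff.1 h).2.symm)
          (fun h => hee (Prod.ext_iff.1 h).2.symm) u w
      exact ⟨(key (matStb (k × d) F)).eq, _, _, S.lift_h m1 u, S.lift_h n2 w, by rw [(key S).eq]⟩
    exact this
  have hcz : DU (k × d) F (hβ d a b u) * z = z * DU (k × d) F (hβ d a b u) := by
    rw [hz, ← hα_DU n2, ← map_mul, ← map_mul, mul_comm]
  constructor
  · intro h
    have h1 : DU (k × d) F (hβ d a b u) ∈ Stb.comSub hc o z hzE := ⟨hcz, h.symm⟩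
    rw [e1] at h1
    have h2 := (Subgroup.mul_mem_cancel_right _ e2).1 h1
    exact sy_of_com hc n2 n1 n3.symm h2.2.symm
  · intro h
    have h1 := com_of_sy n2 n1 n3.symm h
    have h2 : (matStb (k × d) F).h (a, e₀) (b, e₀) u ∈ Stb.comSub hc o z hzE := by
      refine ⟨?_, h1.symm⟩
      rw [hz, ← hα_DU n2, ← hα_DU n1, ← map_mul, ← map_mul, mul_comm]
    have h3 := mul_mem h2 e2
    rw [← e1] at h3
    exact h3.2.symm

/-- the torus element with one entry, in blocks -/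
theorem zz_eq (hac : a ≠ c) (e₀ : d) (w : Fˣ) : (matStb (k × d) F).h (a, e₀) (c, e₀) w =
    blk k d F a (DU d F (Pi.mulSingle e₀ w)) * blk k d F c (DU d F (Pi.mulSingle e₀ w))⁻¹ := by
  rw [matStb_h_DU (fun h => hac (Prod.ext_iff.1 h).1), ← map_inv, blk_DU, blk_DU, ← map_mul]
  congr 1
  ext1 ⟨i, r⟩
  rw [Pi.mul_apply]
  by_cases hia : i = a
  · subst hia
    rw [if_pos rfl, if_neg hac, mul_one]
    by_cases hr : r = e₀
    · subst hr
      rw [if_pos rfl, Pi.mulSingle_eq_same]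
    · rw [if_neg (fun h => hr (Prod.ext_iff.1 h).2), if_neg (fun h => hr (Prod.ext_iff.1 h).2),
        Pi.mulSingle_eq_of_ne hr]
  · rw [if_neg (fun h => hia (Prod.ext_iff.1 h).1), if_neg hia, one_mul]
    by_cases hic : i = c
    · subst hic
      rw [if_pos rfl]
      by_cases hr : r = e₀
      · subst hr
        rw [if_pos rfl, Pi.inv_apply, Pi.mulSingle_eq_same]
      · rw [if_neg (fun h => hr (Prod.ext_iff.1 h).2), Pi.inv_apply, Pi.mulSingle_eq_of_ne hr,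
          inv_one]
    · rw [if_neg (fun h => hic (Prod.ext_iff.1 h).1), if_neg hic]

include hc hab hac hbc in
/-- the main step -/
theorem sym_main (hSR : ∀ a b : F, IsCoprime a b → ∃ t, IsUnit (a + t * b)) (e₀ : d) (u v δ : Fˣ)
    (N : (Matrix d d F)ˣ) (hN : N.val.det = v * δ)
    (hcomm : (blk k d F a N * blk k d F c N⁻¹) * DU (k × d) F (hβ d a b u) =
      DU (k × d) F (hβ d a b u) * (blk k d F a N * blk k d F c N⁻¹))
    (hcom : S.Com o (blk k d F a N * blk k d F c N⁻¹) (DU (k × d) F (hβ d a b u)))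
    (hδ : S.sy (a, e₀) (c, e₀) (b, e₀) δ u o = o) : S.sy (a, e₀) (c, e₀) (b, e₀) v u o = o := by
  set Dv := DU d F (Pi.mulSingle e₀ v) with hDv
  set Dδ := DU d F (Pi.mulSingle e₀ δ) with hDδ
  have hdet : ∀ w : Fˣ, (DU d F (Pi.mulSingle e₀ w)).val.det = w := by
    intro w
    rw [DU_val, Matrix.det_diagonal, Finset.prod_eq_single e₀]
    · rw [Pi.mulSingle_eq_same]
    · intro i _ hi
      rw [Pi.mulSingle_eq_of_ne hi, Units.val_one]
    · intro h
      exact absurd (Finset.mem_univ _) h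
  have hdetinv : ∀ w : (Matrix d d F)ˣ, w⁻¹.val.det * w.val.det = 1 := by
    intro w
    rw [← Matrix.det_mul, ← Units.val_mul, inv_mul_cancel, Units.val_one, Matrix.det_one]
  have hκ : (Dv⁻¹ * N * Dδ⁻¹).val.det = 1 := by
    have h1 := hdetinv Dv
    have h2 := hdetinv Dδ
    rw [hdet] at h1 h2
    rw [Units.val_mul, Units.val_mul, Matrix.det_mul, Matrix.det_mul, hN]
    linear_combination (Dδ⁻¹.val.det * (δ : F)) * h1 + h2
  have hκE : Dv⁻¹ * N * Dδ⁻¹ ∈ E d F := mem_E_of_det_eq_one hSR _ hκ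
  have hκ' : (Dδ⁻¹ * (Dv⁻¹ * N * Dδ⁻¹)⁻¹ * Dδ).val.det = 1 := by
    have h2 := hdetinv Dδ
    have h3 := hdetinv (Dv⁻¹ * N * Dδ⁻¹)
    rw [hκ, mul_one] at h3
    rw [Units.val_mul, Units.val_mul, Matrix.det_mul, Matrix.det_mul, h3, mul_one, h2]
  have hκE' : Dδ⁻¹ * (Dv⁻¹ * N * Dδ⁻¹)⁻¹ * Dδ ∈ E d F := mem_E_of_det_eq_one hSR _ hκ'
  have hcd : Dv * Dδ = Dδ * Dv := by
    rw [hDv, hDδ, ← map_mul, ← map_mul, mul_comm]
  have e1 : blk k d F a N * blk k d F c N⁻¹ =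
      blk k d F c (Dδ⁻¹ * (Dv⁻¹ * N * Dδ⁻¹)⁻¹ * Dδ) * (matStb (k × d) F).h (a, e₀) (c, e₀) v *
        blk k d F a (Dv⁻¹ * N * Dδ⁻¹) * (matStb (k × d) F).h (a, e₀) (c, e₀) δ := by
    rw [zz_eq hac, zz_eq hac]
    have cm : ∀ X Y : (Matrix d d F)ˣ, blk k d F c X * blk k d F a Y =
      blk k d F a Y * blk k d F c X := fun X Y => (blk_comm hac Y X).symm
    symm
    calc blk k d F c (Dδ⁻¹ * (Dv⁻¹ * N * Dδ⁻¹)⁻¹ * Dδ) * (blk k d F a Dv * blk k d F c Dv⁻¹) *
        blk k d F a (Dv⁻¹ * N * Dδ⁻¹) * (blk k d F a Dδ * blk k d F c Dδ⁻¹)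
        = (blk k d F c (Dδ⁻¹ * (Dv⁻¹ * N * Dδ⁻¹)⁻¹ * Dδ) * blk k d F a Dv) * blk k d F c Dv⁻¹ *
        (blk k d F a (Dv⁻¹ * N * Dδ⁻¹) * blk k d F a Dδ) * blk k d F c Dδ⁻¹ := by group
      _ = blk k d F a Dv * (blk k d F c (Dδ⁻¹ * (Dv⁻¹ * N * Dδ⁻¹)⁻¹ * Dδ) * blk k d F c Dv⁻¹ *
        blk k d F a (Dv⁻¹ * N * Dδ⁻¹ * Dδ)) * blk k d F c Dδ⁻¹ := by
          rw [cm, map_mul (blk k d F a) (Dv⁻¹ * N * Dδ⁻¹)]; group
      _ = blk k d F a Dv * (blk k d F a (Dv⁻¹ * N * Dδ⁻¹ * Dδ) *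
        blk k d F c (Dδ⁻¹ * (Dv⁻¹ * N * Dδ⁻¹)⁻¹ * Dδ * Dv⁻¹)) * blk k d F c Dδ⁻¹ := by
          rw [← map_mul, cm]
      _ = blk k d F a (Dv * (Dv⁻¹ * N * Dδ⁻¹ * Dδ)) *
        blk k d F c (Dδ⁻¹ * (Dv⁻¹ * N * Dδ⁻¹)⁻¹ * Dδ * Dv⁻¹ * Dδ⁻¹) := by
          rw [map_mul (blk k d F a) Dv, map_mul (blk k d F c) _ Dδ⁻¹]; group
      _ = blk k d F a N * blk k d F c N⁻¹ := by
          have f1 : Dv * (Dv⁻¹ * N * Dδ⁻¹ * Dδ) = N := by group
          have f2 : Dδ⁻¹ * (Dv⁻¹ * N * Dδ⁻¹)⁻¹ * Dδ * Dv⁻¹ * Dδ⁻¹ = N⁻¹ := by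
            calc Dδ⁻¹ * (Dv⁻¹ * N * Dδ⁻¹)⁻¹ * Dδ * Dv⁻¹ * Dδ⁻¹
                = N⁻¹ * (Dv * Dδ) * (Dδ * Dv)⁻¹ := by group
              _ = N⁻¹ := by rw [hcd]; group
          rw [f1, f2]
  have hm := hβ_mem hab d u
  have m1 : blk k d F a N * blk k d F c N⁻¹ ∈ Stb.comSub hc o (DU (k × d) F (hβ d a b u)) hm :=
    ⟨hcomm, hcom⟩
  have m2 := blk_mem_comSub hc (o := o) hab hac hbc u c hκE'
  have m3 := blk_mem_comSub hc (o := o) hab hac hbc u a hκE
  have m4 : (matStb (k × d) F).h (a, e₀) (c, e₀) δ ∈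
      Stb.comSub hc o (DU (k × d) F (hβ d a b u)) hm := by
    refine ⟨?_, (com_block_iff hc hab hac hbc e₀ u δ).2 hδ⟩
    rw [← hα_DU (fun h => hac (Prod.ext_iff.1 h).1), ← map_mul, ← map_mul, mul_comm]
  rw [e1] at m1
  have m5 := (Subgroup.mul_mem_cancel_left _ m2).1 ((Subgroup.mul_mem_cancel_right _ m3).1
    ((Subgroup.mul_mem_cancel_right _ m4).1 m1))
  exact (com_block_iff hc hab hac hbc e₀ u v).1 m5.2

end

end BWG
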