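import Pool.Agent.BWG.Loc5

/-!
# Localization, sixth part: all symbols fix the base point
-/

set_option autoImplicit false

namespace BWG

open Matrix BW

section

variable {d : Type} [Fintype d] [DecidableEq d] {P D 𝔸 C : Type} [Ring P] [Ring D]
  [CommRing 𝔸] [CommRing C] {M : LocData d P D 𝔸 C} {t : C} (L : LocAt M t)
  {k : Type} [DecidableEq k] [Fintype k] (A : Acts M k)

/-- local units -/
def LocAt.IsV (u : ((i : L.J) → L.K i)ˣ) : Prop :=
  (∀ i, u.val i ∈ L.V i) ∧ ∀ i, u⁻¹.val i ∈ L.V i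

/-- units from `T` -/
def LocAt.IsG (u : ((i : L.J) → L.K i)ˣ) : Prop :=
  ∃ v ∈ M.T, (∃ s ∈ M.O, M.cA v * s = 1 - L.ε 1) ∧ u.val = L.π (M.cA v)

theorem LocAt.π_mem (x : C) (r : d) (i : L.J) : L.π (M.cA x) i ∈ L.V i :=
  L.π_O _ (M.cA_mem r x) i

/-- the determinant of a matrix congruent to one -/
theorem det_near {R : Type*} [CommRing R] (τ : R) (Q : Matrix d d R) :
    ∃ r, (1 + τ • Q).det = 1 + τ * r := by
  have h : (Ideal.Quotient.mk (Ideal.span {τ})) ((1 + τ • Q).det - 1) = 0 := by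
    rw [map_sub, RingHom.map_det, map_one, sub_eq_zero]
    have : (Ideal.Quotient.mk (Ideal.span {τ})).mapMatrix (1 + τ • Q) = 1 := by
      rw [map_add, map_one]
      have : (Ideal.Quotient.mk (Ideal.span {τ})).mapMatrix (τ • Q) = 0 := by
        ext i j
        rw [RingHom.mapMatrix_apply, Matrix.map_apply, Matrix.smul_apply, smul_eq_mul, map_mul,
          Ideal.Quotient.eq_zero_iff_mem.2 (Ideal.mem_span_singleton_self τ), zero_mul]
        rfl
      rw [this, add_zero]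
    rw [this, Matrix.det_one]
  rw [Ideal.Quotient.eq_zero_iff_mem, Ideal.mem_span_singleton'] at h
  obtain ⟨r, hr⟩ := h
  exact ⟨r, by rw [mul_comm, hr]; ring⟩

theorem LocAt.det_unit (Q : Matrix d d (∀ i, L.K i)) (hQ : ∀ r s i, Q r s i ∈ L.V i)
    (hd : Nonempty d) : ∃ δ : ((i : L.J) → L.K i)ˣ, L.IsV δ ∧
      δ.val = (1 + L.π (M.cA t) • Q).det := by
  have hτ : ∀ i, L.π (M.cA t) i ∈ L.V i := fun i => L.π_mem t (Classical.arbitrary d) i
  have h1 : ∀ i, ∃ r ∈ L.V i, (1 + L.π (M.cA t) • Q).det i = 1 + L.π (M.cA t) i * r := by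
    intro i
    obtain ⟨r, hr⟩ := det_near (⟨L.π (M.cA t) i, hτ i⟩ : L.V i)
      (fun r s => (⟨Q r s i, hQ r s i⟩ : L.V i))
    refine ⟨r.1, r.2, ?_⟩
    have h2 := congrArg (L.V i).subtype hr
    rw [RingHom.map_det] at h2
    have h3 : (1 + L.π (M.cA t) • Q).det i =
        (Pi.evalRingHom (fun i => L.K i) i) (1 + L.π (M.cA t) • Q).det := rfl
    rw [h3, RingHom.map_det]
    refine Eq.trans (congrArg Matrix.det ?_) h2
    ext r s
    simp only [RingHom.mapMatrix_apply, Matrix.map_apply, Matrix.add_apply, Matrix.smul_apply,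
      Matrix.one_apply]
    split_ifs <;> rfl
  have h2 : ∀ i, ∃ s ∈ L.V i, (1 + L.π (M.cA t) • Q).det i * s = 1 := by
    intro i
    obtain ⟨r, hr, e⟩ := h1 i
    rw [e]
    exact L.rad i r hr
  choose s hs hs' using h2
  refine ⟨⟨(1 + L.π (M.cA t) • Q).det, s, funext hs', funext fun i => by
    rw [Pi.mul_apply, mul_comm]; exact hs' i⟩, ⟨fun i => ?_, hs⟩, rfl⟩
  obtain ⟨r, hr, e⟩ := h1 i
  change (1 + L.π (M.cA t) • Q).det i ∈ L.V i
  rw [e]
  exact add_mem (one_mem _) (mul_mem (hτ i) hr)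

/-- the global element approximating `diag(v, 1, …, 1)` -/
theorem LocAt.exists_ν (e₀ : d) (ht : t ∈ M.T) {v : ((i : L.J) → L.K i)ˣ} (hv : L.IsG v) :
    ∃ ν : Dˣ, ν.val ∈ M.φ.range ∧ ∃ δ, L.IsV δ ∧
      (Units.map L.pm.toMonoidHom (Units.map M.j.toMonoidHom ν)).val.det = v * δ := by
  obtain ⟨v₀, hv₀, -, hv⟩ := hv
  obtain ⟨x, M', hM', hx⟩ := M.dense (Matrix.diagonal fun r => if r = e₀ then M.cA v₀ else 1)
    (fun r s => by
      rw [Matrix.diagonal_apply]
      split_ifs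
      · exact M.cA_mem e₀ v₀
      · exact one_mem _
      · exact zero_mem _) (v₀ * t) (mul_mem hv₀ ht)
  set Q : Matrix d d (∀ i, L.K i) :=
    -((Matrix.diagonal fun r => if r = e₀ then 1 else v.val) * M'.map L.π) with hQ
  have hvV : ∀ i, v.val i ∈ L.V i := fun i => by rw [hv]; exact L.π_mem v₀ e₀ i
  have hQV : ∀ r s i, Q r s i ∈ L.V i := by
    intro r s i
    have e1 : Q r s i = -((if r = e₀ then 1 else v.val) i * L.π (M' r s) i) := by
      rw [hQ, Matrix.neg_apply, Matrix.diagonal_mul]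
      rfl
    rw [e1]
    refine neg_mem (mul_mem ?_ (L.π_O _ (hM' r s) i))
    split_ifs
    · exact one_mem _
    · exact hvV i
  obtain ⟨δ, hδ, hδ'⟩ := L.det_unit Q hQV ⟨e₀⟩
  have hN : L.pm (M.j (M.φ x)) = (Matrix.diagonal fun r => if r = e₀ then v.val else 1) *
      (1 + L.π (M.cA t) • Q) := by
    have h1 : M.j (M.φ x) = (Matrix.diagonal fun r => if r = e₀ then M.cA v₀ else 1) -
        Matrix.scalar d (M.cA (v₀ * t)) * M' := by rw [hx]; abel
    rw [h1]
    ext1 r s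
    rw [Matrix.diagonal_mul, Matrix.add_apply, Matrix.smul_apply, hQ, Matrix.neg_apply,
      Matrix.diagonal_mul]
    change L.π (((Matrix.diagonal fun r => if r = e₀ then M.cA v₀ else 1) -
        Matrix.scalar d (M.cA (v₀ * t)) * M') r s) = _
    rw [Matrix.sub_apply, Matrix.scalar_apply, Matrix.diagonal_mul, map_sub, map_mul, map_mul,
      map_mul, ← hv, Matrix.diagonal_apply, Matrix.map_apply, Matrix.one_apply, smul_eq_mul]
    by_cases hrs : r = s
    · subst hrs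
      rw [if_pos rfl, if_pos rfl]
      by_cases hre : r = e₀
      · rw [if_pos hre, if_pos hre, if_pos hre, ← hv]; ring
      · rw [if_neg hre, if_neg hre, if_neg hre, map_one]; ring
    · rw [if_neg hrs, if_neg hrs, map_zero]
      by_cases hre : r = e₀
      · rw [if_pos hre, if_pos hre]; ring
      · rw [if_neg hre, if_neg hre]; ring
  have hdet : (L.pm (M.j (M.φ x))).det = v * δ := by
    rw [hN, Matrix.det_mul, ← hδ', Matrix.det_diagonal, Finset.prod_eq_single e₀]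
    · rw [if_pos rfl]
    · intro i _ hi
      rw [if_neg hi]
    · intro h
      exact absurd (Finset.mem_univ _) h
  have hunit : IsUnit (L.pm (M.j (M.φ x))) := by
    rw [Matrix.isUnit_iff_isUnit_det, hdet]
    exact (v * δ).isUnit
  obtain ⟨ν, hν⟩ := L.reg (M.φ x) hunit
  refine ⟨ν, ⟨x, hν.symm⟩, δ, hδ, ?_⟩
  change (L.pm (M.j ν.val)).det = _
  rw [hν, hdet]

/-! ### the extended data -/

variable {S' : Stb (k × d) (∀ i, L.K i) (Equiv.Perm (XX k M.φ.range))}
  (h1 : ∀ a b, a ≠ b → ∀ r s z, S'.x (a, r) (b, s) z = (A.B L).x a b (Matrix.single r s z))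
  (h2 : ∀ a b, a ≠ b → ∀ r s, r ≠ s → ∀ t z z', S'.x (a, r) (a, s) (z * z') =
        (A.B L).x a b (Matrix.single r t z) * (A.B L).x b a (Matrix.single t s z') *
          ((A.B L).x a b (Matrix.single r t z))⁻¹ * ((A.B L).x b a (Matrix.single t s z'))⁻¹)

include h1 h2 in
theorem fixV (hk : 3 ≤ Fintype.card k) {p q : k × d} (hpq : p ≠ q) {z : ∀ i, L.K i}
    (hz : ∀ i, z i ∈ L.V i) : S'.x p q z A.o = A.o := by
  have hs : ∀ (r s : d) {z : ∀ i, L.K i} (_ : ∀ i, z i ∈ L.V i) r' s' i,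
      Matrix.single r s z r' s' i ∈ L.V i := by
    intro r s z hz r' s' i
    rw [Matrix.single_apply]
    split_ifs
    · exact hz i
    · exact zero_mem _
  obtain ⟨a, r⟩ := p
  obtain ⟨b, s⟩ := q
  by_cases hab : a = b
  · subst hab
    have hrs : r ≠ s := fun h => hpq (by rw [h])
    obtain ⟨b, hb, -⟩ := ActData.exists_third hk a a
    have e := h2 a b hb.symm r s hrs r z 1
    rw [mul_one] at e
    have f1 := A.B_x_fix L hb.symm (hs r r hz)
    have f2 := A.B_x_fix L hb (hs r s (z := 1) fun i => one_mem _)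
    rw [e, Equiv.Perm.mul_apply, Equiv.Perm.inv_eq_iff_eq.2 f2.symm, Equiv.Perm.mul_apply,
      Equiv.Perm.inv_eq_iff_eq.2 f1.symm, Equiv.Perm.mul_apply, f2, f1]
  · rw [h1 a b hab]
    exact A.B_x_fix L hab (hs r s hz)

include h1 h2 in
theorem fixV_h (hk : 3 ≤ Fintype.card k) {p q : k × d} (hpq : p ≠ q)
    {u : ((i : L.J) → L.K i)ˣ} (hu : L.IsV u) : S'.h p q u A.o = A.o :=
  Acts.h_fix S' A.o u (fixV L A h1 h2 hk hpq hu.1)
    (fixV L A h1 h2 hk hpq.symm fun i => neg_mem (hu.2 i))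
    (fixV L A h1 h2 hk hpq fun _ => one_mem _)
    (fixV L A h1 h2 hk hpq.symm (z := -1) fun _ => neg_mem (one_mem _))

include h1 h2 in
theorem sy_VV (hk : 3 ≤ Fintype.card k) {p q r : k × d} (hpq : p ≠ q) (hpr : p ≠ r)
    {u v : ((i : L.J) → L.K i)ˣ} (hu : L.IsV u) (hv : L.IsV v) : S'.sy p q r u v A.o = A.o := by
  have f1 := fixV_h L A h1 h2 hk hpq hu
  have f2 := fixV_h L A h1 h2 hk hpr hv
  unfold Stb.sy
  rw [Equiv.Perm.mul_apply, Equiv.Perm.inv_eq_iff_eq.2 f2.symm, Equiv.Perm.mul_apply,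
    Equiv.Perm.inv_eq_iff_eq.2 f1.symm, Equiv.Perm.mul_apply, f2, f1]

variable (hT : ∀ (g : (Matrix (Fin 2) (Fin 2) P)ˣ) (m : C), g.val 0 0 = M.cP m →
  g⁻¹.val 1 1 = M.cP m → g⁻¹.val 0 1 = -g.val 0 1 → g ∈ H P)

theorem compU_sc {F : Type*} [CommRing F] {a b : k} (hab : a ≠ b) (u : Fˣ) :
    compU k d F ((matStb k (Matrix d d F)).h a b (Acts.sc d u)) = DU (k × d) F (hβ d a b u) := by
  have e1 : Acts.sc d u = DU d F fun _ => u := by
    ext1
    rfl
  rw [compU_h hab, e1, ← map_inv, blk_DU, blk_DU, ← map_mul]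
  congr 1
  ext1 p
  unfold hβ
  rw [Pi.mul_apply]
  by_cases ha : p.1 = a
  · rw [if_pos ha, if_pos ha, if_neg (fun h => hab (ha.symm.trans h)), mul_one]
  · rw [if_neg ha, if_neg ha, one_mul]
    by_cases hb : p.1 = b
    · rw [if_pos hb, if_pos hb]; rfl
    · rw [if_neg hb, if_neg hb]

/-- diagonal block matrices with scalar blocks are central among the diagonal block matrices -/
theorem comm_sc {F : Type*} [CommRing F] {a b c : k} (hab : a ≠ b) (hac : a ≠ c) (u : Fˣ)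
    (N : (Matrix d d F)ˣ) :
    (blk k d F a N * blk k d F c N⁻¹) * DU (k × d) F (hβ d a b u) =
      DU (k × d) F (hβ d a b u) * (blk k d F a N * blk k d F c N⁻¹) := by
  have hs : ∀ X : (Matrix d d F)ˣ, X * Acts.sc d u = Acts.sc d u * X := by
    intro X
    ext1
    exact (Matrix.scalar_commute u.val (fun r => mul_comm _ _) X.val).symm.eq
  have hs' : ∀ X : (Matrix d d F)ˣ, X * (Acts.sc d u)⁻¹ = (Acts.sc d u)⁻¹ * X := by
    intro X
    rw [mul_inv_eq_iff_eq_mul, mul_assoc, hs X, inv_mul_cancel_left]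
  rw [← compU_sc hab, ← compU_h hac, ← map_mul, ← map_mul, matStb_h_DU hab, matStb_h_DU hac,
    ← map_mul, ← map_mul]
  congr 2
  ext1 i
  rw [Pi.mul_apply, Pi.mul_apply]
  split_ifs <;> simp only [mul_one, one_mul, hs, hs']

include hT h1 h2 in
/-- the step: commutation at the base point gives a relation between symbols -/
theorem sym_step (hk : 3 ≤ Fintype.card k) {a b c : k} (hab : a ≠ b) (hac : a ≠ c) (hbc : b ≠ c)
    (ht : t ∈ M.T) (e₀ : d) {u v : ((i : L.J) → L.K i)ˣ} (hv : L.IsG v) (hu : L.IsV u ∨ L.IsG u)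
    (hδ : ∀ δ, L.IsV δ → S'.sy (a, e₀) (c, e₀) (b, e₀) δ u A.o = A.o) :
    S'.sy (a, e₀) (c, e₀) (b, e₀) v u A.o = A.o := by
  haveI : Nonempty d := ⟨e₀⟩
  obtain ⟨ν, hν, δ, hδV, hdet⟩ := L.exists_ν e₀ ht hv
  have hkey : ((A.B L).h a b (Acts.sc d u) *
      (A.B L).h a c (Units.map L.pm.toMonoidHom (Units.map M.j.toMonoidHom ν))) A.o =
    ((A.B L).h a c (Units.map L.pm.toMonoidHom (Units.map M.j.toMonoidHom ν)) *
      (A.B L).h a b (Acts.sc d u)) A.o := by
    rcases hu with hu | ⟨w, hw, ⟨s, hs, hws⟩, hu⟩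
    · exact A.key_unit L hT hk hab hac hbc u hu.1 hu.2 ν hν
    · exact A.key_glob L hT hk hab hac hbc w hw s hs hws u hu ν hν
  generalize Units.map L.pm.toMonoidHom (Units.map M.j.toMonoidHom ν) = N at *
  have hc : S'.Cen := fun z hz g hg => S'.central_of_matrix (a := (a, e₀)) (b := (c, e₀))
    (c := (b, e₀)) (fun h => hac (Prod.ext_iff.1 h).1) (fun h => hab (Prod.ext_iff.1 h).1)
    (fun h => hbc (Prod.ext_iff.1 h).1.symm) hz hg
  have l1 : S'.Lift ((A.B L).h a c N) (blk k d _ a N * blk k d _ c N⁻¹) := by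
    rw [← compU_h hac]
    exact lift_block h1 ((A.B L).lift_h hac N)
  have l2 : S'.Lift ((A.B L).h a b (Acts.sc d u)) (DU (k × d) _ (hβ d a b u)) := by
    rw [← compU_sc hab]
    exact lift_block h1 ((A.B L).lift_h hab _)
  exact sym_main hc hab hac hbc sr1_pi e₀ u v δ N hdet (comm_sc hab hac u N)
    ⟨_, _, l1, l2, hkey.symm⟩ (hδ δ hδV)

include hT h1 h2 in
/-- all symbols fix the base point -/
theorem sym_all (hk : 3 ≤ Fintype.card k) {a b c : k} (hab : a ≠ b) (hac : a ≠ c) (hbc : b ≠ c)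
    (ht : t ∈ M.T) (e₀ : d) (u v : ((i : L.J) → L.K i)ˣ) :
    S'.sy (a, e₀) (c, e₀) (b, e₀) u v A.o = A.o := by
  have n1 : ((a, e₀) : k × d) ≠ (b, e₀) := fun h => hab (Prod.ext_iff.1 h).1
  have n2 : ((a, e₀) : k × d) ≠ (c, e₀) := fun h => hac (Prod.ext_iff.1 h).1
  have n3 : ((c, e₀) : k × d) ≠ (b, e₀) := fun h => hbc (Prod.ext_iff.1 h).1.symm
  have skew : ∀ u v, S'.sy (a, e₀) (c, e₀) (b, e₀) u v A.o = A.o →
      S'.sy (a, e₀) (c, e₀) (b, e₀) v u A.o = A.o := by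
    intro u v h
    rw [S'.sy_skew n2 n1 n3 u v]
    exact Equiv.Perm.inv_eq_iff_eq.2 h.symm
  have hVV : ∀ u v, L.IsV u → L.IsV v → S'.sy (a, e₀) (c, e₀) (b, e₀) u v A.o = A.o :=
    fun u v hu hv => sy_VV L A h1 h2 hk n2 n1 hu hv
  have hGV : ∀ u v, L.IsG u → L.IsV v → S'.sy (a, e₀) (c, e₀) (b, e₀) u v A.o = A.o :=
    fun u v hu hv => sym_step L A h1 h2 hT hk hab hac hbc ht e₀ hu (Or.inl hv)
      fun δ hδ => hVV δ v hδ hv
  have hGG : ∀ u v, L.IsG u → L.IsG v → S'.sy (a, e₀) (c, e₀) (b, e₀) u v A.o = A.o :=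
    fun u v hu hv => sym_step L A h1 h2 hT hk hab hac hbc ht e₀ hu (Or.inr hv)
      fun δ hδ => skew _ _ (hGV v δ hv hδ)
  have hW : ∀ u v, (L.IsV u ∨ L.IsG u) → (L.IsV v ∨ L.IsG v) →
      S'.sy (a, e₀) (c, e₀) (b, e₀) u v A.o = A.o := by
    rintro u v (hu | hu) (hv | hv)
    · exact hVV u v hu hv
    · exact skew _ _ (hGV v u hv hu)
    · exact hGV u v hu hv
    · exact hGG u v hu hv
  -- the subgroup of the good units
  have hgen : ∀ u : ((i : L.J) → L.K i)ˣ, u ∈ Subgroup.closure {u | L.IsV u ∨ L.IsG u} := by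
    intro u
    obtain ⟨y, hy, hy', v, hv, v', hv', hs, hs', e⟩ := L.glob u
    -- `π (cA v)` is a unit
    have hun : ∀ v ∈ M.T, ∃ w : ((i : L.J) → L.K i)ˣ, w.val = L.π (M.cA v) := by
      intro v hv
      obtain ⟨u₀, hu₀⟩ := M.T_unit v hv
      have e1 : (Units.map L.pm.toMonoidHom (Units.map M.j.toMonoidHom u₀)).val =
          Matrix.scalar d (L.π (M.cA v)) := by
        change L.pm (M.j u₀.val) = _
        rw [hu₀, M.j_c]
        ext i j
        change L.π (Matrix.scalar d (M.cA v) i j) _ = _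
        rw [Matrix.scalar_apply, Matrix.scalar_apply, Matrix.diagonal_apply, Matrix.diagonal_apply]
        split_ifs
        · rfl
        · exact congrFun (map_zero L.π) _
      have e2 := (Units.map L.pm.toMonoidHom (Units.map M.j.toMonoidHom u₀)).mul_inv
      rw [e1] at e2
      have e3 := congrFun (congrFun e2 e₀) e₀
      rw [Matrix.scalar_apply, Matrix.diagonal_mul, Matrix.one_apply_eq] at e3
      exact ⟨⟨L.π (M.cA v), _, e3, by rw [mul_comm]; exact e3⟩, rfl⟩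
    obtain ⟨w, hw⟩ := hun v hv
    obtain ⟨w', hw'⟩ := hun v' hv'
    have e4 : u = y * w' * w⁻¹ := by
      rw [eq_mul_inv_iff_mul_eq]
      ext1
      rw [Units.val_mul, Units.val_mul, hw, hw', e]
    rw [e4]
    refine mul_mem (mul_mem (Subgroup.subset_closure (Or.inl ⟨hy, hy'⟩))
      (Subgroup.subset_closure (Or.inr ⟨v', hv', hs', hw'⟩)))
      (inv_mem (Subgroup.subset_closure (Or.inr ⟨v, hv, hs, hw⟩)))
  -- first variable
  have hleft : ∀ v, (∀ u, (L.IsV u ∨ L.IsG u) → S'.sy (a, e₀) (c, e₀) (b, e₀) u v A.o = A.o) →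
      ∀ u, S'.sy (a, e₀) (c, e₀) (b, e₀) u v A.o = A.o := by
    intro v hv u
    induction hgen u using Subgroup.closure_induction with
    | mem u hu => exact hv u hu
    | one =>
      have : S'.sy (a, e₀) (c, e₀) (b, e₀) 1 v = 1 := by
        unfold Stb.sy
        rw [S'.h_one]
        group
      rw [this]; rfl
    | mul u u' _ _ h h' =>
      rw [S'.sy_mul_left n2 n1 n3, Equiv.Perm.mul_apply, h', h]
    | inv u _ h =>
      have : S'.sy (a, e₀) (c, e₀) (b, e₀) u⁻¹ v = (S'.sy (a, e₀) (c, e₀) (b, e₀) u v)⁻¹ := by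
        have e1 := S'.sy_mul_left n2 n1 n3 u⁻¹ u v
        rw [inv_mul_cancel] at e1
        have e2 : S'.sy (a, e₀) (c, e₀) (b, e₀) 1 v = 1 := by
          unfold Stb.sy
          rw [S'.h_one]
          group
        rw [e2] at e1
        exact eq_inv_of_mul_eq_one_left e1.symm
      rw [this]
      exact Equiv.Perm.inv_eq_iff_eq.2 h.symm
  have h3 : ∀ u v, (L.IsV v ∨ L.IsG v) → S'.sy (a, e₀) (c, e₀) (b, e₀) u v A.o = A.o :=
    fun u v hv => hleft v (fun u hu => hW u v hu hv) u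
  exact hleft v (fun u hu => skew _ _ (h3 v u hu)) u

end

end BWG
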