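import Pool.Agent.BWG.Defs
import Pool.Agent.BW.Stable

/-!
# Row V: injective stability (Vaserstein)
-/

set_option autoImplicit false
set_option linter.unusedSectionVars false
set_option linter.unusedSimpArgs false

namespace BWG

open Matrix BW
open Pool.Agent.Helper24.BWR (emb SR2' emb_emb emb_mem emb_c2 c2 Rel EJ EJ_le emb_el)

namespace V

variable {S : Type*} [Ring S]

/-! ### block matrices -/

section blk

variable {n : Type*} [DecidableEq n] [Fintype n]

/-- the matrix with the blocks `a`, `r`, `c`, `M` -/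
def blk (a : S) (r : n → S) (c : n → S) (M : Matrix n n S) :
    Matrix (Option n) (Option n) S := fun i j =>
  match i, j with
  | none, none => a
  | none, some j => r j
  | some i, none => c i
  | some i, some j => M i j

@[simp] theorem blk_nn (a : S) (r : n → S) (c : n → S) (M : Matrix n n S) :
    blk a r c M none none = a := rfl
@[simp] theorem blk_ns (a : S) (r : n → S) (c : n → S) (M : Matrix n n S) (j : n) :
    blk a r c M none (some j) = r j := rfl
@[simp] theorem blk_sn (a : S) (r : n → S) (c : n → S) (M : Matrix n n S) (i : n) :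
    blk a r c M (some i) none = c i := rfl
@[simp] theorem blk_ss (a : S) (r : n → S) (c : n → S) (M : Matrix n n S) (i j : n) :
    blk a r c M (some i) (some j) = M i j := rfl

/-- the row block -/
def dr (X : Matrix (Option n) (Option n) S) : n → S := fun j => X none (some j)
/-- the column block -/
def dc (X : Matrix (Option n) (Option n) S) : n → S := fun i => X (some i) none
/-- the lower right block -/
def dd (X : Matrix (Option n) (Option n) S) : Matrix n n S := fun i j => X (some i) (some j)

theorem dr_apply (X : Matrix (Option n) (Option n) S) (j : n) : dr X j = X none (some j) := rfl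
theorem dc_apply (X : Matrix (Option n) (Option n) S) (j : n) : dc X j = X (some j) none := rfl
theorem dd_apply (X : Matrix (Option n) (Option n) S) (i j : n) :
    dd X i j = X (some i) (some j) := rfl

theorem blk_eta (X : Matrix (Option n) (Option n) S) : blk (X none none) (dr X) (dc X) (dd X) = X := by
  ext i j
  rcases i with _ | i <;> rcases j with _ | j <;> rfl

theorem blk_mul (a a' : S) (r r' c c' : n → S) (M M' : Matrix n n S) :
    blk a r c M * blk a' r' c' M' = blk (a * a' + r ⬝ᵥ c') (a • r' + r ᵥ* M')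
      ((fun i => c i * a') + M *ᵥ c') (vecMulVec c r' + M * M') := by
  ext i j
  rcases i with _ | i <;> rcases j with _ | j <;>
    simp [Matrix.mul_apply, Fintype.sum_option, dotProduct, vecMul, mulVec, vecMulVec]

theorem blk_one : blk (1 : S) (0 : n → S) 0 1 = 1 := by
  ext i j
  rcases i with _ | i <;> rcases j with _ | j <;> simp [Matrix.one_apply]

/-- the unipotent column -/
def vm (t : n → S) : (Matrix (Option n) (Option n) S)ˣ where
  val := blk 1 0 t 1
  inv := blk 1 0 (-t) 1
  val_inv := by rw [blk_mul, ← blk_one]; congr 1 <;> simp [funext_iff]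
  inv_val := by rw [blk_mul, ← blk_one]; congr 1 <;> simp [funext_iff]

/-- the unipotent row -/
def rm (a : n → S) : (Matrix (Option n) (Option n) S)ˣ where
  val := blk 1 a 0 1
  inv := blk 1 (-a) 0 1
  val_inv := by rw [blk_mul, ← blk_one]; congr 1 <;> simp [funext_iff]
  inv_val := by rw [blk_mul, ← blk_one]; congr 1 <;> simp [funext_iff]

/-- the block diagonal matrices -/
def dm : (Matrix n n S)ˣ →* (Matrix (Option n) (Option n) S)ˣ :=
  Units.map { toFun := fun M => blk 1 0 0 M
              map_one' := blk_one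
              map_mul' := fun M M' => by rw [blk_mul]; congr 1 <;> simp [funext_iff] }

theorem dm_val (b : (Matrix n n S)ˣ) : (dm b).val = blk 1 0 0 b.val := rfl
theorem vm_val (t : n → S) : (vm t).val = blk 1 0 t 1 := rfl
theorem rm_val (a : n → S) : (rm a).val = blk 1 a 0 1 := rfl
theorem vm_inv (t : n → S) : (vm t)⁻¹ = vm (-t) := Units.ext rfl
theorem rm_inv (a : n → S) : (rm a)⁻¹ = rm (-a) := Units.ext rfl

theorem vm_mul (t t' : n → S) : vm t * vm t' = vm (t + t') := by
  apply Units.ext
  rw [Units.val_mul, vm_val, vm_val, vm_val, blk_mul]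
  congr 1 <;> simp [funext_iff]

theorem rm_mul (a a' : n → S) : rm a * rm a' = rm (a' + a) := by
  apply Units.ext
  rw [Units.val_mul, rm_val, rm_val, rm_val, blk_mul]
  congr 1 <;> simp [funext_iff]

theorem dm_mul_vm (b : (Matrix n n S)ˣ) (t : n → S) : dm b * vm t = vm (b.val *ᵥ t) * dm b := by
  apply Units.ext
  rw [Units.val_mul, Units.val_mul, vm_val, vm_val, dm_val, blk_mul, blk_mul]
  congr 1 <;> simp [funext_iff]

theorem rm_mul_dm (b : (Matrix n n S)ˣ) (a : n → S) : rm a * dm b = dm b * rm (a ᵥ* b.val) := by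
  apply Units.ext
  rw [Units.val_mul, Units.val_mul, rm_val, rm_val, dm_val, blk_mul, blk_mul]
  congr 1 <;> simp [funext_iff]

theorem vm_single (j : n) (x : S) : vm (Pi.single j x) = el (some j) none (by simp) x := by
  apply Units.ext
  change blk 1 0 (Pi.single j x) 1 = 1 + Matrix.single (some j) none x
  ext i k
  rcases i with _ | i <;> rcases k with _ | k <;>
    simp [Matrix.single_apply, Matrix.one_apply, Pi.single_apply, eq_comm]

theorem rm_single (j : n) (x : S) : rm (Pi.single j x) = el none (some j) (by simp) x := by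
  apply Units.ext
  change blk 1 (Pi.single j x) 0 1 = 1 + Matrix.single none (some j) x
  ext i k
  rcases i with _ | i <;> rcases k with _ | k <;>
    simp [Matrix.single_apply, Matrix.one_apply, Pi.single_apply, eq_comm]

theorem dm_el (i j : n) (h : i ≠ j) (x : S) :
    dm (el i j h x) = el (some i) (some j) (by simpa using h) x := by
  apply Units.ext
  change blk 1 0 0 (1 + Matrix.single i j x) = 1 + Matrix.single (some i) (some j) x
  ext i k
  rcases i with _ | i <;> rcases k with _ | k <;>
    simp [Matrix.single_apply, Matrix.one_apply]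

theorem vm_mem (t : n → S) : vm t ∈ E (Option n) S := by
  have key : ∀ s : Finset n, vm (∑ j ∈ s, Pi.single j (t j)) ∈ E (Option n) S := by
    intro s
    induction s using Finset.induction_on with
    | empty =>
      have : vm (∑ j ∈ (∅ : Finset n), Pi.single j (t j)) = (1 : (Matrix (Option n) (Option n) S)ˣ) := by
        apply Units.ext
        rw [vm_val, Finset.sum_empty, blk_one]; rfl
      rw [this]; exact one_mem _
    | insert j s hj ih =>
      rw [Finset.sum_insert hj, ← vm_mul, vm_single]
      exact mul_mem (el_mem _ _ _ _) ih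
  have h := key Finset.univ
  rwa [Finset.univ_sum_single] at h

theorem rm_mem (t : n → S) : rm t ∈ E (Option n) S := by
  have key : ∀ s : Finset n, rm (∑ j ∈ s, Pi.single j (t j)) ∈ E (Option n) S := by
    intro s
    induction s using Finset.induction_on with
    | empty =>
      have : rm (∑ j ∈ (∅ : Finset n), Pi.single j (t j)) = (1 : (Matrix (Option n) (Option n) S)ˣ) := by
        apply Units.ext
        rw [rm_val, Finset.sum_empty, blk_one]; rfl
      rw [this]; exact one_mem _
    | insert j s hj ih =>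
      rw [Finset.sum_insert hj, ← rm_mul, rm_single]
      exact mul_mem ih (el_mem _ _ _ _)
  have h := key Finset.univ
  rwa [Finset.univ_sum_single] at h

theorem dm_mem {b : (Matrix n n S)ˣ} (hb : b ∈ E n S) : dm b ∈ E (Option n) S := by
  have key : E n S ≤ (E (Option n) S).comap dm := by
    rw [E, Subgroup.closure_le]
    rintro _ ⟨i, j, h, x, rfl⟩
    change dm (el i j h x) ∈ E (Option n) S
    rw [dm_el]
    exact el_mem _ _ _ _
  exact key hb

end blk

/-! ### the stable range condition of Bass -/

section bass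

theorem bass (hS : SR2' S) {a b c u v w : S} (h : u * a + v * b + w * c = 1) :
    ∃ s t x y : S, x * (a + s * c) + y * (b + t * c) = 1 := by
  obtain ⟨s, t, x, y, hxy⟩ := hS a b (w * c) u v h
  refine ⟨s * (1 - v * t * (1 - u * s)) * w, t * (1 - u * s) * w, x + y * t * u,
    (x + y * t * u) * s * v + y, ?_⟩
  refine Eq.trans ?_ hxy
  noncomm_ring

/-- shortening of unimodular columns -/
theorem bass_col (hS : SR2' S) {n : Type*} [DecidableEq n] {J : Finset n} {i j : n} (hi : i ∈ J)
    (hj : j ∈ J) (hij : i ≠ j) {a u : n → S} {c w : S} (h : ∑ k ∈ J, u k * a k + w * c = 1) :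
    ∃ y x : n → S, (∀ k, k ∉ J → y k = 0) ∧ ∑ k ∈ J, x k * (a k + y k * c) = 1 := by
  have hj' : j ∈ J.erase i := Finset.mem_erase.mpr ⟨hij.symm, hj⟩
  set T := (J.erase i).erase j with hT
  have hiT : i ∉ T := fun h => (Finset.mem_erase.mp (Finset.mem_erase.mp h).2).1 rfl
  have hjT : j ∉ T := fun h => (Finset.mem_erase.mp h).1 rfl
  have hsum : ∀ f : n → S, ∑ k ∈ J, f k = f i + (f j + ∑ k ∈ T, f k) := fun f => by
    rw [← Finset.add_sum_erase J f hi, ← Finset.add_sum_erase (J.erase i) f hj']
  rw [hsum] at h
  have h' : u i * a i + u j * a j + 1 * (∑ k ∈ T, u k * a k + w * c) = 1 := by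
    refine Eq.trans ?_ h
    noncomm_ring
  obtain ⟨s, t, x, y, hxy⟩ := bass hS h'
  refine ⟨fun k => if k = i then s * w else if k = j then t * w else 0,
    fun k => if k = i then x else if k = j then y else (x * s + y * t) * u k, ?_, ?_⟩
  · intro k hk
    dsimp only
    rw [if_neg (fun h => hk (by rw [h]; exact hi)), if_neg (fun h => hk (by rw [h]; exact hj))]
  · rw [hsum]
    have e : ∑ k ∈ T, (if k = i then x else if k = j then y else (x * s + y * t) * u k) *
        (a k + (if k = i then s * w else if k = j then t * w else 0) * c) =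
        (x * s + y * t) * ∑ k ∈ T, u k * a k := by
      rw [Finset.mul_sum]
      refine Finset.sum_congr rfl fun k hk => ?_
      have hki : k ≠ i := fun h => hiT (h ▸ hk)
      have hkj : k ≠ j := fun h => hjT (h ▸ hk)
      rw [if_neg hki, if_neg hkj, if_neg hki, if_neg hkj, zero_mul, add_zero, mul_assoc]
    dsimp only
    rw [e, if_pos rfl, if_pos rfl, if_neg hij.symm, if_pos rfl, if_neg hij.symm, if_pos rfl]
    refine Eq.trans ?_ hxy
    generalize ∑ k ∈ T, u k * a k = C
    noncomm_ring

/-- shortening of unimodular rows -/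
theorem bass_row (hS : SR2' Sᵐᵒᵖ) {n : Type*} [DecidableEq n] {J : Finset n} {i j : n} (hi : i ∈ J)
    (hj : j ∈ J) (hij : i ≠ j) {a u : n → S} {c w : S} (h : ∑ k ∈ J, a k * u k + c * w = 1) :
    ∃ y x : n → S, (∀ k, k ∉ J → y k = 0) ∧ ∑ k ∈ J, (a k + c * y k) * x k = 1 := by
  obtain ⟨y, x, hy, hx⟩ := bass_col hS hi hj hij (a := fun k => MulOpposite.op (a k))
    (u := fun k => MulOpposite.op (u k)) (c := MulOpposite.op c) (w := MulOpposite.op w) (by
      have := congrArg MulOpposite.op h
      rw [MulOpposite.op_add, Finset.op_sum, MulOpposite.op_one] at this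
      simpa using this)
  refine ⟨fun k => (y k).unop, fun k => (x k).unop, fun k hk => congrArg MulOpposite.unop (hy k hk), ?_⟩
  have := congrArg MulOpposite.unop hx
  rw [Finset.unop_sum] at this
  simpa using this

end bass

/-! ### the key lemma -/

section key

variable {n : Type*} [DecidableEq n] [Fintype n]

theorem dot_mul (r b : n → S) (c : S) : r ⬝ᵥ (fun k => b k * c) = (r ⬝ᵥ b) * c := by
  simp [dotProduct, Finset.sum_mul, mul_assoc]

theorem mul_dot (r b : n → S) (c : S) : (fun k => c * r k) ⬝ᵥ b = c * (r ⬝ᵥ b) := by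
  simp [dotProduct, Finset.mul_sum, mul_assoc]

theorem mulVec_mul (M : Matrix n n S) (b : n → S) (c : S) :
    M *ᵥ (fun k => b k * c) = fun i => (M *ᵥ b) i * c := by
  funext i
  exact dot_mul _ _ _

theorem keyA0 (c : S) (r yc : n → S) (M : Matrix n n S)
    (X : (Matrix (Option n) (Option n) S)ˣ) (hX : X ∈ E (Option n) S)
    (hval : X.val = blk 1 r (fun i => yc i * c) M) :
    ∃ Y ∈ E (Option n) S, Y.val = blk 1 (fun j => c * r j) yc M := by
  set Z := (vm fun i => yc i * c)⁻¹ * X * rm (-r) with hZ
  have hZE : Z ∈ E (Option n) S := mul_mem (mul_mem (inv_mem (vm_mem _)) hX) (rm_mem _)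
  have hZv : Z.val = blk 1 0 0 (M - vecMulVec (fun i => yc i * c) r) := by
    rw [hZ, vm_inv, Units.val_mul, Units.val_mul, hval, vm_val, rm_val, blk_mul, blk_mul]
    congr 1
    · simp [funext_iff]
    · simp [funext_iff]
    · simp [funext_iff]
    · ext i j
      simp [vecMulVec]
      abel
  refine ⟨vm yc * Z * rm (fun j => c * r j), mul_mem (mul_mem (vm_mem _) hZE) (rm_mem _), ?_⟩
  rw [Units.val_mul, Units.val_mul, hZv, vm_val, rm_val, blk_mul, blk_mul]
  congr 1
  · simp [funext_iff]
  · simp [funext_iff]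
  · simp [funext_iff]
  · ext i j
    simp [vecMulVec, mul_assoc]

theorem keyA (hR : SR2' Sᵐᵒᵖ) {i₁ i₂ : n} (h12 : i₁ ≠ i₂) (c z : S) (r yc : n → S)
    (M : Matrix n n S) (X : (Matrix (Option n) (Option n) S)ˣ) (hX : X ∈ E (Option n) S)
    (hval : X.val = blk (1 + z * c) r (fun i => yc i * c) M) :
    ∃ Y ∈ E (Option n) S, Y.val = blk (1 + c * z) (fun j => c * r j) yc M := by
  have h0 : ∑ k ∈ Finset.univ, r k * (X⁻¹).val (some k) none +
      (1 + z * c) * (X⁻¹).val none none = 1 := by
    have h := congrFun (congrFun (Units.mul_inv X) none) none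
    rw [Matrix.mul_apply, Fintype.sum_option, hval, Matrix.one_apply_eq] at h
    rw [add_comm]
    exact h
  obtain ⟨y, x, -, hx⟩ := bass_row hR (Finset.mem_univ i₁) (Finset.mem_univ i₂) h12 h0
  set r' : n → S := (1 + z * c) • y + r with hr'
  have hr1 : r' ⬝ᵥ x = 1 := by
    rw [← hx]
    refine Finset.sum_congr rfl fun k _ => ?_
    rw [hr', Pi.add_apply, Pi.smul_apply, smul_eq_mul, add_comm]
  set b : n → S := fun k => -(x k * z) with hb
  have hrb : r' ⬝ᵥ b = -z := by
    have : r' ⬝ᵥ b = -((r' ⬝ᵥ x) * z) := by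
      simp [dotProduct, hb, Finset.sum_mul, mul_assoc]
    rw [this, hr1, one_mul]
  set M' : Matrix n n S := vecMulVec (fun i => yc i * c) y + M with hM'
  -- the operations on `X`
  have hX1 : (X * rm y).val = blk (1 + z * c) r' (fun i => yc i * c) M' := by
    rw [Units.val_mul, hval, rm_val, blk_mul]
    congr 1
    · simp
    · simp [hr', funext_iff]
    · simp [funext_iff]
    · simp [hM']
  have hX2 : (X * rm y * vm (fun k => b k * c)).val =
      blk 1 r' (fun i => (yc i + (M' *ᵥ b) i) * c) M' := by
    rw [Units.val_mul, hX1, vm_val, blk_mul]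
    congr 1
    · rw [dot_mul, hrb]; noncomm_ring
    · simp [funext_iff]
    · rw [mulVec_mul]
      funext i
      simp [add_mul]
    · ext i j
      simp [vecMulVec]
  obtain ⟨Y2, hY2, hv2⟩ := keyA0 c r' (fun i => yc i + (M' *ᵥ b) i) M' _
    (mul_mem (mul_mem hX (rm_mem _)) (vm_mem _)) hX2
  refine ⟨Y2 * vm (-b) * rm (-(fun k => c * y k)), mul_mem (mul_mem hY2 (vm_mem _)) (rm_mem _), ?_⟩
  have h3 : (Y2 * vm (-b)).val = blk (1 + c * z) (fun j => c * r' j) yc M' := by
    rw [Units.val_mul, hv2, vm_val, blk_mul]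
    congr 1
    · rw [dotProduct_neg, mul_dot, hrb]; noncomm_ring
    · simp [funext_iff]
    · funext i
      simp [mulVec_neg]
    · ext i j
      simp [vecMulVec]
  rw [Units.val_mul, h3, rm_val, blk_mul]
  congr 1
  · simp
  · funext j
    simp [hr']
    noncomm_ring
  · simp [funext_iff]
  · ext i j
    simp [vecMulVec, hM', mul_assoc]

end key

/-! ### the two parabolic subgroups -/

section main

variable {m : Type*} [DecidableEq m] [Fintype m]

/-- the first block of indices -/
def fl : Option m ↪ Option (Option m) := ⟨Option.map some, Option.map_injective (Option.some_injective _)⟩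

theorem fl_none : fl (none : Option m) = none := rfl
theorem fl_some (j : m) : fl (some j) = some (some j) := rfl

/-- the upper left block -/
def lblk (g : Matrix (Option (Option m)) (Option (Option m)) S) : Matrix (Option m) (Option m) S :=
  fun i j => g (fl i) (fl j)

/-- the last column is a unit vector -/
def IsP (g : Matrix (Option (Option m)) (Option (Option m)) S) : Prop :=
  ∀ i, g i (some none) = (1 : Matrix (Option (Option m)) (Option (Option m)) S) i (some none)

theorem sum_fl {β : Type*} [AddCommMonoid β] (f : Option (Option m) → β) :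
    ∑ k, f k = ∑ t : Option m, f (fl t) + f (some none) := by
  rw [Fintype.sum_option, Fintype.sum_option, Fintype.sum_option, fl_none]
  simp only [fl_some]
  rw [add_assoc, add_comm (∑ x, f (some (some x)))]

theorem IsP.mul_apply {g g' : Matrix (Option (Option m)) (Option (Option m)) S} (h : IsP g')
    (i : Option (Option m)) : (g * g') i (some none) = g i (some none) := by
  have h1 : (g * g') i (some none) =
      (g * (1 : Matrix (Option (Option m)) (Option (Option m)) S)) i (some none) := by
    rw [Matrix.mul_apply, Matrix.mul_apply]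
    exact Finset.sum_congr rfl fun k _ => by rw [h k]
  rw [h1, Matrix.mul_one]

theorem IsP.mul {g g' : Matrix (Option (Option m)) (Option (Option m)) S} (h : IsP g)
    (h' : IsP g') : IsP (g * g') := fun i => by rw [h'.mul_apply, h i]

theorem IsP.inv {g : (Matrix (Option (Option m)) (Option (Option m)) S)ˣ} (h : IsP g.val) :
    IsP (g⁻¹).val := fun i => by
  have h1 := h.mul_apply (g := (g⁻¹).val) i
  rw [Units.inv_mul] at h1
  exact h1.symm

theorem IsP.lblk_mul {g g' : Matrix (Option (Option m)) (Option (Option m)) S} (h : IsP g) :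
    lblk (g * g') = lblk g * lblk g' := by
  ext i j
  change (g * g') (fl i) (fl j) = _
  rw [Matrix.mul_apply, sum_fl, Matrix.mul_apply, h (fl i), Matrix.one_apply_ne, zero_mul, add_zero]
  · rfl
  · rcases i with _ | i
    · simp [fl_none]
    · simp [fl_some]

theorem lblk_one : lblk (1 : Matrix (Option (Option m)) (Option (Option m)) S) = 1 := by
  ext i j
  change (1 : Matrix (Option (Option m)) (Option (Option m)) S) (fl i) (fl j) = _
  by_cases h : i = j
  · subst h
    rw [Matrix.one_apply_eq, Matrix.one_apply_eq]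
  · rw [Matrix.one_apply_ne h, Matrix.one_apply_ne (fun h' => h (fl.injective h'))]

variable (m S) in
/-- the matrices whose last column is a unit vector and whose upper left block is elementary -/
def EP : Subgroup (Matrix (Option (Option m)) (Option (Option m)) S)ˣ where
  carrier := {g | IsP g.val ∧ ∃ e ∈ E (Option m) S, lblk g.val = e.val}
  one_mem' := ⟨fun _ => rfl, 1, one_mem _, lblk_one⟩
  mul_mem' := by
    rintro g g' ⟨h, e, he, hv⟩ ⟨h', e', he', hv'⟩
    exact ⟨h.mul h', e * e', mul_mem he he', by
      rw [Units.val_mul, h.lblk_mul, hv, hv', Units.val_mul]⟩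
  inv_mem' := by
    rintro g ⟨h, e, he, hv⟩
    refine ⟨h.inv, e⁻¹, inv_mem he, ?_⟩
    have h1 : e.val * lblk (g⁻¹).val = 1 := by
      rw [← hv, ← h.lblk_mul, Units.mul_inv, lblk_one]
    calc lblk (g⁻¹).val = (e⁻¹).val * (e.val * lblk (g⁻¹).val) := by
          rw [← Matrix.mul_assoc, Units.inv_mul, Matrix.one_mul]
      _ = (e⁻¹).val := by rw [h1, Matrix.mul_one]

theorem mem_EP {g : (Matrix (Option (Option m)) (Option (Option m)) S)ˣ} :
    g ∈ EP S m ↔ IsP g.val ∧ ∃ e ∈ E (Option m) S, lblk g.val = e.val := Iff.rfl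

/-- uniqueness -/
theorem unique (hR : SR2' Sᵐᵒᵖ) {i₁ i₂ : m} (h12 : i₁ ≠ i₂) (g g' τ : Option m → S)
    {κ : (Matrix (Option m) (Option m) S)ˣ} (hκ : κ ∈ E (Option m) S)
    (hP : IsP (rm (-g) * vm τ * dm κ * rm g').val) : rm (-g) * vm τ * dm κ * rm g' ∈ EP S m := by
  have hz : (rm (-g) * vm τ * dm κ * rm g').val = blk (1 - g ⬝ᵥ τ)
      (g' - g ᵥ* (vecMulVec τ g' + κ.val)) τ (vecMulVec τ g' + κ.val) := by
    have h1 : (vm τ * dm κ * rm g').val = blk 1 g' τ (vecMulVec τ g' + κ.val) := by
      rw [Units.val_mul, Units.val_mul, vm_val, dm_val, rm_val, blk_mul, blk_mul]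
      congr 1 <;> simp [funext_iff]
    rw [mul_assoc, mul_assoc, ← mul_assoc (vm τ), Units.val_mul, h1, rm_val, blk_mul]
    congr 1
    · rw [neg_dotProduct]; noncomm_ring
    · rw [neg_vecMul, one_smul, sub_eq_add_neg]
    · simp [funext_iff]
    · ext i j
      simp [vecMulVec]
  rw [mem_EP]
  refine ⟨hP, ?_⟩
  rw [hz] at hP ⊢
  have hc1 : ∀ i, τ i * g' none + κ.val i none = (1 : Matrix (Option m) (Option m) S) i none := by
    intro i
    have := hP (some i)
    rw [blk_ss] at this
    rw [Matrix.one_apply]
    rw [Matrix.one_apply] at this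
    simpa [vecMulVec] using this
  have hc0 : g' none = g none := by
    have := hP none
    rw [blk_ns, Matrix.one_apply_ne (by simp)] at this
    have h2 : (g ᵥ* (vecMulVec τ g' + κ.val)) none = g none := by
      change ∑ i, g i * (τ i * g' none + κ.val i none) = g none
      rw [Finset.sum_congr rfl fun i _ => by rw [hc1 i]]
      simp [Matrix.one_apply]
    rw [Pi.sub_apply, h2, sub_eq_zero] at this
    exact this
  set c := g none with hc
  rw [hc0] at hc1
  have hval : κ.val = blk (1 + τ none * -c) (dr κ.val)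
      (fun i => τ (some i) * -c) (dd κ.val) := by
    refine (blk_eta κ.val).symm.trans ?_
    congr 1
    · have := hc1 none
      rw [Matrix.one_apply_eq] at this
      rw [← this]; noncomm_ring
    · funext i
      have := hc1 (some i)
      rw [Matrix.one_apply_ne (by simp)] at this
      rw [dc_apply, eq_neg_of_add_eq_zero_right this, mul_neg]
  obtain ⟨Y, hY, hYv⟩ := keyA hR h12 (-c) (τ none) (dr κ.val)
    (fun i => τ (some i)) (dd κ.val) κ hκ hval
  refine ⟨rm (-(fun i => g (some i))) * Y * rm (fun i => g' (some i)),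
    mul_mem (mul_mem (rm_mem _) hY) (rm_mem _), ?_⟩
  rw [Units.val_mul, Units.val_mul, hYv, rm_val, rm_val, blk_mul, blk_mul]
  ext i j
  rcases i with _ | i <;> rcases j with _ | j
  · change 1 - g ⬝ᵥ τ = _
    simp [dotProduct, Fintype.sum_option, hc]
    abel
  · change (g' - g ᵥ* (vecMulVec τ g' + κ.val)) (some j) = _
    simp [dotProduct, Fintype.sum_option, vecMul, vecMulVec, mul_add, add_mul, Finset.sum_add_distrib,
      Finset.sum_mul, mul_assoc, sub_mul, ← hc, dr_apply, dd_apply]
    abel
  · change τ (some i) = _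
    simp
  · change (vecMulVec τ g' + κ.val) (some i) (some j) = _
    simp [vecMulVec, dd_apply]

/-- the product set -/
def InM (g : (Matrix (Option (Option m)) (Option (Option m)) S)ˣ) : Prop :=
  ∃ (t : Option m → S) (b : (Matrix (Option m) (Option m) S)ˣ) (a : Option m → S)
    (p : (Matrix (Option (Option m)) (Option (Option m)) S)ˣ), b ∈ E (Option m) S ∧ p ∈ EP S m ∧
      g = vm t * dm b * rm a * p

theorem vm_zero {n : Type*} [DecidableEq n] [Fintype n] :
    vm (0 : n → S) = 1 := Units.ext blk_one

theorem rm_zero {n : Type*} [DecidableEq n] [Fintype n] :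
    rm (0 : n → S) = 1 := Units.ext blk_one

theorem InM.of {b : (Matrix (Option m) (Option m) S)ˣ} (hb : b ∈ E (Option m) S)
    (a : Option m → S) {p : (Matrix (Option (Option m)) (Option (Option m)) S)ˣ}
    (hp : p ∈ EP S m) : InM (dm b * rm a * p) :=
  ⟨0, b, a, p, hb, hp, by rw [vm_zero, one_mul]⟩

theorem InM.one : InM (1 : (Matrix (Option (Option m)) (Option (Option m)) S)ˣ) :=
  ⟨0, 1, 0, 1, one_mem _, one_mem _, by rw [vm_zero, rm_zero, map_one]; simp⟩

theorem InM.vm {g : (Matrix (Option (Option m)) (Option (Option m)) S)ˣ} (h : InM g)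
    (t : Option m → S) : InM (vm t * g) := by
  obtain ⟨t', b, a, p, hb, hp, rfl⟩ := h
  refine ⟨t + t', b, a, p, hb, hp, ?_⟩
  rw [← vm_mul]
  simp only [mul_assoc]

theorem InM.dm {g : (Matrix (Option (Option m)) (Option (Option m)) S)ˣ} (h : InM g)
    {b : (Matrix (Option m) (Option m) S)ˣ} (hb : b ∈ E (Option m) S) : InM (dm b * g) := by
  obtain ⟨t', b', a, p, hb', hp, rfl⟩ := h
  refine ⟨b.val *ᵥ t', b * b', a, p, mul_mem hb hb', hp, ?_⟩
  rw [map_mul, ← mul_assoc, ← mul_assoc, ← mul_assoc, dm_mul_vm]
  simp only [mul_assoc]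

/-- the elements with a unimodular column -/
theorem InM.cut (hS : SR2' S) (hR : SR2' Sᵐᵒᵖ) {i₁ i₂ : m} (h12 : i₁ ≠ i₂)
    {g : (Matrix (Option (Option m)) (Option (Option m)) S)ˣ} (h : InM g) (u : Option m → S)
    (hu : ∑ j, u j * g.val (some j) (some none) = 1) :
    ∃ (b : (Matrix (Option m) (Option m) S)ˣ) (a : Option m → S)
      (p : (Matrix (Option (Option m)) (Option (Option m)) S)ˣ), b ∈ E (Option m) S ∧
        p ∈ EP S m ∧ g = V.dm b * rm a * p := by
  obtain ⟨e, he, hev⟩ := Rel.unimod hS (J := Finset.univ) (i₀ := some i₁) (i₁ := some i₂)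
    (q := none) (Finset.mem_univ _) (Finset.mem_univ _) (Finset.mem_univ _) (by simpa using h12)
    (by simp) (by simp) (c := fun j => g.val (some j) (some none)) (u := u)
    (fun k hk => absurd (Finset.mem_univ k) hk) hu
  have heE : e⁻¹ ∈ E (Option m) S := inv_mem (EJ_le _ he)
  have hcol : ∀ i, (e⁻¹).val i none = g.val (some i) (some none) := by
    intro i
    have h1 : (e⁻¹).val *ᵥ (Pi.single none 1) = fun j => g.val (some j) (some none) := by
      rw [hev, Matrix.mulVec_mulVec, Units.inv_mul, Matrix.one_mulVec]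
    have h2 := congrFun h1 i
    rw [Matrix.mulVec_single_one] at h2
    exact h2
  set a : Option m → S := Pi.single none (g.val none (some none)) with ha
  have hq : (V.dm e⁻¹ * rm a).val = blk 1 a 0 (e⁻¹).val := by
    rw [Units.val_mul, dm_val, rm_val, blk_mul]
    congr 1 <;> simp [funext_iff]
  have hcol' : ∀ k, (V.dm e⁻¹ * rm a).val k (some none) = g.val k (some none) := by
    intro k
    rw [hq]
    rcases k with _ | k
    · rw [blk_ns, ha, Pi.single_eq_same]
    · rw [blk_ss, hcol]
  set q := V.dm e⁻¹ * rm a with hqdef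
  have hP : IsP (q⁻¹ * g).val := by
    intro i
    have h1 : (q⁻¹ * g).val i (some none) = (q⁻¹ * q).val i (some none) := by
      rw [Units.val_mul, Units.val_mul, Matrix.mul_apply, Matrix.mul_apply]
      exact Finset.sum_congr rfl fun k _ => by rw [hcol']
    rw [h1, inv_mul_cancel, Units.val_one]
  obtain ⟨t, b, a', p, hb, hp, hg⟩ := h
  have hz : q⁻¹ * g * p⁻¹ = rm (-a) * V.vm ((e⁻¹)⁻¹.val *ᵥ t) * V.dm ((e⁻¹)⁻¹ * b) * rm a' := by
    rw [hg, hqdef, _root_.mul_inv_rev, rm_inv, map_mul, ← map_inv]
    have h1 := dm_mul_vm (e⁻¹)⁻¹ t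
    calc rm (-a) * V.dm (e⁻¹)⁻¹ * (V.vm t * V.dm b * rm a' * p) * p⁻¹ =
        rm (-a) * (V.dm (e⁻¹)⁻¹ * V.vm t) * V.dm b * rm a' := by group
      _ = _ := by rw [h1]; group
  have hzP : IsP (q⁻¹ * g * p⁻¹).val := by
    rw [Units.val_mul]
    exact hP.mul (inv_mem hp : p⁻¹ ∈ EP S m).1
  have hzE : q⁻¹ * g * p⁻¹ ∈ EP S m := by
    rw [hz] at hzP ⊢
    exact unique hR h12 a a' _ (mul_mem (inv_mem heE) hb) hzP
  refine ⟨e⁻¹, a, q⁻¹ * g * p⁻¹ * p, heE, mul_mem hzE hp, ?_⟩
  rw [← hqdef]
  group

/-- column operations -/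
theorem col_mem {n : Type*} [DecidableEq n] [Fintype n] (k : n) (d : n → S) (hd : d k = 0) :
    ∃ e ∈ E n S, e.val = 1 + vecMulVec d (Pi.single k 1) := by
  have key : ∀ s : Finset n, ∃ e ∈ E n S,
      e.val = 1 + vecMulVec (fun j => if j ∈ s then d j else 0) (Pi.single k 1) := by
    intro s
    induction s using Finset.induction_on with
    | empty =>
      refine ⟨1, one_mem _, ?_⟩
      ext i j
      simp [vecMulVec]
    | insert l s hl ih =>
      obtain ⟨e, he, hev⟩ := ih
      by_cases hlk : l = k
      · subst hlk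
        refine ⟨e, he, ?_⟩
        rw [hev]
        congr 1
        congr 1
        funext j
        by_cases hj : j = l
        · subst hj
          simp [hd]
        · simp [hj]
      · refine ⟨el l k hlk (d l) * e, mul_mem (el_mem _ _ _ _) he, ?_⟩
        rw [Units.val_mul, hev]
        have h1 : (el l k hlk (d l)).val = 1 + vecMulVec (Pi.single l (d l)) (Pi.single k 1) := by
          change 1 + Matrix.single l k (d l) = _
          congr 1
          ext i j
          rw [vecMulVec_apply, Matrix.single_apply, Pi.single_apply, Pi.single_apply]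
          by_cases hi : i = l
          · by_cases hj : j = k
            · simp [hi, hj]
            · simp [hj, Ne.symm hj]
          · simp [hi, Ne.symm hi]
        have h0 : (Pi.single k 1 : n → S) ⬝ᵥ (fun j => if j ∈ s then d j else 0) = 0 := by
          rw [single_dotProduct]
          simp [hd]
        rw [h1, mul_add, add_mul, add_mul, vecMulVec_mul_vecMulVec, h0, zero_smul, vecMulVec_zero,
          one_mul, one_mul, mul_one, add_zero, add_assoc, ← add_vecMulVec]
        congr 1
        congr 1
        funext j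
        by_cases hj : j = l
        · subst hj
          simp [hl]
        · simp [hj]
  obtain ⟨e, he, hev⟩ := key Finset.univ
  refine ⟨e, he, ?_⟩
  rw [hev]
  simp

/-- the last kind of generators -/
theorem InM.rm (hS : SR2' S) (hR : SR2' Sᵐᵒᵖ) {i₁ i₂ : m} (h12 : i₁ ≠ i₂)
    {g : (Matrix (Option (Option m)) (Option (Option m)) S)ˣ} (h : InM g) (k : Option m) (x : S) :
    InM (V.rm (Pi.single k x) * g) := by
  -- two other indices
  obtain ⟨j₁, j₂, hj1, hj2, hj12⟩ : ∃ j₁ j₂ : Option m, j₁ ≠ k ∧ j₂ ≠ k ∧ j₁ ≠ j₂ := by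
    by_cases h1 : k = none
    · subst h1
      exact ⟨some i₁, some i₂, by simp, by simp, by simpa using h12⟩
    · by_cases h2 : k = some i₁
      · subst h2
        exact ⟨none, some i₂, by simp, by simpa using h12.symm, by simp⟩
      · exact ⟨none, some i₁, Ne.symm h1, Ne.symm h2, by simp⟩
  -- the column
  set G : Option m → S := fun j => g.val (some j) (some none) with hG
  set G0 : S := g.val none (some none) with hG0
  set u : Option m → S := fun j => (g⁻¹).val (some none) (some j) with hu
  set u0 : S := (g⁻¹).val (some none) none with hu0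
  have h0 : ∑ j ∈ Finset.univ.erase k, u j * G j + 1 * (u0 * G0 + u k * G k) = 1 := by
    have h1 := congrFun (congrFun (Units.inv_mul g) (some none)) (some none)
    rw [Matrix.mul_apply, Fintype.sum_option, Matrix.one_apply_eq,
      ← Finset.add_sum_erase _ _ (Finset.mem_univ k)] at h1
    refine Eq.trans ?_ h1
    change _ = u0 * G0 + (u k * G k + ∑ j ∈ Finset.univ.erase k, u j * G j)
    rw [one_mul]
    abel
  obtain ⟨y, x', hy, hx'⟩ := bass_col hS (Finset.mem_erase.mpr ⟨hj1, Finset.mem_univ _⟩)
    (Finset.mem_erase.mpr ⟨hj2, Finset.mem_univ _⟩) hj12 h0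
  have hyk : y k = 0 := hy k (fun h => (Finset.mem_erase.mp h).1 rfl)
  obtain ⟨b, hb, hbv⟩ := col_mem k (fun j => y j * u k) (by simp [hyk])
  set a : Option m → S := fun j => y j * u0 with ha
  have hak : a k = 0 := by simp [ha, hyk]
  -- the element `w`
  set w := V.vm a * V.dm b with hw
  have hwv : w.val = blk 1 0 a b.val := by
    rw [hw, Units.val_mul, vm_val, dm_val, blk_mul]
    congr 1 <;> simp [funext_iff]
  have hwg : ∀ j, (w * g).val (some j) (some none) = G j + y j * (u0 * G0 + u k * G k) := by
    intro j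
    rw [Units.val_mul, Matrix.mul_apply, Fintype.sum_option, hwv, blk_sn]
    simp only [blk_ss]
    have h1 : ∑ i, b.val j i * g.val (some i) (some none) = (b.val *ᵥ G) j := rfl
    rw [h1, hbv, add_mulVec, one_mulVec, vecMulVec_mulVec, single_dotProduct]
    simp [ha, mul_assoc, mul_add, ← hG0]
    abel
  have hwM : InM (w * g) := by
    rw [hw, mul_assoc]
    exact (h.dm hb).vm a
  obtain ⟨b1, a1, p, hb1, hp, h1⟩ := hwM.cut hS hR h12 (fun j => if j = k then 0 else x' j) (by
    rw [← Finset.add_sum_erase _ _ (Finset.mem_univ k), if_pos rfl, zero_mul, zero_add, ← hx']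
    refine Finset.sum_congr rfl fun j hj => ?_
    rw [if_neg (Finset.mem_erase.mp hj).1, hwg])
  -- the conjugate
  obtain ⟨b2, hb2, hb2v⟩ := col_mem k (fun j => a j * x) (by simp [hak])
  have hconj : w * V.rm (Pi.single k x) = V.dm b2 * V.rm (Pi.single k x) * w := by
    apply Units.ext
    have e1 : (V.dm b2 * V.rm (Pi.single k x)).val = blk 1 (Pi.single k x) 0 b2.val := by
      rw [Units.val_mul, dm_val, rm_val, blk_mul]
      congr 1 <;> simp [funext_iff]
    have hdot : ∀ (z : S) (f : Option m → S), (Pi.single k z : Option m → S) ⬝ᵥ f = z * f k :=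
      fun z f => single_dotProduct _ _ _
    rw [Units.val_mul w, hwv, Units.val_mul (V.dm b2 * _), e1, hwv, rm_val, blk_mul, blk_mul,
      hbv, hb2v]
    congr 1
    · rw [hdot, hak]; simp
    · rw [vecMul_add, vecMul_one, vecMul_vecMulVec, hdot, hyk]
      simp
    · rw [mulVec_zero, add_mulVec, one_mulVec, vecMulVec_mulVec, hdot, hak]
      simp [funext_iff]
    · have e5 : (1 + vecMulVec (fun j => a j * x) (Pi.single k 1)) *
          (1 + vecMulVec (fun j => y j * u k) (Pi.single k 1)) =
          1 + vecMulVec (fun j => a j * x) (Pi.single k 1) +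
            vecMulVec (fun j => y j * u k) (Pi.single k 1) := by
        rw [mul_add, mul_one, add_mul, one_mul, vecMulVec_mul_vecMulVec, hdot]
        simp [hyk]
      rw [e5, mul_one]
      ext i j
      simp only [Matrix.add_apply, vecMulVec_apply, Pi.single_apply, Pi.zero_apply, Pi.smul_apply]
      by_cases hj : j = k
      · simp [hj, hyk]; abel
      · simp [hj]
  have hfin : V.rm (Pi.single k x) * g = V.dm b⁻¹ * (V.vm (-a) *
      (V.dm (b2 * b1) * V.rm (a1 + (Pi.single k x) ᵥ* b1.val) * p)) := by
    have e1 : V.rm (Pi.single k x) * g = w⁻¹ * (w * V.rm (Pi.single k x)) * w⁻¹ * (w * g) := by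
      group
    rw [e1, hconj, h1, hw, _root_.mul_inv_rev, vm_inv, ← map_inv]
    have e2 := rm_mul_dm b1 (Pi.single k x)
    calc V.dm b⁻¹ * V.vm (-a) * (V.dm b2 * V.rm (Pi.single k x) * (V.vm a * V.dm b)) *
        (V.dm b⁻¹ * V.vm (-a)) * (V.dm b1 * V.rm a1 * p) =
        V.dm b⁻¹ * V.vm (-a) * V.dm b2 * V.rm (Pi.single k x) * (V.vm a * V.vm (-a)) *
          (V.dm b1 * V.rm a1 * p) := by
          rw [map_inv]; group
      _ = V.dm b⁻¹ * V.vm (-a) * V.dm b2 * (V.rm (Pi.single k x) * V.dm b1) * V.rm a1 * p := by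
          rw [vm_mul, add_neg_cancel, vm_zero]; group
      _ = _ := by rw [e2, map_mul, ← rm_mul]; group
  rw [hfin]
  exact InM.dm (InM.vm (InM.of (mul_mem hb2 hb1) _ hp) _) (inv_mem hb)

theorem el_inv {n : Type*} [DecidableEq n] [Fintype n] (i j : n) (h : i ≠ j) (x : S) :
    (el i j h x)⁻¹ = el i j h (-x) := by
  apply Units.ext
  change 1 - Matrix.single i j x = 1 + Matrix.single i j (-x)
  rw [sub_eq_add_neg]
  congr 1
  ext a b
  rw [Matrix.neg_apply, Matrix.single_apply, Matrix.single_apply]
  split_ifs <;> simp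

theorem InM.el (hS : SR2' S) (hR : SR2' Sᵐᵒᵖ) {i₁ i₂ : m} (h12 : i₁ ≠ i₂)
    {g : (Matrix (Option (Option m)) (Option (Option m)) S)ˣ} (h : InM g)
    (i j : Option (Option m)) (hij : i ≠ j) (x : S) : InM (el i j hij x * g) := by
  rcases i with _ | i
  · rcases j with _ | j
    · exact absurd rfl hij
    · have := h.rm hS hR h12 j x
      rwa [rm_single] at this
  · rcases j with _ | j
    · have := h.vm (Pi.single i x)
      rwa [vm_single] at this
    · have hij' : i ≠ j := fun h => hij (congrArg some h)
      have := h.dm (el_mem i j hij' x)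
      rwa [dm_el] at this

theorem InM.of_mem (hS : SR2' S) (hR : SR2' Sᵐᵒᵖ) {i₁ i₂ : m} (h12 : i₁ ≠ i₂)
    {g : (Matrix (Option (Option m)) (Option (Option m)) S)ˣ}
    (hg : g ∈ E (Option (Option m)) S) : InM g := by
  rw [E] at hg
  induction hg using Subgroup.closure_induction_left with
  | one => exact InM.one
  | mul_left x hx y _ hy =>
    obtain ⟨i, j, h, z, rfl⟩ := hx
    exact hy.el hS hR h12 i j h z
  | inv_mul_cancel x hx y _ hy =>
    obtain ⟨i, j, h, z, rfl⟩ := hx
    rw [el_inv]
    exact hy.el hS hR h12 i j h (-z)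

theorem emb_range {k n : Type*} [DecidableEq k] [Fintype k] [DecidableEq n] [Fintype n]
    (φ : k ↪ n) (M : Matrix k k S) (a b : k) : emb φ M (φ a) (φ b) = M a b := by
  rw [emb_entry, pnq_apply, Matrix.sub_apply, Matrix.one_apply, Matrix.one_apply]
  by_cases h : a = b
  · subst h
    simp
  · rw [if_neg h, if_neg (fun h' => h (φ.injective h'))]
    simp

/-- the descent for the standard block -/
theorem core (hS : SR2' S) (hR : SR2' Sᵐᵒᵖ) {i₁ i₂ : m} (h12 : i₁ ≠ i₂)
    (b : (Matrix (Option m) (Option m) S)ˣ)
    (hb : Units.map (emb fl) b ∈ E (Option (Option m)) S) : b ∈ E (Option m) S := by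
  have hM := InM.of_mem hS hR h12 hb
  set g := Units.map (emb fl) b with hg
  have hgP : IsP g.val := by
    intro i
    change emb fl b.val i (some none) = _
    rw [emb_entry, pnq_zero, add_zero]
    right
    intro c
    rcases c with _ | c
    · simp [fl_none]
    · simp [fl_some]
  have hgb : lblk g.val = b.val := by
    ext i j
    exact emb_range fl b.val i j
  obtain ⟨t, b', a, p, hb', hp, h⟩ := hM
  have hz : g * p⁻¹ = rm (-0) * V.vm t * V.dm b' * V.rm a := by
    rw [h, neg_zero, rm_zero]; group
  have hzP : IsP (g * p⁻¹).val := by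
    rw [Units.val_mul]
    exact hgP.mul (inv_mem hp : p⁻¹ ∈ EP S m).1
  have hzE : g * p⁻¹ ∈ EP S m := by
    rw [hz] at hzP ⊢
    exact unique hR h12 0 a t hb' hzP
  have hgE : g ∈ EP S m := by
    have := mul_mem hzE hp
    rwa [inv_mul_cancel_right] at this
  obtain ⟨-, e, he, hev⟩ := hgE
  rw [hgb] at hev
  rw [Units.ext hev]
  exact he

/-- **injective stability**, one step -/
theorem descend (hS : SR2' S) (hR : SR2' Sᵐᵒᵖ) {T ι : Type*} [DecidableEq T] [Fintype T]
    [DecidableEq ι] [Fintype ι] (hT : 3 ≤ Fintype.card T)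
    (hι : Fintype.card ι = Fintype.card T + 1) (φ : T ↪ ι) (b : (Matrix T T S)ˣ)
    (hb : Units.map (emb φ) b ∈ E ι S) : b ∈ E T S := by
  obtain ⟨k, hk⟩ : ∃ k, Fintype.card T = k + 1 := ⟨Fintype.card T - 1, by omega⟩
  have α : Option (Fin k) ≃ T := Fintype.equivOfCardEq (by simp [hk])
  obtain ⟨l, hl⟩ : ∃ l, ∀ t, φ t ≠ l := by
    by_contra hcon
    push Not at hcon
    have := Fintype.card_le_of_surjective φ hcon
    omega
  let ψ : Option (Option (Fin k)) → ι := fun o => match o with
    | none => φ (α none)
    | some none => l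
    | some (some j) => φ (α (some j))
  have hψ : Function.Injective ψ := by
    intro x y hxy
    rcases x with _ | _ | x <;> rcases y with _ | _ | y
    · rfl
    · exact absurd hxy (hl _)
    · have := α.injective (φ.injective hxy)
      simp at this
    · exact absurd hxy.symm (hl _)
    · rfl
    · exact absurd hxy.symm (hl _)
    · have := α.injective (φ.injective hxy)
      simp at this
    · exact absurd hxy (hl _)
    · have := α.injective (φ.injective hxy)
      rw [Option.some_inj] at this
      rw [this]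
  have hψb : Function.Bijective ψ := by
    rw [Fintype.bijective_iff_injective_and_card]
    refine ⟨hψ, ?_⟩
    rw [hι, hk]
    simp
  let β : Option (Option (Fin k)) ≃ ι := Equiv.ofBijective ψ hψb
  have hβ : ∀ s : Option (Fin k), β (fl s) = φ (α s) := by
    intro s
    rcases s with _ | s <;> rfl
  have h1 : Units.map (emb fl) (Units.map (emb α.symm.toEmbedding) b) ∈
      E (Option (Option (Fin k))) S := by
    have h2 : Units.map (emb (S := S) fl) (Units.map (emb α.symm.toEmbedding) b) =
        Units.map (emb β.symm.toEmbedding) (Units.map (emb φ) b) := by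
      apply Units.ext
      change emb fl (emb α.symm.toEmbedding b.val) = emb β.symm.toEmbedding (emb φ b.val)
      have h7 : α.symm.toEmbedding.trans fl = φ.trans β.symm.toEmbedding := by
        apply Function.Embedding.ext
        intro t
        change fl (α.symm t) = β.symm (φ t)
        rw [Equiv.eq_symm_apply, hβ, Equiv.apply_symm_apply]
      rw [emb_emb, emb_emb, h7]
    rw [h2]
    exact emb_mem _ hb
  have h01 : (⟨0, by omega⟩ : Fin k) ≠ ⟨1, by omega⟩ := by simp
  have h3 := core hS hR h01 _ h1
  have h4 := emb_mem α.toEmbedding h3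
  have h5 : Units.map (emb α.toEmbedding) (Units.map (emb α.symm.toEmbedding) b) = b := by
    apply Units.ext
    change emb α.toEmbedding (emb α.symm.toEmbedding b.val) = b.val
    rw [emb_emb]
    ext i j
    have h6 : α.symm.toEmbedding.trans α.toEmbedding = Function.Embedding.refl T := by
      ext t
      simp
    rw [h6]
    exact emb_range (Function.Embedding.refl T) b.val i j
  rwa [h5] at h4

end main

end V

/-- **Vaserstein's injective stability** for rings of stable range two -/
theorem injective_stability {S : Type*} [Ring S] (hS : SR2' S) (hS' : SR2' Sᵐᵒᵖ)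
    (A : (Matrix (Fin 2) (Fin 2) S)ˣ) (hA : IsSE A) : A ∈ H S := by
  -- the descent from `Fin (k + 3)`
  have key : ∀ k : ℕ, Units.map (emb (Fin.castLEEmb (show 2 ≤ k + 3 by omega))) A ∈
      E (Fin (k + 3)) S → A ∈ H S := by
    intro k
    induction k with
    | zero =>
      intro h
      change Units.map (k12 (R := S)) A ∈ E (Fin 3) S
      have h1 : Units.map (k12 (R := S)) A =
          Units.map (emb (Fin.castLEEmb (show 2 ≤ 0 + 3 by omega))) A := by
        apply Units.ext
        change k12 A.val = emb _ A.val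
        rw [← emb_c2]
        congr 1
      rw [h1]
      exact h
    | succ k ih =>
      intro h
      apply ih
      refine V.descend hS hS' (by simp) (by simp) Fin.castSuccEmb _ ?_
      have h1 : Units.map (emb (S := S) (Fin.castSuccEmb (n := k + 3)))
          (Units.map (emb (Fin.castLEEmb (show 2 ≤ k + 3 by omega))) A) =
          Units.map (emb (Fin.castLEEmb (show 2 ≤ k + 1 + 3 by omega))) A := by
        apply Units.ext
        change emb _ (emb _ A.val) = emb _ A.val
        rw [emb_emb]
        congr 1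
      rw [h1]
      exact h
  obtain ⟨k, hk⟩ := hA
  apply key k
  have h1 := emb_mem (finSumFinEquiv.toEmbedding.trans (Fin.castSuccEmb.trans (finCongr (by omega :
    2 + k + 1 = k + 3)).toEmbedding)) hk
  have h2 : Units.map (emb (S := S) (finSumFinEquiv.toEmbedding.trans (Fin.castSuccEmb.trans
      (finCongr (by omega : 2 + k + 1 = k + 3)).toEmbedding)))
        (Units.map (emb (Function.Embedding.inl : Fin 2 ↪ Fin 2 ⊕ Fin k)) A) =
      Units.map (emb (Fin.castLEEmb (show 2 ≤ k + 3 by omega))) A := by
    apply Units.ext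
    change emb _ (emb _ A.val) = emb _ A.val
    rw [emb_emb]
    congr 1
  rw [← h2]
  exact h1

end BWG
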