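import Pool.Agent.BWG.K
import Pool.Agent.BWG.V
import Pool.Agent.BWG.A2
import Pool.Agent.BWG.A3
import Pool.Agent.BWG.NrdG
import Pool.Agent.BWG.W2
import Pool.Agent.BWG.F2

/-!
# Bounded width, prime degree: the assembly (row M)
-/

set_option autoImplicit false

namespace BWG

open Matrix BW Pointwise
open Pool.Agent.Helper24.BWR (emb SR2')
open scoped TensorProduct

/-! ### the opposite ring of a product -/

theorem sr2'_of_equiv {S S' : Type*} [Ring S] [Ring S'] (e : S ≃+* S') (h : SR2' S) : SR2' S' := by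
  intro a b c u v habc
  obtain ⟨s, t, x, y, hxy⟩ := h (e.symm a) (e.symm b) (e.symm c) (e.symm u) (e.symm v) (by
    rw [← map_mul, ← map_mul, ← map_add, ← map_add, habc, map_one])
  refine ⟨e s, e t, e x, e y, ?_⟩
  have h1 := congrArg e hxy
  simpa only [map_add, map_mul, map_sub, map_one, RingEquiv.apply_symm_apply] using h1

/-- the opposite ring of a product is the product of the opposite rings -/
def opPi {ι : Type*} (Λ : ι → Type*) [∀ i, Ring (Λ i)] : (∀ i, (Λ i)ᵐᵒᵖ) ≃+* (∀ i, Λ i)ᵐᵒᵖ where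
  toFun x := MulOpposite.op fun i => (x i).unop
  invFun x i := MulOpposite.op (x.unop i)
  left_inv _ := rfl
  right_inv _ := rfl
  map_mul' _ _ := rfl
  map_add' _ _ := rfl

/-! ### the subgroup of the stably elementary matrices -/

theorem isSE_of_coprime {n R : Type*} [DecidableEq n] [Fintype n] [Ring R] {g : (Matrix n n R)ˣ}
    {a b : ℕ} (hab : a.Coprime b) (ha : IsSE (g ^ a)) (hb : IsSE (g ^ b)) : IsSE g := by
  obtain ⟨x, y, hxy⟩ : IsCoprime (a : ℤ) (b : ℤ) := Nat.isCoprime_iff_coprime.mpr hab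
  have h1 : (g ^ a) ^ x * (g ^ b) ^ y ∈ SE n R :=
    mul_mem (Subgroup.zpow_mem _ ha x) (Subgroup.zpow_mem _ hb y)
  have h2 : (g ^ a) ^ x * (g ^ b) ^ y = g := by
    rw [← zpow_natCast, ← zpow_natCast, ← _root_.zpow_mul, ← _root_.zpow_mul, ← _root_.zpow_add,
      mul_comm (a : ℤ), mul_comm (b : ℤ), hxy, zpow_one]
  rw [h2] at h1
  exact h1

section Map

variable {n R R' : Type*} [DecidableEq n] [Fintype n] [Ring R] [Ring R']

theorem map_copies (f : R →+* R') (k : Type*) [DecidableEq k] [Fintype k] (g : (Matrix n n R)ˣ) :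
    Units.map (RingHom.mapMatrix (m := n × k) f).toMonoidHom (copies k g) =
      copies k (Units.map (RingHom.mapMatrix (m := n) f).toMonoidHom g) := by
  apply Units.ext
  change (Matrix.blockDiagonal fun _ : k => g.val).map f = Matrix.blockDiagonal fun _ : k => g.val.map f
  rw [Matrix.blockDiagonal_map _ _ (map_zero f)]

end Map

/-! ### the main step -/

section Fam

variable {ι : Type} {N : ι → ℕ} {R Λ : ι → Type} [∀ i, CommRing (R i)] [∀ i, Ring (Λ i)]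
  [∀ i, Algebra (R i) (Λ i)] [∀ i, IsLocalization.Away (N i : ℤ) (R i)]

/-- the map from the product to the product of the generic fibres -/
noncomputable def gen (Λ : ι → Type) [∀ i, Ring (Λ i)] : (∀ i, Λ i) →+* ∀ i, ℚ ⊗[ℤ] Λ i :=
  RingHom.pi fun i => (Algebra.TensorProduct.includeRight : Λ i →ₐ[ℤ] ℚ ⊗[ℤ] Λ i).toRingHom.comp
    (Pi.evalRingHom Λ i)

/-- the localization statement: a matrix over the product which is elementary over the generic
fibre is elementary -/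
def LocStat (Λ : ι → Type) [∀ i, Ring (Λ i)] : Prop :=
  ∀ (n : Type) [DecidableEq n] [Fintype n], 3 ≤ Fintype.card n → ∀ U : (Matrix n n (∀ i, Λ i))ˣ,
    Units.map (RingHom.mapMatrix (m := n) (gen Λ)).toMonoidHom U ∈ E n (∀ i, ℚ ⊗[ℤ] Λ i) →
      U ∈ E n (∀ i, Λ i)

theorem isSE_of_gen (hloc : LocStat Λ) {m : Type} [DecidableEq m] [Fintype m]
    (U : (Matrix m m (∀ i, Λ i))ˣ)
    (hU : IsSE (Units.map (RingHom.mapMatrix (m := m) (gen Λ)).toMonoidHom U)) : IsSE U := by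
  obtain ⟨k₀, hk₀⟩ := hU.large
  obtain ⟨φ⟩ : Nonempty (m ↪ Fin (k₀ + 3 + Fintype.card m)) := by
    rw [Function.Embedding.nonempty_iff_card_le, Fintype.card_fin]
    omega
  have h1 := hk₀ φ (by rw [Fintype.card_fin]; omega)
  rw [← map_emb] at h1
  have h2 := hloc _ (by rw [Fintype.card_fin]; omega) _ h1
  exact (isSE_emb φ).mp (isSE_of_mem h2)

theorem mem_H_of_SL1 {ℓ : ℕ} (hℓ : ℓ.Prime) (hodd : Odd ℓ) (hloc : LocStat Λ) (hN : ∀ i, N i ≠ 0)
    (h : ∀ i, IsAzumaya ℓ (N i) (R i) (Λ i)) (A : (Matrix (Fin 2) (Fin 2) (∀ i, Λ i))ˣ)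
    (hA : ∀ i, comp i A ∈ SL1 ℓ (N i) (Fin 2) (Λ i)) : A ∈ H (∀ i, Λ i) := by
  have hr : ∀ i, rdet (R i) (comp i A).val = 1 := fun i => (h i).rdet_eq_one (hN i) _ (hA i)
  have h1 : IsSE (A ^ (ℓ ^ 2)) := pow_isSE hN h A hr
  have hg := fun i => (h i).generic (hN i) hℓ.ne_zero
  have i1 : ∀ i, IsSimpleRing (ℚ ⊗[ℤ] Λ i) := fun i => (hg i).1
  have i2 : ∀ i, Algebra.IsCentral ℚ (ℚ ⊗[ℤ] Λ i) := fun i => (hg i).2.1
  set A' := Units.map (RingHom.mapMatrix (m := Fin 2) (gen Λ)).toMonoidHom A with hA'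
  have h2 : IsSE (copies (Fin (ℓ - 1).factorial) A') := by
    refine copies_isSE hℓ hodd (fun i => ℚ ⊗[ℤ] Λ i) (fun i => (hg i).2.2.1) A' fun i => ?_
    have h3 := (hg i).2.2.2.2.2 (comp i A).val (hr i)
    exact h3
  rw [hA', ← map_copies] at h2
  have h3 := (isSE_copies _ A).mp (isSE_of_gen hloc _ h2)
  have hcop : ((ℓ - 1).factorial).Coprime (ℓ ^ 2) := by
    refine Nat.Coprime.pow_right 2 ?_
    rw [Nat.coprime_comm, Nat.Prime.coprime_iff_not_dvd hℓ, Nat.Prime.dvd_factorial hℓ]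
    have := hℓ.pos
    omega
  refine injective_stability (SR2'.pi fun i => ((h i).sr2' (hN i)).1)
    (sr2'_of_equiv (opPi Λ) (SR2'.pi fun i => ((h i).sr2' (hN i)).2)) A (isSE_of_coprime hcop h3 h1)

/-- families of `2 x 2` matrices of reduced norm one have bounded elementary length -/
theorem exists_bound_family {ℓ : ℕ} (hℓ : ℓ.Prime) (hodd : Odd ℓ) (hloc : LocStat Λ)
    (hN : ∀ i, N i ≠ 0) (h : ∀ i, IsAzumaya ℓ (N i) (R i) (Λ i))
    (A : ∀ i, (Matrix (Fin 2) (Fin 2) (Λ i))ˣ) (hA : ∀ i, A i ∈ SL1 ℓ (N i) (Fin 2) (Λ i)) :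
    ∃ L : ℕ, ∀ i, ∃ l : List ((Matrix (Fin 3) (Fin 3) (Λ i))ˣ), l.length ≤ L ∧
      (∀ g ∈ l, ∃ (a b : Fin 3) (h : a ≠ b) (x : Λ i), g = el a b h x) ∧ l.prod = K (A i) := by
  have h1 : famU A ∈ H (∀ i, Λ i) :=
    mem_H_of_SL1 hℓ hodd hloc hN h _ fun i => by rw [comp_famU]; exact hA i
  have h2 : K (famU A) ∈ E (Fin 3) (∀ i, Λ i) := mem_H.1 h1
  clear h1
  generalize hX : K (famU A) = X at h2
  obtain ⟨L, hL⟩ := bounded_of_product X h2
  refine ⟨L, fun i => ?_⟩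
  obtain ⟨l, h1, h2, h3⟩ := hL i
  refine ⟨l, h1, h2, h3.trans ?_⟩
  change comp i X = _
  rw [← hX, comp_K, comp_famU]

end Fam

/-! ### the uniform bound -/

/-- the data of an Azumaya algebra of degree `d` over some `ℤ[1/N]` -/
structure Dat (d : ℕ) where
  /-- the integer `N` -/
  N : ℕ
  hN : N ≠ 0
  /-- the ring `ℤ[1/N]` -/
  R : Type
  /-- the algebra -/
  Λ : Type
  cR : CommRing R
  rΛ : Ring Λ
  alg : Algebra R Λ
  loc : IsLocalization.Away (N : ℤ) R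
  az : IsAzumaya d N R Λ

attribute [instance] Dat.cR Dat.rΛ Dat.alg Dat.loc

/-- the localization statement for all sequences of Azumaya algebras of degree `d` -/
def LocAll (d : ℕ) : Prop := ∀ i : ℕ → Dat d, LocStat fun k => (i k).Λ

theorem exists_bound_two {ℓ : ℕ} (hℓ : ℓ.Prime) (hodd : Odd ℓ) (hloc : LocAll ℓ) :
    ∃ L : ℕ, ∀ i : Dat ℓ, Bound2 ℓ i.N i.Λ L := by
  by_contra hcon
  push Not at hcon
  choose i hi using hcon
  have hi' : ∀ k, ∃ A ∈ SL1 ℓ (i k).N (Fin 2) (i k).Λ, ¬ ∃ l : List ((Matrix (Fin 3) (Fin 3) (i k).Λ)ˣ),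
      l.length ≤ k ∧ (∀ g ∈ l, ∃ (a b : Fin 3) (h : a ≠ b) (x : (i k).Λ), g = el a b h x) ∧
        l.prod = K A := by
    intro k
    have h1 := hi k
    unfold Bound2 at h1
    push Not at h1
    obtain ⟨A, hA, h2⟩ := h1
    refine ⟨A, hA, ?_⟩
    push Not
    exact h2
  choose A hA hA' using hi'
  obtain ⟨L, hL⟩ := exists_bound_family (N := fun k => (i k).N) (R := fun k => (i k).R)
    (Λ := fun k => (i k).Λ) hℓ hodd (hloc i) (fun k => (i k).hN) (fun k => (i k).az) A hA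
  exact hA' L (hL L)

/-- **bounded width for `SL_n(Λ)`**, odd prime degree, from the localization statement -/
theorem main_of_loc {ℓ : ℕ} (hℓ : ℓ.Prime) (hodd : Odd ℓ) (hloc : LocAll ℓ) :
    ∃ (L₀ : ℕ) (L : ℕ → ℕ), ∀ n : ℕ, 3 ≤ n → ∀ N : ℕ, N ≠ 0 → ∀ (R Λ : Type)
    [CommRing R] [Ring Λ] [Algebra R Λ] [IsLocalization.Away (N : ℤ) R],
    IsAzumaya ℓ N R Λ → ∀ (g : (Matrix (Fin n) (Fin n) Λ)ˣ) (f : Fin n → ℤ),
    (∃ i j, f i ≠ f j) →
      Uc g f ⊔ Uc g (-f) = SL1 ℓ N (Fin n) Λ ∧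
      ((Uc g f : Set (Matrix (Fin n) (Fin n) Λ)ˣ) * (Uc g (-f) : Set (Matrix (Fin n) (Fin n) Λ)ˣ))
        ^ L n = (SL1 ℓ N (Fin n) Λ : Set (Matrix (Fin n) (Fin n) Λ)ˣ) ∧
      (Function.Injective f → ((Uc g f : Set (Matrix (Fin n) (Fin n) Λ)ˣ) *
        (Uc g (-f) : Set (Matrix (Fin n) (Fin n) Λ)ˣ)) ^ L₀ =
          (SL1 ℓ N (Fin n) Λ : Set (Matrix (Fin n) (Fin n) Λ)ˣ)) := by
  obtain ⟨L, hL⟩ := exists_bound_two hℓ hodd hloc
  refine ⟨2 + L + 1, fun n => 8 * n * n * (2 + L + 1), fun n hn N hN R Λ _ _ _ _ haz g f hf => ?_⟩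
  exact main_of (haz.sr2' hN).1 (hL ⟨N, hN, R, Λ, inferInstance, inferInstance, inferInstance,
    inferInstance, haz⟩) hn g f hf

end BWG
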