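import Pool.Agent.BWG.SR1
import Pool.Agent.BW.Family

/-!
# Normal subgroups of `GL_n` of a product of fields
-/

set_option autoImplicit false

namespace BWG

open Matrix BW

section Normal

variable {n R : Type*} [DecidableEq n] [Fintype n] [CommRing R]

theorem single_mul_single' (a b c : n) (x y : R) :
    (Matrix.single a b x * Matrix.single b c y : Matrix n n R) = Matrix.single a c (x * y) :=
  Matrix.single_mul_single_same x a b c y

theorem single_mul_single_ne {b b' : n} (h : b ≠ b') (a c : n) (x y : R) :
    (Matrix.single a b x * Matrix.single b' c y : Matrix n n R) = 0 :=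
  Matrix.single_mul_single_of_ne x a b b' h y

/-- the commutator formula -/
theorem el_comm {i j k : n} (hij : i ≠ j) (hjk : j ≠ k) (hik : i ≠ k) (x y : R) :
    el i j hij x * el j k hjk y * (el i j hij x)⁻¹ * (el j k hjk y)⁻¹ = el i k hik (x * y) := by
  rw [mul_inv_eq_iff_eq_mul, mul_inv_eq_iff_eq_mul]
  ext1
  simp only [Units.val_mul, el_val, mul_add, add_mul, mul_one, one_mul, single_mul_single',
    single_mul_single_ne hik.symm, single_mul_single_ne hjk.symm, zero_mul]
  abel

variable (K : Subgroup (Matrix n n R)ˣ) [hK : K.Normal]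

include hK in
theorem comm_left_mem {g : (Matrix n n R)ˣ} (hg : g ∈ K) (h : (Matrix n n R)ˣ) :
    g * h * g⁻¹ * h⁻¹ ∈ K := by
  have h1 := hK.conj_mem g⁻¹ (inv_mem hg) h
  have h2 := mul_mem hg h1
  rwa [← mul_assoc, ← mul_assoc] at h2

include hK in
theorem comm_right_mem {g : (Matrix n n R)ˣ} (hg : g ∈ K) (h : (Matrix n n R)ˣ) :
    h * g * h⁻¹ * g⁻¹ ∈ K :=
  mul_mem (hK.conj_mem g hg h) (inv_mem hg)

variable {K}

include hK in
/-- all elementary matrices are in `K` if those in one position are -/
theorem E_le_of_el {a b c : n} (hab : a ≠ b) (hac : a ≠ c) (hbc : b ≠ c)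
    (h : ∀ r, el a c hac r ∈ K) : E n R ≤ K := by
  have h1 : ∀ (i : n) (hi : i ≠ c) (r : R), el i c hi r ∈ K := by
    intro i hi r
    by_cases hia : i = a
    · subst hia
      exact h r
    · have := comm_right_mem K (h r) (el i a hia 1)
      rwa [el_comm hia hac hi, one_mul] at this
  have h2 : ∀ (i j : n) (hi : i ≠ c) (hij : i ≠ j) (r : R), el i j hij r ∈ K := by
    intro i j hi hij r
    by_cases hjc : j = c
    · subst hjc
      exact h1 i hi r
    · have := comm_left_mem K (h1 i hi r) (el c j (Ne.symm hjc) 1)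
      rwa [el_comm hi (Ne.symm hjc) hij, mul_one] at this
  have h3 : ∀ (j : n) (hj : c ≠ j) (r : R), el c j hj r ∈ K := by
    intro j hj r
    by_cases hja : j = a
    · subst hja
      have := comm_right_mem K (h2 b j hbc hab.symm r) (el c b hbc.symm 1)
      rwa [el_comm hbc.symm hab.symm hj, one_mul] at this
    · have := comm_right_mem K (h2 a j hac (Ne.symm hja) r) (el c a hac.symm 1)
      rwa [el_comm hac.symm (Ne.symm hja) hj, one_mul] at this
  rw [E, Subgroup.closure_le]
  rintro _ ⟨i, j, hij, x, rfl⟩
  by_cases hi : i = c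
  · subst hi
    exact h3 j hij x
  · exact h2 i j hi hij x

include hK in
/-- a normal subgroup which contains a matrix with `g e_a = e_b` contains `e_ac(1)` -/
theorem el_mem_of_cyclic {g : (Matrix n n R)ˣ} (hg : g ∈ K) {a b c : n} (hab : a ≠ b)
    (hac : a ≠ c) (hbc : b ≠ c) (h : ∀ k, g.val k a = if k = b then 1 else 0) :
    el a c hac 1 ∈ K := by
  -- the matrices
  have g1 : ∀ (j : n) (y : R), g.val * Matrix.single a j y = Matrix.single b j y := by
    intro j y
    ext k l
    rw [Pool.Agent.Helper24.BWR.mul_single_apply, h, Matrix.single_apply]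
    by_cases hl : l = j
    · by_cases hk : k = b
      · simp [hl, hk]
      · have hk' : ¬ b = k := fun h => hk h.symm
        simp [hl, hk, hk']
    · have hl' : ¬ j = l := fun h => hl h.symm
      simp [hl, hl']
  have g2 : ∀ (j : n) (y : R), (g⁻¹).val * Matrix.single b j y = Matrix.single a j y := by
    intro j y
    rw [← g1, ← mul_assoc, Units.inv_mul, one_mul]
  set μ : R := (g⁻¹).val b a with hμ
  set B : Matrix n n R := Matrix.single b b (-1) * (g⁻¹).val with hB
  have b1 : ∀ (j : n) (y : R), B * Matrix.single b j y = 0 := by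
    intro j y
    rw [hB, mul_assoc, g2, single_mul_single_ne hab.symm]
  have b2 : ∀ (j : n) (y : R), B * Matrix.single a j y = Matrix.single b j (-(μ * y)) := by
    intro j y
    rw [hB, mul_assoc]
    ext k l
    rw [Matrix.mul_apply, Finset.sum_eq_single b]
    · rw [Pool.Agent.Helper24.BWR.mul_single_apply, Matrix.single_apply, Matrix.single_apply]
      by_cases hk : b = k
      · by_cases hl : l = j
        · simp [hk, hl, hμ]
        · have hl' : ¬ j = l := fun h => hl h.symm
          simp [hl, hl']
      · simp [hk]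
    · intro i _ hi
      rw [Matrix.single_apply_of_col_ne _ _ (Ne.symm hi), zero_mul]
    · intro hb
      exact absurd (Finset.mem_univ _) hb
  have b3 : ∀ (i : n) (y : R), Matrix.single i c y * B = 0 := by
    intro i y
    rw [hB, ← mul_assoc, single_mul_single_ne hbc.symm, zero_mul]
  -- the first commutator
  set C : (Matrix n n R)ˣ := g * el a b hab (-1) * g⁻¹ * (el a b hab (-1))⁻¹ with hC
  have hCK : C ∈ K := comm_left_mem K hg _
  have hCv : C.val = (1 + B) * (1 + Matrix.single a b 1) := by
    have e1 : g.val * (1 + Matrix.single a b (-1 : R)) * (g⁻¹).val = 1 + B := by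
      rw [mul_add, mul_one, g1, add_mul, Units.mul_inv, hB]
    rw [hC, el_inv, neg_neg]
    simp only [Units.val_mul, el_val]
    rw [e1]
  -- the second commutator
  have hD : C * el b c hbc 1 * C⁻¹ * (el b c hbc 1)⁻¹ =
      el a c hac 1 * el b c hbc (-μ) := by
    rw [mul_inv_eq_iff_eq_mul, mul_inv_eq_iff_eq_mul]
    ext1
    simp only [Units.val_mul, hCv, el_val]
    have c1 : (1 + B) * (1 + Matrix.single a b 1) * Matrix.single b c 1 =
        Matrix.single b c 1 + Matrix.single a c 1 + Matrix.single b c (-μ) := by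
      rw [mul_assoc, add_mul 1 (Matrix.single a b 1), single_mul_single', one_mul, mul_one,
        add_mul, one_mul, mul_add, b1, b2, mul_one, zero_add]
    have c2 : ∀ (i : n) (y : R), Matrix.single i c y * ((1 + B) * (1 + Matrix.single a b 1)) =
        Matrix.single i c y := by
      intro i y
      rw [← mul_assoc, mul_add _ 1 B, mul_one, b3, add_zero, mul_add, mul_one,
        single_mul_single_ne hac.symm, add_zero]
    have c3 : (1 + Matrix.single a c 1) * (1 + Matrix.single b c (-μ)) *
        (1 + Matrix.single b c 1) = (1 : Matrix n n R) + (Matrix.single b c 1 +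
          Matrix.single a c 1 + Matrix.single b c (-μ)) := by
      simp only [mul_add, add_mul, mul_one, one_mul, single_mul_single_ne hbc.symm, zero_mul]
      abel
    rw [c3, mul_add _ 1, mul_one, c1]
    generalize (1 + B) * (1 + Matrix.single a b (1 : R)) = Z at c2 ⊢
    rw [add_mul, one_mul, add_mul, add_mul, c2, c2, c2]
  have hDK : el a c hac 1 * el b c hbc (-μ) ∈ K := by
    rw [← hD]
    exact comm_left_mem K hCK _
  -- the conjugation
  have hE : el b a hab.symm μ * (el a c hac 1 * el b c hbc (-μ)) * (el b a hab.symm μ)⁻¹ =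
      el a c hac 1 := by
    rw [mul_inv_eq_iff_eq_mul]
    ext1
    simp only [Units.val_mul, el_val, mul_add, add_mul, mul_one, one_mul, single_mul_single',
      single_mul_single_ne hbc.symm, single_mul_single_ne hab, mul_zero]
    rw [← Matrix.single_neg]
    abel
  rw [← hE]
  exact hK.conj_mem _ hDK _

/-- diagonal matrix with one entry different from one -/
def dg (a : n) (u : Rˣ) : (Matrix n n R)ˣ where
  val := Matrix.diagonal (Function.update 1 a (u : R))
  inv := Matrix.diagonal (Function.update 1 a ((u⁻¹ : Rˣ) : R))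
  val_inv := by
    rw [Matrix.diagonal_mul_diagonal, ← Matrix.diagonal_one]
    congr 1
    funext i
    by_cases hi : i = a
    · subst hi
      rw [Function.update_self, Function.update_self, Units.mul_inv]
    · rw [Function.update_of_ne hi, Function.update_of_ne hi, Pi.one_apply, mul_one]
  inv_val := by
    rw [Matrix.diagonal_mul_diagonal, ← Matrix.diagonal_one]
    congr 1
    funext i
    by_cases hi : i = a
    · subst hi
      rw [Function.update_self, Function.update_self, Units.inv_mul]
    · rw [Function.update_of_ne hi, Function.update_of_ne hi, Pi.one_apply, mul_one]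

theorem dg_conj {a c : n} (hac : a ≠ c) (u : Rˣ) :
    dg a u * el a c hac 1 * (dg a u)⁻¹ = el a c hac (u : R) := by
  rw [mul_inv_eq_iff_eq_mul]
  ext1
  simp only [Units.val_mul, el_val]
  change Matrix.diagonal (Function.update 1 a (u : R)) * (1 + Matrix.single a c 1) =
    (1 + Matrix.single a c (u : R)) * Matrix.diagonal (Function.update 1 a (u : R))
  rw [mul_add, add_mul, mul_one, one_mul]
  congr 1
  ext i j
  rw [Matrix.diagonal_mul, Matrix.mul_diagonal, Matrix.single_apply, Matrix.single_apply]
  by_cases hij : a = i ∧ c = j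
  · obtain ⟨rfl, rfl⟩ := hij
    rw [if_pos ⟨rfl, rfl⟩, if_pos ⟨rfl, rfl⟩, Function.update_self,
      Function.update_of_ne hac.symm, Pi.one_apply]
  · rw [if_neg hij, if_neg hij, mul_zero, zero_mul]

/-- scalar matrix -/
def scal (n : Type*) [DecidableEq n] [Fintype n] (u : Rˣ) : (Matrix n n R)ˣ :=
  Units.map (algebraMap R (Matrix n n R)).toMonoidHom u

include hK in
/-- a normal subgroup of `GL_n(R)` which contains the scalars and a matrix with `g e_a = e_b` is
everything, for `R` of stable range one where all units are `n`-th powers -/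
theorem eq_top_of_cyclic (hR : ∀ a b : R, IsCoprime a b → ∃ t, IsUnit (a + t * b))
    (hR2 : ∀ r : R, ∃ u v : Rˣ, r = u + v) (hsc : ∀ u : Rˣ, scal n u ∈ K)
    (hpow : ∀ u : Rˣ, ∃ v : Rˣ, v ^ Fintype.card n = u)
    {g : (Matrix n n R)ˣ} (hg : g ∈ K) {a b c : n} (hab : a ≠ b) (hac : a ≠ c) (hbc : b ≠ c)
    (h : ∀ k, g.val k a = if k = b then 1 else 0) : K = ⊤ := by
  have h1 := el_mem_of_cyclic hg hab hac hbc h
  have h2 : ∀ u : Rˣ, el a c hac (u : R) ∈ K := by
    intro u
    rw [← dg_conj hac u]
    exact hK.conj_mem _ h1 _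
  have h3 : ∀ r, el a c hac r ∈ K := by
    intro r
    obtain ⟨u, v, rfl⟩ := hR2 r
    rw [el_add]
    exact mul_mem (h2 u) (h2 v)
  have h4 : E n R ≤ K := E_le_of_el hab hac hbc h3
  rw [eq_top_iff]
  intro x _
  have hdet : IsUnit x.val.det := (Matrix.isUnit_iff_isUnit_det _).1 x.isUnit
  obtain ⟨v, hv⟩ := hpow hdet.unit
  have h5 : (scal n v)⁻¹ * x ∈ E n R := by
    refine mem_E_of_det_eq_one hR _ ?_
    have h6 : (scal n v).val.det = x.val.det := by
      have : (scal n v).val = Matrix.scalar n (v : R) := rfl
      rw [this, Matrix.scalar_apply, Matrix.det_diagonal, Finset.prod_const, Finset.card_univ,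
        ← Units.val_pow_eq_pow_val, hv, IsUnit.unit_spec]
    have h7 : (scal n v)⁻¹.val.det * (scal n v).val.det = 1 := by
      rw [← Matrix.det_mul, Units.inv_mul, Matrix.det_one]
    rw [Units.val_mul, Matrix.det_mul, ← h6, h7]
  have h8 := mul_mem (hsc v) (h4 h5)
  rwa [mul_inv_cancel_left] at h8

end Normal

/-! ### one field -/

section Field

variable {n F : Type*} [DecidableEq n] [Fintype n] [Field F]

/-- permutation matrix, `e_k ↦ e_(σ k)` -/
def prm (σ : Equiv.Perm n) : (Matrix n n F)ˣ where
  val := (1 : Matrix n n F).submatrix id σ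
  inv := (1 : Matrix n n F).submatrix σ id
  val_inv := by
    rw [Matrix.submatrix_mul_equiv (1 : Matrix n n F) 1 id σ id, Matrix.mul_one,
      Matrix.submatrix_id_id]
  inv_val := by
    have h := Matrix.submatrix_mul_equiv (1 : Matrix n n F) 1 σ (Equiv.refl n) σ
    rw [Matrix.mul_one] at h
    rw [Matrix.submatrix_one_equiv] at h
    exact h

theorem prm_conj (σ : Equiv.Perm n) (h : (Matrix n n F)ˣ) (i j : n) :
    ((prm σ)⁻¹ * h * prm σ).val i j = h.val (σ i) (σ j) := by
  change (((1 : Matrix n n F).submatrix σ id * h.val) * (1 : Matrix n n F).submatrix id σ) i j = _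
  rw [Matrix.mul_apply, Finset.sum_eq_single (σ j)]
  · rw [Matrix.mul_apply, Finset.sum_eq_single (σ i)]
    · rw [Matrix.submatrix_apply, Matrix.submatrix_apply, id, id, Matrix.one_apply_eq,
        Matrix.one_apply_eq, one_mul, mul_one]
    · intro k _ hk
      rw [Matrix.submatrix_apply, id, Matrix.one_apply_ne (Ne.symm hk), zero_mul]
    · intro hk
      exact absurd (Finset.mem_univ _) hk
  · intro k _ hk
    rw [Matrix.submatrix_apply, id, Matrix.one_apply_ne hk, mul_zero]
  · intro hk
    exact absurd (Finset.mem_univ _) hk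

/-- conjugation to a matrix with `g e_a = e_b` if an entry in position `(b, a)` is not zero -/
theorem exists_conj_a (h : (Matrix n n F)ˣ) {a b : n} (hab : a ≠ b) (hne : h.val b a ≠ 0) :
    ∃ x : (Matrix n n F)ˣ, ∀ k, (x⁻¹ * h * x).val k a = if k = b then 1 else 0 := by
  set X : Matrix n n F := Matrix.updateCol 1 b (fun k => h.val k a) with hX
  have hdet : X.det = h.val b a := by
    have h2 := congrFun (LinearMap.congr_fun (Matrix.cramer_one (n := n) (α := F))
      (fun k => h.val k a)) b
    rw [Matrix.cramer_apply] at h2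
    exact h2
  have hu : IsUnit X := (Matrix.isUnit_iff_isUnit_det _).2 (by rw [hdet]; exact hne.isUnit)
  obtain ⟨x, hx⟩ := hu
  refine ⟨x, fun k => ?_⟩
  have e1 : (h * x).val = (h.val * x.val) := Units.val_mul _ _
  have e2 : ∀ k, (h.val * x.val) k a = h.val k a := by
    intro k
    rw [Matrix.mul_apply, Finset.sum_eq_single a]
    · rw [hx, hX, Matrix.updateCol_ne hab, Matrix.one_apply_eq, mul_one]
    · intro l _ hl
      rw [hx, hX, Matrix.updateCol_ne hab, Matrix.one_apply_ne hl, mul_zero]
    · intro ha
      exact absurd (Finset.mem_univ _) ha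
  have e3 : ∀ k, x.val k b = h.val k a := by
    intro k
    rw [hx, hX, Matrix.updateCol_self]
  have e4 : (x⁻¹ * h * x).val k a = (x⁻¹.val * x.val) k b := by
    rw [mul_assoc, Units.val_mul, e1, Matrix.mul_apply, Matrix.mul_apply]
    exact Finset.sum_congr rfl fun l _ => by rw [e2, e3]
  rw [e4, Units.inv_mul, Matrix.one_apply]

/-- conjugation of a matrix which is not scalar to a matrix with `g e_a = e_b` -/
theorem exists_conj (h : (Matrix n n F)ˣ) (hns : ¬ ∃ c : F, h.val = c • (1 : Matrix n n F))
    {a b : n} (hab : a ≠ b) :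
    ∃ x : (Matrix n n F)ˣ, ∀ k, (x⁻¹ * h * x).val k a = if k = b then 1 else 0 := by
  -- a non-zero entry off the diagonal
  have s1 : ∃ (x : (Matrix n n F)ˣ) (i j : n), i ≠ j ∧ (x⁻¹ * h * x).val i j ≠ 0 := by
    by_cases hd : ∃ i j, i ≠ j ∧ h.val i j ≠ 0
    · obtain ⟨i, j, hij, hne⟩ := hd
      exact ⟨1, i, j, hij, by rwa [inv_one, one_mul, mul_one]⟩
    · push Not at hd
      obtain ⟨i, j, hij⟩ : ∃ i j, h.val i i ≠ h.val j j := by
        by_contra hcon
        push Not at hcon
        apply hns
        refine ⟨h.val a a, ?_⟩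
        ext i j
        rw [Matrix.smul_apply, Matrix.one_apply, smul_eq_mul]
        by_cases hij : i = j
        · subst hij
          rw [if_pos rfl, mul_one, hcon i a]
        · rw [if_neg hij, mul_zero, hd i j hij]
      have hne : i ≠ j := fun h => hij (by rw [h])
      refine ⟨el i j hne 1, i, j, hne, ?_⟩
      have e1 : ((el i j hne 1)⁻¹ * h * el i j hne 1).val i j =
          h.val i j + h.val i i - h.val j j - h.val j i := by
        rw [Units.val_mul, Units.val_mul, el_inv, el_val, el_val, mul_add, mul_one,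
          Matrix.add_apply, Pool.Agent.Helper24.BWR.mul_single_apply, if_pos rfl, mul_one]
        have e2 : ∀ k, ((1 + Matrix.single i j (-1) : Matrix n n F) * h.val) i k =
            h.val i k - h.val j k := by
          intro k
          rw [add_mul, one_mul, Matrix.add_apply, Matrix.mul_apply, Finset.sum_eq_single j]
          · rw [Matrix.single_apply_same]; ring
          · intro l _ hl
            rw [Matrix.single_apply_of_col_ne _ _ (Ne.symm hl), zero_mul]
          · intro hj
            exact absurd (Finset.mem_univ _) hj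
        rw [e2, e2]; ring
      rw [e1, hd i j hne, hd j i hne.symm, zero_add, sub_zero]
      exact sub_ne_zero.2 hij
  obtain ⟨x, i, j, hij, hne⟩ := s1
  -- the permutation
  set σ : Equiv.Perm n := Equiv.swap (Equiv.swap a j b) i * Equiv.swap a j with hσ
  have hb : σ b = i := by
    rw [hσ, Equiv.Perm.mul_apply, Equiv.swap_apply_left]
  have ha : σ a = j := by
    rw [hσ, Equiv.Perm.mul_apply, Equiv.swap_apply_left]
    refine Equiv.swap_apply_of_ne_of_ne ?_ hij.symm
    intro h1
    have h2 : Equiv.swap a j b = Equiv.swap a j a := by rw [Equiv.swap_apply_left, ← h1]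
    exact hab ((Equiv.swap a j).injective h2).symm
  obtain ⟨y, hy⟩ := exists_conj_a ((prm σ)⁻¹ * (x⁻¹ * h * x) * prm σ) hab (by
    rw [prm_conj, ha, hb]; exact hne)
  refine ⟨x * prm σ * y, fun k => ?_⟩
  rw [← hy k]
  group

end Field

/-! ### products of fields -/

section Prod

variable {ι n : Type*} {F : ι → Type*} [DecidableEq n] [Fintype n] [∀ i, Field (F i)]

/-- the matrix over the product ring with given components -/
def famG {ι m : Type*} [Fintype m] [DecidableEq m] {Λ : ι → Type*} [∀ i, Ring (Λ i)]
    (A : ∀ i, (Matrix m m (Λ i))ˣ) : (Matrix m m (∀ i, Λ i))ˣ where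
  val := Matrix.of fun a b i => (A i).val a b
  inv := Matrix.of fun a b i => (A i)⁻¹.val a b
  val_inv := by
    ext a b i
    rw [Matrix.mul_apply, Finset.sum_apply]
    have h := congrFun (congrFun (A i).mul_inv a) b
    rw [Matrix.mul_apply] at h
    refine h.trans ?_
    rw [Matrix.one_apply, Matrix.one_apply]
    split_ifs <;> rfl
  inv_val := by
    ext a b i
    rw [Matrix.mul_apply, Finset.sum_apply]
    have h := congrFun (congrFun (A i).inv_mul a) b
    rw [Matrix.mul_apply] at h
    refine h.trans ?_
    rw [Matrix.one_apply, Matrix.one_apply]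
    split_ifs <;> rfl

theorem comp_famG {ι m : Type*} [Fintype m] [DecidableEq m] {Λ : ι → Type*} [∀ i, Ring (Λ i)]
    (A : ∀ i, (Matrix m m (Λ i))ˣ) (i : ι) : comp i (famG A) = A i :=
  Units.ext (by ext a b; rfl)

/-- every element of a product of fields of characteristic not two is the sum of two units -/
theorem two_units (h2 : ∀ i, (2 : F i) ≠ 0) (r : ∀ i, F i) :
    ∃ u v : (∀ i, F i)ˣ, r = u + v := by
  classical
  have h1 : ∀ i, ∃ u v : (F i)ˣ, r i = u + v := by
    intro i
    by_cases hr : r i = 0
    · exact ⟨1, -1, by rw [hr]; simp⟩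
    · have h3 : r i / 2 ≠ 0 := div_ne_zero hr (h2 i)
      refine ⟨Units.mk0 _ h3, Units.mk0 _ h3, ?_⟩
      rw [Units.val_mk0, ← two_mul, mul_div_cancel₀ _ (h2 i)]
  choose u v huv using h1
  refine ⟨MulEquiv.piUnits.symm u, MulEquiv.piUnits.symm v, ?_⟩
  funext i
  exact huv i

/-- a normal subgroup of `GL_n` of a product of fields which contains the scalars and a family of
matrices without scalar components is everything, if all elements are `n`-th powers -/
theorem eq_top_of_nonscalar (h2 : ∀ i, (2 : F i) ≠ 0)
    (hpow : ∀ i, ∀ u : (F i)ˣ, ∃ v : (F i)ˣ, v ^ Fintype.card n = u)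
    (K : Subgroup (Matrix n n (∀ i, F i))ˣ) [hK : K.Normal]
    (hsc : ∀ u : (∀ i, F i)ˣ, scal n u ∈ K) (hn : 3 ≤ Fintype.card n)
    {g : (Matrix n n (∀ i, F i))ˣ} (hg : g ∈ K)
    (hns : ∀ i, ¬ ∃ c : F i, (comp i g).val = c • (1 : Matrix n n (F i))) : K = ⊤ := by
  obtain ⟨a, b, c, hab, hac, hbc⟩ := Fintype.two_lt_card_iff.1 hn
  choose x hx using fun i => exists_conj (comp i g) (hns i) hab
  have h1 : (famG x)⁻¹ * g * famG x ∈ K := by
    have := hK.conj_mem g hg (famG x)⁻¹
    rwa [inv_inv] at this
  refine eq_top_of_cyclic (fun a b => sr1_pi a b) (two_units h2) hsc (fun u => ?_) h1 hab hac hbc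
    (fun k => ?_)
  · choose v hv using fun i => hpow i (MulEquiv.piUnits u i)
    refine ⟨MulEquiv.piUnits.symm v, ?_⟩
    rw [← map_pow, MulEquiv.symm_apply_eq]
    funext i
    exact hv i
  · funext i
    have e : ((famG x)⁻¹ * g * famG x).val k a i =
        (comp i ((famG x)⁻¹ * g * famG x)).val k a := rfl
    rw [e, map_mul, map_mul, map_inv, comp_famG, hx]
    split_ifs <;> rfl

end Prod

end BWG
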