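import Pool.Agent.BWG.Defs
import Pool.Agent.BW.Choice

/-!
# The arithmetic of the central symbols: one algebra
-/

set_option autoImplicit false

namespace BWG

open Matrix BW

section Norm

variable {R Λ : Type*} [CommRing R] [Ring Λ] [Algebra R Λ] [Module.Free R Λ] [Module.Finite R Λ]

/-- the determinant of left multiplication modulo `m` -/
theorem norm_congr (m : R) (x v : Λ) :
    m ∣ Algebra.norm R (x + algebraMap R Λ m * v) - Algebra.norm R x := by
  classical
  set b := Module.Free.chooseBasis R Λ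
  rw [Algebra.norm_eq_matrix_det b, Algebra.norm_eq_matrix_det b, ← Ideal.mem_span_singleton,
    ← Ideal.Quotient.eq, RingHom.map_det, RingHom.map_det]
  congr 1
  rw [map_add, map_mul, map_add, AlgHom.commutes, add_eq_left]
  ext i j
  rw [RingHom.mapMatrix_apply, Matrix.map_apply, Algebra.algebraMap_eq_smul_one, smul_mul_assoc, one_mul,
    Matrix.smul_apply, smul_eq_mul, map_mul]
  have : (Ideal.Quotient.mk (Ideal.span {m})) m = 0 :=
    Ideal.Quotient.eq_zero_iff_mem.2 (Ideal.mem_span_singleton_self m)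
  rw [this, zero_mul]
  rfl

/-- the adjoint -/
theorem exists_adjT (x : Λ) : ∃ y : Λ, x * y = algebraMap R Λ (Algebra.norm R x) ∧
    y * x = algebraMap R Λ (Algebra.norm R x) := by
  set f : Module.End R Λ := Algebra.lmul R Λ x with hf
  set p := f.charpoly with hp
  have h1 : Polynomial.aeval x p = 0 := by
    have h2 := LinearMap.aeval_self_charpoly f
    rw [← hp, hf, Polynomial.aeval_algHom_apply] at h2
    have h3 := LinearMap.congr_fun h2 1
    simpa using h3
  have h2 := Polynomial.divX_mul_X_add p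
  have h3 : Algebra.norm R x = (-1) ^ Module.finrank R Λ * p.coeff 0 := by
    rw [Algebra.norm_apply, LinearMap.det_eq_sign_charpoly_coeff]
  have h4 : Polynomial.aeval x p.divX * x + algebraMap R Λ (p.coeff 0) = 0 := by
    rw [← h1]
    conv_rhs => rw [← h2]
    rw [map_add, map_mul, Polynomial.aeval_X, Polynomial.aeval_C]
  have h5 : x * Polynomial.aeval x p.divX = Polynomial.aeval x p.divX * x := by
    have e1 : Polynomial.aeval x (Polynomial.X * p.divX) =
        Polynomial.aeval x (p.divX * Polynomial.X) := by rw [mul_comm]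
    rwa [map_mul, map_mul, Polynomial.aeval_X] at e1
  refine ⟨-(algebraMap R Λ ((-1) ^ Module.finrank R Λ) * Polynomial.aeval x p.divX), ?_, ?_⟩
  · rw [mul_neg, ← mul_assoc, ← Algebra.commutes, mul_assoc, h5, h3, map_mul,
      eq_neg_of_add_eq_zero_left h4]
    simp
  · rw [neg_mul, mul_assoc, h3, map_mul, eq_neg_of_add_eq_zero_left h4]
    simp

theorem exists_coprimeT {x u v : Λ} {m : R} (h : x * u + algebraMap R Λ m * v = 1) :
    ∃ α β : R, α * Algebra.norm R x + β * m = 1 := by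
  obtain ⟨t, ht⟩ := norm_congr m (1 : Λ) (-v)
  have e : 1 + algebraMap R Λ m * -v = x * u := by rw [← h]; simp
  rw [e, map_mul, map_one] at ht
  exact ⟨Algebra.norm R u, -t, by linear_combination ht⟩

end Norm

section Arith

variable {N d : ℕ} {R Λ : Type*} [CommRing R] [IsLocalization.Away (N : ℤ) R] [Ring Λ] [Algebra R Λ]

theorem rho_algebraMap' {p : ℕ} (hp : p.Prime) (hpN : ¬ p ∣ N)
    (ρ : Λ →+* Matrix (Fin d) (Fin d) (ZMod p)) (r : R) :
    ρ (algebraMap R Λ r) = Loc.phi N R hp hpN r • (1 : Matrix (Fin d) (Fin d) (ZMod p)) := by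
  have := Fact.mk hp
  obtain ⟨a, k, h⟩ := Loc.exists_int N r
  have hN0 : ((N : ZMod p)) ≠ 0 := by
    rw [Ne, ZMod.natCast_eq_zero_iff]
    exact hpN
  have h1 : ρ (algebraMap R Λ r) * (N : Matrix (Fin d) (Fin d) (ZMod p)) ^ k =
      (a : Matrix (Fin d) (Fin d) (ZMod p)) := by
    rw [← map_natCast ρ N, ← map_pow, ← map_mul, ← map_natCast (algebraMap R Λ) N, ← map_pow,
      ← map_mul, h, map_intCast, map_intCast]
  have h2 : Loc.phi N R hp hpN r * (N : ZMod p) ^ k = (a : ZMod p) := by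
    rw [← map_natCast (Loc.phi N R hp hpN) N, ← map_pow, ← map_mul, h, map_intCast]
  have h3 : ((N : ZMod p) ^ k) • ρ (algebraMap R Λ r) =
      ((N : ZMod p) ^ k) • (Loc.phi N R hp hpN r • (1 : Matrix (Fin d) (Fin d) (ZMod p))) := by
    rw [smul_smul, mul_comm ((N : ZMod p) ^ k), h2]
    have h4 : (N : Matrix (Fin d) (Fin d) (ZMod p)) ^ k =
        ((N : ZMod p) ^ k) • (1 : Matrix (Fin d) (Fin d) (ZMod p)) := by
      have := map_natCast (algebraMap (ZMod p) (Matrix (Fin d) (Fin d) (ZMod p))) N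
      rw [← this, ← map_pow, Algebra.algebraMap_eq_smul_one]
    have h5 : (a : Matrix (Fin d) (Fin d) (ZMod p)) =
        (a : ZMod p) • (1 : Matrix (Fin d) (Fin d) (ZMod p)) := by
      have := map_intCast (algebraMap (ZMod p) (Matrix (Fin d) (Fin d) (ZMod p))) a
      rw [← this, Algebra.algebraMap_eq_smul_one]
    rw [← h5, ← h1, h4, mul_smul_comm, mul_one]
  exact smul_right_injective _ (pow_ne_zero k hN0) h3

/-- the choice of `z`: `x + m z` is not divisible by the primes dividing `M` -/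
theorem exists_z' [Module.Free R Λ] [Module.Finite R Λ] (hN : N ≠ 0) (x : Λ) (m α β : R)
    (h : α * Algebra.norm R x + β * m = 1) {M : ℕ} (hM0 : M ≠ 0) :
    ∃ w : Λ, ∀ p : ℕ, p.Prime → ¬ p ∣ N → p ∣ M →
      ¬ (p : R) ∣ Algebra.norm R (x + algebraMap R Λ m * w) := by
  classical
  have hD := Loc.isDomain N R hN
  have hC := Loc.charZero N R hN
  set S : Finset ℕ := M.primeFactors.filter (fun q : ℕ => ¬ (q : R) ∣ m) with hS
  set B : ℕ := ∏ q ∈ S, q with hB
  have hB0 : (B : R) ≠ 0 := by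
    rw [hB]
    have : ∏ q ∈ S, q ≠ 0 := Finset.prod_ne_zero_iff.mpr fun q hq => by
      rw [hS, Finset.mem_filter] at hq
      exact (Nat.prime_of_mem_primeFactors hq.1).ne_zero
    exact_mod_cast this
  have hcop : IsCoprime m (B : R) := by
    refine Loc.isCoprime hN m (B : R) (Or.inr hB0) ?_
    rintro p hp hpN ⟨h1, h2⟩
    rw [Loc.natCast_dvd_natCast hp hpN] at h2
    obtain ⟨q, hq, hpq⟩ := (Prime.dvd_finsetProd_iff hp.prime _).mp h2
    rw [hS, Finset.mem_filter] at hq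
    have : p = q := (Nat.prime_dvd_prime_iff_eq hp (Nat.prime_of_mem_primeFactors hq.1)).mp hpq
    rw [← this] at hq
    exact hq.2 h1
  obtain ⟨s, t, hst⟩ := hcop
  refine ⟨algebraMap R Λ s * (1 - x), fun p hp hpN hpM hdvd => ?_⟩
  by_cases hpr : (p : R) ∣ m
  · obtain ⟨c, hc⟩ := norm_congr m x (algebraMap R Λ s * (1 - x))
    have h1 : (p : R) ∣ Algebra.norm R x := by
      have h2 : (p : R) ∣ m * c := Dvd.dvd.mul_right hpr c
      rw [← hc] at h2
      have h3 := dvd_sub hdvd h2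
      rwa [sub_sub_cancel] at h3
    have h3 : (p : R) ∣ 1 := by
      rw [← h]
      exact dvd_add (Dvd.dvd.mul_left h1 _) (Dvd.dvd.mul_left hpr _)
    exact Loc.not_isUnit hp hpN (isUnit_of_dvd_one h3)
  · have hpB : (p : R) ∣ (B : R) := by
      rw [Loc.natCast_dvd_natCast hp hpN, hB]
      exact Finset.dvd_prod_of_mem (fun q : ℕ => q) (by
        rw [hS, Finset.mem_filter, Nat.mem_primeFactors]
        exact ⟨⟨hp, hpM, hM0⟩, hpr⟩)
    have h1 : x + algebraMap R Λ m * (algebraMap R Λ s * (1 - x)) =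
        1 + algebraMap R Λ (B : R) * (algebraMap R Λ (-t) * (1 - x)) := by
      have h2 : algebraMap R Λ m * algebraMap R Λ s =
          1 - algebraMap R Λ (B : R) * algebraMap R Λ t := by
        rw [← map_mul, ← map_mul, ← map_one (algebraMap R Λ), ← map_sub]
        congr 1
        linear_combination hst
      rw [← mul_assoc, h2, map_neg]
      noncomm_ring
    rw [h1] at hdvd
    obtain ⟨c, hc⟩ := norm_congr (B : R) (1 : Λ) (algebraMap R Λ (-t) * (1 - x))
    have h3 : (p : R) ∣ 1 := by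
      have h2 : (p : R) ∣ (B : R) * c := Dvd.dvd.mul_right hpB c
      rw [← hc] at h2
      have h3 := dvd_sub hdvd h2
      rwa [sub_sub_cancel, map_one] at h3
    exact Loc.not_isUnit hp hpN (isUnit_of_dvd_one h3)

/-- Dirichlet's theorem with three congruences -/
theorem exists_prime3 {n m e : ℕ} (hn : n ≠ 0) (hm : m ≠ 0) (he : e ≠ 0) (h1 : n.Coprime (m * e))
    (h2 : m.Coprime e) {a : ZMod n} (ha : IsUnit a) {c : ZMod e} (hc : IsUnit c) (B : ℕ) :
    ∃ p : ℕ, B < p ∧ p.Prime ∧ (p : ZMod n) = a ∧ (p : ZMod m) = 1 ∧ (p : ZMod e) = c := by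
  have : NeZero (n * (m * e)) := ⟨by positivity⟩
  let f := ZMod.chineseRemainder h1
  let f' := ZMod.chineseRemainder h2
  have hb : IsUnit (f.symm (a, f'.symm (1, c))) := by
    refine IsUnit.map f.symm (Prod.isUnit_iff.mpr ⟨ha, ?_⟩)
    exact IsUnit.map f'.symm (Prod.isUnit_iff.mpr ⟨isUnit_one, hc⟩)
  obtain ⟨p, hpB, hp, hpe⟩ := Nat.forall_exists_prime_gt_and_eq_mod hb B
  have h3 : f (p : ZMod (n * (m * e))) = (a, f'.symm (1, c)) := by
    rw [hpe, RingEquiv.apply_symm_apply]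
  rw [map_natCast] at h3
  have h4 := congrArg Prod.fst h3
  have h5 := congrArg Prod.snd h3
  simp only [Prod.fst_natCast, Prod.snd_natCast] at h4 h5
  have h6 := congrArg f' h5
  rw [RingEquiv.apply_symm_apply, map_natCast] at h6
  have h7 := congrArg Prod.fst h6
  have h8 := congrArg Prod.snd h6
  simp only [Prod.fst_natCast, Prod.snd_natCast] at h7 h8
  exact ⟨p, hpB, hp, h4, h7, h8⟩

omit [Ring Λ] [Algebra R Λ] in
/-- the choice of the prime -/
theorem exists_prime_T (hN : N ≠ 0) (hd : Odd d) {m r s α β : R} (h : α * r + β * m = 1)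
    (hr : r ≠ 0) (hrd : ∀ l : ℕ, l.Prime → l ∣ d → ¬ l ∣ N → ¬ (l : R) ∣ r) (hs : s ≠ 0)
    (hsr : ∀ l : ℕ, l.Prime → ¬ l ∣ N → (l : R) ∣ s → ¬ (l : R) ∣ r ∧ ¬ l ∣ d) (B : ℕ) :
    ∃ (p : ℕ) (k k' : R), p.Prime ∧ B < p ∧ (p : R) = m + r * k ∧ (p : R) = 1 + s * k' ∧
      (p : ZMod d) = 2 := by
  have hD := Loc.isDomain N R hN
  have hd0 : d ≠ 0 := by
    rintro rfl
    simp at hd
  obtain ⟨u, n, hn, hnN, hun⟩ := Loc.exists_unit_mul hN hr
  obtain ⟨u', n', hn', hnN', hun'⟩ := Loc.exists_unit_mul hN hs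
  have hnot : ∀ {l n : ℕ}, l.Prime → n.Coprime N → l ∣ n → ¬ l ∣ N := fun hl hn h1 h2 =>
    hl.one_lt.ne' (Nat.eq_one_of_dvd_coprimes hn h1 h2)
  have hr' : ∀ {l : ℕ}, l.Prime → l ∣ n → (l : R) ∣ r := fun {l} hl hln => by
    rw [hun]
    exact Dvd.dvd.mul_left ((Loc.natCast_dvd_natCast hl (hnot hl hnN hln)).mpr hln) _
  have hs' : ∀ {l : ℕ}, l.Prime → l ∣ n' → (l : R) ∣ s := fun {l} hl hln => by
    rw [hun']
    exact Dvd.dvd.mul_left ((Loc.natCast_dvd_natCast hl (hnot hl hnN' hln)).mpr hln) _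
  have c1 : n.Coprime (n' * d) := by
    refine Nat.coprime_of_dvd' ?_
    intro l hl h1 h2
    exfalso
    have hlN := hnot hl hnN h1
    rcases hl.dvd_mul.1 h2 with h3 | h3
    · exact (hsr l hl hlN (hs' hl h3)).1 (hr' hl h1)
    · exact hrd l hl h3 hlN (hr' hl h1)
  have c2 : n'.Coprime d := by
    refine Nat.coprime_of_dvd' ?_
    intro l hl h1 h2
    exfalso
    exact (hsr l hl (hnot hl hnN' h1) (hs' hl h1)).2 h2
  obtain ⟨ψ, hψ⟩ := Choice.exists_psi R hnN
  obtain ⟨ψ', hψ'⟩ := Choice.exists_psi R hnN'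
  have hψm : IsUnit (ψ m) := by
    have h2 := congrArg ψ h
    rw [map_add, map_mul, map_mul, hun, map_mul, map_natCast, ZMod.natCast_self, mul_zero,
      mul_zero, zero_add, map_one] at h2
    exact IsUnit.of_mul_eq_one_right _ h2
  have h2u : IsUnit (2 : ZMod d) := by
    have : IsUnit ((2 : ℕ) : ZMod d) := by
      rw [ZMod.isUnit_iff_coprime]
      exact Nat.coprime_two_left.2 hd
    exact_mod_cast this
  obtain ⟨p, hpB, hp, hpn, hpm, hpd⟩ := exists_prime3 hn.ne' hn'.ne' hd0 c1 c2 hψm h2u B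
  obtain ⟨t, ht⟩ : (n : R) ∣ (p : R) - m := hψ _ (by rw [map_sub, map_natCast, hpn, sub_self])
  obtain ⟨t', ht'⟩ : (n' : R) ∣ (p : R) - 1 :=
    hψ' _ (by rw [map_sub, map_natCast, hpm, map_one, sub_self])
  refine ⟨p, (↑u⁻¹ : R) * t, (↑u'⁻¹ : R) * t', hp, hpB, ?_, ?_, hpd⟩
  · have h1 : (u : R) * ↑u⁻¹ = 1 := Units.mul_inv u
    rw [hun]
    linear_combination ht - (n : R) * t * h1
  · have h1 : (u' : R) * ↑u'⁻¹ = 1 := Units.mul_inv u'
    rw [hun']
    linear_combination ht' - (n' : R) * t' * h1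

end Arith

end BWG
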