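import Pool.Agent.BWG.Phi
import Pool.Agent.BWG.NormalG
import Pool.Agent.BWG.TArith

/-!
# The central symbols: all matrices with the data `(m, b | b, m)`, `m` central, are in `H`
-/

set_option autoImplicit false

namespace BWG

open Matrix BW

/-! ### the choice in one algebra -/

section One

variable {N d : ℕ} {R Λ : Type*} [CommRing R] [IsLocalization.Away (N : ℤ) R] [Ring Λ] [Algebra R Λ]

/-- the choice of the prime and of the elements `z_j` -/
theorem exists_choice [Module.Free R Λ] [Module.Finite R Λ] (hN : N ≠ 0) (hd : Odd d)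
    (x : Λ) (m α β : R) (h : α * Algebra.norm R x + β * m = 1) :
    ∃ (w : Λ) (p : ℕ) (k : R), p.Prime ∧ 2 < p ∧ ¬ p ∣ N ∧ (p : ZMod d) = 2 ∧
      (p : R) = m + Algebra.norm R (x + algebraMap R Λ m * w) * k ∧
      ∀ ρ : Λ →+* Matrix (Fin d) (Fin d) (ZMod p), Function.Surjective ρ → 2 ≤ d →
        ∃ z y : Λ, 1 + z * y = (p : Λ) ∧ 1 + y * z = (p : Λ) ∧
          ¬ ∃ c : ZMod p, ρ z = c • (1 : Matrix (Fin d) (Fin d) (ZMod p)) := by
  classical
  have hD := Loc.isDomain N R hN
  have hd0 : d ≠ 0 := by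
    rintro rfl
    simp at hd
  obtain ⟨q, hqN, hq⟩ := Nat.exists_infinite_primes (N + 1)
  have hqN' : ¬ q ∣ N := fun h => by
    have := Nat.le_of_dvd (Nat.pos_of_ne_zero hN) h
    omega
  obtain ⟨w, hw⟩ := exists_z' hN x m α β h (M := d * q) (mul_ne_zero hd0 hq.ne_zero)
  set x' := x + algebraMap R Λ m * w with hx'
  set r := Algebra.norm R x' with hr
  have hr0 : r ≠ 0 := by
    intro h0
    exact hw q hq hqN' (Dvd.intro_left _ rfl) (by rw [h0]; exact dvd_zero _)
  have hrd : ∀ l : ℕ, l.Prime → l ∣ d → ¬ l ∣ N → ¬ (l : R) ∣ r := fun l hl hld hlN =>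
    hw l hl hlN (Dvd.dvd.mul_right hld _)
  obtain ⟨β', hrel⟩ : ∃ β' : R, α * r + β' * m = 1 := by
    obtain ⟨t, h1⟩ := norm_congr m x w
    rw [← hx', ← hr] at h1
    exact ⟨β - α * t, by linear_combination h + α * h1⟩
  -- the elements `z_j`
  set c : R := r * ((d * q : ℕ) : R) with hc
  set e := Module.Free.chooseBasis R Λ
  set z : Module.Free.ChooseBasisIndex R Λ → Λ := fun j => 1 + algebraMap R Λ c * e j with hz
  have hzc : ∀ j, c ∣ Algebra.norm R (z j) - 1 := by
    intro j
    have := norm_congr c (1 : Λ) (e j)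
    rwa [map_one] at this
  set s : R := ∏ j, Algebra.norm R (z j) with hs
  have hls : ∀ l : ℕ, l.Prime → ¬ l ∣ N → (l : R) ∣ s → ¬ (l : R) ∣ c := by
    intro l hl hlN h1 h2
    have hlp : Prime (l : R) := Loc.prime hl hlN hN
    obtain ⟨j, -, hj⟩ := (hlp.dvd_finsetProd_iff _).1 h1
    have h3 := dvd_sub hj (h2.trans (hzc j))
    rw [sub_sub_cancel] at h3
    exact hlp.not_isUnit (isUnit_of_dvd_one h3)
  have hqc : (q : R) ∣ c := by
    rw [hc, Nat.cast_mul]
    exact Dvd.dvd.mul_left (Dvd.intro_left _ rfl) _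
  have hs0 : s ≠ 0 := by
    intro h0
    exact hls q hq hqN' (by rw [h0]; exact dvd_zero _) hqc
  obtain ⟨p, k, k', hp, hpB, h1, h2, h3⟩ := exists_prime_T hN hd hrel hr0 hrd hs0
    (fun l hl hlN h1 => ⟨fun h2 => hls l hl hlN h1 (by rw [hc]; exact Dvd.dvd.mul_right h2 _),
      fun h2 => hls l hl hlN h1 (by
        rw [hc]
        exact Dvd.dvd.mul_left ((Loc.natCast_dvd_natCast hl hlN).2 (Dvd.dvd.mul_right h2 _)) _)⟩)
    (N + d + q + 2)
  have hpN : ¬ p ∣ N := fun h => by
    have := Nat.le_of_dvd (Nat.pos_of_ne_zero hN) h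
    omega
  have hpF := Fact.mk hp
  have hpc : ¬ (p : R) ∣ c := by
    intro h4
    have hpp : Prime (p : R) := Loc.prime hp hpN hN
    rcases hpp.dvd_or_dvd h4 with h5 | h5
    · have h6 : (p : R) ∣ m := by
        have h7 : m = (p : R) - r * k := by rw [h1]; ring
        rw [h7]
        exact dvd_sub dvd_rfl (Dvd.dvd.mul_right h5 _)
      have h8 : (p : R) ∣ 1 := by
        rw [← hrel]
        exact dvd_add (Dvd.dvd.mul_left h5 _) (Dvd.dvd.mul_left h6 _)
      exact hpp.not_isUnit (isUnit_of_dvd_one h8)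
    · rw [Loc.natCast_dvd_natCast hp hpN] at h5
      rcases (Nat.Prime.dvd_mul hp).1 h5 with h6 | h6
      · have := Nat.le_of_dvd (Nat.pos_of_ne_zero hd0) h6
        omega
      · have := Nat.le_of_dvd hq.pos h6
        omega
  refine ⟨w, p, k, hp, by omega, hpN, h3, h1, fun ρ hρ hd2 => ?_⟩
  -- one of the `z_j` is not scalar
  obtain ⟨j, hj⟩ : ∃ j, ¬ ∃ t : ZMod p, ρ (z j) = t • (1 : Matrix (Fin d) (Fin d) (ZMod p)) := by
    by_contra hcon
    push Not at hcon
    set f := Loc.phi N R hp hpN with hf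
    have hfc : f c ≠ 0 := fun h4 => hpc ((Loc.phi_eq_zero_iff hp hpN c).1 h4)
    have hej : ∀ j, ∃ t : ZMod p, ρ (e j) = t • (1 : Matrix (Fin d) (Fin d) (ZMod p)) := by
      intro j
      obtain ⟨t, ht⟩ := hcon j
      refine ⟨(f c)⁻¹ * (t - 1), ?_⟩
      have h4 : f c • ρ (e j) = (t - 1) • (1 : Matrix (Fin d) (Fin d) (ZMod p)) := by
        rw [hz] at ht
        change ρ (1 + algebraMap R Λ c * e j) = _ at ht
        rw [map_add, map_one, map_mul, rho_algebraMap' hp hpN, smul_mul_assoc, one_mul] at ht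
        rw [sub_smul, one_smul, ← ht, add_sub_cancel_left]
      rw [mul_smul, ← h4, smul_smul, inv_mul_cancel₀ hfc, one_smul]
    have hall : ∀ x : Λ, ∃ t : ZMod p, ρ x = t • (1 : Matrix (Fin d) (Fin d) (ZMod p)) := by
      intro x
      have hx : x ∈ Submodule.span R (Set.range e) := by
        rw [e.span_eq]
        exact Submodule.mem_top
      induction hx using Submodule.span_induction with
      | mem x hx =>
        obtain ⟨j, rfl⟩ := hx
        exact hej j
      | zero => exact ⟨0, by rw [map_zero, zero_smul]⟩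
      | add x y _ _ hx hy =>
        obtain ⟨t, ht⟩ := hx
        obtain ⟨t', ht'⟩ := hy
        exact ⟨t + t', by rw [map_add, ht, ht', add_smul]⟩
      | smul a x _ hx =>
        obtain ⟨t, ht⟩ := hx
        refine ⟨f a * t, ?_⟩
        rw [Algebra.smul_def, map_mul, ht, rho_algebraMap' hp hpN, smul_mul_assoc, one_mul,
          smul_smul]
    obtain ⟨y, hy⟩ := hρ (Matrix.single ⟨0, by omega⟩ ⟨1, by omega⟩ 1)
    obtain ⟨t, ht⟩ := hall y
    rw [hy] at ht
    have h4 := congrFun (congrFun ht ⟨0, by omega⟩) ⟨1, by omega⟩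
    rw [Matrix.single_apply_same, Matrix.smul_apply, Matrix.one_apply_ne, smul_zero] at h4
    · exact one_ne_zero h4
    · intro h5
      simp at h5
  obtain ⟨y, hy1, hy2⟩ := exists_adjT (R := R) (z j)
  obtain ⟨t, ht⟩ : Algebra.norm R (z j) ∣ s := Finset.dvd_prod_of_mem _ (Finset.mem_univ j)
  have h5 : (algebraMap R Λ (Algebra.norm R (z j)) * algebraMap R Λ (t * k')) + 1 = (p : Λ) := by
    rw [← map_natCast (algebraMap R Λ), h2, ht, ← map_mul, ← map_one (algebraMap R Λ), ← map_add]
    congr 1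
    ring
  refine ⟨z j, y * algebraMap R Λ (t * k'), ?_, ?_, hj⟩
  · rw [← mul_assoc, hy1, add_comm, h5]
  · rw [mul_assoc, Algebra.commutes (t * k') (z j), ← mul_assoc, hy2, add_comm, h5]

end One

/-! ### the data of the homomorphism for the family -/

section Fam

variable {ι : Type*} {N : ι → ℕ} {R Λ : ι → Type*} [∀ i, CommRing (R i)] [∀ i, Ring (Λ i)]
  [∀ i, Algebra (R i) (Λ i)] {d : ℕ} (p : ι → ℕ)

/-- the reduction of the product ring -/
def rhoT (ρ : ∀ i, Λ i →+* Matrix (Fin d) (Fin d) (ZMod (p i))) :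
    (∀ i, Λ i) →+* Matrix (Fin d) (Fin d) (∀ i, ZMod (p i)) where
  toFun x := Matrix.of fun a b i => ρ i (x i) a b
  map_one' := by
    ext a b i
    change ρ i 1 a b = (1 : Matrix (Fin d) (Fin d) (∀ i, ZMod (p i))) a b i
    rw [map_one, Matrix.one_apply, Matrix.one_apply]
    split_ifs <;> rfl
  map_zero' := by
    ext a b i
    change ρ i 0 a b = 0
    rw [map_zero]
    rfl
  map_add' x y := by
    ext a b i
    change ρ i (x i + y i) a b = _
    rw [map_add]
    rfl
  map_mul' x y := by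
    ext a b i
    change ρ i (x i * y i) a b = _
    rw [map_mul, Matrix.mul_apply, Matrix.mul_apply, Finset.sum_apply]
    rfl

variable {p}

theorem rhoT_apply (ρ : ∀ i, Λ i →+* Matrix (Fin d) (Fin d) (ZMod (p i))) (x : ∀ i, Λ i)
    (a b : Fin d) (i : ι) : rhoT p ρ x a b i = ρ i (x i) a b := rfl

/-- the matrix with the data `(r, x | x, r)` -/
def UG {S : Type*} [Ring S] (x y r β : S) (hr : ∀ z, r * z = z * r) (hβ : ∀ z, β * z = z * β)
    (h : x * y + β * r = 1) (h' : y * x + β * r = 1) : (Matrix (Fin 2) (Fin 2) S)ˣ where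
  val := !![r, x; -y, β]
  inv := !![β, -x; y, r]
  val_inv := by
    have e1 : r * β + x * y = 1 := by rw [← hβ, add_comm, h]
    have e2 : r * (-x) + x * r = 0 := by rw [mul_neg, hr x, neg_add_cancel]
    have e3 : (-y) * β + β * y = 0 := by rw [neg_mul, hβ y, neg_add_cancel]
    have e4 : (-y) * (-x) + β * r = 1 := by rw [neg_mul_neg, h']
    rw [Matrix.mul_fin_two, e1, e2, e3, e4, Matrix.one_fin_two]
  inv_val := by
    have e1 : β * r + (-x) * (-y) = 1 := by rw [neg_mul_neg, add_comm, h]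
    have e2 : β * x + (-x) * β = 0 := by rw [neg_mul, hβ x, add_neg_cancel]
    have e3 : y * r + r * (-y) = 0 := by rw [mul_neg, hr y, add_neg_cancel]
    have e4 : y * x + r * β = 1 := by rw [← hβ, h']
    rw [Matrix.mul_fin_two, e1, e2, e3, e4, Matrix.one_fin_two]

theorem UG_data {S : Type*} [Ring S] (x y r β : S) (hr : ∀ z, r * z = z * r)
    (hβ : ∀ z, β * z = z * β) (h : x * y + β * r = 1) (h' : y * x + β * r = 1) :
    HasData (UG x y r β hr hβ h h') r x x r := by
  refine ⟨?_, ?_, ?_, ?_⟩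
  · rfl
  · rfl
  · change (!![β, -x; y, r] : Matrix _ _ _) 0 1 = _
    simp
  · change (!![β, -x; y, r] : Matrix _ _ _) 1 1 = _
    simp

/-- the data for the homomorphism -/
theorem phiData (hf : ∀ i, Module.Free (R i) (Λ i)) (hfin : ∀ i, Module.Finite (R i) (Λ i))
    (ρ : ∀ i, Λ i →+* Matrix (Fin d) (Fin d) (ZMod (p i))) (hs : ∀ i, Function.Surjective (ρ i))
    (hk : ∀ i, ∀ x, ρ i x = 0 → ∃ y, x = (p i : Λ i) * y) :
    PhiData (cen (pc R p) : ∀ i, Λ i) (rhoT p ρ) := by
  have hcp : ∀ i, (cen (pc R p) : ∀ i, Λ i) i = (p i : Λ i) := fun i => congrFun (cen_pc p) i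
  refine ⟨cen_comm _, ?_, ?_, ?_⟩
  · intro M
    choose x hx using fun i => hs i (Matrix.of fun a b => M a b i)
    refine ⟨x, ?_⟩
    ext a b i
    rw [rhoT_apply, hx]
    rfl
  · intro x hx
    choose y hy using fun i => hk i (x i) (by
      ext a b
      exact congrFun (congrFun (congrFun hx a) b) i)
    refine ⟨y, ?_⟩
    funext i
    rw [Pi.mul_apply, hcp]
    exact hy i
  · intro x hx
    obtain ⟨X, hX⟩ := hx
    have h1 : ∀ i, ∃ u v : Λ i, x i * u + algebraMap (R i) (Λ i) (p i : R i) * v = 1 := by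
      intro i
      obtain ⟨u, hu⟩ := hs i (Matrix.of fun a b => (X⁻¹).val a b i)
      obtain ⟨w, hw⟩ := hk i (x i * u - 1) (by
        rw [map_sub, map_mul, map_one, sub_eq_zero, hu]
        ext a b
        have h2 : (X.val * (X⁻¹).val) a b i = (1 : Matrix (Fin d) (Fin d) (∀ i, ZMod (p i))) a b i := by
          rw [Units.mul_inv]
        rw [Matrix.mul_apply, Finset.sum_apply] at h2
        rw [Matrix.mul_apply]
        refine Eq.trans (Finset.sum_congr rfl fun c _ => ?_) (h2.trans ?_)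
        · rw [Pi.mul_apply, hX]
          rfl
        · rw [Matrix.one_apply, Matrix.one_apply]
          split_ifs <;> rfl)
      refine ⟨u, -w, ?_⟩
      rw [map_natCast, mul_neg, ← hw]
      abel
    have h2 : ∀ i, ∃ α β : R i, α * Algebra.norm (R i) (x i) + β * (p i : R i) = 1 := by
      intro i
      obtain ⟨u, v, huv⟩ := h1 i
      have := hf i
      have := hfin i
      exact exists_coprimeT huv
    choose α β hαβ using h2
    choose y hy1 hy2 using fun i =>
      have := hf i
      have := hfin i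
      exists_adjT (R := R i) (x i)
    have e0 : ∀ i, algebraMap (R i) (Λ i) (α i) * algebraMap (R i) (Λ i) (Algebra.norm (R i) (x i)) +
        algebraMap (R i) (Λ i) (β i) * (p i : Λ i) = 1 := by
      intro i
      rw [← map_natCast (algebraMap (R i) (Λ i)), ← map_mul, ← map_mul, ← map_add, hαβ, map_one]
    refine ⟨UG x (cen α * y) (cen (pc R p)) (cen β) (cen_comm _) (cen_comm _) ?_ ?_,
      UG_data _ _ _ _ _ _ _ _⟩
    · funext i
      change x i * (algebraMap (R i) (Λ i) (α i) * y i) +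
        algebraMap (R i) (Λ i) (β i) * (cen (pc R p) : ∀ i, Λ i) i = 1
      rw [hcp, ← mul_assoc, ← Algebra.commutes (α i) (x i), mul_assoc, hy1, e0]
    · funext i
      change (algebraMap (R i) (Λ i) (α i) * y i) * x i +
        algebraMap (R i) (Λ i) (β i) * (cen (pc R p) : ∀ i, Λ i) i = 1
      rw [hcp, mul_assoc, hy2, e0]

theorem scal_mem [∀ i, Fact (p i).Prime] {ρ : ∀ i, Λ i →+* Matrix (Fin d) (Fin d) (ZMod (p i))}
    (D : PhiData (cen (pc R p) : ∀ i, Λ i) (rhoT p ρ)) (u : (∀ i, ZMod (p i))ˣ) :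
    scal (Fin d) u ∈ D.phi.ker := by
  set a : ι → ℕ := fun i => (u.val i).val with ha
  have hcop : ∀ i, ∃ α β : ℤ, α * (a i : ℤ) + β * (p i : ℤ) = 1 := by
    intro i
    have h1 : ¬ p i ∣ a i := by
      intro h
      rw [← ZMod.natCast_eq_zero_iff, ha] at h
      simp only [ZMod.natCast_val, ZMod.cast_id', id_eq] at h
      have h2 : u.val i * (u⁻¹).val i = 1 := congrFun (Units.mul_inv u) i
      rw [h, zero_mul] at h2
      exact zero_ne_one h2
    have h2 : (p i).Coprime (a i) := ((Fact.out : (p i).Prime).coprime_iff_not_dvd).2 h1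
    have h3 : IsCoprime ((a i : ℤ)) (p i : ℤ) := by
      rw [Int.isCoprime_iff_gcd_eq_one]
      exact_mod_cast h2.symm
    exact h3
  choose α β hαβ using hcop
  set M : Matrix (Fin 2) (Fin 2) (ι → ℤ) :=
    !![fun i => (p i : ℤ), fun i => (a i : ℤ); -α, β] with hM
  have hdet : M.det = 1 := by
    rw [hM, Matrix.det_fin_two_of]
    funext i
    change (p i : ℤ) * β i - (a i : ℤ) * -α i = 1
    linear_combination hαβ i
  have hMH : mkU M hdet ∈ H (ι → ℤ) := ck _ hdet
  let ψ : (ι → ℤ) →+* ∀ i, Λ i :=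
    RingHom.pi fun i => (Int.castRingHom (Λ i)).comp (Pi.evalRingHom (fun _ => ℤ) i)
  have h1 := map_mem_H ψ hMH
  have hψ : ∀ (b : ι → ℤ) (i : ι), ψ b i = ((b i : ℤ) : Λ i) := fun b i => rfl
  have h2 : HasData (Units.map (ψ.mapMatrix (m := Fin 2)).toMonoidHom (mkU M hdet))
      (cen (pc R p)) (fun i => (a i : Λ i)) (fun i => (a i : Λ i)) (cen (pc R p)) := by
    rw [cen_pc]
    refine ⟨?_, ?_, ?_, ?_⟩
    · funext i
      change ψ (fun i => (p i : ℤ)) i = _
      rw [hψ]; simp
    · funext i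
      change ψ (fun i => (a i : ℤ)) i = _
      rw [hψ]; simp
    · change ψ (M.adjugate 0 1) = _
      rw [hM, Matrix.adjugate_fin_two_of]
      funext i
      change ψ (-(fun i => (a i : ℤ))) i = _
      rw [hψ]; simp
    · change ψ (M.adjugate 1 1) = _
      rw [hM, Matrix.adjugate_fin_two_of]
      funext i
      change ψ (fun i => (p i : ℤ)) i = _
      rw [hψ]; simp
  refine (D.mem_ker _ (fun i => (a i : Λ i)) _ ?_ h2).2 h1
  ext r s i
  rw [rhoT_apply, map_natCast]
  change _ = (algebraMap (∀ i, ZMod (p i)) (Matrix (Fin d) (Fin d) (∀ i, ZMod (p i))) u.val) r s i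
  rw [Matrix.algebraMap_matrix_apply, ← map_natCast (algebraMap (ZMod (p i))
    (Matrix (Fin d) (Fin d) (ZMod (p i)))), Matrix.algebraMap_matrix_apply]
  split_ifs
  · simp [ha]
  · rfl

end Fam

/-! ### the theorem -/

section TType

variable {ι : Type*} {N : ι → ℕ} {R Λ : ι → Type*} [∀ i, CommRing (R i)] [∀ i, Ring (Λ i)]
  [∀ i, Algebra (R i) (Λ i)] {d : ℕ} [∀ i, IsLocalization.Away (N i : ℤ) (R i)]

theorem pow_surj {p d : ℕ} (hp : p.Prime) (h : (p : ZMod d) = 2) (u : (ZMod p)ˣ) :
    ∃ v : (ZMod p)ˣ, v ^ Fintype.card (Fin d) = u := by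
  have := Fact.mk hp
  have hcop : (p - 1).Coprime d := by
    refine Nat.coprime_of_dvd' ?_
    intro l hl h1 h2
    have hp1 : 1 ≤ p := hp.one_lt.le
    have h3 : ((p : ℕ) : ZMod l) = 2 := by
      have h4 := congrArg (ZMod.castHom h2 (ZMod l)) h
      rwa [map_natCast, map_ofNat] at h4
    have h5 : ((p - 1 : ℕ) : ZMod l) = 0 := (ZMod.natCast_eq_zero_iff _ _).2 h1
    rw [Nat.cast_sub hp1, h3, Nat.cast_one] at h5
    have h6 : ((1 : ℕ) : ZMod l) = 0 := by
      rw [Nat.cast_one, ← h5]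
      norm_num
    exact (ZMod.natCast_eq_zero_iff _ _).1 h6
  have hcard : (Nat.card (ZMod p)ˣ).Coprime d := by
    rw [Nat.card_eq_fintype_card, ZMod.card_units p]
    exact hcop
  refine ⟨(powCoprime hcard).symm u, ?_⟩
  rw [Fintype.card_fin]
  exact (powCoprime hcard).apply_symm_apply u

theorem IsAzumaya.finiteT {d N : ℕ} {R Λ : Type*} [CommRing R] [Ring Λ] [Algebra R Λ]
    [IsLocalization.Away (N : ℤ) R] (hN : N ≠ 0) (hd : d ≠ 0) (h : IsAzumaya d N R Λ) :
    Module.Finite R Λ := by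
  have := h.free
  have := Loc.isDomain N R hN
  exact Module.finite_of_finrank_pos (by rw [h.rank]; positivity)

/-- **row T**: all matrices with the data `(m, b | b, m)`, `m` central, are in `H` -/
theorem ttype (hd : Odd d) (hN : ∀ i, N i ≠ 0) (h : ∀ i, IsAzumaya d (N i) (R i) (Λ i))
    (A : (Matrix (Fin 2) (Fin 2) (∀ i, Λ i))ˣ) (m : ∀ i, R i) (b : ∀ i, Λ i)
    (hA : HasData A (cen m) b b (cen m)) : A ∈ H (∀ i, Λ i) := by
  have hd0 : d ≠ 0 := by
    rintro rfl
    simp at hd
  have hf : ∀ i, Module.Free (R i) (Λ i) := fun i => (h i).free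
  have hfin : ∀ i, Module.Finite (R i) (Λ i) := fun i => (h i).finiteT (hN i) hd0
  -- the choice
  have hrel : ∀ i, ∃ α β : R i, α * Algebra.norm (R i) (b i) + β * m i = 1 := by
    intro i
    have h1 := congrFun hA.rel.1 i
    refine exists_coprimeT (x := b i) (u := A⁻¹.val 1 0 i) (v := A⁻¹.val 0 0 i) ?_
    rw [add_comm]
    exact h1
  choose α β hαβ using hrel
  choose w p k hp hp2 hpN hpd hk hz using fun i =>
    exists_choice (d := d) (hN i) hd (b i) (m i) (α i) (β i) (hαβ i)
  have hpF : ∀ i, Fact (p i).Prime := fun i => ⟨hp i⟩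
  -- the first move
  set b' : ∀ i, Λ i := b + cen m * w with hb'
  have d1 := hA.mul_el01 w
  rw [← cen_comm m w, ← hb'] at d1
  -- the second move
  choose y hy1 hy2 using fun i => exists_adjT (R := R i) (b' i)
  have d2 := d1.mul_el10 (cen k * y)
  have e1 : (cen m + b' * (cen k * y) : ∀ i, Λ i) = cen (pc R p) := by
    funext i
    change algebraMap (R i) (Λ i) (m i) + b' i * (algebraMap (R i) (Λ i) (k i) * y i) =
      algebraMap (R i) (Λ i) (p i : R i)
    rw [← mul_assoc, ← Algebra.commutes (k i) (b' i), mul_assoc, hy1, ← map_mul, ← map_add, hk]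
    congr 1
    rw [mul_comm (k i)]
    rfl
  have e2 : (cen m + cen k * y * b' : ∀ i, Λ i) = cen (pc R p) := by
    funext i
    change algebraMap (R i) (Λ i) (m i) + algebraMap (R i) (Λ i) (k i) * y i * b' i =
      algebraMap (R i) (Λ i) (p i : R i)
    rw [mul_assoc, hy2, ← map_mul, ← map_add, hk]
    congr 1
    rw [mul_comm (k i)]
    rfl
  rw [e1, e2] at d2
  -- the homomorphism
  choose ρ hs hker using fun i => (h i).fibre (p i) (hp i) (hpN i)
  have D := phiData (R := R) hf hfin ρ hs hker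
  have hu : IsUnit (rhoT p ρ b') := by
    obtain ⟨r1, -⟩ := d2.rel
    have r2 := congrArg (rhoT p ρ) r1
    have h0 : rhoT p ρ (cen (pc R p)) = 0 := by
      ext r s i
      rw [rhoT_apply, cen_pc, map_natCast]
      have : ((p i : ℕ) : Matrix (Fin d) (Fin d) (ZMod (p i))) = 0 := by
        rw [← map_natCast (algebraMap (ZMod (p i)) (Matrix (Fin d) (Fin d) (ZMod (p i))))]
        simp
      rw [this]
      rfl
    rw [map_add, map_mul, h0, zero_mul, zero_add, map_mul, map_one] at r2
    exact IsUnit.of_mul_eq_one _ r2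
  have hker : D.phi.ker = ⊤ := by
    have hsc : ∀ u, scal (Fin d) u ∈ D.phi.ker := scal_mem D
    by_cases hd3 : 3 ≤ d
    · choose z y' hz1 hz2 hz3 using fun i => hz i (ρ i) (hs i) (by omega)
      have hcz : (1 + z * y' : ∀ i, Λ i) = cen (pc R p) := by
        rw [cen_pc]
        funext i
        exact hz1 i
      have hcz' : (1 + y' * z : ∀ i, Λ i) = cen (pc R p) := by
        rw [cen_pc]
        funext i
        exact hz2 i
      have h0 : rhoT p ρ (cen (pc R p)) = 0 := by
        ext r s i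
        rw [rhoT_apply, cen_pc, map_natCast]
        have : ((p i : ℕ) : Matrix (Fin d) (Fin d) (ZMod (p i))) = 0 := by
          rw [← map_natCast (algebraMap (ZMod (p i)) (Matrix (Fin d) (Fin d) (ZMod (p i))))]
          simp
        rw [this]
        rfl
      have hzu : IsUnit (rhoT p ρ z) := by
        have r2 := congrArg (rhoT p ρ) hcz
        rw [h0, map_add, map_one, map_mul] at r2
        refine IsUnit.of_mul_eq_one (-(rhoT p ρ y')) ?_
        rw [mul_neg]
        exact (eq_neg_of_add_eq_zero_left r2).symm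
      refine eq_top_of_nonscalar (fun i => ?_) (fun i => pow_surj (hp i) (hpd i)) _ hsc
        (by rw [Fintype.card_fin]; exact hd3)
        (D.mem_ker_of_dvd hzu.unit z y' (IsUnit.unit_spec hzu).symm hcz hcz') (fun i => ?_)
      · intro h2
        have h3 : ((2 : ℕ) : ZMod (p i)) = 0 := by exact_mod_cast h2
        rw [ZMod.natCast_eq_zero_iff] at h3
        have := Nat.le_of_dvd (by norm_num) h3
        have := hp2 i
        omega
      · rintro ⟨c, hc⟩
        apply hz3 i
        refine ⟨c, ?_⟩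
        rw [← hc]
        ext r s
        rw [comp_val, IsUnit.unit_spec]
        rfl
    · have hd1 : d = 1 := by
        obtain ⟨t, ht⟩ := hd
        omega
      subst hd1
      rw [eq_top_iff]
      intro g _
      have hdet : IsUnit g.val.det := (Matrix.isUnit_iff_isUnit_det _).1 g.isUnit
      have : g = scal (Fin 1) hdet.unit := by
        ext1
        change g.val = algebraMap _ (Matrix (Fin 1) (Fin 1) _) hdet.unit.val
        ext r s
        rw [Matrix.algebraMap_matrix_apply, Subsingleton.elim r 0, Subsingleton.elim s 0, if_pos rfl,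
          IsUnit.unit_spec, Matrix.det_fin_one]
        rfl
      rw [this]
      exact hsc _
  have h4 := D.mem_H hker _ _ d2 hu
  exact (Subgroup.mul_mem_cancel_right _ (el01_mem _)).1
    ((Subgroup.mul_mem_cancel_right _ (el10_mem _)).1 h4)

end TType

end BWG
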