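import Pool.Agent.BWG.A4
import Pool.Agent.BWG.Loc
import Pool.Agent.BWG.T
import Pool.Agent.BWG.M

/-!
# Bounded width for `SL_n` over Azumaya algebras of odd prime degree: the main theorem
-/

set_option autoImplicit false

namespace BWG

open Matrix BW Pointwise
open scoped TensorProduct

/-- the localization statement for families of Azumaya algebras of odd degree -/
theorem locStat {ι : Type} {d : ℕ} (hd : Odd d) {N : ι → ℕ} {R Λ : ι → Type} [∀ i, CommRing (R i)]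
    [∀ i, Ring (Λ i)] [∀ i, Algebra (R i) (Λ i)] [∀ i, IsLocalization.Away (N i : ℤ) (R i)]
    (hN : ∀ i, N i ≠ 0) (h : ∀ i, IsAzumaya d (N i) (R i) (Λ i)) : LocStat Λ := by
  have hd0 : d ≠ 0 := by
    rintro rfl
    simp at hd
  have hne : Nonempty (Fin d) := ⟨⟨0, Nat.pos_of_ne_zero hd0⟩⟩
  obtain ⟨𝔸, inst, M, hφ, hcP, hcof⟩ := exists_loc hN hd0 h
  intro n _ _ hn U hU
  have hgen : gen Λ = M.φ := RingHom.ext fun x => funext fun i => (hφ x i).symm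
  rw [hgen] at hU
  refine loc (M := M) (fun g m h0 h1 h2 => ?_) hcof hn U hU
  rw [hcP] at h0 h1
  exact ttype hd hN h g m (g.val 0 1) ⟨h0, rfl, h2, h1⟩

/-- **bounded width for `SL_n(Λ)`**, `Λ` an Azumaya algebra of odd prime degree over `ℤ[1/N]` -/
theorem main {ℓ : ℕ} (hℓ : ℓ.Prime) (hodd : Odd ℓ) :
    ∃ (L₀ : ℕ) (L : ℕ → ℕ), ∀ n : ℕ, 3 ≤ n → ∀ N : ℕ, N ≠ 0 → ∀ (R Λ : Type)
    [CommRing R] [Ring Λ] [Algebra R Λ] [IsLocalization.Away (N : ℤ) R],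
    IsAzumaya ℓ N R Λ → ∀ (g : (Matrix (Fin n) (Fin n) Λ)ˣ) (f : Fin n → ℤ),
    (∃ i j, f i ≠ f j) →
      Uc g f ⊔ Uc g (-f) = SL1 ℓ N (Fin n) Λ ∧
      ((Uc g f : Set (Matrix (Fin n) (Fin n) Λ)ˣ) * (Uc g (-f) : Set (Matrix (Fin n) (Fin n) Λ)ˣ))
        ^ L n = (SL1 ℓ N (Fin n) Λ : Set (Matrix (Fin n) (Fin n) Λ)ˣ) ∧
      (Function.Injective f → ((Uc g f : Set (Matrix (Fin n) (Fin n) Λ)ˣ) *
        (Uc g (-f) : Set (Matrix (Fin n) (Fin n) Λ)ˣ)) ^ L₀ =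
          (SL1 ℓ N (Fin n) Λ : Set (Matrix (Fin n) (Fin n) Λ)ˣ)) :=
  main_of_loc hℓ hodd fun i => locStat hodd (N := fun k => (i k).N) (R := fun k => (i k).R)
    (fun k => (i k).hN) fun k => (i k).az

end BWG
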