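import Pool.Agent.BWG.SR1

/-!
# The homomorphism `Mˣ → GL₂(S) / H(S)` of the symbols with a fixed central first entry
-/

set_option autoImplicit false

namespace BWG

open Matrix BW

section Phi

variable {S M : Type*} [Ring S] [Ring M]

/-- the data for the homomorphism: a central element `π` and a surjection with kernel `π S` such
that all `x` invertible modulo `π` occur in a matrix with the data `(π, x | x, π)` -/
structure PhiData (π : S) (ρ : S →+* M) : Prop where
  comm : ∀ x, π * x = x * π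
  surj : Function.Surjective ρ
  ker : ∀ x, ρ x = 0 → ∃ y, x = π * y
  ex : ∀ x, IsUnit (ρ x) → ∃ A : (Matrix (Fin 2) (Fin 2) S)ˣ, HasData A π x x π

variable {π : S} {ρ : S →+* M} (D : PhiData π ρ)

include D in
theorem PhiData.exists_lift (g : Mˣ) :
    ∃ (x : S) (A : (Matrix (Fin 2) (Fin 2) S)ˣ), ρ x = g.val ∧ HasData A π x x π := by
  obtain ⟨x, hx⟩ := D.surj g.val
  obtain ⟨A, hA⟩ := D.ex x (by rw [hx]; exact g.isUnit)
  exact ⟨x, A, hx, hA⟩

/-- the class of the symbols of `g` -/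
noncomputable def PhiData.phiFun (g : Mˣ) : (Matrix (Fin 2) (Fin 2) S)ˣ ⧸ H S :=
  QuotientGroup.mk (D.exists_lift g).choose_spec.choose

theorem PhiData.phiFun_eq (g : Mˣ) (x : S) (A : (Matrix (Fin 2) (Fin 2) S)ˣ) (hx : ρ x = g.val)
    (hA : HasData A π x x π) : D.phiFun g = QuotientGroup.mk A := by
  set x' := (D.exists_lift g).choose with hx'
  obtain ⟨h1, h2⟩ := (D.exists_lift g).choose_spec.choose_spec
  obtain ⟨w, hw⟩ := D.ker (x - x') (by rw [map_sub, hx, h1, sub_self])
  have e1 : x' + π * w = x := by rw [← hw]; abel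
  have e2 : x' + w * π = x := by rw [← D.comm, e1]
  have d1 := h2.mul_el01 w
  rw [e1, e2] at d1
  change QuotientGroup.mk (D.exists_lift g).choose_spec.choose = _
  rw [← mk_mul_of_mem _ _ (el01_mem w)]
  exact d1.mk_eq hA

/-- the homomorphism -/
noncomputable def PhiData.phi : Mˣ →* (Matrix (Fin 2) (Fin 2) S)ˣ ⧸ H S :=
  MonoidHom.mk' D.phiFun (fun g g' => by
    obtain ⟨x, A, hx, hA⟩ := D.exists_lift g
    obtain ⟨y, B, hy, hB⟩ := D.exists_lift g'
    obtain ⟨C, c1, c2, c3, c4, c5⟩ := star_exists A B (hA.h1.trans hB.h00.symm)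
    have hC : HasData C π (x * y) (x * y) π := by
      refine ⟨c1.trans hA.h00, ?_, ?_, c4.trans hB.h1⟩
      · rw [c2, hA.h01, hB.h01]
      · rw [c3, hA.h0, hB.h0, neg_mul_neg]
    rw [D.phiFun_eq g x A hx hA, D.phiFun_eq g' y B hy hB,
      D.phiFun_eq (g * g') (x * y) C (by rw [map_mul, hx, hy, Units.val_mul]) hC]
    have h2 := (QuotientGroup.eq_one_iff _).2 c5
    rw [QuotientGroup.mk_mul, QuotientGroup.mk_inv, mul_inv_eq_one] at h2
    rw [← h2, QuotientGroup.mk_mul])

theorem PhiData.mem_ker (g : Mˣ) (x : S) (A : (Matrix (Fin 2) (Fin 2) S)ˣ) (hx : ρ x = g.val)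
    (hA : HasData A π x x π) : g ∈ D.phi.ker ↔ A ∈ H S := by
  rw [MonoidHom.mem_ker, ← QuotientGroup.eq_one_iff, ← D.phiFun_eq g x A hx hA]
  rfl

theorem oneData : HasData (1 : (Matrix (Fin 2) (Fin 2) S)ˣ) 1 0 0 1 := by
  refine ⟨?_, ?_, ?_, ?_⟩ <;> simp

/-- divisors of `π - 1` are killed -/
theorem PhiData.mem_ker_of_dvd (g : Mˣ) (x y : S) (hx : ρ x = g.val) (h : 1 + x * y = π)
    (h' : 1 + y * x = π) : g ∈ D.phi.ker := by
  have d := ((oneData (S := S)).mul_el01 x).mul_el10 y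
  simp only [zero_add, one_mul, mul_one, h, h'] at d
  exact (D.mem_ker g x _ hx d).2 ((H S).mul_mem (el01_mem x) (el10_mem y))

/-- if the homomorphism is trivial then the symbols with the first entry `π` are trivial -/
theorem PhiData.mem_H (h : D.phi.ker = ⊤) (A : (Matrix (Fin 2) (Fin 2) S)ˣ) (x : S)
    (hA : HasData A π x x π) (hx : IsUnit (ρ x)) : A ∈ H S := by
  rw [← D.mem_ker hx.unit x A (IsUnit.unit_spec hx).symm hA, h]
  exact Subgroup.mem_top _

end Phi

end BWG
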