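import Pool.Agent.BWG.Defs
import Pool.Agent.BW.Stable
import Pool.Agent.BW.CK

/-!
# Row SP: `SL_n(prod Z[1/N_i]) = E_n`, `n ≥ 3`
-/

set_option autoImplicit false

namespace BWG

open Matrix BW
open Pool.Agent.Helper24.BWR (emb SR2' pm qm qm_mul_pm emb_apply emb_emb emb_mem)

/-! ### Stable range two for `ℤ[1/N]` -/

theorem loc_sr2' {N : ℕ} {R : Type*} [CommRing R] [IsLocalization.Away (N : ℤ) R] (hN : N ≠ 0) :
    SR2' R := by
  intro a b c u v h
  by_cases ha : a = 0
  · refine ⟨1, 0, 1, 0, ?_⟩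
    linear_combination h + (1 - u) * ha
  · obtain ⟨w, m, hm, -, hw⟩ := Loc.exists_unit_mul hN ha
    obtain ⟨b0, hb0⟩ : ∃ b0 : ℕ, ∀ p : ℕ, p.Prime → ¬ p ∣ N → ((p : R) ∣ b ↔ p ∣ b0) := by
      by_cases hb : b = 0
      · exact ⟨0, fun p _ _ => by simp [hb]⟩
      · obtain ⟨w', m', -, -, hw'⟩ := Loc.exists_unit_mul hN hb
        refine ⟨m', fun p hp hpN => ?_⟩
        rw [hw', IsUnit.dvd_mul_left w'.isUnit, Loc.natCast_dvd_natCast hp hpN]
    obtain ⟨s, t, j, h1, h2, h3, h4⟩ := Loc.exists_coprime_part b0 m hm.ne'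
    have hcop : IsCoprime a (b + t * (u * a + c)) := by
      refine Loc.isCoprime hN _ _ (Or.inl ha) fun p hp hpN hdvd => ?_
      have hP := Loc.prime (R := R) hp hpN hN
      obtain ⟨hpa, hpb⟩ := hdvd
      have hpm : p ∣ m := by
        have h5 := hpa
        rw [hw, IsUnit.dvd_mul_left w.isUnit, Loc.natCast_dvd_natCast hp hpN] at h5
        exact h5
      by_cases hp0 : p ∣ b0
      · have h5 : (p : R) ∣ b := (hb0 p hp hpN).2 hp0
        have h6 : (p : R) ∣ t * (u * a + c) := (dvd_add_right h5).1 hpb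
        rcases hP.dvd_or_dvd h6 with h7 | h7
        · rw [Loc.natCast_dvd_natCast hp hpN] at h7
          exact hp.one_lt.ne' (Nat.eq_one_of_dvd_coprimes h3 h7 hp0)
        · have h8 : (p : R) ∣ 1 := by
            rw [← h]
            have e1 : u * a + v * b + c = (u * a + c) + v * b := by ring
            rw [e1]
            exact dvd_add h7 (Dvd.dvd.mul_left h5 v)
          exact hP.not_isUnit (isUnit_of_dvd_one h8)
      · have h5 : p ∣ t := by
          rw [h1] at hpm
          rcases (Nat.Prime.dvd_mul hp).1 hpm with h6 | h6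
          · exact absurd (hp.dvd_of_dvd_pow (h6.trans h2)) hp0
          · exact h6
        have h6 : (p : R) ∣ (t : R) := (Loc.natCast_dvd_natCast hp hpN).2 h5
        have h7 : (p : R) ∣ b := (dvd_add_left (Dvd.dvd.mul_right h6 _)).1 hpb
        exact hp0 ((hb0 p hp hpN).1 h7)
    obtain ⟨x, y, hxy⟩ := hcop
    refine ⟨0, t, x, y, ?_⟩
    linear_combination hxy

/-! ### Units in the symbols -/

section sym

variable {R : Type*} [CommRing R]

theorem symOne_unit_right {a u : R} (hu : IsUnit u) : SymOne a u := by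
  obtain ⟨v, rfl⟩ := hu
  apply SymOne.left ((1 - a) * (v⁻¹ : Rˣ))
  apply SymOne.unit_left
  have : a + (1 - a) * (v⁻¹ : Rˣ) * (v : R) = 1 := by
    rw [mul_assoc, Units.inv_mul]
    ring
  rw [this]
  exact isUnit_one

theorem symOne_scale_right {a b u : R} (hu : IsUnit u) (h : SymOne a (u * b)) : SymOne a b := by
  obtain ⟨v, rfl⟩ := hu
  have h1 := SymOne.mul h (symOne_unit_right (a := a) (v⁻¹).isUnit)
  have h2 : (v : R) * b * (v⁻¹ : Rˣ) = b := by
    rw [mul_right_comm, Units.mul_inv, one_mul]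
  rwa [h2] at h1

theorem symOne_swap {a b : R} (h : SymOne b (-a)) : SymOne a b := by
  apply SymOne.right (-1)
  apply SymOne.left 1
  have e1 : a + 1 * (b + -1 * a) = b := by ring
  rw [e1]
  apply SymOne.right (-1)
  have e2 : b + -1 * a + -1 * b = -a := by ring
  rw [e2]
  exact h

theorem symOne_scale_left {a b u : R} (hu : IsUnit u) (h : SymOne (u * a) b) : SymOne a b := by
  apply symOne_swap
  apply symOne_scale_right hu
  apply symOne_swap
  apply symOne_swap
  apply symOne_swap
  have e1 : - -b = b := by ring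
  have e2 : - (u * -a) = u * a := by ring
  rw [e1, e2]
  exact h

end sym

/-! ### `SL₂` of the product -/

section prod

variable {ι : Type*} {N : ι → ℕ} {R : ι → Type*} [∀ i, CommRing (R i)]

/-- the homomorphism from the families of integers -/
def ofInt (R : ι → Type*) [∀ i, CommRing (R i)] : (ι → ℤ) →+* ∀ i, R i :=
  RingHom.pi fun i => (Int.castRingHom (R i)).comp (Pi.evalRingHom _ i)

theorem ofInt_apply (z : ι → ℤ) (i : ι) : ofInt R z i = (z i : R i) := rfl

theorem sl2_mem_H (hN : ∀ i, N i ≠ 0) [∀ i, IsLocalization.Away (N i : ℤ) (R i)]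
    (A : (Matrix (Fin 2) (Fin 2) (∀ i, R i))ˣ) (hA : A.val.det = 1) : A ∈ H (∀ i, R i) := by
  classical
  have hdet : ∀ i, A.val 0 0 i * A.val 1 1 i - A.val 0 1 i * A.val 1 0 i = 1 := by
    intro i
    have := congrFun hA i
    rw [Matrix.det_fin_two] at this
    simpa using this
  obtain ⟨a, ha⟩ : ∃ a, a = A.val 0 0 := ⟨_, rfl⟩
  obtain ⟨b, hb⟩ : ∃ b, b = A.val 0 1 := ⟨_, rfl⟩
  rw [← ha, ← hb] at hdet
  have key : SymOne a b := by
    let e : ∀ i, R i := fun i => if a i = 0 then 1 else 0
    apply SymOne.left e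
    have hne : ∀ i, (a + e * b) i ≠ 0 := by
      intro i
      have hD := Loc.isDomain (N i) (R i) (hN i)
      by_cases h0 : a i = 0
      · have h1 := hdet i
        simp only [Pi.add_apply, Pi.mul_apply, e, h0, if_true, one_mul, zero_add]
        intro h2
        rw [h0, h2] at h1
        simp at h1
      · simp [e, h0]
    have hcop : ∀ i, IsCoprime ((a + e * b) i) (b i) := by
      intro i
      have : IsCoprime (a i) (b i) := ⟨A.val 1 1 i, -A.val 1 0 i, by linear_combination hdet i⟩
      exact (IsCoprime.add_mul_right_left_iff).2 this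
    obtain ⟨a', ha'⟩ : ∃ a', a' = a + e * b := ⟨_, rfl⟩
    rw [← ha'] at hne hcop ⊢
    choose w m hm hmN hw using fun i => Loc.exists_unit_mul (hN i) (hne i)
    choose β k hβ using fun i => Loc.exists_int (N i) (b i)
    have hNk : ∀ i, IsUnit ((N i : R i) ^ k i) := fun i => (Loc.isUnit_natCast (N i) (R i)).pow (k i)
    have hcz : ∀ i, IsCoprime (m i : ℤ) (β i) := by
      intro i
      rw [Int.isCoprime_iff_gcd_eq_one]
      by_contra hg
      obtain ⟨p, hp, hpg⟩ := Nat.exists_prime_and_dvd hg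
      have h1 : (p : ℤ) ∣ (m i : ℤ) := (Int.natCast_dvd_natCast.2 hpg).trans (Int.gcd_dvd_left _ _)
      have h2 : (p : ℤ) ∣ β i := (Int.natCast_dvd_natCast.2 hpg).trans (Int.gcd_dvd_right _ _)
      have h3 : p ∣ m i := Int.natCast_dvd_natCast.1 h1
      have hpN : ¬ p ∣ N i := fun hd => hp.one_lt.ne' (Nat.eq_one_of_dvd_coprimes (hmN i) h3 hd)
      have h4 : (p : R i) ∣ a' i := by
        rw [hw i]
        exact Dvd.dvd.mul_left ((Loc.natCast_dvd_natCast hp hpN).2 h3) _
      have h5 : (p : R i) ∣ b i := by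
        have h6 : (p : R i) ∣ b i * (N i : R i) ^ k i := by
          rw [hβ i]
          exact (Loc.intCast_dvd hp hpN).2 h2
        exact (IsUnit.dvd_mul_right (hNk i)).1 h6
      exact Loc.not_isUnit hp hpN ((hcop i).isUnit_of_dvd' h4 h5)
    choose x y hxy using hcz
    let X : Matrix (Fin 2) (Fin 2) (ι → ℤ) :=
      !![fun i => (m i : ℤ), β; fun i => -y i, x]
    have hX : X.det = 1 := by
      rw [Matrix.det_fin_two_of]
      funext i
      simp only [Pi.sub_apply, Pi.mul_apply, Pi.one_apply]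
      linear_combination hxy i
    have hXH : mkU X hX ∈ H (ι → ℤ) := ck _ hX
    have hYH := map_mem_H (ofInt R) hXH
    have hYdet : (Units.map ((ofInt R).mapMatrix (m := Fin 2)).toMonoidHom (mkU X hX)).val.det = 1 := by
      change ((ofInt R).mapMatrix X).det = 1
      rw [← RingHom.map_det, hX, map_one]
    have hS := SymOne.of_mem hYdet hYH
    have e0 : (Units.map ((ofInt R).mapMatrix (m := Fin 2)).toMonoidHom (mkU X hX)).val 0 0 =
        (fun i => ((w i)⁻¹ : (R i)ˣ) : ∀ i, R i) * a' := by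
      funext i
      change (((m i : ℤ) : R i)) = ((w i)⁻¹ : (R i)ˣ) * a' i
      rw [hw i, Units.inv_mul_cancel_left, Int.cast_natCast]
    have e1 : (Units.map ((ofInt R).mapMatrix (m := Fin 2)).toMonoidHom (mkU X hX)).val 0 1 =
        (fun i => (N i : R i) ^ k i : ∀ i, R i) * b := by
      funext i
      change ((β i : ℤ) : R i) = (N i : R i) ^ k i * b i
      rw [← hβ i, mul_comm]
    rw [e0, e1] at hS
    refine symOne_scale_left ?_ (symOne_scale_right ?_ hS)
    · rw [Pi.isUnit_iff]
      exact fun i => ((w i)⁻¹).isUnit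
    · rw [Pi.isUnit_iff]
      exact hNk
  exact key A hA ha.symm hb.symm

end prod

/-! ### Determinants -/

section det

variable {n R : Type*} [DecidableEq n] [Fintype n] [CommRing R]

theorem det_of_mem_E {g : (Matrix n n R)ˣ} (hg : g ∈ E n R) : g.val.det = 1 := by
  induction hg using Subgroup.closure_induction with
  | mem X hX =>
    obtain ⟨i, j, h, x, rfl⟩ := hX
    exact Matrix.det_transvection_of_ne i j h x
  | one => rw [Units.val_one, Matrix.det_one]
  | mul X Y _ _ hX hY => rw [Units.val_mul, Matrix.det_mul, hX, hY, one_mul]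
  | inv X _ hX =>
    have h : X.val.det * X⁻¹.val.det = 1 := by
      rw [← Matrix.det_mul, ← Units.val_mul, mul_inv_cancel, Units.val_one, Matrix.det_one]
    rwa [hX, one_mul] at h

theorem det_emb {k : Type*} [DecidableEq k] [Fintype k] (φ : n ↪ k) (M : Matrix n n R) :
    (emb φ M).det = M.det := by
  rw [emb_apply, Matrix.det_one_add_mul_comm, ← Matrix.mul_assoc, qm_mul_pm, Matrix.one_mul,
    add_sub_cancel]

end det

theorem split_mem {ι : Type*} {N : ι → ℕ} {R : ι → Type*} [∀ i, CommRing (R i)]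
    (hN : ∀ i, N i ≠ 0) [∀ i, IsLocalization.Away (N i : ℤ) (R i)] {n : Type*} [DecidableEq n]
    [Fintype n] (hn : 3 ≤ Fintype.card n) (g : (Matrix n n (∀ i, R i))ˣ) (hg : g.val.det = 1) :
    g ∈ E n (∀ i, R i) := by
  obtain ⟨m, hm⟩ : ∃ m, Fintype.card n = 2 + m := ⟨Fintype.card n - 2, by omega⟩
  have hm1 : 1 ≤ m := by omega
  have e : n ≃ Fin (2 + m) := (Fintype.equivFin n).trans (finCongr hm)
  have key : ∀ X : (Matrix (Fin (2 + m)) (Fin (2 + m)) (∀ i, R i))ˣ, X.val.det = 1 →
      X ∈ E (Fin (2 + m)) (∀ i, R i) := by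
    intro X hX
    obtain ⟨A, f, f', hf, hf', rfl⟩ := stable_reduction
      (Pool.Agent.Helper24.BWR.SR2'.pi fun i => loc_sr2' (R := R i) (hN i)) m X
    rw [Units.val_mul, Units.val_mul, Matrix.det_mul, Matrix.det_mul, det_of_mem_E hf,
      det_of_mem_E hf', one_mul, mul_one] at hX
    have hA : A.val.det = 1 := by
      have h1 : (Units.map (km m) A).val = emb (ca m) A.val := km_eq m A.val
      rw [h1, det_emb] at hX
      exact hX
    exact mul_mem (mul_mem hf (km_mem m hm1 A (sl2_mem_H hN A hA))) hf'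
  have h1 := key (Units.map (emb e.toEmbedding) g) (by
    change (emb e.toEmbedding g.val).det = 1
    rw [det_emb, hg])
  have h2 := emb_mem e.symm.toEmbedding h1
  have h3 : Units.map (emb e.symm.toEmbedding) (Units.map (emb e.toEmbedding) g) = g := by
    apply Units.ext
    change emb e.symm.toEmbedding (emb e.toEmbedding g.val) = g.val
    rw [emb_emb]
    have h4 : e.toEmbedding.trans e.symm.toEmbedding = Function.Embedding.refl n := by
      ext x
      simp
    rw [h4, emb_apply]
    have h5 : pm (∀ i, R i) (Function.Embedding.refl n) = 1 := by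
      ext a b
      simp [pm, Matrix.one_apply]
    have h6 : qm (∀ i, R i) (Function.Embedding.refl n) = 1 := by
      ext a b
      simp [qm, Matrix.one_apply, eq_comm]
    rw [h5, h6, Matrix.one_mul, Matrix.mul_one, add_sub_cancel]
  rwa [h3] at h2

end BWG
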