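import Pool.Agent.BWG.Defs

/-!
# Symbol calculus in a group with Steinberg data over a commutative ring

Conjugation formulas for the Weyl and torus elements, centrality, bimultiplicativity and skew symmetry
of the symbols, and the rank one identity when all symbols are trivial.
-/

set_option autoImplicit false

namespace BWG

namespace Stb

section basic

variable {I F G : Type*} [CommRing F] [Group G] (S : Stb I F G)

theorem x_zero {a b : I} (h : a ≠ b) : S.x a b 0 = 1 := by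
  have h1 := S.add h 0 0
  rw [add_zero] at h1
  exact mul_eq_left.1 h1.symm

theorem x_neg {a b : I} (h : a ≠ b) (r : F) : S.x a b (-r) = (S.x a b r)⁻¹ := by
  rw [eq_inv_iff_mul_eq_one, ← S.add h, neg_add_cancel, S.x_zero h]

theorem w_inv {a b : I} (h : a ≠ b) (u : Fˣ) : (S.w a b u)⁻¹ = S.w a b (-u) := by
  unfold w
  rw [mul_inv_rev, mul_inv_rev, ← S.x_neg h, ← S.x_neg h.symm, mul_assoc]
  simp only [neg_neg, inv_neg, Units.val_neg]

/-- `x_ab(r)` commutes with `x_cd(s)` -/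
theorem conj_disj {a b c d : I} (hab : a ≠ b) (hcd : c ≠ d) (hbc : b ≠ c) (had : a ≠ d) (r s : F) :
    S.x a b r * S.x c d s * (S.x a b r)⁻¹ = S.x c d s := by
  rw [S.disj hab hcd hbc had, mul_inv_cancel_right]

theorem conj_bc {a b c : I} (hab : a ≠ b) (hbc : b ≠ c) (hac : a ≠ c) (r s : F) :
    S.x a b r * S.x b c s * (S.x a b r)⁻¹ = S.x a c (r * s) * S.x b c s := by
  rw [S.comm hab hbc hac, mul_inv_cancel_right]

theorem conj_ca {a b c : I} (hab : a ≠ b) (hbc : b ≠ c) (hac : a ≠ c) (r s : F) :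
    S.x a b r * S.x c a s * (S.x a b r)⁻¹ = S.x c b (-(s * r)) * S.x c a s := by
  have h1 := S.comm hac.symm hab hbc.symm s r
  rw [S.x_neg hbc.symm, mul_inv_eq_iff_eq_mul, mul_assoc, h1, mul_assoc, inv_mul_cancel_left]

theorem comm_eq {a b c : I} (hab : a ≠ b) (hbc : b ≠ c) (hac : a ≠ c) (r s : F) :
    S.x a b (r * s) = S.x a c r * S.x c b s * (S.x a c r)⁻¹ * (S.x c b s)⁻¹ := by
  have h1 := S.comm hac hbc.symm hab r s
  rw [h1]
  group

/-- `x_ac` and `x_bc` commute, cancellation -/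
theorem cancel_right {a b c d : I} (hab : a ≠ b) (hcd : c ≠ d) (hbc : b ≠ c) (had : a ≠ d) (r s : F) :
    S.x a b (-r) * S.x c d s * S.x a b r = S.x c d s := by
  rw [S.disj hab hcd hbc had, mul_assoc, ← S.add hab, neg_add_cancel, S.x_zero hab, mul_one]

private theorem conj3 (A B y : G) :
    (A * B * A) * y * (A * B * A)⁻¹ = A * (B * (A * y * A⁻¹) * B⁻¹) * A⁻¹ := by
  group

private theorem conj_mul' (A y z : G) : A * (y * z) * A⁻¹ = (A * y * A⁻¹) * (A * z * A⁻¹) := by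
  group

variable {a b c : I} (hab : a ≠ b) (hac : a ≠ c) (hbc : b ≠ c) (u : Fˣ) (r : F)

include hab hac hbc

theorem w_ac : S.w a b u * S.x a c r * (S.w a b u)⁻¹ = S.x b c (-(u⁻¹ : Fˣ) * r) := by
  unfold w
  rw [conj3, S.conj_disj hab hac hab.symm hac, S.conj_bc hab.symm hac hbc, conj_mul',
    S.conj_bc hab hbc hac, S.conj_disj hab hac hab.symm hac,
    show (u : F) * (-(u⁻¹ : Fˣ) * r) = -r by linear_combination (-r) * u.mul_inv]
  exact S.cancel_right hac hbc hbc.symm hac _ _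

theorem w_bc : S.w a b u * S.x b c r * (S.w a b u)⁻¹ = S.x a c (u * r) := by
  unfold w
  rw [conj3, S.conj_bc hab hbc hac, conj_mul' (S.x b a _), S.conj_bc hab.symm hac hbc,
    S.conj_disj hab.symm hbc hab hbc,
    show (-(u⁻¹ : Fˣ) : F) * (u * r) = -r by linear_combination (-r) * u.inv_mul,
    S.cancel_right hbc hac hac.symm hbc, S.conj_disj hab hac hab.symm hac]

theorem w_ca : S.w a b u * S.x c a r * (S.w a b u)⁻¹ = S.x c b (r * -u) := by
  unfold w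
  rw [conj3, S.conj_ca hab hbc hac, conj_mul' (S.x b a _), S.conj_ca hab.symm hac hbc,
    S.conj_disj hab.symm hac.symm hac hab.symm,
    show (-(-(r * (u : F)) * -((u⁻¹ : Fˣ) : F))) = -r by linear_combination (-r) * u.mul_inv,
    S.cancel_right hac.symm hbc.symm hac hbc.symm, S.conj_disj hab hbc.symm hbc hab, mul_neg]

theorem w_cb : S.w a b u * S.x c b r * (S.w a b u)⁻¹ = S.x c a (r * (u⁻¹ : Fˣ)) := by
  unfold w
  rw [conj3, S.conj_disj hab hbc.symm hbc hab, S.conj_ca hab.symm hac hbc, conj_mul',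
    S.conj_ca hab hbc hac, S.conj_disj hab hbc.symm hbc hab,
    show (-(-(r * -((u⁻¹ : Fˣ) : F)) * (u : F))) = -r by linear_combination (-r) * u.inv_mul,
    S.cancel_right hbc.symm hac.symm hbc hac.symm, mul_neg, neg_neg]

theorem w_ab : S.w a b u * S.x a b r * (S.w a b u)⁻¹ =
    S.x b a (-(u⁻¹ : Fˣ) * r * (u⁻¹ : Fˣ)) := by
  have h1 := S.comm_eq hab hbc hac r 1
  rw [mul_one] at h1
  have h2 : ∀ g y z : G, g * (y * z * y⁻¹ * z⁻¹) * g⁻¹ =
      (g * y * g⁻¹) * (g * z * g⁻¹) * (g * y * g⁻¹)⁻¹ * (g * z * g⁻¹)⁻¹ := fun g y z => by group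
  rw [h1, h2, S.w_ac hab hac hbc, S.w_cb hab hac hbc, ← S.comm_eq hab.symm hac hbc, one_mul]

theorem w_ba : S.w a b u * S.x b a r * (S.w a b u)⁻¹ = S.x a b (u * r * -u) := by
  have h1 := S.comm_eq hab.symm hac hbc r 1
  rw [mul_one] at h1
  have h2 : ∀ g y z : G, g * (y * z * y⁻¹ * z⁻¹) * g⁻¹ =
      (g * y * g⁻¹) * (g * z * g⁻¹) * (g * y * g⁻¹)⁻¹ * (g * z * g⁻¹)⁻¹ := fun g y z => by group
  rw [h1, h2, S.w_bc hab hac hbc, S.w_ca hab hac hbc, ← S.comm_eq hab hbc hac, one_mul]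

end basic

section mon

variable {I F G : Type*} [CommRing F] [Group G] (S : Stb I F G)

theorem w_disj {a b c d : I} (hab : a ≠ b) (hcd : c ≠ d) (hac : a ≠ c) (hbc : b ≠ c) (had : a ≠ d)
    (hbd : b ≠ d) (u : Fˣ) (r : F) : S.w a b u * S.x c d r * (S.w a b u)⁻¹ = S.x c d r := by
  unfold w
  rw [conj3, S.conj_disj hab hcd hbc had, S.conj_disj hab.symm hcd hac hbd,
    S.conj_disj hab hcd hbc had]

theorem x_mem {a b : I} (h : a ≠ b) (r : F) : S.x a b r ∈ S.L :=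
  Subgroup.subset_closure ⟨a, b, h, r, rfl⟩

theorem w_mem {a b : I} (h : a ≠ b) (u : Fˣ) : S.w a b u ∈ S.L :=
  mul_mem (mul_mem (S.x_mem h _) (S.x_mem h.symm _)) (S.x_mem h _)

theorem h_mem {a b : I} (h : a ≠ b) (u : Fˣ) : S.h a b u ∈ S.L :=
  mul_mem (S.w_mem h _) (inv_mem (S.w_mem h _))

theorem h_one {a b : I} : S.h a b 1 = 1 := mul_inv_cancel _

theorem sy_mem' {a b c : I} (hab : a ≠ b) (hac : a ≠ c) (u v : Fˣ) : S.sy a b c u v ∈ S.L :=
  mul_mem (mul_mem (mul_mem (S.h_mem hab u) (S.h_mem hac v)) (inv_mem (S.h_mem hab u)))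
    (inv_mem (S.h_mem hac v))

/-- `g` acts on the letters as a monomial matrix -/
def Mon (g : G) (σ : I → I) (α : I → Fˣ) : Prop :=
  ∀ p q, p ≠ q → ∀ r : F, g * S.x p q r * g⁻¹ = S.x (σ p) (σ q) (α p * r * ((α q)⁻¹ : Fˣ))

variable {S}

theorem Mon.congr {g : G} {σ σ' : I → I} {α α' : I → Fˣ} (h : S.Mon g σ α) (hσ : ∀ p, σ p = σ' p)
    (hα : ∀ p, α p = α' p) : S.Mon g σ' α' := by
  intro p q hpq r
  rw [h p q hpq r, hσ, hσ, hα, hα]

theorem Mon.mul {g g' : G} {σ σ' : I → I} {α α' : I → Fˣ} (h : S.Mon g σ α) (h' : S.Mon g' σ' α')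
    (hσ' : Function.Injective σ') :
    S.Mon (g * g') (fun p => σ (σ' p)) (fun p => α (σ' p) * α' p) := by
  intro p q hpq r
  have h1 : g * g' * S.x p q r * (g * g')⁻¹ = g * (g' * S.x p q r * g'⁻¹) * g⁻¹ := by group
  rw [h1, h' p q hpq r, h _ _ (fun e => hpq (hσ' e))]
  congr 1
  rw [mul_inv, Units.val_mul, Units.val_mul]
  ring

theorem Mon.inv {g : G} {α : I → Fˣ} (h : S.Mon g id α) : S.Mon g⁻¹ id (fun p => (α p)⁻¹) := by
  intro p q hpq r
  have h1 := h p q hpq (((α p)⁻¹ : Fˣ) * r * α q)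
  simp only [id_eq, inv_inv] at h1 ⊢
  have h2 : (α p : F) * (((α p)⁻¹ : Fˣ) * r * α q) * ((α q)⁻¹ : Fˣ) = r := by
    have e1 := (α p).mul_inv
    have e2 := (α q).mul_inv
    calc (α p : F) * (((α p)⁻¹ : Fˣ) * r * α q) * ((α q)⁻¹ : Fˣ)
        = ((α p : F) * ((α p)⁻¹ : Fˣ)) * r * ((α q : F) * ((α q)⁻¹ : Fˣ)) := by ring
      _ = r := by rw [e1, e2]; ring
  rw [h2] at h1
  rw [← h1]
  group

theorem Mon.conj_w {g : G} {σ : I → I} {α : I → Fˣ} (h : S.Mon g σ α) {p q : I} (hpq : p ≠ q)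
    (v : Fˣ) : g * S.w p q v * g⁻¹ = S.w (σ p) (σ q) (α p * v * (α q)⁻¹) := by
  have h1 : g * S.w p q v * g⁻¹ = (g * S.x p q v * g⁻¹) * (g * S.x q p (-(v⁻¹ : Fˣ)) * g⁻¹) *
      (g * S.x p q v * g⁻¹) := by
    unfold w
    group
  rw [h1, h p q hpq, h q p hpq.symm]
  unfold w
  have h2 : (α q : F) * -((v⁻¹ : Fˣ) : F) * ((α p)⁻¹ : Fˣ) =
      -(((α p * v * (α q)⁻¹)⁻¹ : Fˣ) : F) := by
    rw [mul_inv, mul_inv, inv_inv, Units.val_mul, Units.val_mul]
    ring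
  rw [h2]
  simp only [Units.val_mul]

theorem Mon.conj_h {g : G} {σ : I → I} {α : I → Fˣ} (h : S.Mon g σ α) {p q : I} (hpq : p ≠ q)
    (v : Fˣ) : g * S.h p q v * g⁻¹ =
      S.h (σ p) (σ q) (α p * v * (α q)⁻¹) * (S.h (σ p) (σ q) (α p * (α q)⁻¹))⁻¹ := by
  have h1 : g * S.h p q v * g⁻¹ = (g * S.w p q v * g⁻¹) * (g * S.w p q 1 * g⁻¹)⁻¹ := by
    unfold Stb.h
    group
  rw [h1, h.conj_w hpq, h.conj_w hpq, mul_one]
  unfold Stb.h
  group

variable [DecidableEq I]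

/-- weights of `w_ab(u)` -/
def wα (a b : I) (u : Fˣ) (p : I) : Fˣ := if p = a then -u⁻¹ else if p = b then u else 1

/-- weights of `h_ab(u)` -/
def hα (a b : I) (u : Fˣ) (p : I) : Fˣ := if p = a then u else if p = b then u⁻¹ else 1

variable (S)

section triple

variable {a b c : I} (hab : a ≠ b) (hac : a ≠ c) (hbc : b ≠ c)

include hab hac hbc

theorem mon_w (u : Fˣ) : S.Mon (S.w a b u) (Equiv.swap a b) (wα a b u) := by
  intro p q hpq r
  unfold wα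
  by_cases hpa : p = a
  · subst hpa
    rw [Equiv.swap_apply_left, if_pos rfl]
    by_cases hqb : q = b
    · subst hqb
      rw [Equiv.swap_apply_right, if_neg hab.symm, if_pos rfl, S.w_ab hab hac hbc]
      simp
    · rw [Equiv.swap_apply_of_ne_of_ne hpq.symm hqb, if_neg hpq.symm, if_neg hqb,
        S.w_ac hab hpq (Ne.symm hqb)]
      simp
  · by_cases hpb : p = b
    · subst hpb
      rw [Equiv.swap_apply_right, if_neg hpa, if_pos rfl]
      by_cases hqa : q = a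
      · subst hqa
        rw [Equiv.swap_apply_left, if_pos rfl, S.w_ba hab hac hbc]
        simp
      · rw [Equiv.swap_apply_of_ne_of_ne hqa hpq.symm, if_neg hqa, if_neg hpq.symm,
          S.w_bc hab (Ne.symm hqa) hpq]
        simp
    · rw [Equiv.swap_apply_of_ne_of_ne hpa hpb, if_neg hpa, if_neg hpb]
      by_cases hqa : q = a
      · subst hqa
        rw [Equiv.swap_apply_left, if_pos rfl, S.w_ca hab (Ne.symm hpa) (Ne.symm hpb)]
        simp
      · by_cases hqb : q = b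
        · subst hqb
          rw [Equiv.swap_apply_right, if_neg hqa, if_pos rfl,
            S.w_cb hab (Ne.symm hpa) (Ne.symm hpb)]
          simp
        · rw [Equiv.swap_apply_of_ne_of_ne hqa hqb, if_neg hqa, if_neg hqb,
            S.w_disj hab hpq (Ne.symm hpa) (Ne.symm hpb) (Ne.symm hqa) (Ne.symm hqb)]
          simp

theorem mon_h (u : Fˣ) : S.Mon (S.h a b u) id (hα a b u) := by
  unfold Stb.h
  rw [S.w_inv hab]
  refine ((S.mon_w hab hac hbc u).mul (S.mon_w hab hac hbc (-1))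
    (Equiv.swap a b).injective).congr (fun p => Equiv.swap_apply_self a b p) fun p => ?_
  unfold wα hα
  by_cases hpa : p = a
  · subst hpa
    rw [Equiv.swap_apply_left, if_neg hab.symm, if_pos rfl, if_pos rfl, if_pos rfl]
    simp
  · by_cases hpb : p = b
    · subst hpb
      rw [Equiv.swap_apply_right, if_pos rfl, if_neg hpa, if_pos rfl, if_neg hpa, if_pos rfl]
      simp
    · rw [Equiv.swap_apply_of_ne_of_ne hpa hpb, if_neg hpa, if_neg hpb, if_neg hpa, if_neg hpb,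
        if_neg hpa, if_neg hpb, one_mul]

end triple

end mon

end Stb

section S3a

variable {I F G : Type*} [DecidableEq I] [CommRing F] [Group G] (S : Stb I F G)
  {a b c : I} (hab : a ≠ b) (hac : a ≠ c) (hbc : b ≠ c)

include hab hac hbc

theorem Stb.h_conj (u : Fˣ) {p q : I} (hpq : p ≠ q) (r : F) :
    S.h a b u * S.x p q r * (S.h a b u)⁻¹ = S.x p q
      ((if p = a then (u : F) else if p = b then ((u⁻¹ : Fˣ) : F) else 1) * r *
        (if q = a then ((u⁻¹ : Fˣ) : F) else if q = b then (u : F) else 1)) := by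
  rw [S.mon_h hab hac hbc u p q hpq r]
  simp only [id_eq]
  congr 1
  unfold Stb.hα
  congr 1
  · congr 1
    split_ifs <;> simp
  · split_ifs <;> simp

theorem Stb.sy_eq (u v : Fˣ) :
    S.sy a b c u v = S.h a c (u * v) * (S.h a c u)⁻¹ * (S.h a c v)⁻¹ := by
  unfold Stb.sy
  rw [(S.mon_h hab hac hbc u).conj_h hac]
  unfold Stb.hα
  simp only [id_eq, if_true, if_neg hac.symm, if_neg hbc.symm, inv_one, mul_one]

theorem Stb.sy_central (u v : Fˣ) {g : G} (hg : g ∈ S.L) : S.sy a b c u v * g = g * S.sy a b c u v := by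
  have h1 := S.mon_h hab hac hbc u
  have h2 := S.mon_h hac hab hbc.symm v
  have h3 := ((h1.mul h2 Function.injective_id).mul h1.inv Function.injective_id).mul h2.inv
    Function.injective_id
  have h4 : S.Mon (S.sy a b c u v) id (fun _ => 1) := by
    refine h3.congr (fun _ => rfl) fun p => ?_
    simp only [id_eq]
    rw [mul_comm (Stb.hα a b u p), mul_inv_cancel_right, mul_inv_cancel]
  have h5 : ∀ y ∈ S.L, S.sy a b c u v * y * (S.sy a b c u v)⁻¹ = y := by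
    intro y hy
    have h6 : S.L ≤ (MonoidHom.eqLocus (MulAut.conj (S.sy a b c u v)).toMonoidHom
        (MonoidHom.id G)) := by
      refine (Subgroup.closure_le _).2 ?_
      rintro _ ⟨p, q, hpq, r, rfl⟩
      show S.sy a b c u v * S.x p q r * (S.sy a b c u v)⁻¹ = S.x p q r
      rw [h4 p q hpq r]
      simp
    exact h6 hy
  exact mul_inv_eq_iff_eq_mul.1 (h5 g hg)

/-! #### independence of the triple -/

/-- third index -/
theorem Stb.third {p q : I} (hpq : p ≠ q) : ∃ r, p ≠ r ∧ q ≠ r := by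
  by_cases h1 : a ≠ p ∧ a ≠ q
  · exact ⟨a, h1.1.symm, h1.2.symm⟩
  · by_cases h2 : b ≠ p ∧ b ≠ q
    · exact ⟨b, h2.1.symm, h2.2.symm⟩
    · refine ⟨c, ?_, ?_⟩
      · rintro rfl
        have e1 : a = q := by
          by_contra e
          exact h1 ⟨hac, e⟩
        have e2 : b = q := by
          by_contra e
          exact h2 ⟨hbc, e⟩
        exact hab (e1.trans e2.symm)
      · rintro rfl
        have e1 : a = p := by
          by_contra e
          exact h1 ⟨e, hac⟩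
        have e2 : b = p := by
          by_contra e
          exact h2 ⟨e, hbc⟩
        exact hab (e1.trans e2.symm)

omit [DecidableEq I] hab hac hbc in
/-- the symbol of a pair -/
def Stb.cc (p q : I) (u v : Fˣ) : G := S.h p q (u * v) * (S.h p q u)⁻¹ * (S.h p q v)⁻¹

end S3a

section S3a'

variable {I F G : Type*} [DecidableEq I] [CommRing F] [Group G] (S : Stb I F G)

/-- replace the first index -/
theorem Stb.cc_left {p p' q : I} (hpq : p ≠ q) (hp'q : p' ≠ q) (hpp' : p ≠ p') (u v : Fˣ) :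
    S.cc p' q u v = S.cc p q u v := by
  have h1 := S.mon_w hpp' hpq hp'q (-1)
  have h2 : ∀ v : Fˣ, S.w p p' (-1) * S.h p q v * (S.w p p' (-1))⁻¹ = S.h p' q v := by
    intro v
    rw [h1.conj_h hpq, Equiv.swap_apply_left, Equiv.swap_apply_of_ne_of_ne hpq.symm hp'q.symm]
    unfold Stb.wα
    rw [if_pos rfl, if_neg hpq.symm, if_neg hp'q.symm]
    simp only [inv_neg, inv_one, neg_neg, one_mul, mul_one, Stb.h_one]
  have h3 : S.w p p' (-1) * S.cc p q u v * (S.w p p' (-1))⁻¹ = S.cc p' q u v := by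
    unfold Stb.cc
    rw [← h2, ← h2, ← h2]
    group
  have h4 : S.cc p q u v = S.sy p p' q u v := (S.sy_eq hpp' hpq hp'q u v).symm
  rw [← h3, h4, ← S.sy_central hpp' hpq hp'q u v (S.w_mem hpp' (-1)), mul_inv_cancel_right]

/-- replace the second index -/
theorem Stb.cc_right {p q q' : I} (hpq : p ≠ q) (hpq' : p ≠ q') (hqq' : q ≠ q') (u v : Fˣ) :
    S.cc p q' u v = S.cc p q u v := by
  have h1 := S.mon_w hqq' hpq.symm hpq'.symm (-1)
  have h2 : ∀ v : Fˣ, S.w q q' (-1) * S.h p q v * (S.w q q' (-1))⁻¹ = S.h p q' v := by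
    intro v
    rw [h1.conj_h hpq, Equiv.swap_apply_left, Equiv.swap_apply_of_ne_of_ne hpq hpq']
    unfold Stb.wα
    rw [if_pos rfl, if_neg hpq, if_neg hpq']
    simp only [inv_neg, inv_one, neg_neg, one_mul, mul_one, Stb.h_one]
  have h3 : S.w q q' (-1) * S.cc p q u v * (S.w q q' (-1))⁻¹ = S.cc p q' u v := by
    unfold Stb.cc
    rw [← h2, ← h2, ← h2]
    group
  have h4 : S.cc p q u v = S.sy p q' q u v := (S.sy_eq hpq' hpq hqq'.symm u v).symm
  rw [← h3, h4, ← S.sy_central hpq' hpq hqq'.symm u v (S.w_mem hqq' (-1)), mul_inv_cancel_right]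

theorem Stb.cc_indep {a b c : I} (hab : a ≠ b) (hac : a ≠ c) (hbc : b ≠ c) {p q p' q' : I}
    (hpq : p ≠ q) (hpq' : p' ≠ q') (u v : Fˣ) : S.cc p' q' u v = S.cc p q u v := by
  have L : ∀ {p p' q : I}, p ≠ q → p' ≠ q → S.cc p' q u v = S.cc p q u v := by
    intro p p' q h1 h2
    by_cases h3 : p = p'
    · rw [h3]
    · exact S.cc_left h1 h2 h3 u v
  have R : ∀ {p q q' : I}, p ≠ q → p ≠ q' → S.cc p q' u v = S.cc p q u v := by
    intro p q q' h1 h2
    by_cases h3 : q = q'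
    · rw [h3]
    · exact S.cc_right h1 h2 h3 u v
  by_cases h1 : p' = q
  · by_cases h2 : q' = p
    · obtain ⟨r, hr1, hr2⟩ := Stb.third hab hac hbc hpq
      subst h1 h2
      -- (q', p') to (r, p') to (r, q') to (p', q')
      rw [L hr1.symm hpq', R hr2.symm hr1.symm, L hpq hr2.symm]
    · subst h1
      rw [L (Ne.symm h2) hpq', R hpq (Ne.symm h2)]
  · rw [R h1 hpq', L hpq h1]

end S3a'

section S3b'

variable {I F G : Type*} [DecidableEq I] [CommRing F] [Group G] (S : Stb I F G)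
  {a b c : I} (hab : a ≠ b) (hac : a ≠ c) (hbc : b ≠ c)

include hab hac hbc

/-- all triples give the same symbols -/
theorem Stb.sy_indep (u v : Fˣ) {a' b' c' : I} (hab' : a' ≠ b') (hac' : a' ≠ c') (hbc' : b' ≠ c') :
    S.sy a' b' c' u v = S.sy a b c u v := by
  rw [S.sy_eq hab' hac' hbc', S.sy_eq hab hac hbc]
  exact S.cc_indep hab hac hbc hac hac' u v

theorem Stb.sy_mul_right (u v v' : Fˣ) :
    S.sy a b c u (v * v') = S.sy a b c u v * S.sy a b c u v' := by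
  have h1 : S.h a c (v * v') = S.sy a b c v v' * S.h a c v' * S.h a c v := by
    rw [S.sy_eq hab hac hbc]
    group
  have hA := S.h_mem hab u
  have hB := S.h_mem hac v
  have hB' := S.h_mem hac v'
  have hz := fun (u v : Fˣ) (g : G) (hg : g ∈ S.L) => S.sy_central hab hac hbc u v hg
  have hmem : S.sy a b c u v' ∈ S.L :=
    mul_mem (mul_mem (mul_mem hA hB') (inv_mem hA)) (inv_mem hB')
  have e1 : S.sy a b c u (v * v') =
      S.h a b u * S.sy a b c v v' * S.h a c v' * S.h a c v * (S.h a b u)⁻¹ * (S.h a c v)⁻¹ *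
        (S.h a c v')⁻¹ * (S.sy a b c v v')⁻¹ := by
    show S.h a b u * S.h a c (v * v') * (S.h a b u)⁻¹ * (S.h a c (v * v'))⁻¹ = _
    rw [h1]
    group
  have e2 : S.h a b u * S.h a c v' * S.h a c v * (S.h a b u)⁻¹ * (S.h a c v)⁻¹ * (S.h a c v')⁻¹ =
      S.sy a b c u v' * (S.h a c v' * S.sy a b c u v) * (S.h a c v')⁻¹ := by
    unfold Stb.sy
    group
  have e3 : S.sy a b c u (v * v') = S.sy a b c v v' *
      (S.h a b u * S.h a c v' * S.h a c v * (S.h a b u)⁻¹ * (S.h a c v)⁻¹ * (S.h a c v')⁻¹) *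
        (S.sy a b c v v')⁻¹ := by
    rw [e1, ← hz v v' _ hA]
    group
  have hmem2 : S.sy a b c u v * S.sy a b c u v' ∈ S.L := mul_mem (S.sy_mem' hab hac u v) hmem
  rw [e3, e2, ← hz u v _ hB']
  calc S.sy a b c v v' * (S.sy a b c u v' * (S.sy a b c u v * S.h a c v') * (S.h a c v')⁻¹) *
        (S.sy a b c v v')⁻¹
      = S.sy a b c v v' * (S.sy a b c u v' * S.sy a b c u v) * (S.sy a b c v v')⁻¹ := by group
    _ = S.sy a b c v v' * (S.sy a b c u v * S.sy a b c u v') * (S.sy a b c v v')⁻¹ := by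
        rw [hz u v _ hmem]
    _ = S.sy a b c u v * S.sy a b c u v' := by
        rw [hz v v' _ hmem2, mul_inv_cancel_right]

theorem Stb.sy_skew (u v : Fˣ) : S.sy a b c v u = (S.sy a b c u v)⁻¹ := by
  have h1 : S.sy a c b v u = S.sy a b c v u := S.sy_indep hab hac hbc v u hac hab hbc.symm
  rw [← h1]
  unfold Stb.sy
  group

theorem Stb.sy_mul_left (u u' v : Fˣ) :
    S.sy a b c (u * u') v = S.sy a b c u v * S.sy a b c u' v := by
  have hmem : S.sy a b c v u' ∈ S.L := S.sy_mem' hab hac v u'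
  rw [S.sy_skew hab hac hbc v (u * u'), S.sy_mul_right hab hac hbc, mul_inv_rev,
    ← S.sy_skew hab hac hbc v u, ← S.sy_skew hab hac hbc v u']
  exact (S.sy_central hab hac hbc u' v (S.sy_mem' hab hac u v))

variable (hsy : ∀ u v, S.sy a b c u v = 1)
include hsy

theorem Stb.h_mul {p q : I} (hpq : p ≠ q) (u v : Fˣ) : S.h p q (u * v) = S.h p q u * S.h p q v := by
  obtain ⟨r, h1, h2⟩ := Stb.third hab hac hbc hpq
  have h3 : S.sy p r q v u = 1 := by
    rw [S.sy_indep hab hac hbc v u h1 hpq h2.symm, hsy]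
  rw [S.sy_eq h1 hpq h2.symm, mul_inv_eq_one, mul_inv_eq_iff_eq_mul] at h3
  rw [mul_comm u v, h3]

theorem Stb.h_inv {p q : I} (hpq : p ≠ q) (u : Fˣ) : (S.h p q u)⁻¹ = S.h p q u⁻¹ := by
  rw [inv_eq_iff_mul_eq_one, ← S.h_mul hab hac hbc hsy hpq, mul_inv_cancel, S.h_one]

theorem Stb.h_comm {p q p' q' : I} (hpq : p ≠ q) (hpq' : p' ≠ q') (u v : Fˣ) :
    S.h p q u * S.h p' q' v = S.h p' q' v * S.h p q u := by
  obtain ⟨r, h1, h2⟩ := Stb.third hab hac hbc hpq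
  have h3 := (S.mon_h hpq h1 h2 u).conj_h hpq' v
  simp only [id_eq] at h3
  rw [show Stb.hα p q u p' * v * (Stb.hα p q u q')⁻¹ = v * (Stb.hα p q u p' * (Stb.hα p q u q')⁻¹) by
    rw [mul_comm _ v, mul_assoc], S.h_mul hab hac hbc hsy hpq', mul_inv_cancel_right] at h3
  exact mul_inv_eq_iff_eq_mul.1 h3

/-- conjugation of the torus element by the Weyl element -/
theorem Stb.w_h {p q : I} (hpq : p ≠ q) (u : Fˣ) :
    (S.w p q 1)⁻¹ * S.h p q u * S.w p q 1 = (S.h p q u)⁻¹ := by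
  obtain ⟨r, h1, h2⟩ := Stb.third hab hac hbc hpq
  have h3 := (S.mon_h hpq h1 h2 u).conj_w hpq 1
  simp only [id_eq] at h3
  unfold Stb.hα at h3
  rw [if_pos rfl, if_neg hpq.symm, if_pos rfl, inv_inv, mul_one] at h3
  -- h w(1) h⁻¹ = w (u * u)
  have h4 : S.w p q (u * u) = S.h p q u * S.h p q u * S.w p q 1 := by
    rw [← S.h_mul hab hac hbc hsy hpq]
    unfold Stb.h
    group
  rw [h4, mul_assoc, mul_assoc, mul_left_cancel_iff] at h3
  rw [mul_assoc, ← h3]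
  group

theorem Stb.h_symm {p q : I} (hpq : p ≠ q) (u : Fˣ) : S.h q p u = (S.h p q u)⁻¹ := by
  obtain ⟨r, h1, h2⟩ := Stb.third hab hac hbc hpq
  have e1 : ∀ v : Fˣ, S.w p q v = S.w q p (-v⁻¹) := by
    intro v
    have h3 := (S.mon_w hpq h1 h2 v).conj_w hpq v
    rw [mul_inv_cancel_right, Equiv.swap_apply_left, Equiv.swap_apply_right] at h3
    unfold Stb.wα at h3
    rw [if_pos rfl, if_neg hpq.symm, if_pos rfl] at h3
    rw [h3]
    congr 1
    simp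
  have e2 : ∀ v : Fˣ, S.w q p v = (S.w p q v⁻¹)⁻¹ := by
    intro v
    rw [S.w_inv hpq, e1 (-v⁻¹)]
    congr 1
    simp
  have e3 : S.h q p u = ((S.w p q 1)⁻¹ * S.h p q u⁻¹ * S.w p q 1)⁻¹ := by
    unfold Stb.h
    rw [e2, e2, inv_one]
    group
  rw [e3, S.w_h hab hac hbc hsy hpq, inv_inv, ← S.h_inv hab hac hbc hsy hpq]

theorem Stb.h_trans {p q r : I} (hpq : p ≠ q) (hqr : q ≠ r) (hpr : p ≠ r) (u : Fˣ) :
    S.h p q u * S.h q r u = S.h p r u := by
  have h1 := (S.mon_w hqr hpq.symm hpr.symm (-1)).conj_h hpq u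
  rw [Equiv.swap_apply_left, Equiv.swap_apply_of_ne_of_ne hpq hpr] at h1
  unfold Stb.wα at h1
  rw [if_neg hpq, if_neg hpr, if_pos rfl] at h1
  simp only [inv_neg, inv_one, neg_neg, one_mul, mul_one, Stb.h_one] at h1
  -- h1 : w_qr(-1) h_pq(u) w_qr(-1)⁻¹ = h_pr(u)
  have h2 := (S.mon_h hpq hpr hqr u).conj_w hqr (-1)
  simp only [id_eq] at h2
  unfold Stb.hα at h2
  rw [if_neg hpq.symm, if_pos rfl, if_neg hpr.symm, if_neg hqr.symm, inv_one, mul_one] at h2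
  -- h2 : h_pq(u) w_qr(-1) h_pq(u)⁻¹ = w_qr(u⁻¹ * -1)
  have h3 : S.h p r u = S.w q r (-1) * (S.h p q u * S.w q r (-1) * (S.h p q u)⁻¹)⁻¹ * S.h p q u := by
    rw [← h1]
    group
  have h4 : S.w q r (-1) * (S.w q r (u⁻¹ * -1))⁻¹ = S.h q r u := by
    have h5 : S.w q r (u⁻¹ * -1) = (S.w q r u⁻¹)⁻¹ := by
      rw [S.w_inv hqr]
      congr 1
      simp
    rw [h5, ← S.w_inv hqr, inv_inv]
    have h6 := S.w_h hab hac hbc hsy hqr u⁻¹
    rw [S.h_inv hab hac hbc hsy hqr, inv_inv] at h6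
    rw [← h6]
    unfold Stb.h
    group
  rw [h3, h2, h4, S.h_comm hab hac hbc hsy hpq hqr]

/-- the rank one identity for a unit `r` -/
theorem Stb.rank_one_unit {p q : I} (hpq : p ≠ q) (m : F) (r u : Fˣ)
    (hu : (u : F) = 1 + m * r) :
    S.x q p m * S.x p q r =
      S.x p q (r * (u⁻¹ : Fˣ)) * S.h q p u * S.x q p (m * (u⁻¹ : Fˣ)) := by
  obtain ⟨c', h1, h2⟩ := Stb.third hab hac hbc hpq
  -- letters through Weyl elements
  have e1 : S.x p q (r : F) = S.w p q r * S.x p q (-(r : F)) * S.x q p ((r⁻¹ : Fˣ) : F) := by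
    unfold Stb.w
    rw [S.x_neg hpq, S.x_neg hpq.symm]
    group
  have e2 : S.x p q (-((r * u : Fˣ) : F)) =
      (S.w p q (r * u))⁻¹ * S.x p q ((r * u : Fˣ) : F) * S.x q p (-(((r * u)⁻¹ : Fˣ) : F)) := by
    unfold Stb.w
    rw [S.x_neg hpq, S.x_neg hpq.symm]
    group
  have e3 : S.x q p m * S.w p q r = S.w p q r * S.x p q (-(r : F) * m * r) := by
    have h3 := S.mon_w hpq h1 h2 (-r) q p hpq.symm m
    rw [Equiv.swap_apply_left, Equiv.swap_apply_right] at h3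
    unfold Stb.wα at h3
    rw [if_pos rfl, if_neg hpq.symm, if_pos rfl] at h3
    have h4 : ((-(-r)⁻¹)⁻¹ : Fˣ) = r := by simp
    rw [h4, Units.val_neg] at h3
    rw [← h3, ← S.w_inv hpq]
    group
  have e4 : S.w p q r * (S.w p q (r * u))⁻¹ = S.h q p u := by
    have h3 : S.w p q r * (S.w p q (r * u))⁻¹ = S.h p q r * (S.h p q (u * r))⁻¹ := by
      rw [mul_comm u r]
      unfold Stb.h
      group
    rw [h3, S.h_mul hab hac hbc hsy hpq, mul_inv_rev, mul_inv_cancel_left,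
      S.h_symm hab hac hbc hsy hpq]
  have e5 : S.h q p u * S.x p q ((r * u : Fˣ) : F) = S.x p q (r * (u⁻¹ : Fˣ)) * S.h q p u := by
    have h3 := S.mon_h hpq.symm h2 h1 u p q hpq ((r * u : Fˣ) : F)
    simp only [id_eq] at h3
    unfold Stb.hα at h3
    rw [if_neg hpq, if_pos rfl, if_pos rfl] at h3
    have h4 : ((u⁻¹ : Fˣ) : F) * ((r * u : Fˣ) : F) * ((u⁻¹ : Fˣ) : F) = r * (u⁻¹ : Fˣ) := by
      rw [Units.val_mul]
      linear_combination (r : F) * ((u⁻¹ : Fˣ) : F) * u.mul_inv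
    rw [h4] at h3
    rw [← h3]
    group
  have e6 : -(r : F) * m * r + -(r : F) = -((r * u : Fˣ) : F) := by
    rw [Units.val_mul, hu]
    ring
  have e7 : -(((r * u)⁻¹ : Fˣ) : F) + ((r⁻¹ : Fˣ) : F) = m * (u⁻¹ : Fˣ) := by
    have a1 := r.mul_inv
    have a2 := u.mul_inv
    rw [mul_inv, Units.val_mul]
    -- -(r⁻¹ u⁻¹) + r⁻¹ = m u⁻¹
    have a3 : ((r⁻¹ : Fˣ) : F) = ((r⁻¹ : Fˣ) : F) * (u * (u⁻¹ : Fˣ)) := by rw [a2, mul_one]
    calc -(((r⁻¹ : Fˣ) : F) * ((u⁻¹ : Fˣ) : F)) + ((r⁻¹ : Fˣ) : F)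
        = -(((r⁻¹ : Fˣ) : F) * ((u⁻¹ : Fˣ) : F)) + ((r⁻¹ : Fˣ) : F) * (u * (u⁻¹ : Fˣ)) := by
          rw [← a3]
      _ = ((u : F) - 1) * ((r⁻¹ : Fˣ) : F) * ((u⁻¹ : Fˣ) : F) := by ring
      _ = m * ((r : F) * ((r⁻¹ : Fˣ) : F)) * ((u⁻¹ : Fˣ) : F) := by rw [hu]; ring
      _ = m * (u⁻¹ : Fˣ) := by rw [a1, mul_one]
  calc S.x q p m * S.x p q r
      = (S.x q p m * S.w p q r) * S.x p q (-(r : F)) * S.x q p ((r⁻¹ : Fˣ) : F) := by
        rw [e1]; group
    _ = S.w p q r * (S.x p q (-(r : F) * m * r) * S.x p q (-(r : F))) *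
          S.x q p ((r⁻¹ : Fˣ) : F) := by
        rw [e3]; group
    _ = S.w p q r * S.x p q (-((r * u : Fˣ) : F)) * S.x q p ((r⁻¹ : Fˣ) : F) := by
        rw [← S.add hpq, e6]
    _ = (S.w p q r * (S.w p q (r * u))⁻¹) * S.x p q ((r * u : Fˣ) : F) *
          (S.x q p (-(((r * u)⁻¹ : Fˣ) : F)) * S.x q p ((r⁻¹ : Fˣ) : F)) := by
        rw [e2]; group
    _ = S.x p q (r * (u⁻¹ : Fˣ)) * S.h q p u * S.x q p (m * (u⁻¹ : Fˣ)) := by
        rw [e4, e5, ← S.add hpq.symm, e7]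

/-- the rank one identity -/
theorem Stb.rank_one (hF : ∀ m r : F, IsUnit (1 + m * r) → ∃ r₁ r₂ : F, r = r₁ + r₂ ∧ IsUnit r₁ ∧
      IsUnit r₂ ∧ IsUnit (1 + m * r₁)) {p q : I} (hpq : p ≠ q) (m r : F) (u : Fˣ)
    (hu : (u : F) = 1 + m * r) :
    S.x q p m * S.x p q r =
      S.x p q (r * (u⁻¹ : Fˣ)) * S.h q p u * S.x q p (m * (u⁻¹ : Fˣ)) := by
  obtain ⟨_, _, hr, ⟨r₁, rfl⟩, ⟨r₂, rfl⟩, ⟨u₁, hu₁⟩⟩ := hF m r (hu ▸ u.isUnit)
  obtain ⟨c', h1, h2⟩ := Stb.third hab hac hbc hpq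
  have a1 := u.mul_inv
  have a2 := u₁.mul_inv
  -- second step
  have k1 : ((u * u₁⁻¹ : Fˣ) : F) = 1 + m * (u₁⁻¹ : Fˣ) * r₂ := by
    rw [Units.val_mul, hu, hr]
    have : (1 + m * ((r₁ : F) + r₂)) = (u₁ : F) + m * r₂ := by rw [hu₁]; ring
    rw [this]
    linear_combination a2
  have s1 := S.rank_one_unit hab hac hbc hsy hpq m r₁ u₁ hu₁
  have s2 := S.rank_one_unit hab hac hbc hsy hpq (m * (u₁⁻¹ : Fˣ)) r₂ (u * u₁⁻¹) k1
  have k2 : m * ((u₁⁻¹ : Fˣ) : F) * (((u * u₁⁻¹)⁻¹ : Fˣ) : F) = m * (u⁻¹ : Fˣ) := by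
    rw [mul_inv, inv_inv, Units.val_mul]
    linear_combination m * ((u⁻¹ : Fˣ) : F) * a2
  have k3 : S.h q p u₁ * S.x p q ((r₂ : F) * (((u * u₁⁻¹)⁻¹ : Fˣ) : F)) =
      S.x p q ((r₂ : F) * (u⁻¹ : Fˣ) * (u₁⁻¹ : Fˣ)) * S.h q p u₁ := by
    have h3 := S.mon_h hpq.symm h2 h1 u₁ p q hpq ((r₂ : F) * (((u * u₁⁻¹)⁻¹ : Fˣ) : F))
    simp only [id_eq] at h3
    unfold Stb.hα at h3
    rw [if_neg hpq, if_pos rfl, if_pos rfl] at h3
    have h4 : ((u₁⁻¹ : Fˣ) : F) * ((r₂ : F) * (((u * u₁⁻¹)⁻¹ : Fˣ) : F)) * ((u₁⁻¹ : Fˣ) : F) =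
        (r₂ : F) * (u⁻¹ : Fˣ) * (u₁⁻¹ : Fˣ) := by
      rw [mul_inv, inv_inv, Units.val_mul]
      linear_combination (r₂ : F) * ((u⁻¹ : Fˣ) : F) * ((u₁⁻¹ : Fˣ) : F) * a2
    rw [h4] at h3
    rw [← h3]
    group
  have k4 : (r₁ : F) * ((u₁⁻¹ : Fˣ) : F) + (r₂ : F) * (u⁻¹ : Fˣ) * (u₁⁻¹ : Fˣ) =
      r * (u⁻¹ : Fˣ) := by
    -- multiply by u u₁
    have h5 : (r₁ : F) * u + r₂ = r * u₁ := by
      rw [hu, hu₁, hr]; ring
    calc (r₁ : F) * ((u₁⁻¹ : Fˣ) : F) + (r₂ : F) * (u⁻¹ : Fˣ) * (u₁⁻¹ : Fˣ)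
        = (r₁ : F) * (u * (u⁻¹ : Fˣ)) * ((u₁⁻¹ : Fˣ) : F) + (r₂ : F) * (u⁻¹ : Fˣ) * (u₁⁻¹ : Fˣ) := by
          rw [a1, mul_one]
      _ = ((r₁ : F) * u + r₂) * (u⁻¹ : Fˣ) * (u₁⁻¹ : Fˣ) := by ring
      _ = r * (u⁻¹ : Fˣ) * (u₁ * (u₁⁻¹ : Fˣ)) := by rw [h5]; ring
      _ = r * (u⁻¹ : Fˣ) := by rw [a2, mul_one]
  have k5 : S.h q p u₁ * S.h q p (u * u₁⁻¹) = S.h q p u := by
    rw [← S.h_mul hab hac hbc hsy hpq.symm]
    congr 1
    rw [mul_comm u, mul_inv_cancel_left]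
  calc S.x q p m * S.x p q r
      = (S.x q p m * S.x p q r₁) * S.x p q r₂ := by
        rw [hr, S.add hpq]; group
    _ = S.x p q (r₁ * (u₁⁻¹ : Fˣ)) * S.h q p u₁ * (S.x q p (m * (u₁⁻¹ : Fˣ)) * S.x p q r₂) := by
        rw [s1]; group
    _ = S.x p q (r₁ * (u₁⁻¹ : Fˣ)) * (S.h q p u₁ * S.x p q ((r₂ : F) * (((u * u₁⁻¹)⁻¹ : Fˣ) : F))) *
          S.h q p (u * u₁⁻¹) * S.x q p (m * (u⁻¹ : Fˣ)) := by
        rw [s2, k2]; group
    _ = (S.x p q (r₁ * (u₁⁻¹ : Fˣ)) * S.x p q ((r₂ : F) * (u⁻¹ : Fˣ) * (u₁⁻¹ : Fˣ))) *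
          (S.h q p u₁ * S.h q p (u * u₁⁻¹)) * S.x q p (m * (u⁻¹ : Fˣ)) := by
        rw [k3]; group
    _ = S.x p q (r * (u⁻¹ : Fˣ)) * S.h q p u * S.x q p (m * (u⁻¹ : Fˣ)) := by
        rw [← S.add hpq, k4, k5]

end S3b'

end BWG
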